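import Pool.Agent.QT.D14
import Pool.Agent.TU.Q3

/-!
# [QTB-F0] the local conditions over `F = K(√m)`, `K = ℚ(i)`: definitions

`D = Dd s t S a` good, `T` a finite set of primary primes `q ∤ D`, `[D / q] = 1`, `m = ∏_{q ∈ T} q*`, `cl m 0 0` (`m ≡ 1 mod (1 + i)⁵`), `F = K(√m)`.
`SO = {p ∈ S : a p odd}`, `O = SO ∪ T`. The elements of `K*` modulo squares, with even valuations outside of `1 + i` and `O`, are represented by `rep z`, `z ∈ V O = F_2 × F_2 × F_2^O`.
-/

set_option autoImplicit false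

open NumberField IsDedekindDomain
open scoped Classical

namespace QTC

open PI (Gi sy ii la Prim emK eG KI la_prime pl)
open QT (st Dd Adm bD gD Good)
open QTD (LocB cl vla)
open TU (QS Ur Sq)

/-- `∏ q*` -/
noncomputable def mT (T : Finset Gi) : Gi := ∏ q ∈ T, st q

/-- the data -/
structure Dat (s t : ℕ) (S : Finset Gi) (a : Gi → ℕ) (T : Finset Gi) (F : Type) [Field F] [NumberField F]
    [Algebra KI F] where
  good : Good s t S a
  pr : ∀ q ∈ T, Prime q ∧ Prim q
  disj : Disjoint S T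
  nice : ∀ q ∈ T, sy (Dd s t S a) q = 1
  cl0 : cl (mT T) 0 0
  Q : QS KI F
  he : Q.e = emK (mT T)

/-- the primes with odd exponents -/
noncomputable def SO (S : Finset Gi) (a : Gi → ℕ) : Finset Gi := S.filter fun p => Odd (a p)

/-- representatives modulo squares -/
abbrev V (O : Finset Gi) : Type := ZMod 2 × ZMod 2 × (O → ZMod 2)

/-- `i^x (1+i)^y ∏ q^(z_q)` -/
noncomputable def repG {O : Finset Gi} (z : V O) : Gi :=
  ii ^ z.1.val * la ^ z.2.1.val * ∏ q : O, (q : Gi) ^ (z.2.2 q).val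

noncomputable def rep {O : Finset Gi} (z : V O) : KI := emK (repG z)

/-- the symbol of `D / p^(a p)` at `p ∈ S` -/
noncomputable def sD (s t : ℕ) (S : Finset Gi) (a : Gi → ℕ) (p : Gi) : ZMod 2 :=
  (s : ZMod 2) * sy ii p + (t : ZMod 2) * sy la p + ∑ l ∈ S.erase p, (a l : ZMod 2) * sy l p

/-- the Hilbert symbol `(rep z, D)` at `p ∈ S`, `a p` odd -/
noncomputable def rho (s t : ℕ) (S : Finset Gi) (a : Gi → ℕ) {O : Finset Gi} (p : Gi) (z : V O) : ZMod 2 :=
  z.1 * sy ii p + z.2.1 * sy la p + ∑ q : O, if (q : Gi) = p then z.2.2 q * sD s t S a p else z.2.2 q * sy q p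

/-- `β(rep z)`, `γ(rep z)` -/
noncomputable def be {O : Finset Gi} (z : V O) : ZMod 2 := ∑ q : O, z.2.2 q * sy ii q
noncomputable def ga {O : Finset Gi} (z : V O) : ZMod 2 := ∑ q : O, z.2.2 q * sy la q

/-- the class of `rep z` at `1 + i` -/
noncomputable def cV {O : Finset Gi} (z : V O) : ZMod 2 × ZMod 2 × ZMod 2 × ZMod 2 := (z.1, z.2.1, be z, ga z)

/-- the class of `D` at `1 + i` -/
noncomputable def cD (s t : ℕ) (S : Finset Gi) (a : Gi → ℕ) : ZMod 2 × ZMod 2 × ZMod 2 × ZMod 2 :=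
  ((s : ZMod 2), (t : ZMod 2), bD S a, gD S a)

/-- the Hilbert symbol at `1 + i` in terms of the classes -/
def HB (c c' : ZMod 2 × ZMod 2 × ZMod 2 × ZMod 2) : ZMod 2 :=
  c.1 * c'.2.2.1 + c.2.2.1 * c'.1 + c.2.1 * c'.2.2.2 + c.2.2.2 * c'.2.1

/-- the local condition at the places of `F` -/
def InA (D : KI) (F : Type) [Field F] [NumberField F] [Algebra KI F] (c : KI) : Prop :=
  ∀ w : HeightOneSpectrum (𝓞 F), LocB (algebraMap KI F D) (algebraMap KI F c) (w.adicCompletion F)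

section
variable {s t : ℕ} {S : Finset Gi} {a : Gi → ℕ}

theorem mem_SO {p : Gi} : p ∈ SO S a ↔ p ∈ S ∧ Odd (a p) := Finset.mem_filter

theorem SO_sub : SO S a ⊆ S := Finset.filter_subset _ _

/-- the representative of `D` -/
noncomputable def zD (s t : ℕ) (S : Finset Gi) (a : Gi → ℕ) (T : Finset Gi) : V (SO S a ∪ T) :=
  ((s : ZMod 2), (t : ZMod 2), fun q => if (q : Gi) ∈ SO S a then 1 else 0)

/-- the representative of `m` -/
noncomputable def zm (S : Finset Gi) (a : Gi → ℕ) (T : Finset Gi) : V (SO S a ∪ T) :=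
  (0, 0, fun q => if (q : Gi) ∈ T then 1 else 0)

end

end QTC
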