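import Pool.Agent.QTB.F1a

/-!
# [QTB-F1c] existence and uniqueness of the representative
-/

set_option autoImplicit false

open NumberField IsDedekindDomain
open scoped Classical

namespace QTC

open PI (Gi sy ii la Prim emK eG KI la_prime pl)
open QT (st Dd Adm bD gD Good)
open QTD (LocB cl vla)

section
variable {O : Finset Gi} (hO : ∀ p ∈ O, Prime p ∧ Prim p)
include hO

/-- a representative which is a square is trivial -/
theorem f1c_zero (y : V O) (w : KI) (hw : rep y = w ^ 2) : y = 0 := by
  have h01 : ∀ u : ZMod 2, u ≠ 0 → u = 1 := by decide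
  have hrep : rep y = emK (repG y) := rfl
  have hq : ∀ q : O, y.2.2 q = 0 := by
    intro q
    by_contra hne
    have h1 : y.2.2 q = 1 := h01 _ hne
    have hqp : Prime (q : Gi) := (hO q q.2).1
    have hqP : Prim (q : Gi) := (hO q q.2).2
    have hv : (pl (q : Gi) hqp).asIdeal = Ideal.span {eG (q : Gi)} := rfl
    have h2 : repG y = (q : Gi) * (ii ^ y.1.val * la ^ y.2.1.val *
        ∏ q' ∈ Finset.univ.erase q, (q' : Gi) ^ (y.2.2 q').val) := by
      unfold repG
      rw [← Finset.mul_prod_erase Finset.univ _ (Finset.mem_univ q), h1]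
      have h3 : (1 : ZMod 2).val = 1 := rfl
      rw [h3, pow_one]
      ring
    have h3 : ¬ (q : Gi) ∣ (ii ^ y.1.val * la ^ y.2.1.val *
        ∏ q' ∈ Finset.univ.erase q, (q' : Gi) ^ (y.2.2 q').val) := by
      intro hd
      rcases hqp.dvd_or_dvd hd with h4 | h4
      · rcases hqp.dvd_or_dvd h4 with h5 | h5
        · exact PID.not_dvd_ii hqp (hqp.dvd_of_dvd_pow h5)
        · exact PID.not_dvd_la hqp hqP (hqp.dvd_of_dvd_pow h5)
      · obtain ⟨q', hq', h5⟩ := (hqp.dvd_finsetProd_iff _).1 h4
        have h6 := hqp.dvd_of_dvd_pow h5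
        refine PID.not_dvd_of_ne hqp hqP (hO q' q'.2).1 (hO q' q'.2).2 ?_ h6
        intro e
        exact (Finset.mem_erase.1 hq').1 (Subtype.ext e.symm)
    have h4 := PID.val_mul hv h3
    rw [← h2, ← hrep, hw] at h4
    exact QTD.odd_contra _ (n := -1) (by decide) h4
  have hl : y.2.1 = 0 := by
    by_contra hne
    have h1 : y.2.1 = 1 := h01 _ hne
    have hv : (pl la la_prime).asIdeal = Ideal.span {eG la} := rfl
    have h2 : repG y = la * (ii ^ y.1.val * ∏ q' : O, (q' : Gi) ^ (y.2.2 q').val) := by
      unfold repG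
      rw [h1]
      have h3 : (1 : ZMod 2).val = 1 := rfl
      rw [h3, pow_one]
      ring
    have h3 : ¬ la ∣ (ii ^ y.1.val * ∏ q' : O, (q' : Gi) ^ (y.2.2 q').val) := by
      intro hd
      rcases la_prime.dvd_or_dvd hd with h4 | h4
      · exact PID.not_dvd_ii la_prime (la_prime.dvd_of_dvd_pow h4)
      · obtain ⟨q', _, h5⟩ := (la_prime.dvd_finsetProd_iff _).1 h4
        exact (hO q' q'.2).2.not_la (la_prime.dvd_of_dvd_pow h5)
    have h4 := PID.val_mul hv h3
    rw [← h2, ← hrep, hw] at h4
    exact QTD.odd_contra _ (n := -1) (by decide) h4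
  have hi : y.1 = 0 := by
    by_contra hne
    have h1 : y.1 = 1 := h01 _ hne
    have h0v : (0 : ZMod 2).val = 0 := rfl
    have h1v : (1 : ZMod 2).val = 1 := rfl
    have h2 : repG y = ii := by
      unfold repG
      rw [h1, hl, h1v, h0v, pow_one, pow_zero, mul_one]
      rw [Finset.prod_eq_one, mul_one]
      intro q' _
      rw [hq q', h0v, pow_zero]
    rw [hrep, h2] at hw
    have hint : IsIntegral ℤ w := by
      apply IsIntegral.of_pow (n := 4) (by norm_num)
      have h3 : w ^ 4 = -1 := by
        have h4 := PID.emK_ii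
        rw [hw] at h4
        rw [← h4]
        ring
      rw [h3]
      exact isIntegral_one.neg
    obtain ⟨g, hg⟩ := eG.surjective (⟨w, hint⟩ : 𝓞 KI)
    have hgw : emK g = w := by
      have h5 := congrArg (fun z : 𝓞 KI => (z : KI)) hg
      exact h5
    have hgg : g * g = ii := by
      by_contra hne'
      apply PID.emK_ne (sub_ne_zero.2 hne')
      rw [map_sub, map_mul, hgw, hw, sq, sub_self]
    have him := congrArg Zsqrtd.im hgg
    rw [PI.s1a_mul_im] at him
    have h6 : (ii : Gi).im = 1 := rfl
    rw [h6, mul_comm g.im g.re] at him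
    omega
  refine Prod.ext hi (Prod.ext hl ?_)
  funext q
  exact hq q

/-- [QTB-F1c] PROOF. Existence: `PID.exists_form` (`T ⊆ O`, `z` = the indicator function). Uniqueness: if `rep z = rep z' r²`, then `rep (z + z')` is a square (`rep_add`); a prime `q ∈ O` with `(z + z') q = 1` has odd valuation at `pl q` (`PID.val_self`, `PID.not_dvd_of_ne` ..., `QTD.not_sq_odd` / `PID.d14_exp`), the same
for `1 + i`; so `z + z' = (x, 0, 0)` and `x = 0` since `i` is not a square in `KI` (a square root would be integral, `= eG g`, `g² = i` impossible in `ℤ[i]`, `Zsqrtd` components: `a² - b² = 0`, `2ab = 1`). `z + z' = 0` gives `z = z'` (characteristic 2). -/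
theorem exists_rep (c : KI) (hc : c ≠ 0)
    (h : ∀ v : HeightOneSpectrum (𝓞 KI), v.asIdeal ≠ Ideal.span {eG la} → (∀ p ∈ O, v.asIdeal ≠ Ideal.span {eG p}) →
      ∃ g : WithZero (Multiplicative ℤ), v.valuation KI c = g ^ 2) :
    ∃! z : V O, ∃ r : KI, r ≠ 0 ∧ c = rep z * r ^ 2 := by
  obtain ⟨x, y, T, r, hx, hy, hT, hr, hcr⟩ := PID.exists_form O hO c hc h
  have hval : ∀ k : ℕ, k ≤ 1 → ((k : ZMod 2)).val = k := by
    intro k hk
    rcases Nat.le_one_iff_eq_zero_or_eq_one.1 hk with rfl | rfl <;> rfl
  refine ⟨((x : ZMod 2), (y : ZMod 2), fun q => if (q : Gi) ∈ T then 1 else 0), ⟨r, hr, ?_⟩, ?_⟩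
  · rw [hcr]
    congr 1
    unfold rep repG
    congr 1
    simp only
    rw [hval x hx, hval y hy]
    congr 1
    have h1 : ∀ q : O, (q : Gi) ^ (if (q : Gi) ∈ T then (1 : ZMod 2) else 0).val =
        (fun p : Gi => if p ∈ T then p else 1) (q : Gi) := by
      intro q
      simp only
      by_cases hqT : (q : Gi) ∈ T
      · rw [if_pos hqT, if_pos hqT]
        have h1v : (1 : ZMod 2).val = 1 := rfl
        rw [h1v, pow_one]
      · rw [if_neg hqT, if_neg hqT]
        have h0v : (0 : ZMod 2).val = 0 := rfl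
        rw [h0v, pow_zero]
    rw [Finset.prod_congr rfl fun q _ => h1 q,
      Finset.prod_coe_sort O (fun p : Gi => if p ∈ T then p else 1)]
    symm
    rw [← Finset.prod_subset hT]
    · exact Finset.prod_congr rfl fun q hq => if_pos hq
    · intro q _ hq
      exact if_neg hq
  · rintro z' ⟨r', hr', hcr'⟩
    set z : V O := ((x : ZMod 2), (y : ZMod 2), fun q => if (q : Gi) ∈ T then 1 else 0) with hz
    have hz1 : c = rep z * r ^ 2 := by
      rw [hcr]
      congr 1
      unfold rep repG
      congr 1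
      simp only [hz]
      rw [hval x hx, hval y hy]
      congr 1
      have h1 : ∀ q : O, (q : Gi) ^ (if (q : Gi) ∈ T then (1 : ZMod 2) else 0).val =
          (fun p : Gi => if p ∈ T then p else 1) (q : Gi) := by
        intro q
        simp only
        by_cases hqT : (q : Gi) ∈ T
        · rw [if_pos hqT, if_pos hqT]
          have h1v : (1 : ZMod 2).val = 1 := rfl
          rw [h1v, pow_one]
        · rw [if_neg hqT, if_neg hqT]
          have h0v : (0 : ZMod 2).val = 0 := rfl
          rw [h0v, pow_zero]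
      rw [Finset.prod_congr rfl fun q _ => h1 q,
        Finset.prod_coe_sort O (fun p : Gi => if p ∈ T then p else 1)]
      symm
      rw [← Finset.prod_subset hT]
      · exact Finset.prod_congr rfl fun q hq => if_pos hq
      · intro q _ hq
        exact if_neg hq
    obtain ⟨ρ, hρ, hadd⟩ := rep_add hO z' z
    have h2 : rep z' * r' ^ 2 = rep z * r ^ 2 := by rw [← hcr', hz1]
    have h3 : rep (z' + z) = (rep z * r * ρ / r') ^ 2 := by
      rw [hadd]
      field_simp
      linear_combination rep z * h2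
    have h4 := f1c_zero hO (z' + z) _ h3
    have h5 : ∀ u v : ZMod 2, u + v = 0 → u = v := by decide
    refine Prod.ext (h5 _ _ (congrArg Prod.fst h4)) (Prod.ext
      (h5 _ _ (congrArg (fun t : V O => t.2.1) h4)) ?_)
    funext q
    exact h5 _ _ (congrFun (congrArg (fun t : V O => t.2.2) h4) q)

end

end QTC
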