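import Pool.Agent.QTB.F1a

/-!
# [QTB-F1d] the representatives of `D` and `m`
-/

set_option autoImplicit false

open NumberField IsDedekindDomain
open scoped Classical

namespace QTC

open PI (Gi sy ii la Prim emK eG KI la_prime pl)
open QT (st Dd Adm bD gD Good)
open QTD (LocB cl vla)

theorem f1d_prod {O A : Finset Gi} (hA : A ⊆ O) :
    ∏ q : O, (q : Gi) ^ (if (q : Gi) ∈ A then (1 : ZMod 2) else 0).val = ∏ q ∈ A, q := by
  rw [Finset.prod_coe_sort O (fun q : Gi => q ^ (if q ∈ A then (1 : ZMod 2) else 0).val)]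
  have h1 : ∀ q : Gi, q ^ (if q ∈ A then (1 : ZMod 2) else 0).val = if q ∈ A then q else 1 := by
    intro q
    by_cases h : q ∈ A
    · rw [if_pos h, if_pos h]
      exact pow_one q
    · rw [if_neg h, if_neg h]
      exact pow_zero q
  rw [Finset.prod_congr rfl fun q _ => h1 q, Finset.prod_ite_mem, Finset.inter_eq_right.2 hA]

theorem f1d_sum {O A : Finset Gi} (hA : A ⊆ O) (f : Gi → ZMod 2) :
    ∑ q : O, (if (q : Gi) ∈ A then (1 : ZMod 2) else 0) * f q = ∑ q ∈ A, f q := by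
  rw [Finset.sum_coe_sort O (fun q : Gi => (if q ∈ A then (1 : ZMod 2) else 0) * f q)]
  have h1 : ∀ q : Gi, (if q ∈ A then (1 : ZMod 2) else 0) * f q = if q ∈ A then f q else 0 := by
    intro q
    by_cases h : q ∈ A
    · rw [if_pos h, if_pos h, one_mul]
    · rw [if_neg h, if_neg h, zero_mul]
  rw [Finset.sum_congr rfl fun q _ => h1 q, Finset.sum_ite_mem, Finset.inter_eq_right.2 hA]

theorem f1d_odd (S : Finset Gi) (a : Gi → ℕ) (f : Gi → ZMod 2) :
    ∑ p ∈ SO S a, f p = ∑ p ∈ S, (a p : ZMod 2) * f p := by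
  unfold SO
  rw [Finset.sum_filter]
  refine Finset.sum_congr rfl fun p _ => ?_
  by_cases h : Odd (a p)
  · rw [if_pos h, (ZMod.natCast_eq_one_iff_odd).2 h, one_mul]
  · rw [if_neg h, (ZMod.natCast_eq_zero_iff_even).2 (Nat.not_odd_iff_even.1 h), zero_mul]

theorem f1d_uniq {v : Gi} {β γ β' γ' : ZMod 2} (h : cl v β γ) (h' : cl v β' γ') :
    β = β' ∧ γ = γ' := by
  obtain ⟨-, -, h1⟩ := h
  obtain ⟨-, -, h2⟩ := h'
  rcases h1 with ⟨rfl, rfl, h1⟩ | ⟨rfl, rfl, h1⟩ | ⟨rfl, rfl, h1⟩ | ⟨rfl, rfl, h1⟩ <;>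
  rcases h2 with ⟨rfl, rfl, h2⟩ | ⟨rfl, rfl, h2⟩ | ⟨rfl, rfl, h2⟩ | ⟨rfl, rfl, h2⟩
  all_goals first
    | exact ⟨rfl, rfl⟩
    | (exfalso; omega)

section
variable {s t : ℕ} {S : Finset Gi} {a : Gi → ℕ} {T : Finset Gi}

/-- [QTB-F1d] PROOF. `QTD.Dd_class` (QT/D14e.lean) and `val (s : ZMod 2) = s % 2`. -/
theorem rep_zD (h : Adm s t S a) (hT : ∀ q ∈ T, Prime q ∧ Prim q) (hd : Disjoint S T) :
    ∃ r : KI, r ≠ 0 ∧ rep (zD s t S a T) = emK (Dd s t S a) * r ^ 2 := by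
  obtain ⟨r, hr, h1⟩ := QTD.Dd_class (s := s) (t := t) (a := a) h.1
  have hr' : emK r ≠ 0 := PID.emK_ne hr
  refine ⟨(emK r)⁻¹, inv_ne_zero hr', ?_⟩
  have h2 : repG (zD s t S a T) =
      ii ^ (s % 2) * la ^ (t % 2) * ∏ q ∈ S.filter (fun p => Odd (a p)), q := by
    have h3 := f1d_prod (O := SO S a ∪ T) (A := SO S a) Finset.subset_union_left
    show ii ^ (s : ZMod 2).val * la ^ (t : ZMod 2).val *
      ∏ q : ↥(SO S a ∪ T), (q : Gi) ^ (if (q : Gi) ∈ SO S a then (1 : ZMod 2) else 0).val = _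
    rw [h3, ZMod.val_natCast, ZMod.val_natCast]
    rfl
  show emK (repG (zD s t S a T)) = _
  rw [h1, ← h2, map_mul, map_pow, inv_pow, mul_assoc, mul_inv_cancel₀ (pow_ne_zero 2 hr'), mul_one]

end

section
variable {s t : ℕ} {S : Finset Gi} {a : Gi → ℕ} {T : Finset Gi}

/-- [QTB-F1e] PROOF. `st q = ± q`, `-1 = ii²` (`QTF.n_prod_st`, QTF/N.lean, or `QTD.st_eq`). -/
theorem rep_zm (h : Adm s t S a) (hT : ∀ q ∈ T, Prime q ∧ Prim q) (hd : Disjoint S T) :
    ∃ r : KI, r ≠ 0 ∧ rep (zm S a T) = emK (mT T) * r ^ 2 := by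
  have h1 : ∃ u : Gi, u ≠ 0 ∧ ∏ q ∈ T, q = mT T * u ^ 2 := by
    unfold mT
    clear hT hd
    induction T using Finset.induction_on with
    | empty =>
      exact ⟨1, one_ne_zero, by rw [Finset.prod_empty, Finset.prod_empty]; norm_num⟩
    | insert x T hx ih =>
      obtain ⟨u, hu, h2⟩ := ih
      have hii : (ii : Gi) ^ 2 = -1 := by decide
      have hii0 : (ii : Gi) ≠ 0 := by decide
      rw [Finset.prod_insert hx, Finset.prod_insert hx, h2]
      obtain ⟨e, he, h3⟩ := QTD.st_eq x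
      rcases he with rfl | rfl
      · refine ⟨u, hu, ?_⟩
        rw [h3]
        ring
      · refine ⟨ii * u, mul_ne_zero hii0 hu, ?_⟩
        rw [h3, mul_pow, hii]
        ring
  obtain ⟨u, hu, h1⟩ := h1
  have hu' : emK u ≠ 0 := PID.emK_ne hu
  refine ⟨emK u, hu', ?_⟩
  have h2 : repG (zm S a T) = ∏ q ∈ T, q := by
    have h3 := f1d_prod (O := SO S a ∪ T) (A := T) Finset.subset_union_right
    show ii ^ (0 : ZMod 2).val * la ^ (0 : ZMod 2).val *
      ∏ q : ↥(SO S a ∪ T), (q : Gi) ^ (if (q : Gi) ∈ T then (1 : ZMod 2) else 0).val = _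
    rw [h3, ZMod.val_zero, pow_zero, pow_zero, one_mul, one_mul]
  show emK (repG (zm S a T)) = _
  rw [h2, h1, map_mul, map_pow]

end

section
variable {s t : ℕ} {S : Finset Gi} {a : Gi → ℕ} {T : Finset Gi}

/-- [QTB-F1f] PROOF. `be`, `ga` of the indicator function of `SO` are the sums over `p ∈ S` with `a p` odd, and `(a p : ZMod 2)` is `1` resp. `0`. -/
theorem cV_zD (h : Adm s t S a) (hT : ∀ q ∈ T, Prime q ∧ Prim q) (hd : Disjoint S T) :
    cV (zD s t S a T) = cD s t S a := by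
  have h1 : be (zD s t S a T) = bD S a := by
    show ∑ q : ↥(SO S a ∪ T), (if (q : Gi) ∈ SO S a then (1 : ZMod 2) else 0) * sy ii q = _
    rw [f1d_sum (O := SO S a ∪ T) (A := SO S a) Finset.subset_union_left (fun q => sy ii q),
      f1d_odd S a fun q => sy ii q]
    rfl
  have h2 : ga (zD s t S a T) = gD S a := by
    show ∑ q : ↥(SO S a ∪ T), (if (q : Gi) ∈ SO S a then (1 : ZMod 2) else 0) * sy la q = _
    rw [f1d_sum (O := SO S a ∪ T) (A := SO S a) Finset.subset_union_left (fun q => sy la q),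
      f1d_odd S a fun q => sy la q]
    rfl
  unfold cV cD
  rw [h1, h2]
  rfl

end

section
variable {s t : ℕ} {S : Finset Gi} {a : Gi → ℕ} {T : Finset Gi}

/-- [QTB-F1g] PROOF. `cl (mT T) (∑ sy ii q) (∑ sy la q)` (`QTD.cl_prod`, `QTD.cl_st`), and the class of `cl` is unique. -/
theorem cV_zm (h : Adm s t S a) (hT : ∀ q ∈ T, Prime q ∧ Prim q) (hd : Disjoint S T) (h0 : cl (mT T) 0 0) :
    cV (zm S a T) = 0 := by
  have h1 : cl (mT T) (∑ q ∈ T, sy ii q) (∑ q ∈ T, sy la q) :=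
    QTD.cl_prod fun q hq => QTD.cl_st (hT q hq).1 (hT q hq).2
  obtain ⟨h2, h3⟩ := f1d_uniq h1 h0
  have h4 : be (zm S a T) = 0 := by
    show ∑ q : ↥(SO S a ∪ T), (if (q : Gi) ∈ T then (1 : ZMod 2) else 0) * sy ii q = _
    rw [f1d_sum (O := SO S a ∪ T) (A := T) Finset.subset_union_right (fun q => sy ii q)]
    exact h2
  have h5 : ga (zm S a T) = 0 := by
    show ∑ q : ↥(SO S a ∪ T), (if (q : Gi) ∈ T then (1 : ZMod 2) else 0) * sy la q = _
    rw [f1d_sum (O := SO S a ∪ T) (A := T) Finset.subset_union_right (fun q => sy la q)]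
    exact h3
  unfold cV
  rw [h4, h5]
  rfl

end

end QTC
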