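import Pool.Agent.QTB.F0

/-!
# [QTB-F1a] representatives modulo squares
-/

set_option autoImplicit false

open NumberField IsDedekindDomain
open scoped Classical

namespace QTC

open PI (Gi sy ii la Prim emK eG KI la_prime pl)
open QT (st Dd Adm bD gD Good)
open QTD (LocB cl vla)

private theorem f1a_zval (x y : ZMod 2) : ∃ c : ℕ, x.val + y.val = (x + y).val + 2 * c := by
  refine ⟨(x.val + y.val) / 2, ?_⟩
  rw [ZMod.val_add]
  omega

private theorem f1a_emK_ne {g : Gi} (hg : g ≠ 0) : emK g ≠ 0 := by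
  intro h
  apply hg
  apply PI.em_injective
  rw [map_zero, ← PI.emK_coe, h]
  rfl

private theorem f1a_ii_ne : ii ≠ 0 := by
  intro h
  have := congrArg Zsqrtd.im h
  simp [ii] at this

private theorem f1a_pow (g : Gi) (x y : ZMod 2) : ∃ c : ℕ,
    g ^ x.val * g ^ y.val = g ^ (x + y).val * (g ^ c) ^ 2 := by
  obtain ⟨c, hc⟩ := f1a_zval x y
  refine ⟨c, ?_⟩
  rw [← pow_add, hc, pow_add, pow_mul, ← pow_mul g c 2, ← pow_mul, mul_comm c 2]

section
variable {O : Finset Gi} (hO : ∀ p ∈ O, Prime p ∧ Prim p)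
include hO

/-- [QTB-F1a] -/
theorem rep_ne (z : V O) : rep z ≠ 0 := by
  unfold rep
  apply f1a_emK_ne
  unfold repG
  apply mul_ne_zero
  · apply mul_ne_zero
    · exact pow_ne_zero _ f1a_ii_ne
    · exact pow_ne_zero _ la_prime.ne_zero
  · apply Finset.prod_ne_zero_iff.2
    intro q _
    exact pow_ne_zero _ (hO q q.2).1.ne_zero

end

section
variable {O : Finset Gi} (hO : ∀ p ∈ O, Prime p ∧ Prim p)
include hO

/-- [QTB-F1b] PROOF. `val (x + y) = val x + val y - 2 c`, `c = 0, 1` (`ZMod 2`), so the quotient is the inverse of a product of squares. -/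
theorem rep_add (z z' : V O) : ∃ r : KI, r ≠ 0 ∧ rep (z + z') = rep z * rep z' * r ^ 2 := by
  obtain ⟨c1, h1⟩ := f1a_pow ii z.1 z'.1
  obtain ⟨c2, h2⟩ := f1a_pow la z.2.1 z'.2.1
  have h3 : ∀ q : O, ∃ c : ℕ, (q : Gi) ^ (z.2.2 q).val * (q : Gi) ^ (z'.2.2 q).val
      = (q : Gi) ^ (z.2.2 q + z'.2.2 q).val * ((q : Gi) ^ c) ^ 2 := fun q => f1a_pow _ _ _
  choose c3 h3 using h3
  have hR0 : (ii ^ c1 * la ^ c2 * ∏ q : O, (q : Gi) ^ c3 q) ≠ 0 := by
    apply mul_ne_zero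
    · apply mul_ne_zero
      · exact pow_ne_zero _ f1a_ii_ne
      · exact pow_ne_zero _ la_prime.ne_zero
    · apply Finset.prod_ne_zero_iff.2
      intro q _
      exact pow_ne_zero _ (hO q q.2).1.ne_zero
  have key : repG z * repG z' = repG (z + z') * (ii ^ c1 * la ^ c2 * ∏ q : O, (q : Gi) ^ c3 q) ^ 2 := by
    unfold repG
    have h4 : (∏ q : O, (q : Gi) ^ (z.2.2 q).val) * (∏ q : O, (q : Gi) ^ (z'.2.2 q).val)
        = (∏ q : O, (q : Gi) ^ ((z + z').2.2 q).val) * (∏ q : O, (q : Gi) ^ c3 q) ^ 2 := by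
      rw [← Finset.prod_mul_distrib, ← Finset.prod_pow, ← Finset.prod_mul_distrib]
      exact Finset.prod_congr rfl fun q _ => h3 q
    have h5 : (z + z').1 = z.1 + z'.1 := rfl
    have h6 : (z + z').2.1 = z.2.1 + z'.2.1 := rfl
    rw [h5, h6]
    calc ii ^ z.1.val * la ^ z.2.1.val * (∏ q : O, (q : Gi) ^ (z.2.2 q).val) *
          (ii ^ z'.1.val * la ^ z'.2.1.val * (∏ q : O, (q : Gi) ^ (z'.2.2 q).val))
        = (ii ^ z.1.val * ii ^ z'.1.val) * (la ^ z.2.1.val * la ^ z'.2.1.val) *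
          ((∏ q : O, (q : Gi) ^ (z.2.2 q).val) * (∏ q : O, (q : Gi) ^ (z'.2.2 q).val)) := by ring
      _ = _ := by
          rw [h1, h2, h4]
          ring
  have keyK : rep z * rep z' = rep (z + z') *
      (emK (ii ^ c1 * la ^ c2 * ∏ q : O, (q : Gi) ^ c3 q)) ^ 2 := by
    unfold rep
    rw [← map_mul, key, map_mul, map_pow]
  have hR : emK (ii ^ c1 * la ^ c2 * ∏ q : O, (q : Gi) ^ c3 q) ≠ 0 := f1a_emK_ne hR0
  refine ⟨(emK (ii ^ c1 * la ^ c2 * ∏ q : O, (q : Gi) ^ c3 q))⁻¹, inv_ne_zero hR, ?_⟩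
  rw [keyK, mul_assoc, ← mul_pow, mul_inv_cancel₀ hR, one_pow, mul_one]

end

end QTC
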