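import Pool.Agent.QTB.F2a

/-!
# [QTB-F2b] squares in the completion at `1 + i`
-/

set_option autoImplicit false

open NumberField IsDedekindDomain
open scoped Classical

namespace QTC

open PI (Gi sy ii la Prim emK eG KI la_prime pl)
open QT (st Dd Adm bD gD Good)
open QTD (LocB cl vla)

theorem f2b_core (x : ℕ) {v : Gi} {β γ : ZMod 2} (h : cl v β γ)
    (h5 : la ^ 5 ∣ ii ^ x * v - 1 ∨ la ^ 5 ∣ ii ^ x * v + 1) :
    (x : ZMod 2) = 0 ∧ β = 0 ∧ γ = 0 := by
  obtain ⟨h1, h2, h3⟩ := h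
  have hii2 : (ii : Gi) ^ 2 = -1 := by decide
  have hre : (ii * v).re = -v.im := by
    rw [PI.s1a_mul_re]
    simp [ii]
  have him : (ii * v).im = v.re := by
    rw [PI.s1a_mul_im]
    simp [ii]
  rw [QTD.la5_dvd, QTD.la5_dvd] at h5
  simp only [Zsqrtd.re_sub, Zsqrtd.im_sub, Zsqrtd.re_add, Zsqrtd.im_add, Zsqrtd.re_one,
    Zsqrtd.im_one] at h5
  obtain ⟨k, rfl | rfl⟩ := Nat.even_or_odd' x
  · have hx : ((2 * k : ℕ) : ZMod 2) = 0 := (ZMod.natCast_eq_zero_iff_even).2 (even_two_mul k)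
    have h6 : (v.re + v.im) % 8 = 1 := by
      rw [pow_mul, hii2] at h5
      rcases neg_one_pow_eq_or Gi k with h7 | h7
      · rw [h7, one_mul] at h5
        omega
      · rw [h7, neg_one_mul, Zsqrtd.re_neg, Zsqrtd.im_neg] at h5
        omega
    refine ⟨hx, ?_⟩
    rcases h3 with ⟨hb, hg, h3⟩ | ⟨hb, hg, h3⟩ | ⟨hb, hg, h3⟩ | ⟨hb, hg, h3⟩
    · exact ⟨hb, hg⟩
    · exfalso; omega
    · exfalso; omega
    · exfalso; omega
  · exfalso
    rw [pow_add, pow_mul, hii2, pow_one, mul_assoc] at h5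
    rcases neg_one_pow_eq_or Gi k with h7 | h7
    · rw [h7, one_mul, hre, him] at h5
      omega
    · rw [h7, neg_one_mul, Zsqrtd.re_neg, Zsqrtd.im_neg, hre, him] at h5
      omega

theorem f2b_val (x y : ℕ) {v : Gi} {β γ : ZMod 2} (h : cl v β γ) :
    vla.valuation KI (emK (ii ^ x * la ^ y * v)) = WithZero.exp (-(y : ℤ)) := by
  obtain ⟨h1, h2, -⟩ := h
  have e1 : vla.valuation KI (emK ii) = 1 :=
    (PID.val_eq_one_iff QTD.vla_as ii).2 (PID.not_dvd_ii la_prime)
  have e2 : vla.valuation KI (emK la) = WithZero.exp (-1) := PID.val_self QTD.vla_as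
  have e3 : vla.valuation KI (emK v) = 1 := by
    refine (PID.val_eq_one_iff QTD.vla_as v).2 fun h4 => ?_
    rw [PI.la_dvd_iff] at h4
    omega
  rw [map_mul, map_mul, map_mul, map_mul, map_pow, map_pow, map_pow, map_pow, e1, e2, e3, one_pow,
    one_mul, mul_one, PID.d13a_pow]
  congr 1
  ring

/-- [QTB-F2b] PROOF. ⇒: the valuation `y` is even (`QTD.vla`, `PID.val_self`); `la^y` is then a square, so `ii^x v = z²` with a unit `z`; `z² ≡ ± 1 mod la⁵` (`QTD.unit_sq`, QT/D13a.lean), so `la⁵ ∣ ii^x v ∓ 1`; `v ≡ 1 mod 2` gives `x` even and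
`v.re ≡ 1 mod 4` the sign `+` (`QTD.la5_dvd`, D14a); then `(v.re + v.im) % 8 = 1` and `β = γ = 0`. ⇐: `x, y` even, `ii² = -1 = ii²`..., `la^5 ∣ v - 1` (`la5_dvd`, `omega`), `sq_of_close` (`4 la ∣ la^5`, `Valued.v 4 = exp (-4)`). -/
theorem sq_la_iff (x y : ℕ) {v : Gi} {β γ : ZMod 2} (h : cl v β γ) :
    IsSquare (algebraMap KI (vla.adicCompletion KI) (emK (ii ^ x * la ^ y * v))) ↔
      (x : ZMod 2) = 0 ∧ (y : ZMod 2) = 0 ∧ β = 0 ∧ γ = 0 := by
  obtain ⟨hj', h2', hres⟩ := QTD.d13_data (v := vla) PID.emK_ii QTD.vla_two QTD.vla_card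
  have hwE : Valued.v (algebraMap KI (vla.adicCompletion KI) (emK (ii ^ x * la ^ y * v))) =
      (WithZero.exp (-(y : ℤ)) : WithZero (Multiplicative ℤ)) := by
    rw [QTD.d13_val]
    exact f2b_val x y h
  have hla0 : algebraMap KI (vla.adicCompletion KI) (emK la) ≠ 0 := by
    rw [Ne, map_eq_zero]
    exact PID.emK_ne la_prime.ne_zero
  constructor
  · rintro ⟨z, hz⟩
    have hz0 : z ≠ 0 := by
      rintro rfl
      rw [hz, mul_zero, map_zero] at hwE
      exact WithZero.exp_ne_zero hwE.symm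
    obtain ⟨k, hk⟩ := PID.d13a_exists (Valued.v (R := vla.adicCompletion KI)) hz0
    rw [hz, map_mul, hk, ← WithZero.exp_add, WithZero.exp_inj] at hwE
    obtain ⟨n, hn⟩ : ∃ n : ℕ, y = 2 * n := ⟨y / 2, by omega⟩
    have hy : (y : ZMod 2) = 0 := by
      rw [hn]
      exact (ZMod.natCast_eq_zero_iff_even).2 (even_two_mul n)
    set l := algebraMap KI (vla.adicCompletion KI) (emK la) with hl
    set u := z / l ^ n with hu
    have hu2 : u ^ 2 = algebraMap KI (vla.adicCompletion KI) (emK (ii ^ x * v)) := by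
      rw [hu, div_pow, pow_two z, ← hz, div_eq_iff (pow_ne_zero 2 (pow_ne_zero n hla0)), ← pow_mul,
        hl, ← map_pow, ← map_pow, ← map_mul, ← map_mul, hn]
      congr 2
      ring
    have hA : vla.valuation KI (emK (ii ^ x * v)) = 1 := by
      have h6 := f2b_val x 0 h
      rw [pow_zero, mul_one, Nat.cast_zero, neg_zero, WithZero.exp_zero] at h6
      exact h6
    have hu0 : u ≠ 0 := div_ne_zero hz0 (pow_ne_zero n hla0)
    have hu1 : Valued.v u = (1 : WithZero (Multiplicative ℤ)) := by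
      obtain ⟨m, hm⟩ := PID.d13a_exists (Valued.v (R := vla.adicCompletion KI)) hu0
      have h7 := congrArg (Valued.v (R := vla.adicCompletion KI)) hu2
      rw [QTD.d13_val, hA, map_pow, hm, PID.d13a_pow, ← WithZero.exp_zero, WithZero.exp_inj] at h7
      rw [hm, ← WithZero.exp_zero, WithZero.exp_inj]
      push_cast at h7
      omega
    have h8 : la ^ 5 ∣ ii ^ x * v - 1 ∨ la ^ 5 ∣ ii ^ x * v + 1 := by
      rcases QTD.unit_sq (Valued.v (R := vla.adicCompletion KI)) hj' h2' hres hu1 with h9 | h9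
      · left
        apply (PID.val_le_pow_iff QTD.vla_as (ii ^ x * v - 1) 5).1
        have e : u ^ 2 - 1 = algebraMap KI (vla.adicCompletion KI) (emK (ii ^ x * v - 1)) := by
          rw [hu2, map_sub, map_sub, map_one, map_one]
        rw [e, QTD.d13_val] at h9
        exact_mod_cast h9
      · right
        apply (PID.val_le_pow_iff QTD.vla_as (ii ^ x * v + 1) 5).1
        have e : u ^ 2 + 1 = algebraMap KI (vla.adicCompletion KI) (emK (ii ^ x * v + 1)) := by
          rw [hu2, map_add, map_add, map_one, map_one]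
        rw [e, QTD.d13_val] at h9
        exact_mod_cast h9
    obtain ⟨h10, h11, h12⟩ := f2b_core x h h8
    exact ⟨h10, hy, h11, h12⟩
  · rintro ⟨hx, hy, hb, hg⟩
    obtain ⟨k, hk⟩ := (ZMod.natCast_eq_zero_iff_even).1 hx
    obtain ⟨n, hn⟩ := (ZMod.natCast_eq_zero_iff_even).1 hy
    have hv : IsSquare (algebraMap KI (vla.adicCompletion KI) (emK v)) := by
      apply sq_of_close
      have h5 : la ^ 5 ∣ v - 1 := by
        obtain ⟨h1, h2, h3⟩ := h
        have h6 : (v.re + v.im) % 8 = 1 := by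
          subst hb
          subst hg
          rcases h3 with ⟨hb, hg, h3⟩ | ⟨hb, hg, h3⟩ | ⟨hb, hg, h3⟩ | ⟨hb, hg, h3⟩
          · exact h3
          · exact absurd hg (by decide)
          · exact absurd hb (by decide)
          · exact absurd hb (by decide)
        rw [QTD.la5_dvd]
        simp only [Zsqrtd.re_sub, Zsqrtd.im_sub, Zsqrtd.re_one, Zsqrtd.im_one]
        omega
      have e : algebraMap KI (vla.adicCompletion KI) (emK v) - 1 =
          algebraMap KI (vla.adicCompletion KI) (emK (v - 1)) := by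
        rw [map_sub, map_sub, map_one, map_one]
      have e4 : (4 : vla.adicCompletion KI) = 2 * 2 := by norm_num
      rw [e, QTD.d13_val, e4, map_mul, h2', ← WithZero.exp_add]
      refine (QTD.vla_le (v - 1) 5 (-5) (by norm_num) h5).trans_lt ?_
      rw [WithZero.exp_lt_exp]
      norm_num
    obtain ⟨r, hr⟩ := hv
    refine ⟨algebraMap KI (vla.adicCompletion KI) (emK (ii ^ k * la ^ n)) * r, ?_⟩
    rw [map_mul emK, map_mul (algebraMap KI (vla.adicCompletion KI)), hr, hk, hn, pow_add, pow_add]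
    have e5 : ii ^ k * ii ^ k * (la ^ n * la ^ n) = (ii ^ k * la ^ n) * (ii ^ k * la ^ n) := by ring
    rw [e5, map_mul emK, map_mul (algebraMap KI (vla.adicCompletion KI))]
    ring

/-- [QTB-F2c] two elements of the same class. PROOF. The product is `ii^(x+x') la^(y+y') (v v')`, `QTD.cl_mul`, `sq_la_iff`; in `ZMod 2`: `a + b = 0 ↔ a = b`. -/
theorem sq_la_mul_iff (x y x' y' : ℕ) {v v' : Gi} {β γ β' γ' : ZMod 2} (h : cl v β γ) (h' : cl v' β' γ') :
    IsSquare (algebraMap KI (vla.adicCompletion KI) (emK (ii ^ x * la ^ y * v * (ii ^ x' * la ^ y' * v')))) ↔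
      (x : ZMod 2) = x' ∧ (y : ZMod 2) = y' ∧ β = β' ∧ γ = γ' := by
  have e : ii ^ x * la ^ y * v * (ii ^ x' * la ^ y' * v') =
      ii ^ (x + x') * la ^ (y + y') * (v * v') := by ring
  have h2 : ∀ a b : ZMod 2, a + b = 0 ↔ a = b := by decide
  rw [e, sq_la_iff (x + x') (y + y') (QTD.cl_mul h h'), Nat.cast_add, Nat.cast_add, h2, h2, h2, h2]

end QTC
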