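import Pool.Agent.QTB.F0

/-!
# [QTB-F2d] classes at `1 + i`
-/

set_option autoImplicit false

open NumberField IsDedekindDomain
open scoped Classical

namespace QTC

open PI (Gi sy ii la Prim emK eG KI la_prime pl)
open QT (st Dd Adm bD gD Good)
open QTD (LocB cl vla)

theorem f2d_ii_sq : ii ^ 2 = (-1 : Gi) := by decide

theorem f2d_cl_prod {κ : Type} (S : Finset κ) {f : κ → Gi} {β γ : κ → ZMod 2}
    (h : ∀ p ∈ S, cl (f p) (β p) (γ p)) :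
    cl (∏ p ∈ S, f p) (∑ p ∈ S, β p) (∑ p ∈ S, γ p) := by
  induction S using Finset.induction_on with
  | empty =>
    rw [Finset.prod_empty, Finset.sum_empty, Finset.sum_empty]
    exact QTD.cl_one
  | insert a S ha ih =>
    rw [Finset.prod_insert ha, Finset.sum_insert ha, Finset.sum_insert ha]
    exact QTD.cl_mul (h a (Finset.mem_insert_self a S))
      (ih fun p hp => h p (Finset.mem_insert_of_mem hp))

theorem f2d_pow (q : Gi) (n : ℕ) : ∃ k : ℕ, q ^ n = ii ^ (2 * k) * st q ^ n := by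
  obtain ⟨e, he, hq⟩ := QTD.st_eq q
  rcases he with rfl | rfl
  · exact ⟨0, by rw [hq, one_mul, mul_zero, pow_zero, one_mul]⟩
  · refine ⟨n, ?_⟩
    rw [hq, pow_mul, f2d_ii_sq, ← mul_pow, neg_one_mul, neg_one_mul, neg_neg]

theorem f2d_prod {κ : Type} (S : Finset κ) (f : κ → Gi) (n : κ → ℕ) :
    ∃ k : ℕ, ∏ p ∈ S, f p ^ n p = ii ^ (2 * k) * ∏ p ∈ S, st (f p) ^ n p := by
  induction S using Finset.induction_on with
  | empty => exact ⟨0, by rw [Finset.prod_empty, Finset.prod_empty, mul_zero, pow_zero, one_mul]⟩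
  | insert a S ha ih =>
    obtain ⟨k, hk⟩ := ih
    obtain ⟨l, hl⟩ := f2d_pow (f a) (n a)
    refine ⟨l + k, ?_⟩
    rw [Finset.prod_insert ha, Finset.prod_insert ha, hk, hl, mul_add, pow_add]
    ring

/-- [QTB-F2d] PROOF. `q = ± st q` (`QTD.st_eq`), `-1 = ii²`; `QTD.cl_prod`, `cl_pow`, `cl_st`; `(val (z q) : ZMod 2) = z q`. -/
theorem rep_cl {O : Finset Gi} (hO : ∀ p ∈ O, Prime p ∧ Prim p) (z : V O) :
    ∃ (k : ℕ) (v : Gi), cl v (be z) (ga z) ∧ repG z = ii ^ (z.1.val + 2 * k) * la ^ z.2.1.val * v := by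
  obtain ⟨k, hk⟩ := f2d_prod (Finset.univ : Finset O) (fun q => (q : Gi)) fun q => (z.2.2 q).val
  refine ⟨k, ∏ q : O, st (q : Gi) ^ (z.2.2 q).val, ?_, ?_⟩
  · have h1 : ∀ q ∈ (Finset.univ : Finset O), cl (st (q : Gi) ^ (z.2.2 q).val)
        (z.2.2 q * sy ii q) (z.2.2 q * sy la q) := by
      intro q _
      have h2 := QTD.cl_pow (QTD.cl_st (hO q q.2).1 (hO q q.2).2) (z.2.2 q).val
      rw [ZMod.natCast_zmod_val] at h2
      exact h2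
    exact f2d_cl_prod _ h1
  · unfold repG
    rw [hk, pow_add]
    ring

theorem f2d_cl_of {v : Gi} (h1 : v.re % 4 = 1) (h2 : v.im % 2 = 0) :
    ∃ β γ : ZMod 2, cl v β γ := by
  have h3 : (v.re + v.im) % 8 = 1 ∨ (v.re + v.im) % 8 = 5 ∨ (v.re + v.im) % 8 = 7 ∨
      (v.re + v.im) % 8 = 3 := by omega
  rcases h3 with h | h | h | h
  · exact ⟨0, 0, h1, h2, Or.inl ⟨rfl, rfl, h⟩⟩
  · exact ⟨0, 1, h1, h2, Or.inr (Or.inl ⟨rfl, rfl, h⟩)⟩
  · exact ⟨1, 0, h1, h2, Or.inr (Or.inr (Or.inl ⟨rfl, rfl, h⟩))⟩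
  · exact ⟨1, 1, h1, h2, Or.inr (Or.inr (Or.inr ⟨rfl, rfl, h⟩))⟩

theorem f2d_odd {u : Gi} (h : ¬ la ∣ u) :
    ∃ (x : ℕ) (v : Gi), v.re % 4 = 1 ∧ v.im % 2 = 0 ∧ u = ii ^ x * v := by
  rw [PI.la_dvd_iff] at h
  have hc : (u.re % 4 = 1 ∧ u.im % 2 = 0) ∨ (u.re % 4 = 3 ∧ u.im % 2 = 0) ∨
      (u.im % 4 = 1 ∧ u.re % 2 = 0) ∨ (u.im % 4 = 3 ∧ u.re % 2 = 0) := by omega
  rcases hc with ⟨h1, h2⟩ | ⟨h1, h2⟩ | ⟨h1, h2⟩ | ⟨h1, h2⟩
  · exact ⟨0, u, h1, h2, by rw [pow_zero, one_mul]⟩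
  · refine ⟨2, -u, ?_, ?_, ?_⟩
    · rw [Zsqrtd.re_neg]; omega
    · rw [Zsqrtd.im_neg]; omega
    · rw [f2d_ii_sq]; ring
  · refine ⟨1, ⟨u.im, -u.re⟩, h1, ?_, ?_⟩
    · show (-u.re) % 2 = 0
      omega
    · rw [pow_one]
      apply Zsqrtd.ext
      · simp [ii]
      · simp [ii]
  · refine ⟨3, ⟨-u.im, u.re⟩, ?_, h2, ?_⟩
    · show (-u.im) % 4 = 1
      omega
    · have h3 : ii ^ 3 = (⟨0, -1⟩ : Gi) := by decide
      rw [h3]
      apply Zsqrtd.ext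
      · simp
      · simp

/-- [QTB-F2e] every nonzero `g` has a class. PROOF. `g = la^y u`, `u` odd; one of `u, -ii u, -u, ii u` (`ii^x v = u`) has odd real part `≡ 1 mod 4` and even imaginary part; the eight residues of `re + im` mod 8 which are odd: four cases. -/
theorem exists_cl (g : Gi) (hg : g ≠ 0) : ∃ (x y : ℕ) (v : Gi) (β γ : ZMod 2), cl v β γ ∧ g = ii ^ x * la ^ y * v := by
  obtain ⟨y, u, hu, hgu⟩ := WfDvdMonoid.max_power_factor hg la_prime.irreducible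
  obtain ⟨x, v, h1, h2, h3⟩ := f2d_odd hu
  obtain ⟨β, γ, h4⟩ := f2d_cl_of h1 h2
  refine ⟨x, y, v, β, γ, h4, ?_⟩
  rw [hgu, h3]
  ring

end QTC
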