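import Pool.Agent.QTB.F0

/-!
# [QTB-F2a] squares near 1
-/

set_option autoImplicit false

open NumberField IsDedekindDomain
open scoped Classical

namespace QTC

open PI (Gi sy ii la Prim emK eG KI la_prime pl)
open QT (st Dd Adm bD gD Good)
open QTD (LocB cl vla)

/-- [QTB-F2a] PROOF. `z = 1 + 4 w`, `v(w) ≥ 1`. Hensel for `X² + X - w` at `0` (the completion integers are a complete local ring: `HenselianLocalRing`, or Newton iteration / geometric argument as in `PID.sq_of_one`, which treats odd residue characteristic: look at its proof):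
there is `y` with `y² + y = w`, `(1 + 2 y)² = 1 + 4 w`. -/
theorem sq_of_close (v : HeightOneSpectrum (𝓞 KI)) (z : v.adicCompletion KI)
    (h : Valued.v (z - 1) < (Valued.v (4 : v.adicCompletion KI) : WithZero (Multiplicative ℤ))) : IsSquare z := by
  have hhens := PID.d12a_hens KI v
  have h4 : (4 : v.adicCompletion KI) ≠ 0 := by
    intro h0
    rw [h0, map_zero] at h
    exact not_lt_zero h
  have hv4 : (Valued.v (4 : v.adicCompletion KI) : WithZero (Multiplicative ℤ)) ≠ 0 :=
    (Valuation.ne_zero_iff _).2 h4
  set w : v.adicCompletion KI := (z - 1) / 4 with hw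
  have hz : z = 1 + 4 * w := by
    rw [hw]
    field_simp
    ring
  have hw1 : Valued.v w < (1 : WithZero (Multiplicative ℤ)) := by
    rw [hw, map_div₀]
    exact (div_lt_one₀ (zero_lt_iff.2 hv4)).2 h
  set U : v.adicCompletionIntegers KI := ⟨w, hw1.le⟩ with hU
  obtain ⟨s, hs, -⟩ := hhens.is_henselian
    (Polynomial.X ^ 2 + (Polynomial.X - Polynomial.C U))
    (Polynomial.monic_X_pow_add (by
      rw [Polynomial.degree_X_sub_C]
      norm_num)) 0 (by
      have h3 : Polynomial.eval 0 (Polynomial.X ^ 2 + (Polynomial.X - Polynomial.C U)) = - U := by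
        simp
      rw [h3]
      refine (Valuation.mem_maximalIdeal_iff _ _).2 ?_
      have h4 : (((- U : v.adicCompletionIntegers KI)) : v.adicCompletion KI) = - w := by
        rw [hU]
        push_cast
        ring
      rw [h4, Valuation.map_neg]
      exact hw1) (by
      have h3 : Polynomial.eval 0 (Polynomial.derivative
          (Polynomial.X ^ 2 + (Polynomial.X - Polynomial.C U))) = 1 := by
        simp
      rw [h3]
      exact isUnit_one)
  have h3 : s ^ 2 + s = U := by
    have h4 := hs
    rw [Polynomial.IsRoot.def] at h4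
    simp only [Polynomial.eval_sub, Polynomial.eval_add, Polynomial.eval_pow, Polynomial.eval_X,
      Polynomial.eval_C] at h4
    linear_combination h4
  have h5 := congrArg (fun x : v.adicCompletionIntegers KI => (x : v.adicCompletion KI)) h3
  have h6 : (s : v.adicCompletion KI) ^ 2 + (s : v.adicCompletion KI) = w := h5
  refine ⟨1 + 2 * (s : v.adicCompletion KI), ?_⟩
  rw [hz]
  linear_combination -4 * h6

end QTC
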