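import Pool.Agent.QTB.F3a
import Pool.Agent.QTB.F2b
import Pool.Agent.QTB.F2d

/-!
# [QTB-F3b] the Steinberg relation in the completion
-/

set_option autoImplicit false

open NumberField IsDedekindDomain
open scoped Classical

namespace QTC

open PI (Gi sy ii la Prim emK eG KI la_prime pl)
open QT (st Dd Adm bD gD Good)
open QTD (LocB cl vla)

theorem f3b_val (y : KI) : Valued.v (algebraMap KI (vla.adicCompletion KI) y) = vla.valuation KI y :=
  HeightOneSpectrum.valuedAdicCompletion_eq_valuation' vla y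

theorem f3b_la : Valued.v (algebraMap KI (vla.adicCompletion KI) (emK la)) =
    (WithZero.exp (-1) : WithZero (Multiplicative ℤ)) := by
  rw [f3b_val]
  exact PID.val_self QTD.vla_as

theorem f3b_four : (Valued.v (4 : vla.adicCompletion KI) : WithZero (Multiplicative ℤ)) =
    WithZero.exp (-4) := by
  have e : (4 : vla.adicCompletion KI) = algebraMap KI (vla.adicCompletion KI) (2 * 2) := by
    rw [map_mul, map_ofNat]
    norm_num
  rw [e, f3b_val, map_mul, QTD.vla_two, ← WithZero.exp_add]
  norm_num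

/-- approximation by Gaussian integers -/
theorem f3b_dense {x : vla.adicCompletion KI} (hx : Valued.v x ≤ (1 : WithZero (Multiplicative ℤ))) (n : ℕ) :
    ∃ c : Gi, Valued.v (x - algebraMap KI (vla.adicCompletion KI) (emK c)) ≤
      (WithZero.exp (-(n : ℤ)) : WithZero (Multiplicative ℤ)) := by
  induction n with
  | zero =>
    refine ⟨0, ?_⟩
    rw [map_zero, map_zero, sub_zero, Nat.cast_zero, neg_zero, WithZero.exp_zero]
    exact hx
  | succ n ih =>
    obtain ⟨c, hc⟩ := ih
    set l : vla.adicCompletion KI := algebraMap KI (vla.adicCompletion KI) (emK la) with hl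
    have hwl : Valued.v l = (WithZero.exp (-1) : WithZero (Multiplicative ℤ)) := f3b_la
    have hl0 : l ≠ 0 := by
      intro h0
      rw [h0, map_zero] at hwl
      exact WithZero.exp_ne_zero hwl.symm
    have hwln : Valued.v (l ^ n) = (WithZero.exp (-(n : ℤ)) : WithZero (Multiplicative ℤ)) := by
      rw [map_pow, hwl, PID.d13a_pow]
      congr 1
      ring
    set u := (x - algebraMap KI (vla.adicCompletion KI) (emK c)) / l ^ n with hu
    have hu1 : Valued.v u ≤ (1 : WithZero (Multiplicative ℤ)) := by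
      rw [hu, map_div₀, hwln]
      exact div_le_one_of_le₀ hc zero_le
    obtain ⟨r, hr⟩ := CM27.c3_approx KI vla ⟨u, hu1⟩
    obtain ⟨d, rfl⟩ : ∃ d : Gi, eG d = r := ⟨eG.symm r, eG.apply_symm_apply r⟩
    have hr' : Valued.v (u - algebraMap KI (vla.adicCompletion KI) (emK d)) <
        (1 : WithZero (Multiplicative ℤ)) := hr
    have hr2 := QTD.le_of_lt_one (Valued.v (R := vla.adicCompletion KI)) hr'
    refine ⟨c + la ^ n * d, ?_⟩
    have e : x - algebraMap KI (vla.adicCompletion KI) (emK (c + la ^ n * d)) =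
        l ^ n * (u - algebraMap KI (vla.adicCompletion KI) (emK d)) := by
      have e1 : l ^ n * u = x - algebraMap KI (vla.adicCompletion KI) (emK c) := by
        rw [hu]
        field_simp
      rw [mul_sub, e1, map_add, map_mul, map_pow, map_add, map_mul, map_pow, ← hl]
      ring
    rw [e, map_mul, hwln]
    calc WithZero.exp (-(n : ℤ)) * Valued.v (u - algebraMap KI (vla.adicCompletion KI) (emK d))
        ≤ WithZero.exp (-(n : ℤ)) * WithZero.exp (-1) := by gcongr
      _ = WithZero.exp (-((n + 1 : ℕ) : ℤ)) := by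
        rw [← WithZero.exp_add]
        congr 1
        push_cast
        ring

/-- nearby elements have the same class modulo squares -/
theorem f3b_close {a a0 : vla.adicCompletion KI} {n : ℤ} (ha : Valued.v a = (WithZero.exp n : WithZero (Multiplicative ℤ)))
    (h : Valued.v (a - a0) ≤ (WithZero.exp (n - 5) : WithZero (Multiplicative ℤ))) :
    ∃ s : vla.adicCompletion KI, a0 = a * s ^ 2 := by
  have ha0 : a ≠ 0 := by
    intro h0
    rw [h0, map_zero] at ha
    exact WithZero.exp_ne_zero ha.symm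
  have h1 : Valued.v (a0 / a - 1) < (Valued.v (4 : vla.adicCompletion KI) : WithZero (Multiplicative ℤ)) := by
    have e : a0 / a - 1 = -((a - a0) / a) := by
      field_simp
      ring
    rw [e, Valuation.map_neg, map_div₀, ha, f3b_four]
    calc Valued.v (a - a0) / WithZero.exp n ≤ WithZero.exp (n - 5) / WithZero.exp n :=
          div_le_div_of_nonneg_right h zero_le
      _ = WithZero.exp (-5) := by
        rw [← WithZero.exp_sub]
        congr 1
        ring
      _ < WithZero.exp (-4) := by
        rw [WithZero.exp_lt_exp]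
        norm_num
  obtain ⟨s, hs⟩ := sq_of_close vla _ h1
  refine ⟨s, ?_⟩
  rw [pow_two, ← hs]
  field_simp

theorem f3b_sq {g a a0 s : vla.adicCompletion KI} (h : a0 = a * s ^ 2) (hg : IsSquare (g * a)) :
    IsSquare (g * a0) := by
  obtain ⟨r, hr⟩ := hg
  refine ⟨r * s, ?_⟩
  rw [h]
  linear_combination s ^ 2 * hr

/-- [QTB-F3b] local form: `b ∈ K_λ`, `v(b) > 0`, `g ~ b`, `g' ~ 1 - b` modulo squares. PROOF. `b ≠ 0, 1`. Choose `b0 ∈ ℤ[i]` with `v(b - b0) ≤ v(b) exp (-5)` (density, `CM27.c3_approx` or `HeightOneSpectrum` density of `K` in the completion and of `ℤ[i]` in the integers, used e.g. in `QTD.sy_of_near`; apply it to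
`b / la^N`, `v(b) = exp (-N)`: `b = la^N u`, `u ≡ u0 mod la⁵` with `u0 ∈ ℤ[i]`; approximations modulo `la⁵`: the residue ring is finite, iterate `c3_approx` five times or use density directly). Then `b / b0 ≡ 1 mod la⁵` and `(1 - b) / (1 - b0) ≡ 1 mod la⁵` are squares (`sq_of_close`), `la ∣ b0`,
so `g b0` and `g' (1 - b0)` are squares in `K_λ`; `exists_cl` for `b0`, `1 - b0`, `sq_la_mul_iff` gives the equality of the classes, `steinberg`. -/
theorem steinberg_loc {b : vla.adicCompletion KI} (hb : Valued.v b < (1 : WithZero (Multiplicative ℤ))) (hb0 : b ≠ 0)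
    {x y x' y' : ℕ} {v v' : Gi} {β γ β' γ' : ZMod 2} (h : cl v β γ) (h' : cl v' β' γ')
    (e : IsSquare (algebraMap KI (vla.adicCompletion KI) (emK (ii ^ x * la ^ y * v)) * b))
    (e' : IsSquare (algebraMap KI (vla.adicCompletion KI) (emK (ii ^ x' * la ^ y' * v')) * (1 - b))) :
    HB ((x : ZMod 2), (y : ZMod 2), β, γ) ((x' : ZMod 2), (y' : ZMod 2), β', γ') = 0 := by
  obtain ⟨n, hn⟩ := PID.d13a_exists (Valued.v (R := vla.adicCompletion KI)) hb0
  have hn0 : n < 0 := by
    rw [hn, ← WithZero.exp_zero, WithZero.exp_lt_exp] at hb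
    exact hb
  obtain ⟨N, hN⟩ : ∃ N : ℕ, n = -(N : ℤ) := ⟨n.natAbs, by omega⟩
  obtain ⟨b0, hc⟩ := f3b_dense (x := b) hb.le (N + 5)
  have hc5 : Valued.v (b - algebraMap KI (vla.adicCompletion KI) (emK b0)) ≤
      (WithZero.exp (n - 5) : WithZero (Multiplicative ℤ)) := by
    refine hc.trans (le_of_eq ?_)
    congr 1
    rw [hN]
    push_cast
    ring
  obtain ⟨s, hs⟩ := f3b_close hn hc5
  -- the valuation of `b0`
  have hlt : Valued.v (b - algebraMap KI (vla.adicCompletion KI) (emK b0)) <
      (Valued.v b : WithZero (Multiplicative ℤ)) := by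
    rw [hn]
    refine hc5.trans_lt ?_
    rw [WithZero.exp_lt_exp]
    omega
  have hvb0 : Valued.v (algebraMap KI (vla.adicCompletion KI) (emK b0)) =
      (Valued.v b : WithZero (Multiplicative ℤ)) := by
    have e1 : algebraMap KI (vla.adicCompletion KI) (emK b0) =
        b - (b - algebraMap KI (vla.adicCompletion KI) (emK b0)) := by ring
    rw [e1]
    exact Valuation.map_sub_eq_of_lt_left _ hlt
  have hb00 : b0 ≠ 0 := by
    rintro rfl
    rw [map_zero, map_zero, map_zero, hn] at hvb0
    exact WithZero.exp_ne_zero hvb0.symm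
  have hlab : la ∣ b0 := by
    apply (PID.val_lt_one_iff QTD.vla_as b0).1
    rw [← f3b_val, hvb0]
    exact hb
  -- the element `1 - b`
  have h1b : Valued.v (1 - b) = (WithZero.exp 0 : WithZero (Multiplicative ℤ)) := by
    rw [Valuation.map_sub_eq_of_lt_left, map_one, WithZero.exp_zero]
    rw [map_one]
    exact hb
  have hd5 : Valued.v ((1 - b) - algebraMap KI (vla.adicCompletion KI) (emK (1 - b0))) ≤
      (WithZero.exp (0 - 5) : WithZero (Multiplicative ℤ)) := by
    have e1 : (1 - b) - algebraMap KI (vla.adicCompletion KI) (emK (1 - b0)) =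
        -(b - algebraMap KI (vla.adicCompletion KI) (emK b0)) := by
      rw [map_sub, map_sub, map_one, map_one]
      ring
    rw [e1, Valuation.map_neg]
    refine hc5.trans ?_
    rw [WithZero.exp_le_exp]
    omega
  obtain ⟨s', hs'⟩ := f3b_close h1b hd5
  have h1b0 : 1 - b0 ≠ 0 := by
    intro h0
    have h1 : IsUnit b0 := by
      rw [← sub_eq_zero.1 h0]
      exact isUnit_one
    exact la_prime.not_isUnit (isUnit_of_dvd_unit hlab h1)
  obtain ⟨x1, y1, v1, β1, γ1, hcl1, he1⟩ := exists_cl b0 hb00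
  obtain ⟨x2, y2, v2, β2, γ2, hcl2, he2⟩ := exists_cl (1 - b0) h1b0
  have q1 : IsSquare (algebraMap KI (vla.adicCompletion KI)
      (emK (ii ^ x * la ^ y * v * (ii ^ x1 * la ^ y1 * v1)))) := by
    rw [← he1, map_mul, map_mul]
    exact f3b_sq hs e
  have q2 : IsSquare (algebraMap KI (vla.adicCompletion KI)
      (emK (ii ^ x' * la ^ y' * v' * (ii ^ x2 * la ^ y2 * v2)))) := by
    rw [← he2, map_mul, map_mul]
    exact f3b_sq hs' e'
  obtain ⟨a1, a2, a3, a4⟩ := (sq_la_mul_iff x y x1 y1 h hcl1).1 q1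
  obtain ⟨c1, c2, c3, c4⟩ := (sq_la_mul_iff x' y' x2 y2 h' hcl2).1 q2
  have hst := steinberg hlab hb00 hcl1 hcl2 he1 he2
  rw [a1, a2, a3, a4, c1, c2, c3, c4]
  exact hst

end QTC
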