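import Pool.Agent.QTB.F3b

/-!
# [QTB-F3c] the local image at `1 + i` is orthogonal to `D`
-/

set_option autoImplicit false

open NumberField IsDedekindDomain
open scoped Classical

namespace QTC

open PI (Gi sy ii la Prim emK eG KI la_prime pl)
open QT (st Dd Adm bD gD Good)
open QTD (LocB cl vla)

theorem f3c_two (a : ZMod 2) : a + a = 0 := by
  revert a
  decide

theorem f3c_ne {v : Gi} {β γ : ZMod 2} (h : cl v β γ) (x y : ℕ) : emK (ii ^ x * la ^ y * v) ≠ 0 := by
  apply PID.emK_ne
  have hv : v ≠ 0 := by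
    rintro rfl
    exact absurd h.1 (by decide)
  have hii : (ii : Gi) ≠ 0 := by decide
  exact mul_ne_zero (mul_ne_zero (pow_ne_zero _ hii) (pow_ne_zero _ la_prime.ne_zero)) hv

/-- [QTB-F3c] (U). `g = ii^x la^y v`, `D = ii^x' la^y' v'`. PROOF. `LocB`: (1) `g` a square: class `0` (`sq_la_iff`). (2) `D g` a square: the classes are equal (`sq_la_mul_iff`), `HB c c = 0`. (3) `g X` a square, `Y² = X³ - D X`, `X ≠ 0`. Cases:
`v(X²) > v(D)` (multiplicative: `Valued.v (X^2) < Valued.v D`): `b = X²/D`, `v(b) < 1`; `Y² = - D X (1 - b)`, so `D g (1 - b)` is a square (`-1 = i²`); apply `steinberg_loc` to `b ~ D` and `1 - b ~ D g`, i.e. the classes `c' ` and `c + c'` (product `g D`, `QTD.cl_mul`), and `HB c' (c + c') = HB c' c` (bilinear, alternating).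
`Valued.v D < Valued.v (X^2)`: `b = D/X²`, `X (1 - b) = (Y/X)²`, so `g (1 - b)` is a square, `D b` is a square: `steinberg_loc`. Equality: `a = D/X²` is a unit, `X (1 - a) = (Y/X)²`. If `a = 1`, `D` is a square: class `c' = 0`. Otherwise `b = 1 - a` has `v(b) < 1` (residue field with two elements: `PID.res_two`, `QTD.vla_card`), `g b` is a square
and `D (1 - b) = D a` is a square: `steinberg_loc`, `HB` is symmetric. -/
theorem locB_orth {x y x' y' : ℕ} {v v' : Gi} {β γ β' γ' : ZMod 2} (h : cl v β γ) (h' : cl v' β' γ')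
    (hloc : LocB (emK (ii ^ x' * la ^ y' * v')) (emK (ii ^ x * la ^ y * v)) (vla.adicCompletion KI)) :
    HB ((x : ZMod 2), (y : ZMod 2), β, γ) ((x' : ZMod 2), (y' : ZMod 2), β', γ') = 0 := by
  unfold LocB at hloc
  set G : vla.adicCompletion KI := algebraMap KI (vla.adicCompletion KI) (emK (ii ^ x * la ^ y * v)) with hG
  set D : vla.adicCompletion KI := algebraMap KI (vla.adicCompletion KI) (emK (ii ^ x' * la ^ y' * v')) with hD
  have hD0 : D ≠ 0 := by
    rw [hD]
    exact (map_ne_zero _).2 (f3c_ne h' x' y')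
  rcases hloc with hs | hs | ⟨X, Y, hX, hXY, r, hr⟩
  · obtain ⟨a1, a2, a3, a4⟩ := (sq_la_iff x y h).1 hs
    unfold HB
    rw [a1, a2, a3, a4]
    simp
  · rw [← map_mul] at hs
    obtain ⟨a1, a2, a3, a4⟩ := (sq_la_mul_iff x' y' x y h' h).1 hs
    unfold HB
    simp only [a1, a2, a3, a4]
    linear_combination f3c_two ((x : ZMod 2) * β) + f3c_two ((y : ZMod 2) * γ)
  · -- the square root of `-1`
    obtain ⟨j, hj⟩ : ∃ j : vla.adicCompletion KI, j ^ 2 = -1 := by
      refine ⟨algebraMap KI (vla.adicCompletion KI) (emK ii), ?_⟩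
      rw [← map_pow, ← map_pow]
      have e : (ii : Gi) ^ 2 = -1 := by decide
      rw [e, map_neg, map_neg, map_one, map_one]
    rcases lt_trichotomy (Valued.v (X ^ 2) : WithZero (Multiplicative ℤ)) (Valued.v D) with hlt | heq | hgt
    · -- `b = X² / D`
      have hb : Valued.v (X ^ 2 / D) < (1 : WithZero (Multiplicative ℤ)) := by
        rw [map_div₀]
        have hvD : (Valued.v D : WithZero (Multiplicative ℤ)) ≠ 0 := (Valuation.ne_zero_iff _).2 hD0
        exact (div_lt_one₀ (lt_of_le_of_ne zero_le hvD.symm)).2 hlt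
      have hb0 : X ^ 2 / D ≠ 0 := div_ne_zero (pow_ne_zero 2 hX) hD0
      have e1 : IsSquare (algebraMap KI (vla.adicCompletion KI) (emK (ii ^ x' * la ^ y' * v')) *
          (X ^ 2 / D)) := by
        refine ⟨X, ?_⟩
        rw [← hD]
        field_simp
      have e2 : IsSquare (algebraMap KI (vla.adicCompletion KI)
          (emK (ii ^ (x + x') * la ^ (y + y') * (v * v'))) * (1 - X ^ 2 / D)) := by
        have e3 : ii ^ (x + x') * la ^ (y + y') * (v * v') =
            (ii ^ x * la ^ y * v) * (ii ^ x' * la ^ y' * v') := by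
          rw [pow_add, pow_add]
          ring
        rw [e3, map_mul, map_mul, ← hG, ← hD]
        refine ⟨r * j * Y / X ^ 1, ?_⟩
        have e4 : G * D * (1 - X ^ 2 / D) = G * (D - X ^ 2) := by
          field_simp
        rw [e4]
        have e5 : r * j * Y / X ^ 1 * (r * j * Y / X ^ 1) = (r * r) * (j ^ 2) * Y ^ 2 / X ^ 2 := by
          field_simp
        rw [e5, ← hr, hj, hXY]
        field_simp
        ring
      have h3 := steinberg_loc hb hb0 h' (QTD.cl_mul h h') e1 e2
      unfold HB at h3 ⊢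
      simp only at h3 ⊢
      push_cast at h3
      linear_combination h3 - f3c_two ((x' : ZMod 2) * β') - f3c_two ((y' : ZMod 2) * γ')
    · -- `b = 1 - D / X²`
      have hX2 : (Valued.v (X ^ 2) : WithZero (Multiplicative ℤ)) ≠ 0 :=
        (Valuation.ne_zero_iff _).2 (pow_ne_zero 2 hX)
      have hva : Valued.v (D / X ^ 2) = (1 : WithZero (Multiplicative ℤ)) := by
        rw [map_div₀, ← heq, div_self hX2]
      by_cases h1 : D / X ^ 2 = 1
      · have hDX : D = X ^ 2 := by
          rw [div_eq_one_iff_eq (pow_ne_zero 2 hX)] at h1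
          exact h1
        have hs : IsSquare D := ⟨X, by rw [hDX, pow_two]⟩
        obtain ⟨a1, a2, a3, a4⟩ := (sq_la_iff x' y' h').1 hs
        unfold HB
        rw [a1, a2, a3, a4]
        simp
      · have hb : Valued.v (1 - D / X ^ 2) < (1 : WithZero (Multiplicative ℤ)) := by
          rw [← Valuation.map_sub_swap]
          exact PID.res_two vla QTD.vla_card _ hva
        have hb0 : 1 - D / X ^ 2 ≠ 0 := fun h0 => h1 (sub_eq_zero.1 h0).symm
        have e1 : IsSquare (algebraMap KI (vla.adicCompletion KI) (emK (ii ^ x * la ^ y * v)) *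
            (1 - D / X ^ 2)) := by
          rw [← hG]
          refine ⟨r * Y / X ^ 2, ?_⟩
          have e5 : r * Y / X ^ 2 * (r * Y / X ^ 2) = (r * r) * Y ^ 2 / X ^ 4 := by
            field_simp
          rw [e5, ← hr, hXY]
          field_simp
        have e2 : IsSquare (algebraMap KI (vla.adicCompletion KI) (emK (ii ^ x' * la ^ y' * v')) *
            (1 - (1 - D / X ^ 2))) := by
          rw [← hD]
          refine ⟨D / X, ?_⟩
          field_simp
          ring
        exact steinberg_loc hb hb0 h h' e1 e2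
    · -- `b = D / X²`
      have hX2 : (Valued.v (X ^ 2) : WithZero (Multiplicative ℤ)) ≠ 0 :=
        (Valuation.ne_zero_iff _).2 (pow_ne_zero 2 hX)
      have hb : Valued.v (D / X ^ 2) < (1 : WithZero (Multiplicative ℤ)) := by
        rw [map_div₀]
        exact (div_lt_one₀ (lt_of_le_of_ne zero_le hX2.symm)).2 hgt
      have hb0 : D / X ^ 2 ≠ 0 := div_ne_zero hD0 (pow_ne_zero 2 hX)
      have e1 : IsSquare (algebraMap KI (vla.adicCompletion KI) (emK (ii ^ x' * la ^ y' * v')) *
          (D / X ^ 2)) := by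
        rw [← hD]
        refine ⟨D / X, ?_⟩
        field_simp
      have e2 : IsSquare (algebraMap KI (vla.adicCompletion KI) (emK (ii ^ x * la ^ y * v)) *
          (1 - D / X ^ 2)) := by
        rw [← hG]
        refine ⟨r * Y / X ^ 2, ?_⟩
        have e5 : r * Y / X ^ 2 * (r * Y / X ^ 2) = (r * r) * Y ^ 2 / X ^ 4 := by
          field_simp
        rw [e5, ← hr, hXY]
        field_simp
      have h3 := steinberg_loc hb hb0 h' h e1 e2
      unfold HB at h3 ⊢
      simp only at h3 ⊢
      linear_combination h3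

/-- [QTB-F3d] PROOF. `rep_cl`, `QTD.cl_ud` for `D`, `locB_orth`. -/
theorem locB_la_orth {s t : ℕ} {S : Finset Gi} {a : Gi → ℕ} (h : Adm s t S a) {O : Finset Gi} (hO : ∀ p ∈ O, Prime p ∧ Prim p)
    (z : V O) (hloc : LocB (emK (Dd s t S a)) (rep z) (vla.adicCompletion KI)) : HB (cV z) (cD s t S a) = 0 := by
  obtain ⟨k, v, hv, hz⟩ := rep_cl hO z
  have hD := QTD.cl_ud (S := S) h.1 a
  have h1 : rep z = emK (ii ^ (z.1.val + 2 * k) * la ^ z.2.1.val * v) := by
    unfold rep
    rw [hz]
  have h2 : emK (Dd s t S a) = emK (ii ^ s * la ^ t * ∏ p ∈ S, QT.st p ^ a p) := rfl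
  rw [h1, h2] at hloc
  have h3 := locB_orth hv hD hloc
  have e1 : ((z.1.val + 2 * k : ℕ) : ZMod 2) = z.1 := by
    push_cast
    have e0 : (2 : ZMod 2) = 0 := by decide
    rw [e0, zero_mul, add_zero, ZMod.natCast_val, ZMod.cast_id', id]
  have e2 : ((z.2.1.val : ℕ) : ZMod 2) = z.2.1 := by
    rw [ZMod.natCast_val, ZMod.cast_id', id]
  rw [e1, e2] at h3
  exact h3

end QTC
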