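import Pool.Agent.QTB.F0

/-!
# [QTB-F3a] the Steinberg relation at `1 + i`
-/

set_option autoImplicit false

open NumberField IsDedekindDomain
open scoped Classical

namespace QTC

open PI (Gi sy ii la Prim emK eG KI la_prime pl)
open QT (st Dd Adm bD gD Good)
open QTD (LocB cl vla)

theorem f3a_la_re (z : Gi) : (la * z).re = z.re - z.im := by
  rw [PI.s1a_mul_re]
  show (1 : ℤ) * z.re - 1 * z.im = _
  ring

theorem f3a_la_im (z : Gi) : (la * z).im = z.re + z.im := by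
  rw [PI.s1a_mul_im]
  show (1 : ℤ) * z.im + 1 * z.re = _
  ring

theorem f3a_ii_re (z : Gi) : (ii * z).re = -z.im := by
  rw [PI.s1a_mul_re]
  show (0 : ℤ) * z.re - 1 * z.im = _
  ring

theorem f3a_ii_im (z : Gi) : (ii * z).im = z.re := by
  rw [PI.s1a_mul_im]
  show (0 : ℤ) * z.im + 1 * z.re = _
  ring

theorem f3a_ii_pow (x : ℕ) : ii ^ x = ii ^ (x % 4) := by
  have h4 : ii ^ 4 = 1 := by decide
  conv_lhs => rw [← Nat.div_add_mod x 4, pow_add, pow_mul, h4, one_pow, one_mul]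

theorem f3a_cast (x : ℕ) : (x : ZMod 2) = ((x % 4 : ℕ) : ZMod 2) := by
  conv_lhs => rw [← Nat.div_add_mod x 4]
  have h4 : ((4 : ℕ) : ZMod 2) = 0 := by decide
  rw [Nat.cast_add, Nat.cast_mul, h4, zero_mul, zero_add]

/-- parity of `ii^x v` -/
theorem f3a_par (x : ℕ) {v : Gi} {β γ : ZMod 2} (h : cl v β γ) :
    ((ii ^ x * v).re + (ii ^ x * v).im) % 2 = 1 := by
  obtain ⟨h1, h2, h3⟩ := h
  rw [f3a_ii_pow]
  have hx : x % 4 < 4 := Nat.mod_lt _ (by norm_num)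
  generalize x % 4 = z at hx ⊢
  interval_cases z <;>
  simp only [pow_succ', pow_zero, one_mul, mul_one, mul_assoc, f3a_ii_re, f3a_ii_im] <;> omega

theorem f3a_la_dvd {z : Gi} (h : la ∣ z) : (z.re + z.im) % 2 = 0 := by
  obtain ⟨c, rfl⟩ := h
  rw [f3a_la_re, f3a_la_im]
  omega

theorem f3a_core {x x' y : ℕ} (hx : x < 4) (hx' : x' < 4) (hy1 : 1 ≤ y) (hy4 : y ≤ 4) {v v' : Gi}
    {β γ β' γ' : ZMod 2} (h : cl v β γ) (h' : cl v' β' γ')
    (e : 1 - ii ^ x * (la ^ y * v) = ii ^ x' * v') :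
    (x : ZMod 2) * β' + β * (x' : ZMod 2) + (y : ZMod 2) * γ' = 0 := by
  obtain ⟨h1, h2, h3⟩ := h
  obtain ⟨h1', h2', h3'⟩ := h'
  have e1 := congrArg Zsqrtd.re e
  have e2 := congrArg Zsqrtd.im e
  rw [Zsqrtd.re_sub] at e1
  rw [Zsqrtd.im_sub] at e2
  have o1 : (1 : Gi).re = 1 := rfl
  have o2 : (1 : Gi).im = 0 := rfl
  rw [o1] at e1
  rw [o2] at e2
  clear e o1 o2
  interval_cases x <;> interval_cases x' <;> interval_cases y <;>
  simp only [pow_succ', pow_zero, one_mul, mul_one, mul_assoc, f3a_ii_re, f3a_ii_im, f3a_la_re,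
    f3a_la_im] at e1 e2 <;>
  first
  | (exfalso; clear h3 h3'; omega)
  | (rcases h3 with ⟨rfl, rfl, h3⟩ | ⟨rfl, rfl, h3⟩ | ⟨rfl, rfl, h3⟩ | ⟨rfl, rfl, h3⟩ <;>
     rcases h3' with ⟨rfl, rfl, h3'⟩ | ⟨rfl, rfl, h3'⟩ | ⟨rfl, rfl, h3'⟩ | ⟨rfl, rfl, h3'⟩ <;>
     first
     | decide
     | (exfalso; omega))

theorem f3a_core5 {x' : ℕ} (hx' : x' < 4) {b v' : Gi} {β' γ' : ZMod 2} (hb : la ^ 5 ∣ b)
    (h' : cl v' β' γ') (e : 1 - b = ii ^ x' * v') :
    β' = 0 ∧ γ' = 0 ∧ (x' : ZMod 2) = 0 := by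
  obtain ⟨h1', h2', h3'⟩ := h'
  have hb' := QTD.la5_dvd.1 hb
  have e1 := congrArg Zsqrtd.re e
  have e2 := congrArg Zsqrtd.im e
  rw [Zsqrtd.re_sub] at e1
  rw [Zsqrtd.im_sub] at e2
  have o1 : (1 : Gi).re = 1 := rfl
  have o2 : (1 : Gi).im = 0 := rfl
  rw [o1] at e1
  rw [o2] at e2
  clear e o1 o2
  interval_cases x' <;>
  simp only [pow_succ', pow_zero, one_mul, mul_one, mul_assoc, f3a_ii_re, f3a_ii_im] at e1 e2 <;>
  rcases h3' with ⟨rfl, rfl, h3'⟩ | ⟨rfl, rfl, h3'⟩ | ⟨rfl, rfl, h3'⟩ | ⟨rfl, rfl, h3'⟩ <;>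
  first
  | decide
  | (exfalso; omega)

/-- [QTB-F3a] the Steinberg relation `(b, 1 - b) = 0` at `1 + i`. PROOF. Finite check: `la ∣ b`. If `la⁵ ∣ b` then `1 - b ≡ 1`, class `0` (`x'` even, `y' = 0`, `β' = γ' = 0`: `y' = 0` as `la ∤ 1 - b`). Otherwise `y = 1, …, 4`, `la ∤ v`; `v` is determined modulo 8 by `β, γ` up to the residues
`v mod 8` with `re ≡ 1 mod 4`, `im` even; `1 - b mod la⁵` is determined by `b mod la⁵`, i.e. by `x`, `y` and the residues of `v` mod 8. So write `v = v0 + 8 c` with `v0` in a list of 8 Gaussian integers (`re ∈ {1, 5}`, `im ∈ {0, 2, 4, 6}`), `x ≡ 0, 1, 2, 3 mod 4`, `y ∈ {1, 2, 3, 4}`: 128 cases,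
in each of them `1 - b ≡ 1 - ii^x la^y v0 mod 8` is explicit, and determines `ii^x' v'` mod `la⁵` (`y' = 0`), hence `x' mod 2`, `β'`, `γ'`. It may be easier to prove first a lemma `class of g from the residues of g.re, g.im mod 8` for odd `g` and to use `decide` / `interval_cases` / `omega`. Numerically checked. -/
theorem steinberg {b : Gi} (hb : la ∣ b) (hb0 : b ≠ 0) {x y x' y' : ℕ} {v v' : Gi} {β γ β' γ' : ZMod 2}
    (h : cl v β γ) (h' : cl v' β' γ') (e : b = ii ^ x * la ^ y * v) (e' : 1 - b = ii ^ x' * la ^ y' * v') :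
    HB ((x : ZMod 2), (y : ZMod 2), β, γ) ((x' : ZMod 2), (y' : ZMod 2), β', γ') = 0 := by
  -- `y ≥ 1`
  have hy : 1 ≤ y := by
    rcases Nat.eq_zero_or_pos y with h0 | h0
    · exfalso
      subst h0
      rw [pow_zero, mul_one] at e
      have h1 := f3a_la_dvd hb
      have h2 := f3a_par x h
      rw [← e] at h2
      omega
    · exact h0
  -- `y' = 0`
  have hy' : y' = 0 := by
    rcases Nat.eq_zero_or_pos y' with h0 | h0
    · exact h0
    · exfalso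
      obtain ⟨n, rfl⟩ : ∃ n, y' = n + 1 := ⟨y' - 1, by omega⟩
      have h1 : la ∣ 1 - b := by
        rw [e']
        exact ⟨ii ^ x' * la ^ n * v', by ring⟩
      have h2 : la ∣ 1 := by
        have := dvd_add h1 hb
        rwa [sub_add_cancel] at this
      have h3 := f3a_la_dvd h2
      exact absurd h3 (by decide)
  subst hy'
  rw [pow_zero, mul_one, f3a_ii_pow] at e'
  rw [f3a_ii_pow, mul_assoc] at e
  have hx4 : x % 4 < 4 := Nat.mod_lt _ (by norm_num)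
  have hx4' : x' % 4 < 4 := Nat.mod_lt _ (by norm_num)
  have hHB : HB ((x : ZMod 2), (y : ZMod 2), β, γ) ((x' : ZMod 2), ((0 : ℕ) : ZMod 2), β', γ') =
      ((x % 4 : ℕ) : ZMod 2) * β' + β * ((x' % 4 : ℕ) : ZMod 2) + (y : ZMod 2) * γ' := by
    unfold HB
    rw [← f3a_cast x, ← f3a_cast x', Nat.cast_zero, mul_zero, add_zero]
  rw [hHB]
  rcases Nat.lt_or_ge 4 y with h5 | h5
  · have hb5 : la ^ 5 ∣ b := by
      rw [e]
      refine Dvd.dvd.mul_left ?_ _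
      exact (pow_dvd_pow la (by omega : 5 ≤ y)).mul_right v
    obtain ⟨g1, g2, g3⟩ := f3a_core5 hx4' hb5 h' e'
    rw [g1, g2, g3, mul_zero, mul_zero, mul_zero, add_zero, add_zero]
  · rw [e] at e'
    exact f3a_core hx4 hx4' hy h5 h h' e'

end QTC
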