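import Pool.Agent.QTB.F4a
import Pool.Agent.QTB.F2b

/-!
# [QTB-F4f] a point for `t = 2`, `s` even
-/

set_option autoImplicit false

open NumberField IsDedekindDomain
open scoped Classical

namespace QTC

open PI (Gi sy ii la Prim emK eG KI la_prime pl)
open QT (st Dd Adm bD gD Good)
open QTD (LocB cl vla)

theorem f4f_pt {D X v w Z r : Gi} {β γ : ZMod 2} (hX : X ≠ 0) (hZ : cl Z 0 0)
    (he : X * (X ^ 2 - D) = w ^ 2 * Z) (hv : cl v β γ) (hr : v * X = r ^ 2) : Pt D (0, 0, β, γ) := by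
  have hX' : emK X ≠ 0 := by
    intro h0
    apply hX
    apply PI.em_injective
    rw [← PI.emK_coe, h0, map_zero]
    rfl
  have h1 : IsSquare (algebraMap KI (vla.adicCompletion KI) (emK X * (emK X ^ 2 - emK D))) := by
    have h2 : IsSquare (algebraMap KI (vla.adicCompletion KI) (emK (ii ^ 0 * la ^ 0 * Z))) :=
      (sq_la_iff 0 0 hZ).2 ⟨by simp, by simp, rfl, rfl⟩
    rw [pow_zero, pow_zero, one_mul, one_mul] at h2
    have h3 : emK X * (emK X ^ 2 - emK D) = emK w ^ 2 * emK Z := by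
      rw [← map_pow, ← map_sub, ← map_mul, he, map_mul, map_pow]
    rw [h3, map_mul, map_pow]
    obtain ⟨y, hy⟩ := h2
    exact ⟨algebraMap KI (vla.adicCompletion KI) (emK w) * y, by rw [hy]; ring⟩
  have h4 : IsSquare (algebraMap KI (vla.adicCompletion KI) (emK (ii ^ 0 * la ^ 0 * v) * emK X)) := by
    rw [pow_zero, pow_zero, one_mul, one_mul, ← map_mul, hr, map_pow, map_pow]
    exact ⟨_, sq _⟩
  have h5 := Pt_of D (emK X) hX' h1 0 0 hv h4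
  simpa using h5

/-- [QTB-F4f] `t = 2`, `s = 0`, the class `(0, 1)`. PROOF. `u ∈ {5, 1 + 4 ii} mod 8`, `D = 2 ii u`. `X = 1 - 2 ii`, `X² = -3 - 4 ii`; `X (X² - D) ≡ 1 mod 8` (`u = 5`: `-31 - 8 ii`; `u = 1 + 4 ii`: `-7 - 16 ii`), so it is a square (`cl _ 0 0`, `sq_la_iff` with `x = y = 0`). `cl (1 - 2 ii) 1 0`: `Pt_of` with `v = X`. -/
theorem kap2b {u : Gi} (hu : cl u 0 1) : Pt (ii ^ 0 * la ^ 2 * u) (0, 0, 1, 0) := by
  obtain ⟨a, b⟩ := u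
  have hab : a % 4 = 1 ∧ b % 2 = 0 ∧ (a + b) % 8 = 5 := by
    obtain ⟨h1, h2, h3⟩ := hu
    rcases h3 with ⟨-, h, -⟩ | ⟨-, -, h⟩ | ⟨h, -, -⟩ | ⟨h, -, -⟩
    · exact absurd h (by decide)
    · exact ⟨h1, h2, h⟩
    · exact absurd h (by decide)
    · exact absurd h (by decide)
  obtain ⟨h1, h2, h3⟩ := hab
  refine f4f_pt (X := ⟨1, -2⟩) (v := ⟨1, -2⟩) (w := 1) (r := ⟨1, -2⟩)
    (Z := ⟨-11 + 2 * b - 4 * a, 2 - 2 * a - 4 * b⟩) ?_ ?_ ?_ ?_ ?_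
  · intro h
    have := congrArg Zsqrtd.re h
    simp at this
  · refine ⟨?_, ?_, Or.inl ⟨rfl, rfl, ?_⟩⟩
    · show (-11 + 2 * b - 4 * a) % 4 = 1
      omega
    · show (2 - 2 * a - 4 * b) % 2 = 0
      omega
    · show (-11 + 2 * b - 4 * a + (2 - 2 * a - 4 * b)) % 8 = 1
      omega
  · apply Zsqrtd.ext
    · simp [ii, la, sq]
      ring
    · simp [ii, la, sq]
      ring
  · exact ⟨by decide, by decide, by decide⟩
  · rw [sq]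

/-- [QTB-F4f] `t = 2`, `s = 2`, the class `(0, 1)`. PROOF. `D = -2 ii u`, `X = 1 + 2 ii`, `X² = -3 + 4 ii`, `X (X² - D) ≡ 1 mod 8` (`u = 5`: `-31 + 8 ii`; `u = 1 + 4 ii`: `-23 - 16 ii`). `cl (1 + 2 ii) 1 1`. -/
theorem kap2b' {u : Gi} (hu : cl u 0 1) : Pt (ii ^ 2 * la ^ 2 * u) (0, 0, 1, 1) := by
  obtain ⟨a, b⟩ := u
  have hab : a % 4 = 1 ∧ b % 2 = 0 ∧ (a + b) % 8 = 5 := by
    obtain ⟨h1, h2, h3⟩ := hu
    rcases h3 with ⟨-, h, -⟩ | ⟨-, -, h⟩ | ⟨h, -, -⟩ | ⟨h, -, -⟩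
    · exact absurd h (by decide)
    · exact ⟨h1, h2, h⟩
    · exact absurd h (by decide)
    · exact absurd h (by decide)
  obtain ⟨h1, h2, h3⟩ := hab
  refine f4f_pt (X := ⟨1, 2⟩) (v := ⟨1, 2⟩) (w := 1) (r := ⟨1, 2⟩)
    (Z := ⟨-11 - 2 * b - 4 * a, -2 + 2 * a - 4 * b⟩) ?_ ?_ ?_ ?_ ?_
  · intro h
    have := congrArg Zsqrtd.re h
    simp at this
  · refine ⟨?_, ?_, Or.inl ⟨rfl, rfl, ?_⟩⟩
    · show (-11 - 2 * b - 4 * a) % 4 = 1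
      omega
    · show (-2 + 2 * a - 4 * b) % 2 = 0
      omega
    · show (-11 - 2 * b - 4 * a + (-2 + 2 * a - 4 * b)) % 8 = 1
      omega
  · apply Zsqrtd.ext
    · simp [ii, la, sq]
      ring
    · simp [ii, la, sq]
      ring
  · exact ⟨by decide, by decide, by decide⟩
  · rw [sq]

/-- [QTB-F4f] `t = 2`, `s = 0`, the class `(1, 0)`. PROOF. `u ∈ {1 + 6 ii, 5 + 2 ii} mod 8`, `D = 2 ii u`, `X = 6 ii = 3 la²`, `X (X² - D) = la⁴ · 3 (18 ii - u)`, and `3 (18 ii - u)` has class `cl _ 0 0` (`u = 1 + 6 ii`: `-3 + 36 ii`; `u = 5 + 2 ii`: `-15 + 48 ii`), so it is a square.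
`X ~ 3 = ii² (-3)`, `cl (-3) 0 1`. -/
theorem kap2c {u : Gi} (hu : cl u 1 0) : Pt (ii ^ 0 * la ^ 2 * u) (0, 0, 0, 1) := by
  obtain ⟨a, b⟩ := u
  have hab : a % 4 = 1 ∧ b % 2 = 0 ∧ (a + b) % 8 = 7 := by
    obtain ⟨h1, h2, h3⟩ := hu
    rcases h3 with ⟨h, -, -⟩ | ⟨h, -, -⟩ | ⟨-, -, h⟩ | ⟨-, h, -⟩
    · exact absurd h (by decide)
    · exact absurd h (by decide)
    · exact ⟨h1, h2, h⟩
    · exact absurd h (by decide)
  obtain ⟨h1, h2, h3⟩ := hab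
  refine f4f_pt (X := ⟨0, 6⟩) (v := ⟨-3, 0⟩) (w := ⟨0, 2⟩) (r := ⟨3, -3⟩)
    (Z := ⟨-3 * a, 54 - 3 * b⟩) ?_ ?_ ?_ ?_ ?_
  · intro h
    have := congrArg Zsqrtd.im h
    simp at this
  · refine ⟨?_, ?_, Or.inl ⟨rfl, rfl, ?_⟩⟩
    · show (-3 * a) % 4 = 1
      omega
    · show (54 - 3 * b) % 2 = 0
      omega
    · show (-3 * a + (54 - 3 * b)) % 8 = 1
      omega
  · apply Zsqrtd.ext
    · simp [ii, la, sq]
      ring
    · simp [ii, la, sq]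
      ring
  · exact ⟨by decide, by decide, by decide⟩
  · decide

/-- [QTB-F4f] `t = 2`, `s = 2`, the class `(1, 1)`. PROOF. `u ∈ {1 + 2 ii, 5 + 6 ii} mod 8`, `D = -2 ii u`, `X = 6 ii = 3 la²`, `X (X² - D) = la⁴ · 3 (18 ii + u)`; `3 (18 ii + u) = ii² v`, `v = -3 (18 ii + u)` has class `cl v 0 0` (`u = 1 + 2 ii`: `v = -3 - 60 ii`; `u = 5 + 6 ii`: `v = -15 - 72 ii`). -/
theorem kap2c' {u : Gi} (hu : cl u 1 1) : Pt (ii ^ 2 * la ^ 2 * u) (0, 0, 0, 1) := by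
  obtain ⟨a, b⟩ := u
  have hab : a % 4 = 1 ∧ b % 2 = 0 ∧ (a + b) % 8 = 3 := by
    obtain ⟨h1, h2, h3⟩ := hu
    rcases h3 with ⟨h, -, -⟩ | ⟨h, -, -⟩ | ⟨-, h, -⟩ | ⟨-, -, h⟩
    · exact absurd h (by decide)
    · exact absurd h (by decide)
    · exact absurd h (by decide)
    · exact ⟨h1, h2, h⟩
  obtain ⟨h1, h2, h3⟩ := hab
  refine f4f_pt (X := ⟨0, 6⟩) (v := ⟨-3, 0⟩) (w := ⟨2, 0⟩) (r := ⟨3, -3⟩)
    (Z := ⟨-3 * a, -54 - 3 * b⟩) ?_ ?_ ?_ ?_ ?_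
  · intro h
    have := congrArg Zsqrtd.im h
    simp at this
  · refine ⟨?_, ?_, Or.inl ⟨rfl, rfl, ?_⟩⟩
    · show (-3 * a) % 4 = 1
      omega
    · show (-54 - 3 * b) % 2 = 0
      omega
    · show (-3 * a + (-54 - 3 * b)) % 8 = 1
      omega
  · apply Zsqrtd.ext
    · simp [ii, la, sq]
      ring
    · simp [ii, la, sq]
      ring
  · exact ⟨by decide, by decide, by decide⟩
  · decide

end QTC
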