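import Pool.Agent.QTB.F4a
import Pool.Agent.QTB.F2b
import Pool.Agent.QTB.F2d

/-!
# [QTB-F4g] a point for `t = 1, 3`
-/

set_option autoImplicit false

open NumberField IsDedekindDomain
open scoped Classical

namespace QTC

open PI (Gi sy ii la Prim emK eG KI la_prime pl)
open QT (st Dd Adm bD gD Good)
open QTD (LocB cl vla)

theorem f4g_cl_odd {u : Gi} {β γ : ZMod 2} (hu : cl u β γ) : ¬ la ∣ u := by
  rw [PI.la_dvd_iff]
  obtain ⟨h1, h2, -⟩ := hu
  omega

theorem f4g_la_ii : ¬ la ∣ ii := by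
  rw [PI.la_dvd_iff]
  decide

/-- `X (X² - D)` is a square if `la⁵ ∣ X³ - X² + D`, `X` odd. -/
theorem f4g_sq {X D r : Gi} (hX : ¬ la ∣ X) (h : X ^ 3 - X ^ 2 + D = la ^ 5 * r) :
    IsSquare (algebraMap KI (vla.adicCompletion KI) (emK X * ((emK X) ^ 2 - emK D))) := by
  have hX0 : X ≠ 0 := by
    rintro rfl
    exact hX (dvd_zero _)
  have hXK : emK X ≠ 0 := PID.emK_ne hX0
  have hval : ∀ y : KI, Valued.v (algebraMap KI (vla.adicCompletion KI) y) = vla.valuation KI y :=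
    fun y => HeightOneSpectrum.valuedAdicCompletion_eq_valuation' vla y
  have hvX : vla.valuation KI (emK X) = 1 := (PID.val_eq_one_iff QTD.vla_as X).2 hX
  set w : KI := (emK X * ((emK X) ^ 2 - emK D)) / (emK X) ^ 4 with hw
  have hw1 : w - 1 = emK (la ^ 5 * (-(r * X))) / (emK X) ^ 4 := by
    rw [hw, div_sub_one (pow_ne_zero 4 hXK)]
    congr 1
    have e : la ^ 5 * (-(r * X)) = X * (X ^ 2 - D) - X ^ 4 := by
      linear_combination X * h
    rw [e]
    simp only [map_sub, map_mul, map_pow]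
  have hv1 : vla.valuation KI (w - 1) ≤ WithZero.exp (-5) := by
    rw [hw1, map_div₀, map_pow, hvX, one_pow, div_one]
    exact QTD.vla_le _ 5 (-5) (by norm_num) (dvd_mul_right _ _)
  have hv4 : vla.valuation KI 4 = WithZero.exp (-4) := by
    have e : (4 : KI) = 2 * 2 := by norm_num
    rw [e, map_mul, QTD.vla_two, ← WithZero.exp_add]
    rfl
  have hsq : IsSquare (algebraMap KI (vla.adicCompletion KI) w) := by
    apply sq_of_close
    have e1 : algebraMap KI (vla.adicCompletion KI) w - 1 =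
        algebraMap KI (vla.adicCompletion KI) (w - 1) := by
      rw [map_sub, map_one]
    have e2 : (4 : vla.adicCompletion KI) = algebraMap KI (vla.adicCompletion KI) 4 :=
      (map_ofNat (algebraMap KI (vla.adicCompletion KI)) 4).symm
    rw [e1, e2, hval, hval, hv4]
    refine lt_of_le_of_lt hv1 ?_
    exact WithZero.exp_lt_exp.2 (by norm_num)
  have e3 : emK X * ((emK X) ^ 2 - emK D) = w * (emK X ^ 2 * emK X ^ 2) := by
    rw [hw]
    field_simp
  rw [e3, map_mul]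
  refine hsq.mul ?_
  exact ⟨algebraMap KI (vla.adicCompletion KI) (emK X ^ 2), by rw [map_mul]⟩

/-- [QTB-F4g] `t = 1, 3`. PROOF. `X = 1 - D - 2 D² + D³ ∈ ℤ[i]`. `la ∣ D` gives `la⁵ ∣ X³ - X² + D`: with `D = (c, d)`, `c + d` even, this is a congruence for `re`, `im` modulo 8 (`(4 + 4 ii) ∣ z` iff `4 ∣ z.re`, `4 ∣ z.im`, `8 ∣ z.re + z.im`); or: `D = la e`, `X³ - X² + D = la⁵ · (…) + …` by ring
(`X³ - X² + D` is a polynomial in `D` : `- D² ...`; use `2 = - ii la²`, `e² ≡ e mod la`); the easiest way is `decide` on the residues mod 8. So `X² - D = X³ + la⁵ r`, `X (X² - D) = X⁴ (1 + la⁵ r / X³)`, the second factor is a square (`sq_of_close`, or take inverses mod `la⁵`).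
The class of `X` (`exists_cl`): `y = 0` as `la ∤ X` (`κ.2.1 = 0`; `exists_cl` gives some `y` with `X = ii^x la^y v`, so `y = 0`). `κ ≠ 0`: otherwise `X ≡ ± 1 mod la⁵` (`x` even and `cl v 0 0`), but `X ≡ 1 - D mod la^2` for `t = 1` and `X ≡ 1 - D mod la⁶` for `t = 3`: `v(X - 1) = t`, `v(X + 1) = v(2 - D - …) = 1` for `t = 1`, `= 2` for `t = 3`. -/
theorem kap13 {s t : ℕ} (ht : t = 1 ∨ t = 3) {u : Gi} {β γ : ZMod 2} (hu : cl u β γ) :
    ∃ κ : ZMod 2 × ZMod 2 × ZMod 2 × ZMod 2, κ ≠ 0 ∧ κ.2.1 = 0 ∧ Pt (ii ^ s * la ^ t * u) κ := by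
  have hla : Prime la := la_prime
  have hlane : la ≠ 0 := hla.ne_zero
  set e : Gi := ii ^ s * u with he
  have heo : ¬ la ∣ e := by
    intro h1
    rcases hla.dvd_or_dvd h1 with h2 | h2
    · exact f4g_la_ii (hla.dvd_of_dvd_pow h2)
    · exact f4g_cl_odd hu h2
  set D : Gi := ii ^ s * la ^ t * u with hD
  have hDe : D = la ^ t * e := by rw [hD, he]; ring
  obtain ⟨e', he'⟩ : ∃ e', D = la * e' := by
    rcases ht with rfl | rfl
    · exact ⟨e, by rw [hDe]; ring⟩
    · exact ⟨la ^ 2 * e, by rw [hDe]; ring⟩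
  have h2 : (2 : Gi) = -ii * la ^ 2 := by decide
  set X : Gi := 1 - D - 2 * D ^ 2 + D ^ 3 with hX
  have hXo : ¬ la ∣ X := by
    intro h1
    apply hla.not_isUnit
    apply isUnit_of_dvd_one
    have h3 : (1 : Gi) = X + la * (e' * (1 + 2 * D - D ^ 2)) := by
      rw [hX]
      linear_combination (1 + 2 * D - D ^ 2) * he'
    rw [h3]
    exact dvd_add h1 (dvd_mul_right _ _)
  have hX0 : X ≠ 0 := by
    intro h0
    exact hXo (h0 ▸ dvd_zero _)
  have hkey : X ^ 3 - X ^ 2 + D = la ^ 5 *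
      (-ii * e' ^ 3 * (4 - D) + e' ^ 5 * (-17 + 6 * D + 9 * D ^ 2 - 6 * D ^ 3 + D ^ 4)) := by
    have e1 : X ^ 3 - X ^ 2 + D = 2 * D ^ 3 * (4 - D) +
        D ^ 5 * (-17 + 6 * D + 9 * D ^ 2 - 6 * D ^ 3 + D ^ 4) := by
      rw [hX]
      ring
    have e3 : D ^ 3 = la ^ 3 * e' ^ 3 := by rw [he']; ring
    have e5 : D ^ 5 = la ^ 5 * e' ^ 5 := by rw [he']; ring
    rw [e1, e3, e5]
    linear_combination (la ^ 3 * e' ^ 3 * (4 - D)) * h2
  have hsq := f4g_sq hXo hkey
  obtain ⟨x, y, v, β', γ', hv, hXv⟩ := exists_cl X hX0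
  have hy : y = 0 := by
    by_contra hy0
    apply hXo
    rw [hXv]
    obtain ⟨y', rfl⟩ : ∃ y', y = y' + 1 := ⟨y - 1, by omega⟩
    exact ⟨ii ^ x * la ^ y' * v, by ring⟩
  subst hy
  have hPt := Pt_of D (emK X) (PID.emK_ne hX0) hsq x 0 hv ⟨algebraMap KI (vla.adicCompletion KI) (emK X), by
    rw [← hXv, map_mul]⟩
  refine ⟨((x : ZMod 2), ((0 : ℕ) : ZMod 2), β', γ'), ?_, by simp, hPt⟩
  intro hκ
  simp only [Prod.mk_eq_zero] at hκ
  obtain ⟨hx, -, rfl, rfl⟩ := hκ
  obtain ⟨k, hk⟩ : ∃ k, x = 2 * k := by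
    have := (ZMod.natCast_eq_zero_iff x 2).1 hx
    exact this
  -- `v` is `1` modulo `la⁵`
  have hv5 : la ^ 5 ∣ v - 1 := by
    rw [QTD.la5_dvd]
    obtain ⟨h3, h4, h5⟩ := hv
    have h6 : (v.re + v.im) % 8 = 1 := by
      rcases h5 with ⟨-, -, h5⟩ | ⟨-, h5, -⟩ | ⟨h5, -, -⟩ | ⟨h5, -, -⟩
      · exact h5
      · exact absurd h5 (by decide)
      · exact absurd h5 (by decide)
      · exact absurd h5 (by decide)
    simp only [Zsqrtd.re_sub, Zsqrtd.im_sub, Zsqrtd.re_one, Zsqrtd.im_one]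
    omega
  have hii : ii ^ x = 1 ∨ ii ^ x = -1 := by
    rw [hk, pow_mul]
    have e1 : ii ^ 2 = (-1 : Gi) := by decide
    rw [e1]
    exact neg_one_pow_eq_or Gi k
  -- the two cases
  rw [pow_zero, mul_one] at hXv
  rcases hii with h3 | h3
  · -- `la⁵ ∣ X - 1`
    have h4 : la ^ 5 ∣ X - 1 := by
      rw [hXv, h3, one_mul]
      exact hv5
    have h5 : X - 1 = -(la ^ t * (e * (1 + 2 * D - D ^ 2))) := by
      rw [hX]
      linear_combination (-(1 + 2 * D - D ^ 2)) * hDe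
    rw [h5, dvd_neg] at h4
    have h6 : la ∣ e * (1 + 2 * D - D ^ 2) := by
      have h7 : la ^ t * la ∣ la ^ t * (e * (1 + 2 * D - D ^ 2)) := by
        refine dvd_trans ?_ h4
        rw [← pow_succ]
        exact pow_dvd_pow _ (by omega)
      exact (mul_dvd_mul_iff_left (pow_ne_zero t hlane)).1 h7
    rcases hla.dvd_or_dvd h6 with h7 | h7
    · exact heo h7
    · apply hla.not_isUnit
      apply isUnit_of_dvd_one
      have h8 : (1 : Gi) = (1 + 2 * D - D ^ 2) - la * (e' * (2 - D)) := by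
        linear_combination (-(2 - D)) * he'
      rw [h8]
      exact dvd_sub h7 (dvd_mul_right _ _)
  · -- `la⁵ ∣ X + 1`
    have h4 : la ^ 5 ∣ X + 1 := by
      rw [hXv, h3]
      have : -1 * v + 1 = -(v - 1) := by ring
      rw [this, dvd_neg]
      exact hv5
    rcases ht with rfl | rfl
    · -- `t = 1`
      have h5 : la ^ 2 ∣ la * e := by
        have h6 : la * e = la ^ 2 * (-ii - 2 * e ^ 2 + la * e ^ 3) - (X + 1) := by
          rw [hX, hDe]
          linear_combination h2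
        rw [h6]
        exact dvd_sub (dvd_mul_right _ _) (dvd_trans (pow_dvd_pow _ (by norm_num)) h4)
      rw [pow_two] at h5
      exact heo ((mul_dvd_mul_iff_left hlane).1 h5)
    · -- `t = 3`
      have h5 : la ^ 3 ∣ la ^ 2 * ii := by
        have h6 : la ^ 2 * ii = la ^ 3 * (-e - 2 * la ^ 3 * e ^ 2 + la ^ 6 * e ^ 3) - (X + 1) := by
          rw [hX, hDe]
          linear_combination h2
        rw [h6]
        exact dvd_sub (dvd_mul_right _ _) (dvd_trans (pow_dvd_pow _ (by norm_num)) h4)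
      rw [pow_succ] at h5
      exact f4g_la_ii ((mul_dvd_mul_iff_left (pow_ne_zero 2 hlane)).1 h5)

end QTC
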