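import Pool.Agent.QTB.F4e
import Pool.Agent.QTB.F4f
import Pool.Agent.QTB.F4g

/-!
# [QTB-F4c] the local image at `1 + i` has at least four elements
-/

set_option autoImplicit false

open NumberField IsDedekindDomain
open scoped Classical

namespace QTC

open PI (Gi sy ii la Prim emK eG KI la_prime pl)
open QT (st Dd Adm bD gD Good)
open QTD (LocB cl vla)

theorem f4c_ii_ne : ii ≠ 0 := by
  intro h
  have h1 := congrArg Zsqrtd.im h
  simp [ii] at h1

theorem f4c_ne {v : Gi} {β γ : ZMod 2} (hv : cl v β γ) (x y : ℕ) : ii ^ x * la ^ y * v ≠ 0 := by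
  refine mul_ne_zero (mul_ne_zero (pow_ne_zero _ f4c_ii_ne) (pow_ne_zero _ la_prime.ne_zero)) ?_
  intro h
  have h1 := hv.1
  rw [h] at h1
  simp at h1

theorem f4c_fin {D : Gi} {κ : ZMod 2 × ZMod 2 × ZMod 2 × ZMod 2} (hP : Pt D κ) (x y : ℕ) (v : Gi)
    (β γ : ZMod 2) (hv : cl v β γ) (hκ : ((x : ZMod 2), (y : ZMod 2), β, γ) = κ) :
    LocB (emK D) (emK (ii ^ x * la ^ y * v)) (vla.adicCompletion KI) := by
  obtain ⟨x0, y0, v0, hc0, hx0, hy0, hL⟩ := hP
  subst hκ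
  have h1 := (sq_la_mul_iff x y x0 y0 hv hc0).2 ⟨hx0.symm, hy0.symm, rfl, rfl⟩
  rw [map_mul] at h1
  exact locB_congr (PID.emK_ne (f4c_ne hv x y)) (PID.emK_ne (f4c_ne hc0 x0 y0)) h1 hL

/-- [QTB-F4c] (L). PROOF. `D = ii^s la^t u`, `cl u (bD) (gD)` (`QTD.cl_ud`, see QT/D14b or the proofs in QT/D14.lean). Cases of `Good` (all of them have `cD = (s, t, bD, gD)`): `t = 0`: `kap0`, `κ = (0,0,0,1)`, `cD.1 = 1` (`GoodA`, `s` odd) or `cD = (0,0,1,γ)` (`GoodB`). `t = 2`, `s` odd: `kap2a`.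
`t = 2`, `s = 0`, `bD + gD = 1`: `(0,1)`: `kap2b`, `(1,0)`: `kap2c`; `s = 2`, `gD = 1`: `(0,1)`: `kap2b'`, `(1,1)`: `kap2c'`. `t = 1, 3`: `kap13`, `cD.2.1 = 1`. In each case `κ ≠ 0`, `κ ≠ cD`, `cD ≠ 0`. The last statement: `Pt D κ` gives `x₀, y₀, v₀` with the class `κ`, the product of
`ii^x la^y v` and `ii^x₀ la^y₀ v₀` is a square (`sq_la_mul_iff`), `locB_congr`. -/
theorem exists_kappa {s t : ℕ} {S : Finset Gi} {a : Gi → ℕ} (h : Good s t S a) :
    ∃ κ : ZMod 2 × ZMod 2 × ZMod 2 × ZMod 2, κ ≠ 0 ∧ κ ≠ cD s t S a ∧ cD s t S a ≠ 0 ∧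
      ∀ (x y : ℕ) (v : Gi) (β γ : ZMod 2), cl v β γ → ((x : ZMod 2), (y : ZMod 2), β, γ) = κ →
        LocB (emK (Dd s t S a)) (emK (ii ^ x * la ^ y * v)) (vla.adicCompletion KI) := by
  have key : ∀ κ : ZMod 2 × ZMod 2 × ZMod 2 × ZMod 2, κ ≠ 0 → κ ≠ cD s t S a → cD s t S a ≠ 0 →
      Pt (Dd s t S a) κ → ∃ κ : ZMod 2 × ZMod 2 × ZMod 2 × ZMod 2, κ ≠ 0 ∧ κ ≠ cD s t S a ∧
      cD s t S a ≠ 0 ∧ ∀ (x y : ℕ) (v : Gi) (β γ : ZMod 2), cl v β γ →
        ((x : ZMod 2), (y : ZMod 2), β, γ) = κ →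
        LocB (emK (Dd s t S a)) (emK (ii ^ x * la ^ y * v)) (vla.adicCompletion KI) :=
    fun κ h1 h2 h3 hP => ⟨κ, h1, h2, h3, fun x y v β γ hv hκ => f4c_fin hP x y v β γ hv hκ⟩
  have hAdm : Adm s t S a := by
    rcases h with h | h | h <;> exact h.1
  have hu : cl (∏ p ∈ S, st p ^ a p) (bD S a) (gD S a) := QTD.cl_ud hAdm.1 a
  obtain ⟨u, hu'⟩ : ∃ u, u = ∏ p ∈ S, st p ^ a p := ⟨_, rfl⟩
  have hD : Dd s t S a = ii ^ s * la ^ t * u := by rw [hu']; rfl
  rw [← hu'] at hu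
  have hcD : cD s t S a = ((s : ZMod 2), (t : ZMod 2), bD S a, gD S a) := rfl
  have h13 : t = 1 ∨ t = 3 → ∃ κ : ZMod 2 × ZMod 2 × ZMod 2 × ZMod 2, κ ≠ 0 ∧ κ ≠ cD s t S a ∧
      cD s t S a ≠ 0 ∧ ∀ (x y : ℕ) (v : Gi) (β γ : ZMod 2), cl v β γ →
        ((x : ZMod 2), (y : ZMod 2), β, γ) = κ →
        LocB (emK (Dd s t S a)) (emK (ii ^ x * la ^ y * v)) (vla.adicCompletion KI) := by
    intro ht
    obtain ⟨κ, h1, h2, h3⟩ := kap13 (s := s) ht hu
    have ht1 : (t : ZMod 2) = 1 := by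
      rcases ht with rfl | rfl <;> rfl
    refine key κ h1 ?_ ?_ (by rw [hD]; exact h3)
    · intro h4
      rw [h4, hcD] at h2
      change (t : ZMod 2) = 0 at h2
      rw [ht1] at h2
      exact one_ne_zero h2
    · intro h4
      rw [hcD] at h4
      have h5 : (t : ZMod 2) = 0 := congrArg (fun c => c.2.1) h4
      rw [ht1] at h5
      exact one_ne_zero h5
  have hs3 : s ≤ 3 := hAdm.2.2.1
  -- the class of a point with third or fourth coordinate
  have hgen : ∀ κ : ZMod 2 × ZMod 2 × ZMod 2 × ZMod 2, Pt (ii ^ s * la ^ t * u) κ → κ ≠ 0 →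
      κ ≠ ((s : ZMod 2), (t : ZMod 2), bD S a, gD S a) →
      ((s : ZMod 2), (t : ZMod 2), bD S a, gD S a) ≠ 0 →
      ∃ κ : ZMod 2 × ZMod 2 × ZMod 2 × ZMod 2, κ ≠ 0 ∧ κ ≠ cD s t S a ∧
      cD s t S a ≠ 0 ∧ ∀ (x y : ℕ) (v : Gi) (β γ : ZMod 2), cl v β γ →
        ((x : ZMod 2), (y : ZMod 2), β, γ) = κ →
        LocB (emK (Dd s t S a)) (emK (ii ^ x * la ^ y * v)) (vla.adicCompletion KI) := by
    intro κ hP h1 h2 h3
    rw [← hD] at hP
    exact key κ h1 (by rw [hcD]; exact h2) (by rw [hcD]; exact h3) hP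
  obtain ⟨β, hβ⟩ : ∃ β, β = bD S a := ⟨_, rfl⟩
  obtain ⟨γ, hγ⟩ : ∃ γ, γ = gD S a := ⟨_, rfl⟩
  rw [← hβ, ← hγ] at hgen hu
  rcases h with ⟨_, h, _⟩ | ⟨_, h, _⟩ | ⟨_, h, _⟩
  · rw [← hβ] at h
    rcases h with ⟨rfl, h⟩ | h | ⟨rfl, h⟩
    · refine hgen _ (kap0 s hu) (by decide) ?_ ?_
      · interval_cases s
        · exact absurd h (by decide)
        · clear h hgen hu hβ hγ
          revert β γ
          decide
        · exact absurd h (by decide)
        · clear h hgen hu hβ hγ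
          revert β γ
          decide
      · interval_cases s
        · exact absurd h (by decide)
        · clear h hgen hu hβ hγ
          revert β γ
          decide
        · exact absurd h (by decide)
        · clear h hgen hu hβ hγ
          revert β γ
          decide
    · exact h13 (Or.inr h)
    · refine hgen _ (kap2a hu h) (by decide) ?_ ?_
      · rcases h with ⟨rfl, h⟩ | ⟨rfl, h⟩
        · clear h hgen hu hβ hγ
          revert β γ
          decide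
        · clear h hgen hu hβ hγ
          revert β γ
          decide
      · rcases h with ⟨rfl, h⟩ | ⟨rfl, h⟩
        · clear h hgen hu hβ hγ
          revert β γ
          decide
        · clear h hgen hu hβ hγ
          revert β γ
          decide
  · rw [← hβ, ← hγ] at h
    rcases h with ⟨rfl, h, hb⟩ | ⟨rfl, h⟩
    · rw [hb] at hgen hu
      refine hgen _ (kap0 s hu) (by decide) ?_ ?_
      · intro h4
        have h5 : (0 : ZMod 2) = 1 := congrArg (fun c => c.2.2.1) h4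
        exact zero_ne_one h5
      · intro h4
        have h5 : (1 : ZMod 2) = 0 := congrArg (fun c => c.2.2.1) h4
        exact one_ne_zero h5
    · rcases h with ⟨rfl, h⟩ | ⟨rfl, h⟩
      · have h5 : (β = 0 ∧ γ = 1) ∨ (β = 1 ∧ γ = 0) := by
          clear hgen hu hβ hγ
          revert β γ
          decide
        rcases h5 with ⟨h6, h7⟩ | ⟨h6, h7⟩
        · rw [h6, h7] at hgen hu
          exact hgen _ (kap2b hu) (by decide) (by decide) (by decide)
        · rw [h6, h7] at hgen hu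
          exact hgen _ (kap2c hu) (by decide) (by decide) (by decide)
      · have h5 : β = 0 ∨ β = 1 := by
          clear hgen hu hβ hγ h
          revert β
          decide
        rcases h5 with h6 | h6
        · rw [h6, h] at hgen hu
          exact hgen _ (kap2b' hu) (by decide) (by decide) (by decide)
        · rw [h6, h] at hgen hu
          exact hgen _ (kap2c' hu) (by decide) (by decide) (by decide)
  · exact h13 (Or.inl h)

end QTC
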