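import Pool.Agent.QTB.F4c
import Pool.Agent.QTB.F1a
import Pool.Agent.QTB.F2d

/-!
# [QTB-F4d] four classes with the local condition
-/

set_option autoImplicit false

open NumberField IsDedekindDomain
open scoped Classical

namespace QTC

open PI (Gi sy ii la Prim emK eG KI la_prime pl)
open QT (st Dd Adm bD gD Good)
open QTD (LocB cl vla)

/-- [QTB-F4d] PROOF. `rep z = emK (ii^x la^y v)`, `cl v (be z) (ga z)` (`rep_cl`). `cV z = 0`: `rep z` is a square (`sq_la_iff`). `cV z = cD`: `rep z D` is a square (`QTD.cl_ud`, `sq_la_mul_iff`). `cV z = κ`: `exists_kappa`. `cV z = κ + cD`: `D · rep z = emK (ii^(x+s) la^(y+t) (v u))` has the class `κ`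
(`QTD.cl_mul`), so `LocB D (D rep z)` by `exists_kappa`, hence `LocB D (rep z)` (`QTD.locB_mul_d`, QT/D5.lean, applied to `D rep z`, and `locB_congr` for `D² rep z ~ rep z`). -/
theorem locB_la_of {s t : ℕ} {S : Finset Gi} {a : Gi → ℕ} (h : Good s t S a) :
    ∃ κ : ZMod 2 × ZMod 2 × ZMod 2 × ZMod 2, κ ≠ 0 ∧ κ ≠ cD s t S a ∧ cD s t S a ≠ 0 ∧
      ∀ (O : Finset Gi), (∀ p ∈ O, Prime p ∧ Prim p) → ∀ z : V O,
        (cV z = 0 ∨ cV z = cD s t S a ∨ cV z = κ ∨ cV z = κ + cD s t S a) →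
        LocB (emK (Dd s t S a)) (rep z) (vla.adicCompletion KI) := by
  obtain ⟨κ, hk0, hkD, hD0, hk⟩ := exists_kappa h
  refine ⟨κ, hk0, hkD, hD0, ?_⟩
  intro O hO z hz
  obtain ⟨k, v, hv, hrep⟩ := rep_cl hO z
  have hS := (QTD.good_adm h).1
  have hu := QTD.cl_ud hS a
  have hx : ((z.1.val + 2 * k : ℕ) : ZMod 2) = z.1 := by
    rw [Nat.cast_add, Nat.cast_mul, ZMod.natCast_zmod_val]
    have : ((2 : ℕ) : ZMod 2) = 0 := by decide
    rw [this, zero_mul, add_zero]
  have hy : ((z.2.1.val : ℕ) : ZMod 2) = z.2.1 := ZMod.natCast_zmod_val _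
  have hrz : rep z = emK (ii ^ (z.1.val + 2 * k) * la ^ z.2.1.val * v) := by
    unfold rep
    rw [hrep]
  have hDn : emK (Dd s t S a) ≠ 0 := by
    intro h0
    apply QTD.Dd_ne (s := s) (t := t) (a := a) hS
    apply PI.em_injective
    rw [← PI.emK_coe, h0, map_zero]
    rfl
  have hrn : rep z ≠ 0 := rep_ne hO z
  rcases hz with hz | hz | hz | hz
  · left
    rw [hrz, sq_la_iff _ _ hv, hx, hy]
    unfold cV at hz
    simp only [Prod.mk_eq_zero] at hz
    exact hz
  · right; left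
    have h1 : emK (Dd s t S a) * rep z = emK (ii ^ s * la ^ t * (∏ p ∈ S, st p ^ a p) *
        (ii ^ (z.1.val + 2 * k) * la ^ z.2.1.val * v)) := by
      rw [hrz, ← map_mul]
      rfl
    rw [h1, sq_la_mul_iff _ _ _ _ hu hv, hx, hy]
    unfold cV cD at hz
    simp only [Prod.mk.injEq] at hz
    exact ⟨hz.1.symm, hz.2.1.symm, hz.2.2.1.symm, hz.2.2.2.symm⟩
  · rw [hrz]
    refine hk _ _ _ _ _ hv ?_
    rw [hx, hy, ← hz]
    rfl
  · have h1 : emK (Dd s t S a) * rep z = emK (ii ^ (s + (z.1.val + 2 * k)) * la ^ (t + z.2.1.val) *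
        ((∏ p ∈ S, st p ^ a p) * v)) := by
      rw [hrz, ← map_mul]
      unfold Dd
      congr 1
      ring
    have h2 : LocB (emK (Dd s t S a)) (emK (Dd s t S a) * rep z) (vla.adicCompletion KI) := by
      rw [h1]
      refine hk _ _ _ _ _ (QTD.cl_mul hu hv) ?_
      rw [Nat.cast_add s (z.1.val + 2 * k), Nat.cast_add t z.2.1.val, hx, hy]
      have h3 : κ = cV z + cD s t S a := by
        rw [hz, add_assoc]
        have : ∀ c : ZMod 2 × ZMod 2 × ZMod 2 × ZMod 2, c + c = 0 := by decide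
        rw [this, add_zero]
      rw [h3]
      unfold cV cD
      simp only [Prod.mk_add_mk]
      rw [add_comm (s : ZMod 2), add_comm (t : ZMod 2), add_comm (bD S a), add_comm (gD S a)]
    have h3 := QTD.locB_mul_d hDn PID.emK_ii h2
    refine locB_congr hrn (mul_ne_zero hDn (mul_ne_zero hDn hrn)) ?_ h3
    refine ⟨algebraMap KI (vla.adicCompletion KI) (emK (Dd s t S a) * rep z), ?_⟩
    rw [← map_mul]
    congr 1
    ring

end QTC
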