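import Pool.Agent.QTB.F4a
import Pool.Agent.QTB.F2b

/-!
# [QTB-F4e] a point for `t = 0` and for `t = 2`, `s` odd
-/

set_option autoImplicit false

open NumberField IsDedekindDomain
open scoped Classical

namespace QTC

open PI (Gi sy ii la Prim emK eG KI la_prime pl)
open QT (st Dd Adm bD gD Good)
open QTD (LocB cl vla)

theorem f4e_sq {v : Gi} (h : cl v 0 0) :
    IsSquare (algebraMap KI (vla.adicCompletion KI) (emK v)) := by
  have h1 := (sq_la_iff 0 0 h).2 ⟨by norm_num, by norm_num, rfl, rfl⟩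
  rwa [pow_zero, pow_zero, one_mul, one_mul] at h1

theorem f4e_odd {u : Gi} {β γ : ZMod 2} (hu : cl u β γ) (s : ℕ) :
    ((ii ^ s * la ^ 0 * u : Gi).re + (ii ^ s * la ^ 0 * u : Gi).im) % 2 = 1 := by
  have h1 : ¬ la ∣ ii ^ s * la ^ 0 * u := by
    rw [pow_zero, mul_one]
    intro h
    rcases la_prime.dvd_or_dvd h with h | h
    · have hii : IsUnit (ii ^ s : Gi) := (IsUnit.of_mul_eq_one (-ii) (by decide)).pow s
      exact la_prime.not_isUnit (isUnit_of_dvd_unit h hii)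
    · rw [PI.la_dvd_iff] at h
      obtain ⟨h2, h3, -⟩ := hu
      omega
  rw [PI.la_dvd_iff] at h1
  omega

/-- [QTB-F4e] `t = 0`. PROOF. `X = 5 / la²`, `X (X² - D) = (125 + 20 D) (la⁻³)²` (`la⁴ = -4`), `D = ii^s u`, `la ∤ D`, so `D ≡ 1 mod la`, `125 + 20 D ≡ 145 ≡ 1 mod la⁵`: a square by `sq_la_iff` (`cl (125 + 20 D) 0 0`: with `D = (c, d)`, `c + d` odd:
re `= 125 + 20 c`, im `= 20 d`, `re % 4 = 1`, `(re + im) % 8 = (5 + 4 (c + d)) % 8 = 1`). `X ~ 5`, `cl 5 0 1`: `Pt_of` with `x = 0`, `y = 0`, `v = 5`. -/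
theorem kap0 (s : ℕ) {u : Gi} {β γ : ZMod 2} (hu : cl u β γ) : Pt (ii ^ s * la ^ 0 * u) (0, 0, 0, 1) := by
  have hodd := f4e_odd hu s
  set D : Gi := ii ^ s * la ^ 0 * u with hD
  have hla : emK la ≠ 0 := PID.emK_ne la_prime.ne_zero
  have h5 : (5 : Gi) ≠ 0 := by decide
  have h5K : emK 5 ≠ 0 := PID.emK_ne h5
  have hla4 : emK la ^ 4 = -4 := by
    have h1 : la ^ 4 = (-4 : Gi) := by decide
    rw [← map_pow, h1, map_neg, map_ofNat]
  have hcl : cl (125 + 20 * D) 0 0 := by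
    have e1 : (125 + 20 * D : Gi).re = 125 + 20 * D.re := by simp
    have e2 : (125 + 20 * D : Gi).im = 20 * D.im := by simp
    refine ⟨by rw [e1]; omega, by rw [e2]; omega, Or.inl ⟨rfl, rfl, ?_⟩⟩
    rw [e1, e2]
    omega
  have hcl5 : cl (5 : Gi) 0 1 := by
    have e1 : (5 : Gi).re = 5 := by simp
    have e2 : (5 : Gi).im = 0 := by simp
    refine ⟨by rw [e1]; norm_num, by rw [e2]; norm_num, Or.inr (Or.inl ⟨rfl, rfl, ?_⟩)⟩
    rw [e1, e2]
    norm_num
  have hXe : (emK 5 / emK la ^ 2) * ((emK 5 / emK la ^ 2) ^ 2 - emK D) =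
      emK (125 + 20 * D) * ((emK la ^ 3)⁻¹ * (emK la ^ 3)⁻¹) := by
    have e3 : emK (125 + 20 * D) = 125 + 20 * emK D := by
      rw [map_add, map_mul, map_ofNat, map_ofNat]
    have e5 : emK 5 = 5 := map_ofNat emK 5
    rw [e3, e5]
    have e4 : emK la ^ 6 ≠ 0 := pow_ne_zero _ hla
    rw [← mul_inv, ← pow_add, div_pow, ← pow_mul, mul_sub, div_mul_div_comm, ← pow_add]
    have e6 : (5 / emK la ^ 2) * emK D = (5 * emK la ^ 4 * emK D) / emK la ^ 6 := by
      field_simp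
    rw [e6, hla4, ← sub_div, div_eq_mul_inv]
    congr 1
    ring
  have h := Pt_of D (emK 5 / emK la ^ 2) (div_ne_zero h5K (pow_ne_zero 2 hla)) (by
    rw [hXe, map_mul]
    exact (f4e_sq hcl).mul ⟨_, map_mul _ _ _⟩) 0 0 hcl5 (by
    rw [pow_zero, pow_zero, one_mul, one_mul]
    refine ⟨algebraMap KI (vla.adicCompletion KI) (emK 5 / emK la), ?_⟩
    rw [← map_mul]
    congr 1
    field_simp)
  rw [Nat.cast_zero] at h
  exact h

/-- [QTB-F4e] `t = 2`, `s` odd. PROOF. `X = 3`. `s = 1`, `β = 0`: `u ≡ 1 mod 4`, `D = ii (2 ii) u = -2 u ≡ -2 mod 8`; `s = 3`, `β = 1`: `u ≡ 1 + 2 ii mod 4`, `D = 2 u ≡ 2 + 4 ii mod 8`. In both cases `X (X² - D) = 27 - 3 D` has class `cl _ 0 0` (re, im by `omega` from the residues of `u`),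
a square by `sq_la_iff`. `3 = ii² (-3)`, `cl (-3) 0 1`: `Pt_of` with `x = 2`, `y = 0`, `v = -3` (`(2 : ZMod 2) = 0`). -/
theorem kap2a {s : ℕ} {u : Gi} {β γ : ZMod 2} (hu : cl u β γ) (hs : s = 1 ∧ β = 0 ∨ s = 3 ∧ β = 1) :
    Pt (ii ^ s * la ^ 2 * u) (0, 0, 0, 1) := by
  have h3 : (3 : Gi) ≠ 0 := by decide
  have h3K : emK 3 ≠ 0 := PID.emK_ne h3
  have hcl3 : cl (-3 : Gi) 0 1 := by
    have e1 : (-3 : Gi).re = -3 := by simp
    have e2 : (-3 : Gi).im = 0 := by simp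
    refine ⟨by rw [e1]; norm_num, by rw [e2]; norm_num, Or.inr (Or.inl ⟨rfl, rfl, ?_⟩)⟩
    rw [e1, e2]
    norm_num
  have hcl : cl (3 * (3 ^ 2 - ii ^ s * la ^ 2 * u)) 0 0 := by
    obtain ⟨h1, h2, h4⟩ := hu
    rcases hs with ⟨rfl, rfl⟩ | ⟨rfl, rfl⟩
    · have e0 : (3 * (3 ^ 2 - ii ^ 1 * la ^ 2 * u) : Gi) = 27 + 6 * u := by
        have e1 : (ii ^ 1 * la ^ 2 : Gi) = -2 := by decide
        rw [e1]
        ring
      have e1 : (27 + 6 * u : Gi).re = 27 + 6 * u.re := by simp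
      have e2 : (27 + 6 * u : Gi).im = 6 * u.im := by simp
      have h5 : (u.re + u.im) % 4 = 1 := by
        rcases h4 with h | h | h | h
        · have := h.2.2; omega
        · have := h.2.2; omega
        · exact absurd h.1 (by decide)
        · exact absurd h.1 (by decide)
      rw [e0]
      refine ⟨by rw [e1]; omega, by rw [e2]; omega, Or.inl ⟨rfl, rfl, ?_⟩⟩
      rw [e1, e2]
      omega
    · have e0 : (3 * (3 ^ 2 - ii ^ 3 * la ^ 2 * u) : Gi) = 27 - 6 * u := by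
        have e1 : (ii ^ 3 * la ^ 2 : Gi) = 2 := by decide
        rw [e1]
        ring
      have e1 : (27 - 6 * u : Gi).re = 27 - 6 * u.re := by simp
      have e2 : (27 - 6 * u : Gi).im = -(6 * u.im) := by simp
      have h5 : (u.re + u.im) % 4 = 3 := by
        rcases h4 with h | h | h | h
        · exact absurd h.1 (by decide)
        · exact absurd h.1 (by decide)
        · have := h.2.2; omega
        · have := h.2.2; omega
      rw [e0]
      refine ⟨by rw [e1]; omega, by rw [e2]; omega, Or.inl ⟨rfl, rfl, ?_⟩⟩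
      rw [e1, e2]
      omega
  have h := Pt_of (ii ^ s * la ^ 2 * u) (emK 3) h3K (by
    rw [← map_pow emK, ← map_sub emK, ← map_mul emK]
    exact f4e_sq hcl) 2 0 hcl3 (by
    have e1 : (ii ^ 2 * la ^ 0 * -3 : Gi) = 3 := by decide
    rw [e1]
    exact ⟨_, by rw [← map_mul (algebraMap KI (vla.adicCompletion KI))]⟩)
  exact h

end QTC
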