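import Pool.Agent.QTB.F4a
import Pool.Agent.QTB.F4e
import Pool.Agent.QTB.F4f
import Pool.Agent.QTB.F4g
import Pool.Agent.QTB.F4c
import Pool.Agent.QTB.F4d
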