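import Pool.Agent.QTB.F0

/-!
# [QTB-F4a] points with given `x`-coordinate
-/

set_option autoImplicit false

open NumberField IsDedekindDomain
open scoped Classical

namespace QTC

open PI (Gi sy ii la Prim emK eG KI la_prime pl)
open QT (st Dd Adm bD gD Good)
open QTD (LocB cl vla)

/-- [QTB-F4a] a point with given `x`-coordinate. PROOF. `X³ - D X = X (X² - D)` is a square in `K_λ`, `= Y²`; `LocB D X`: third alternative with `x = X`, `X X` is a square. -/
theorem locB_of_point (D X : KI) (hX : X ≠ 0)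
    (h : IsSquare (algebraMap KI (vla.adicCompletion KI) (X * (X ^ 2 - D)))) : LocB D X (vla.adicCompletion KI) := by
  obtain ⟨Y, hY⟩ := h
  refine Or.inr (Or.inr ⟨algebraMap KI (vla.adicCompletion KI) X, Y,
    (map_ne_zero (algebraMap KI (vla.adicCompletion KI))).2 hX, ?_, ⟨_, rfl⟩⟩)
  rw [sq Y, ← hY, map_mul, map_sub, map_pow]
  ring

theorem f4a_sq {L : Type} [Field L] {p q b : L} (hb : b ≠ 0) (hp : IsSquare p) (hq : IsSquare q) :
    IsSquare (p * q / b ^ 2) := by
  obtain ⟨x, rfl⟩ := hp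
  obtain ⟨y, rfl⟩ := hq
  refine ⟨x * y / b, ?_⟩
  field_simp

/-- [QTB-F4b] PROOF. `g` and `b` have the same class modulo squares in `K_λ`: all three alternatives of `LocB` are preserved. -/
theorem locB_congr {D g b : KI} (hg : g ≠ 0) (hb : b ≠ 0)
    (h : IsSquare (algebraMap KI (vla.adicCompletion KI) (g * b))) (hb : LocB D b (vla.adicCompletion KI)) :
    LocB D g (vla.adicCompletion KI) := by
  rename_i hb0
  set f := algebraMap KI (vla.adicCompletion KI) with hf
  have hb1 : f b ≠ 0 := (map_ne_zero f).2 hb0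
  rw [map_mul] at h
  rcases hb with h1 | h1 | ⟨x, y, hx, hxy, h1⟩
  · left
    have h2 := f4a_sq hb1 h h1
    have h3 : f g * f b * f b / f b ^ 2 = f g := by field_simp
    rwa [h3] at h2
  · right; left
    have h2 := f4a_sq hb1 h h1
    have h3 : f g * f b * f (D * b) / f b ^ 2 = f (D * g) := by
      rw [map_mul, map_mul]
      field_simp
    rwa [h3] at h2
  · right; right
    refine ⟨x, y, hx, hxy, ?_⟩
    have h2 := f4a_sq hb1 h h1
    have h3 : f g * f b * (f b * x) / f b ^ 2 = f g * x := by field_simp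
    rwa [h3] at h2

/-- a point of `y² = x³ - D x` over `K_λ` with `x`-coordinate of class `κ` -/
def Pt (D : Gi) (κ : ZMod 2 × ZMod 2 × ZMod 2 × ZMod 2) : Prop :=
  ∃ (x y : ℕ) (v : Gi), cl v κ.2.2.1 κ.2.2.2 ∧ (x : ZMod 2) = κ.1 ∧ (y : ZMod 2) = κ.2.1 ∧
    LocB (emK D) (emK (ii ^ x * la ^ y * v)) (vla.adicCompletion KI)

/-- [QTB-F4p] PROOF. `locB_of_point`, `locB_congr`. -/
theorem Pt_of (D : Gi) (X : KI) (hX : X ≠ 0) (h : IsSquare (algebraMap KI (vla.adicCompletion KI) (X * (X ^ 2 - emK D))))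
    (x y : ℕ) {v : Gi} {β γ : ZMod 2} (hv : cl v β γ)
    (hc : IsSquare (algebraMap KI (vla.adicCompletion KI) (emK (ii ^ x * la ^ y * v) * X))) :
    Pt D ((x : ZMod 2), (y : ZMod 2), β, γ) := by
  have hv0 : v ≠ 0 := by
    rintro rfl
    have := hv.1
    simp at this
  have hii : ii ≠ (0 : Gi) := by decide
  have hg : emK (ii ^ x * la ^ y * v) ≠ 0 :=
    PID.emK_ne (mul_ne_zero (mul_ne_zero (pow_ne_zero _ hii) (pow_ne_zero _ la_prime.ne_zero)) hv0)
  exact ⟨x, y, v, hv, rfl, rfl, locB_congr hg hX hc (locB_of_point _ X hX h)⟩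

end QTC
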