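import Pool.Agent.QTB.F0

/-!
# [QTB-F5b] additivity
-/

set_option autoImplicit false

open NumberField IsDedekindDomain
open scoped Classical

namespace QTC

open PI (Gi sy ii la Prim emK eG KI la_prime pl)
open QT (st Dd Adm bD gD Good)
open QTD (LocB cl vla)

/-- [QTB-F5b] `rho`, `cV` are additive. -/
theorem rho_add (s t : ℕ) (S : Finset Gi) (a : Gi → ℕ) {O : Finset Gi} (p : Gi) (z z' : V O) :
    rho s t S a p (z + z') = rho s t S a p z + rho s t S a p z' := by
  unfold rho
  have h : ∀ q : O, (if (q : Gi) = p then (z + z').2.2 q * sD s t S a p else (z + z').2.2 q * sy q p) =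
      (if (q : Gi) = p then z.2.2 q * sD s t S a p else z.2.2 q * sy q p) +
      (if (q : Gi) = p then z'.2.2 q * sD s t S a p else z'.2.2 q * sy q p) := by
    intro q
    simp only [Prod.snd_add, Pi.add_apply]
    split_ifs <;> ring
  rw [Finset.sum_congr rfl fun q _ => h q, Finset.sum_add_distrib]
  simp only [Prod.fst_add, Prod.snd_add]
  ring

theorem cV_add {O : Finset Gi} (z z' : V O) : cV (z + z') = cV z + cV z' := by
  have hb : be (z + z') = be z + be z' := by
    unfold be
    rw [← Finset.sum_add_distrib]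
    refine Finset.sum_congr rfl fun q _ => ?_
    simp only [Prod.snd_add, Pi.add_apply]
    ring
  have hg : ga (z + z') = ga z + ga z' := by
    unfold ga
    rw [← Finset.sum_add_distrib]
    refine Finset.sum_congr rfl fun q _ => ?_
    simp only [Prod.snd_add, Pi.add_apply]
    ring
  unfold cV
  rw [hb, hg]
  rfl

/-- [QTB-F5c] `rho` of `m`: PROOF. `rho p (zm) = ∑_{q ∈ T} sy q p = sy (mT T) p` (`PI.sy_prod`, `QTD.sy_st`, `p ∉ T`). -/
theorem rho_zm {s t : ℕ} {S : Finset Gi} {a : Gi → ℕ} {T : Finset Gi} (h : Adm s t S a)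
    (hT : ∀ q ∈ T, Prime q ∧ Prim q) (hd : Disjoint S T) {p : Gi} (hp : p ∈ SO S a) :
    rho s t S a p (zm S a T) = sy (mT T) p := by
  have hpS : p ∈ S := SO_sub hp
  have hpT : p ∉ T := fun h' => Finset.disjoint_left.1 hd hpS h'
  have hpp := h.1 p hpS
  have hst : ∀ q ∈ T, sy (st q) p = sy q p ∧ ¬ p ∣ st q := fun q hq =>
    QTD.sy_st (hT q hq).1 (hT q hq).2 hpp.1 hpp.2 (fun e => hpT (e ▸ hq))
  have h1 : sy (mT T) p = ∑ q ∈ T, sy q p := by
    unfold mT
    rw [PI.sy_prod T st hpp.1 hpp.2 fun q hq => (hst q hq).2]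
    exact Finset.sum_congr rfl fun q hq => (hst q hq).1
  rw [h1]
  unfold rho zm
  simp only [zero_mul, zero_add]
  have h2 : ∀ q : (SO S a ∪ T : Finset Gi), (if (q : Gi) = p then (if (q : Gi) ∈ T then (1 : ZMod 2) else 0) * sD s t S a p
      else (if (q : Gi) ∈ T then (1 : ZMod 2) else 0) * sy q p) = if (q : Gi) ∈ T then sy q p else 0 := by
    intro q
    split_ifs with e1 e2 e2
    · exact absurd (e1 ▸ e2) hpT
    · rw [zero_mul]
    · rw [one_mul]
    · rw [zero_mul]
  rw [Finset.sum_congr rfl fun q _ => h2 q]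
  rw [Finset.sum_coe_sort (SO S a ∪ T) (fun q => if q ∈ T then sy q p else 0)]
  rw [← Finset.sum_filter]
  refine Finset.sum_congr ?_ fun _ _ => rfl
  ext q
  simp only [Finset.mem_filter, Finset.mem_union]
  tauto

end QTC
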