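import Pool.Agent.QTB.F5a
import Pool.Agent.QTB.F5b
import Pool.Agent.QTB.F1d

/-!
# [QTB-F5d] parity
-/

set_option autoImplicit false

open NumberField IsDedekindDomain
open scoped Classical

namespace QTC

open PI (Gi sy ii la Prim emK eG KI la_prime pl)
open QT (st Dd Adm bD gD Good)
open QTD (LocB cl vla)

/-- [QTB-F5d] parity: `#{p ∈ SO : sy m p = 1} + #T` is even. PROOF. `reciprocity` for `zm`: `HB 0 c = 0` (`cV_zm`), `rho_zm`; `∑_{p ∈ SO} sy m p` is the number of `p` with `sy m p ≠ 0` modulo 2. -/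
theorem parity {s t : ℕ} {S : Finset Gi} {a : Gi → ℕ} {T : Finset Gi} (h : Adm s t S a)
    (hT : ∀ q ∈ T, Prime q ∧ Prim q) (hd : Disjoint S T) (hn : ∀ q ∈ T, sy (Dd s t S a) q = 1) (h0 : cl (mT T) 0 0) :
    Even (((SO S a).filter fun p => sy (mT T) p ≠ 0).card + T.card) := by
  have hrec := reciprocity h hT hd hn (zm S a T)
  have h1 : HB (cV (zm S a T)) (cD s t S a) = 0 := by
    rw [cV_zm h hT hd h0]
    unfold HB
    simp
  rw [h1] at hrec
  have h2 : ∑ p ∈ SO S a, rho s t S a p (zm S a T) =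
      (((SO S a).filter fun p => sy (mT T) p ≠ 0).card : ZMod 2) := by
    rw [Finset.sum_congr rfl fun p hp => rho_zm h hT hd hp, Finset.card_filter, Nat.cast_sum]
    refine Finset.sum_congr rfl fun p _ => ?_
    by_cases hp : sy (mT T) p = 0
    · rw [if_neg (not_not.2 hp), hp, Nat.cast_zero]
    · rw [if_pos hp, Nat.cast_one]
      exact (by decide : ∀ x : ZMod 2, x ≠ 0 → x = 1) _ hp
  have h3 : ∑ q : (SO S a ∪ T : Finset Gi),
      (if (q : Gi) ∈ T then (zm S a T).2.2 q else 0) = (T.card : ZMod 2) := by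
    have h4 : ∀ q : (SO S a ∪ T : Finset Gi),
        (if (q : Gi) ∈ T then (zm S a T).2.2 q else 0) =
          (fun q : Gi => if q ∈ T then (1 : ZMod 2) else 0) q := by
      intro q
      unfold zm
      simp only
      by_cases hq : (q : Gi) ∈ T
      · rw [if_pos hq, if_pos hq]
      · rw [if_neg hq, if_neg hq]
    rw [Finset.sum_congr rfl fun q _ => h4 q, Finset.sum_coe_sort (SO S a ∪ T)
      (fun q : Gi => if q ∈ T then (1 : ZMod 2) else 0), ← Finset.sum_filter]
    have h5 : (SO S a ∪ T).filter (fun q => q ∈ T) = T := by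
      ext q
      rw [Finset.mem_filter, Finset.mem_union]
      tauto
    rw [h5, Finset.sum_const, nsmul_eq_mul, mul_one]
  rw [h2, h3] at hrec
  rw [even_iff_two_dvd, ← ZMod.natCast_eq_zero_iff, Nat.cast_add]
  exact hrec

end QTC
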