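import Pool.Agent.QTB.F0
import Pool.Agent.QTF.T1

/-!
# [QTB-F5a] reciprocity
-/

set_option autoImplicit false

open NumberField IsDedekindDomain
open scoped Classical

namespace QTC

open PI (Gi sy ii la Prim emK eG KI la_prime pl)
open QT (st Dd Adm bD gD Good)
open QTD (LocB cl vla)

theorem f5a_odd (S : Finset Gi) (a : Gi → ℕ) (f : Gi → ZMod 2) :
    ∑ p ∈ S, (a p : ZMod 2) * f p = ∑ p ∈ SO S a, f p := by
  unfold SO
  rw [Finset.sum_filter]
  refine Finset.sum_congr rfl fun p _ => ?_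
  split_ifs with h
  · rw [(ZMod.natCast_eq_one_iff_odd).2 h, one_mul]
  · rw [(ZMod.natCast_eq_zero_iff_even).2 (Nat.not_odd_iff_even.1 h), zero_mul]

/-- the symbol off the diagonal -/
noncomputable def f5a_K (p q : Gi) : ZMod 2 := if q = p then 0 else sy q p

theorem f5a_sD (s t : ℕ) (S : Finset Gi) (a : Gi → ℕ) (p : Gi) :
    sD s t S a p = (s : ZMod 2) * sy ii p + (t : ZMod 2) * sy la p + ∑ l ∈ SO S a, f5a_K p l := by
  unfold sD
  congr 1
  rw [← f5a_odd]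
  have h1 : ∑ l ∈ S.erase p, (a l : ZMod 2) * sy l p = ∑ l ∈ S.erase p, (a l : ZMod 2) * f5a_K p l := by
    refine Finset.sum_congr rfl fun l hl => ?_
    unfold f5a_K
    rw [if_neg (Finset.ne_of_mem_erase hl)]
  rw [h1]
  apply Finset.sum_erase
  unfold f5a_K
  rw [if_pos rfl, mul_zero]

theorem f5a_two (x : ZMod 2) : x + x = 0 := CharTwo.add_self_eq_zero x

theorem f5a_main {s t : ℕ} {S : Finset Gi} {a : Gi → ℕ} {A T : Finset Gi} (hA : A = SO S a)
    (h : Adm s t S a) (hT : ∀ q ∈ T, Prime q ∧ Prim q) (hd : Disjoint S T)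
    (hn : ∀ q ∈ T, sy (Dd s t S a) q = 1) (z : V (A ∪ T)) :
    ∑ p ∈ A, rho s t S a p z + ∑ q : (A ∪ T : Finset Gi), (if (q : Gi) ∈ T then z.2.2 q else 0) =
      HB (cV z) (cD s t S a) := by
  have hAS : A ⊆ S := by
    rw [hA]
    exact SO_sub
  have hAT : Disjoint A T := Finset.disjoint_of_subset_left hAS hd
  set Z : Gi → ZMod 2 := fun q => if h : q ∈ A ∪ T then z.2.2 ⟨q, h⟩ else 0 with hZ
  have hZ' : ∀ q : (A ∪ T : Finset Gi), z.2.2 q = Z q := by
    intro q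
    rw [hZ]
    simp only
    rw [dif_pos q.2]
  have hsum : ∀ f : Gi → ZMod 2, ∑ q : (A ∪ T : Finset Gi), f q = ∑ q ∈ A, f q + ∑ q ∈ T, f q := by
    intro f
    rw [← Finset.sum_union hAT]
    exact Finset.sum_coe_sort (A ∪ T) f
  have hbe : be z = ∑ q ∈ A, Z q * sy ii q + ∑ q ∈ T, Z q * sy ii q := by
    unfold be
    rw [← hsum fun q => Z q * sy ii q]
    exact Finset.sum_congr rfl fun q _ => by rw [hZ']
  have hga : ga z = ∑ q ∈ A, Z q * sy la q + ∑ q ∈ T, Z q * sy la q := by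
    unfold ga
    rw [← hsum fun q => Z q * sy la q]
    exact Finset.sum_congr rfl fun q _ => by rw [hZ']
  have hT1 : ∑ q : (A ∪ T : Finset Gi), (if (q : Gi) ∈ T then z.2.2 q else 0) = ∑ q ∈ T, Z q := by
    have h1 : ∑ q : (A ∪ T : Finset Gi), (if (q : Gi) ∈ T then z.2.2 q else 0) =
        ∑ q : (A ∪ T : Finset Gi), (fun q : Gi => if q ∈ T then Z q else 0) q :=
      Finset.sum_congr rfl fun q _ => by rw [hZ']
    have h2 : ∑ q ∈ A, (fun q : Gi => if q ∈ T then Z q else 0) q = 0 :=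
      Finset.sum_eq_zero fun q hq => if_neg (Finset.disjoint_left.1 hAT hq)
    have h3 : ∑ q ∈ T, (fun q : Gi => if q ∈ T then Z q else 0) q = ∑ q ∈ T, Z q :=
      Finset.sum_congr rfl fun q hq => if_pos hq
    refine h1.trans ((hsum fun q => if q ∈ T then Z q else 0).trans ?_)
    rw [h2, h3, zero_add]
  have hrho : ∀ p ∈ A, rho s t S a p z = z.1 * sy ii p + z.2.1 * sy la p +
      (Z p * ((s : ZMod 2) * sy ii p + (t : ZMod 2) * sy la p) + Z p * (∑ l ∈ A, f5a_K p l) +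
        ∑ q ∈ A, Z q * f5a_K p q + ∑ q ∈ T, Z q * sy q p) := by
    intro p hp
    unfold rho
    congr 1
    have h1 : ∑ q : (A ∪ T : Finset Gi),
        (if (q : Gi) = p then z.2.2 q * sD s t S a p else z.2.2 q * sy q p) =
        ∑ q : (A ∪ T : Finset Gi),
          (fun q : Gi => if q = p then Z q * sD s t S a p else Z q * sy q p) q :=
      Finset.sum_congr rfl fun q _ => by rw [hZ']
    have h2 : ∑ q ∈ T, (fun q : Gi => if q = p then Z q * sD s t S a p else Z q * sy q p) q =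
        ∑ q ∈ T, Z q * sy q p :=
      Finset.sum_congr rfl fun q hq => if_neg fun e => Finset.disjoint_left.1 hAT (e ▸ hp) hq
    have h3 : ∑ q ∈ A, (fun q : Gi => if q = p then Z q * sD s t S a p else Z q * sy q p) q =
        Z p * sD s t S a p + ∑ q ∈ A, Z q * f5a_K p q := by
      have h4 : Z p * sD s t S a p = ∑ q ∈ A, if q = p then Z q * sD s t S a p else 0 := by
        rw [Finset.sum_ite_eq' A p, if_pos hp]
      rw [h4, ← Finset.sum_add_distrib]
      refine Finset.sum_congr rfl fun q _ => ?_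
      unfold f5a_K
      simp only
      split_ifs with h5
      · rw [mul_zero, add_zero]
      · rw [zero_add]
    refine h1.trans ((hsum fun q => if q = p then Z q * sD s t S a p else Z q * sy q p).trans ?_)
    rw [h2, h3, f5a_sD, mul_add, ← hA]
  have hAA : ∑ p ∈ A, Z p * (∑ l ∈ A, f5a_K p l) + ∑ p ∈ A, ∑ q ∈ A, Z q * f5a_K p q = 0 := by
    have h1 : ∑ p ∈ A, ∑ q ∈ A, Z q * f5a_K p q = ∑ p ∈ A, Z p * (∑ l ∈ A, f5a_K p l) := by
      rw [Finset.sum_comm]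
      refine Finset.sum_congr rfl fun q hq => ?_
      rw [Finset.mul_sum]
      refine Finset.sum_congr rfl fun p hp => ?_
      congr 1
      unfold f5a_K
      by_cases h2 : q = p
      · rw [if_pos h2, if_pos h2.symm]
      · rw [if_neg h2, if_neg (Ne.symm h2)]
        exact PI.sy_symm q p (h.1 q (hAS hq)).1 (h.1 p (hAS hp)).1 (h.1 q (hAS hq)).2
          (h.1 p (hAS hp)).2
    rw [h1]
    exact f5a_two _
  have hTT : ∑ p ∈ A, ∑ q ∈ T, Z q * sy q p + ∑ q ∈ T, Z q =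
      ∑ q ∈ T, Z q * ((s : ZMod 2) * sy ii q + (t : ZMod 2) * sy la q) := by
    rw [Finset.sum_comm, ← Finset.sum_add_distrib]
    refine Finset.sum_congr rfl fun q hq => ?_
    have h1 : ∑ p ∈ A, Z q * sy q p = Z q * ∑ p ∈ A, sy p q := by
      rw [Finset.mul_sum]
      refine Finset.sum_congr rfl fun p hp => ?_
      rw [PI.sy_symm q p (hT q hq).1 (h.1 p (hAS hp)).1 (hT q hq).2 (h.1 p (hAS hp)).2]
    have h2 := QTF.sy_Dd h (hT q hq).1 (hT q hq).2 (Finset.disjoint_right.1 hd hq)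
    rw [hn q hq, f5a_odd S a fun l => sy l q, ← hA] at h2
    have h3 : (1 : ZMod 2) + ∑ p ∈ A, sy p q = (s : ZMod 2) * sy ii q + (t : ZMod 2) * sy la q := by
      rw [h2, add_assoc, f5a_two, add_zero]
    rw [h1, ← h3]
    ring
  have hb : bD S a = ∑ p ∈ A, sy ii p := by
    rw [hA]
    exact f5a_odd S a fun p => sy ii p
  have hg : gD S a = ∑ p ∈ A, sy la p := by
    rw [hA]
    exact f5a_odd S a fun p => sy la p
  rw [hT1, Finset.sum_congr rfl hrho]
  unfold HB cV cD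
  simp only
  rw [hb, hg, hbe, hga]
  have hfin : ∑ p ∈ A, (z.1 * sy ii p + z.2.1 * sy la p +
      (Z p * ((s : ZMod 2) * sy ii p + (t : ZMod 2) * sy la p) + Z p * (∑ l ∈ A, f5a_K p l) +
        ∑ q ∈ A, Z q * f5a_K p q + ∑ q ∈ T, Z q * sy q p)) =
      z.1 * ∑ p ∈ A, sy ii p + z.2.1 * ∑ p ∈ A, sy la p +
      (∑ p ∈ A, Z p * sy ii p) * s + (∑ p ∈ A, Z p * sy la p) * t +
      (∑ p ∈ A, Z p * (∑ l ∈ A, f5a_K p l) + ∑ p ∈ A, ∑ q ∈ A, Z q * f5a_K p q) +
      ∑ p ∈ A, ∑ q ∈ T, Z q * sy q p := by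
    rw [Finset.mul_sum, Finset.mul_sum, Finset.sum_mul, Finset.sum_mul]
    simp only [← Finset.sum_add_distrib]
    refine Finset.sum_congr rfl fun p _ => ?_
    ring
  have hfin2 : ∑ q ∈ T, Z q * ((s : ZMod 2) * sy ii q + (t : ZMod 2) * sy la q) =
      (∑ q ∈ T, Z q * sy ii q) * s + (∑ q ∈ T, Z q * sy la q) * t := by
    rw [Finset.sum_mul, Finset.sum_mul, ← Finset.sum_add_distrib]
    refine Finset.sum_congr rfl fun p _ => ?_
    ring
  rw [hfin, hAA, add_zero, add_assoc, hTT, hfin2]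
  ring

/-- [QTB-F5a] (R). PROOF. Everything is linear in `z` (`rho`, `be`, `ga`), so it is a polynomial identity in sums: with `z q`, `q ∈ O = SO ∪ T`,
`∑_{p ∈ SO} rho p z = ∑_p (z.1 sy ii p + z.2.1 sy la p) + ∑_{p ∈ SO} z p sD p + ∑_{p ∈ SO} ∑_{q ∈ O, q ≠ p} z q sy q p`. Write `A(p) = (a p : ZMod 2)`, `= 1` for `p ∈ SO` and `0` for `p ∈ S ∖ SO`. `∑_{p ∈ SO} z.1 sy ii p = z.1 bD`, the same for `la`, `gD`.
`∑_{p ∈ SO} z p (s sy ii p + t sy la p) + ∑_{p ∈ SO} z p ∑_{l ∈ SO, l ≠ p} sy l p + ∑_{p ∈ SO} ∑_{q ∈ SO, q ≠ p} z q sy q p`: the last two double sums cancel by `PI.sy_symm` (exchange of `p, q`). For `q ∈ T`: `∑_{p ∈ SO} z q sy q p = z q ∑_{p ∈ SO} sy p q` (`sy_symm`), and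
`sy D q = s sy ii q + t sy la q + ∑_{p ∈ S} A(p) sy p q = 1` (`QTF.sy_Dd`, QTF/T1.lean), so `z q + ∑_{p ∈ SO} z q sy q p = z q (s sy ii q + t sy la q)` (characteristic 2). The total is `z.1 bD + z.2.1 gD + s be z + t ga z = HB (cV z) (cD)`. -/
theorem reciprocity {s t : ℕ} {S : Finset Gi} {a : Gi → ℕ} {T : Finset Gi} (h : Adm s t S a)
    (hT : ∀ q ∈ T, Prime q ∧ Prim q) (hd : Disjoint S T) (hn : ∀ q ∈ T, sy (Dd s t S a) q = 1) (z : V (SO S a ∪ T)) :
    ∑ p ∈ SO S a, rho s t S a p z + ∑ q : (SO S a ∪ T : Finset Gi), (if (q : Gi) ∈ T then z.2.2 q else 0) =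
      HB (cV z) (cD s t S a) := by
  exact f5a_main rfl h hT hd hn z

end QTC
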