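import Pool.Agent.QTB.F6a

/-!
# [QTB-F6b] the local condition at `p`, `a p` odd
-/

set_option autoImplicit false

open NumberField IsDedekindDomain
open scoped Classical

namespace QTC

open PI (Gi sy ii la Prim emK eG KI la_prime pl)
open QT (st Dd Adm bD gD Good)
open QTD (LocB cl vla)

/-- the part of `repG z` prime to `p` -/
theorem f6b_split {O : Finset Gi} (hO : ∀ p ∈ O, Prime p ∧ Prim p) {p : Gi} (hpO : p ∈ O) (z : V O) :
    ∃ c : Gi, repG z = p ^ (z.2.2 ⟨p, hpO⟩).val * c ∧ ¬ p ∣ c ∧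
      sy c p = z.1 * sy ii p + z.2.1 * sy la p +
        ∑ q ∈ (Finset.univ : Finset O).erase ⟨p, hpO⟩, z.2.2 q * sy q p := by
  obtain ⟨hp, hP⟩ := hO p hpO
  have hii : ¬ p ∣ ii := PID.not_dvd_ii hp
  have hla : ¬ p ∣ la := PID.not_dvd_la hp hP
  have hpw : ∀ (x : Gi) (n : ℕ), ¬ p ∣ x → ¬ p ∣ x ^ n := fun x n hx h => hx (hp.dvd_of_dvd_pow h)
  have hq : ∀ q ∈ (Finset.univ : Finset O).erase ⟨p, hpO⟩, ¬ p ∣ (q : Gi) := by
    intro q hq
    obtain ⟨hne, -⟩ := Finset.mem_erase.1 hq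
    refine PID.not_dvd_of_ne hp hP (hO q q.2).1 (hO q q.2).2 ?_
    intro h
    exact hne (Subtype.ext h.symm)
  have hprod : ¬ p ∣ ∏ q ∈ (Finset.univ : Finset O).erase ⟨p, hpO⟩, (q : Gi) ^ (z.2.2 q).val := by
    intro h
    obtain ⟨q, hq1, hq2⟩ := (Prime.dvd_finsetProd_iff hp _).1 h
    exact hpw _ _ (hq q hq1) hq2
  refine ⟨ii ^ z.1.val * la ^ z.2.1.val *
    ∏ q ∈ (Finset.univ : Finset O).erase ⟨p, hpO⟩, (q : Gi) ^ (z.2.2 q).val, ?_, ?_, ?_⟩
  · unfold repG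
    rw [← Finset.mul_prod_erase Finset.univ (fun q : O => (q : Gi) ^ (z.2.2 q).val)
      (Finset.mem_univ ⟨p, hpO⟩)]
    ring
  · intro h
    rcases hp.dvd_or_dvd h with h | h
    · rcases hp.dvd_or_dvd h with h | h
      · exact hpw _ _ hii h
      · exact hpw _ _ hla h
    · exact hprod h
  · have hcast : ∀ a : ZMod 2, ((a.val : ℕ) : ZMod 2) = a := fun a => by
      rw [ZMod.natCast_val, ZMod.cast_id', id]
    rw [PI.sy_mul hp hP (fun h => (hp.dvd_or_dvd h).elim (hpw _ _ hii) (hpw _ _ hla)) hprod,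
      PI.sy_mul hp hP (hpw _ _ hii) (hpw _ _ hla), PID.d14d_pow _ _ hp hP hii, PID.d14d_pow _ _ hp hP hla,
      PI.sy_prod _ _ hp hP (fun q hq1 => hpw _ _ (hq q hq1)), hcast, hcast]
    congr 1
    refine Finset.sum_congr rfl fun q hq1 => ?_
    rw [PID.d14d_pow _ _ hp hP (hq q hq1), hcast]

theorem f6b_rho {s t : ℕ} {S : Finset Gi} {a : Gi → ℕ} {O : Finset Gi} {p : Gi} (hpO : p ∈ O) (z : V O) :
    rho s t S a p z = z.1 * sy ii p + z.2.1 * sy la p + (z.2.2 ⟨p, hpO⟩ * sD s t S a p +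
        ∑ q ∈ (Finset.univ : Finset O).erase ⟨p, hpO⟩, z.2.2 q * sy q p) := by
  unfold rho
  rw [← Finset.add_sum_erase Finset.univ _ (Finset.mem_univ (⟨p, hpO⟩ : O)), if_pos rfl]
  congr 2
  refine Finset.sum_congr rfl fun q hq => ?_
  obtain ⟨hne, -⟩ := Finset.mem_erase.1 hq
  rw [if_neg]
  intro h
  exact hne (Subtype.ext h)

theorem f6b_sq {L : Type} [Field L] {π x : L} (hπ : π ≠ 0) (m : ℕ) :
    IsSquare (π ^ (2 * m) * x) ↔ IsSquare x := by
  have h1 : IsSquare (π ^ (2 * m)) := ⟨π ^ m, by ring⟩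
  constructor
  · intro h
    rw [mul_comm] at h
    exact PID.d12_sq_of_mul (pow_ne_zero _ hπ) h1 h
  · intro h
    exact h1.mul h

/-- [QTB-F6b] the places of `SO`. PROOF. `D = p^a D'`, `p ∤ D'`, `a = a p` odd, `sy D' p = sD` (`QTD.Dd_split`). `rep z = p^k c`, `k = val (z p)` (`0` if `p ∉ O`), `p ∤ c`, `sy c p = z.1 sy ii p + z.2.1 sy la p + ∑_{q ≠ p} z q sy q p` (`sy_prod`, `sy_mul`, `d14d_pow`), so `rho p z = k sy D' p + sy c p`.
`LocB D b ⇔ b` or `D b` is a square (`QTD.sq_of_locB` with `j = emK ii`, and the definition). `k = 0`: `b = c` a unit: square iff `sy c p = 0` (`sq_iff_sy`); `D b` has odd valuation, no square. `k = 1`: `b` no square, `D b = p^(a+1) D' c` is a square iff `sy (D' c) p = 0` (`sy_mul`, `sq_iff_sy`). -/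
theorem locB_SO {s t : ℕ} {S : Finset Gi} {a : Gi → ℕ} (h : Adm s t S a) {O : Finset Gi} (hO : ∀ p ∈ O, Prime p ∧ Prim p)
    (hSO : SO S a ⊆ O) {p : Gi} (hp : p ∈ SO S a) {v : HeightOneSpectrum (𝓞 KI)} (hv : v.asIdeal = Ideal.span {eG p}) (z : V O) :
    LocB (emK (Dd s t S a)) (rep z) (v.adicCompletion KI) ↔ rho s t S a p z = 0 := by
  have hpO : p ∈ O := hSO hp
  have hpS : p ∈ S := (mem_SO.1 hp).1
  have hodd : Odd (a p) := (mem_SO.1 hp).2
  obtain ⟨hp1, hP⟩ := hO p hpO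
  obtain ⟨D', hD, hpD', hsD⟩ := QTD.Dd_split (s := s) (t := t) (a := a) h.1 ⟨p, hpS⟩
  change Dd s t S a = p ^ a p * D' at hD
  change ¬ p ∣ D' at hpD'
  have hsD' : sy D' p = sD s t S a p := hsD
  have hvD' : v.valuation KI (emK D') = 1 := (PID.val_eq_one_iff hv D').2 hpD'
  have hvd : v.valuation KI (emK (Dd s t S a)) = WithZero.exp (-((a p : ℕ) : ℤ)) := by
    rw [hD, map_mul, map_mul, hvD', mul_one, map_pow, map_pow, PID.val_self hv, PID.d13a_pow]
    congr 1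
    ring
  have h2 : v.valuation KI 2 = 1 := by
    have h3 := (PID.val_eq_one_iff hv 2).2 (PID.not_dvd_two hp1 hP)
    rwa [map_ofNat] at h3
  obtain ⟨c, hc1, hc2, hc3⟩ := f6b_split hO hpO z
  have hvc : v.valuation KI (emK c) = 1 := (PID.val_eq_one_iff hv c).2 hc2
  have hrho : rho s t S a p z = z.2.2 ⟨p, hpO⟩ * sy D' p + sy c p := by
    rw [f6b_rho hpO z, hsD', hc3]
    ring
  have hiff : LocB (emK (Dd s t S a)) (rep z) (v.adicCompletion KI) ↔
      IsSquare (algebraMap KI (v.adicCompletion KI) (rep z)) ∨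
      IsSquare (algebraMap KI (v.adicCompletion KI) (emK (Dd s t S a) * rep z)) :=
    ⟨fun hl => QTD.sq_of_locB v PID.emK_ii h2 hodd hvd hl, fun hl => hl.elim Or.inl fun h3 => Or.inr (Or.inl h3)⟩
  have hπ0 : algebraMap KI (v.adicCompletion KI) (emK p) ≠ 0 :=
    (map_ne_zero _).2 (PID.emK_ne hp1.ne_zero)
  obtain ⟨m, hm⟩ := hodd
  rw [hiff, hrho]
  unfold rep
  rw [hc1, hD]
  have hbit : z.2.2 ⟨p, hpO⟩ = 0 ∨ z.2.2 ⟨p, hpO⟩ = 1 := by
    generalize z.2.2 ⟨p, hpO⟩ = b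
    revert b
    decide
  rcases hbit with hb | hb
  · rw [hb, zero_mul, zero_add, ZMod.val_zero, pow_zero, one_mul, ← sq_iff_sy hp1 hP hv hc2]
    constructor
    · rintro (h3 | h3)
      · exact h3
      · exfalso
        refine QTD.not_sq_odd v (z := emK (p ^ a p * D') * emK c) (n := -((a p : ℕ) : ℤ)) ?_ ?_ h3
        · rw [hm]
          exact ⟨-(m : ℤ) - 1, by push_cast; ring⟩
        · rw [map_mul, hvc, mul_one, ← hD, hvd]
    · exact Or.inl
  · have h1v : ((1 : ZMod 2)).val = 1 := by decide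
    rw [hb, one_mul, h1v, pow_one, ← PI.sy_mul hp1 hP hpD' hc2,
      ← sq_iff_sy hp1 hP hv (fun h4 => (hp1.dvd_or_dvd h4).elim hpD' hc2)]
    have e1 : algebraMap KI (v.adicCompletion KI) (emK (p ^ a p * D') * emK (p * c)) =
        algebraMap KI (v.adicCompletion KI) (emK p) ^ (2 * (m + 1)) *
          algebraMap KI (v.adicCompletion KI) (emK (D' * c)) := by
      rw [hm]
      simp only [map_mul, map_pow]
      ring
    rw [e1, f6b_sq hπ0]
    constructor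
    · rintro (h3 | h3)
      · exfalso
        refine QTD.not_sq_odd v (z := emK (p * c)) (n := -1) (by decide) ?_ h3
        rw [map_mul, map_mul, hvc, mul_one, PID.val_self hv]
      · exact h3
    · exact Or.inr

end QTC
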