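import Pool.Agent.QTB.F6a

/-!
# [QTB-F6c] the local condition at `p`, `a p = 2`
-/

set_option autoImplicit false

open NumberField IsDedekindDomain
open scoped Classical

namespace QTC

open PI (Gi sy ii la Prim emK eG KI la_prime pl)
open QT (st Dd Adm bD gD Good)
open QTD (LocB cl vla)

/-- [QTB-F6c] the places `p ∈ S`, `a p = 2`. `c ∈ K*` of even valuation. PROOF. `D = p² D'`, `sy D' p = 1` (`QTD.diag_one`, `QTD.Dd_split` as in `QTD.val_even`), `c = p^(2k) c'`, `c' = g / h²`-type unit: write `c = emK g * r²` with `g ∈ ℤ[i]`, `p ∤ g` (`PID.exists_gi` and removing even powers of `p`).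
`sy g p = 0`: `c` is a square in `K_p`. `sy g p = 1`: `sy (D' g) p = 0`, so `D c` is a square. -/
theorem locB_even {s t : ℕ} {S : Finset Gi} {a : Gi → ℕ} (h : Good s t S a) {p : Gi} (hp : p ∈ S) (ha : ¬ Odd (a p))
    {v : HeightOneSpectrum (𝓞 KI)} (hv : v.asIdeal = Ideal.span {eG p}) {c : KI} (hc : c ≠ 0)
    (he : ∃ g : WithZero (Multiplicative ℤ), v.valuation KI c = g ^ 2) :
    LocB (emK (Dd s t S a)) c (v.adicCompletion KI) := by
  have hA : Adm s t S a := by
    rcases h with h | h | h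
    · exact h.1
    · exact h.1
    · exact h.1
  obtain ⟨hp1, hP⟩ := hA.1 p hp
  have ha2 : a p = 2 := by
    rcases hA.2.1 p hp with h1 | h1 | h1
    · exact absurd (by rw [h1]; decide) ha
    · exact h1
    · exact absurd (by rw [h1]; decide) ha
  obtain ⟨D', hD, hpD', hsD⟩ := QTD.Dd_split (s := s) (t := t) (a := a) hA.1 ⟨p, hp⟩
  change Dd s t S a = p ^ a p * D' at hD
  change ¬ p ∣ D' at hpD'
  have hs1 : sy D' p = 1 := by
    have h1 := QTD.diag_one h ⟨p, hp⟩ ha
    have h2 : QT.LM s t S a ⟨p, hp⟩ ⟨p, hp⟩ = sy D' p := by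
      rw [hsD]
      unfold QT.LM
      rw [if_pos rfl]
    rw [← h2]
    exact h1
  obtain ⟨g0, r, hg0, hr, hcg⟩ := PID.exists_gi c hc
  have hfin : FiniteMultiplicity p g0 := FiniteMultiplicity.of_prime_left hp1 hg0
  obtain ⟨g, hg1, hg2⟩ := hfin.exists_eq_pow_mul_and_not_dvd
  set N := multiplicity p g0 with hN
  have hvg : v.valuation KI (emK g) = 1 := (PID.val_eq_one_iff hv g).2 hg2
  obtain ⟨l, hl⟩ := PID.d13a_exists (v.valuation KI) hr
  obtain ⟨m, hm⟩ := PID.d13a_exists (v.valuation KI) hc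
  have hNe : ∃ k, N = 2 * k := by
    obtain ⟨y, hy⟩ := he
    have hy0 : y ≠ 0 := by
      rintro rfl
      rw [hm, zero_pow two_ne_zero] at hy
      exact WithZero.exp_ne_zero hy
    obtain ⟨e, rfl⟩ : ∃ e : ℤ, y = WithZero.exp e := ⟨WithZero.log y, (WithZero.exp_log hy0).symm⟩
    have h5 : v.valuation KI c = WithZero.exp (-(N : ℤ) + 2 * l) := by
      rw [hcg, hg1]
      simp only [map_mul, map_pow, PID.val_self hv, hvg, hl, mul_one, PID.d13a_pow, ← WithZero.exp_add]
      congr 1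
      push_cast
      ring
    rw [h5, PID.d13a_pow, WithZero.exp_inj] at hy
    push_cast at hy
    exact ⟨N / 2, by omega⟩
  obtain ⟨k, hk⟩ := hNe
  have hcsq : c = emK g * (emK p ^ k * r) ^ 2 := by
    rw [hcg, hg1, hk, map_mul, map_pow]
    ring
  rcases PI.sy_cases g p with hs | hs
  · left
    obtain ⟨q, hq⟩ := (sq_iff_sy hp1 hP hv hg2).2 hs
    refine ⟨q * algebraMap KI (v.adicCompletion KI) (emK p ^ k * r), ?_⟩
    rw [hcsq, map_mul, map_pow, hq]
    ring
  · right
    left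
    have hs2 : sy (D' * g) p = 0 := by
      rw [PI.sy_mul hp1 hP hpD' hg2, hs1, hs]
      decide
    obtain ⟨q, hq⟩ := (sq_iff_sy hp1 hP hv (fun h4 => (hp1.dvd_or_dvd h4).elim hpD' hg2)).2 hs2
    refine ⟨q * algebraMap KI (v.adicCompletion KI) (emK p * (emK p ^ k * r)), ?_⟩
    have e1 : emK (Dd s t S a) * c = emK (D' * g) * (emK p * (emK p ^ k * r)) ^ 2 := by
      rw [hcsq, hD, ha2]
      simp only [map_mul, map_pow]
      ring
    rw [e1, map_mul, map_pow, hq]
    ring

end QTC
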