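import Pool.Agent.QTB.S12a
import Pool.Agent.QTB.S12b

/-!
# [QTB-S12c] the local images at the good places outside of 2
-/

set_option autoImplicit false

open NumberField IsDedekindDomain
open scoped Classical

namespace QTB

open QT (W)
open QTD

section

variable {F : Type} [Field F] [NumberField F] (w : HeightOneSpectrum (𝓞 F))

private theorem s12c_val (x : F) :
    Valued.v (algebraMap F (w.adicCompletion F) x) = w.valuation F x :=
  HeightOneSpectrum.valuedAdicCompletion_eq_valuation' w x

private theorem s12c_mk {r : 𝓞 F}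
    (h : Valued.v (algebraMap F (w.adicCompletion F) (r : F)) < (1 : WithZero (Multiplicative ℤ))) :
    Ideal.Quotient.mk w.asIdeal r = 0 := by
  rw [s12c_val] at h
  exact Ideal.Quotient.eq_zero_iff_mem.2 ((w.valuation_lt_one_iff_mem (K := F) r).1 h)

private theorem s12c_one {r : 𝓞 F} (h : Ideal.Quotient.mk w.asIdeal r ≠ 0) :
    Valued.v (algebraMap F (w.adicCompletion F) (r : F)) = (1 : WithZero (Multiplicative ℤ)) := by
  rw [s12c_val]
  exact (w.valuation_eq_one_iff_notMem (K := F)).2 (fun h' => h (Ideal.Quotient.eq_zero_iff_mem.2 h'))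

private theorem s12c_lt {r : 𝓞 F} (h : Ideal.Quotient.mk w.asIdeal r = 0) :
    Valued.v (algebraMap F (w.adicCompletion F) (r : F)) < (1 : WithZero (Multiplicative ℤ)) := by
  rw [s12c_val]
  exact (w.valuation_lt_one_iff_mem (K := F) r).2 (Ideal.Quotient.eq_zero_iff_mem.1 h)

private theorem s12c_le (r : 𝓞 F) :
    Valued.v (algebraMap F (w.adicCompletion F) (r : F)) ≤ (1 : WithZero (Multiplicative ℤ)) := by
  rw [s12c_val]
  exact w.valuation_le_one (K := F) r

private theorem s12c_add {x y : w.adicCompletion F}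
    (hx : Valued.v x < (1 : WithZero (Multiplicative ℤ))) (hy : Valued.v y < (1 : WithZero (Multiplicative ℤ))) :
    Valued.v (x + y) < (1 : WithZero (Multiplicative ℤ)) :=
  (Valuation.map_add _ _ _).trans_lt (max_lt hx hy)

private theorem s12c_mul {x y : w.adicCompletion F}
    (hx : Valued.v x < (1 : WithZero (Multiplicative ℤ))) (hy : Valued.v y ≤ (1 : WithZero (Multiplicative ℤ))) :
    Valued.v (x * y) < (1 : WithZero (Multiplicative ℤ)) := by
  rw [map_mul]
  calc _ ≤ Valued.v x * 1 := mul_le_mul_right hy _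
    _ < 1 := by rw [mul_one]; exact hx

/-- squares of the completion near integral elements are squares modulo `w`. -/
private theorem s12c_sq {r : 𝓞 F} {x t : w.adicCompletion F}
    (hr : Valued.v (x - algebraMap F (w.adicCompletion F) (r : F)) < (1 : WithZero (Multiplicative ℤ)))
    (hx : x = t * t) : IsSquare (Ideal.Quotient.mk w.asIdeal r) := by
  have hx1 : Valued.v x ≤ (1 : WithZero (Multiplicative ℤ)) := by
    have h1 : x = (x - algebraMap F (w.adicCompletion F) (r : F)) +
      algebraMap F (w.adicCompletion F) (r : F) := by ring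
    rw [h1]
    exact (Valuation.map_add _ _ _).trans (max_le hr.le (s12c_le w r))
  have ht : Valued.v t ≤ (1 : WithZero (Multiplicative ℤ)) := by
    by_contra h
    push Not at h
    have h2 : (1 : WithZero (Multiplicative ℤ)) < Valued.v x := by
      rw [hx, map_mul]
      exact one_lt_mul'' h h
    exact absurd hx1 (not_le.2 h2)
  obtain ⟨s, hs⟩ := approx w ht
  refine ⟨Ideal.Quotient.mk w.asIdeal s, ?_⟩
  have h3 : Valued.v (algebraMap F (w.adicCompletion F) ((r - s * s : 𝓞 F) : F)) <
      (1 : WithZero (Multiplicative ℤ)) := by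
    have h4 : algebraMap F (w.adicCompletion F) ((r - s * s : 𝓞 F) : F) =
        -(x - algebraMap F (w.adicCompletion F) (r : F)) +
        (t - algebraMap F (w.adicCompletion F) (s : F)) *
          (t + algebraMap F (w.adicCompletion F) (s : F)) := by
      have h5 : ((r - s * s : 𝓞 F) : F) = (r : F) - (s : F) * (s : F) := by
        push_cast
        ring
      rw [h5, map_sub, map_mul, hx]
      ring
    rw [h4]
    refine s12c_add w ?_ (s12c_mul w hs ?_)
    · rw [Valuation.map_neg]
      exact hr
    · exact (Valuation.map_add _ _ _).trans (max_le ht (s12c_le w s))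
  have h6 := s12c_mk w h3
  rw [map_sub, map_mul, sub_eq_zero] at h6
  exact h6

/-- [S12e] a point with nonsquare `x`. PROOF. `k = 𝓞 F ⧸ w.asIdeal` (finite, `2 ≠ 0`). `D` is a square in the completion (`D = e²`, `v(e) = 1`), so its approximation `δ ∈ 𝓞 F` is a square `≠ 0` in `k`. `exists_nonsq` gives `x̄`, `ȳ`; lift to `x, y ∈ 𝓞 F`.
`x` is a unit, no square in the completion (a square root would have an approximation in `𝓞 F`). If `ȳ ≠ 0`: `x³ - D x` is a unit near `y²`, so it is a square (`sq_of_sq_mod`): the point `(x, √)`. If `ȳ = 0`: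
`x² ≡ D`; then `D / x²` is near `1`, `D = (x u)²` with `v(u - 1) < 1`... (`PID.sq_of_one`: `D / x² = u²`, and `v(u ∓ 1) < 1`, choose the sign), the point `(x u, 0)`; `x u` is no square because `u` is one. -/
theorem exists_point (h2 : w.valuation F 2 = 1) {D : w.adicCompletion F}
    (hD : Valued.v D = (1 : WithZero (Multiplicative ℤ))) (hsq : IsSquare D) :
    ∃ x y : w.adicCompletion F, Valued.v x = (1 : WithZero (Multiplicative ℤ)) ∧ ¬ IsSquare x ∧ y ^ 2 = x ^ 3 - D * x := by
  have hmax : w.asIdeal.IsMaximal := w.isMaximal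
  let _ : Field (𝓞 F ⧸ w.asIdeal) := Ideal.Quotient.field w.asIdeal
  have : Finite (𝓞 F ⧸ w.asIdeal) := Ideal.finiteQuotientOfFreeOfNeBot w.asIdeal w.ne_bot
  let _ : Fintype (𝓞 F ⧸ w.asIdeal) := Fintype.ofFinite _
  have h2k : (2 : 𝓞 F ⧸ w.asIdeal) ≠ 0 := by
    intro h
    have h1 : Ideal.Quotient.mk w.asIdeal (2 : 𝓞 F) = 0 := by
      rw [map_ofNat]
      exact h
    have h3 := s12c_lt w h1
    rw [s12c_val] at h3
    have h4 : ((2 : 𝓞 F) : F) = 2 := map_ofNat _ 2
    rw [h4, h2] at h3
    exact lt_irrefl _ h3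
  obtain ⟨e, he⟩ := hsq
  have hve : Valued.v e = (1 : WithZero (Multiplicative ℤ)) := by
    have h1 : Valued.v e ^ 2 = (1 : WithZero (Multiplicative ℤ)) := by
      rw [← map_pow, pow_two, ← he, hD]
    exact (pow_eq_one_iff.1 h1).resolve_right two_ne_zero
  obtain ⟨ε, hε⟩ := approx w hve.le
  have hεk : Ideal.Quotient.mk w.asIdeal ε ≠ 0 := by
    intro h
    have h1 := s12c_lt w h
    have h3 := s12c_add w hε h1
    rw [sub_add_cancel, hve] at h3
    exact lt_irrefl _ h3
  have hDε : Valued.v (D - algebraMap F (w.adicCompletion F) ((ε * ε : 𝓞 F) : F)) <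
      (1 : WithZero (Multiplicative ℤ)) := by
    have h1 : D - algebraMap F (w.adicCompletion F) ((ε * ε : 𝓞 F) : F) =
        (e - algebraMap F (w.adicCompletion F) (ε : F)) *
          (e + algebraMap F (w.adicCompletion F) (ε : F)) := by
      have h3 : ((ε * ε : 𝓞 F) : F) = (ε : F) * (ε : F) := by push_cast; rfl
      rw [h3, map_mul, he]
      ring
    rw [h1]
    exact s12c_mul w hε ((Valuation.map_add _ _ _).trans (max_le hve.le (s12c_le w ε)))
  obtain ⟨x0, y0, hx0, hxs, hxy⟩ := exists_nonsq (k := 𝓞 F ⧸ w.asIdeal) h2k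
    (d := Ideal.Quotient.mk w.asIdeal (ε * ε)) (by
      rw [map_mul]
      exact mul_ne_zero hεk hεk) ⟨Ideal.Quotient.mk w.asIdeal ε, map_mul _ _ _⟩
  obtain ⟨r, rfl⟩ := Ideal.Quotient.mk_surjective x0
  obtain ⟨s, rfl⟩ := Ideal.Quotient.mk_surjective y0
  by_cases hy0 : Ideal.Quotient.mk w.asIdeal s = 0
  · -- the point `(± e, 0)`
    have h1 : Ideal.Quotient.mk w.asIdeal r = Ideal.Quotient.mk w.asIdeal ε ∨
        Ideal.Quotient.mk w.asIdeal r = -Ideal.Quotient.mk w.asIdeal ε := by
      rw [← sq_eq_sq_iff_eq_or_eq_neg]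
      have h3 : Ideal.Quotient.mk w.asIdeal r * (Ideal.Quotient.mk w.asIdeal r ^ 2 -
          Ideal.Quotient.mk w.asIdeal ε ^ 2) = 0 := by
        rw [hy0, map_mul] at hxy
        linear_combination -hxy
      exact sub_eq_zero.1 ((mul_eq_zero.1 h3).resolve_left hx0)
    have key : ∀ X : w.adicCompletion F, X * X = D →
        Valued.v (X - algebraMap F (w.adicCompletion F) (r : F)) < (1 : WithZero (Multiplicative ℤ)) →
        ∃ x y : w.adicCompletion F, Valued.v x = (1 : WithZero (Multiplicative ℤ)) ∧ ¬ IsSquare x ∧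
          y ^ 2 = x ^ 3 - D * x := by
      intro X hX hXr
      refine ⟨X, 0, ?_, ?_, ?_⟩
      · have h3 : Valued.v X ^ 2 = (1 : WithZero (Multiplicative ℤ)) := by
          rw [← map_pow, pow_two, hX, hD]
        exact (pow_eq_one_iff.1 h3).resolve_right two_ne_zero
      · rintro ⟨t, ht⟩
        exact hxs (s12c_sq w hXr ht)
      · linear_combination -X * hX
    rcases h1 with h1 | h1
    · refine key e he.symm ?_
      have h3 : Valued.v (algebraMap F (w.adicCompletion F) ((ε - r : 𝓞 F) : F)) <
          (1 : WithZero (Multiplicative ℤ)) := s12c_lt w (by rw [map_sub, h1, sub_self])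
      have h4 : e - algebraMap F (w.adicCompletion F) (r : F) =
          (e - algebraMap F (w.adicCompletion F) (ε : F)) +
          algebraMap F (w.adicCompletion F) ((ε - r : 𝓞 F) : F) := by
        have h5 : ((ε - r : 𝓞 F) : F) = (ε : F) - (r : F) := by push_cast; rfl
        rw [h5, map_sub]
        ring
      rw [h4]
      exact s12c_add w hε h3
    · refine key (-e) (by rw [neg_mul_neg]; exact he.symm) ?_
      have h3 : Valued.v (algebraMap F (w.adicCompletion F) ((ε + r : 𝓞 F) : F)) <
          (1 : WithZero (Multiplicative ℤ)) := s12c_lt w (by rw [map_add, h1, add_neg_cancel])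
      have h4 : -e - algebraMap F (w.adicCompletion F) (r : F) =
          -((e - algebraMap F (w.adicCompletion F) (ε : F)) +
          algebraMap F (w.adicCompletion F) ((ε + r : 𝓞 F) : F)) := by
        have h5 : ((ε + r : 𝓞 F) : F) = (ε : F) + (r : F) := by push_cast; rfl
        rw [h5, map_add]
        ring
      rw [h4, Valuation.map_neg]
      exact s12c_add w hε h3
  · -- the point `(r, √)`
    set X := algebraMap F (w.adicCompletion F) (r : F) with hX
    have hX1 : Valued.v X = (1 : WithZero (Multiplicative ℤ)) := s12c_one w hx0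
    have hS1 : Valued.v (algebraMap F (w.adicCompletion F) (s : F)) =
      (1 : WithZero (Multiplicative ℤ)) := s12c_one w hy0
    have h1 : Valued.v (algebraMap F (w.adicCompletion F) ((s ^ 2 - r ^ 3 + ε * ε * r : 𝓞 F) : F)) <
        (1 : WithZero (Multiplicative ℤ)) := s12c_lt w (by
          rw [map_add, map_sub, map_pow, map_pow, map_mul _ (ε * ε) r, hxy]
          ring)
    have h3 : Valued.v ((X ^ 3 - D * X) - (algebraMap F (w.adicCompletion F) (s : F)) ^ 2) <
        (1 : WithZero (Multiplicative ℤ)) := by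
      have h4 : (X ^ 3 - D * X) - (algebraMap F (w.adicCompletion F) (s : F)) ^ 2 =
          -(algebraMap F (w.adicCompletion F) ((s ^ 2 - r ^ 3 + ε * ε * r : 𝓞 F) : F) +
          (D - algebraMap F (w.adicCompletion F) ((ε * ε : 𝓞 F) : F)) * X) := by
        have h5 : ((s ^ 2 - r ^ 3 + ε * ε * r : 𝓞 F) : F) =
            (s : F) ^ 2 - (r : F) ^ 3 + (ε : F) * (ε : F) * (r : F) := by push_cast; rfl
        have h6 : ((ε * ε : 𝓞 F) : F) = (ε : F) * (ε : F) := by push_cast; rfl
        rw [h5, h6, map_add, map_sub, map_pow, map_pow, map_mul, map_mul, hX]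
        ring
      rw [h4, Valuation.map_neg]
      exact s12c_add w h1 (s12c_mul w hDε hX1.le)
    have h7 : Valued.v (X ^ 3 - D * X) = (1 : WithZero (Multiplicative ℤ)) := by
      have h8 : Valued.v ((algebraMap F (w.adicCompletion F) (s : F)) ^ 2) =
          (1 : WithZero (Multiplicative ℤ)) := by rw [map_pow, hS1, one_pow]
      have h9 : X ^ 3 - D * X = ((X ^ 3 - D * X) - (algebraMap F (w.adicCompletion F) (s : F)) ^ 2) +
          (algebraMap F (w.adicCompletion F) (s : F)) ^ 2 := by ring
      rw [h9, Valuation.map_add_eq_of_lt_right _ (by rw [h8]; exact h3), h8]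
    obtain ⟨y, hy⟩ := sq_of_sq_mod w h2 h7 h3
    refine ⟨X, y, hX1, ?_, ?_⟩
    · rintro ⟨t, ht⟩
      refine hxs (s12c_sq w (r := r) (x := X) ?_ ht)
      rw [hX, sub_self, map_zero]
      exact zero_lt_one
    · rw [pow_two]
      exact hy.symm

/-- [S12f] **the good places.** PROOF. `val_b_sq` (D11) is the one direction. Let `w(b) = g²`, `g = w(π^k)`: there is `t ∈ F` with `w(t) = g` (`HeightOneSpectrum.valuation_exists_uniformizer`, powers), so `u = b / t²` is a unit of the
completion. `u` a square: first alternative. `u` no square, `d` no square in the completion: `d u` is a square (`sq_mul_of_not`). `d` a square: `exists_point`, `u x` is a square (`sq_mul_of_not`): third alternative. -/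
theorem locB_good {d b : F} (hd0 : d ≠ 0) (hb0 : b ≠ 0) (h2 : w.valuation F 2 = 1) (hd : w.valuation F d = 1) :
    LocB d b (w.adicCompletion F) ↔ ∃ g : WithZero (Multiplicative ℤ), w.valuation F b = g ^ 2 := by
  constructor
  · intro h
    exact val_b_sq hd0 w hd h
  · rintro ⟨g, hg⟩
    have hg0 : g ≠ 0 := by
      rintro rfl
      rw [zero_pow two_ne_zero] at hg
      exact (Valuation.ne_zero_iff _).2 hb0 hg
    obtain ⟨t, ht⟩ := HeightOneSpectrum.valuation_surjective (K := F) w g
    have ht0 : t ≠ 0 := by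
      rintro rfl
      rw [map_zero] at ht
      exact hg0 ht.symm
    have hT0 : algebraMap F (w.adicCompletion F) t ≠ 0 :=
      (map_ne_zero (algebraMap F (w.adicCompletion F))).2 ht0
    have hbt : b = (b / t ^ 2) * t ^ 2 := by field_simp
    have hu : Valued.v (algebraMap F (w.adicCompletion F) (b / t ^ 2)) =
        (1 : WithZero (Multiplicative ℤ)) := by
      rw [s12c_val, map_div₀, map_pow, hg, ht, div_self (pow_ne_zero 2 hg0)]
    have hB : algebraMap F (w.adicCompletion F) b =
        algebraMap F (w.adicCompletion F) (b / t ^ 2) * (algebraMap F (w.adicCompletion F) t) ^ 2 := by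
      rw [← map_pow, ← map_mul, ← hbt]
    have hD : Valued.v (algebraMap F (w.adicCompletion F) d) = (1 : WithZero (Multiplicative ℤ)) := by
      rw [s12c_val, hd]
    by_cases hus : IsSquare (algebraMap F (w.adicCompletion F) (b / t ^ 2))
    · left
      obtain ⟨z, hz⟩ := hus
      exact ⟨z * algebraMap F (w.adicCompletion F) t, by rw [hB, hz]; ring⟩
    · right
      by_cases hds : IsSquare (algebraMap F (w.adicCompletion F) d)
      · right
        obtain ⟨x, y, hx1, hxs, hxy⟩ := exists_point w h2 hD hds
        refine ⟨x, y, ?_, hxy, ?_⟩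
        · rintro rfl
          rw [map_zero] at hx1
          exact zero_ne_one hx1
        · obtain ⟨z, hz⟩ := sq_mul_of_not w h2 hu hx1 hus hxs
          refine ⟨z * algebraMap F (w.adicCompletion F) t, ?_⟩
          rw [hB]
          linear_combination (algebraMap F (w.adicCompletion F) t) ^ 2 * hz
      · left
        obtain ⟨z, hz⟩ := sq_mul_of_not w h2 hD hu hds hus
        refine ⟨z * algebraMap F (w.adicCompletion F) t, ?_⟩
        rw [map_mul, hB]
        linear_combination (algebraMap F (w.adicCompletion F) t) ^ 2 * hz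

end

end QTB
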