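import Pool.Agent.QTB.F0
import Pool.Agent.QTB.S12c
import Pool.Agent.QTB.S8c

/-!
# [QTB-SI] the statements of the descent block which are used by the block F
-/

set_option autoImplicit false

open NumberField IsDedekindDomain
open scoped Classical

namespace QTC

open QTD (LocB)
open TU (QS Ur Sq)

/-- (1.4) the odd good places -/
theorem locB_good {F : Type} [Field F] [NumberField F] {d j b : F} (hj : j ^ 2 = -1) (hd : d ≠ 0) (hb : b ≠ 0)
    (w : HeightOneSpectrum (𝓞 F)) (h2 : w.valuation F 2 = 1) (hdw : w.valuation F d = 1)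
    (he : ∃ g : WithZero (Multiplicative ℤ), w.valuation F b = g ^ 2) : LocB d b (w.adicCompletion F) :=
  (QTB.locB_good w hd hb h2 hdw).2 he

/-- (2.2) the places above `v`, `e` a square in `K_v` -/
theorem split_hom {K F : Type} [Field K] [NumberField K] [Field F] [NumberField F] [Algebra K F] (Q : QS K F)
    (v : HeightOneSpectrum (𝓞 K)) (hv : IsSquare (algebraMap K (v.adicCompletion K) Q.e))
    (w : HeightOneSpectrum (𝓞 F)) (hw : w.asIdeal.comap (algebraMap (𝓞 K) (𝓞 F)) = v.asIdeal) :
    ∃ f : w.adicCompletion F →+* v.adicCompletion K, ∀ x : K,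
      f (algebraMap F (w.adicCompletion F) (algebraMap K F x)) = algebraMap K (v.adicCompletion K) x :=
  QTB.exists_split_hom Q v w hw.symm hv

end QTC
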