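import Pool.Agent.QTB.F6b
import Pool.Agent.QTB.F6c
import Pool.Agent.QTB.F1c
import Pool.Agent.QTB.F1d
import Pool.Agent.QTB.SI

/-!
# [QTB-F6e] the kernel
-/

set_option autoImplicit false

open NumberField IsDedekindDomain
open scoped Classical

namespace QTC

open PI (Gi sy ii la Prim emK eG KI la_prime pl)
open QT (st Dd Adm bD gD Good)
open QTD (LocB cl vla)

theorem F6e_span_ne {p q : Gi} (hp : Prime p) (hP : Prim p) (hq : Prime q) (hQ : Prim q) (h : p ≠ q)
    {v : HeightOneSpectrum (𝓞 KI)} (hv : v.asIdeal = Ideal.span {eG p}) : v.asIdeal ≠ Ideal.span {eG q} := by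
  intro h1
  apply PID.not_dvd_of_ne hp hP hq hQ h
  rw [← PI.mem_iff hv, h1]
  exact Ideal.mem_span_singleton_self _

theorem F6e_span_la {p : Gi} (hp : Prime p) (hP : Prim p)
    {v : HeightOneSpectrum (𝓞 KI)} (hv : v.asIdeal = Ideal.span {eG p}) : v.asIdeal ≠ Ideal.span {eG la} := by
  intro h1
  apply PID.not_dvd_la hp hP
  rw [← PI.mem_iff hv, h1]
  exact Ideal.mem_span_singleton_self _

theorem F6e_rep_zero {O : Finset Gi} : rep (0 : V O) = 1 := by
  unfold rep repG
  simp

/-- [QTB-F6e] the kernel. PROOF. `LocB D (rep z)` at all places: `la`: `hla`; `p ∈ SO`: `locB_SO`; `p ∈ S ∖ SO`: `val_rep` and `locB_even`; the others (`v` odd, `v(D) = 1`, `v (rep z) = 1` by `val_rep`, as `z q = 0` for `q ∈ T`): `locB_good`, `QTD.val_d_one`. So `rep z` or `D rep z` is a square in `K` (`QTD.selTriv`), hence `z = 0` or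
`z + zD = 0` by the uniqueness in `exists_rep` (for `c = 1` resp. `rep z D`...; `rep_add`, `rep_zD`, `rep 0 = 1`). -/
theorem kernel {s t : ℕ} {S : Finset Gi} {a : Gi → ℕ} {T : Finset Gi} (h : Good s t S a)
    (hT : ∀ q ∈ T, Prime q ∧ Prim q) (hd : Disjoint S T) (z : V (SO S a ∪ T))
    (h1 : ∀ p ∈ SO S a, rho s t S a p z = 0) (h2 : ∀ q : (SO S a ∪ T : Finset Gi), (q : Gi) ∈ T → z.2.2 q = 0)
    (hla : LocB (emK (Dd s t S a)) (rep z) (vla.adicCompletion KI)) : z = 0 ∨ z = zD s t S a T := by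
  have hA : Adm s t S a := QTD.good_adm h
  have hS : ∀ p ∈ S, Prime p ∧ Prim p := hA.1
  have hO : ∀ p ∈ SO S a ∪ T, Prime p ∧ Prim p := by
    intro p hp
    rcases Finset.mem_union.1 hp with h | h
    · exact hS p (SO_sub h)
    · exact hT p h
  have hD0 : emK (Dd s t S a) ≠ 0 := PID.emK_ne (QTD.Dd_ne hS)
  have hr0 : rep z ≠ 0 := rep_ne hO z
  have hloc : ∀ v : HeightOneSpectrum (𝓞 KI), LocB (emK (Dd s t S a)) (rep z) (v.adicCompletion KI) := by
    intro v
    rcases PI.gen_cases (v := v) with hv | ⟨b, hb, hB, hvb⟩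
    · have e : v = vla := HeightOneSpectrum.ext (by rw [hv, QTD.vla_as])
      subst e
      exact hla
    · by_cases hbO : b ∈ SO S a
      · exact (locB_SO hA hO Finset.subset_union_left hbO hvb z).2 (h1 b hbO)
      · have hval : v.valuation KI (rep z) = 1 := by
          refine val_rep hO z v (F6e_span_la hb hB hvb) ?_
          rintro ⟨q, hq⟩ hz
          refine F6e_span_ne hb hB (hO q hq).1 (hO q hq).2 ?_ hvb
          rintro rfl
          rcases Finset.mem_union.1 hq with h | h
          · exact hbO h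
          · exact hz (h2 _ h)
        by_cases hbS : b ∈ S
        · refine locB_even h hbS (fun hodd => hbO (mem_SO.2 ⟨hbS, hodd⟩)) hvb hr0 ⟨1, ?_⟩
          rw [one_pow, hval]
        · have hd1 : v.valuation KI (emK (Dd s t S a)) = 1 := by
            refine QTD.val_d_one hS v (F6e_span_la hb hB hvb) ?_
            intro p hp
            exact F6e_span_ne hb hB (hS p hp).1 (hS p hp).2 (fun e => hbS (e ▸ hp)) hvb
          have h2v : v.valuation KI 2 = 1 := by
            have := (PID.val_eq_one_iff hvb 2).2 (PID.not_dvd_two hb hB)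
            rwa [map_ofNat] at this
          refine locB_good (j := emK ii) PID.emK_ii hD0 hr0 v h2v hd1 ⟨1, ?_⟩
          rw [one_pow, hval]
  obtain ⟨z₀, -, huniq⟩ := exists_rep hO (rep z) hr0 (by
    intro v hv1 hv2
    refine ⟨1, ?_⟩
    rw [one_pow]
    exact val_rep hO z v hv1 (fun q _ => hv2 q q.2))
  have hz : z = z₀ := huniq z ⟨1, one_ne_zero, by rw [one_pow, mul_one]⟩
  rcases QTD.selTriv h (rep z) hr0 hloc with ⟨r, hr⟩ | ⟨r, hr⟩
  · left
    rw [hz]
    symm
    apply huniq
    have hrne : r ≠ 0 := by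
      rintro rfl
      rw [mul_zero] at hr
      exact hr0 hr
    exact ⟨r, hrne, by rw [F6e_rep_zero, one_mul, hr, pow_two]⟩
  · right
    rw [hz]
    symm
    apply huniq
    have hrne : r ≠ 0 := by
      rintro rfl
      rw [mul_zero] at hr
      exact mul_ne_zero hD0 hr0 hr
    obtain ⟨r', hr', e⟩ := rep_zD (s := s) (t := t) hA hT hd
    refine ⟨r / (emK (Dd s t S a) * r'), div_ne_zero hrne (mul_ne_zero hD0 hr'), ?_⟩
    rw [e]
    field_simp
    linear_combination hr

end QTC
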