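import Pool.Agent.QTB.F0

/-!
# [QTB-F6a] squares at odd places
-/

set_option autoImplicit false

open NumberField IsDedekindDomain
open scoped Classical

namespace QTC

open PI (Gi sy ii la Prim emK eG KI la_prime pl)
open QT (st Dd Adm bD gD Good)
open QTD (LocB cl vla)

/-- [QTB-F6a] PROOF. ⇒: `PID.sy_of_sq`. ⇐: there is `y ∈ ℤ[i]` with `p ∣ y² - g` (`PI.sy_eq_zero_iff`), `p ∤ y`; `g / y² ≡ 1`, `PID.sq_of_one` (squares in `1 + 𝔪`, residue characteristic odd). -/
theorem sq_iff_sy {v : HeightOneSpectrum (𝓞 KI)} {p : Gi} (hp : Prime p) (hP : Prim p) (hv : v.asIdeal = Ideal.span {eG p})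
    {g : Gi} (hg : ¬ p ∣ g) : IsSquare (algebraMap KI (v.adicCompletion KI) (emK g)) ↔ sy g p = 0 := by
  constructor
  · exact PID.sy_of_sq hv hg
  · intro h
    obtain ⟨y, hy⟩ := (PI.sy_eq_zero_iff g p).1 h
    have hpy : ¬ p ∣ y := by
      intro h1
      apply hg
      have h3 : p ∣ y ^ 2 := dvd_pow h1 two_ne_zero
      have h4 : g = y ^ 2 - (y ^ 2 - g) := by ring
      rw [h4]
      exact dvd_sub h3 hy
    have hval : ∀ x : KI, Valued.v (algebraMap KI (v.adicCompletion KI) x) = v.valuation KI x :=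
      fun x => HeightOneSpectrum.valuedAdicCompletion_eq_valuation' v x
    have h2 : v.valuation KI 2 = 1 := by
      have h3 := (PID.val_eq_one_iff hv 2).2 (PID.not_dvd_two hp hP)
      rwa [map_ofNat] at h3
    have hY : Valued.v (algebraMap KI (v.adicCompletion KI) (emK y)) =
        (1 : WithZero (Multiplicative ℤ)) := by
      rw [hval]
      exact (PID.val_eq_one_iff hv y).2 hpy
    have hY0 : algebraMap KI (v.adicCompletion KI) (emK y) ≠ 0 := by
      intro h3
      rw [h3, map_zero] at hY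
      exact zero_ne_one hY
    have hdiff : Valued.v (algebraMap KI (v.adicCompletion KI) (emK g) -
        algebraMap KI (v.adicCompletion KI) (emK y) ^ 2) < (1 : WithZero (Multiplicative ℤ)) := by
      have e1 : algebraMap KI (v.adicCompletion KI) (emK g) -
          algebraMap KI (v.adicCompletion KI) (emK y) ^ 2 =
          algebraMap KI (v.adicCompletion KI) (emK (g - y ^ 2)) := by
        rw [map_sub, map_sub, map_pow, map_pow]
      rw [e1, hval, PID.val_lt_one_iff hv]
      have e2 : g - y ^ 2 = -(y ^ 2 - g) := by ring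
      rw [e2]
      exact (dvd_neg).2 hy
    obtain ⟨r, hr⟩ := PID.sq_of_one v h2 (algebraMap KI (v.adicCompletion KI) (emK g) /
      algebraMap KI (v.adicCompletion KI) (emK y) ^ 2) (by
        have e1 : algebraMap KI (v.adicCompletion KI) (emK g) /
            algebraMap KI (v.adicCompletion KI) (emK y) ^ 2 - 1 =
            (algebraMap KI (v.adicCompletion KI) (emK g) -
              algebraMap KI (v.adicCompletion KI) (emK y) ^ 2) /
              algebraMap KI (v.adicCompletion KI) (emK y) ^ 2 := by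
          rw [sub_div, div_self (pow_ne_zero 2 hY0)]
        rw [e1, map_div₀, map_pow, hY, one_pow, div_one]
        exact hdiff)
    refine ⟨r * algebraMap KI (v.adicCompletion KI) (emK y), ?_⟩
    rw [div_eq_iff (pow_ne_zero 2 hY0)] at hr
    rw [hr]
    ring

/-- [QTB-F6d] the valuations of `rep z`. PROOF. `v.asIdeal = span {eG b}` with a primary prime `b` (`PI.gen_cases`), `b ∉ O` or `z b = 0`: `b ∤ repG z` (`PID.val_eq_one_iff`). -/
theorem val_rep {O : Finset Gi} (hO : ∀ p ∈ O, Prime p ∧ Prim p) (z : V O) (v : HeightOneSpectrum (𝓞 KI))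
    (h1 : v.asIdeal ≠ Ideal.span {eG la}) (h2 : ∀ q : O, z.2.2 q ≠ 0 → v.asIdeal ≠ Ideal.span {eG (q : Gi)}) :
    v.valuation KI (rep z) = 1 := by
  rcases PI.gen_cases (v := v) with h | ⟨b, hb, hB, hvb⟩
  · exact absurd h h1
  · unfold rep
    rw [PID.val_eq_one_iff hvb]
    intro h
    unfold repG at h
    rcases hb.dvd_or_dvd h with h5 | h5
    · rcases hb.dvd_or_dvd h5 with h6 | h6
      · exact PID.not_dvd_ii hb (hb.dvd_of_dvd_pow h6)
      · exact PID.not_dvd_la hb hB (hb.dvd_of_dvd_pow h6)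
    · obtain ⟨q, _, h6⟩ := (hb.dvd_finsetProd_iff (S := Finset.univ)
        (fun q : O => (q : Gi) ^ (z.2.2 q).val)).1 h5
      by_cases hz : z.2.2 q = 0
      · rw [hz, ZMod.val_zero, pow_zero] at h6
        exact hb.not_isUnit (isUnit_of_dvd_one h6)
      · have h7 := hb.dvd_of_dvd_pow h6
        by_cases hbq : b = (q : Gi)
        · exact h2 q hz (hbq ▸ hvb)
        · exact PID.not_dvd_of_ne hb hB (hO q q.2).1 (hO q q.2).2 hbq h7

end QTC
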