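import Pool.Agent.QTB.F7a
import Pool.Agent.QTB.F5a
import Pool.Agent.QTB.F5b
import Pool.Agent.QTB.F3c
import Pool.Agent.QTB.F4d
import Pool.Agent.QTB.F6e

/-!
# [QTB-F7c] the number of classes with the local conditions
-/

set_option autoImplicit false

open NumberField IsDedekindDomain
open scoped Classical

namespace QTC

open PI (Gi sy ii la Prim emK eG KI la_prime pl)
open QT (st Dd Adm bD gD Good)
open QTD (LocB cl vla)

theorem F7c_neg {O : Finset Gi} (z : V O) : -z = z := by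
  have key : ∀ x : ZMod 2, -x = x := by decide
  refine Prod.ext (key _) (Prod.ext (key _) (funext fun q => key _))

theorem F7c_card (O : Finset Gi) : Nat.card (V O) = 4 * 2 ^ O.card := by
  show Nat.card (ZMod 2 × ZMod 2 × (O → ZMod 2)) = _
  rw [Nat.card_prod, Nat.card_prod, Nat.card_fun, Nat.card_zmod, Nat.card_eq_fintype_card, Fintype.card_coe]
  ring

theorem F7c_rep_zero {O : Finset Gi} : rep (0 : V O) = 1 := by
  unfold rep repG
  simp

/-- the homomorphism `cV` -/
noncomputable def F7c_cV (O : Finset Gi) : V O →+ ZMod 2 × ZMod 2 × ZMod 2 × ZMod 2 :=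
  AddMonoidHom.mk' (fun z => cV z) fun z z' => cV_add z z'

/-- the homomorphism `rho p` -/
noncomputable def F7c_rho (s t : ℕ) (S : Finset Gi) (a : Gi → ℕ) (O : Finset Gi) (p : Gi) : V O →+ ZMod 2 :=
  AddMonoidHom.mk' (fun z => rho s t S a p z) fun z z' => rho_add s t S a p z z'

/-- the coordinate -/
def F7c_co (O : Finset Gi) (q : O) : V O →+ ZMod 2 :=
  AddMonoidHom.mk' (fun z => z.2.2 q) fun _ _ => rfl

/-- [QTB-F7c] the count. `I ⊆ SO` the set of the inert primes. PROOF. `V0 = V (SO ∪ T)` has `4 · 2^(#SO + #T)` elements (`SO`, `T` disjoint). Lower bound: `lower` with `P = SO ∖ I`, `f z p = rho p z` (`rho_add`), `g = cV` (`cV_add`), `κ`, `c = cD` from `locB_la_of`: `4 · 2^(#SO + #T) ≤ #{…} · 2^(#SO - #I) · 4`.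
Upper bound: the set `A` is a subgroup? Use instead the subgroup GENERATED argument: the set of `z` with `rho p z = 0` for `p ∈ SO ∖ I` and `LocB D (rep z) K_λ` is closed under addition: `LocB` at `λ` for `rep (z + z')` (product rule `locB_mul`, hypothesis `hmul`). `ι = I ⊕ T`, `f z = (rho p z)_{p ∈ I}, (z q)_{q ∈ T}`;
`∑ = 0`: `reciprocity` and `locB_la_orth`; kernel: `kernel`. -/
theorem count {s t : ℕ} {S : Finset Gi} {a : Gi → ℕ} {T : Finset Gi} (h : Good s t S a)
    (hT : ∀ q ∈ T, Prime q ∧ Prim q) (hd : Disjoint S T) (hn : ∀ q ∈ T, sy (Dd s t S a) q = 1) (hne : T.Nonempty)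
    (hmul : ∀ b b' : KI, b ≠ 0 → b' ≠ 0 → LocB (emK (Dd s t S a)) b (vla.adicCompletion KI) →
      LocB (emK (Dd s t S a)) b' (vla.adicCompletion KI) → LocB (emK (Dd s t S a)) (b * b') (vla.adicCompletion KI))
    (I : Finset Gi) (hI : I ⊆ SO S a) :
    Nat.card {z : V (SO S a ∪ T) // (∀ p ∈ SO S a, p ∉ I → rho s t S a p z = 0) ∧
      LocB (emK (Dd s t S a)) (rep z) (vla.adicCompletion KI)} = 2 ^ (I.card + T.card) := by
  have hA : Adm s t S a := QTD.good_adm h
  have hS : ∀ p ∈ S, Prime p ∧ Prim p := hA.1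
  have hO : ∀ p ∈ SO S a ∪ T, Prime p ∧ Prim p := by
    intro p hp
    rcases Finset.mem_union.1 hp with h | h
    · exact hS p (SO_sub h)
    · exact hT p h
  have hdis : Disjoint (SO S a) T := Finset.disjoint_of_subset_left SO_sub hd
  have hcard : (SO S a ∪ T).card = (SO S a).card + T.card := Finset.card_union_of_disjoint hdis
  -- the subgroup
  obtain ⟨A, hAm⟩ : ∃ A : AddSubgroup (V (SO S a ∪ T)), ∀ z, z ∈ A ↔ (∀ p ∈ SO S a, p ∉ I → rho s t S a p z = 0) ∧
      LocB (emK (Dd s t S a)) (rep z) (vla.adicCompletion KI) := by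
    refine ⟨{ carrier := {z | (∀ p ∈ SO S a, p ∉ I → rho s t S a p z = 0) ∧
                LocB (emK (Dd s t S a)) (rep z) (vla.adicCompletion KI)}
              add_mem' := ?_, zero_mem' := ?_, neg_mem' := ?_ }, fun z => Iff.rfl⟩
    · rintro z z' ⟨h1, h2⟩ ⟨h3, h4⟩
      refine ⟨fun p hp hpI => ?_, ?_⟩
      · rw [rho_add, h1 p hp hpI, h3 p hp hpI, add_zero]
      · obtain ⟨r, hr, e⟩ := rep_add hO z z'
        rw [e, QTD.locB_sq hr]
        exact hmul _ _ (rep_ne hO z) (rep_ne hO z') h2 h4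
    · refine ⟨fun p hp hpI => (F7c_rho s t S a _ p).map_zero, ?_⟩
      left
      rw [F7c_rep_zero, map_one]
      exact ⟨1, (mul_one 1).symm⟩
    · rintro z hz
      rw [F7c_neg]
      exact hz
  have hNA : Nat.card {z : V (SO S a ∪ T) // (∀ p ∈ SO S a, p ∉ I → rho s t S a p z = 0) ∧
      LocB (emK (Dd s t S a)) (rep z) (vla.adicCompletion KI)} = Nat.card A :=
    Nat.card_congr (Equiv.subtypeEquivRight fun z => (hAm z).symm)
  apply le_antisymm
  · -- upper bound
    rw [hNA]
    have hI' : I.card + T.card = Fintype.card (I ⊕ T) := by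
      rw [Fintype.card_sum, Fintype.card_coe, Fintype.card_coe]
    rw [hI']
    have hmemT : ∀ q : T, (q : Gi) ∈ SO S a ∪ T := fun q => Finset.mem_union_right _ q.2
    have : Nonempty (I ⊕ T) := ⟨Sum.inr ⟨hne.choose, hne.choose_spec⟩⟩
    obtain ⟨f, hf1, hf2⟩ : ∃ f : V (SO S a ∪ T) →+ ((I ⊕ T : Type) → ZMod 2),
        (∀ z (p : I), f z (Sum.inl p) = rho s t S a p z) ∧
        (∀ z (q : T), f z (Sum.inr q) = z.2.2 ⟨q, hmemT q⟩) := by
      refine ⟨AddMonoidHom.pi fun i => Sum.elim (fun p : I => F7c_rho s t S a (SO S a ∪ T) p)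
        (fun q : T => F7c_co (SO S a ∪ T) ⟨q, hmemT q⟩) i, fun z p => rfl, fun z q => rfl⟩
    refine upper A f ?_ (zD s t S a T) ?_
    · intro z hz
      obtain ⟨hz1, hz2⟩ := (hAm z).1 hz
      rw [Fintype.sum_sum_type]
      have e0 := reciprocity hA hT hd hn z
      rw [locB_la_orth hA hO z hz2] at e0
      have e1 : ∑ p : I, f z (Sum.inl p) = ∑ p ∈ SO S a, rho s t S a p z := by
        rw [← Finset.sum_subset hI (fun p hp hpI => hz1 p hp hpI), ← Finset.sum_coe_sort I]
        exact Finset.sum_congr rfl fun p _ => hf1 z p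
      have e2 : ∑ q : T, f z (Sum.inr q) =
          ∑ q : (SO S a ∪ T : Finset Gi), (if (q : Gi) ∈ T then z.2.2 q else 0) := by
        have e3 : ∀ q : (SO S a ∪ T : Finset Gi), (if (q : Gi) ∈ T then z.2.2 q else 0) =
            (fun x : Gi => if hx : x ∈ SO S a ∪ T then (if x ∈ T then z.2.2 ⟨x, hx⟩ else 0) else 0) q := by
          intro q
          show _ = if hx : (q : Gi) ∈ SO S a ∪ T then (if (q : Gi) ∈ T then z.2.2 ⟨q, hx⟩ else 0) else 0
          rw [dif_pos q.2]
        rw [Finset.sum_congr rfl fun q _ => e3 q,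
          Finset.sum_coe_sort (SO S a ∪ T) (fun x : Gi => if hx : x ∈ SO S a ∪ T then (if x ∈ T then z.2.2 ⟨x, hx⟩ else 0) else 0),
          ← Finset.sum_subset (Finset.subset_union_right : T ⊆ SO S a ∪ T), ← Finset.sum_coe_sort T]
        · refine Finset.sum_congr rfl fun q _ => ?_
          rw [hf2, dif_pos (hmemT q), if_pos q.2]
        · intro x hx hxT
          rw [dif_pos hx, if_neg hxT]
      rw [e1, e2, e0]
    · intro z hz hfz
      obtain ⟨hz1, hz2⟩ := (hAm z).1 hz
      refine kernel h hT hd z ?_ ?_ hz2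
      · intro p hp
        by_cases hpI : p ∈ I
        · have := hf1 z ⟨p, hpI⟩
          rw [hfz] at this
          exact this.symm
        · exact hz1 p hp hpI
      · rintro ⟨q, hq⟩ hqT
        have := hf2 z ⟨q, hqT⟩
        rw [hfz] at this
        exact this.symm
  · -- lower bound
    obtain ⟨κ, hκ, hκc, hc, hloc⟩ := locB_la_of h
    obtain ⟨f, hf⟩ : ∃ f : V (SO S a ∪ T) →+ (((SO S a \ I : Finset Gi) : Type) → ZMod 2),
        ∀ z (p : (SO S a \ I : Finset Gi)), f z p = rho s t S a p z :=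
      ⟨AddMonoidHom.pi fun p => F7c_rho s t S a (SO S a ∪ T) p, fun z p => rfl⟩
    have h1 := lower f (F7c_cV (SO S a ∪ T)) (cD s t S a) κ hc hκ hκc
    have h2 : Nat.card {z : V (SO S a ∪ T) // f z = 0 ∧ (F7c_cV (SO S a ∪ T) z = 0 ∨
        F7c_cV (SO S a ∪ T) z = cD s t S a ∨ F7c_cV (SO S a ∪ T) z = κ ∨
        F7c_cV (SO S a ∪ T) z = κ + cD s t S a)} ≤
        Nat.card {z : V (SO S a ∪ T) // (∀ p ∈ SO S a, p ∉ I → rho s t S a p z = 0) ∧
          LocB (emK (Dd s t S a)) (rep z) (vla.adicCompletion KI)} := by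
      refine Nat.card_le_card_of_injective (fun z => ⟨z.1, ?_, ?_⟩) ?_
      · intro p hp hpI
        have e := hf z.1 ⟨p, Finset.mem_sdiff.2 ⟨hp, hpI⟩⟩
        rw [z.2.1] at e
        exact e.symm
      · exact hloc _ hO z.1 z.2.2
      · intro z z' e
        exact Subtype.ext (Subtype.mk.inj e)
    have h3 : Nat.card ((SO S a \ I : Finset Gi) : Type) = (SO S a).card - I.card := by
      rw [Nat.card_eq_fintype_card, Fintype.card_coe, Finset.card_sdiff_of_subset hI]
    rw [F7c_card, hcard, h3] at h1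
    have h4 := Finset.card_le_card hI
    obtain ⟨k, hk⟩ : ∃ k, (SO S a).card = I.card + k := Nat.exists_eq_add_of_le h4
    rw [hk, Nat.add_sub_cancel_left] at h1
    have h5 := le_trans h1 (Nat.mul_le_mul_right _ h2)
    have e : 4 * 2 ^ (I.card + k + T.card) = 2 ^ (I.card + T.card) * (2 ^ k * 4) := by
      rw [pow_add, pow_add, pow_add]
      ring
    rw [e] at h5
    exact Nat.le_of_mul_le_mul_right h5 (by positivity)

end QTC
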