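import Pool.Agent.QTB.F0

/-!
# [QTB-F7a] abstract bounds
-/

set_option autoImplicit false

open NumberField IsDedekindDomain
open scoped Classical

namespace QTC

open PI (Gi sy ii la Prim emK eG KI la_prime pl)
open QT (st Dd Adm bD gD Good)
open QTD (LocB cl vla)

/-- doubling is zero -/
theorem f7a_dbl (x : ZMod 2 × ZMod 2 × ZMod 2 × ZMod 2) : x + x = 0 := by
  revert x
  decide

/-- the subgroup with the elements `0, c, κ, κ + c` -/
def f7a_D (c κ : ZMod 2 × ZMod 2 × ZMod 2 × ZMod 2) :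
    AddSubgroup (ZMod 2 × ZMod 2 × ZMod 2 × ZMod 2) where
  carrier := {x | x = 0 ∨ x = c ∨ x = κ ∨ x = κ + c}
  zero_mem' := Or.inl rfl
  neg_mem' := by
    intro x hx
    rwa [show -x = x from neg_eq_of_add_eq_zero_left (f7a_dbl x)]
  add_mem' := by
    intro x y hx hy
    have e1 := f7a_dbl c
    have e2 := f7a_dbl κ
    rcases hx with h | h | h | h <;> rcases hy with h' | h' | h' | h'
    · exact Or.inl (by rw [h, h', add_zero])
    · exact Or.inr (Or.inl (by rw [h, h', zero_add]))
    · exact Or.inr (Or.inr (Or.inl (by rw [h, h', zero_add])))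
    · exact Or.inr (Or.inr (Or.inr (by rw [h, h', zero_add])))
    · exact Or.inr (Or.inl (by rw [h, h', add_zero]))
    · exact Or.inl (by rw [h, h', e1])
    · exact Or.inr (Or.inr (Or.inr (by rw [h, h', add_comm])))
    · exact Or.inr (Or.inr (Or.inl (by rw [h, h']; linear_combination e1)))
    · exact Or.inr (Or.inr (Or.inl (by rw [h, h', add_zero])))
    · exact Or.inr (Or.inr (Or.inr (by rw [h, h'])))
    · exact Or.inl (by rw [h, h', e2])
    · exact Or.inr (Or.inl (by rw [h, h']; linear_combination e2))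
    · exact Or.inr (Or.inr (Or.inr (by rw [h, h', add_zero])))
    · exact Or.inr (Or.inr (Or.inl (by rw [h, h']; linear_combination e1)))
    · exact Or.inr (Or.inl (by rw [h, h']; linear_combination e2))
    · exact Or.inl (by rw [h, h']; linear_combination e1 + e2)

theorem f7a_card (c κ : ZMod 2 × ZMod 2 × ZMod 2 × ZMod 2) (hc : c ≠ 0) (hκ : κ ≠ 0)
    (hκc : κ ≠ c) : Nat.card (f7a_D c κ) = 4 := by
  have h1 : ((f7a_D c κ : AddSubgroup _) : Set (ZMod 2 × ZMod 2 × ZMod 2 × ZMod 2)) =
      (({0, c, κ, κ + c} : Finset (ZMod 2 × ZMod 2 × ZMod 2 × ZMod 2)) : Set _) := by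
    ext x
    simp only [Finset.coe_insert, Finset.coe_singleton, Set.mem_insert_iff,
      Set.mem_singleton_iff]
    rfl
  have h2 : κ + c ≠ 0 := by
    intro h
    apply hκc
    linear_combination h - f7a_dbl c
  have h3 : Nat.card (f7a_D c κ) =
      ((f7a_D c κ : AddSubgroup _) : Set (ZMod 2 × ZMod 2 × ZMod 2 × ZMod 2)).ncard := rfl
  rw [h3, h1, Set.ncard_coe_finset, Finset.card_insert_of_notMem, Finset.card_insert_of_notMem,
    Finset.card_insert_of_notMem, Finset.card_singleton]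
  · rw [Finset.mem_singleton]
    intro h
    apply hc
    linear_combination -h
  · rw [Finset.mem_insert, Finset.mem_singleton]
    rintro (h | h)
    · exact hκc h.symm
    · apply hκ
      linear_combination -h
  · rw [Finset.mem_insert, Finset.mem_insert, Finset.mem_singleton]
    rintro (h | h | h)
    · exact hc h.symm
    · exact hκ h.symm
    · exact h2 h.symm

theorem f7a_count {A B : Type} [AddCommGroup A] [AddCommGroup B] [Finite A] [Finite B]
    (F : A →+ B) : Nat.card A ≤ Nat.card F.ker * Nat.card B := by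
  rw [← AddSubgroup.card_mul_index F.ker, AddSubgroup.index_ker]
  exact Nat.mul_le_mul_left _ (Nat.card_le_card_of_injective _ Subtype.val_injective)

/-- [QTB-F7a] abstract lower bound. PROOF. `card V ≤ card ker f · card W`: `AddSubgroup` index / first isomorphism theorem; `W = (P → ZMod 2) × (ZMod 2)^4 ⧸ Δ`, `Δ = {0, c, κ, κ + c}` has 4 elements, so `card W = 2^(card P) * 4`. -/
theorem lower {V0 : Type} [AddCommGroup V0] [Finite V0] {P : Type} [Finite P] (f : V0 →+ (P → ZMod 2))
    (g : V0 →+ (ZMod 2 × ZMod 2 × ZMod 2 × ZMod 2)) (c κ : ZMod 2 × ZMod 2 × ZMod 2 × ZMod 2) (hc : c ≠ 0) (hκ : κ ≠ 0)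
    (hκc : κ ≠ c) :
    Nat.card V0 ≤ Nat.card {z : V0 // f z = 0 ∧ (g z = 0 ∨ g z = c ∨ g z = κ ∨ g z = κ + c)} * (2 ^ Nat.card P * 4) := by
  have h1 := f7a_count (f.prod ((QuotientAddGroup.mk' (f7a_D c κ)).comp g))
  have h2 : Nat.card (f.prod ((QuotientAddGroup.mk' (f7a_D c κ)).comp g)).ker =
      Nat.card {z : V0 // f z = 0 ∧ (g z = 0 ∨ g z = c ∨ g z = κ ∨ g z = κ + c)} := by
    refine Nat.card_congr (Equiv.subtypeEquivRight fun z => ?_)
    rw [AddMonoidHom.mem_ker, AddMonoidHom.prod_apply, Prod.mk_eq_zero,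
      AddMonoidHom.comp_apply, QuotientAddGroup.mk'_apply, QuotientAddGroup.eq_zero_iff]
    exact Iff.rfl
  have h3 : Nat.card ((ZMod 2 × ZMod 2 × ZMod 2 × ZMod 2) ⧸ f7a_D c κ) = 4 := by
    have h4 := AddSubgroup.card_mul_index (f7a_D c κ)
    rw [f7a_card c κ hc hκ hκc] at h4
    have h5 : Nat.card (ZMod 2 × ZMod 2 × ZMod 2 × ZMod 2) = 16 := by
      simp
    rw [h5] at h4
    have h6 : (f7a_D c κ).index =
        Nat.card ((ZMod 2 × ZMod 2 × ZMod 2 × ZMod 2) ⧸ f7a_D c κ) := rfl
    omega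
  rw [h2, Nat.card_prod, h3, Nat.card_fun, Nat.card_zmod] at h1
  exact h1

/-- [QTB-F7b] abstract upper bound. `A` a subgroup of `V0`, `f : V0 →+ (ι → ZMod 2)`, `ι` nonempty, `∑ f = 0` on `A`, and the elements of `A` with `f = 0` are among two elements: `2 card A ≤ 2 · 2^(card ι)`.
PROOF. `card A ≤ card (ker f|_A) · card (image)`, the image is contained in the hyperplane `∑ = 0`, which has `2^(card ι - 1)` elements. -/
theorem upper {V0 : Type} [AddCommGroup V0] [Finite V0] {ι : Type} [Fintype ι] [Nonempty ι] (A : AddSubgroup V0)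
    (f : V0 →+ (ι → ZMod 2)) (hf : ∀ z ∈ A, ∑ i, f z i = 0) (z₀ : V0) (hk : ∀ z ∈ A, f z = 0 → z = 0 ∨ z = z₀) :
    Nat.card A ≤ 2 ^ Fintype.card ι := by
  let σ : (ι → ZMod 2) →+ ZMod 2 := ∑ i, Pi.evalAddMonoidHom (fun _ : ι => ZMod 2) i
  have hσ : ∀ v, σ v = ∑ i, v i := by
    intro v
    show (∑ i, Pi.evalAddMonoidHom (fun _ : ι => ZMod 2) i) v = _
    rw [AddMonoidHom.finsetSum_apply]
    rfl
  let F : A →+ σ.ker := (f.comp A.subtype).codRestrict σ.ker fun z => by
    rw [AddMonoidHom.mem_ker, hσ]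
    exact hf z.1 z.2
  have h1 := f7a_count F
  have h2 : Nat.card F.ker ≤ 2 := by
    have h3 : Function.Injective fun z : F.ker => decide ((z : A) = 0) := by
      intro x y hxy
      have hx : (f x.1.1) = 0 := congrArg Subtype.val ((AddMonoidHom.mem_ker).1 x.2)
      have hy : (f y.1.1) = 0 := congrArg Subtype.val ((AddMonoidHom.mem_ker).1 y.2)
      have hxy' : ((x : A) = 0) ↔ ((y : A) = 0) := by simpa using hxy
      apply Subtype.ext
      by_cases h0 : (x : A) = 0
      · rw [h0, hxy'.1 h0]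
      · have h0' : ¬ (y : A) = 0 := fun h => h0 (hxy'.2 h)
        apply Subtype.ext
        rcases hk x.1.1 x.1.2 hx with h4 | h4
        · exact absurd (Subtype.ext h4) h0
        · rcases hk y.1.1 y.1.2 hy with h5 | h5
          · exact absurd (Subtype.ext h5) h0'
          · rw [h4, h5]
    have h4 := Nat.card_le_card_of_injective _ h3
    simpa using h4
  have h3 : Nat.card σ.ker * 2 = 2 ^ Fintype.card ι := by
    have h4 := AddSubgroup.card_mul_index σ.ker
    rw [AddSubgroup.index_ker] at h4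
    have h5 : σ.range = ⊤ := by
      rw [AddMonoidHom.range_eq_top]
      intro x
      obtain ⟨i⟩ := ‹Nonempty ι›
      refine ⟨Pi.single i x, ?_⟩
      rw [hσ, Finset.sum_pi_single']
      simp
    rw [h5] at h4
    have h6 : Nat.card (⊤ : AddSubgroup (ZMod 2)) = 2 := by
      rw [AddSubgroup.card_top, Nat.card_zmod]
    rw [h6, Nat.card_fun, Nat.card_zmod, Nat.card_eq_fintype_card (α := ι)] at h4
    exact h4
  have h4 : Nat.card F.ker * Nat.card σ.ker ≤ 2 * Nat.card σ.ker := Nat.mul_le_mul_right _ h2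
  omega

end QTC
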