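import Pool.Agent.QTB.F0

/-!
# [QTB-F8e] homomorphisms
-/

set_option autoImplicit false

open NumberField IsDedekindDomain
open scoped Classical

namespace QTC

open PI (Gi sy ii la Prim emK eG KI la_prime pl)
open QT (st Dd Adm bD gD Good)
open QTD (LocB cl vla)
open TU (QS Ur Sq Od)

theorem f8e_sq {M N : Type} [Field M] [Field N] (f : M →+* N) {x : M} (h : IsSquare x) :
    IsSquare (f x) := by
  obtain ⟨r, hr⟩ := h
  exact ⟨f r, by rw [hr, map_mul]⟩

/-- [QTB-F8e] `LocB` and homomorphisms of fields. PROOF. All three alternatives are mapped. -/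
theorem locB_map {K F : Type} [Field K] [Field F] [Algebra K F] {M N : Type} [Field M] [Algebra K M] [Field N] [Algebra F N]
    (f : M →+* N) (hf : ∀ x : K, f (algebraMap K M x) = algebraMap F N (algebraMap K F x)) {d b : K} (h : LocB d b M) :
    LocB (algebraMap K F d) (algebraMap K F b) N := by
  rcases h with h1 | h1 | ⟨x, y, hx, hxy, h1⟩
  · left
    rw [← hf]
    exact f8e_sq f h1
  · right
    left
    rw [← map_mul, ← hf]
    exact f8e_sq f h1
  · right
    right
    refine ⟨f x, f y, (map_ne_zero f).2 hx, ?_, ?_⟩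
    · rw [← hf, ← map_pow, hxy, map_sub, map_pow, map_mul]
    · rw [← hf, ← map_mul]
      exact f8e_sq f h1

theorem locB_map' {K F : Type} [Field K] [Field F] [Algebra K F] {M N : Type} [Field M] [Algebra K M] [Field N] [Algebra F N]
    (f : N →+* M) (hf : ∀ x : K, f (algebraMap F N (algebraMap K F x)) = algebraMap K M x) {d b : K}
    (h : LocB (algebraMap K F d) (algebraMap K F b) N) : LocB d b M := by
  rcases h with h1 | h1 | ⟨x, y, hx, hxy, h1⟩
  · left
    rw [← hf]
    exact f8e_sq f h1
  · right
    left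
    rw [← map_mul] at h1
    rw [← hf]
    exact f8e_sq f h1
  · right
    right
    refine ⟨f x, f y, (map_ne_zero f).2 hx, ?_, ?_⟩
    · rw [← hf, ← map_pow, hxy, map_sub, map_pow, map_mul]
    · rw [← hf, ← map_mul]
      exact f8e_sq f h1

end QTC
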