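import Pool.Agent.QTB.F2a

/-!
# [QTB-F8f] `TU.Sq` and squares
-/

set_option autoImplicit false

open NumberField IsDedekindDomain
open scoped Classical

namespace QTC

open PI (Gi sy ii la Prim emK eG KI la_prime pl)
open QT (st Dd Adm bD gD Good)
open QTD (LocB cl vla)
open TU (QS Ur Sq Od)

/-- [QTB-F8f] PROOF. `Sq v Q.e`: `d y² ≡ 1 mod 4 𝔪`, so `d` is a square in `K_v`: for `v` odd `PID.sq_of_one`, for `v = vla` `sq_of_close` (F2). `v.asIdeal = span {eG la}` or `v(2) = 1` (`PI.gen_cases`, `PID.not_dvd_two`). -/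
theorem isSquare_of_Sq (v : HeightOneSpectrum (𝓞 KI)) {d : KI} (h : Sq v d) :
    IsSquare (algebraMap KI (v.adicCompletion KI) d) := by
  obtain ⟨y, hy, h1⟩ := h
  have hv : ∀ x : KI, (Valued.v (algebraMap KI (v.adicCompletion KI) x) :
      WithZero (Multiplicative ℤ)) = v.valuation KI x :=
    fun x => HeightOneSpectrum.valuedAdicCompletion_eq_valuation' v x
  have h2 : IsSquare (algebraMap KI (v.adicCompletion KI) (d * y ^ 2)) := by
    apply sq_of_close v
    have e1 : algebraMap KI (v.adicCompletion KI) (d * y ^ 2) - 1 =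
        algebraMap KI (v.adicCompletion KI) (d * y ^ 2 - 1) := by
      rw [map_sub, map_one]
    have e2 : (4 : v.adicCompletion KI) = algebraMap KI (v.adicCompletion KI) 4 :=
      (map_ofNat (algebraMap KI (v.adicCompletion KI)) 4).symm
    rw [e1, e2, hv, hv]
    exact h1
  obtain ⟨r, hr⟩ := h2
  have hy' : algebraMap KI (v.adicCompletion KI) y ≠ 0 := (map_ne_zero _).2 hy
  refine ⟨r / algebraMap KI (v.adicCompletion KI) y, ?_⟩
  rw [map_mul, map_pow] at hr
  rw [div_mul_div_comm, ← hr, eq_div_iff (mul_ne_zero hy' hy')]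
  ring

end QTC
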