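import Pool.Agent.QTB.F0
import Pool.Agent.QTF.Up

/-!
# [QTB-F8a] the splitting of the places of `ℚ(i)` in `F`
-/

set_option autoImplicit false

open NumberField IsDedekindDomain
open scoped Classical

namespace QTC

open PI (Gi sy ii la Prim emK eG KI la_prime pl)
open QT (st Dd Adm bD gD Good)
open QTD (LocB cl vla)
open TU (QS Ur Sq Od)

theorem f8a_four {v : HeightOneSpectrum (𝓞 KI)} {p : Gi} (hp : Prime p) (hP : Prim p) (hv : v.asIdeal = Ideal.span {eG p}) :
    v.valuation KI 4 = 1 := by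
  have h1 : v.valuation KI (emK 4) = 1 := by
    rw [PID.val_eq_one_iff hv]
    intro h
    have h2 : (4 : Gi) = 2 ^ 2 := by norm_num
    rw [h2] at h
    exact PID.not_dvd_two hp hP (hp.dvd_of_dvd_pow h)
  rwa [map_ofNat] at h1

/-- [QTB-F8a] PROOF. `TU.Sq v d = ∃ y ≠ 0, v(d y² - 1) < v(4) = 1`. ⇐: `p ∣ y² - g` (`PI.sy_eq_zero_iff`), take `1 / y`. ⇒: `v(y) = 1`; `y ≡ y0 ∈ ℤ[i]` modulo `p` (`y = emK a / emK b`, `p ∤ b`, or `QTD.sy_of_near` with the completion); `g y0² ≡ 1`, so `sy g p = sy (g y0²) p = 0`. -/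
theorem Sq_iff {v : HeightOneSpectrum (𝓞 KI)} {p : Gi} (hp : Prime p) (hP : Prim p) (hv : v.asIdeal = Ideal.span {eG p})
    {g : Gi} (hg : ¬ p ∣ g) : Sq v (emK g) ↔ sy g p = 0 := by
  have h4 := f8a_four hp hP hv
  have hvg : v.valuation KI (emK g) = 1 := (PID.val_eq_one_iff hv g).2 hg
  constructor
  · rintro ⟨y, hy, hlt⟩
    rw [h4] at hlt
    have hval : ∀ y : KI, Valued.v (algebraMap KI (v.adicCompletion KI) y) = v.valuation KI y :=
      fun y => HeightOneSpectrum.valuedAdicCompletion_eq_valuation' v y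
    have h1 : v.valuation KI (emK g * y ^ 2) = 1 := by
      have h2 : emK g * y ^ 2 = (emK g * y ^ 2 - 1) + 1 := by ring
      rw [h2, Valuation.map_add_eq_of_lt_right _ (by rw [map_one]; exact hlt), map_one]
    have h2 : v.valuation KI y ^ 2 = 1 := by
      rw [map_mul, map_pow, hvg, one_mul] at h1
      exact h1
    have h3 : v.valuation KI y = 1 := by
      rcases lt_trichotomy (v.valuation KI y) 1 with h | h | h
      · exact absurd h2 (pow_lt_one₀ zero_le h two_ne_zero).ne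
      · exact h
      · exact absurd h2 (one_lt_pow₀ h two_ne_zero).ne'
    refine QTD.sy_of_near hv (s := algebraMap KI (v.adicCompletion KI) y⁻¹) ?_ ?_
    · rw [hval, map_inv₀, h3, inv_one]
    · rw [← map_pow, ← map_sub, hval]
      have h5 : y⁻¹ ^ 2 - emK g = -(emK g * y ^ 2 - 1) * y⁻¹ ^ 2 := by
        field_simp
        ring
      rw [h5, map_mul, map_pow, Valuation.map_neg, map_inv₀, h3, inv_one, one_pow, mul_one]
      exact hlt
  · intro h
    obtain ⟨y, hy⟩ := (PI.sy_eq_zero_iff g p).1 h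
    have hpy : ¬ p ∣ y := by
      intro h1
      apply hg
      have h2 : g = y ^ 2 - (y ^ 2 - g) := by ring
      rw [h2]
      exact dvd_sub (h1.trans (dvd_pow_self y two_ne_zero)) hy
    have hy0 : y ≠ 0 := fun h1 => hpy (by rw [h1]; exact dvd_zero p)
    have hey : emK y ≠ 0 := PID.emK_ne hy0
    have hvy : v.valuation KI (emK y) = 1 := (PID.val_eq_one_iff hv y).2 hpy
    refine ⟨(emK y)⁻¹, inv_ne_zero hey, ?_⟩
    rw [h4]
    have h5 : emK g * (emK y)⁻¹ ^ 2 - 1 = -emK (y ^ 2 - g) * (emK y)⁻¹ ^ 2 := by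
      rw [map_sub, map_pow]
      field_simp
      ring
    rw [h5, map_mul, map_pow, Valuation.map_neg, map_inv₀, hvy, inv_one, one_pow, mul_one]
    exact (PID.val_lt_one_iff hv _).2 hy

section
variable {T : Finset Gi} (hT : ∀ q ∈ T, Prime q ∧ Prim q) (h0 : cl (mT T) 0 0)
include hT

/-- [QTB-F8b] PROOF. `y = 1`: `la⁵ ∣ m - 1` (`QTD.la5_dvd`, `omega`), `v(4) = exp (-4)`. -/
theorem Sq_la (h0 : cl (mT T) 0 0) : Sq vla (emK (mT T)) := by
  refine ⟨1, one_ne_zero, ?_⟩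
  have h4 : vla.valuation KI 4 = WithZero.exp (-4) := by
    have e : (4 : KI) = 2 * 2 := by norm_num
    rw [e, map_mul, QTD.vla_two, ← WithZero.exp_add]
    norm_num
  have h5 : la ^ 5 ∣ mT T - 1 := by
    rw [QTD.la5_dvd]
    obtain ⟨h1, h2, h3⟩ := h0
    have h6 : ((mT T).re + (mT T).im) % 8 = 1 := by
      rcases h3 with h3 | h3 | h3 | h3
      · exact h3.2.2
      · exact absurd h3.2.1 (by decide)
      · exact absurd h3.1 (by decide)
      · exact absurd h3.1 (by decide)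
    simp only [Zsqrtd.re_sub, Zsqrtd.im_sub, Zsqrtd.re_one, Zsqrtd.im_one]
    omega
  rw [one_pow, mul_one, QTD.emK_sub_one, h4]
  refine lt_of_le_of_lt (QTD.vla_le _ 5 (-5) (by norm_num) h5) ?_
  rw [WithZero.exp_lt_exp]
  norm_num

end

theorem f8a_st_dvd {p q : Gi} (_ : Prime p) : p ∣ st q ↔ p ∣ q := by
  unfold st
  split_ifs
  · exact Iff.rfl
  · exact dvd_neg

theorem f8a_prime_st {q : Gi} (hq : Prime q) : st q ≠ 0 := by
  unfold st
  split_ifs
  · exact hq.ne_zero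
  · exact neg_ne_zero.2 hq.ne_zero

theorem f8a_span {b q : Gi} (hb : Prime b) (hq : Prime q) (h : b ∣ q) :
    (Ideal.span {eG b} : Ideal (𝓞 KI)) = Ideal.span {eG q} :=
  PI.s1_span (hb.associated_of_dvd hq h)

section
variable {T : Finset Gi} (hT : ∀ q ∈ T, Prime q ∧ Prim q) (h0 : cl (mT T) 0 0)
include hT

theorem f8a_mT_ne : mT T ≠ 0 := by
  unfold mT
  exact Finset.prod_ne_zero_iff.2 fun q hq => f8a_prime_st (hT q hq).1

/-- [QTB-F8c] PROOF. `v = vla`: `(Sq_la).ur` (`TU.Sq.ur`). Otherwise `v(2) = 1`, `v(m) = 1` (`m = ± ∏ q`, `v.asIdeal ≠ span {eG q}`; `PI.gen_cases`), `TU.ur_iff_val`. -/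
theorem Ur_of (h0 : cl (mT T) 0 0) (v : HeightOneSpectrum (𝓞 KI)) (h : ∀ q ∈ T, v.asIdeal ≠ Ideal.span {eG q}) : Ur v (emK (mT T)) := by
  rcases PI.gen_cases (v := v) with hv | ⟨b, hb, hB, hv⟩
  · have h1 : v = vla := HeightOneSpectrum.ext hv
    rw [h1]
    exact (Sq_la hT h0).ur
  · have h2 : (2 : 𝓞 KI) ∉ v.asIdeal := by
      have h3 : (2 : 𝓞 KI) = eG 2 := by rw [map_ofNat]
      rw [h3, PI.mem_iff hv]
      exact PID.not_dvd_two hb hB
    rw [TU.ur_iff_val h2 (PID.emK_ne (f8a_mT_ne hT))]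
    have h3 : v.valuation KI (emK (mT T)) = 1 := by
      rw [PID.val_eq_one_iff hv]
      intro h4
      obtain ⟨q, hq, h5⟩ := (hb.dvd_finsetProd_iff _).1 h4
      apply h q hq
      rw [hv]
      exact f8a_span hb (hT q hq).1 ((f8a_st_dvd hb).1 h5)
    rw [h3]
    exact ⟨1, by rw [one_mul]⟩

end

section
variable {T : Finset Gi} (hT : ∀ q ∈ T, Prime q ∧ Prim q) (h0 : cl (mT T) 0 0)
include hT

/-- [QTB-F8d] PROOF. `m = q m'`, `q ∤ m'` (the primes of `T` are distinct primary primes). `TU.Od`: `x = 1`, `a = eG m`. -/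
theorem Od_of {q : Gi} (hq : q ∈ T) {v : HeightOneSpectrum (𝓞 KI)} (hv : v.asIdeal = Ideal.span {eG q}) :
    Od v (emK (mT T)) := by
  have hqp := (hT q hq).1
  have h1 : mT T = st q * ∏ l ∈ T.erase q, st l := by
    unfold mT
    rw [Finset.mul_prod_erase T st hq]
  refine ⟨1, eG (mT T), one_ne_zero, ?_, ?_, ?_⟩
  · rw [one_pow, one_mul]
    rfl
  · rw [PI.mem_iff hv, h1]
    exact ((f8a_st_dvd hqp).2 dvd_rfl).mul_right _
  · intro h2
    rw [hv, Ideal.span_singleton_pow, Ideal.mem_span_singleton, ← map_pow, PI.s1_dvd, h1] at h2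
    obtain ⟨e, he, h3⟩ := QTD.st_eq q
    have h4 : q ∣ ∏ l ∈ T.erase q, st l := by
      obtain ⟨c, hc⟩ := h2
      refine ⟨e * c, ?_⟩
      have hee : e * e = 1 := by
        rcases he with he | he
        · rw [he, one_mul]
        · rw [he]
          ring
      rw [h3] at hc
      apply mul_left_cancel₀ hqp.ne_zero
      calc q * ∏ l ∈ T.erase q, st l = (e * e) * (q * ∏ l ∈ T.erase q, st l) := by rw [hee, one_mul]
        _ = e * (e * q * ∏ l ∈ T.erase q, st l) := by ring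
        _ = e * (q ^ 2 * c) := by rw [hc]
        _ = q * (q * (e * c)) := by ring
    obtain ⟨l, hl, h5⟩ := (hqp.dvd_finsetProd_iff _).1 h4
    obtain ⟨hlq, hlT⟩ := Finset.mem_erase.1 hl
    apply hlq
    exact (PI.prim_unique (hT q hq).2 (hT l hlT).2
      (hqp.associated_of_dvd (hT l hlT).1 ((f8a_st_dvd hqp).1 h5))).symm

end

end QTC
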