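import Pool.Agent.QTB.F8f
import Pool.Agent.QTB.F8e
import Pool.Agent.QTB.SI
import Pool.Agent.QTB.F8a
import Pool.Agent.MP_9ab903_nt.SB.CO

/-!
# [QTB-F8g] transfer of the local conditions
-/

set_option autoImplicit false

open NumberField IsDedekindDomain
open scoped Classical

namespace QTC

open PI (Gi sy ii la Prim emK eG KI la_prime pl)
open QT (st Dd Adm bD gD Good)
open QTD (LocB cl vla)
open TU (QS Ur Sq Od)

section
variable {s t : ℕ} {S : Finset Gi} {a : Gi → ℕ} {T : Finset Gi} {F : Type} [Field F] [NumberField F] [Algebra KI F]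
  (X : Dat s t S a T F)
include X

/-- [QTB-F8g] PROOF. `QS.split v`: there is `w` over `v`; `split_hom` (SI), `locB_map'`. -/
theorem Dat.down {c : KI} (h : InA (emK (Dd s t S a)) F c) (v : HeightOneSpectrum (𝓞 KI)) (hv : Sq v X.Q.e) :
    LocB (emK (Dd s t S a)) c (v.adicCompletion KI) := by
  obtain ⟨P, P', hne, hu, h1, h2, h3, h4⟩ := X.Q.split v hv
  have hw : P.asIdeal.comap (algebraMap (𝓞 KI) (𝓞 F)) = v.asIdeal := by
    exact ((hu P).2 (Or.inl rfl))
  obtain ⟨f, hf⟩ := split_hom X.Q v (isSquare_of_Sq v hv) P hw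
  exact locB_map' f hf (h P)

end

section
variable {s t : ℕ} {S : Finset Gi} {a : Gi → ℕ} {T : Finset Gi} {F : Type} [Field F] [NumberField F] [Algebra KI F]
  (X : Dat s t S a T F)
include X

/-- [QTB-F8h] PROOF. `CM27.exists_below KI F w` (`φ : K_v → F_w`), `locB_map`. -/
theorem Dat.up {c : KI} (w : HeightOneSpectrum (𝓞 F)) (v : HeightOneSpectrum (𝓞 KI))
    (hw : w.asIdeal.comap (algebraMap (𝓞 KI) (𝓞 F)) = v.asIdeal) (h : LocB (emK (Dd s t S a)) c (v.adicCompletion KI)) :
    LocB (algebraMap KI F (emK (Dd s t S a))) (algebraMap KI F c) (w.adicCompletion F) := by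
  obtain ⟨v', hv', φ, hφ⟩ := CM27.exists_below KI F w
  have hvv : v' = v := by
    apply HeightOneSpectrum.ext
    rw [hv', ← hw]
  subst hvv
  exact locB_map φ hφ h

end

end QTC
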