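import Pool.Agent.QTB.F8a
import Pool.Agent.QTB.F8e
import Pool.Agent.QTB.F8f
import Pool.Agent.QTB.F8g
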