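import Pool.Agent.QTB.F9a
import Pool.Agent.MP_9ab903_nt.SB.CO

/-!
# [QTB-F9c] fourth powers at inert places
-/

set_option autoImplicit false

open NumberField IsDedekindDomain
open scoped Classical

namespace QTC

open PI (Gi sy ii la Prim emK eG KI la_prime pl)
open QT (st Dd Adm bD gD Good)
open QTD (LocB cl vla)
open TU (QS Ur Sq Od)

theorem F9c_norm_mod {p : Gi} (hP : Prim p) : p.norm.natAbs % 4 = 1 := by
  rw [PI.qr_prim_iff] at hP
  obtain ⟨h1, h2⟩ := hP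
  obtain ⟨y, hy⟩ : ∃ y, p.im = 2 * y := ⟨p.im / 2, by omega⟩
  obtain ⟨x, hx⟩ : ∃ x, p.re = 2 * x + 1 := ⟨p.re / 2, by omega⟩
  have h3 : p.norm = 4 * (x ^ 2 + x + y ^ 2) + 1 := by
    rw [Zsqrtd.norm_def, hy, hx]
    ring
  have h4 : 0 ≤ p.norm := Zsqrtd.norm_nonneg (by norm_num) p
  omega

section
variable {F : Type} [Field F] [NumberField F] [Algebra KI F] {v : HeightOneSpectrum (𝓞 KI)} {p : Gi} (hp : Prime p) (hP : Prim p)
  (hv : v.asIdeal = Ideal.span {eG p}) {w : HeightOneSpectrum (𝓞 F)}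
  (hw : w.asIdeal.comap (algebraMap (𝓞 KI) (𝓞 F)) = v.asIdeal)
  (hn : Ideal.absNorm w.asIdeal = Ideal.absNorm v.asIdeal ^ 2)
include hp hP hv hw hn

/-- a fourth power in the residue field is a square in the small one -/
theorem F9c_res {g : Gi} {r : 𝓞 F} (h : r ^ 4 - algebraMap (𝓞 KI) (𝓞 F) (eG g) ∈ w.asIdeal) : sy g p = 0 := by
  have hfv : Finite (𝓞 KI ⧸ v.asIdeal) := Ideal.finiteQuotientOfFreeOfNeBot v.asIdeal v.ne_bot
  have hfw : Finite (𝓞 F ⧸ w.asIdeal) := Ideal.finiteQuotientOfFreeOfNeBot w.asIdeal w.ne_bot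
  let : Fintype (𝓞 KI ⧸ v.asIdeal) := Fintype.ofFinite _
  let : Fintype (𝓞 F ⧸ w.asIdeal) := Fintype.ofFinite _
  let : Field (𝓞 KI ⧸ v.asIdeal) := Ideal.Quotient.field v.asIdeal
  let : Field (𝓞 F ⧸ w.asIdeal) := Ideal.Quotient.field w.asIdeal
  obtain ⟨φ, hφ⟩ : ∃ φ : (𝓞 KI ⧸ v.asIdeal) →+* (𝓞 F ⧸ w.asIdeal), ∀ x : 𝓞 KI,
      φ (Ideal.Quotient.mk _ x) = Ideal.Quotient.mk _ (algebraMap (𝓞 KI) (𝓞 F) x) :=
    ⟨Ideal.quotientMap w.asIdeal (algebraMap (𝓞 KI) (𝓞 F)) hw.ge, fun x => Ideal.quotientMap_mk⟩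
  have hcv : Fintype.card (𝓞 KI ⧸ v.asIdeal) = p.norm.natAbs := by
    rw [← Nat.card_eq_fintype_card, PI.card_quot hv]
  have hcv' : Fintype.card (𝓞 KI ⧸ v.asIdeal) = Ideal.absNorm v.asIdeal := by
    rw [← Nat.card_eq_fintype_card, Ideal.absNorm_apply, Submodule.cardQuot_apply]
  have hcw : Fintype.card (𝓞 F ⧸ w.asIdeal) = Ideal.absNorm w.asIdeal := by
    rw [← Nat.card_eq_fintype_card, Ideal.absNorm_apply, Submodule.cardQuot_apply]
  have h1 : IsSquare (Ideal.Quotient.mk v.asIdeal (eG g)) := by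
    refine fourth_power φ ?_ ?_ ?_ (u := Ideal.Quotient.mk w.asIdeal r) ?_
    · intro h2
      have h3 : Ideal.Quotient.mk v.asIdeal (eG 2) = 0 := by
        rw [map_ofNat, map_ofNat]
        exact h2
      rw [Ideal.Quotient.eq_zero_iff_mem, PI.mem_iff hv] at h3
      exact PID.not_dvd_two hp hP h3
    · rw [hcv', hcw, hn]
    · rw [hcv]
      exact F9c_norm_mod hP
    · rw [hφ, ← map_pow, eq_comm, Ideal.Quotient.eq]
      exact h
  obtain ⟨y, hy⟩ := h1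
  obtain ⟨y', rfl⟩ := Ideal.Quotient.mk_surjective y
  obtain ⟨z, rfl⟩ := eG.surjective y'
  rw [PI.sy_eq_zero_iff]
  refine ⟨z, ?_⟩
  rw [← PI.mem_iff hv, map_sub, map_pow, ← Ideal.Quotient.eq, hy, map_pow, pow_two]

/-- [QTB-F9c] PROOF. `u ≡ u0 ∈ 𝓞 F` (`CM27.c3_approx F w`), so `u0⁴ = g` in `𝓞 F ⧸ w`; `k = 𝓞 KI ⧸ v`, `k' = 𝓞 F ⧸ w`, `φ` the induced map, `N p ≡ 1 mod 4` (`p` primary: `qr_prim_iff`, `absNorm = norm p`), `fourth_power`; a square in `k`: `p ∣ y² - g`. -/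
theorem sy_of_fourth {g : Gi} {u : w.adicCompletion F} (hu : Valued.v u ≤ (1 : WithZero (Multiplicative ℤ)))
    (h : Valued.v (u ^ 4 - algebraMap F (w.adicCompletion F) (algebraMap KI F (emK g))) < (1 : WithZero (Multiplicative ℤ))) :
    sy g p = 0 := by
  obtain ⟨r, hr⟩ := CM27.c3_approx F w ⟨u, hu⟩
  have hr' : Valued.v (u - algebraMap F (w.adicCompletion F) (r : F)) < (1 : WithZero (Multiplicative ℤ)) := hr
  have hr1 : Valued.v (algebraMap F (w.adicCompletion F) (r : F)) ≤ (1 : WithZero (Multiplicative ℤ)) := by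
    rw [QTD.d13_val]
    exact HeightOneSpectrum.valuation_le_one w r
  refine F9c_res hp hP hv hw hn (r := r) ?_
  rw [← TU.q3_mem, ← QTD.d13_val]
  have e : algebraMap F (w.adicCompletion F) (((r ^ 4 - algebraMap (𝓞 KI) (𝓞 F) (eG g) : 𝓞 F) : F)) =
      (u ^ 4 - algebraMap F (w.adicCompletion F) (algebraMap KI F (emK g))) -
        (u - algebraMap F (w.adicCompletion F) (r : F)) * (u ^ 3 + u ^ 2 * algebraMap F (w.adicCompletion F) (r : F) +
          u * algebraMap F (w.adicCompletion F) (r : F) ^ 2 + algebraMap F (w.adicCompletion F) (r : F) ^ 3) := by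
    have e1 : (((r ^ 4 - algebraMap (𝓞 KI) (𝓞 F) (eG g) : 𝓞 F) : F)) = (r : F) ^ 4 - algebraMap KI F (emK g) := rfl
    rw [e1, map_sub, map_pow]
    ring
  rw [e]
  refine lt_of_le_of_lt (Valuation.map_sub _ _ _) (max_lt h ?_)
  rw [map_mul]
  refine lt_of_le_of_lt (mul_le_mul_right ?_ _) (lt_of_eq_of_lt (mul_one _) hr')
  have h3 : Valued.v u ^ 3 ≤ (1 : WithZero (Multiplicative ℤ)) := pow_le_one₀ zero_le hu
  have h2 : Valued.v u ^ 2 ≤ (1 : WithZero (Multiplicative ℤ)) := pow_le_one₀ zero_le hu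
  have h3' : Valued.v (algebraMap F (w.adicCompletion F) (r : F)) ^ 3 ≤ (1 : WithZero (Multiplicative ℤ)) := pow_le_one₀ zero_le hr1
  have h2' : Valued.v (algebraMap F (w.adicCompletion F) (r : F)) ^ 2 ≤ (1 : WithZero (Multiplicative ℤ)) := pow_le_one₀ zero_le hr1
  refine Valuation.map_add_le _ (Valuation.map_add_le _ (Valuation.map_add_le _ ?_ ?_) ?_) ?_
  · rw [map_pow]; exact h3
  · rw [map_mul, map_pow]; exact mul_le_one' h2 hr1
  · rw [map_mul, map_pow]; exact mul_le_one' hu h2'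
  · rw [map_pow]; exact h3'

end

end QTC
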