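import Pool.Agent.QTB.F9a
import Pool.Agent.QTB.F8a
import Pool.Agent.MP_9ab903_nt.SB.CO

/-!
# [QTB-F9d] elements of even valuation are squares at inert places
-/

set_option autoImplicit false

open NumberField IsDedekindDomain
open scoped Classical

namespace QTC

open PI (Gi sy ii la Prim emK eG KI la_prime pl)
open QT (st Dd Adm bD gD Good)
open QTD (LocB cl vla)
open TU (QS Ur Sq Od)

/-- an element of even valuation is a unit up to squares -/
theorem F9d_unit {v : HeightOneSpectrum (𝓞 KI)} {p : Gi} (hp : Prime p) (hv : v.asIdeal = Ideal.span {eG p})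
    {c : KI} (hc : c ≠ 0) (he : ∃ g : WithZero (Multiplicative ℤ), v.valuation KI c = g ^ 2) :
    ∃ (g : Gi) (r : KI), r ≠ 0 ∧ eG g ∉ v.asIdeal ∧ c = emK g * r ^ 2 := by
  obtain ⟨γ, hγ⟩ := he
  obtain ⟨n, hn⟩ := PID.d13a_exists (v.valuation KI) hc
  have hγ0 : γ ≠ 0 := by
    rintro rfl
    rw [hn, zero_pow two_ne_zero] at hγ
    exact WithZero.exp_ne_zero hγ
  obtain ⟨m, hm⟩ : ∃ m : ℤ, γ = WithZero.exp m := ⟨WithZero.log γ, (WithZero.exp_log hγ0).symm⟩
  have hp0 : emK p ≠ 0 := PID.emK_ne hp.ne_zero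
  have hz0 : emK p ^ m ≠ 0 := zpow_ne_zero _ hp0
  have h1 : v.valuation KI (c * (emK p ^ m) ^ 2) = 1 := by
    rw [map_mul, map_pow, map_zpow₀, PID.val_self hv, hγ, hm, ← mul_pow, ← WithZero.exp_zsmul, ← WithZero.exp_add]
    simp
  obtain ⟨a, b, hb, hab⟩ := TU.exists_frac v h1.le
  have hb0 : (b : KI) ≠ 0 := by
    intro h0
    apply hb
    have h2 : b = 0 := by exact_mod_cast h0
    rw [h2]
    exact v.asIdeal.zero_mem
  have ha : a ∉ v.asIdeal := by
    rw [← TU.q3_one, ← hab, map_mul, h1, (TU.q3_one b).2 hb, mul_one]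
  refine ⟨eG.symm (a * b), ((b : KI) * emK p ^ m)⁻¹, inv_ne_zero (mul_ne_zero hb0 hz0), ?_, ?_⟩
  · rw [RingEquiv.apply_symm_apply]
    intro h2
    rcases v.isPrime.mem_or_mem h2 with h3 | h3
    · exact ha h3
    · exact hb h3
  · have e : emK (eG.symm (a * b)) = (a : KI) * (b : KI) := by
      rw [← PID.coe_eG, RingEquiv.apply_symm_apply]
      rfl
    rw [e, ← hab]
    field_simp

section
variable {F : Type} [Field F] [NumberField F] [Algebra KI F] {v : HeightOneSpectrum (𝓞 KI)} {p : Gi} (hp : Prime p) (hP : Prim p)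
  (hv : v.asIdeal = Ideal.span {eG p}) {w : HeightOneSpectrum (𝓞 F)}
  (hw : w.asIdeal.comap (algebraMap (𝓞 KI) (𝓞 F)) = v.asIdeal)
  (hn : Ideal.absNorm w.asIdeal = Ideal.absNorm v.asIdeal ^ 2)
include hp hP hv hw hn

theorem F9d_res (g : Gi) : ∃ r : 𝓞 F, r ^ 2 - algebraMap (𝓞 KI) (𝓞 F) (eG g) ∈ w.asIdeal := by
  have hfv : Finite (𝓞 KI ⧸ v.asIdeal) := Ideal.finiteQuotientOfFreeOfNeBot v.asIdeal v.ne_bot
  have hfw : Finite (𝓞 F ⧸ w.asIdeal) := Ideal.finiteQuotientOfFreeOfNeBot w.asIdeal w.ne_bot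
  let : Fintype (𝓞 KI ⧸ v.asIdeal) := Fintype.ofFinite _
  let : Fintype (𝓞 F ⧸ w.asIdeal) := Fintype.ofFinite _
  let : Field (𝓞 KI ⧸ v.asIdeal) := Ideal.Quotient.field v.asIdeal
  let : Field (𝓞 F ⧸ w.asIdeal) := Ideal.Quotient.field w.asIdeal
  obtain ⟨φ, hφ⟩ : ∃ φ : (𝓞 KI ⧸ v.asIdeal) →+* (𝓞 F ⧸ w.asIdeal), ∀ x : 𝓞 KI,
      φ (Ideal.Quotient.mk _ x) = Ideal.Quotient.mk _ (algebraMap (𝓞 KI) (𝓞 F) x) :=
    ⟨Ideal.quotientMap w.asIdeal (algebraMap (𝓞 KI) (𝓞 F)) hw.ge, fun x => Ideal.quotientMap_mk⟩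
  have hcv' : Fintype.card (𝓞 KI ⧸ v.asIdeal) = Ideal.absNorm v.asIdeal := by
    rw [← Nat.card_eq_fintype_card, Ideal.absNorm_apply, Submodule.cardQuot_apply]
  have hcw : Fintype.card (𝓞 F ⧸ w.asIdeal) = Ideal.absNorm w.asIdeal := by
    rw [← Nat.card_eq_fintype_card, Ideal.absNorm_apply, Submodule.cardQuot_apply]
  obtain ⟨y, hy⟩ := square_up φ (by
    intro h2
    have h3 : Ideal.Quotient.mk v.asIdeal (eG 2) = 0 := by
      rw [map_ofNat, map_ofNat]
      exact h2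
    rw [Ideal.Quotient.eq_zero_iff_mem, PI.mem_iff hv] at h3
    exact PID.not_dvd_two hp hP h3) (by rw [hcv', hcw, hn]) (Ideal.Quotient.mk v.asIdeal (eG g))
  obtain ⟨r, rfl⟩ := Ideal.Quotient.mk_surjective y
  refine ⟨r, ?_⟩
  rw [← Ideal.Quotient.eq, map_pow, pow_two, ← hy, hφ]

/-- [QTB-F9d] elements of even valuation become squares. `hval`: `w` is unramified over `v` (`TU.QS.inert`). PROOF. `c = emK g · r²` with `p ∤ g` (`PID.exists_gi`, even power of `p`); `g` is a square in `𝓞 F ⧸ w` (`square_up`): `u0² ≡ g`; `g / u0² ≡ 1`, `PID.sq_of_one F w`. -/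
theorem square_inert (hval : ∀ x : KI, w.valuation F (algebraMap KI F x) = v.valuation KI x) {c : KI} (hc : c ≠ 0)
    (he : ∃ g : WithZero (Multiplicative ℤ), v.valuation KI c = g ^ 2) :
    IsSquare (algebraMap F (w.adicCompletion F) (algebraMap KI F c)) := by
  obtain ⟨g, r, hr, hg, rfl⟩ := F9d_unit hp hv hc he
  obtain ⟨u, hu⟩ := F9d_res hp hP hv hw hn g
  have hgw : algebraMap (𝓞 KI) (𝓞 F) (eG g) ∉ w.asIdeal := by
    rw [← hw] at hg
    exact hg
  have huw : u ∉ w.asIdeal := by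
    intro h1
    apply hgw
    have h2 : u ^ 2 ∈ w.asIdeal := Ideal.pow_mem_of_mem _ h1 2 (by norm_num)
    have e : algebraMap (𝓞 KI) (𝓞 F) (eG g) = u ^ 2 - (u ^ 2 - algebraMap (𝓞 KI) (𝓞 F) (eG g)) := by ring
    rw [e]
    exact w.asIdeal.sub_mem h2 hu
  have h2w : w.valuation F 2 = 1 := by
    have h1 := hval 2
    have h2 := (PID.val_eq_one_iff hv 2).2 (PID.not_dvd_two hp hP)
    rw [map_ofNat] at h1 h2
    rw [h1, h2]
  have hu1 : Valued.v (algebraMap F (w.adicCompletion F) (u : F)) = (1 : WithZero (Multiplicative ℤ)) := by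
    rw [QTD.d13_val]
    exact (TU.q3_one u).2 huw
  have hu0 : algebraMap F (w.adicCompletion F) (u : F) ≠ 0 := by
    intro h0
    rw [h0, map_zero] at hu1
    exact zero_ne_one hu1
  have h3 : Valued.v (algebraMap F (w.adicCompletion F) (algebraMap KI F (emK g)) /
      algebraMap F (w.adicCompletion F) (u : F) ^ 2 - 1) < (1 : WithZero (Multiplicative ℤ)) := by
    have e : algebraMap F (w.adicCompletion F) (algebraMap KI F (emK g)) /
      algebraMap F (w.adicCompletion F) (u : F) ^ 2 - 1 =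
      -(algebraMap F (w.adicCompletion F) ((u ^ 2 - algebraMap (𝓞 KI) (𝓞 F) (eG g) : 𝓞 F) : F)) /
        algebraMap F (w.adicCompletion F) (u : F) ^ 2 := by
      have e1 : (((u ^ 2 - algebraMap (𝓞 KI) (𝓞 F) (eG g) : 𝓞 F) : F)) = (u : F) ^ 2 - algebraMap KI F (emK g) := rfl
      rw [e1, map_sub, map_pow]
      field_simp
      ring
    rw [e, map_div₀, Valuation.map_neg, map_pow, hu1, one_pow, div_one, QTD.d13_val]
    exact (TU.q3_mem _).2 hu
  obtain ⟨y, hy⟩ := PID.sq_of_one w h2w _ h3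
  refine ⟨y * algebraMap F (w.adicCompletion F) (u : F) * algebraMap F (w.adicCompletion F) (algebraMap KI F r), ?_⟩
  rw [div_eq_iff (pow_ne_zero 2 hu0)] at hy
  rw [map_mul, map_mul, hy, map_pow, map_pow]
  ring

end

end QTC
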