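import Pool.Agent.QTB.F9c

/-!
# [QTB-F9e] the local image at inert places, `a p = 2`
-/

set_option autoImplicit false

open NumberField IsDedekindDomain
open scoped Classical

namespace QTC

open PI (Gi sy ii la Prim emK eG KI la_prime pl)
open QT (st Dd Adm bD gD Good)
open QTD (LocB cl vla)
open TU (QS Ur Sq Od)

section
variable {F : Type} [Field F] [NumberField F] [Algebra KI F] {v : HeightOneSpectrum (𝓞 KI)} {p : Gi} (hp : Prime p) (hP : Prim p)
  (hv : v.asIdeal = Ideal.span {eG p}) {w : HeightOneSpectrum (𝓞 F)}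
  (hw : w.asIdeal.comap (algebraMap (𝓞 KI) (𝓞 F)) = v.asIdeal)
  (hn : Ideal.absNorm w.asIdeal = Ideal.absNorm v.asIdeal ^ 2)
include hp hP hv hw hn

/-- [QTB-F9e] `D = p² D'`, `sy D' p = 1`: the local image has even valuations on `K*`. PROOF. First two alternatives of `LocB`: valuations. `c X` a square, `Y² = X³ - D X`, `X ≠ 0`. Suppose that `w(c)` (additive) is odd; then `w(X)` is odd. `w(X) ≤ -1`: `w(Y²) = 3 w(X)`; `w(X) ≥ 3`: `w(Y²) = 2 + w(X)`; both odd, contradiction (compare `QTD.val_x_sq_two`). So
`w(X) = 1`, `X = p x'`, `Y² = p³ x' (x'² - D')`, so `w(x'² - D') ≥ 1`. `c = p^(2k+1) c'` with `c' = emK g · r²`, `p ∤ g` (`r` a unit at `v`: absorb). `c X` a square gives `g x' = u²`, `u` a unit; `(g x')² ≡ g² D'`, so `u⁴ ≡ g² D'`, `sy (g² D') p = 0` by `sy_of_fourth`, but it is `sy D' p = 1`. -/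
theorem val_even_inert (hval : ∀ x : KI, w.valuation F (algebraMap KI F x) = v.valuation KI x) {D' : Gi} (hD' : ¬ p ∣ D')
    (hs : sy D' p ≠ 0) {c : KI} (hc : c ≠ 0)
    (h : LocB (algebraMap KI F (emK (p ^ 2 * D'))) (algebraMap KI F c) (w.adicCompletion F)) :
    ∃ g : WithZero (Multiplicative ℤ), v.valuation KI c = g ^ 2 := by
  set J : KI →+* w.adicCompletion F := (algebraMap F (w.adicCompletion F)).comp (algebraMap KI F) with hJ
  have hJv : ∀ x : KI, Valued.v (J x) = v.valuation KI x := by
    intro x
    rw [← hval x]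
    exact HeightOneSpectrum.valuedAdicCompletion_eq_valuation' w _
  have hπ : Valued.v (J (emK p)) = (WithZero.exp (-1) : WithZero (Multiplicative ℤ)) := by
    rw [hJv]
    exact PID.val_self hv
  have hd' : Valued.v (J (emK D')) = (1 : WithZero (Multiplicative ℤ)) := by
    rw [hJv]
    exact (PID.val_eq_one_iff hv D').2 hD'
  have hDval : Valued.v (J (emK (p ^ 2 * D'))) = (WithZero.exp (-2) : WithZero (Multiplicative ℤ)) := by
    rw [map_mul, map_mul, map_mul, map_pow, map_pow, map_pow, hπ, hd', mul_one, PID.d13a_pow]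
    norm_num
  have hv0 : v.valuation KI c ≠ 0 := (Valuation.ne_zero_iff _).2 hc
  obtain ⟨m, hm⟩ := PID.d13a_exists (v.valuation KI) hc
  by_cases hev : ∃ k : ℤ, m = 2 * k
  · rw [hm]
    exact QTD.d12_even hev
  exfalso
  have hmodd : m % 2 = 1 := by
    by_contra h0
    exact hev ⟨m / 2, by omega⟩
  have hJc : Valued.v (J c) = (WithZero.exp m : WithZero (Multiplicative ℤ)) := by rw [hJv, hm]
  have sqval : ∀ {z : w.adicCompletion F} {n : ℤ}, Valued.v z = (WithZero.exp n : WithZero (Multiplicative ℤ)) →
      IsSquare z → n % 2 = 0 := by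
    rintro z n hz ⟨r, hr⟩
    have hr0 : r ≠ 0 := by
      rintro rfl
      rw [mul_zero] at hr
      rw [hr, map_zero] at hz
      exact WithZero.exp_ne_zero hz.symm
    obtain ⟨k, hk⟩ := PID.d13a_exists (Valued.v (R := w.adicCompletion F)) hr0
    rw [hr, map_mul, hk, ← WithZero.exp_add, WithZero.exp_inj] at hz
    omega
  unfold LocB at h
  rcases h with h1 | h1 | ⟨X, Y, hX, hXY, h1⟩
  · have h2 := sqval hJc h1
    omega
  · rw [map_mul] at h1
    have h3 : Valued.v (J (emK (p ^ 2 * D')) * J c) = (WithZero.exp (-2 + m) : WithZero (Multiplicative ℤ)) := by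
      rw [map_mul, hDval, hJc, ← WithZero.exp_add]
    have h2 := sqval h3 h1
    omega
  · change Y ^ 2 = X ^ 3 - J (emK (p ^ 2 * D')) * X at hXY
    change IsSquare (J c * X) at h1
    have hn0 := hn
    obtain ⟨n, hn⟩ := PID.d13a_exists (Valued.v (R := w.adicCompletion F)) hX
    have h2 : (m + n) % 2 = 0 := by
      refine sqval ?_ h1
      rw [map_mul, hJc, hn, ← WithZero.exp_add]
    have hwx3 : Valued.v (X ^ 3) = (WithZero.exp (3 * n) : WithZero (Multiplicative ℤ)) := by
      rw [map_pow, hn, PID.d13a_pow]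
      norm_num
    have hwdx : Valued.v (J (emK (p ^ 2 * D')) * X) = (WithZero.exp (-2 + n) : WithZero (Multiplicative ℤ)) := by
      rw [map_mul, hDval, hn, ← WithZero.exp_add]
    rcases lt_trichotomy n (-1) with h3 | h3 | h3
    · have h4 : Valued.v (Y ^ 2) = (WithZero.exp (-2 + n) : WithZero (Multiplicative ℤ)) := by
        rw [hXY, Valuation.map_sub_eq_of_lt_right, hwdx]
        rw [hwdx, hwx3, WithZero.exp_lt_exp]
        omega
      have h5 := sqval h4 ⟨Y, pow_two Y⟩
      omega
    · -- the critical case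
      have hπ0 : J (emK p) ≠ 0 := by
        intro h0
        rw [h0, map_zero] at hπ
        exact WithZero.exp_ne_zero hπ.symm
      rw [h3] at hn
      set x' := X / J (emK p) with hx'
      have hXx : X = J (emK p) * x' := by
        rw [hx']
        field_simp
      have hvx' : Valued.v x' = (1 : WithZero (Multiplicative ℤ)) := by
        rw [hx', map_div₀, hn, hπ, div_self WithZero.exp_ne_zero]
      have hY2 : Y ^ 2 = J (emK p) ^ 3 * x' * (x' ^ 2 - J (emK D')) := by
        rw [hXY, hXx, map_mul, map_mul, map_pow, map_pow]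
        ring
      have hlt : Valued.v (x' ^ 2 - J (emK D')) < (1 : WithZero (Multiplicative ℤ)) := by
        refine lt_of_le_of_ne ?_ ?_
        · refine (Valuation.map_sub _ _ _).trans (max_le ?_ hd'.le)
          rw [map_pow, hvx', one_pow]
        · intro h4
          have h5 : Valued.v (Y ^ 2) = (WithZero.exp (-3) : WithZero (Multiplicative ℤ)) := by
            rw [hY2, map_mul, map_mul, map_pow, hπ, hvx', h4, mul_one, mul_one, PID.d13a_pow]
            norm_num
          have h6 := sqval h5 ⟨Y, pow_two Y⟩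
          omega
      -- the element `c`
      obtain ⟨a, r, ha, hr, hca⟩ := PID.exists_gi c hc
      have hfin : FiniteMultiplicity p a := FiniteMultiplicity.of_prime_left hp ha
      obtain ⟨g, hg1, hg2⟩ := hfin.exists_eq_pow_mul_and_not_dvd
      set N := multiplicity p a with hN
      have hvg : Valued.v (J (emK g)) = (1 : WithZero (Multiplicative ℤ)) := by
        rw [hJv]
        exact (PID.val_eq_one_iff hv g).2 hg2
      have hJr0 : J r ≠ 0 := (map_ne_zero _).2 hr
      obtain ⟨l, hl⟩ := PID.d13a_exists (Valued.v (R := w.adicCompletion F)) hJr0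
      have hNodd : N % 2 = 1 := by
        have h5 : Valued.v (J c) = (WithZero.exp (-(N : ℤ) + 2 * l) : WithZero (Multiplicative ℤ)) := by
          rw [hca, hg1]
          simp only [map_mul, map_pow, hπ, hvg, hl, mul_one, PID.d13a_pow, ← WithZero.exp_add]
          congr 1
          push_cast
          ring
        rw [hJc, WithZero.exp_inj] at h5
        omega
      obtain ⟨k, hk⟩ : ∃ k, N = 2 * k + 1 := ⟨N / 2, by omega⟩
      obtain ⟨u0, hu0⟩ := h1
      set t : w.adicCompletion F := J (emK p) ^ (k + 1) * J r with ht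
      have ht0 : t ≠ 0 := mul_ne_zero (pow_ne_zero _ hπ0) hJr0
      have hu : J (emK g) * x' = (u0 / t) ^ 2 := by
        rw [div_pow, eq_div_iff (pow_ne_zero 2 ht0), pow_two u0, ← hu0, hca, hXx, hg1, hk, ht, map_mul, map_mul,
          map_pow, map_mul, map_pow, map_pow]
        ring
      have hvu : Valued.v (u0 / t) = (1 : WithZero (Multiplicative ℤ)) := by
        have h5 := congrArg (Valued.v (R := w.adicCompletion F)) hu
        rw [map_mul, hvg, hvx', one_mul, map_pow] at h5
        have h6 : u0 / t ≠ 0 := by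
          intro h0
          rw [h0, map_zero, zero_pow two_ne_zero] at h5
          exact one_ne_zero h5
        obtain ⟨q, hq⟩ := PID.d13a_exists (Valued.v (R := w.adicCompletion F)) h6
        rw [hq, PID.d13a_pow, ← WithZero.exp_zero, WithZero.exp_inj] at h5
        rw [hq, ← WithZero.exp_zero, WithZero.exp_inj]
        push_cast at h5
        omega
      have h7 : Valued.v ((u0 / t) ^ 4 - algebraMap F (w.adicCompletion F) (algebraMap KI F (emK (D' * g ^ 2)))) <
          (1 : WithZero (Multiplicative ℤ)) := by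
        have e1 : (u0 / t) ^ 4 - algebraMap F (w.adicCompletion F) (algebraMap KI F (emK (D' * g ^ 2))) =
            J (emK g) ^ 2 * (x' ^ 2 - J (emK D')) := by
          have e2 : algebraMap F (w.adicCompletion F) (algebraMap KI F (emK (D' * g ^ 2))) =
              J (emK D') * J (emK g) ^ 2 := by
            rw [← map_pow, ← map_pow, ← map_mul, ← map_mul]
            rfl
          rw [e2]
          have e3 : (u0 / t) ^ 4 = (J (emK g) * x') ^ 2 := by
            rw [hu]
            ring
          rw [e3]
          ring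
        rw [e1, map_mul, map_pow, hvg, one_pow, one_mul]
        exact hlt
      have h8 := sy_of_fourth hp hP hv hw hn0 (g := D' * g ^ 2) hvu.le h7
      rw [PI.sy_mul_sq hp hP hg2] at h8
      exact hs h8
    · have h4 : Valued.v (Y ^ 2) = (WithZero.exp (3 * n) : WithZero (Multiplicative ℤ)) := by
        rw [hXY, Valuation.map_sub_eq_of_lt_left, hwx3]
        rw [hwdx, hwx3, WithZero.exp_lt_exp]
        omega
      have h5 := sqval h4 ⟨Y, pow_two Y⟩
      omega

end

end QTC
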