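import Pool.Agent.QTB.F9e
import Pool.Agent.QTB.F8g

/-!
# [QTB-F9f] the valuations of the elements with the local conditions
-/

set_option autoImplicit false

open NumberField IsDedekindDomain
open scoped Classical

namespace QTC

open PI (Gi sy ii la Prim emK eG KI la_prime pl)
open QT (st Dd Adm bD gD Good)
open QTD (LocB cl vla)
open TU (QS Ur Sq Od)

section
variable {s t : ℕ} {S : Finset Gi} {a : Gi → ℕ} {T : Finset Gi} {F : Type} [Field F] [NumberField F] [Algebra KI F]
  (X : Dat s t S a T F)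
include X

/-- [QTB-F9f] PROOF. Choose `w` over `v` by `QS.split` or `QS.inert` (`Ur_of`), with `w(x) = v(x)` on `KI`. `v = span {eG p}` for a primary prime `p` (`PI.gen_cases`). `p ∉ S`: `w(D) = v(D) = 1` (`QTD.val_d_one`), `QTD.val_b_sq` over `F`. `p ∈ S`, `a p` even: `X.Q` split at `v`: `Dat.down` and `QTD.val_even`; inert: `QTD.Dd_split`, `QTD.diag_one`, `val_even_inert`. -/
theorem InA_even {c : KI} (hc : c ≠ 0) (h : InA (emK (Dd s t S a)) F c) (v : HeightOneSpectrum (𝓞 KI))
    (h1 : v.asIdeal ≠ Ideal.span {eG la}) (h2 : ∀ p ∈ SO S a ∪ T, v.asIdeal ≠ Ideal.span {eG p}) :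
    ∃ g : WithZero (Multiplicative ℤ), v.valuation KI c = g ^ 2 := by
  by_cases hSq : Sq v X.Q.e
  · exact QTD.val_even X.good v h1 (fun p hp => h2 p (Finset.mem_union_left _ hp)) (Dat.down X h v hSq)
  · have hUr : Ur v X.Q.e := by
      rw [X.he]
      exact Ur_of X.pr X.cl0 v (fun q hq => h2 q (Finset.mem_union_right _ hq))
    obtain ⟨w, hu, hn, hval⟩ := QS.inert X.Q v hUr hSq
    have hw : w.asIdeal.comap (algebraMap (𝓞 KI) (𝓞 F)) = v.asIdeal := (hu w).2 rfl
    have hloc := h w
    have hS := (QTD.good_adm X.good).1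
    by_cases h3 : ∃ p ∈ S, v.asIdeal = Ideal.span {eG p}
    · obtain ⟨p, hp, hv⟩ := h3
      have ha : ¬ Odd (a p) := fun ha => h2 p (Finset.mem_union_left _ (mem_SO.2 ⟨hp, ha⟩)) hv
      obtain ⟨D', hD, hpD', hsD⟩ := QTD.Dd_split (s := s) (t := t) (a := a) hS ⟨p, hp⟩
      have h4 : sy D' p ≠ 0 := by
        have h5 := QTD.diag_one X.good ⟨p, hp⟩ ha
        have h6 : QT.LM s t S a ⟨p, hp⟩ ⟨p, hp⟩ = sy D' p := by
          rw [hsD]
          unfold QT.LM
          rw [if_pos rfl]
        rw [← h6, h5]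
        exact one_ne_zero
      have h7 : a p = 2 := QTD.not_odd_two X.good hp ha
      have hD' : Dd s t S a = p ^ 2 * D' := by
        rw [hD]
        simp only [h7]
      rw [hD'] at hloc
      exact val_even_inert (hS p hp).1 (hS p hp).2 hv hw hn hval hpD' h4 hc hloc
    · push Not at h3
      have hd0 : algebraMap KI F (emK (Dd s t S a)) ≠ 0 :=
        (map_ne_zero (algebraMap KI F)).2 (PID.emK_ne (QTD.Dd_ne hS))
      have hd : w.valuation F (algebraMap KI F (emK (Dd s t S a))) = 1 := by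
        rw [hval]
        exact QTD.val_d_one hS v h1 h3
      obtain ⟨g, hg⟩ := QTD.val_b_sq hd0 w hd hloc
      rw [hval] at hg
      exact ⟨g, hg⟩

end

end QTC
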