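import Pool.Agent.QTB.F9d
import Pool.Agent.QTB.F8g
import Pool.Agent.QTB.F6b
import Pool.Agent.QTB.F6c

/-!
# [QTB-F9g] the local conditions over `F` for the representatives
-/

set_option autoImplicit false

open NumberField IsDedekindDomain
open scoped Classical

namespace QTC

open PI (Gi sy ii la Prim emK eG KI la_prime pl)
open QT (st Dd Adm bD gD Good)
open QTD (LocB cl vla)
open TU (QS Ur Sq Od)

theorem F9g_not_dvd_mT {T : Finset Gi} (hT : ∀ q ∈ T, Prime q ∧ Prim q) {p : Gi} (hp : Prime p) (hP : Prim p)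
    (h : p ∉ T) : ¬ p ∣ mT T := by
  intro h1
  unfold mT at h1
  obtain ⟨q, hq, h2⟩ := (hp.dvd_finsetProd_iff (S := T) (fun q => st q)).1 h1
  have hne : p ≠ q := fun e => h (e ▸ hq)
  exact (QTD.sy_st (hT q hq).1 (hT q hq).2 hp hP hne).2 h2

theorem F9g_span_ne {p q : Gi} (hp : Prime p) (hP : Prim p) (hq : Prime q) (hQ : Prim q) (h : p ≠ q)
    {v : HeightOneSpectrum (𝓞 KI)} (hv : v.asIdeal = Ideal.span {eG p}) : v.asIdeal ≠ Ideal.span {eG q} := by
  intro h1
  apply PID.not_dvd_of_ne hp hP hq hQ h
  rw [← PI.mem_iff hv, h1]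
  exact Ideal.mem_span_singleton_self _

theorem F9g_span_la {p : Gi} (hp : Prime p) (hP : Prim p)
    {v : HeightOneSpectrum (𝓞 KI)} (hv : v.asIdeal = Ideal.span {eG p}) : v.asIdeal ≠ Ideal.span {eG la} := by
  intro h1
  apply PID.not_dvd_la hp hP
  rw [← PI.mem_iff hv, h1]
  exact Ideal.mem_span_singleton_self _

theorem F9g_exp_even {n : ℤ} (hn : Even n) : ∃ g : WithZero (Multiplicative ℤ), WithZero.exp n = g ^ 2 := by
  obtain ⟨m, rfl⟩ := hn
  exact ⟨WithZero.exp m, by rw [pow_two, ← WithZero.exp_add]⟩

theorem F9g_rep_ne {O : Finset Gi} (hO : ∀ p ∈ O, Prime p ∧ Prim p) (z : V O) : rep z ≠ 0 := by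
  unfold rep repG
  refine PID.emK_ne (mul_ne_zero (mul_ne_zero (pow_ne_zero _ PID.d14c_ii_ne) (pow_ne_zero _ la_prime.ne_zero)) ?_)
  exact Finset.prod_ne_zero_iff.2 fun q _ => pow_ne_zero _ (hO q q.2).1.ne_zero

section
variable {s t : ℕ} {S : Finset Gi} {a : Gi → ℕ} {T : Finset Gi} {F : Type} [Field F] [NumberField F] [Algebra KI F]
  (X : Dat s t S a T F)
include X

/-- [QTB-F9g] the local conditions over `F` for the representatives. PROOF. ⇒: `Dat.down` at `vla` (`Sq_la`) and at the split `p ∈ SO` (`Sq_iff`, `p ∤ m`), `locB_SO`. ⇐: `w` over `v` (`v = TK.s2_below w` or `w.asIdeal.comap`). `v = vla`: `Dat.up`. `v = span {eG p}`: `p ∈ SO`, `sy m p = 0`: `locB_SO`, `Dat.up`.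
`p ∈ SO`, `sy m p = 1`: inert; if `v (rep z)` is even, `rep z` is a square in `F_w` (`square_inert`); otherwise `D rep z` has even valuation (`a p` odd) and is a square. `p ∈ S`, `a p` even: `locB_even` (`val_rep`) and `Dat.up`. `p ∈ T`: `w(D) = 1`, `w(rep z) = v(rep z)²` (`QS.ram`, `Od_of`): `locB_good` over `F`.
`p ∉ S ∪ T`: `v(D) = v(rep z) = 1`: `locB_good` over `F` (or over `KI` and `Dat.up`). -/
theorem InA_rep_iff (z : V (SO S a ∪ T)) : InA (emK (Dd s t S a)) F (rep z) ↔
    (∀ p ∈ SO S a, sy (mT T) p = 0 → rho s t S a p z = 0) ∧ LocB (emK (Dd s t S a)) (rep z) (vla.adicCompletion KI) := by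
  have hA : Adm s t S a := QTD.good_adm X.good
  have hS : ∀ p ∈ S, Prime p ∧ Prim p := hA.1
  have hT := X.pr
  have hO : ∀ p ∈ SO S a ∪ T, Prime p ∧ Prim p := by
    intro p hp
    rcases Finset.mem_union.1 hp with h | h
    · exact hS p (SO_sub h)
    · exact hT p h
  have hST : ∀ p ∈ S, p ∉ T := fun p hp hpT => (Finset.disjoint_left.1 X.disj) hp hpT
  have hnd : ∀ p ∈ S, ¬ p ∣ mT T := fun p hp => F9g_not_dvd_mT hT (hS p hp).1 (hS p hp).2 (hST p hp)
  have hD0 : emK (Dd s t S a) ≠ 0 := PID.emK_ne (QTD.Dd_ne hS)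
  have hr0 : rep z ≠ 0 := F9g_rep_ne hO z
  constructor
  · intro h
    refine ⟨?_, ?_⟩
    · intro p hp hm
      have hpS := SO_sub hp
      have hv : (pl p (hS p hpS).1).asIdeal = Ideal.span {eG p} := rfl
      have h1 : Sq (pl p (hS p hpS).1) X.Q.e := by
        rw [X.he]
        exact (Sq_iff (hS p hpS).1 (hS p hpS).2 hv (hnd p hpS)).2 hm
      exact (locB_SO hA hO Finset.subset_union_left hp hv z).1 (X.down h _ h1)
    · refine X.down h _ ?_
      rw [X.he]
      exact Sq_la hT X.cl0
  · rintro ⟨h1, h2⟩ w
    obtain ⟨v, hw⟩ : ∃ v : HeightOneSpectrum (𝓞 KI), w.asIdeal.comap (algebraMap (𝓞 KI) (𝓞 F)) = v.asIdeal :=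
      ⟨TK.s2_below w, rfl⟩
    rcases PI.gen_cases (v := v) with hla | ⟨b, hb, hB, hvb⟩
    · have e : v = vla := HeightOneSpectrum.ext (by rw [hla, QTD.vla_as])
      subst e
      exact X.up w _ hw h2
    · by_cases hbS : b ∈ S
      · by_cases hodd : Odd (a b)
        · have hbO : b ∈ SO S a := mem_SO.2 ⟨hbS, hodd⟩
          by_cases hm : sy (mT T) b = 0
          · exact X.up w v hw ((locB_SO hA hO Finset.subset_union_left hbO hvb z).2 (h1 b hbO hm))
          · have hns : ¬ Sq v X.Q.e := by
              rw [X.he, Sq_iff hb hB hvb (hnd b hbS)]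
              exact hm
            have hur : Ur v X.Q.e := by
              rw [X.he]
              exact Ur_of hT X.cl0 v (fun q hq => F9g_span_ne hb hB (hT q hq).1 (hT q hq).2
                (fun e => hST b hbS (e ▸ hq)) hvb)
            obtain ⟨P, hu, hn, hval⟩ := X.Q.inert v hur hns
            have hwP : w = P := (hu w).1 hw
            subst hwP
            have hvr0 : v.valuation KI (rep z) ≠ 0 := (Valuation.ne_zero_iff _).2 hr0
            obtain ⟨n, hn1⟩ := PID.d13a_exists (v.valuation KI) hr0
            rcases Int.even_or_odd n with hev | hod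
            · left
              refine square_inert hb hB hvb hw hn hval hr0 ?_
              rw [hn1]
              exact F9g_exp_even hev
            · right
              left
              rw [← map_mul]
              refine square_inert hb hB hvb hw hn hval (mul_ne_zero hD0 hr0) ?_
              obtain ⟨D', hD, hpD', -⟩ := QTD.Dd_split (s := s) (t := t) (a := a) hS ⟨b, hbS⟩
              have e1 : v.valuation KI (emK (Dd s t S a)) = WithZero.exp (-(a b : ℤ)) := by
                rw [hD, map_mul, map_mul, map_pow, map_pow]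
                show v.valuation KI (emK b) ^ a b * v.valuation KI (emK D') = _
                rw [PID.val_self hvb, (PID.val_eq_one_iff hvb D').2 hpD', mul_one, ← WithZero.exp_nsmul]
                simp
              rw [map_mul, e1, hn1, ← WithZero.exp_add]
              apply F9g_exp_even
              have e2 : Odd (-(a b : ℤ)) := by
                obtain ⟨k, hk⟩ := hodd
                exact ⟨-(k : ℤ) - 1, by rw [hk]; push_cast; ring⟩
              exact e2.add_odd hod
        · refine X.up w v hw (locB_even X.good hbS hodd hvb hr0 ⟨1, ?_⟩)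
          rw [one_pow]
          refine val_rep hO z v (F9g_span_la hb hB hvb) ?_
          rintro ⟨q, hq⟩ -
          refine F9g_span_ne hb hB (hO q hq).1 (hO q hq).2 ?_ hvb
          rintro rfl
          rcases Finset.mem_union.1 hq with h | h
          · exact hodd (mem_SO.1 h).2
          · exact hST _ hbS h
      · have hd1 : v.valuation KI (emK (Dd s t S a)) = 1 := by
          refine QTD.val_d_one hS v (F9g_span_la hb hB hvb) ?_
          intro p hp
          exact F9g_span_ne hb hB (hS p hp).1 (hS p hp).2 (fun e => hbS (e ▸ hp)) hvb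
        have h2v : v.valuation KI 2 = 1 := by
          have := (PID.val_eq_one_iff hvb 2).2 (PID.not_dvd_two hb hB)
          rwa [map_ofNat] at this
        by_cases hbT : b ∈ T
        · have hod : Od v X.Q.e := by
            rw [X.he]
            exact Od_of hT hbT hvb
          obtain ⟨P, hu, hn, hval⟩ := X.Q.ram v hod
          have hwP : w = P := (hu w).1 hw
          subst hwP
          refine locB_good (j := algebraMap KI F (emK ii)) ?_ ?_ ?_ w ?_ ?_ ?_
          · rw [← map_pow, PID.emK_ii, map_neg, map_one]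
          · exact (map_ne_zero _).2 hD0
          · exact (map_ne_zero _).2 hr0
          · have e := hval 2
            rw [map_ofNat, h2v, one_pow] at e
            exact e
          · rw [hval, hd1, one_pow]
          · exact ⟨_, hval _⟩
        · refine X.up w v hw ?_
          refine locB_good (j := emK ii) PID.emK_ii hD0 hr0 v h2v hd1 ⟨1, ?_⟩
          rw [one_pow]
          refine val_rep hO z v (F9g_span_la hb hB hvb) ?_
          rintro ⟨q, hq⟩ -
          refine F9g_span_ne hb hB (hO q hq).1 (hO q hq).2 ?_ hvb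
          rintro rfl
          rcases Finset.mem_union.1 hq with h | h
          · exact hbS (SO_sub h)
          · exact hbT h

end

end QTC
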