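import Pool.Agent.QTB.F9g
import Pool.Agent.QTB.F7c

/-!
# [QTB-F9h] the number of the elements with the local conditions
-/

set_option autoImplicit false

open NumberField IsDedekindDomain
open scoped Classical

namespace QTC

open PI (Gi sy ii la Prim emK eG KI la_prime pl)
open QT (st Dd Adm bD gD Good)
open QTD (LocB cl vla)
open TU (QS Ur Sq Od)

section
variable {s t : ℕ} {S : Finset Gi} {a : Gi → ℕ} {T : Finset Gi} {F : Type} [Field F] [NumberField F] [Algebra KI F]
  (X : Dat s t S a T F)
include X

/-- [QTB-F9h] PROOF. `InA_rep_iff`, `count` (F7) with `I = {p ∈ SO : sy m p ≠ 0}`; `T` is not empty since `mT ∅ = 1` and `Q.ns`. -/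
theorem card_InA (hmul : ∀ b b' : KI, b ≠ 0 → b' ≠ 0 → LocB (emK (Dd s t S a)) b (vla.adicCompletion KI) →
      LocB (emK (Dd s t S a)) b' (vla.adicCompletion KI) → LocB (emK (Dd s t S a)) (b * b') (vla.adicCompletion KI)) :
    Nat.card {z : V (SO S a ∪ T) // InA (emK (Dd s t S a)) F (rep z)} =
      2 ^ (((SO S a).filter fun p => sy (mT T) p ≠ 0).card + T.card) := by
  have hne : T.Nonempty := by
    rw [Finset.nonempty_iff_ne_empty]
    intro hT
    have he := X.he
    have h1 : mT T = 1 := by
      rw [hT]
      unfold mT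
      exact Finset.prod_empty
    rw [h1, map_one] at he
    have hs := X.Q.hs
    rw [he, map_one] at hs
    rw [sq] at hs
    rcases mul_self_eq_one_iff.1 hs with h2 | h2
    · exact X.Q.ns 1 (by rw [map_one, h2])
    · exact X.Q.ns (-1) (by rw [map_neg, map_one, h2])
  rw [← count X.good X.pr X.disj X.nice hne hmul ((SO S a).filter fun p => sy (mT T) p ≠ 0)
    (Finset.filter_subset _ _)]
  refine Nat.card_congr (Equiv.subtypeEquivRight fun z => ?_)
  rw [InA_rep_iff X z]
  refine and_congr_left fun _ => ?_
  constructor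
  · intro h p hp hpI
    refine h p hp ?_
    by_contra hcon
    exact hpI (Finset.mem_filter.2 ⟨hp, hcon⟩)
  · intro h p hp hp0
    refine h p hp fun hpI => ?_
    exact (Finset.mem_filter.1 hpI).2 hp0

end

end QTC
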