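import Pool.Agent.QTB.F9a
import Pool.Agent.QTB.F9c
import Pool.Agent.QTB.F9d
import Pool.Agent.QTB.F9e
import Pool.Agent.QTB.F9f
import Pool.Agent.QTB.F9g
import Pool.Agent.QTB.F9h
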