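import Pool.Agent.QTB.F0

/-!
# [QTB-F9a] finite fields
-/

set_option autoImplicit false

open NumberField IsDedekindDomain
open scoped Classical

namespace QTC

open PI (Gi sy ii la Prim emK eG KI la_prime pl)
open QT (st Dd Adm bD gD Good)
open QTD (LocB cl vla)
open TU (QS Ur Sq Od)

theorem f9a_ringChar {k : Type} [Field k] (h2 : (2 : k) ≠ 0) : ringChar k ≠ 2 := by
  intro h
  apply h2
  have h1 := CharP.cast_eq_zero k (ringChar k)
  rw [h] at h1
  exact_mod_cast h1

/-- [QTB-F9a] PROOF. `g^((q-1)/2) = ± 1`; `(q+1)/2` is odd, so `g^((q²-1)/4) = (g^((q-1)/2))^((q+1)/2) = g^((q-1)/2)`; in `k'`: `u^(q²-1) = 1`, so `φ(g)^((q²-1)/4) = 1`, `g^((q-1)/2) = 1`, `g` is a square (`FiniteField.isSquare_iff`). -/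
theorem fourth_power {k k' : Type} [Field k] [Fintype k] [Field k'] [Fintype k'] (φ : k →+* k') (h2 : (2 : k) ≠ 0)
    (hk : Fintype.card k' = Fintype.card k ^ 2) (h4 : Fintype.card k % 4 = 1) {g : k} {u : k'} (h : φ g = u ^ 4) :
    IsSquare g := by
  by_cases hg : g = 0
  · exact ⟨0, by rw [hg, mul_zero]⟩
  have hφ := φ.injective
  have h2' : (2 : k') ≠ 0 := by
    intro h3
    apply h2
    apply hφ
    rw [map_ofNat, map_zero, h3]
  rw [FiniteField.isSquare_iff (f9a_ringChar h2) hg]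
  rcases FiniteField.pow_dichotomy (f9a_ringChar h2) hg with h3 | h3
  · exact h3
  exfalso
  obtain ⟨m, hm⟩ : ∃ m, Fintype.card k = 4 * m + 1 := ⟨Fintype.card k / 4, by omega⟩
  have hu : u ≠ 0 := by
    rintro rfl
    rw [zero_pow (by norm_num), map_eq_zero] at h
    exact hg h
  have h4 : φ g ^ (2 * m * (2 * m + 1)) = 1 := by
    rw [h, ← pow_mul]
    have h5 := FiniteField.pow_card_sub_one_eq_one u hu
    rw [hk, hm] at h5
    rw [← h5]
    congr 1
    have h6 : (4 * m + 1) ^ 2 = 4 * (2 * m * (2 * m + 1)) + 1 := by ring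
    omega
  have h5 : Fintype.card k / 2 = 2 * m := by omega
  rw [h5] at h3
  rw [pow_mul, ← map_pow, h3, map_neg, map_one, pow_succ, pow_mul, neg_one_sq, one_pow,
    one_mul] at h4
  apply h2'
  linear_combination -h4

/-- [QTB-F9b] PROOF. `FiniteField.isSquare_iff`: `φ(g)^((q²-1)/2) = φ(g^(q-1))^((q+1)/2) = 1`. -/
theorem square_up {k k' : Type} [Field k] [Fintype k] [Field k'] [Fintype k'] (φ : k →+* k') (h2 : (2 : k) ≠ 0)
    (hk : Fintype.card k' = Fintype.card k ^ 2) (g : k) : IsSquare (φ g) := by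
  by_cases hg : g = 0
  · exact ⟨0, by rw [hg, map_zero, mul_zero]⟩
  have hφ := φ.injective
  have h2' : (2 : k') ≠ 0 := by
    intro h3
    apply h2
    apply hφ
    rw [map_ofNat, map_zero, h3]
  have hg' : φ g ≠ 0 := (map_ne_zero φ).2 hg
  rw [FiniteField.isSquare_iff (f9a_ringChar h2') hg']
  have hodd := FiniteField.odd_card_of_char_ne_two (f9a_ringChar h2)
  obtain ⟨m, hm⟩ : ∃ m, Fintype.card k = 2 * m + 1 := ⟨Fintype.card k / 2, by omega⟩
  have h3 : Fintype.card k' / 2 = (Fintype.card k - 1) * (m + 1) := by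
    rw [hk, hm]
    have h4 : (2 * m + 1) ^ 2 = 2 * (2 * m * (m + 1)) + 1 := by ring
    have h5 : 2 * m + 1 - 1 = 2 * m := by omega
    rw [h4, h5]
    omega
  rw [h3, pow_mul, ← map_pow, FiniteField.pow_card_sub_one_eq_one g hg, map_one, one_pow]

end QTC
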