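import Pool.Agent.QTB.F0
import Pool.Agent.QTS.T5

/-!
# [QTB-G0] the completed rings of integers at the places of `F` over `ℤ[i]`: definitions
-/

set_option autoImplicit false

open NumberField IsDedekindDomain
open scoped Classical

namespace QTC

open PI (Gi sy ii la Prim emK eG KI la_prime pl)
open QT (st Dd Adm bD gD Good)
open QTD (LocB cl vla)
open TU (QS Ur Sq Od)

/-- the curve `y² = x³ - D x` over `F` -/
noncomputable def EF (s t : ℕ) (S : Finset Gi) (a : Gi → ℕ) (F : Type) [Field F] [NumberField F] [Algebra KI F] :
    WeierstrassCurve F := QT.W (algebraMap KI F (emK (Dd s t S a)))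

/-- the images of the elements not divisible by `b` are units, the image of `b` is a uniformizer -/
structure At (A : Type) [CommRing A] [IsDomain A] [IsDiscreteValuationRing A] (f : Gi →+* A) (b : Gi) : Prop where
  irr : Irreducible (f b)
  unit : ∀ z : Gi, ¬ b ∣ z → IsUnit (f z)

theorem At.dvd {A : Type} [CommRing A] [IsDomain A] [IsDiscreteValuationRing A] {f : Gi →+* A} {b : Gi} (hA : At A f b)
    {z : Gi} (h : f b ∣ f z) : b ∣ z := by
  by_contra h1
  exact hA.irr.not_isUnit (isUnit_of_dvd_unit h (hA.unit z h1))

section
variable {F : Type} [Field F] [NumberField F] [Algebra KI F]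

/-- the image of a Gaussian integer in the completed ring -/
noncomputable def lo (w : HeightOneSpectrum (𝓞 F)) : Gi →+* w.adicCompletionIntegers F :=
  (algebraMap (𝓞 F) (w.adicCompletionIntegers F)).comp
    ((algebraMap (𝓞 KI) (𝓞 F)).comp (eG : Gi →+* 𝓞 KI))

end

end QTC
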