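import Pool.Agent.QTB.G0

/-!
# [QTB-G0a] `ℤ[i]` in the completed rings of integers
-/

set_option autoImplicit false

open NumberField IsDedekindDomain
open scoped Classical

namespace QTC

open PI (Gi sy ii la Prim emK eG KI la_prime pl)
open QT (st Dd Adm bD gD Good)
open QTD (LocB cl vla)
open TU (QS Ur Sq Od)

section
variable {F : Type} [Field F] [NumberField F] [Algebra KI F]
variable {v : HeightOneSpectrum (𝓞 KI)} {w : HeightOneSpectrum (𝓞 F)} {b : Gi}

/-- [QTB-G0a] PROOF. `QTS.W_map`, the maps agree on `KI` (as `QTS.t5_bc`). -/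
theorem lo_bc (w : HeightOneSpectrum (𝓞 F)) (D : Gi) :
    (QT.W (algebraMap KI F (emK D))).baseChange (w.adicCompletion F) =
      (QT.W (lo w D)).map (algebraMap (w.adicCompletionIntegers F) (w.adicCompletion F)) := by
  rw [WeierstrassCurve.baseChange, QTS.W_map, QTS.W_map]
  rfl

end

section
variable {F : Type} [Field F] [NumberField F] [Algebra KI F]
variable {v : HeightOneSpectrum (𝓞 KI)} {w : HeightOneSpectrum (𝓞 F)} {b : Gi}

theorem lo_bc' (w : HeightOneSpectrum (𝓞 F)) (D : Gi) :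
    (QT.W (algebraMap KI F (emK D))).baseChange (w.adicCompletion F) =
      QT.W (algebraMap (w.adicCompletionIntegers F) (w.adicCompletion F) (lo w D)) := by
  rw [WeierstrassCurve.baseChange, QTS.W_map]
  rfl

end

section
variable {F : Type} [Field F] [NumberField F] [Algebra KI F]
variable {v : HeightOneSpectrum (𝓞 KI)} {w : HeightOneSpectrum (𝓞 F)} {b : Gi}

/-- [QTB-G0b] PROOF. `CMT.isUnit_completion' F w`: `algebraMap (eG z) ∈ w` iff `eG z ∈ v` (`hw`), iff `b ∣ z` (`PI.mem_iff`). -/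
theorem lo_unit (hv : v.asIdeal = Ideal.span {eG b}) (hw : w.asIdeal.comap (algebraMap (𝓞 KI) (𝓞 F)) = v.asIdeal)
    (z : Gi) (hz : ¬ b ∣ z) : IsUnit (lo w z) := by
  refine CMT.isUnit_completion' F w (algebraMap (𝓞 KI) (𝓞 F) (eG z)) fun h1 => hz ?_
  rw [← PI.mem_iff hv z, ← hw, Ideal.mem_comap]
  exact h1

end

section
variable {F : Type} [Field F] [NumberField F] [Algebra KI F]
variable {v : HeightOneSpectrum (𝓞 KI)} {w : HeightOneSpectrum (𝓞 F)} {b : Gi}

/-- [QTB-G0c] PROOF. `unit`: `lo_unit`. `irr`: `CMT.irreducible_completion' F w`: `eG b ∈ w`, and `∉ w²` since the valuation is `v.valuation KI (emK b) = exp (-1)` (`PID.val_self` or the proof of `PI.t5b_irr`; `TU.q3_pow`). -/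
theorem lo_at (hb : Prime b) (hv : v.asIdeal = Ideal.span {eG b})
    (hw : w.asIdeal.comap (algebraMap (𝓞 KI) (𝓞 F)) = v.asIdeal)
    (hval : ∀ x : KI, w.valuation F (algebraMap KI F x) = v.valuation KI x) :
    At (w.adicCompletionIntegers F) (lo w) b := by
  refine ⟨?_, fun z hz => lo_unit hv hw z hz⟩
  refine CMT.irreducible_completion' F w (algebraMap (𝓞 KI) (𝓞 F) (eG b)) ?_ ?_
  · rw [← Ideal.mem_comap, hw, PI.mem_iff hv b]
  · intro h2
    have h3 : w.valuation F ((algebraMap (𝓞 KI) (𝓞 F) (eG b) : 𝓞 F) : F) ≤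
        WithZero.exp (-((2 : ℕ) : ℤ)) := (TU.q3_pow _ 2).2 h2
    have h4 : ((algebraMap (𝓞 KI) (𝓞 F) (eG b) : 𝓞 F) : F) =
        algebraMap KI F ((eG b : 𝓞 KI) : KI) := rfl
    rw [h4, hval] at h3
    have h5 : eG b ∈ v.asIdeal ^ 2 := (TU.q3_pow _ 2).1 h3
    rw [hv, Ideal.span_singleton_pow, Ideal.mem_span_singleton, ← map_pow] at h5
    obtain ⟨c, hc⟩ := h5
    have h6 : b ^ 2 ∣ b := by
      refine ⟨eG.symm c, ?_⟩
      apply eG.injective
      rw [map_mul, eG.apply_symm_apply]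
      exact hc
    exact QTS.t5_b_sq hb h6

end

section
variable {F : Type} [Field F] [NumberField F] [Algebra KI F]
variable {v : HeightOneSpectrum (𝓞 KI)} {w : HeightOneSpectrum (𝓞 F)} {b : Gi}

/-- [QTB-G0g] PROOF. -/
theorem lo_two (w : HeightOneSpectrum (𝓞 F)) : (2 : w.adicCompletion F) ≠ 0 := by
  have h1 : algebraMap F (w.adicCompletion F) 2 = 2 := map_ofNat _ 2
  rw [← h1]
  intro h2
  rw [map_eq_zero] at h2
  norm_num at h2

end

end QTC
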