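import Pool.Agent.QTB.G0a

/-!
# [QTB-G0d] residue degree one
-/

set_option autoImplicit false

open NumberField IsDedekindDomain
open scoped Classical

namespace QTC

open PI (Gi sy ii la Prim emK eG KI la_prime pl)
open QT (st Dd Adm bD gD Good)
open QTD (LocB cl vla)
open TU (QS Ur Sq Od)

section
variable {F : Type} [Field F] [NumberField F] [Algebra KI F]
variable {v : HeightOneSpectrum (𝓞 KI)} {w : HeightOneSpectrum (𝓞 F)} {b : Gi}

/-- the residue field at `1 + i` has two elements -/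
theorem g0d_la_one {x : Gi} (h : ¬ la ∣ x) : la ∣ x - 1 := by
  rw [PI.la_dvd_iff] at h ⊢
  rw [Zsqrtd.re_sub, Zsqrtd.im_sub, Zsqrtd.re_one, Zsqrtd.im_one]
  omega

/-- every class modulo `w` is the class of a Gaussian integer -/
theorem g0d_class (hw : w.asIdeal.comap (algebraMap (𝓞 KI) (𝓞 F)) = v.asIdeal)
    (hn : Ideal.absNorm w.asIdeal = Ideal.absNorm v.asIdeal) (r : 𝓞 F) :
    ∃ y : Gi, r - algebraMap (𝓞 KI) (𝓞 F) (eG y) ∈ w.asIdeal := by
  let f : 𝓞 KI ⧸ v.asIdeal →+* 𝓞 F ⧸ w.asIdeal :=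
    Ideal.quotientMap w.asIdeal (algebraMap (𝓞 KI) (𝓞 F)) hw.ge
  have hinj : Function.Injective f := Ideal.quotientMap_injective' hw.le
  have hcw : Nat.card (𝓞 F ⧸ w.asIdeal) = Ideal.absNorm w.asIdeal := by
    rw [Ideal.absNorm_apply, Submodule.cardQuot_apply]
  have hcv : Nat.card (𝓞 KI ⧸ v.asIdeal) = Ideal.absNorm v.asIdeal := by
    rw [Ideal.absNorm_apply, Submodule.cardQuot_apply]
  have hfin : Finite (𝓞 F ⧸ w.asIdeal) := by
    apply Nat.finite_of_card_ne_zero
    rw [hcw, Ne, Ideal.absNorm_eq_zero_iff]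
    exact w.ne_bot
  have hbij : Function.Bijective f :=
    hinj.bijective_of_nat_card_le (by rw [hcw, hcv, hn])
  obtain ⟨q, hq⟩ := hbij.2 (Ideal.Quotient.mk w.asIdeal r)
  obtain ⟨z, rfl⟩ := Ideal.Quotient.mk_surjective q
  obtain ⟨y, rfl⟩ := eG.surjective z
  refine ⟨y, ?_⟩
  rw [← Ideal.Quotient.eq, ← hq]
  exact Ideal.quotientMap_mk (I := w.asIdeal) (H := hw.ge)

/-- [QTB-G0d] residue degree one. PROOF. `QTS.t5_approx` (QTS/T5.lean): `CMT.residue_completion F w`: every residue class is the class of some `r ∈ 𝓞 F`; `𝓞 KI ⧸ v → 𝓞 F ⧸ w` is injective (`hw`) and both have `absNorm` elements, so it is bijective: `r ≡ algebraMap (eG y) mod w`. -/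
theorem lo_app (hb : Prime b) (hv : v.asIdeal = Ideal.span {eG b})
    (hw : w.asIdeal.comap (algebraMap (𝓞 KI) (𝓞 F)) = v.asIdeal)
    (hval : ∀ x : KI, w.valuation F (algebraMap KI F x) = v.valuation KI x)
    (hn : Ideal.absNorm w.asIdeal = Ideal.absNorm v.asIdeal) (x : w.adicCompletionIntegers F) :
    ∃ y : Gi, lo w b ∣ x - lo w y := by
  have hmax := (IsDiscreteValuationRing.irreducible_iff_uniformizer _).1 (lo_at hb hv hw hval).irr
  obtain ⟨r, hr⟩ := (CMT.residue_completion F w).1 (IsLocalRing.residue _ x)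
  obtain ⟨y, hy⟩ := g0d_class hw hn r
  rw [← (CMT.residue_completion F w).2, RingHom.mem_ker, map_sub, sub_eq_zero, hr] at hy
  refine ⟨y, ?_⟩
  rw [← Ideal.mem_span_singleton, ← hmax, ← IsLocalRing.residue_eq_zero_iff, map_sub, sub_eq_zero,
    hy]
  rfl

end

section
variable {F : Type} [Field F] [NumberField F] [Algebra KI F]
variable {v : HeightOneSpectrum (𝓞 KI)} {w : HeightOneSpectrum (𝓞 F)} {b : Gi}

/-- [QTB-G0e] PROOF. `lo_app` and `la ∣ y` or `la ∣ y - 1` (`PI.la_dvd_iff`, `QTF.m_la_one`). -/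
theorem lo_res (hv : v.asIdeal = Ideal.span {eG la})
    (hw : w.asIdeal.comap (algebraMap (𝓞 KI) (𝓞 F)) = v.asIdeal)
    (hval : ∀ x : KI, w.valuation F (algebraMap KI F x) = v.valuation KI x)
    (hn : Ideal.absNorm w.asIdeal = Ideal.absNorm v.asIdeal) (x : w.adicCompletionIntegers F) :
    lo w la ∣ x ∨ lo w la ∣ x - 1 := by
  obtain ⟨y, hy⟩ := lo_app la_prime hv hw hval hn x
  by_cases h : la ∣ y
  · left
    have h1 : lo w la ∣ lo w y := map_dvd (lo w) h
    have h2 := dvd_add hy h1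
    rwa [sub_add_cancel] at h2
  · right
    have h1 : lo w la ∣ lo w (y - 1) := map_dvd (lo w) (g0d_la_one h)
    rw [map_sub, map_one] at h1
    have h2 := dvd_add hy h1
    rwa [sub_add_sub_cancel] at h2

end

end QTC
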