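import Pool.Agent.QTB.G0a
import Pool.Agent.QTB.F9d

/-!
# [QTB-G0f] squares at inert places
-/

set_option autoImplicit false

open NumberField IsDedekindDomain
open scoped Classical

namespace QTC

open PI (Gi sy ii la Prim emK eG KI la_prime pl)
open QT (st Dd Adm bD gD Good)
open QTD (LocB cl vla)
open TU (QS Ur Sq Od)

section
variable {F : Type} [Field F] [NumberField F] [Algebra KI F]
variable {v : HeightOneSpectrum (𝓞 KI)} {w : HeightOneSpectrum (𝓞 F)} {b : Gi}

/-- [QTB-G0f] inert places: the images of the elements prime to `b` are squares. PROOF. `square_inert` (F9d) for `c = emK z`, `v.valuation KI (emK z) = 1 = 1²` (`b ∤ z`): a square in the completion, `= y²`; `Valued.v y = 1`, so `y` is in the completed ring of integers. -/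
theorem lo_sq (hb : Prime b) (hP : Prim b) (hv : v.asIdeal = Ideal.span {eG b})
    (hw : w.asIdeal.comap (algebraMap (𝓞 KI) (𝓞 F)) = v.asIdeal)
    (hval : ∀ x : KI, w.valuation F (algebraMap KI F x) = v.valuation KI x)
    (hn : Ideal.absNorm w.asIdeal = Ideal.absNorm v.asIdeal ^ 2) (z : Gi) (hz : ¬ b ∣ z) :
    ∃ c : w.adicCompletionIntegers F, lo w z = c ^ 2 := by
  have hz0 : z ≠ 0 := fun h => hz (h ▸ dvd_zero b)
  obtain ⟨y, hy⟩ := square_inert hb hP hv hw hn hval (c := emK z) (PID.emK_ne hz0)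
    ⟨1, by rw [one_pow]; exact (PID.val_eq_one_iff hv z).2 hz⟩
  have hlo : ((lo w z : w.adicCompletionIntegers F) : w.adicCompletion F) = y * y := hy
  have h1 : Valued.v ((lo w z : w.adicCompletionIntegers F) : w.adicCompletion F) ≤ 1 :=
    (HeightOneSpectrum.mem_adicCompletionIntegers (𝓞 F) F w).1 (lo w z).2
  have h2 : Valued.v y ≤ 1 := by
    rw [hlo, map_mul] at h1
    by_contra hlt
    rw [not_le] at hlt
    exact absurd h1 (not_le.2 (one_lt_mul'' hlt hlt))
  refine ⟨⟨y, (HeightOneSpectrum.mem_adicCompletionIntegers (𝓞 F) F w).2 h2⟩, ?_⟩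
  apply Subtype.ext
  rw [pow_two]
  exact hlo

end

end QTC
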