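import Pool.Agent.QTS.T3

/-!
# [QTB-G1a] the index of the points of nonsingular reduction is 4
-/

set_option autoImplicit false

open NumberField IsDedekindDomain
open scoped Classical

namespace QTC

/-- [QTB-G1a] Model `QTS.index_I` (QTS/T1.lean) and `PI.index_I` (PI/T1a.lean). PROOF. `D = e²`, `e` a uniformizer. `PI.index_of` with the four representatives `0`, `T0 = (0,0)`, `(e, 0)`, `(-e, 0)`. Closed under negation, the complement is stable (`QTS.t1_lt`): literally as in `QTS.index_I` (only `V D < 1` is used there; here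
`V D = exp (-2)`). Cosets: let `P = (x, y)`, `V x < 1`. `x = 0`: `P + T0 = 0`. `V x ≤ exp (-2) = V D`: `x(P + T0) = -D/x` (`QTS.add_T0`) has `V ≥ 1`. Otherwise `V x = exp (-1)` and `y² = x (x - e) (x + e)`; if both `V (x - e)`, `V (x + e)` were `exp (-1)`, then `V (y²) = exp (-3)`, odd: contradiction; so
`V (x - e) ≤ exp (-2)` or `V (x + e) ≤ exp (-2)`. First case: `x = e`: `y = 0`, `P + (e, 0) = 0`. `x ≠ e`: `QTS.t0_add` with `(e, 0)`: `x₃ = (y/(x - e))² - x - e = x (x + e)/(x - e) - (x + e) = e (x + e)/(x - e) = e + 2 e²/(x - e)`, `V (2 e²/(x - e)) ≥ 1 > V e`, so `V x₃ ≥ 1`. The second case is the same with `-e`.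
The differences of two different representatives are `± T0`, `(± e, 0)`, not in `SI` (`(e,0) + (-e,0) = T0`-type relations: collinear with `y = 0`; or use the criterion of `PI.index_of`). -/
theorem index_four {K : Type} [Field K] (V : Valuation K (WithZero (Multiplicative ℤ))) {e : K} (h2 : (2 : K) ≠ 0)
    (hD : e ^ 2 ≠ 0) (hV2 : V 2 = 1) (he : V e = WithZero.exp (-1 : ℤ)) :
    (AddSubgroup.closure (QTS.SI V h2 hD)).index = 4 := by
  have hd : e ≠ 0 := fun h => hD (by rw [h]; ring)
  have hS : QTS.SI V h2 hD = PI.SI V h2 hd := rfl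
  rw [hS]
  exact PI.index_I V h2 hd he hV2.le

end QTC
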