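import Pool.Agent.QTB.G1a

/-!
# [QTB-G1b] Tamagawa number 4
-/

set_option autoImplicit false

open NumberField IsDedekindDomain
open scoped Classical

namespace QTC

/-- [QTB-G1b] Model `QTS.tamagawa_two` (QTS/T3.lean: `t3_NR`, `t3a_main` ...), with `QTS.unit_odd` (`n = 2`, `w = c²`) for the minimality and `index_four` for `e = algebraMap (p c)` instead of `index_I`. -/
theorem tamagawa_four (A : Type) [CommRing A] [IsDomain A] [IsDiscreteValuationRing A] (K : Type) [Field K]
    [Algebra A K] [IsFractionRing A K] (hK : (2 : K) ≠ 0) (h2 : IsUnit (2 : A)) (p c : A) (hp : Irreducible p)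
    (hc : IsUnit c) : SBSD.tamagawa A (QT.W (algebraMap A K (p ^ 2 * c ^ 2))) = 4 := by
  have hinj : Function.Injective (algebraMap A K) := IsFractionRing.injective A K
  have hp0 : p ≠ 0 := hp.ne_zero
  have hc0 : c ≠ 0 := hc.ne_zero
  have hD : p ^ 2 * c ^ 2 ∈ IsLocalRing.maximalIdeal A := by
    rw [IsLocalRing.mem_maximalIdeal]
    exact fun h => hp.not_isUnit (isUnit_of_dvd_unit ⟨p * c ^ 2, by ring⟩ h)
  have hd0 : algebraMap A K (p ^ 2 * c ^ 2) ≠ 0 := by
    rw [Ne, map_eq_zero_iff _ hinj]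
    exact mul_ne_zero (pow_ne_zero 2 hp0) (pow_ne_zero 2 hc0)
  have hpc : Irreducible (p * c) := (irreducible_mul_isUnit hc).2 hp
  have hVe : (IsDiscreteValuationRing.maximalIdeal A).valuation K (algebraMap A K (p * c)) =
      WithZero.exp (-1 : ℤ) := CMT.val_irreducible A (p * c) hpc
  have hV2 : (IsDiscreteValuationRing.maximalIdeal A).valuation K 2 = 1 := by
    have h3 : (2 : K) = algebraMap A K 2 := (map_ofNat (algebraMap A K) 2).symm
    rw [h3]
    apply le_antisymm (HeightOneSpectrum.valuation_le_one _ _)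
    rw [← not_lt, HeightOneSpectrum.valuation_lt_one_iff_mem]
    intro h4
    have h5 : (2 : A) ∈ IsLocalRing.maximalIdeal A := h4
    exact (IsLocalRing.mem_maximalIdeal _).1 h5 h2
  have hsq : algebraMap A K (p ^ 2 * c ^ 2) = (algebraMap A K (p * c)) ^ 2 := by
    rw [← map_pow, mul_pow]
  have hidx : ∀ (D : K) (hD : D ≠ 0), D = (algebraMap A K (p * c)) ^ 2 →
      (AddSubgroup.closure (QTS.SI ((IsDiscreteValuationRing.maximalIdeal A).valuation K) hK hD)).index
        = 4 := by
    intro D hD hDe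
    subst hDe
    exact index_four _ hK hD hV2 hVe
  have hW : SBSD.tamagawa A (QT.W (algebraMap A K (p ^ 2 * c ^ 2))) =
      SBSD.tamagawa A ((QT.W (p ^ 2 * c ^ 2)).map (algebraMap A K)) := by rw [QTS.W_map]
  rw [hW, VC63.tamagawa_eq (QT.W (p ^ 2 * c ^ 2))
      (QTS.unit_odd A h2 p (c ^ 2) hp (hc.pow 2) 2 (by norm_num)),
    PI.t3a_index_congr A K (QT.W (p ^ 2 * c ^ 2)) _ (QTS.W_map _ (p ^ 2 * c ^ 2))
      (QTS.SI ((IsDiscreteValuationRing.maximalIdeal A).valuation K) hK hd0) (Or.inl rfl) ?_]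
  · exact hidx _ hd0 hsq
  · intro x y h h'
    rw [QTS.t3_NR A K (p ^ 2 * c ^ 2) hD x y h]
    constructor
    · intro H
      exact Or.inr ⟨x, y, (QTS.W_nonsingular hK hd0 x y).1 h', rfl, H⟩
    · rintro (H | ⟨x', y', h'', H, H'⟩)
      · exact absurd H (by intro H; cases H)
      · unfold QTS.mk at H
        rw [WeierstrassCurve.Affine.Point.some.injEq] at H
        rw [H.1]
        exact H'

end QTC
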