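import Pool.Agent.QTB.G0
import Pool.Agent.QTB.G1b

/-!
# [QTB-G3a] odd places over a discrete valuation ring
-/

set_option autoImplicit false

open NumberField IsDedekindDomain
open scoped Classical

namespace QTC

open PI (Gi sy ii la Prim emK eG KI la_prime pl)
open QT (st Dd Adm bD gD Good)
open QTD (LocB cl vla)

private theorem g3a_two {A : Type} [CommRing A] [IsDomain A] [IsDiscreteValuationRing A] {f : Gi →+* A} {b : Gi}
    (hb : Prime b) (hp : Prim b) (hA : At A f b) : IsUnit (2 : A) := by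
  have h1 := hA.unit 2 (PI.t5b_not_two hb hp)
  rwa [map_ofNat] at h1

private theorem g3a_prime {s t : ℕ} {S : Finset Gi} {a : Gi → ℕ} (h : Good s t S a) {b : Gi} (hb : b ∈ S) :
    Prime b ∧ Prim b := (QTS.good_adm h).1 b hb

section
variable {A : Type} [CommRing A] [IsDomain A] [IsDiscreteValuationRing A] (K : Type) [Field K] [Algebra A K]
  [IsFractionRing A K] {f : Gi →+* A} {s t : ℕ} {S : Finset Gi} {a : Gi → ℕ}

/-- [QTB-G3a] PROOF. `QTS.unit_v_odd` (QTS/T5.lean). -/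
theorem at_unit_odd (h : Good s t S a) {b : Gi} (hb : Prime b) (hp : Prim b) (hA : At A f b)
    (T : WeierstrassCurve.VariableChange K)
    (hT : (T • (QT.W (f (Dd s t S a))).map (algebraMap A K)).IsMinimal A) :
    (IsDiscreteValuationRing.maximalIdeal A).valuation K (T.u : K) = 1 := by
  by_cases hS : b ∈ S
  · obtain ⟨w, hw, hbw⟩ := QTS.Dd_odd (QTS.good_adm h) hS
    rw [hw, map_mul f, map_pow f] at hT
    refine QTS.unit_odd _ (g3a_two hb hp hA) _ _ hA.irr (hA.unit w hbw) (a b) ?_ T hT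
    rcases (QTS.good_adm h).2.1 b hS with h1 | h1 | h1 <;> omega
  · refine QTS.unit_good _ _ ?_ T hT
    have h1 := hA.unit (2 * Dd s t S a) (by
      intro h2
      rcases hb.dvd_or_dvd h2 with h3 | h3
      · exact PI.t5b_not_two hb hp h3
      · exact QTS.Dd_not (QTS.good_adm h) hb hp hS h3)
    rw [map_mul f 2, map_ofNat] at h1
    exact h1

end

section
variable {A : Type} [CommRing A] [IsDomain A] [IsDiscreteValuationRing A] (K : Type) [Field K] [Algebra A K]
  [IsFractionRing A K] {f : Gi →+* A} {s t : ℕ} {S : Finset Gi} {a : Gi → ℕ}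

/-- [QTB-G3b] PROOF. `QTS.tam_odd` (QTS/T5.lean); the approximation is used only if `a b = 2`. -/
theorem at_tam_odd (hK : (2 : K) ≠ 0) (h : Good s t S a) {b : Gi} (hb : b ∈ S) (hA : At A f b)
    (hor : a b ≠ 2 ∨ ∀ x : A, ∃ y : Gi, f b ∣ x - f y) :
    SBSD.tamagawa A (QT.W (algebraMap A K (f (Dd s t S a)))) = 2 := by
  obtain ⟨hbp, hp⟩ := g3a_prime h hb
  have hirr := hA.irr
  have hex : ∃ w, Dd s t S a = b ^ a b * w ∧ ¬ b ∣ w ∧
      (a b = 2 → ∀ x : Gi, ¬ b ∣ x ^ 2 - w) := by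
    by_cases h2 : a b = 2
    · obtain ⟨w, hw, hn⟩ := QTS.nonres h hb h2
      refine ⟨w, by rw [h2]; exact hw, ?_, fun _ => hn⟩
      intro h3
      apply hn 0
      rw [zero_pow two_ne_zero, zero_sub, dvd_neg]
      exact h3
    · obtain ⟨w, hw, hbw⟩ := QTS.Dd_odd (QTS.good_adm h) hb
      exact ⟨w, hw, hbw, fun h3 => absurd h3 h2⟩
  obtain ⟨w, hw, hbw, hn⟩ := hex
  have hwu := hA.unit w hbw
  have hD : f (Dd s t S a) = f b ^ a b * f w := by
    rw [hw, map_mul f, map_pow f]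
  have ha : 1 ≤ a b := by
    rcases (QTS.good_adm h).2.1 b hb with h1 | h1 | h1 <;> omega
  refine QTS.tamagawa_two _ _ hK (f b) hirr _ ?_ ?_ ?_ ?_
  · rw [hD]
    exact mul_ne_zero (pow_ne_zero _ hirr.ne_zero) hwu.ne_zero
  · rw [hD]
    exact dvd_mul_of_dvd_left (dvd_pow_self _ (by omega)) _
  · intro T hT
    exact at_unit_odd K h hbp hp hA T hT
  · intro x y hxy hx
    rw [hD] at hxy ⊢
    rw [hwu.mul_right_dvd]
    rcases (QTS.good_adm h).2.1 b hb with h1 | h1 | h1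
    · rw [h1, pow_one]
      exact hx
    · rw [h1] at hxy ⊢
      refine QTS.no2_odd _ _ hirr ?_ x y hxy hx
      intro z hz
      obtain ⟨z', hz'⟩ := (hor.resolve_left (fun h2 => h2 h1)) z
      refine hn h1 z' (hA.dvd ?_)
      rw [map_sub, map_pow]
      have h3 : f z' ^ 2 - f w = (z ^ 2 - f w) - (z - f z') * (z + f z') := by ring
      rw [h3]
      exact dvd_sub hz (dvd_mul_of_dvd_left hz' _)
    · rw [h1] at hxy ⊢
      exact QTS.no3 _ _ hirr hwu x y hxy hx

end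

section
variable {A : Type} [CommRing A] [IsDomain A] [IsDiscreteValuationRing A] (K : Type) [Field K] [Algebra A K]
  [IsFractionRing A K] {f : Gi →+* A} {s t : ℕ} {S : Finset Gi} {a : Gi → ℕ}

/-- [QTB-G3c] PROOF. `Dd = b² w`, `b ∤ w` (`QTS.Dd_odd`), `f w = c²`, `tamagawa_four` (G1). -/
theorem at_tam_four (hK : (2 : K) ≠ 0) (h : Good s t S a) {b : Gi} (hb : b ∈ S) (h2 : a b = 2) (hA : At A f b)
    (hsq : ∀ z : Gi, ¬ b ∣ z → ∃ c : A, f z = c ^ 2) :
    SBSD.tamagawa A (QT.W (algebraMap A K (f (Dd s t S a)))) = 4 := by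
  obtain ⟨hbp, hp⟩ := g3a_prime h hb
  obtain ⟨w, hw, hbw⟩ := QTS.Dd_odd (QTS.good_adm h) hb
  obtain ⟨c, hc⟩ := hsq w hbw
  have hcu : IsUnit c := by
    have h1 := hA.unit w hbw
    rw [hc] at h1
    exact (isUnit_pow_iff two_ne_zero).1 h1
  have hD : f (Dd s t S a) = f b ^ 2 * c ^ 2 := by
    rw [hw, h2, map_mul f, map_pow f, hc]
  rw [hD]
  exact tamagawa_four A K hK (g3a_two hbp hp hA) (f b) c hA.irr hcu

end

end QTC
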