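import Pool.Agent.QTB.G0
import Pool.Agent.QTS.G3

/-!
# [QTB-G3d] the place `1 + i` over a discrete valuation ring
-/

set_option autoImplicit false

open NumberField IsDedekindDomain
open scoped Classical

namespace QTC

open PI (Gi sy ii la Prim emK eG KI la_prime pl)
open QT (st Dd Adm bD gD Good)
open QTD (LocB cl vla)

theorem g3d_ii {A : Type} [CommRing A] (f : Gi →+* A) : f ii ^ 2 = -1 := by
  rw [← map_pow]
  have h1 : ii ^ 2 = -1 := by decide
  rw [h1, map_neg, map_one]

theorem g3d_la {A : Type} [CommRing A] (f : Gi →+* A) : f la = 1 + f ii := by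
  have h1 : la = 1 + ii := by decide
  rw [h1, map_add, map_one]

/-- the classes of `D` at `la`, `t = 0` -/
theorem g3d_class_zero {A : Type} [CommRing A] (f : Gi →+* A) {s t : ℕ} {S : Finset Gi} {a : Gi → ℕ}
    (h : Good s t S a) (ht : t = 0) (hsp : ¬ (t = 0 ∧ s = 0 ∧ (8 : ℤ) ∣ (Dd s t S a).re - 1)) :
    (2 : A) ∣ f (Dd s t S a) - f ii ∨ (4 : A) ∣ f (Dd s t S a) - (3 + 2 * f ii) ∨
      (8 : A) ∣ f (Dd s t S a) - (5 + 2 * f ii) ∨ (8 : A) ∣ f (Dd s t S a) - (5 - 2 * f ii) := by
  subst ht
  have e1 : (⟨3, 2⟩ : Gi) = 3 + 2 * ii := by decide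
  have e2 : (⟨5, 2⟩ : Gi) = 5 + 2 * ii := by decide
  have e3 : (⟨5, -2⟩ : Gi) = 5 - 2 * ii := by decide
  have h1 := QTS.class_zero h (fun h2 => hsp ⟨rfl, h2⟩)
  rw [e1, e2, e3] at h1
  rcases h1 with h1 | h1 | h1 | h1
  · left
    have h2 := map_dvd f h1
    rw [map_sub, map_ofNat] at h2
    exact h2
  · right; left
    have h2 := map_dvd f h1
    rw [map_sub, map_add, map_mul, map_ofNat, map_ofNat, map_ofNat] at h2
    exact h2
  · right; right; left
    have h2 := map_dvd f h1
    rw [map_sub, map_add, map_mul, map_ofNat, map_ofNat, map_ofNat] at h2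
    exact h2
  · right; right; right
    have h2 := map_dvd f h1
    rw [map_sub, map_sub, map_mul, map_ofNat, map_ofNat, map_ofNat] at h2
    exact h2

theorem g3d_lo {A : Type} [CommRing A] (f : Gi →+* A) {D m : Gi}
    (hD : D = 1 + 2 * ii + 8 * m ∨ D = 1 - 2 * ii + 8 * m) :
    f D = 1 + 2 * f ii + 8 * f m ∨ f D = 1 - 2 * f ii + 8 * f m := by
  rcases hD with hD | hD
  · left
    rw [hD, map_add, map_add, map_mul, map_mul, map_one, map_ofNat, map_ofNat]
  · right
    rw [hD, map_add, map_sub, map_mul, map_mul, map_one, map_ofNat, map_ofNat]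

section
variable {A : Type} [CommRing A] [IsDomain A] [IsDiscreteValuationRing A] (K : Type) [Field K] [Algebra A K]
  [IsFractionRing A K] {f : Gi →+* A} {s t : ℕ} {S : Finset Gi} {a : Gi → ℕ}

/-- [QTB-G3d] PROOF. `QTS.unit_v_la` (QTS/T5.lean). -/
theorem at_unit_la (h : Good s t S a) (hsp : ¬ (t = 0 ∧ s = 0 ∧ (8 : ℤ) ∣ (Dd s t S a).re - 1)) (hA : At A f la)
    (hres : ∀ x : A, f la ∣ x ∨ f la ∣ x - 1) (T : WeierstrassCurve.VariableChange K)
    (hT : (T • (QT.W (f (Dd s t S a))).map (algebraMap A K)).IsMinimal A) :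
    (IsDiscreteValuationRing.maximalIdeal A).valuation K (T.u : K) = 1 := by
  by_cases ht : t = 0
  · have hcl := g3d_class_zero f h ht hsp
    exact QTS.unit_la_zero _ _ _ (g3d_ii f) (g3d_la f) hA.irr hres _
      (QTS.unit_zero _ _ (g3d_ii f) (g3d_la f) hA.irr _ hcl)
      (QTS.no_sq _ _ (g3d_ii f) (g3d_la f) hA.irr hres _ hcl) T hT
  · rw [QTS.Dd_eq, map_mul f, map_pow f] at hT
    exact QTS.unit_la_pos _ _ _ (g3d_ii f) (g3d_la f) hA.irr hres _
      (hA.unit _ (QTS.U_la (QTS.good_adm h))) t (Nat.one_le_iff_ne_zero.2 ht) (QTS.good_adm h).2.2.2 T hT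

end

section
variable {A : Type} [CommRing A] [IsDomain A] [IsDiscreteValuationRing A] (K : Type) [Field K] [Algebra A K]
  [IsFractionRing A K] {f : Gi →+* A} {s t : ℕ} {S : Finset Gi} {a : Gi → ℕ}

/-- [QTB-G3e] PROOF. `QTS.tam_la` (QTS/T5.lean); in the special case (`t = 0`) `QTS.tam_sp` (QTS/G3.lean: `g3_class`, `good_model`, `sp_tamagawa`). -/
theorem at_tam_la (hK : (2 : K) ≠ 0) (h : Good s t S a) (hA : At A f la) (hres : ∀ x : A, f la ∣ x ∨ f la ∣ x - 1) :
    SBSD.tamagawa A (QT.W (algebraMap A K (f (Dd s t S a)))) = if t = 0 then 1 else 2 := by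
  have hirr := hA.irr
  by_cases hsp : t = 0 ∧ s = 0 ∧ (8 : ℤ) ∣ (Dd s t S a).re - 1
  · obtain ⟨ht, hs, h8⟩ := hsp
    subst ht
    subst hs
    rw [if_pos rfl]
    obtain ⟨m, hm⟩ := QTS.g3_class h h8
    obtain ⟨T, I, h1, _, h3, _⟩ := QTS.good_model A K (f ii) (f la) (g3d_ii f) (g3d_la f) hirr hres _ _
      (g3d_lo f hm)
    exact QTS.sp_tamagawa _ _ _ T I h1 h3
  · have hu : ∀ T : WeierstrassCurve.VariableChange K,
        (T • (QT.W (f (Dd s t S a))).map (algebraMap A K)).IsMinimal A →
        (IsDiscreteValuationRing.maximalIdeal A).valuation K (T.u : K) = 1 := by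
      intro T hT
      exact at_unit_la K h hsp hA hres T hT
    by_cases ht : t = 0
    · rw [if_pos ht]
      have hcl := g3d_class_zero f h ht hsp
      refine QTS.tamagawa_one _ _ _ _ (g3d_ii f) (g3d_la f) hirr hres _
        (QTS.unit_zero _ _ (g3d_ii f) (g3d_la f) hirr _ hcl) hu ?_
      intro x y hxy
      by_contra hx
      apply QTS.no_sq _ _ (g3d_ii f) (g3d_la f) hirr hres _ hcl x y hx
      rw [hxy, sub_self]
      exact dvd_zero _
    · rw [if_neg ht]
      have hwu := hA.unit _ (QTS.U_la (QTS.good_adm h))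
      have hD : f (Dd s t S a) = f la ^ t * f (QTS.U s S a) := by
        rw [QTS.Dd_eq, map_mul f, map_pow f]
      refine QTS.tamagawa_two _ _ hK (f la) hirr _ ?_ ?_ hu ?_
      · rw [hD]
        exact mul_ne_zero (pow_ne_zero _ hirr.ne_zero) hwu.ne_zero
      · rw [hD]
        exact dvd_mul_of_dvd_left (dvd_pow_self _ ht) _
      · intro x y hxy hx
        rw [hD] at hxy ⊢
        rw [hwu.mul_right_dvd]
        have ht3 := (QTS.good_adm h).2.2.2
        have h4 : t = 1 ∨ t = 2 ∨ t = 3 := by omega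
        rcases h4 with h4 | h4 | h4
        · rw [h4, pow_one]
          exact hx
        · subst h4
          refine QTS.no2_la _ _ (g3d_ii f) (g3d_la f) hirr hres _ ?_ x y hxy hx
          have e1 : (⟨3, 2⟩ : Gi) = 3 + 2 * ii := by decide
          have e2 : (⟨1, -2⟩ : Gi) = 1 - 2 * ii := by decide
          have h5 := QTS.class_two h
          rw [e1, e2] at h5
          rcases h5 with h5 | h5 | h5 | h5 | h5
          · left
            have h6 := map_dvd f h5
            rw [map_sub, map_pow] at h6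
            exact h6
          · right; left
            have h6 := map_dvd f h5
            rw [map_sub, map_pow, map_ofNat] at h6
            exact h6
          · right; right; left
            have h6 := map_dvd f h5
            rw [map_sub, map_pow, map_ofNat] at h6
            exact h6
          · right; right; right; left
            have h6 := map_dvd f h5
            rw [map_sub, map_sub, map_mul, map_pow, map_one, map_ofNat] at h6
            exact h6
          · right; right; right; right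
            have h6 := map_dvd f h5
            rw [map_sub, map_add, map_mul, map_pow, map_ofNat, map_ofNat] at h6
            exact h6
        · rw [h4] at hxy ⊢
          exact QTS.no3 _ _ hirr hwu x y hxy hx

end

section
variable {A : Type} [CommRing A] [IsDomain A] [IsDiscreteValuationRing A] (K : Type) [Field K] [Algebra A K]
  [IsFractionRing A K] {f : Gi →+* A} {s t : ℕ} {S : Finset Gi} {a : Gi → ℕ}

/-- [QTB-G3f] PROOF. `QTS.neron_sp` (QTS/G3.lean): `g3_class`, `QTS.good_model`, `QTS.sp_val`. -/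
theorem at_val_sp (h : Good 0 0 S a) (h8 : (8 : ℤ) ∣ (Dd 0 0 S a).re - 1) (hA : At A f la)
    (hres : ∀ x : A, f la ∣ x ∨ f la ∣ x - 1) (T : WeierstrassCurve.VariableChange K)
    (hT : (T • (QT.W (f (Dd 0 0 S a))).map (algebraMap A K)).IsMinimal A) :
    (IsDiscreteValuationRing.maximalIdeal A).valuation K (T.u : K) =
      (IsDiscreteValuationRing.maximalIdeal A).valuation K (algebraMap A K (f la)) := by
  obtain ⟨m, hm⟩ := QTS.g3_class h h8
  obtain ⟨T₁, I, h1, h2, h3, _⟩ := QTS.good_model A K (f ii) (f la) (g3d_ii f) (g3d_la f) hA.irr hres _ _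
    (g3d_lo f hm)
  rw [QTS.W_map] at hT
  rw [← h2]
  exact QTS.sp_val A K _ T₁ I h1 h3 T hT

end

end QTC
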