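import Pool.Agent.QTB.G0

/-!
# [QTB-G4] the Néron factor and the Tamagawa number at `1 + i`
-/

set_option autoImplicit false

open NumberField IsDedekindDomain
open scoped Classical

namespace QTC

open PI (Gi sy ii la Prim emK eG KI la_prime pl)
open QT (st Dd Adm bD gD Good)
open QTD (LocB cl vla)

/-- the Néron factor at `1 + i` -/
noncomputable def nla (s t : ℕ) (S : Finset Gi) (a : Gi → ℕ) : ℕ :=
  if t = 0 ∧ s = 0 ∧ (8 : ℤ) ∣ (Dd s t S a).re - 1 then 2 else 1

/-- the Tamagawa number at `1 + i` -/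
def cla (t : ℕ) : ℕ := if t = 0 then 1 else 2

end QTC
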