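import Pool.Agent.QTB.G3a
import Pool.Agent.QTB.G0d
import Pool.Agent.QTB.G0f

/-!
# [QTB-G4a] the odd places of `F`
-/

set_option autoImplicit false

open NumberField IsDedekindDomain
open scoped Classical

namespace QTC

open PI (Gi sy ii la Prim emK eG KI la_prime pl)
open QT (st Dd Adm bD gD Good)
open QTD (LocB cl vla)

section
variable {s t : ℕ} {S : Finset Gi} {a : Gi → ℕ} (h : Good s t S a) {F : Type} [Field F] [NumberField F] [Algebra KI F]
  {v : HeightOneSpectrum (𝓞 KI)} {w : HeightOneSpectrum (𝓞 F)} {b : Gi}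
include h

/-- [QTB-G4a] the good odd places, also the ramified ones. PROOF. `lo_unit` for `2 D` (`PI.t5b_not_two`, `QTS.Dd_not`): `IsUnit (2 * lo w D)`; `lo_bc'`, `QTS.tamagawa_good`, `QTS.unit_good`, `PI.neron_of F w`. -/
theorem w_good (hb : Prime b) (hp : Prim b) (hv : v.asIdeal = Ideal.span {eG b})
    (hw : w.asIdeal.comap (algebraMap (𝓞 KI) (𝓞 F)) = v.asIdeal) (hS : b ∉ S) :
    SBSD.tam (EF s t S a F) w = 1 ∧ SBSD.neron (EF s t S a F) w = 1 := by
  have h1 := lo_unit hv hw (2 * Dd s t S a) (by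
    intro h2
    rcases hb.dvd_or_dvd h2 with h3 | h3
    · exact PI.t5b_not_two hb hp h3
    · exact QTS.Dd_not (QTS.good_adm h) hb hp hS h3)
  rw [map_mul (lo w) 2, map_ofNat] at h1
  constructor
  · unfold SBSD.tam EF
    rw [lo_bc']
    exact QTS.tamagawa_good _ _ _ h1
  · apply PI.neron_of F w
    intro T hT
    unfold EF at hT
    rw [lo_bc] at hT
    exact QTS.unit_good _ _ h1 T hT

end

section
variable {s t : ℕ} {S : Finset Gi} {a : Gi → ℕ} (h : Good s t S a) {F : Type} [Field F] [NumberField F] [Algebra KI F]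
  {v : HeightOneSpectrum (𝓞 KI)} {w : HeightOneSpectrum (𝓞 F)} {b : Gi}
include h

/-- [QTB-G4b] PROOF. `lo_at`, `at_unit_odd`, `PI.neron_of`, `lo_bc`. -/
theorem w_neron_odd (hb : b ∈ S) (hv : v.asIdeal = Ideal.span {eG b})
    (hw : w.asIdeal.comap (algebraMap (𝓞 KI) (𝓞 F)) = v.asIdeal)
    (hval : ∀ x : KI, w.valuation F (algebraMap KI F x) = v.valuation KI x) :
    SBSD.neron (EF s t S a F) w = 1 := by
  obtain ⟨hbp, hp⟩ := QTS.t5_prime h hb
  apply PI.neron_of F w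
  intro T hT
  unfold EF at hT
  rw [lo_bc] at hT
  exact at_unit_odd _ h hbp hp (lo_at hbp hv hw hval) T hT

end

section
variable {s t : ℕ} {S : Finset Gi} {a : Gi → ℕ} (h : Good s t S a) {F : Type} [Field F] [NumberField F] [Algebra KI F]
  {v : HeightOneSpectrum (𝓞 KI)} {w : HeightOneSpectrum (𝓞 F)} {b : Gi}
include h

/-- [QTB-G4c] PROOF. `lo_bc'`, `at_tam_odd`, `lo_app`. -/
theorem w_tam_two (hb : b ∈ S) (hv : v.asIdeal = Ideal.span {eG b})
    (hw : w.asIdeal.comap (algebraMap (𝓞 KI) (𝓞 F)) = v.asIdeal)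
    (hval : ∀ x : KI, w.valuation F (algebraMap KI F x) = v.valuation KI x)
    (hor : a b ≠ 2 ∨ Ideal.absNorm w.asIdeal = Ideal.absNorm v.asIdeal) :
    SBSD.tam (EF s t S a F) w = 2 := by
  obtain ⟨hbp, hp⟩ := QTS.t5_prime h hb
  unfold SBSD.tam EF
  rw [lo_bc']
  refine at_tam_odd _ (lo_two w) h hb (lo_at hbp hv hw hval) ?_
  rcases hor with h1 | h1
  · exact Or.inl h1
  · exact Or.inr fun x => lo_app hbp hv hw hval h1 x

end

section
variable {s t : ℕ} {S : Finset Gi} {a : Gi → ℕ} (h : Good s t S a) {F : Type} [Field F] [NumberField F] [Algebra KI F]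
  {v : HeightOneSpectrum (𝓞 KI)} {w : HeightOneSpectrum (𝓞 F)} {b : Gi}
include h

/-- [QTB-G4d] PROOF. `at_tam_four`, `lo_sq`. -/
theorem w_tam_four (hb : b ∈ S) (h2 : a b = 2) (hv : v.asIdeal = Ideal.span {eG b})
    (hw : w.asIdeal.comap (algebraMap (𝓞 KI) (𝓞 F)) = v.asIdeal)
    (hval : ∀ x : KI, w.valuation F (algebraMap KI F x) = v.valuation KI x)
    (hn : Ideal.absNorm w.asIdeal = Ideal.absNorm v.asIdeal ^ 2) :
    SBSD.tam (EF s t S a F) w = 4 := by
  obtain ⟨hbp, hp⟩ := QTS.t5_prime h hb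
  unfold SBSD.tam EF
  rw [lo_bc']
  exact at_tam_four _ (lo_two w) h hb h2 (lo_at hbp hv hw hval)
    (fun z hz => lo_sq hbp hp hv hw hval hn z hz)

end

end QTC
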