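import Pool.Agent.QTB.G3d
import Pool.Agent.QTB.G0d
import Pool.Agent.QTB.G4

/-!
# [QTB-G4e] the places of `F` above `1 + i`
-/

set_option autoImplicit false

open NumberField IsDedekindDomain
open scoped Classical

namespace QTC

open PI (Gi sy ii la Prim emK eG KI la_prime pl)
open QT (st Dd Adm bD gD Good)
open QTD (LocB cl vla)

section
variable {s t : ℕ} {S : Finset Gi} {a : Gi → ℕ} (h : Good s t S a) {F : Type} [Field F] [NumberField F] [Algebra KI F]
  {v : HeightOneSpectrum (𝓞 KI)} {w : HeightOneSpectrum (𝓞 F)} {b : Gi}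
include h

/-- [QTB-G4e] PROOF. `at_tam_la`, `lo_at`, `lo_res`. -/
theorem w_tam_la (hv : v.asIdeal = Ideal.span {eG la})
    (hw : w.asIdeal.comap (algebraMap (𝓞 KI) (𝓞 F)) = v.asIdeal)
    (hval : ∀ x : KI, w.valuation F (algebraMap KI F x) = v.valuation KI x)
    (hn : Ideal.absNorm w.asIdeal = Ideal.absNorm v.asIdeal) :
    SBSD.tam (EF s t S a F) w = cla t := by
  unfold SBSD.tam EF
  rw [lo_bc']
  exact at_tam_la (w.adicCompletion F) (lo_two w) h (lo_at la_prime hv hw hval) (lo_res hv hw hval hn)

end

section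
variable {F : Type} [Field F] [NumberField F] [Algebra KI F]
  {v : HeightOneSpectrum (𝓞 KI)} {w : HeightOneSpectrum (𝓞 F)}

/-- the norm of `1 + i` at a place above it -/
theorem g4e_norm_la (hv : v.asIdeal = Ideal.span {eG la})
    (hval : ∀ x : KI, w.valuation F (algebraMap KI F x) = v.valuation KI x)
    (hn : Ideal.absNorm w.asIdeal = Ideal.absNorm v.asIdeal) :
    ‖(algebraMap (w.adicCompletionIntegers F) (w.adicCompletion F) (lo w la))‖ = 1 / 2 := by
  have h0 : (eG la : 𝓞 KI) ≠ 0 := by
    intro h
    rw [map_eq_zero_iff _ eG.injective] at h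
    exact la_prime.ne_zero h
  have h1 : algebraMap (w.adicCompletionIntegers F) (w.adicCompletion F) (lo w la) =
      FinitePlace.embedding w (algebraMap (𝓞 F) F (algebraMap (𝓞 KI) (𝓞 F) (eG la))) := rfl
  have h5 : w.intValuation (algebraMap (𝓞 KI) (𝓞 F) (eG la)) = WithZero.exp (-1 : ℤ) := by
    have h6 := hval (algebraMap (𝓞 KI) KI (eG la))
    rw [v.valuation_of_algebraMap, HeightOneSpectrum.intValuation_singleton v h0 hv] at h6
    rw [← w.valuation_of_algebraMap (K := F)]
    exact h6
  rw [h1, FinitePlace.norm_embedding_int, h5,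
    WithZeroMulInt.toNNReal_neg_apply _ (WithZero.exp_ne_zero)]
  have h2 : (Ideal.absNorm w.asIdeal : NNReal) = 2 := by
    rw [hn]
    have h3 : Ideal.absNorm v.asIdeal = Nat.card (𝓞 KI ⧸ v.asIdeal) := rfl
    rw [h3, PI.card_quot hv]
    have hn : la.norm.natAbs = 2 := by decide
    rw [hn]
    norm_num
  rw [h2]
  have h4 : Multiplicative.toAdd (WithZero.unzero (WithZero.exp_ne_zero (a := (-1 : ℤ)))) = -1 := rfl
  rw [h4]
  norm_num

end

section
variable {s t : ℕ} {S : Finset Gi} {a : Gi → ℕ} (h : Good s t S a) {F : Type} [Field F] [NumberField F] [Algebra KI F]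
  {v : HeightOneSpectrum (𝓞 KI)} {w : HeightOneSpectrum (𝓞 F)} {b : Gi}
include h

/-- [QTB-G4f] PROOF. Not the special case: `at_unit_la`, `PI.neron_of`. Special case (`t = 0`, `s = 0`, `8 ∣ re D - 1`): as `QTS.neron_sp` (QTS/G3.lean) with `at_val_sp` and `‖lo w la‖ = 1/2` (`QTS.g3_norm_la`: `FinitePlace.norm_embedding_int`, the valuation of `algebraMap (eG la)` at `w` is
`exp (-1)` by `hval`, `absNorm w = absNorm v = 2`). -/
theorem w_neron_la (hv : v.asIdeal = Ideal.span {eG la})
    (hw : w.asIdeal.comap (algebraMap (𝓞 KI) (𝓞 F)) = v.asIdeal)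
    (hval : ∀ x : KI, w.valuation F (algebraMap KI F x) = v.valuation KI x)
    (hn : Ideal.absNorm w.asIdeal = Ideal.absNorm v.asIdeal) :
    SBSD.neron (EF s t S a F) w = nla s t S a := by
  have hA := lo_at la_prime hv hw hval
  have hres := lo_res hv hw hval hn
  unfold nla
  split_ifs with hsp
  · obtain ⟨rfl, rfl, h8⟩ := hsp
    have hT := ((EF 0 0 S a F).baseChange (w.adicCompletion F)).exists_isMinimal
      (w.adicCompletionIntegers F) |>.choose_spec
    have hT' := hT
    unfold EF at hT'
    rw [lo_bc] at hT'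
    have hu := at_val_sp (w.adicCompletion F) h h8 hA hres _ hT'
    unfold SBSD.neron
    have hu' : (IsDiscreteValuationRing.maximalIdeal (w.adicCompletionIntegers F)).valuation (w.adicCompletion F)
        ((((EF 0 0 S a F).baseChange (w.adicCompletion F)).exists_isMinimal
          (w.adicCompletionIntegers F)).choose.u : w.adicCompletion F) =
        (IsDiscreteValuationRing.maximalIdeal (w.adicCompletionIntegers F)).valuation (w.adicCompletion F)
          (algebraMap (w.adicCompletionIntegers F) (w.adicCompletion F) (lo w la)) := by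
      exact at_val_sp (w.adicCompletion F) h h8 hA hres _ (by rw [← lo_bc]; exact hT)
    generalize ((((((EF 0 0 S a F).baseChange (w.adicCompletion F)).exists_isMinimal
      (w.adicCompletionIntegers F)).choose.u : (w.adicCompletion F)ˣ)) : w.adicCompletion F) = u at hu' ⊢
    have hl0 : algebraMap (w.adicCompletionIntegers F) (w.adicCompletion F) (lo w la) ≠ 0 := by
      intro h4
      have h5 := g4e_norm_la hv hval hn
      rw [h4, norm_zero] at h5
      norm_num at h5
    set π := algebraMap (w.adicCompletionIntegers F) (w.adicCompletion F) (lo w la) with hπ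
    have hval' : (IsDiscreteValuationRing.maximalIdeal (w.adicCompletionIntegers F)).valuation
        (w.adicCompletion F) (u / π) = 1 := by
      rw [map_div₀, hu', div_self]
      exact (Valuation.ne_zero_iff _).2 hl0
    have hmem : u / π ∈ MonoidHom.mker ((IsDiscreteValuationRing.maximalIdeal
        (w.adicCompletionIntegers F)).valuation (w.adicCompletion F)) := hval'
    rw [IsDiscreteValuationRing.mker_valuation_eq_isUnitSubmonoid] at hmem
    obtain ⟨u₀, hu₀, hu₁⟩ := hmem
    have hu₀' : IsUnit u₀ := hu₀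
    rw [HeightOneSpectrum.adicCompletionIntegers.isUnit_iff_valued_eq_one] at hu₀'
    have hn1 : ‖u / π‖ = 1 := by
      rw [← hu₁]
      change ‖(u₀ : w.adicCompletion F)‖ = 1
      rw [FinitePlace.norm_def, hu₀', map_one]
      rfl
    rw [norm_div, g4e_norm_la hv hval hn] at hn1
    have h8' : ‖u‖ = 1 / 2 := by
      field_simp at hn1
      linarith
    rw [h8']
    norm_num
  · rw [Nat.cast_one]
    apply PI.neron_of
    intro T hT
    unfold EF at hT
    rw [lo_bc] at hT
    exact at_unit_la (w.adicCompletion F) h hsp hA hres T hT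

end

end QTC
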