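import Pool.Agent.QTB.G4
import Pool.Agent.QTS.G3

/-!
# [QTB-G4g] the products over `ℚ(i)`
-/

set_option autoImplicit false

open NumberField IsDedekindDomain
open scoped Classical

namespace QTC

open PI (Gi sy ii la Prim emK eG KI la_prime pl)
open QT (st Dd Adm bD gD Good)
open QTD (LocB cl vla)

/-- [QTB-G4g] the products over `ℚ(i)`. PROOF. `QTS.finprod_tam_of` with `c = cla t` (`QTS.tam_la`, `QTS.tam_sp`), `QTS.finprod_neron_of` with `QTS.neron_la`, `QTS.neron_sp`. -/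
theorem prods_K {s t : ℕ} {S : Finset Gi} {a : Gi → ℕ} (h : Good s t S a) :
    ∏ᶠ v : HeightOneSpectrum (𝓞 KI), SBSD.tam (QT.W ((eG (Dd s t S a) : 𝓞 KI) : KI)) v = 2 ^ S.card * cla t ∧
      ∏ᶠ v : HeightOneSpectrum (𝓞 KI), SBSD.neron (QT.W ((eG (Dd s t S a) : 𝓞 KI) : KI)) v = (nla s t S a : ℝ) := by
  refine ⟨?_, ?_⟩
  · apply QTS.finprod_tam_of h (cla t)
    intro v hv
    by_cases hsp : t = 0 ∧ s = 0 ∧ (8 : ℤ) ∣ (Dd s t S a).re - 1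
    · obtain ⟨rfl, rfl, h8⟩ := hsp
      rw [QTS.tam_sp h h8 v hv]
      rfl
    · rw [QTS.tam_la h hsp v hv]
      rfl
  · apply QTS.finprod_neron_of h (nla s t S a : ℝ)
    intro v hv
    by_cases hsp : t = 0 ∧ s = 0 ∧ (8 : ℤ) ∣ (Dd s t S a).re - 1
    · unfold nla
      rw [if_pos hsp]
      obtain ⟨rfl, rfl, h8⟩ := hsp
      rw [QTS.neron_sp h h8 v hv]
      norm_num
    · unfold nla
      rw [if_neg hsp, QTS.neron_la h hsp v hv]
      norm_num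

theorem g4g_mT_sq (T : Finset Gi) : (∏ q ∈ T, q) ^ 2 = mT T ^ 2 := by
  unfold mT
  rw [← Finset.prod_pow, ← Finset.prod_pow]
  refine Finset.prod_congr rfl fun q _ => ?_
  unfold QT.st
  split_ifs
  · rfl
  · rw [neg_sq]

theorem g4g_dvd {D D' m : Gi} (h0 : cl m 0 0) (hD : D' = D * m ^ 2) :
    (8 : ℤ) ∣ D'.re - 1 ↔ (8 : ℤ) ∣ D.re - 1 := by
  obtain ⟨h1, h2, h3⟩ := h0
  have h4 : (m.re + m.im) % 8 = 1 := by
    rcases h3 with h3 | h3 | h3 | h3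
    · exact h3.2.2
    · exact absurd h3.2.1 (by decide)
    · exact absurd h3.1 (by decide)
    · exact absurd h3.1 (by decide)
  obtain ⟨k, hk⟩ : ∃ k, m.re = 1 + 4 * k := ⟨m.re / 4, by omega⟩
  obtain ⟨l, hl⟩ : ∃ l, m.im = 4 * l := ⟨m.im / 4, by omega⟩
  have hre : (m ^ 2).re = 1 + 8 * (k + 2 * k ^ 2 - 2 * l ^ 2) := by
    rw [sq, Zsqrtd.re_mul, hk, hl]
    ring
  have him : (m ^ 2).im = 8 * (l + 4 * (k * l)) := by
    rw [sq, Zsqrtd.im_mul, hk, hl]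
    ring
  have h5 : D'.re = D.re + 8 * (D.re * (k + 2 * k ^ 2 - 2 * l ^ 2) - D.im * (l + 4 * (k * l))) := by
    rw [hD, Zsqrtd.re_mul, hre, him]
    ring
  rw [h5]
  generalize D.re * (k + 2 * k ^ 2 - 2 * l ^ 2) - D.im * (l + 4 * (k * l)) = w
  omega

/-- [QTB-G4h] the twist by `m` has the same Néron factor. PROOF. `D' = D (∏ q)² = D (mT T)²` and `mT T = 1 mod la⁵` (`QTD.la5_dvd`), so `(mT T)² ≡ 1 mod 8` and `8 ∣ re D' - re D`. (With `m = (x, y)`: `x ≡ 1 mod 4`, `y ≡ 0 mod 4`, `x + y ≡ 1 mod 8` from `cl m 0 0` and `PI`-facts: from `cl` directly: `re % 4 = 1`,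
`im % 2 = 0`, `(re + im) % 8 = 1`, so `im % 4 = 0`; `re (m²) = x² - y² ≡ 1 mod 8`, `im (m²) = 2xy ≡ 0 mod 8`.) -/
theorem nla_union {s t : ℕ} {S : Finset Gi} {a a' : Gi → ℕ} {T : Finset Gi} (h0 : cl (mT T) 0 0)
    (hD : Dd s t (S ∪ T) a' = Dd s t S a * (∏ q ∈ T, q) ^ 2) : nla s t (S ∪ T) a' = nla s t S a := by
  unfold nla
  rw [g4g_mT_sq] at hD
  have h1 := g4g_dvd h0 hD
  simp only [h1]

end QTC
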