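import Pool.Agent.QTB.F0

/-!
# [QTB-G5] the number of inert primes
-/

set_option autoImplicit false

open NumberField IsDedekindDomain
open scoped Classical

namespace QTC

open PI (Gi sy ii la Prim emK eG KI la_prime pl)
open QT (st Dd Adm bD gD Good)
open QTD (LocB cl vla)
open TU (QS Ur Sq Od)

/-- the number of the primes with odd exponents which are inert in `F` -/
noncomputable def nF (S : Finset Gi) (a : Gi → ℕ) (T : Finset Gi) : ℕ :=
  ((SO S a).filter fun p => sy (mT T) p ≠ 0).card

end QTC
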