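import Pool.Agent.QTB.F0

/-!
# [QTB-G5a] products over the places of `F`
-/

set_option autoImplicit false

open NumberField IsDedekindDomain
open scoped Classical

namespace QTC

open PI (Gi sy ii la Prim emK eG KI la_prime pl)
open QT (st Dd Adm bD gD Good)
open QTD (LocB cl vla)
open TU (QS Ur Sq Od)

/-- [QTB-G5a] PROOF. `finprod_eq_prod_of_mulSupport_subset` with the (disjoint) union of the `A v` (`Finset.prod_biUnion`; `w ∈ A v ∩ A v'` gives `v.asIdeal = v'.asIdeal`). -/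
theorem fiber {F : Type} [Field F] [NumberField F] [Algebra KI F] (Vs : Finset (HeightOneSpectrum (𝓞 KI)))
    (A : HeightOneSpectrum (𝓞 KI) → Finset (HeightOneSpectrum (𝓞 F)))
    (hA : ∀ v ∈ Vs, ∀ w, w ∈ A v ↔ w.asIdeal.comap (algebraMap (𝓞 KI) (𝓞 F)) = v.asIdeal) {M : Type} [CommMonoid M]
    (g : HeightOneSpectrum (𝓞 F) → M) (hg : ∀ w, (∀ v ∈ Vs, w ∉ A v) → g w = 1) :
    ∏ᶠ w, g w = ∏ v ∈ Vs, ∏ w ∈ A v, g w := by
  have hdis : ∀ v ∈ Vs, ∀ v' ∈ Vs, v ≠ v' → Disjoint (A v) (A v') := by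
    intro v hv v' hv' hne
    rw [Finset.disjoint_left]
    intro w hw hw'
    apply hne
    have h1 := (hA v hv w).1 hw
    have h2 := (hA v' hv' w).1 hw'
    exact HeightOneSpectrum.ext (h1.symm.trans h2)
  have hsub : Function.mulSupport g ⊆ ((Vs.biUnion A : Finset (HeightOneSpectrum (𝓞 F))) : Set (HeightOneSpectrum (𝓞 F))) := by
    intro w hw
    by_contra hcon
    apply hw
    apply hg w
    intro v hv hwv
    apply hcon
    rw [Finset.mem_coe, Finset.mem_biUnion]
    exact ⟨v, hv, hwv⟩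
  rw [finprod_eq_prod_of_mulSupport_subset g hsub]
  exact Finset.prod_biUnion (fun v hv v' hv' hne => hdis v hv v' hv' hne)

end QTC
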