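import Pool.Agent.QTB.G4a
import Pool.Agent.QTB.G4e
import Pool.Agent.QTB.F8a
import Pool.Agent.QT.ED

/-!
# [QTB-G5b] the products over the places of `F` above a place of `ℚ(i)`
-/

set_option autoImplicit false

open NumberField IsDedekindDomain
open scoped Classical

namespace QTC

open PI (Gi sy ii la Prim emK eG KI la_prime pl)
open QT (st Dd Adm bD gD Good)
open QTD (LocB cl vla)
open TU (QS Ur Sq Od)

theorem g5b_span {p q : Gi} (hp : Prim p) (hq : Prim q)
    (h : (Ideal.span {eG p} : Ideal (𝓞 KI)) = Ideal.span {eG q}) : p = q := by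
  rw [Ideal.span_singleton_eq_span_singleton] at h
  refine PI.prim_unique hp hq ?_
  have h1 := h.map (eG.symm : 𝓞 KI ≃+* Gi)
  simpa using h1

theorem g5b_not_dvd {T : Finset Gi} (hT : ∀ q ∈ T, Prime q ∧ Prim q) {p : Gi} (hp : Prime p) (hP : Prim p)
    (hpT : p ∉ T) : ¬ p ∣ mT T := by
  intro h
  unfold mT at h
  obtain ⟨q, hq, h1⟩ := (Prime.dvd_finsetProd_iff hp _).1 h
  have h2 : p ∣ q := (QT.st_assoc q).dvd_iff_dvd_right.1 h1
  have h3 : Associated p q := hp.associated_of_dvd (hT q hq).1 h2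
  exact hpT (PI.prim_unique hP (hT q hq).2 h3 ▸ hq)

section
variable {s t : ℕ} {S : Finset Gi} {a : Gi → ℕ} {T : Finset Gi} {F : Type} [Field F] [NumberField F] [Algebra KI F]
  (X : Dat s t S a T F)
include X

/-- [QTB-G5b] PROOF. `p ∤ m` (`p ∈ S`, `S`, `T` disjoint; `mT T = ± ∏ q`; `PI.prim_unique`), `Ur_of`. `sy m p = 0`: `Sq_iff`, `QS.split`: two places, both with `tam = 2` (`w_tam_two`, equal norms), product `4`. `sy m p ≠ 0`: `QS.inert`: one place: `a p` odd: `w_tam_two` (`a p ≠ 2`): `2`; `a p = 2` (`QTD.not_odd_two`): `w_tam_four`: `4`. Néron factors: `w_neron_odd`. -/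
theorem prod_S {p : Gi} (hp : p ∈ S) (v : HeightOneSpectrum (𝓞 KI)) (hv : v.asIdeal = Ideal.span {eG p}) :
    ∃ A : Finset (HeightOneSpectrum (𝓞 F)),
      (∀ w, w ∈ A ↔ w.asIdeal.comap (algebraMap (𝓞 KI) (𝓞 F)) = v.asIdeal) ∧
      ∏ w ∈ A, SBSD.tam (EF s t S a F) w = (if Odd (a p) ∧ sy (mT T) p ≠ 0 then 2 else 4) ∧
      ∏ w ∈ A, SBSD.neron (EF s t S a F) w = 1 := by
  have hS := (QTD.good_adm X.good).1
  obtain ⟨hpp, hP⟩ := hS p hp
  have hpT : p ∉ T := fun h => (Finset.disjoint_left.1 X.disj hp) h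
  have hnd := g5b_not_dvd X.pr hpp hP hpT
  have hur : Ur v X.Q.e := by
    rw [X.he]
    refine Ur_of X.pr X.cl0 v ?_
    intro q hq h1
    rw [hv] at h1
    exact hpT (g5b_span hP (X.pr q hq).2 h1 ▸ hq)
  by_cases hs : sy (mT T) p = 0
  · have hsq : Sq v X.Q.e := by
      rw [X.he]
      exact (Sq_iff hpp hP hv hnd).2 hs
    obtain ⟨P, P', hne, hu, h1, h2, h3, h4⟩ := X.Q.split v hsq
    have hP1 := (hu P).2 (Or.inl rfl)
    have hP2 := (hu P').2 (Or.inr rfl)
    refine ⟨{P, P'}, ?_, ?_, ?_⟩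
    · intro w
      rw [hu w, Finset.mem_insert, Finset.mem_singleton]
    · rw [Finset.prod_pair hne, w_tam_two X.good hp hv hP1 h3 (Or.inr h1),
        w_tam_two X.good hp hv hP2 h4 (Or.inr h2), if_neg (fun h => h.2 hs)]
      norm_num
    · rw [Finset.prod_pair hne, w_neron_odd X.good hp hv hP1 h3,
        w_neron_odd X.good hp hv hP2 h4, mul_one]
  · have hsq : ¬ Sq v X.Q.e := by
      rw [X.he, Sq_iff hpp hP hv hnd]
      exact hs
    obtain ⟨P, hu, h1, h2⟩ := X.Q.inert v hur hsq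
    have hP1 := (hu P).2 rfl
    refine ⟨{P}, ?_, ?_, ?_⟩
    · intro w
      rw [hu w, Finset.mem_singleton]
    · rw [Finset.prod_singleton]
      by_cases ha : Odd (a p)
      · have ha2 : a p ≠ 2 := by
          intro h
          rw [h] at ha
          exact absurd ha (by decide)
        rw [w_tam_two X.good hp hv hP1 h2 (Or.inl ha2), if_pos ⟨ha, hs⟩]
      · rw [w_tam_four X.good hp (QTD.not_odd_two X.good hp ha) hv hP1 h2 h1, if_neg (fun h => ha h.1)]
    · rw [Finset.prod_singleton, w_neron_odd X.good hp hv hP1 h2]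

end

section
variable {s t : ℕ} {S : Finset Gi} {a : Gi → ℕ} {T : Finset Gi} {F : Type} [Field F] [NumberField F] [Algebra KI F]
  (X : Dat s t S a T F)
include X

/-- [QTB-G5c] PROOF. `Sq_la`, `QS.split`: two places, `w_tam_la`, `w_neron_la`. -/
theorem prod_la : ∃ A : Finset (HeightOneSpectrum (𝓞 F)),
      (∀ w, w ∈ A ↔ w.asIdeal.comap (algebraMap (𝓞 KI) (𝓞 F)) = vla.asIdeal) ∧
      ∏ w ∈ A, SBSD.tam (EF s t S a F) w = cla t ^ 2 ∧
      ∏ w ∈ A, SBSD.neron (EF s t S a F) w = (nla s t S a : ℝ) ^ 2 := by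
  have hsq : Sq vla X.Q.e := by
    rw [X.he]
    exact Sq_la X.pr X.cl0
  obtain ⟨P, P', hne, hu, h1, h2, h3, h4⟩ := X.Q.split vla hsq
  have hP1 := (hu P).2 (Or.inl rfl)
  have hP2 := (hu P').2 (Or.inr rfl)
  refine ⟨{P, P'}, ?_, ?_, ?_⟩
  · intro w
    rw [hu w, Finset.mem_insert, Finset.mem_singleton]
  · rw [Finset.prod_pair hne, w_tam_la X.good QTD.vla_as hP1 h3 h1,
      w_tam_la X.good QTD.vla_as hP2 h4 h2, pow_two]
  · rw [Finset.prod_pair hne, w_neron_la X.good QTD.vla_as hP1 h3 h1,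
      w_neron_la X.good QTD.vla_as hP2 h4 h2, pow_two]

end

end QTC
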