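import Pool.Agent.QTB.G5
import Pool.Agent.QTB.G5a
import Pool.Agent.QTB.G5b
import Pool.Agent.PI.T5

/-!
# [QTB-G5d] the products of the Tamagawa numbers and Néron factors over `F`
-/

set_option autoImplicit false

open NumberField IsDedekindDomain
open scoped Classical

namespace QTC

open PI (Gi sy ii la Prim emK eG KI la_prime pl)
open QT (st Dd Adm bD gD Good)
open QTD (LocB cl vla)
open TU (QS Ur Sq Od)

/-- the set of the places above `v`, if finite -/
noncomputable def g5dA {F : Type} [Field F] [NumberField F] [Algebra KI F] (v : HeightOneSpectrum (𝓞 KI)) :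
    Finset (HeightOneSpectrum (𝓞 F)) :=
  if h : ∃ A : Finset (HeightOneSpectrum (𝓞 F)),
    ∀ w, w ∈ A ↔ w.asIdeal.comap (algebraMap (𝓞 KI) (𝓞 F)) = v.asIdeal then h.choose else ∅

theorem g5dA_spec {F : Type} [Field F] [NumberField F] [Algebra KI F] {v : HeightOneSpectrum (𝓞 KI)}
    {A : Finset (HeightOneSpectrum (𝓞 F))}
    (hA : ∀ w, w ∈ A ↔ w.asIdeal.comap (algebraMap (𝓞 KI) (𝓞 F)) = v.asIdeal) : g5dA v = A := by
  have h : ∃ A : Finset (HeightOneSpectrum (𝓞 F)),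
    ∀ w, w ∈ A ↔ w.asIdeal.comap (algebraMap (𝓞 KI) (𝓞 F)) = v.asIdeal := ⟨A, hA⟩
  unfold g5dA
  rw [dif_pos h]
  ext w
  rw [h.choose_spec w, hA w]

theorem g5d_gen {S : Finset Gi} {F : Type} [Field F] [NumberField F] [Algebra KI F]
    (hS : ∀ p ∈ S, Prime p ∧ Prim p) {M : Type} [CommMonoid M]
    (g : HeightOneSpectrum (𝓞 F) → M) (f : Gi → M) (c : M)
    (hla : ∃ A : Finset (HeightOneSpectrum (𝓞 F)),
      (∀ w, w ∈ A ↔ w.asIdeal.comap (algebraMap (𝓞 KI) (𝓞 F)) = vla.asIdeal) ∧ ∏ w ∈ A, g w = c)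
    (hp : ∀ p ∈ S, ∀ v : HeightOneSpectrum (𝓞 KI), v.asIdeal = Ideal.span {eG p} →
      ∃ A : Finset (HeightOneSpectrum (𝓞 F)),
      (∀ w, w ∈ A ↔ w.asIdeal.comap (algebraMap (𝓞 KI) (𝓞 F)) = v.asIdeal) ∧ ∏ w ∈ A, g w = f p)
    (hgood : ∀ b, Prime b → Prim b → b ∉ S → ∀ (v : HeightOneSpectrum (𝓞 KI)) (w : HeightOneSpectrum (𝓞 F)),
      v.asIdeal = Ideal.span {eG b} → w.asIdeal.comap (algebraMap (𝓞 KI) (𝓞 F)) = v.asIdeal → g w = 1) :
    ∏ᶠ w, g w = c * ∏ p ∈ S, f p := by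
  set e : {x // x ∈ S} → HeightOneSpectrum (𝓞 KI) := fun p => pl p.1 (hS p.1 p.2).1 with he
  have hinj : Function.Injective e := by
    intro p q hpq
    have h1 : (e p).asIdeal = Ideal.span {eG p.1} := rfl
    have h2 : (e p).asIdeal = Ideal.span {eG q.1} := by rw [hpq]; rfl
    have h3 := PI.t5_assoc h1 h2
    exact Subtype.ext (PI.prim_unique (hS p.1 p.2).2 (hS q.1 q.2).2 h3)
  have hnot : vla ∉ S.attach.image e := by
    intro hmem
    obtain ⟨p, -, hp⟩ := Finset.mem_image.1 hmem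
    have h1 : (e p).asIdeal = Ideal.span {eG p.1} := rfl
    have h2 : (e p).asIdeal = Ideal.span {eG la} := by rw [hp]; rfl
    have h3 := PI.t5_assoc h1 h2
    exact (hS p.1 p.2).2.not_la h3.symm.dvd
  obtain ⟨Al, hAl, hAl2⟩ := hla
  have hA : ∀ v ∈ insert vla (S.attach.image e), ∀ w : HeightOneSpectrum (𝓞 F),
      w ∈ g5dA v ↔ w.asIdeal.comap (algebraMap (𝓞 KI) (𝓞 F)) = v.asIdeal := by
    intro v hv w
    rcases Finset.mem_insert.1 hv with rfl | hv
    · rw [g5dA_spec hAl]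
      exact hAl w
    · obtain ⟨p, -, rfl⟩ := Finset.mem_image.1 hv
      obtain ⟨A, hA, -⟩ := hp p.1 p.2 (e p) rfl
      rw [g5dA_spec hA]
      exact hA w
  rw [fiber (insert vla (S.attach.image e)) g5dA hA g, Finset.prod_insert hnot, g5dA_spec hAl, hAl2,
    Finset.prod_image (fun a _ b _ hab => hinj hab), ← Finset.prod_attach S]
  · congr 1
    refine Finset.prod_congr rfl fun p _ => ?_
    obtain ⟨A, hA, hA2⟩ := hp p.1 p.2 (e p) rfl
    rw [g5dA_spec hA, hA2]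
  · intro w hw
    have hbel : w.asIdeal.comap (algebraMap (𝓞 KI) (𝓞 F)) = (TK.s2_below (L := KI) w).asIdeal := rfl
    rcases PI.gen_cases (v := TK.s2_below (L := KI) w) with h1 | ⟨b, hb, hpb, h1⟩
    · exfalso
      refine hw vla (Finset.mem_insert_self _ _) ?_
      rw [hA vla (Finset.mem_insert_self _ _), hbel, h1]
      rfl
    · by_cases hbS : b ∈ S
      · exfalso
        have hm : e ⟨b, hbS⟩ ∈ insert vla (S.attach.image e) :=
          Finset.mem_insert_of_mem (Finset.mem_image.2 ⟨⟨b, hbS⟩, Finset.mem_attach _ _, rfl⟩)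
        refine hw _ hm ?_
        rw [hA _ hm, hbel, h1]
        rfl
      · exact hgood b hb hpb hbS _ w h1 hbel

section
variable {s t : ℕ} {S : Finset Gi} {a : Gi → ℕ} {T : Finset Gi} {F : Type} [Field F] [NumberField F] [Algebra KI F]
  (X : Dat s t S a T F)
include X

/-- [QTB-G5d] PROOF. `fiber` with `Vs = {vla} ∪ {pl p : p ∈ S}` (image of `S.attach`, injective), `prod_S`, `prod_la`, `w_good` for the other places (`w.comap = v`, `v = TK.s2_below w`, `PI.gen_cases`: `v = (la)` or `v = (b)`, `b ∉ S`).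
`∏_{p ∈ S} (if Odd (a p) ∧ sy m p ≠ 0 then 2 else 4) * 2^(nF) = 4^(#S)` (`Finset.prod_ite`, `Finset.filter`, `SO`). -/
theorem finprod_tam_F : 2 ^ nF S a T * ∏ᶠ w : HeightOneSpectrum (𝓞 F), SBSD.tam (EF s t S a F) w =
    2 ^ (2 * S.card) * cla t ^ 2 := by
  have hS := (QTD.good_adm X.good).1
  rw [g5d_gen (S := S) hS (fun w => SBSD.tam (EF s t S a F) w)
    (fun p => if Odd (a p) ∧ sy (mT T) p ≠ 0 then 2 else 4) (cla t ^ 2)]
  · have h1 : 2 ^ nF S a T = ∏ p ∈ S, if Odd (a p) ∧ sy (mT T) p ≠ 0 then 2 else 1 := by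
      unfold nF SO
      rw [Finset.filter_filter, ← Finset.prod_filter, Finset.prod_const]
    have h2 : (∏ p ∈ S, if Odd (a p) ∧ sy (mT T) p ≠ 0 then 2 else 1) *
        (∏ p ∈ S, if Odd (a p) ∧ sy (mT T) p ≠ 0 then 2 else 4) = 2 ^ (2 * S.card) := by
      rw [← Finset.prod_mul_distrib, pow_mul, ← Finset.prod_const]
      refine Finset.prod_congr rfl fun p _ => ?_
      split_ifs <;> norm_num
    rw [← h2, h1]
    ring
  · obtain ⟨A, h1, h2, -⟩ := prod_la X
    exact ⟨A, h1, h2⟩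
  · intro p hp v hv
    obtain ⟨A, h1, h2, -⟩ := prod_S X hp v hv
    exact ⟨A, h1, h2⟩
  · intro b hb hpb hbS v w hv hw
    exact (w_good X.good hb hpb hv hw hbS).1

end

section
variable {s t : ℕ} {S : Finset Gi} {a : Gi → ℕ} {T : Finset Gi} {F : Type} [Field F] [NumberField F] [Algebra KI F]
  (X : Dat s t S a T F)
include X

/-- [QTB-G5e] PROOF. As `finprod_tam_F`. -/
theorem finprod_neron_F : ∏ᶠ w : HeightOneSpectrum (𝓞 F), SBSD.neron (EF s t S a F) w = (nla s t S a : ℝ) ^ 2 := by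
  have hS := (QTD.good_adm X.good).1
  rw [g5d_gen (S := S) hS (fun w => SBSD.neron (EF s t S a F) w) (fun _ => 1) ((nla s t S a : ℝ) ^ 2)]
  · rw [Finset.prod_const_one, mul_one]
  · obtain ⟨A, h1, -, h2⟩ := prod_la X
    exact ⟨A, h1, h2⟩
  · intro p hp v hv
    obtain ⟨A, h1, -, h2⟩ := prod_S X hp v hv
    exact ⟨A, h1, h2⟩
  · intro b hb hpb hbS v w hv hw
    exact (w_good X.good hb hpb hv hw hbS).2

end

end QTC
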