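import Pool.Agent.QTB.F0
import Pool.Agent.QTS.T6

/-!
# [QTB-G6a] the infinite places of `F`
-/

set_option autoImplicit false

open NumberField IsDedekindDomain
open scoped Classical

namespace QTC

open PI (Gi sy ii la Prim emK eG KI la_prime pl em)
open QT (st Dd Adm bD gD Good)
open QTD (LocB cl vla)
open TU (QS Ur Sq Od)

section
variable {F : Type} [Field F] [NumberField F] [Algebra KI F]

/-- [QTB-G6a] PROOF. `σ ∘ algebraMap : KI →+* ℂ`; `PI.norm_embedding_KI` (PI/T6.lean) treats the embeddings of the infinite places; both embeddings of `KI` map `emK g = x + y i` to `x ± y I`. -/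
theorem norm_emb (σ : F →+* ℂ) (g : Gi) : ‖σ (algebraMap KI F (emK g))‖ = ‖em g‖ := by
  have h := PI.norm_embedding_KI (σ.comp (algebraMap KI F)) g
  exact h

end

section
variable {F : Type} [Field F] [NumberField F] [Algebra KI F]

/-- [QTB-G6b] PROOF. `i ∈ F`: a real embedding would map `i` to a real number with square `-1`. -/
theorem not_real (v : InfinitePlace F) : ¬ v.IsReal := by
  intro hv
  let τ : F →+* ℝ := v.embedding_of_isReal hv
  have h1 : (⟨Complex.I, PI.I_mem⟩ : KI) ^ 2 = -1 := by
    apply Subtype.ext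
    simp
  have h2 : (τ (algebraMap KI F ⟨Complex.I, PI.I_mem⟩)) ^ 2 = -1 := by
    rw [← map_pow, ← map_pow, h1, map_neg, map_neg, map_one, map_one]
  have h3 := sq_nonneg (τ (algebraMap KI F ⟨Complex.I, PI.I_mem⟩))
  rw [h2] at h3
  norm_num at h3

end

section
variable {F : Type} [Field F] [NumberField F] [Algebra KI F]

/-- [QTB-G6c] PROOF. `[F : ℚ] = 4` (`[F : KI] = 2` from `Q`: basis `1, s`; see `TR`/`TK` for `finrank` of quadratic extensions, `Module.finrank_mul_finrank`; `[KI : ℚ] = 2`), all places are complex: `card = 2` (`NumberField.InfinitePlace.card_add_two_mul_card_eq_rank`). -/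
theorem card_places (Q : QS KI F) : Fintype.card (InfinitePlace F) = 2 := by
  have h0 : Module.finrank ℚ KI = 2 := by
    have h1 := PI.card_place_KI
    rw [InfinitePlace.card_eq_nrRealPlaces_add_nrComplexPlaces] at h1
    have h2 : InfinitePlace.nrRealPlaces KI = 0 := by
      unfold InfinitePlace.nrRealPlaces
      rw [Fintype.card_eq_zero_iff]
      exact ⟨fun v => PI.not_isReal_KI v.1 v.2⟩
    rw [← InfinitePlace.card_add_two_mul_card_eq_rank KI]
    omega
  have h1 : Module.finrank ℚ F = 4 := by
    have h2 := Module.finrank_mul_finrank ℚ KI F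
    rw [h0, Q.finrank_eq] at h2
    exact h2.symm
  have h2 : InfinitePlace.nrRealPlaces F = 0 := by
    unfold InfinitePlace.nrRealPlaces
    rw [Fintype.card_eq_zero_iff]
    exact ⟨fun v => not_real v.1 v.2⟩
  have h3 := InfinitePlace.card_add_two_mul_card_eq_rank F
  rw [InfinitePlace.card_eq_nrRealPlaces_add_nrComplexPlaces]
  omega

end

end QTC
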