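import Pool.Agent.QTB.G6a
import Pool.Agent.QTB.G5d

/-!
# [QTB-G6d] the period over `F`
-/

set_option autoImplicit false

open NumberField IsDedekindDomain
open scoped Classical

namespace QTC

open PI (Gi sy ii la Prim emK eG KI la_prime pl em)
open QT (st Dd Adm bD gD Good)
open QTD (LocB cl vla)
open TU (QS Ur Sq Od)

section
variable {F : Type} [Field F] [NumberField F] [Algebra KI F]

/-- [QTB-G6d] PROOF. As `QTS.period_W` (QTS/T6.lean): `SBSD.archPeriod = 2 * complexArea (W (σ D)) = 2 A / ‖D‖^(1/2)`, `norm_emb`, `QTS.complexArea_W`; `Finset.prod_const`, `card_places`; `finprod_neron_F`. -/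
theorem period_F {s t : ℕ} {S : Finset Gi} {a : Gi → ℕ} {T : Finset Gi} (X : Dat s t S a T F) :
    SBSD.period (EF s t S a F) =
      (2 * SBSD.complexArea (PI.W (1 : ℂ)) / ‖em (Dd s t S a)‖ ^ ((1 : ℝ) / 2)) ^ 2 * (nla s t S a : ℝ) ^ 2 := by
  have hD : Dd s t S a ≠ 0 := QTD.Dd_ne (QTD.good_adm X.good).1
  have h1 : ∀ v : InfinitePlace F,
      SBSD.archPeriod (EF s t S a F) v =
        2 * SBSD.complexArea (PI.W (1 : ℂ)) / ‖em (Dd s t S a)‖ ^ ((1 : ℝ) / 2) := by
    intro v
    have hne2 : v.embedding (algebraMap KI F (emK (Dd s t S a))) ≠ 0 := by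
      rw [← norm_ne_zero_iff, norm_emb, norm_ne_zero_iff, ← map_zero em]
      exact fun h0 => hD (PI.em_injective h0)
    unfold SBSD.archPeriod EF
    rw [dif_neg (not_real v), QTS.W_map, QTS.complexArea_W _ hne2, norm_emb]
    ring
  unfold SBSD.period
  rw [finprod_neron_F X]
  simp only [h1]
  rw [Finset.prod_const, Finset.card_univ, card_places X.Q]

end

end QTC
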