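import Pool.Agent.QTB.F0

/-!
# [QTB-G7a] the integer `(1 + √m)/2`
-/

set_option autoImplicit false

open NumberField IsDedekindDomain
open scoped Classical

namespace QTC

open PI (Gi sy ii la Prim emK eG KI la_prime pl em)
open QT (st Dd Adm bD gD Good)
open QTD (LocB cl vla)
open TU (QS Ur Sq Od)

theorem g7a_four {m : Gi} (h : cl m 0 0) : ∃ c : Gi, m = 1 + 4 * c := by
  obtain ⟨h1, h2, h3⟩ := h
  have h4 : (m.re + m.im) % 8 = 1 := by
    rcases h3 with ⟨-, -, h3⟩ | ⟨-, h, -⟩ | ⟨h, -, -⟩ | ⟨h, -, -⟩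
    · exact h3
    · exact absurd h (by decide)
    · exact absurd h (by decide)
    · exact absurd h (by decide)
  refine ⟨⟨m.re / 4, m.im / 4⟩, ?_⟩
  have e4 : (4 : Gi) = ⟨4, 0⟩ := rfl
  have e1 : (1 : Gi) = ⟨1, 0⟩ := rfl
  rw [e4, e1]
  apply Zsqrtd.ext
  · simp only [Zsqrtd.re_add, Zsqrtd.re_mul]
    omega
  · simp only [Zsqrtd.im_add, Zsqrtd.im_mul]
    omega

section
variable {F : Type} [Field F] [NumberField F] [Algebra KI F] (Q : QS KI F) {T : Finset Gi}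
  (hT : ∀ q ∈ T, Prime q ∧ Prim q) (h0 : cl (mT T) 0 0) (he : Q.e = emK (mT T))
include hT h0 he

/-- [QTB-G7a] `(1 + √m)/2` is an integer. PROOF. `4 ∣ mT T - 1` (`cl`: `re % 4 = 1`, `im % 4 = 0`), root of `X² - X - (m - 1)/4`. -/
theorem exists_om : ∃ om : 𝓞 F, 2 * ((om : 𝓞 F) : F) = 1 + Q.s ∧
    ∃ c : Gi, mT T = 1 + 4 * c ∧ om ^ 2 - om = algebraMap (𝓞 KI) (𝓞 F) (eG c) := by
  obtain ⟨c, hc⟩ := g7a_four h0
  have hroot : ((1 + Q.s) / 2) ^ 2 - (1 + Q.s) / 2 - algebraMap KI F ((eG c : 𝓞 KI) : KI) = 0 := by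
    have h1 : Q.s ^ 2 = 1 + 4 * algebraMap KI F (emK c) := by
      rw [Q.hs, he, hc, map_add, map_mul, map_one, map_add, map_mul, map_one, map_ofNat, map_ofNat]
    have h2 : ((eG c : 𝓞 KI) : KI) = emK c := rfl
    rw [h2]
    linear_combination (1 / 4 : F) * h1
  have hint : IsIntegral ℤ ((1 + Q.s) / 2) := by
    have h1 : IsIntegral (𝓞 KI) ((1 + Q.s) / 2) := by
      refine ⟨Polynomial.X ^ 2 - Polynomial.X - Polynomial.C (eG c), ?_, ?_⟩
      · monicity!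
      · simp only [Polynomial.eval₂_sub, Polynomial.eval₂_pow, Polynomial.eval₂_X,
          Polynomial.eval₂_C]
        exact hroot
    exact isIntegral_trans _ h1
  refine ⟨⟨(1 + Q.s) / 2, hint⟩, ?_, c, hc, ?_⟩
  · change 2 * ((1 + Q.s) / 2) = 1 + Q.s
    ring
  · apply RingOfIntegers.ext
    change ((1 + Q.s) / 2) ^ 2 - (1 + Q.s) / 2 = algebraMap KI F ((eG c : 𝓞 KI) : KI)
    exact sub_eq_zero.1 hroot

end

end QTC
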