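import Pool.Agent.QTB.F0

/-!
# [QTB-G7b] the ring of integers of `F`
-/

set_option autoImplicit false

open NumberField IsDedekindDomain
open scoped Classical

namespace QTC

open PI (Gi sy ii la Prim emK eG KI la_prime pl em)
open QT (st Dd Adm bD gD Good)
open QTD (LocB cl vla)
open TU (QS Ur Sq Od)

theorem g7b_assoc (p : Gi) : Associated (st p) p := by
  unfold QT.st
  split_ifs
  · exact Associated.refl p
  · exact Associated.neg_left (Associated.refl p)

theorem g7b_prime {p : Gi} (hp : Prime p) : Prime (st p) := (g7b_assoc p).symm.prime hp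

theorem g7b_sqfree {T : Finset Gi} (hT : ∀ q ∈ T, Prime q ∧ Prim q) : Squarefree (mT T) := by
  refine Finset.squarefree_prod_of_pairwise_isCoprime ?_ fun q hq =>
    (g7b_prime (hT q hq).1).irreducible.squarefree
  intro p hp q hq hpq
  have hp1 := hT p hp
  have hq1 := hT q hq
  refine ((g7b_prime hp1.1).irreducible.isRelPrime_iff_not_dvd).2 fun hd => hpq ?_
  have h1 : Associated (st p) (st q) :=
    ((g7b_prime hp1.1).dvd_prime_iff_associated (g7b_prime hq1.1)).1 hd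
  exact PI.prim_unique hp1.2 hq1.2 (((g7b_assoc p).symm.trans h1).trans (g7b_assoc q))

theorem g7b_four {m : Gi} (h : cl m 0 0) : ∃ c : Gi, m = 1 + 4 * c := by
  obtain ⟨h1, h2, h3⟩ := h
  have h4 : (m.re + m.im) % 8 = 1 := by
    rcases h3 with ⟨-, -, h3⟩ | ⟨-, h, -⟩ | ⟨h, -, -⟩ | ⟨h, -, -⟩
    · exact h3
    · exact absurd h (by decide)
    · exact absurd h (by decide)
    · exact absurd h (by decide)
  refine ⟨⟨m.re / 4, m.im / 4⟩, ?_⟩
  have e4 : (4 : Gi) = ⟨4, 0⟩ := rfl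
  have e1 : (1 : Gi) = ⟨1, 0⟩ := rfl
  rw [e4, e1]
  apply Zsqrtd.ext
  · simp only [Zsqrtd.re_add, Zsqrtd.re_mul]
    omega
  · simp only [Zsqrtd.im_add, Zsqrtd.im_mul]
    omega

theorem g7b_two : (2 : Gi) = -ii * la ^ 2 := by
  have h1 : ii * ii = -1 := by
    apply Zsqrtd.ext <;> simp [ii]
  rw [PI.la_sq]
  linear_combination (2 : Gi) * h1

theorem g7b_dvd {A B k : Gi} (h : (A - B) * (A + B) = 4 * k) : ∃ C : Gi, A - B = 2 * C := by
  have h2 := g7b_two
  have hla2 : la ∣ (2 : Gi) := ⟨-ii * la, by rw [h2]; ring⟩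
  have hla0 : la ≠ 0 := la_prime.ne_zero
  have h1 : la ∣ A - B := by
    have h3 : la ∣ (A - B) * (A + B) := by
      rw [h]
      have : (4 : Gi) * k = 2 * (2 * k) := by ring
      rw [this]
      exact hla2.mul_right _
    rcases la_prime.dvd_or_dvd h3 with h4 | h4
    · exact h4
    · have h5 : A - B = (A + B) - 2 * B := by ring
      rw [h5]
      exact dvd_sub h4 (hla2.mul_right _)
  obtain ⟨d, hd⟩ := h1
  have h3 : A + B = la * (d - ii * la * B) := by
    have h5 : A + B = (A - B) + 2 * B := by ring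
    rw [h5, hd, h2]
    ring
  have h4 : d * (d - ii * la * B) = -ii * la ^ 2 * (-ii) * k := by
    have h6 : la ^ 2 * (d * (d - ii * la * B)) = la ^ 2 * (-ii * la ^ 2 * (-ii) * k) := by
      have h7 : (4 : Gi) = (-ii * la ^ 2) * (-ii * la ^ 2) := by
        rw [← h2]; norm_num
      rw [hd, h3, h7] at h
      linear_combination h
    exact mul_left_cancel₀ (pow_ne_zero 2 hla0) h6
  have h5 : la ∣ d := by
    have h6 : la ∣ d * (d - ii * la * B) := by
      rw [h4]
      exact ⟨-ii * la * (-ii) * k, by ring⟩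
    rcases la_prime.dvd_or_dvd h6 with h7 | h7
    · exact h7
    · have h8 : d = (d - ii * la * B) + la * (ii * B) := by ring
      rw [h8]
      exact dvd_add h7 (dvd_mul_right _ _)
  obtain ⟨d', hd'⟩ := h5
  have h1 : ii * ii = -1 := by
    apply Zsqrtd.ext <;> simp [ii]
  refine ⟨ii * d', ?_⟩
  rw [hd, hd', h2]
  linear_combination (la ^ 2 * d') * h1

section
variable {F : Type} [Field F] [NumberField F] [Algebra KI F]

theorem g7b_int {x : KI} (h : IsIntegral ℤ (algebraMap KI F x)) : ∃ A : Gi, x = emK A := by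
  have h1 : IsIntegral ℤ x := (isIntegral_algebraMap_iff (algebraMap KI F).injective).1 h
  obtain ⟨A, hA⟩ := eG.surjective (⟨x, h1⟩ : 𝓞 KI)
  refine ⟨A, ?_⟩
  have h2 : ((eG A : 𝓞 KI) : KI) = emK A := rfl
  rw [← h2, hA]
  rfl

end

section
variable {F : Type} [Field F] [NumberField F] [Algebra KI F] (Q : QS KI F) {T : Finset Gi}
  (hT : ∀ q ∈ T, Prime q ∧ Prim q) (h0 : cl (mT T) 0 0) (he : Q.e = emK (mT T))
include hT h0 he

/-- [QTB-G7b] `𝓞_F = ℤ[i] + ℤ[i] ω`. PROOF. `x = a + b s` (`Q.gen`), `a, b ∈ KI`. The conjugate `a - b s` (`TU.QS.cj`, `QS.cjO` in TU/G0.lean) is also integral, so `2 a = A` and `a² - m b²` are in `ℤ[i]` (`KI ∩ 𝓞_F = 𝓞_KI`); `m (2b)² = A² - 4 (a² - m b²) ∈ ℤ[i]` and `m` is squarefree (product of distinct primes up to a unit), so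
`2 b = B ∈ ℤ[i]` (valuations: `v(m) ≤ 1`, `v(m) + 2 v(2b) ≥ 0` gives `v(2b) ≥ 0`). `4 ∣ A² - m B²` and `m ≡ 1 mod 4`, so `4 ∣ A² - B² = (A - B)(A + B)`, so `2 ∣ A - B` (valuation at `la`: if `v(A - B) ≤ 1` then `v(A + B) = v(A - B)` because `v(2B) ≥ 2`, and the sum is `≤ 2 < 4`). `x = (A - B)/2 + B ω`. -/
theorem int_repr {om : 𝓞 F} (hom : 2 * ((om : 𝓞 F) : F) = 1 + Q.s) (x : 𝓞 F) :
    ∃ a b : 𝓞 KI, x = algebraMap (𝓞 KI) (𝓞 F) a + algebraMap (𝓞 KI) (𝓞 F) b * om := by
  have hx := Q.eq_ca_cb (x : F)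
  have hcj := Q.cj_apply (x : F)
  have hmul := Q.mul_cj (x : F)
  set a : KI := Q.ca (x : F) with ha
  set b : KI := Q.cb (x : F) with hb
  have hcjint : IsIntegral ℤ (Q.cj (x : F)) := (Q.cjO x).2
  have hsq := g7b_sqfree hT
  have hm0 : mT T ≠ 0 := hsq.ne_zero
  have hem0 : emK (mT T) ≠ 0 := PID.emK_ne hm0
  have einj : Function.Injective (emK : Gi → KI) := by
    rw [injective_iff_map_eq_zero]
    intro z hz
    by_contra hne
    exact PID.emK_ne hne hz
  obtain ⟨A, hA⟩ : ∃ A : Gi, 2 * a = emK A := by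
    apply g7b_int (F := F)
    have h1 : algebraMap KI F (2 * a) = (x : F) + Q.cj (x : F) := by
      rw [hcj, map_mul, map_ofNat]
      nth_rewrite 1 [hx]
      ring
    rw [h1]
    exact x.2.add hcjint
  obtain ⟨N, hN⟩ : ∃ N : Gi, a ^ 2 - Q.e * b ^ 2 = emK N := by
    apply g7b_int (F := F)
    rw [← hmul]
    exact x.2.mul hcjint
  rw [he] at hN
  have hZ0 : (emK (mT T) * (2 * b)) ^ 2 = emK (mT T * (A ^ 2 - 4 * N)) := by
    rw [map_mul, map_sub, map_mul, map_pow, ← hA, ← hN, map_ofNat]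
    ring
  obtain ⟨Z, hZ⟩ : ∃ Z : Gi, emK (mT T) * (2 * b) = emK Z := by
    have h1 : IsIntegral ℤ (emK (mT T) * (2 * b)) := by
      apply IsIntegral.of_pow (n := 2) (by norm_num)
      rw [hZ0]
      exact PI.emK_int _
    exact g7b_int (F := F) (h1.map (IsScalarTower.toAlgHom ℤ KI F))
  have hZZ : Z ^ 2 = mT T * (A ^ 2 - 4 * N) := by
    apply einj
    rw [map_pow, ← hZ, hZ0]
  have hdvd : mT T ∣ Z := by
    rw [← hsq.dvd_pow_iff_dvd (n := 2) (by norm_num), hZZ]
    exact dvd_mul_right _ _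
  obtain ⟨B, hB⟩ := hdvd
  have h2b : 2 * b = emK B := by
    rw [hB, map_mul] at hZ
    exact mul_left_cancel₀ hem0 hZ
  obtain ⟨c, hc⟩ := g7b_four h0
  have hAB : (A - B) * (A + B) = 4 * (N + c * B ^ 2) := by
    apply einj
    have h1 : emK (mT T) = 1 + 4 * emK c := by
      rw [hc, map_add, map_mul, map_one, map_ofNat]
    rw [h1] at hN
    simp only [map_mul, map_add, map_sub, map_pow, map_ofNat, ← hN, ← hA, ← h2b]
    ring
  obtain ⟨C, hC⟩ := g7b_dvd hAB
  refine ⟨eG C, eG B, ?_⟩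
  apply RingOfIntegers.ext
  change (x : F) = algebraMap KI F (emK C) + algebraMap KI F (emK B) * (om : F)
  have h3 : emK A - emK B = 2 * emK C := by
    rw [← map_sub, hC, map_mul, map_ofNat]
  have h4 : 2 * a - 2 * b = 2 * emK C := by rw [hA, h2b, h3]
  have h5 : a - b = emK C := mul_left_cancel₀ (two_ne_zero : (2 : KI) ≠ 0) (by rw [← h4]; ring)
  rw [← h5, ← h2b, map_sub, map_mul, map_ofNat]
  rw [hx]
  linear_combination (-algebraMap KI F b) * hom

end

end QTC
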