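import Pool.Agent.QTB.G7a
import Pool.Agent.QTB.G7b
import Pool.Agent.TR.A7e

/-!
# [QTB-G7c] the different of `F / ℚ(i)`
-/

set_option autoImplicit false

open NumberField IsDedekindDomain
open scoped Classical

namespace QTC

open PI (Gi sy ii la Prim emK eG KI la_prime pl em)
open QT (st Dd Adm bD gD Good)
open QTD (LocB cl vla)
open TU (QS Ur Sq Od)

/-- the polynomial -/
theorem g7c_monic (c : 𝓞 KI) : (Polynomial.X ^ 2 - Polynomial.X - Polynomial.C c : Polynomial (𝓞 KI)).Monic ∧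
    (Polynomial.X ^ 2 - Polynomial.X - Polynomial.C c : Polynomial (𝓞 KI)).natDegree = 2 := by
  refine ⟨?_, ?_⟩
  · monicity!
  · compute_degree!

section
variable {F : Type} [Field F] [NumberField F] [Algebra KI F] (Q : QS KI F) {T : Finset Gi}
  (hT : ∀ q ∈ T, Prime q ∧ Prim q) (h0 : cl (mT T) 0 0) (he : Q.e = emK (mT T))
include hT h0 he

theorem g7c_om_sq {om : 𝓞 F} (hom : 2 * ((om : 𝓞 F) : F) = 1 + Q.s) :
    ∃ c : 𝓞 KI, om ^ 2 - om - algebraMap (𝓞 KI) (𝓞 F) c = 0 := by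
  obtain ⟨om', hom', c, -, hc⟩ := exists_om Q hT h0 he
  have h : om' = om := by
    apply RingOfIntegers.ext
    have h2 : (2 : F) ≠ 0 := two_ne_zero
    apply mul_left_cancel₀ h2
    rw [hom, hom']
  rw [h] at hc
  exact ⟨eG c, by rw [hc, sub_self]⟩

omit hT h0 he in
theorem g7c_minpoly {om : 𝓞 F} (hom : 2 * ((om : 𝓞 F) : F) = 1 + Q.s) {c : 𝓞 KI}
    (hc : om ^ 2 - om - algebraMap (𝓞 KI) (𝓞 F) c = 0) :
    minpoly (𝓞 KI) om = Polynomial.X ^ 2 - Polynomial.X - Polynomial.C c := by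
  have hev : Polynomial.aeval om (Polynomial.X ^ 2 - Polynomial.X - Polynomial.C c : Polynomial (𝓞 KI)) = 0 := by
    simp only [map_sub, map_pow, Polynomial.aeval_X, Polynomial.aeval_C]
    exact hc
  have hint : IsIntegral (𝓞 KI) om := ⟨_, (g7c_monic c).1, hev⟩
  have hdvd : minpoly (𝓞 KI) om ∣ (Polynomial.X ^ 2 - Polynomial.X - Polynomial.C c) :=
    minpoly.isIntegrallyClosed_dvd hint hev
  have h2 : 2 ≤ (minpoly (𝓞 KI) om).natDegree := by
    rw [minpoly.two_le_natDegree_iff hint]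
    rintro ⟨a, ha⟩
    have h3 : algebraMap KI F (2 * (a : KI) - 1) = Q.s := by
      have h4 : algebraMap KI F (a : KI) = (om : F) := by
        rw [← ha]
        rfl
      rw [map_sub, map_mul, map_one, map_ofNat, h4, hom]
      ring
    exact Q.ns _ h3
  exact (Polynomial.eq_of_monic_of_dvd_of_natDegree_le (minpoly.monic hint) (g7c_monic c).1 hdvd
    (by rw [(g7c_monic c).2]; exact h2)).symm

theorem g7c_adjoin {om : 𝓞 F} (hom : 2 * ((om : 𝓞 F) : F) = 1 + Q.s) : Algebra.adjoin (𝓞 KI) {om} = ⊤ := by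
  rw [eq_top_iff]
  intro x _
  obtain ⟨a, b, rfl⟩ := int_repr Q hT h0 he hom x
  exact add_mem (algebraMap_mem _ a) (mul_mem (algebraMap_mem _ b)
    (Algebra.subset_adjoin rfl))

/-- [QTB-G7c] PROOF. As `TR.a7e_minpoly`, `a7e_adjoin`, `a7e_different` (TR/A7e.lean): the minimal polynomial of `ω` is `X² - X - c`, its derivative at `ω` is `2 ω - 1`. -/
theorem different_F {om : 𝓞 F} (hom : 2 * ((om : 𝓞 F) : F) = 1 + Q.s) :
    differentIdeal (𝓞 KI) (𝓞 F) = Ideal.span {2 * om - 1} := by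
  obtain ⟨c, hc⟩ := g7c_om_sq Q hT h0 he hom
  have hL : Algebra.adjoin KI {algebraMap (𝓞 F) F om} = ⊤ := by
    rw [eq_top_iff]
    intro x _
    obtain ⟨a, b, hx⟩ := Q.gen x
    have h1 : x = algebraMap KI F (a - b) + algebraMap KI F (2 * b) * algebraMap (𝓞 F) F om := by
      have h2 : 2 * algebraMap (𝓞 F) F om = 1 + Q.s := hom
      rw [hx, map_sub, map_mul, map_ofNat]
      linear_combination (-algebraMap KI F b) * h2
    rw [h1]
    exact add_mem (algebraMap_mem _ _) (mul_mem (algebraMap_mem _ _)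
      (Algebra.subset_adjoin rfl))
  have h := conductor_mul_differentIdeal (𝓞 KI) KI F om hL
  rw [conductor_eq_top_of_adjoin_eq_top (g7c_adjoin Q hT h0 he hom), ← Ideal.one_eq_top, one_mul,
    g7c_minpoly Q hom hc] at h
  rw [h]
  congr 2
  simp
  left
  exact one_add_one_eq_two

end

end QTC
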