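import Pool.Agent.QTB.G7c
import Pool.Agent.PI.T6

/-!
# [QTB-G7d] the discriminant of `F`
-/

set_option autoImplicit false

open NumberField IsDedekindDomain
open scoped Classical

namespace QTC

open PI (Gi sy ii la Prim emK eG KI la_prime pl em)
open QT (st Dd Adm bD gD Good)
open QTD (LocB cl vla)
open TU (QS Ur Sq Od)

section
variable {F : Type} [Field F] [NumberField F] [Algebra KI F] (Q : QS KI F) {T : Finset Gi}
  (hT : ∀ q ∈ T, Prime q ∧ Prim q) (h0 : cl (mT T) 0 0) (he : Q.e = emK (mT T))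
include hT h0 he

omit hT h0 in
theorem g7d_absNorm {om : 𝓞 F} (hom : 2 * ((om : 𝓞 F) : F) = 1 + Q.s) :
    Ideal.absNorm (Ideal.span {2 * om - 1}) = (mT T).norm.natAbs := by
  have h1 : (2 * om - 1) * (2 * om - 1) = algebraMap (𝓞 KI) (𝓞 F) (eG (mT T)) := by
    apply RingOfIntegers.ext
    change (2 * (om : F) - 1) * (2 * (om : F) - 1) = algebraMap KI F (emK (mT T))
    rw [hom, ← he, ← Q.hs]
    ring
  have h2 : Ideal.absNorm (Ideal.span {2 * om - 1}) ^ 2 = (mT T).norm.natAbs ^ 2 := by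
    rw [sq, ← map_mul, Ideal.span_singleton_mul_span_singleton, h1, ← Set.image_singleton,
      ← Ideal.map_span, TU.q2_absNorm_map Q, PI.absNorm_span]
  exact Nat.pow_left_injective (n := 2) (by norm_num) h2

/-- [QTB-G7d] PROOF. `NumberField.natAbs_discr_eq_absNorm_differentIdeal_mul_natAbs_discr_pow KI (𝓞 KI) F (𝓞 F)`, `different_F`; `absNorm (span {θ})² = absNorm (span {θ²}) = absNorm (span {m})` over `F` `= (absNorm_KI (span {m}))²` (`Ideal.absNorm_algebraMap`-like: `TU.q2_absNorm_map` in TU/Q2.lean: `absNorm (c.map) = absNorm c ^ 2`),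
so `absNorm (span {θ}) = absNorm_KI (span {eG m}) = norm m` (natAbs; `PI.card_quot` or `PI`: `absNorm = norm`); `discr KI` has absolute value `4` (`PI.abs_discr_KI`, PI/T6.lean), `finrank = 2`. So `|discr F| = norm m * 16 = (4 ‖em m‖)²`, `‖em m‖² = norm m`. -/
theorem sqrt_discr_F : (√|(discr F : ℝ)| : ℝ) = 4 * ‖em (mT T)‖ := by
  obtain ⟨om, hom, -⟩ := exists_om Q hT h0 he
  have h := NumberField.natAbs_discr_eq_absNorm_differentIdeal_mul_natAbs_discr_pow KI (𝓞 KI) F (𝓞 F)
  rw [different_F Q hT h0 he hom, g7d_absNorm Q he hom, Q.finrank_eq] at h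
  have hK : (discr KI).natAbs = 4 := by
    have h1 := PI.abs_discr_KI
    have h2 : |(discr KI : ℤ)| = 4 := by exact_mod_cast h1
    rw [Int.abs_eq_natAbs] at h2
    exact_mod_cast h2
  rw [hK] at h
  have h3 : |(discr F : ℝ)| = (4 * ‖em (mT T)‖) ^ 2 := by
    rw [mul_pow, PI.norm_em]
    have h4 : |(discr F : ℝ)| = ((discr F).natAbs : ℝ) := by
      rw [Nat.cast_natAbs, Int.cast_abs]
    rw [h4, h]
    push_cast
    ring
  rw [h3, Real.sqrt_sq (by positivity)]

end

end QTC
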