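import Pool.Agent.QTB.G0
import Pool.Agent.QTB.F8a
import Pool.Agent.QTF.Q
import Pool.Agent.QTF.M
import Pool.Agent.MP_9ab903_nt.FinalDefs2

/-!
# [QTB-G8] the `L`-function over `F`
-/

set_option autoImplicit false

open NumberField IsDedekindDomain
open scoped Classical

namespace QTC

open PI (Gi sy ii la Prim emK eG KI la_prime pl em)
open QT (st Dd Adm bD gD Good)
open QTD (LocB cl vla)
open TU (QS Ur Sq Od)

section
variable {s t : ℕ} {S : Finset Gi} {a : Gi → ℕ} {T : Finset Gi} {F : Type} [Field F] [NumberField F] [Algebra KI F]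
  (X : Dat s t S a T F)
include X

/-- [QTB-G8a] PROOF. `QTF.LD` for `Q.e = emK (mT T)`: at `w` with `2 ∈ w` or `D ∈ w`: `w.asIdeal ≠ span {eG q}` for `q ∈ T` (`q ∤ 2`, `q ∤ D` since `q ∉ S`, `QTS.Dd_not`, `PI.mem_iff`), so `Ur_of` (F8a). -/
theorem ld_e : QTF.LD KI (eG (Dd s t S a) : 𝓞 KI) X.Q.e := by
  refine ⟨X.Q.e_ne, fun w hw => ?_⟩
  rw [X.he]
  refine Ur_of X.pr X.cl0 w ?_
  intro q hq hv
  obtain ⟨hqp, hqP⟩ := X.pr q hq
  rcases hw with hw | hw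
  · rw [← map_ofNat eG 2, PI.mem_iff hv] at hw
    exact PI.t5b_not_two hqp hqP hw
  · rw [PI.mem_iff hv] at hw
    exact QTS.Dd_not (QTS.good_adm X.good) hqp hqP
      (fun hS => (Finset.disjoint_left.1 X.disj) hS hq) hw

end

section
variable {s t : ℕ} {S : Finset Gi} {a : Gi → ℕ} {T : Finset Gi} {F : Type} [Field F] [NumberField F] [Algebra KI F]
  (X : Dat s t S a T F)
include X

/-- [QTB-G8b] PROOF. `QTF.qbc X.Q (QTF.loc_base X.good) QTF.LD.one ld_e` (`LCW F (V D 1) = LCW KI (V D 1) * LCW KI (V D (1 * e))`); `QTF.V D d = QT.W (D * d ^ 2)` by definition: `V (algebraMap D) (algebraMap 1) = EF`, `V D 1 = QT.W D`, `V D (1 * e) = QT.W (D m²)`. -/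
theorem lcw_F : CMT.LCW F (EF s t S a F) = CMT.LCW KI (QT.W ((eG (Dd s t S a) : 𝓞 KI) : KI)) *
    CMT.LCW KI (QT.W ((eG (Dd s t S a * mT T ^ 2) : 𝓞 KI) : KI)) := by
  have h := QTF.qbc X.Q (QTF.loc_base X.good) (QTF.LD.one (F := KI) (D := (eG (Dd s t S a) : 𝓞 KI))) (ld_e X)
  have e1 : QTF.V (algebraMap (𝓞 KI) (𝓞 F) (eG (Dd s t S a))) (algebraMap KI F 1) = EF s t S a F := by
    unfold QTF.V EF
    rw [map_one, one_pow, mul_one]
    rfl
  have e2 : QTF.V (eG (Dd s t S a) : 𝓞 KI) (1 : KI) = QT.W ((eG (Dd s t S a) : 𝓞 KI) : KI) := by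
    unfold QTF.V
    rw [one_pow, mul_one]
  have e3 : QTF.V (eG (Dd s t S a) : 𝓞 KI) (1 * X.Q.e) =
      QT.W ((eG (Dd s t S a * mT T ^ 2) : 𝓞 KI) : KI) := by
    unfold QTF.V
    rw [one_mul, X.he, map_mul, map_pow]
    rfl
  rw [e1, e2, e3] at h
  exact h

end

section
variable {s t : ℕ} {S : Finset Gi} {a : Gi → ℕ} {T : Finset Gi} {F : Type} [Field F] [NumberField F] [Algebra KI F]
  (X : Dat s t S a T F)
include X

/-- [QTB-G8c] PROOF. As `TK.An.mul` (TK/T1.lean): `ArithmeticFunction.LSeriesSummable_mul`, `LSeries_mul'`, `TK.t1_fun`, `TK.t1_LSeries`. -/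
theorem entire_F {L₁ L₂ : ℂ → ℂ} (h1 : SBSD2.IsEntireLSeries (QT.W ((eG (Dd s t S a) : 𝓞 KI) : KI)) L₁)
    (h2 : SBSD2.IsEntireLSeries (QT.W ((eG (Dd s t S a * mT T ^ 2) : 𝓞 KI) : KI)) L₂) :
    SBSD2.IsEntireLSeries (EF s t S a F) (fun z => L₁ z * L₂ z) := by
  obtain ⟨hd1, hs1⟩ := h1
  obtain ⟨hd2, hs2⟩ := h2
  have h := lcw_F X
  refine ⟨hd1.mul hd2, fun z hz => ?_⟩
  obtain ⟨a1, b1⟩ := hs1 z hz
  obtain ⟨a2, b2⟩ := hs2 z hz
  rw [TK.t1_fun] at a1 a2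
  refine ⟨?_, ?_⟩
  · rw [TK.t1_fun, h]
    exact ArithmeticFunction.LSeriesSummable_mul a1 a2
  · rw [TK.t1_LSeries, h, ArithmeticFunction.LSeries_mul' a1 a2]
    show L₁ z * L₂ z = _
    rw [b1, b2, TK.t1_LSeries, TK.t1_LSeries]

end

end QTC
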