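import Pool.Agent.QTB.G4g
import Pool.Agent.QT.FinalD

/-!
# [QTB-G9a] the quotient over `ℚ(i)`
-/

set_option autoImplicit false

open NumberField IsDedekindDomain
open scoped Classical

namespace QTC

open PI (Gi sy ii la Prim emK eG KI la_prime pl em)
open QT (st Dd Adm bD gD Good)
open QTD (LocB cl vla)
open TU (QS Ur Sq Od)

/-- [QTB-G9a] the quotient over `ℚ(i)`: `q · (2 A / ‖D‖^(1/2)) ν 2^(#S) c = L(1) · 2 (2m)²`. PROOF. `QT.final_D`, `QT.desc_main` (the number of points), `CMT.card_tors`, `PI.abs_discr_KI`, `QTS.period_W`, `prods_K`; see the end of `QTS.twoPart_gen` (QTS/Z1.lean). -/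
theorem quot_K {s t : ℕ} {S : Finset Gi} {a : Gi → ℕ} (h : Good s t S a) :
    ∃ (L : ℂ → ℂ) (q : ℚ) (m : ℕ), SBSD2.IsEntireLSeries (QT.W ((eG (Dd s t S a) : 𝓞 KI) : KI)) L ∧ L 1 ≠ 0 ∧
      q ≠ 0 ∧ padicValRat 2 q = 0 ∧ Odd m ∧
      L 1 * 8 * (m : ℂ) ^ 2 =
        q * ((2 * SBSD.complexArea (PI.W (1 : ℂ)) / ‖em (Dd s t S a)‖ ^ ((1 : ℝ) / 2) : ℝ) : ℂ) * nla s t S a *
          2 ^ S.card * cla t := by
  obtain ⟨hell, hfin, L, hE, hord, hL0, hsha, q, hq0, hqv, hq⟩ := QT.final_D h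
  obtain ⟨-, hcard, -⟩ := QT.desc_main s t S a h (eG (QT.Dd s t S a)) rfl
  obtain ⟨m, hm, hcm⟩ := hcard
  have hadm := QTS.good_adm h
  have ha := QTS.Dd_ne hadm
  obtain ⟨htam, hneron⟩ := prods_K h
  have hperiod := QTS.period_W (Dd s t S a) ha (nla s t S a : ℝ) hneron
  refine ⟨L, q, m, hE, hL0, hq0, hqv, hm, ?_⟩
  rw [SBSD2.bsdQuotient, CMT.card_tors, hperiod, htam, PI.abs_discr_KI, hcm] at hq
  have h4 : √(4 : ℝ) = 2 := by
    rw [show (4 : ℝ) = 2 ^ 2 by norm_num, Real.sqrt_sq (by norm_num)]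
  rw [h4] at hq
  have hqC : (q : ℂ) ≠ 0 := by exact_mod_cast hq0
  generalize 2 * SBSD.complexArea (PI.W (1 : ℂ)) / ‖em (Dd s t S a)‖ ^ ((1 : ℝ) / 2) = Ω at hq ⊢
  generalize L 1 = x at hq ⊢
  have hY : (((Ω * (nla s t S a : ℝ) : ℝ) : ℂ) * ((2 ^ S.card * cla t : ℕ) : ℂ)) ≠ 0 := by
    intro h0
    rw [h0, div_zero] at hq
    exact hqC hq.symm
  rw [div_eq_iff hY] at hq
  push_cast at hq ⊢
  linear_combination hq

end QTC
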