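import Pool.Agent.QTB.G9a
import Pool.Agent.QTB.G6d
import Pool.Agent.QTB.G7d
import Pool.Agent.QTB.G8
import Pool.Agent.QTF.T2

/-!
# [QTB-G9b] the BSD quotient over `F`
-/

set_option autoImplicit false

open NumberField IsDedekindDomain
open scoped Classical

namespace QTC

open PI (Gi sy ii la Prim emK eG KI la_prime pl em)
open QT (st Dd Adm bD gD Good)
open QTD (LocB cl vla)
open TU (QS Ur Sq Od)

theorem g9b_mT_sq (T : Finset Gi) : mT T ^ 2 = (∏ q ∈ T, q) ^ 2 := by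
  unfold mT
  rw [← Finset.prod_pow, ← Finset.prod_pow]
  refine Finset.prod_congr rfl fun q _ => ?_
  unfold QT.st
  split_ifs
  · rfl
  · rw [neg_sq]

theorem g9b_mT_ne {T : Finset Gi} (hT : ∀ q ∈ T, Prime q ∧ Prim q) : mT T ≠ 0 := by
  intro h
  have h1 := g9b_mT_sq T
  rw [h, zero_pow two_ne_zero] at h1
  exact (Finset.prod_ne_zero_iff.2 fun q hq => (hT q hq).1.ne_zero) (pow_eq_zero_iff two_ne_zero |>.1 h1.symm)

theorem g9b_em_ne {D : Gi} (hD : D ≠ 0) : 0 < ‖em D‖ :=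
  norm_pos_iff.2 ((map_ne_zero_iff em PI.em_injective).2 hD)

/-- the norms -/
theorem g9b_norm (D m : Gi) :
    ‖em (D * m ^ 2)‖ ^ ((1 : ℝ) / 2) = ‖em D‖ ^ ((1 : ℝ) / 2) * ‖em m‖ := by
  rw [map_mul, map_pow, norm_mul, norm_pow, Real.mul_rpow (norm_nonneg _) (by positivity),
    ← Real.rpow_natCast ‖em m‖ 2, ← Real.rpow_mul (norm_nonneg _)]
  norm_num

/-- the valuation -/
theorem g9b_val (q₁ q₂ : ℚ) (k m₁ m₂ n : ℕ) (h1 : q₁ ≠ 0) (h2 : q₂ ≠ 0) (hk : Odd k) (hm1 : Odd m₁)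
    (hm2 : Odd m₂) (hv1 : padicValRat 2 q₁ = 0) (hv2 : padicValRat 2 q₂ = 0) :
    q₁ * q₂ * (k : ℚ) ^ 2 * 2 ^ n / (4 * (m₁ : ℚ) ^ 2 * (m₂ : ℚ) ^ 2) ≠ 0 ∧
    padicValRat 2 (q₁ * q₂ * (k : ℚ) ^ 2 * 2 ^ n / (4 * (m₁ : ℚ) ^ 2 * (m₂ : ℚ) ^ 2)) = (n : ℤ) - 2 := by
  have hodd : ∀ j : ℕ, Odd j → (j : ℚ) ^ 2 ≠ 0 ∧ padicValRat 2 ((j : ℚ) ^ 2) = 0 := by
    intro j hj
    refine ⟨?_, ?_⟩
    · have : (j : ℚ) ≠ 0 := by
        intro h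
        have h' : j = 0 := by exact_mod_cast h
        rw [h'] at hj
        exact absurd hj (by decide)
      exact pow_ne_zero _ this
    · have := CM27.padic_two_odd_nat _ (hj.pow (n := 2))
      exact_mod_cast this
  have e2 : padicValRat 2 (2 : ℚ) = 1 := by
    have := padicValRat.self (p := 2) (by norm_num)
    exact_mod_cast this
  have e3 : padicValRat 2 (4 : ℚ) = 2 := by
    have h : (4 : ℚ) = 2 ^ 2 := by norm_num
    rw [h, padicValRat.pow, e2]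
    norm_num
  have e4 : padicValRat 2 ((2 : ℚ) ^ n) = n := by
    rw [padicValRat.pow, e2]
    ring
  have h2n : ((2 : ℚ) ^ n) ≠ 0 := pow_ne_zero _ (by norm_num)
  have h4 : (4 : ℚ) ≠ 0 := by norm_num
  obtain ⟨hk1, hk2⟩ := hodd k hk
  obtain ⟨ha1, ha2⟩ := hodd m₁ hm1
  obtain ⟨hb1, hb2⟩ := hodd m₂ hm2
  have hn : q₁ * q₂ * (k : ℚ) ^ 2 * 2 ^ n ≠ 0 := mul_ne_zero (mul_ne_zero (mul_ne_zero h1 h2) hk1) h2n
  have hd : 4 * (m₁ : ℚ) ^ 2 * (m₂ : ℚ) ^ 2 ≠ 0 := mul_ne_zero (mul_ne_zero h4 ha1) hb1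
  refine ⟨div_ne_zero hn hd, ?_⟩
  rw [padicValRat.div hn hd, padicValRat.mul (mul_ne_zero (mul_ne_zero h1 h2) hk1) h2n,
    padicValRat.mul (mul_ne_zero h1 h2) hk1, padicValRat.mul h1 h2,
    padicValRat.mul (mul_ne_zero h4 ha1) hb1, padicValRat.mul h4 ha1, hv1, hv2, hk2, ha2, hb2, e3, e4]
  ring

/-- the computation -/
theorem g9b_comp (L₁ L₂ q₁ q₂ A N μ ν c tam : ℂ) (k m₁ m₂ r u n : ℕ) (hN : N ≠ 0) (hμ : μ ≠ 0)
    (hν : ν ≠ 0) (hc : c ≠ 0) (hm1 : (m₁ : ℂ) ≠ 0) (hm2 : (m₂ : ℂ) ≠ 0) (hL : L₁ ≠ 0)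
    (e1 : L₁ * 8 * (m₁ : ℂ) ^ 2 = q₁ * (2 * A / N) * ν * 2 ^ r * c)
    (e2 : L₂ * 8 * (m₂ : ℂ) ^ 2 = q₂ * (2 * A / (N * μ)) * ν * 2 ^ (r + u) * c)
    (ht : 2 ^ n * tam = 2 ^ (2 * r) * c ^ 2) :
    L₁ * L₂ * (4 * μ) * (2 * (k : ℂ)) ^ 2 / ((2 * A / N) ^ 2 * ν ^ 2 * tam) =
      q₁ * q₂ * (k : ℂ) ^ 2 * 2 ^ (u + n) / (4 * (m₁ : ℂ) ^ 2 * (m₂ : ℂ) ^ 2) := by
  have hA : A ≠ 0 := by
    rintro rfl
    apply hL
    have h1 : L₁ * 8 * (m₁ : ℂ) ^ 2 = 0 := by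
      rw [e1]
      ring
    rcases mul_eq_zero.1 h1 with h2 | h2
    · rcases mul_eq_zero.1 h2 with h3 | h3
      · exact h3
      · norm_num at h3
    · exact absurd (pow_eq_zero_iff two_ne_zero |>.1 h2) hm1
  have h2n : (2 : ℂ) ^ n ≠ 0 := pow_ne_zero _ two_ne_zero
  have h2r : (2 : ℂ) ^ r ≠ 0 := pow_ne_zero _ two_ne_zero
  have ht' : tam = 2 ^ (2 * r) * c ^ 2 / 2 ^ n := by
    rw [eq_div_iff h2n, ← ht]
    ring
  have e1' : L₁ = q₁ * (2 * A / N) * ν * 2 ^ r * c / (8 * (m₁ : ℂ) ^ 2) := by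
    rw [eq_div_iff (mul_ne_zero (by norm_num) (pow_ne_zero _ hm1)), ← e1]
    ring
  have e2' : L₂ = q₂ * (2 * A / (N * μ)) * ν * 2 ^ (r + u) * c / (8 * (m₂ : ℂ) ^ 2) := by
    rw [eq_div_iff (mul_ne_zero (by norm_num) (pow_ne_zero _ hm2)), ← e2]
    ring
  rw [e1', e2', ht', pow_add, pow_add, pow_mul, ← pow_mul, mul_comm 2 r, pow_mul]
  field_simp
  ring

/-- [QTB-G9b] the quotient over `F`. PROOF. `QTF.good_union` (QTF/T2.lean) gives `a'` with `Good s t (S ∪ T) a'`, `Dd s t (S ∪ T) a' = D (∏ q)² = D (mT T)²` (`mT T = ± ∏ q`: `QTF.n_prod_st` or `(QT.st q)² = q²`). `quot_K` for `(S, a)` and `(S ∪ T, a')`: `L₁, q₁, m₁`, `L₂, q₂, m₂`; `#(S ∪ T) = #S + #T`; `nla_union`; `entire_F`: `L = L₁ L₂`.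
`bsdQuotient = L₁(1) L₂(1) · 4 ‖m‖ · (2k)² / (period_F · ∏ tam)` (`sqrt_discr_F`, `CMT.card_tors`, `period_F`, `finprod_tam_F`); with `P = 2A/‖D‖^(1/2)`: `L₁(1) = q₁ P ν 2^#S c / (8 m₁²)`, `L₂(1) = q₂ (P/‖m‖) ν 2^(#S + #T) c / (8 m₂²)` (`‖D m²‖^(1/2) = ‖D‖^(1/2) ‖m‖`), `∏ tam = 2^(2 #S) c² / 2^nF`, period `P² ν²`. So the quotient is
`q = q₁ q₂ k² 2^(#T + nF) · 16 / (64 m₁² m₂²) = q₁ q₂ (k / (m₁ m₂))² 2^(#T + nF) / 4`. Its valuation is `#T + nF - 2`. Order of vanishing: `L 1 ≠ 0` (`CMT.order_eq`, as in `QTS.twoPart_gen`: here the rank is `0` since the group is finite). -/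
theorem quot_F {s t : ℕ} {S : Finset Gi} {a : Gi → ℕ} {T : Finset Gi} {F : Type} [Field F] [NumberField F] [Algebra KI F]
    (X : Dat s t S a T F) (hfin : Finite (EF s t S a F).toAffine.Point)
    (hk : ∃ k, Odd k ∧ Nat.card (EF s t S a F).toAffine.Point = 2 * k) :
    ∃ L : ℂ → ℂ, SBSD2.IsEntireLSeries (EF s t S a F) L ∧
      analyticOrderAt L 1 = Module.finrank ℤ (EF s t S a F).toAffine.Point ∧ L 1 ≠ 0 ∧
      ∃ q : ℚ, q ≠ 0 ∧ padicValRat 2 q = (nF S a T : ℤ) + T.card - 2 ∧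
        SBSD2.bsdQuotient (EF s t S a F) (L 1) = q := by
  have h := X.good
  obtain ⟨a', hg', hD'⟩ := QTF.good_union h T X.pr X.disj X.nice
  obtain ⟨L₁, q₁, m₁, hE1, hL1, hq1, hv1, hm1, e1⟩ := quot_K h
  obtain ⟨L₂, q₂, m₂, hE2, hL2, hq2, hv2, hm2, e2⟩ := quot_K hg'
  have hD2 : Dd s t (S ∪ T) a' = Dd s t S a * mT T ^ 2 := by
    rw [hD', g9b_mT_sq]
  have hcard : (S ∪ T).card = S.card + T.card := Finset.card_union_of_disjoint X.disj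
  have hnla := nla_union X.cl0 hD'
  rw [hD2] at hE2 e2
  rw [hnla, hcard, g9b_norm] at e2
  have hE := entire_F X hE1 hE2
  have hL : L₁ 1 * L₂ 1 ≠ 0 := mul_ne_zero hL1 hL2
  obtain ⟨k, hko, hkc⟩ := hk
  have hD0 : Dd s t S a ≠ 0 := QTS.Dd_ne (QTD.good_adm h)
  have hN := Real.rpow_pos_of_pos (g9b_em_ne hD0) ((1 : ℝ) / 2)
  have hμ := g9b_em_ne (g9b_mT_ne X.pr)
  have hν : nla s t S a ≠ 0 := by
    unfold nla
    split_ifs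
    · exact two_ne_zero
    · exact one_ne_zero
  have hc : cla t ≠ 0 := by
    unfold cla
    split_ifs
    · exact one_ne_zero
    · exact two_ne_zero
  have hm1' : (m₁ : ℂ) ≠ 0 := by
    intro h0
    have h' : m₁ = 0 := by exact_mod_cast h0
    rw [h'] at hm1
    exact absurd hm1 (by decide)
  have hm2' : (m₂ : ℂ) ≠ 0 := by
    intro h0
    have h' : m₂ = 0 := by exact_mod_cast h0
    rw [h'] at hm2
    exact absurd hm2 (by decide)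
  obtain ⟨hqn, hqv⟩ := g9b_val q₁ q₂ k m₁ m₂ (T.card + nF S a T) hq1 hq2 hko hm1 hm2 hv1 hv2
  have ht := finprod_tam_F X
  refine ⟨fun z => L₁ z * L₂ z, hE, ?_, hL, _, hqn, ?_, ?_⟩
  · exact CMT.order_eq _ (AnalyticAt.analyticOrderAt_eq_zero (hE.1.analyticAt 1) |>.2 hL)
  · rw [hqv]
    push_cast
    ring
  · rw [SBSD2.bsdQuotient, CMT.card_tors, period_F X, sqrt_discr_F X.Q X.pr X.cl0 X.he, hkc]
    generalize (∏ᶠ w : HeightOneSpectrum (𝓞 F), SBSD.tam (EF s t S a F) w) = tam at ht ⊢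
    generalize ‖em (Dd s t S a)‖ ^ ((1 : ℝ) / 2) = N at *
    generalize ‖em (mT T)‖ = μ at *
    have ht' : (2 : ℂ) ^ nF S a T * (tam : ℂ) = 2 ^ (2 * S.card) * (cla t : ℂ) ^ 2 := by
      exact_mod_cast ht
    have key := g9b_comp (L₁ 1) (L₂ 1) q₁ q₂ (SBSD.complexArea (PI.W (1 : ℂ)) : ℝ) (N : ℝ) (μ : ℝ)
      (nla s t S a) (cla t) tam k m₁ m₂ S.card T.card (nF S a T) (by exact_mod_cast hN.ne')
      (by exact_mod_cast hμ.ne') (by exact_mod_cast hν) (by exact_mod_cast hc) hm1' hm2' hL1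
      (by push_cast at e1; exact e1) (by push_cast at e2; exact e2) ht'
    push_cast
    rw [← key]

end QTC
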