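import Pool.Agent.TU.Q3

/-!
# [QTB-H1a] extensions of degree 2 are generated by square roots
-/

set_option autoImplicit false

open NumberField IsDedekindDomain
open scoped Classical

namespace QTC

open TU (QS)

/-- `(a, b) ↦ a + b x` -/
noncomputable def h1a_f (K : Type) {F : Type} [Field K] [Field F] [Algebra K F] (x : F) : (K × K) →ₗ[K] F :=
  (LinearMap.toSpanSingleton K F 1).coprod (LinearMap.toSpanSingleton K F x)

theorem h1a_f_apply (K : Type) {F : Type} [Field K] [Field F] [Algebra K F] (x : F) (a b : K) :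
    h1a_f K x (a, b) = algebraMap K F a + algebraMap K F b * x := by
  rw [h1a_f, LinearMap.coprod_apply, LinearMap.toSpanSingleton_apply, LinearMap.toSpanSingleton_apply,
    Algebra.smul_def, Algebra.smul_def, mul_one]

theorem h1a_inj (K : Type) {F : Type} [Field K] [Field F] [Algebra K F] (x : F)
    (hx : ∀ a : K, algebraMap K F a ≠ x) : Function.Injective (h1a_f K x) := by
  rw [← LinearMap.ker_eq_bot, LinearMap.ker_eq_bot']
  rintro ⟨a, b⟩ h
  rw [h1a_f_apply] at h
  have hb : b = 0 := by
    by_contra hb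
    apply hx (-a / b)
    have h1 : algebraMap K F b ≠ 0 := by
      rw [Ne, map_eq_zero]
      exact hb
    rw [map_div₀, div_eq_iff h1, map_neg]
    linear_combination -h
  subst hb
  rw [map_zero, zero_mul, add_zero, map_eq_zero] at h
  rw [h]
  rfl

theorem h1a_fin2 (K : Type) [Field K] : Module.finrank K (K × K) = 2 := by
  rw [Module.finrank_prod, Module.finrank_self]

/-- [QTB-H1a] PROOF. Take `x ∈ F` not in the image of `K`; `1, x` are linearly independent over `K`, so they are a basis, `x² = - b x - c`; `s = 2 x + b`, `s² = b² - 4 c =: e`; `1, s` is also a basis (`x = (s - b)/2`). Fields of `QS`: `e, s, hs, gen, ns`. -/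
theorem exists_QS (K F : Type) [Field K] [NumberField K] [Field F] [NumberField F] [Algebra K F]
    (h : Module.finrank K F = 2) : Nonempty (QS K F) := by
  have hfd : Module.Finite K F := Module.finite_of_finrank_pos (by omega)
  have hx : ∃ x : F, ∀ a : K, algebraMap K F a ≠ x := by
    by_contra hcon
    push Not at hcon
    have h1 := (LinearEquiv.ofBijective (Algebra.linearMap K F)
      ⟨(algebraMap K F).injective, hcon⟩).finrank_eq
    rw [Module.finrank_self, h] at h1
    omega
  obtain ⟨x, hx⟩ := hx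
  have hsurj : Function.Surjective (h1a_f K x) :=
    (LinearMap.injective_iff_surjective_of_finrank_eq_finrank (by rw [h1a_fin2, h])).1 (h1a_inj K x hx)
  obtain ⟨⟨a, b⟩, hab⟩ := hsurj (x ^ 2)
  rw [h1a_f_apply] at hab
  have h2 : (2 : F) ≠ 0 := two_ne_zero
  refine ⟨⟨4 * a + b ^ 2, 2 * x - algebraMap K F b, ?_, ?_, ?_⟩⟩
  · rw [map_add, map_mul, map_pow, map_ofNat]
    linear_combination -4 * hab
  · intro y
    obtain ⟨⟨u, v⟩, huv⟩ := hsurj y
    rw [h1a_f_apply] at huv
    refine ⟨u + v * b / 2, v / 2, ?_⟩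
    rw [← huv, map_add, map_div₀, map_div₀, map_mul, map_ofNat]
    field_simp
    ring
  · intro c hc
    apply hx ((c + b) / 2)
    rw [map_div₀, map_add, map_ofNat, hc]
    field_simp
    ring

/-- [QTB-H1a2] PROOF. `1, s` is a basis of `F` over `K` (`Q.gen`, `Q.ns`; `TU.QS.repr_unique`). -/
theorem QS_finrank {K F : Type} [Field K] [NumberField K] [Field F] [NumberField F] [Algebra K F]
    (Q : QS K F) : Module.finrank K F = 2 := by
  have h1 : Function.Surjective (h1a_f K Q.s) := by
    intro y
    obtain ⟨a, b, hab⟩ := Q.gen y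
    exact ⟨(a, b), by rw [h1a_f_apply, hab]⟩
  rw [← (LinearEquiv.ofBijective (h1a_f K Q.s) ⟨h1a_inj K Q.s Q.ns, h1⟩).finrank_eq, h1a_fin2]

end QTC
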