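import Pool.Agent.QTB.H1a
import Pool.Agent.QTB.F8a
import Pool.Agent.QTB.F8f
import Pool.Agent.QTB.F2b
import Pool.Agent.QTF.K
import Pool.Agent.QTF.N

/-!
# [QTB-H1b] the data for a quadratic extension `F` of `ℚ(i)`
-/

set_option autoImplicit false

open NumberField IsDedekindDomain
open scoped Classical

namespace QTC

open PI (Gi sy ii la Prim emK eG KI la_prime pl)
open QT (st Dd Adm bD gD Good)
open QTD (LocB cl vla)
open TU (QS Ur Sq Od)

/-- a place of `F` above `2` lies above `1 + i` -/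
theorem h1b_below {F : Type} [Field F] [NumberField F] [Algebra KI F] {R : HeightOneSpectrum (𝓞 F)}
    (h2 : (2 : 𝓞 F) ∈ R.asIdeal) : R.asIdeal.comap (algebraMap (𝓞 KI) (𝓞 F)) = vla.asIdeal := by
  have hla : algebraMap (𝓞 KI) (𝓞 F) (eG la) ∈ R.asIdeal := by
    have h : (algebraMap (𝓞 KI) (𝓞 F) (eG la)) ^ 2 ∈ R.asIdeal := by
      have h3 : (algebraMap (𝓞 KI) (𝓞 F) (eG la)) ^ 2 = 2 * algebraMap (𝓞 KI) (𝓞 F) (eG ii) := by
        rw [← map_pow, ← map_pow, PI.la_sq, map_mul, map_mul, map_ofNat, map_ofNat]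
      rw [h3]
      exact Ideal.mul_mem_right _ _ h2
    exact R.isPrime.mem_of_pow_mem 2 h
  have hle : vla.asIdeal ≤ R.asIdeal.comap (algebraMap (𝓞 KI) (𝓞 F)) := by
    rw [QTD.vla_as, Ideal.span_singleton_le_iff_mem]
    exact hla
  exact (vla.isMaximal.eq_of_le (Ideal.comap_ne_top _ R.isPrime.ne_top) hle).symm

/-- the same for places of `ℚ(i)` -/
theorem h1b_eq_vla {v : HeightOneSpectrum (𝓞 KI)} (h2 : (2 : 𝓞 KI) ∈ v.asIdeal) : v = vla := by
  have hla : eG la ∈ v.asIdeal := by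
    have h : (eG la) ^ 2 ∈ v.asIdeal := by
      have h3 : (eG la) ^ 2 = 2 * eG ii := by
        rw [← map_pow, PI.la_sq, map_mul, map_ofNat]
      rw [h3]
      exact Ideal.mul_mem_right _ _ h2
    exact v.isPrime.mem_of_pow_mem 2 h
  have hle : vla.asIdeal ≤ v.asIdeal := by
    rw [QTD.vla_as, Ideal.span_singleton_le_iff_mem]
    exact hla
  exact HeightOneSpectrum.ext (vla.isMaximal.eq_of_le v.isPrime.ne_top hle).symm

/-- [QTB-H1b] PROOF. `Q₀ : QS KI F` (`exists_QS`), `e₀ = Q₀.e ≠ 0`, `s₀ ≠ 0`. `QTF.dn_of_sqrt F hram` (QTF/K.lean): `QTF.DN D e₀`; `QTF.exists_normal` (QTF/N.lean): `e₀ = x² (∏ q)`, `T` a finite set of primary primes, `q ∤ D`, `sy D q = 1`. `QTF.n_prod_st`: `∏ q* = y² ∏ q`, `y` a unit, so `mT T = (y/x)² e₀`: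
`Q` with `e = emK (mT T)`, `s = (y/x) s₀`. `q ∉ S`: `q ∤ D` (`QT.Dd_dvd` / `QTS`: the primes of `S` divide `D`). `cl0`: there is `cl (mT T) β γ` (`QTD.cl_prod`, `cl_st`). `DN` at `vla` (`2 ∈ vla`, so `NP` is impossible) gives `Ur vla Q.e`. If not `Sq vla Q.e`: `QS.inert`: only one place of `F` above `vla`; but `w, w'` both lie above `vla`
(`2 ∈ w`, so `la ∈ w`: `(2) = (la)²`, `w.comap = vla` since `vla` is maximal; `PI.gen_cases`, `TK.s2_below`). So `Sq vla Q.e`, `isSquare_of_Sq` (F8f): `mT T` is a square in the completion, `sq_la_iff` with `x = y = 0`: `β = γ = 0`. -/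
theorem exists_dat {s t : ℕ} {S : Finset Gi} {a : Gi → ℕ} (h : Good s t S a) (F : Type) [Field F] [NumberField F]
    [Algebra KI F] (h2 : Module.finrank KI F = 2)
    (hram : ∀ (v : HeightOneSpectrum (𝓞 KI)) (P : HeightOneSpectrum (𝓞 F)),
      v.asIdeal.map (algebraMap (𝓞 KI) (𝓞 F)) ≤ P.asIdeal ^ 2 → QTF.NP (eG (Dd s t S a) : 𝓞 KI) v)
    (hsp : ∃ w w' : HeightOneSpectrum (𝓞 F), w ≠ w' ∧ (2 : 𝓞 F) ∈ w.asIdeal ∧ (2 : 𝓞 F) ∈ w'.asIdeal) :
    ∃ T : Finset Gi, Nonempty (Dat s t S a T F) := by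
  obtain ⟨Q₀⟩ := exists_QS KI F h2
  have hs0 : Q₀.s ≠ 0 := by
    intro h0
    exact Q₀.ns 0 (by rw [map_zero, h0])
  have hDN := QTF.dn_of_sqrt F hram hs0 Q₀.hs
  obtain ⟨x, T, hx, hT, hde⟩ := QTF.exists_normal (Dd s t S a) hDN
  obtain ⟨y, hy, hprod⟩ := QTF.n_prod_st T
  have hyK : emK y ≠ 0 := (map_ne_zero_iff emK (by
    intro a b hab
    apply PI.em_injective
    have := congrArg (fun z : KI => (z : ℂ)) hab
    exact this)).2 hy.ne_zero
  set c : KI := emK y / x with hc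
  have hc0 : c ≠ 0 := div_ne_zero hyK hx
  have hcF : algebraMap KI F c ≠ 0 := (map_ne_zero _).2 hc0
  have hm : emK (mT T) = c ^ 2 * Q₀.e := by
    unfold mT
    rw [hprod, map_mul, map_pow, hde, hc]
    have h3 : ((eG (∏ q ∈ T, q) : 𝓞 KI) : KI) = emK (∏ q ∈ T, q) := rfl
    rw [h3]
    field_simp
  let Q : QS KI F :=
    { e := emK (mT T)
      s := algebraMap KI F c * Q₀.s
      hs := by rw [hm, mul_pow, Q₀.hs, map_mul, map_pow]
      gen := fun z => by
        obtain ⟨u, w, huw⟩ := Q₀.gen z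
        refine ⟨u, w / c, ?_⟩
        rw [huw, map_div₀]
        field_simp
      ns := fun u hu => by
        apply Q₀.ns (u / c)
        rw [map_div₀, hu]
        field_simp }
  have hadm := QTD.good_adm h
  have hcl : cl (mT T) (∑ q ∈ T, sy ii q) (∑ q ∈ T, sy la q) :=
    QTD.cl_prod fun q hq => QTD.cl_st (hT q hq).1 (hT q hq).2.1
  have hUr : Ur vla Q.e := by
    rcases hDN.2 vla with h3 | h3
    · show Ur vla (emK (mT T))
      rw [hm]
      exact (TU.ur_sq_mul hc0).2 h3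
    · exact absurd QTF.n_two_mem h3.1
  have hSq : Sq vla Q.e := by
    by_contra hn
    obtain ⟨P, hP, -, -⟩ := Q.inert vla hUr hn
    obtain ⟨w, w', hne, hw, hw'⟩ := hsp
    exact hne (((hP w).1 (h1b_below hw)).trans ((hP w').1 (h1b_below hw')).symm)
  have hsq := isSquare_of_Sq vla hSq
  have hz : (∑ q ∈ T, sy ii q) = 0 ∧ (∑ q ∈ T, sy la q) = 0 := by
    have h3 := (sq_la_iff 0 0 hcl).1 (by
      rw [pow_zero, pow_zero, one_mul, one_mul]
      exact hsq)
    exact ⟨h3.2.2.1, h3.2.2.2⟩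
  refine ⟨T, ⟨⟨h, fun q hq => ⟨(hT q hq).1, (hT q hq).2.1⟩, ?_, fun q hq => (hT q hq).2.2.2, ?_, Q, rfl⟩⟩⟩
  · rw [Finset.disjoint_left]
    intro q hqS hqT
    apply (hT q hqT).2.2.1
    obtain ⟨D', hD, -, -⟩ := QTD.Dd_split (s := s) (t := t) (a := a) hadm.1 ⟨q, hqS⟩
    have ha : a q ≠ 0 := by
      rcases hadm.2.1 q hqS with h3 | h3 | h3 <;> rw [h3] <;> norm_num
    rw [hD]
    exact Dvd.dvd.mul_right (dvd_pow_self q ha) D'
  · rw [hz.1, hz.2] at hcl
    exact hcl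

/-- [QTB-H1c] PROOF. `v` with `v.map ≤ P²`; suppose `2 ∈ v`, so `v = vla` (`PI.gen_cases`, `PI.t5b_not_two`). `QS.efg` (TU/Q2.lean) for `v`: there are two places above `v`, so it is the split case, the valuation of `F` at `P` of `eG la` (a generator of `v`) is `exp (-1)`; but it is in `P²`: contradiction (`TU.q3_pow`). -/
theorem two_unram (F : Type) [Field F] [NumberField F] [Algebra KI F] (h2 : Module.finrank KI F = 2)
    (hsp : ∃ w w' : HeightOneSpectrum (𝓞 F), w ≠ w' ∧ (2 : 𝓞 F) ∈ w.asIdeal ∧ (2 : 𝓞 F) ∈ w'.asIdeal)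
    (v : HeightOneSpectrum (𝓞 KI)) (P : HeightOneSpectrum (𝓞 F))
    (h : v.asIdeal.map (algebraMap (𝓞 KI) (𝓞 F)) ≤ P.asIdeal ^ 2) : (2 : 𝓞 KI) ∉ v.asIdeal := by
  intro h2v
  obtain ⟨Q⟩ := exists_QS KI F h2
  obtain ⟨w, w', hne, hw, hw'⟩ := hsp
  have hv := h1b_eq_vla h2v
  subst hv
  have hcP : P.asIdeal.comap (algebraMap (𝓞 KI) (𝓞 F)) = vla.asIdeal := by
    have hle : vla.asIdeal ≤ P.asIdeal.comap (algebraMap (𝓞 KI) (𝓞 F)) := by
      rw [← Ideal.map_le_iff_le_comap]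
      exact h.trans (Ideal.pow_le_self two_ne_zero)
    exact (vla.isMaximal.eq_of_le (Ideal.comap_ne_top _ P.isPrime.ne_top) hle).symm
  rcases Q.efg vla with ⟨R, hR, -, -⟩ | ⟨R, R', -, -, hR, -, -, h5, h6⟩ | ⟨R, hR, -, -⟩
  · exact hne (((hR w).1 (h1b_below hw)).trans ((hR w').1 (h1b_below hw')).symm)
  · have hval : P.valuation F (algebraMap KI F (emK la)) = vla.valuation KI (emK la) := by
      rcases (hR P).1 hcP with h7 | h7
      · rw [h7]
        exact h5 _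
      · rw [h7]
        exact h6 _
    have hla : vla.valuation KI (emK la) = WithZero.exp (-1) := by
      refine QTD.vla_eq la 1 (-1) (by norm_num) (by rw [pow_one]) ?_
      rintro ⟨z, hz⟩
      apply la_prime.not_isUnit
      have h8 : la * (1 - la * z) = 0 := by linear_combination hz
      rcases mul_eq_zero.1 h8 with h9 | h9
      · exact absurd h9 la_prime.ne_zero
      · exact IsUnit.of_mul_eq_one z (sub_eq_zero.1 h9).symm
    have hmem : algebraMap (𝓞 KI) (𝓞 F) (eG la) ∈ P.asIdeal ^ 2 := by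
      apply h
      apply Ideal.mem_map_of_mem
      rw [QTD.vla_as]
      exact Ideal.mem_span_singleton_self _
    have h10 := (TU.q3_pow (v := P) _ 2).2 hmem
    have h11 : ((algebraMap (𝓞 KI) (𝓞 F) (eG la) : 𝓞 F) : F) = algebraMap KI F (emK la) := rfl
    rw [h11, hval, hla, WithZero.exp_le_exp] at h10
    norm_num at h10
  · exact hne (((hR w).1 (h1b_below hw)).trans ((hR w').1 (h1b_below hw')).symm)

end QTC
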