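import Pool.Agent.TU.Q3

/-!
# [QTB-H1d] adjoining a square root
-/

set_option autoImplicit false

open NumberField IsDedekindDomain
open scoped Classical

namespace QTC

open TU (QS)

/-- [QTB-H1a3] adjoining the square root of a nonsquare. PROOF. `F = AdjoinRoot (X² - C e)` (irreducible as `e` is not a square: `X_sq_sub_C_irreducible_iff_not_isSquare` or `Polynomial.Monic.irreducible_of_...`; degree 2), a number field (finite over `K`, `NumberField.of_module_finite` / `FiniteDimensional.trans`); see `QTF.x2_step` (QTF/X2.lean) for such a construction. `s` = the root. -/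
theorem exists_sqrt_field (K : Type) [Field K] [NumberField K] (e : K) (he : ¬ IsSquare e) :
    ∃ (F : Type) (_ : Field F) (_ : NumberField F) (_ : Algebra K F) (Q : QS K F), Q.e = e := by
  have hsq : ∀ b : K, b ^ 2 ≠ e := fun b hb => he ⟨b, by rw [← hb, sq]⟩
  have hirr : Irreducible (Polynomial.X ^ 2 - Polynomial.C e : Polynomial K) :=
    (X_pow_sub_C_irreducible_iff_of_prime Nat.prime_two).2 fun b hb => hsq b hb
  have hfact : Fact (Irreducible (Polynomial.X ^ 2 - Polynomial.C e : Polynomial K)) := ⟨hirr⟩
  let F := AdjoinRoot (Polynomial.X ^ 2 - Polynomial.C e : Polynomial K)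
  have hne : (Polynomial.X ^ 2 - Polynomial.C e : Polynomial K) ≠ 0 := hirr.ne_zero
  have hfin : Module.Finite K F := Module.Finite.of_basis (AdjoinRoot.powerBasis hne).basis
  have hnf : NumberField F := NumberField.of_module_finite K F
  have hroot : (AdjoinRoot.root (Polynomial.X ^ 2 - Polynomial.C e : Polynomial K)) ^ 2 =
      algebraMap K F e := by
    have h1 := AdjoinRoot.eval₂_root (Polynomial.X ^ 2 - Polynomial.C e : Polynomial K)
    simp only [Polynomial.eval₂_sub, Polynomial.eval₂_X_pow, Polynomial.eval₂_C] at h1
    exact sub_eq_zero.1 h1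
  refine ⟨F, inferInstance, hnf, inferInstance,
    ⟨e, AdjoinRoot.root (Polynomial.X ^ 2 - Polynomial.C e : Polynomial K), hroot, ?_, ?_⟩, rfl⟩
  · intro x
    induction x using AdjoinRoot.induction_on with
    | ih q =>
      induction q using Polynomial.induction_on' with
      | add q r hq hr =>
        obtain ⟨a, b, hab⟩ := hq
        obtain ⟨c, d, hcd⟩ := hr
        refine ⟨a + c, b + d, ?_⟩
        rw [map_add, hab, hcd, map_add, map_add]
        ring
      | monomial k b =>
        rw [← Polynomial.C_mul_X_pow_eq_monomial, map_mul, map_pow, AdjoinRoot.mk_X,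
          AdjoinRoot.mk_C]
        induction k with
        | zero =>
          refine ⟨b, 0, ?_⟩
          rw [pow_zero, mul_one, map_zero, zero_mul, add_zero]
          rfl
        | succ k ihk =>
          obtain ⟨c, d, hcd⟩ := ihk
          refine ⟨d * e, c, ?_⟩
          rw [map_mul]
          linear_combination
            (AdjoinRoot.root (Polynomial.X ^ 2 - Polynomial.C e : Polynomial K)) * hcd +
              (algebraMap K F d) * hroot
  · intro a ha
    apply hsq a
    apply (algebraMap K F).injective
    rw [map_pow, ha, hroot]

end QTC
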