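import Pool.Agent.QTB.F8a
import Pool.Agent.QTB.G5
import Pool.Agent.QTF.X3

/-!
# [QTB-H2] the ramified and the inert prime ideals: definitions
-/

set_option autoImplicit false

open NumberField IsDedekindDomain
open scoped Classical

namespace QTC

open PI (Gi sy ii la Prim emK eG KI la_prime pl)
open QT (st Dd Adm bD gD Good)
open QTD (LocB cl vla)
open TU (QS Ur Sq Od)

/-- the exponent of `v` in `D` is odd and `v` is inert in `F` -/
def OddInert (D : 𝓞 KI) (F : Type) [Field F] [NumberField F] [Algebra KI F] (v : HeightOneSpectrum (𝓞 KI)) : Prop :=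
  (∃ k : ℕ, Odd k ∧ D ∈ v.asIdeal ^ k ∧ D ∉ v.asIdeal ^ (k + 1)) ∧
    (v.asIdeal.map (algebraMap (𝓞 KI) (𝓞 F))).IsPrime

/-- `v` is ramified in `F` -/
def Ramified (F : Type) [Field F] [NumberField F] [Algebra KI F] (v : HeightOneSpectrum (𝓞 KI)) : Prop :=
  ∃ P : HeightOneSpectrum (𝓞 F), v.asIdeal.map (algebraMap (𝓞 KI) (𝓞 F)) ≤ P.asIdeal ^ 2

end QTC
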