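import Pool.Agent.QTB.H2
import Pool.Agent.QT.ED

/-!
# [QTB-H2a] the ramified prime ideals
-/

set_option autoImplicit false

open NumberField IsDedekindDomain
open scoped Classical

namespace QTC

open PI (Gi sy ii la Prim emK eG KI la_prime pl)
open QT (st Dd Adm bD gD Good)
open QTD (LocB cl vla)
open TU (QS Ur Sq Od)

theorem h2a_exists (v : HeightOneSpectrum (𝓞 KI)) : ∃ x : 𝓞 KI, x ∈ v.asIdeal ∧ x ∉ v.asIdeal ^ 2 := by
  by_contra h
  push Not at h
  have h1 : v.asIdeal ^ 1 ≤ v.asIdeal ^ 2 := by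
    intro x hx
    rw [pow_one] at hx
    exact h x hx
  rw [← Ideal.dvd_iff_le, pow_dvd_pow_iff v.ne_bot v.prime.not_isUnit] at h1
  omega

theorem h2a_adm {s t : ℕ} {S : Finset Gi} {a : Gi → ℕ} (h : Good s t S a) : Adm s t S a := by
  rcases h with h | h | h
  · exact h.1
  · exact h.1
  · exact h.1

section
variable {s t : ℕ} {S : Finset Gi} {a : Gi → ℕ} {T : Finset Gi} {F : Type} [Field F] [NumberField F] [Algebra KI F]
  (X : Dat s t S a T F)
include X

/-- [QTB-H2a] PROOF. ⇒: `P` contains the image of `v`, so `P.comap = v` (`v` maximal). If `v ≠ (q)` for all `q ∈ T`: `Ur_of`, `QTF.val_up`: the valuation at `P` of elements of `v` with `v`-valuation `exp (-1)` is `exp (-1)`, so not in `P²` (`TU.q3_pow`). ⇐: `v = (q)`: `Od_of`, `QS.ram`: one place `P`, valuations squared: every element of `v` has valuation `≤ exp (-2)` at `P`. -/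
theorem ramified_iff (v : HeightOneSpectrum (𝓞 KI)) : Ramified F v ↔ ∃ q ∈ T, v.asIdeal = Ideal.span {eG q} := by
  constructor
  · rintro ⟨P, h⟩
    by_contra hn
    push Not at hn
    have hPv : P.asIdeal.comap (algebraMap (𝓞 KI) (𝓞 F)) = v.asIdeal := by
      rw [TK.s1_above, Ideal.dvd_iff_le]
      exact h.trans (Ideal.pow_le_self two_ne_zero)
    have hur : Ur v X.Q.e := by
      rw [X.he]
      exact Ur_of X.pr X.cl0 v hn
    have hval := QTF.val_up X.Q hur hPv
    obtain ⟨x, hx, hx2⟩ := h2a_exists v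
    apply hx2
    have h1 : algebraMap (𝓞 KI) (𝓞 F) x ∈ P.asIdeal ^ 2 := h (Ideal.mem_map_of_mem _ hx)
    have h2 := (TU.q3_pow (v := P) _ 2).2 h1
    have h3 : P.valuation F ((algebraMap (𝓞 KI) (𝓞 F) x : 𝓞 F) : F) = v.valuation KI (x : KI) := hval _
    rw [h3] at h2
    exact (TU.q3_pow (v := v) x 2).1 h2
  · rintro ⟨q, hq, hv⟩
    have hod : Od v X.Q.e := by
      rw [X.he]
      exact Od_of X.pr hq hv
    obtain ⟨P, hu, -, hval⟩ := X.Q.ram v hod
    refine ⟨P, ?_⟩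
    rw [Ideal.map_le_iff_le_comap]
    intro x hx
    rw [Ideal.mem_comap]
    apply (TU.q3_pow (v := P) _ 2).1
    have h3 : P.valuation F ((algebraMap (𝓞 KI) (𝓞 F) x : 𝓞 F) : F) = v.valuation KI (x : KI) ^ 2 := hval _
    rw [h3]
    have h4 : v.valuation KI (x : KI) ≤ WithZero.exp (-((1 : ℕ) : ℤ)) := by
      apply (TU.q3_pow (v := v) x 1).2
      rw [pow_one]
      exact hx
    calc v.valuation KI (x : KI) ^ 2 ≤ WithZero.exp (-((1 : ℕ) : ℤ)) ^ 2 := pow_le_pow_left₀ zero_le h4 2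
      _ = WithZero.exp (-((2 : ℕ) : ℤ)) := by
        rw [← WithZero.exp_nsmul]
        norm_num

end

section
variable {s t : ℕ} {S : Finset Gi} {a : Gi → ℕ} {T : Finset Gi} {F : Type} [Field F] [NumberField F] [Algebra KI F]
  (X : Dat s t S a T F)
include X

/-- [QTB-H2b] PROOF. `ramified_iff`; the map `q ↦ pl q` from `T` is a bijection onto the set (`QTF.pl_inj`, QTF/X3.lean). -/
theorem card_ram : {v : HeightOneSpectrum (𝓞 KI) | Ramified F v}.ncard = T.card := by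
  have hset : {v : HeightOneSpectrum (𝓞 KI) | Ramified F v} =
      (fun q : Gi => if hq : Prime q then pl q hq else pl la la_prime) '' (T : Set Gi) := by
    ext v
    constructor
    · intro h
      obtain ⟨q, hq, hv⟩ := (ramified_iff X v).1 h
      refine ⟨q, hq, ?_⟩
      have hp := (X.pr q hq).1
      simp only [dif_pos hp]
      apply HeightOneSpectrum.ext
      exact hv.symm
    · rintro ⟨q, hq, rfl⟩
      have hp := (X.pr q hq).1
      simp only [dif_pos hp]
      exact (ramified_iff X _).2 ⟨q, hq, rfl⟩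
  have hinj : Set.InjOn (fun q : Gi => if hq : Prime q then pl q hq else pl la la_prime) (T : Set Gi) := by
    intro p hp q hq hpq
    obtain ⟨p1, p2⟩ := X.pr p hp
    obtain ⟨q1, q2⟩ := X.pr q hq
    simp only [dif_pos p1, dif_pos q1] at hpq
    exact QTF.pl_inj p1 p2 q1 q2 hpq
  rw [hset, Set.InjOn.ncard_image hinj, Set.ncard_coe_finset]

end

section
variable {s t : ℕ} {S : Finset Gi} {a : Gi → ℕ} {T : Finset Gi} {F : Type} [Field F] [NumberField F] [Algebra KI F]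
  (X : Dat s t S a T F)
include X

/-- [QTB-H2e] PROOF. `ramified_iff`, `QTF.np_pl` (QTF/X3.lean), `q ∤ D`. -/
theorem nice_of_dat (v : HeightOneSpectrum (𝓞 KI)) (P : HeightOneSpectrum (𝓞 F))
    (h : v.asIdeal.map (algebraMap (𝓞 KI) (𝓞 F)) ≤ P.asIdeal ^ 2) : QTF.NP (eG (Dd s t S a) : 𝓞 KI) v := by
  obtain ⟨q, hq, hv⟩ := (ramified_iff X v).1 ⟨P, h⟩
  obtain ⟨q1, q2⟩ := X.pr q hq
  have hqS : q ∉ S := fun h1 => (Finset.disjoint_left.1 X.disj) h1 hq
  have hvq : v = pl q q1 := HeightOneSpectrum.ext hv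
  rw [hvq]
  exact QTF.np_pl q1 q2 (fun h1 => hqS ((QT.Dd_dvd s t S a (h2a_adm X.good) q1 q2).1 h1)) (X.nice q hq)

end

section
variable {s t : ℕ} {S : Finset Gi} {a : Gi → ℕ} {T : Finset Gi} {F : Type} [Field F] [NumberField F] [Algebra KI F]
  (X : Dat s t S a T F)
include X

/-- [QTB-H2f] PROOF. `Sq_la`, `QS.split`; `2 ∈ vla`. -/
theorem two_places : ∃ w w' : HeightOneSpectrum (𝓞 F), w ≠ w' ∧ (2 : 𝓞 F) ∈ w.asIdeal ∧ (2 : 𝓞 F) ∈ w'.asIdeal := by
  have hsq : Sq vla X.Q.e := by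
    rw [X.he]
    exact Sq_la X.pr X.cl0
  obtain ⟨w, w', hne, hu, -⟩ := X.Q.split vla hsq
  have h2 : (2 : 𝓞 KI) ∈ (vla).asIdeal := by
    have h1 : (2 : 𝓞 KI) = eG 2 := (map_ofNat eG 2).symm
    rw [h1, PI.mem_iff (show (vla).asIdeal = Ideal.span {eG la} from rfl)]
    have h4 : (2 : Gi) = -ii * la ^ 2 := by
      unfold ii la
      decide
    rw [h4, pow_two]
    exact Dvd.dvd.mul_left (Dvd.intro _ rfl) _
  have key : ∀ R : HeightOneSpectrum (𝓞 F),
      R.asIdeal.comap (algebraMap (𝓞 KI) (𝓞 F)) = (vla).asIdeal → (2 : 𝓞 F) ∈ R.asIdeal := by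
    intro R hR
    rw [← hR, Ideal.mem_comap, map_ofNat] at h2
    exact h2
  exact ⟨w, w', hne, key w ((hu w).2 (Or.inl rfl)), key w' ((hu w').2 (Or.inr rfl))⟩

end

end QTC
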