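import Pool.Agent.QTB.H2
import Pool.Agent.QTS.C3

/-!
# [QTB-H2c] the inert prime ideals
-/

set_option autoImplicit false

open NumberField IsDedekindDomain
open scoped Classical

namespace QTC

open PI (Gi sy ii la Prim emK eG KI la_prime pl)
open QT (st Dd Adm bD gD Good)
open QTD (LocB cl vla)
open TU (QS Ur Sq Od)

/-- membership in the powers of a prime -/
theorem h2c_pow {v : HeightOneSpectrum (𝓞 KI)} {b : Gi} (hv : v.asIdeal = Ideal.span {eG b}) (x : Gi) (k : ℕ) :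
    eG x ∈ v.asIdeal ^ k ↔ b ^ k ∣ x := by
  rw [hv, Ideal.span_singleton_pow, Ideal.mem_span_singleton, ← map_pow]
  exact map_dvd_iff eG

section
variable {s t : ℕ} {S : Finset Gi} {a : Gi → ℕ} {T : Finset Gi} {F : Type} [Field F] [NumberField F] [Algebra KI F]
  (X : Dat s t S a T F)
include X

theorem h2c_T {p : Gi} (hp : p ∈ S) {q : Gi} (hq : q ∈ T) : ¬ p ∣ q := by
  intro h
  have h1 := (QTS.good_adm X.good).1 p hp
  have h2 := X.pr q hq
  have h3 := QT.eq_of_dvd h1.1 h1.2 h2.1 h2.2 h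
  subst h3
  exact Finset.disjoint_left.1 X.disj hp hq

theorem h2c_mT {p : Gi} (hp : p ∈ S) : ¬ p ∣ mT T := by
  intro h
  have h1 := (QTS.good_adm X.good).1 p hp
  obtain ⟨q, hq, hd⟩ := (Prime.dvd_finsetProd_iff h1.1 _).1 h
  have h2 : p ∣ q := by
    unfold QT.st at hd
    split_ifs at hd
    · exact hd
    · exact (dvd_neg).1 hd
  exact h2c_T X hp hq h2

/-- at a split place the extended ideal is not prime -/
theorem h2c_split (v : HeightOneSpectrum (𝓞 KI)) (h : Sq v (emK (mT T))) :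
    ¬ (v.asIdeal.map (algebraMap (𝓞 KI) (𝓞 F))).IsPrime := by
  intro hpr
  rw [← X.he] at h
  obtain ⟨P, P', hne, hu, -, -, -, -⟩ := X.Q.split v h
  have hinj : Function.Injective (algebraMap (𝓞 KI) (𝓞 F)) := by
    intro x y hxy
    have h1 := congrArg (algebraMap (𝓞 F) F) hxy
    have h2 : algebraMap KI F (algebraMap (𝓞 KI) KI x) = algebraMap KI F (algebraMap (𝓞 KI) KI y) := h1
    exact RingOfIntegers.coe_injective ((algebraMap KI F).injective h2)
  have h0 : v.asIdeal.map (algebraMap (𝓞 KI) (𝓞 F)) ≠ ⊥ := by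
    rw [Ne, Ideal.map_eq_bot_iff_of_injective hinj]
    exact v.ne_bot
  have hmax : (v.asIdeal.map (algebraMap (𝓞 KI) (𝓞 F))).IsMaximal := hpr.isMaximal h0
  have h1 : v.asIdeal.map (algebraMap (𝓞 KI) (𝓞 F)) = P.asIdeal :=
    hmax.eq_of_le P.isPrime.ne_top (Ideal.map_le_iff_le_comap.2 ((hu P).2 (Or.inl rfl)).ge)
  have h2 : v.asIdeal.map (algebraMap (𝓞 KI) (𝓞 F)) = P'.asIdeal :=
    hmax.eq_of_le P'.isPrime.ne_top (Ideal.map_le_iff_le_comap.2 ((hu P').2 (Or.inr rfl)).ge)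
  exact hne (HeightOneSpectrum.ext (h1.symm.trans h2))

/-- at an inert place the extended ideal is prime -/
theorem h2c_inert (v : HeightOneSpectrum (𝓞 KI)) (h : Ur v (emK (mT T))) (h' : ¬ Sq v (emK (mT T))) :
    (v.asIdeal.map (algebraMap (𝓞 KI) (𝓞 F))).IsPrime := by
  rw [← X.he] at h h'
  obtain ⟨P, hu, hn, -⟩ := X.Q.inert v h h'
  have hle : v.asIdeal.map (algebraMap (𝓞 KI) (𝓞 F)) ≤ P.asIdeal :=
    Ideal.map_le_iff_le_comap.2 ((hu P).2 rfl).ge
  have hN := TU.q2_absNorm_map X.Q v.asIdeal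
  obtain ⟨J, hJ⟩ := Ideal.dvd_iff_le.2 hle
  have h1 := congrArg Ideal.absNorm hJ
  rw [map_mul, hN, hn] at h1
  have hv0 : Ideal.absNorm v.asIdeal ≠ 0 := by
    rw [Ne, Ideal.absNorm_eq_zero_iff]
    exact v.ne_bot
  have h2 : Ideal.absNorm J = 1 := by
    have h3 : Ideal.absNorm v.asIdeal ^ 2 * Ideal.absNorm J = Ideal.absNorm v.asIdeal ^ 2 * 1 := by
      rw [mul_one]
      exact h1.symm
    exact Nat.eq_of_mul_eq_mul_left (pow_pos (Nat.pos_of_ne_zero hv0) 2) h3
  rw [Ideal.absNorm_eq_one_iff] at h2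
  rw [hJ, h2, Ideal.mul_top]
  exact P.isPrime

end

/-- the place of a prime -/
noncomputable def h2c_pl (p : Gi) : HeightOneSpectrum (𝓞 KI) := if hp : Prime p then pl p hp else pl la la_prime

theorem h2c_pl_eq {p : Gi} (hp : Prime p) : h2c_pl p = pl p hp := dif_pos hp

section
variable {s t : ℕ} {S : Finset Gi} {a : Gi → ℕ} {T : Finset Gi} {F : Type} [Field F] [NumberField F] [Algebra KI F]
  (X : Dat s t S a T F)
include X

/-- [QTB-H2c] PROOF. ⇐: `v = (p)`, `p ∈ S`, `a p` odd: `D = p^(a p) w`, `p ∤ w` (`QTS.Dd_odd`), so `k = a p`. `sy m p ≠ 0`: `Ur_of`, not `Sq` (`Sq_iff`, `p ∤ m`), `QS.inert`: one place `P` with `absNorm P = absNorm v ^ 2` and equal valuations; `v.map = P` : `absNorm (v.map) = absNorm v ^ 2` (`TU.q2_absNorm_map`, TU/Q2.lean) and `v.map ≤ P`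
(`Ideal.dvd_iff_le`, equal norms: `Ideal.eq_of_dvd_of_absNorm_eq`-like, or `v.map = P * J` with `absNorm J = 1`). ⇒: `v ∋ D`, so `v = (la)` or `v = (p)`, `p ∈ S` (`PI.gen_cases`, `QTS.Dd_not`), and then `k = a p` (uniqueness of the exponent: `PI.mem_iff`-like for powers), so `a p` is odd.
`v = (la)` or `sy m p = 0`: `Sq_la`, `Sq_iff`, `QS.split`: two different places `P ≠ P'` contain `v.map`; a nonzero prime ideal is maximal, so `v.map = P = P'`: contradiction. -/
theorem oddInert_iff (v : HeightOneSpectrum (𝓞 KI)) : OddInert (eG (Dd s t S a) : 𝓞 KI) F v ↔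
    ∃ p ∈ SO S a, sy (mT T) p ≠ 0 ∧ v.asIdeal = Ideal.span {eG p} := by
  have hadm := QTS.good_adm X.good
  constructor
  · rintro ⟨⟨k, hk, h1, h2⟩, hpr⟩
    have hk0 : k ≠ 0 := by
      rintro rfl
      exact absurd hk (by decide)
    have hDv : eG (Dd s t S a) ∈ v.asIdeal := Ideal.pow_le_self hk0 h1
    rcases PI.gen_cases (v := v) with hv | ⟨b, hb, hP, hv⟩
    · exfalso
      have hvv : v = vla := HeightOneSpectrum.ext hv
      exact h2c_split X v (by rw [hvv]; exact Sq_la X.pr X.cl0) hpr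
    · rw [PI.mem_iff hv] at hDv
      have hbS : b ∈ S := by
        by_contra hS
        exact QTS.Dd_not hadm hb hP hS hDv
      obtain ⟨w, hw, hbw⟩ := QTS.Dd_odd hadm hbS
      rw [h2c_pow hv] at h1 h2
      have hka : k = a b := by
        by_contra hne
        rcases lt_or_gt_of_ne hne with hlt | hgt
        · exact h2 (by rw [hw]; exact dvd_mul_of_dvd_left (pow_dvd_pow b hlt) w)
        · have h3 : b ^ (a b + 1) ∣ b ^ a b * w := by
            rw [← hw]
            exact (pow_dvd_pow b hgt).trans h1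
          rw [pow_succ] at h3
          exact hbw ((mul_dvd_mul_iff_left (pow_ne_zero _ hb.ne_zero)).1 h3)
      refine ⟨b, mem_SO.2 ⟨hbS, hka ▸ hk⟩, ?_, hv⟩
      intro h0
      exact h2c_split X v ((Sq_iff hb hP hv (h2c_mT X hbS)).2 h0) hpr
  · rintro ⟨p, hp, hsy, hv⟩
    obtain ⟨hpS, hodd⟩ := mem_SO.1 hp
    obtain ⟨hpp, hpP⟩ := hadm.1 p hpS
    obtain ⟨w, hw, hbw⟩ := QTS.Dd_odd hadm hpS
    refine ⟨⟨a p, hodd, ?_, ?_⟩, ?_⟩
    · rw [h2c_pow hv, hw]
      exact dvd_mul_right _ _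
    · rw [h2c_pow hv, hw, pow_succ]
      intro h3
      exact hbw ((mul_dvd_mul_iff_left (pow_ne_zero _ hpp.ne_zero)).1 h3)
    · refine h2c_inert X v (Ur_of X.pr X.cl0 v ?_) ?_
      · intro q hq h3
        have h4 : eG q ∈ v.asIdeal := by
          rw [h3]
          exact Ideal.mem_span_singleton_self _
        rw [PI.mem_iff hv] at h4
        exact h2c_T X hpS hq h4
      · rw [Sq_iff hpp hpP hv (h2c_mT X hpS)]
        exact hsy

end

section
variable {s t : ℕ} {S : Finset Gi} {a : Gi → ℕ} {T : Finset Gi} {F : Type} [Field F] [NumberField F] [Algebra KI F]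
  (X : Dat s t S a T F)
include X

/-- [QTB-H2d] PROOF. `oddInert_iff`, `QTF.pl_inj`. -/
theorem card_inert : {v : HeightOneSpectrum (𝓞 KI) | OddInert (eG (Dd s t S a) : 𝓞 KI) F v}.ncard = nF S a T := by
  have hadm := QTS.good_adm X.good
  have hset : {v : HeightOneSpectrum (𝓞 KI) | OddInert (eG (Dd s t S a) : 𝓞 KI) F v} =
      h2c_pl '' (((SO S a).filter fun p => sy (mT T) p ≠ 0 : Finset Gi) : Set Gi) := by
    ext v
    rw [Set.mem_ofPred_eq, oddInert_iff X, Set.mem_image]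
    constructor
    · rintro ⟨p, hp, hs, hv⟩
      refine ⟨p, ?_, ?_⟩
      · rw [Finset.mem_coe, Finset.mem_filter]
        exact ⟨hp, hs⟩
      · rw [h2c_pl_eq (hadm.1 p (SO_sub hp)).1]
        exact HeightOneSpectrum.ext hv.symm
    · rintro ⟨p, hp, rfl⟩
      rw [Finset.mem_coe, Finset.mem_filter] at hp
      refine ⟨p, hp.1, hp.2, ?_⟩
      rw [h2c_pl_eq (hadm.1 p (SO_sub hp.1)).1]
      rfl
  have hinj : Set.InjOn h2c_pl (((SO S a).filter fun p => sy (mT T) p ≠ 0 : Finset Gi) : Set Gi) := by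
    intro p hp q hq hpq
    rw [Finset.mem_coe, Finset.mem_filter] at hp hq
    obtain ⟨p1, p2⟩ := hadm.1 p (SO_sub hp.1)
    obtain ⟨q1, q2⟩ := hadm.1 q (SO_sub hq.1)
    rw [h2c_pl_eq p1, h2c_pl_eq q1] at hpq
    exact QTF.pl_inj p1 p2 q1 q2 hpq
  rw [hset, hinj.ncard_image, Set.ncard_coe_finset]
  rfl

end

end QTC
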