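import Pool.Agent.QTB.F0
import Pool.Agent.QTF.I1
import Pool.Agent.QTF.X3

/-!
# [QTB-H3a] sets of nice primes
-/

set_option autoImplicit false

open NumberField IsDedekindDomain
open scoped Classical

namespace QTC

open PI (Gi sy ii la Prim emK eG KI la_prime pl)
open QT (st Dd Adm bD gD Good)
open QTD (LocB cl vla)
open TU (QS Ur Sq Od)

/-- [QTB-H3a] PROOF. `QTF.infinite_nice` (QTF/I1.lean): infinitely many primary primes `q ∉ S` with `sy D q = 1`. By the pigeonhole principle infinitely many have the same `(sy ii q, sy la q) = (β, γ)` (`Set.Infinite`, finite type `ZMod 2 × ZMod 2`). `T` = a subset with `2 k` elements, `2 k ≥ N`, `2 k ≥ 2`.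
`cl (mT T) (∑ sy ii q) (∑ sy la q)` (`QTD.cl_prod`, `QTD.cl_st`), and the sums are `2 k β = 0`, `2 k γ = 0`. -/
theorem exists_T {s t : ℕ} {S : Finset Gi} {a : Gi → ℕ} (h : Good s t S a) (N : ℕ) :
    ∃ T : Finset Gi, N ≤ T.card ∧ T.Nonempty ∧ (∀ q ∈ T, Prime q ∧ Prim q) ∧ Disjoint S T ∧
      (∀ q ∈ T, sy (Dd s t S a) q = 1) ∧ cl (mT T) 0 0 := by
  set M : Set Gi := {v : Gi | Prime v ∧ Prim v ∧ v ∉ S ∧ sy (Dd s t S a) v = 1} with hM
  have hinf : M.Infinite := QTF.infinite_nice h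
  have hex : ∃ y : ZMod 2 × ZMod 2, {v : Gi | v ∈ M ∧ (sy ii v, sy la v) = y}.Infinite := by
    by_contra hc
    push Not at hc
    apply hinf
    refine (Set.finite_iUnion hc).subset ?_
    intro v hv
    exact Set.mem_iUnion.2 ⟨(sy ii v, sy la v), hv, rfl⟩
  obtain ⟨y, hy⟩ := hex
  obtain ⟨T, hT, hc⟩ := hy.exists_subset_card_eq (2 * (N + 1))
  have hmem : ∀ q ∈ T, (Prime q ∧ Prim q ∧ q ∉ S ∧ sy (Dd s t S a) q = 1) ∧
      (sy ii q, sy la q) = y := by
    intro q hq
    exact hT (Finset.mem_coe.2 hq)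
  have h1 : ∀ q ∈ T, sy ii q = y.1 := fun q hq => congrArg Prod.fst (hmem q hq).2
  have h2 : ∀ q ∈ T, sy la q = y.2 := fun q hq => congrArg Prod.snd (hmem q hq).2
  have hz : ∀ c : ZMod 2, (T.card : ZMod 2) * c = 0 := by
    intro c
    rw [hc]
    push_cast
    have h3 : (2 : ZMod 2) = 0 := by decide
    rw [h3, zero_mul, zero_mul]
  refine ⟨T, by omega, ?_, ?_, ?_, ?_, ?_⟩
  · rw [← Finset.card_pos]
    omega
  · intro q hq
    exact ⟨(hmem q hq).1.1, (hmem q hq).1.2.1⟩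
  · rw [Finset.disjoint_right]
    intro q hq
    exact (hmem q hq).1.2.2.1
  · intro q hq
    exact (hmem q hq).1.2.2.2
  · have h3 : cl (∏ q ∈ T, st q) (∑ q ∈ T, sy ii q) (∑ q ∈ T, sy la q) :=
      QTD.cl_prod fun q hq => QTD.cl_st (hmem q hq).1.1 (hmem q hq).1.2.1
    rw [Finset.sum_congr rfl h1, Finset.sum_congr rfl h2, Finset.sum_const, Finset.sum_const,
      nsmul_eq_mul, nsmul_eq_mul, hz, hz] at h3
    exact h3

/-- [QTB-H3b] PROOF. A prime `q ∈ T` divides `mT T = ± ∏ q` exactly once, so the valuation at `pl q` of `emK (mT T)` is `exp (-1)`, which is not the square of anything (`QTD.not_sq_odd` / `PID.d14_exp`). -/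
theorem not_sq {T : Finset Gi} (hT : ∀ q ∈ T, Prime q ∧ Prim q) (hne : T.Nonempty) : ¬ IsSquare (emK (mT T)) := by
  obtain ⟨q, hq⟩ := hne
  have hqp := (hT q hq).1
  have hqP := (hT q hq).2
  have hv : (pl q hqp).asIdeal = Ideal.span {eG q} := rfl
  obtain ⟨e, he, hst⟩ := QTD.st_eq q
  have hm : mT T = q * (e * ∏ p ∈ T.erase q, st p) := by
    unfold mT
    rw [← Finset.mul_prod_erase T st hq, hst]
    ring
  have hnd : ¬ q ∣ e * ∏ p ∈ T.erase q, st p := by
    intro hd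
    rcases hqp.dvd_or_dvd hd with h1 | h1
    · apply hqp.not_isUnit
      refine isUnit_of_dvd_unit h1 ?_
      rcases he with rfl | rfl
      · exact isUnit_one
      · exact isUnit_one.neg
    · obtain ⟨p, hp, h2⟩ := (hqp.dvd_finsetProd_iff _).1 h1
      have hp' := Finset.mem_erase.1 hp
      have h3 : q ∣ p := h2.trans (QT.st_assoc p).dvd
      exact hp'.1 (QT.eq_of_dvd hqp hqP (hT p hp'.2).1 (hT p hp'.2).2 h3).symm
  have hval : (pl q hqp).valuation KI (emK (mT T)) = WithZero.exp (-1) := by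
    rw [hm]
    exact PID.val_mul hv hnd
  rintro ⟨r, hr⟩
  rw [hr, map_mul, ← pow_two] at hval
  have h4 := congrArg WithZero.log hval
  rw [WithZero.log_exp, WithZero.log_pow, nsmul_eq_mul] at h4
  push_cast at h4
  omega

end QTC
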