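import Pool.Agent.QTB.H1d
import Pool.Agent.QTB.H3a

/-!
# [QTB-H3c] quadratic extensions with many ramified primes
-/

set_option autoImplicit false

open NumberField IsDedekindDomain
open scoped Classical

namespace QTC

open PI (Gi sy ii la Prim emK eG KI la_prime pl)
open QT (st Dd Adm bD gD Good)
open QTD (LocB cl vla)
open TU (QS Ur Sq Od)

/-- [QTB-H3c] PROOF. `exists_T`, `not_sq`, `exists_sqrt_field` (H1a). -/
theorem exists_fields {s t : ℕ} {S : Finset Gi} {a : Gi → ℕ} (h : Good s t S a) (N : ℕ) :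
    ∃ (F : Type) (_ : Field F) (_ : NumberField F) (_ : Algebra KI F) (T : Finset Gi),
      Nonempty (Dat s t S a T F) ∧ N ≤ T.card := by
  obtain ⟨T, hN, hne, hT, hdis, hnice, hcl⟩ := exists_T h N
  obtain ⟨F, i1, i2, i3, Q, hQ⟩ := exists_sqrt_field KI (emK (mT T)) (not_sq hT hne)
  exact ⟨F, i1, i2, i3, T, ⟨⟨h, hT, hdis, hnice, hcl, Q, hQ⟩⟩, hN⟩

end QTC
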