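import Pool.Agent.QTF.R3

/-!
# [QTB-J1] a positive proportion of the `D` is good, has given nice primes and given prime divisors with odd exponents
-/

set_option autoImplicit false

open scoped Classical

namespace QTC

open PI QT

theorem j1_norm (s t : ℕ) {A R : Finset OPi} (hA : A ⊆ R) (T : Finset (PR R)) :
    (QT.Dd s t ((T.image fun v => v.1.1) ∪ (R \ A).image Subtype.val) (expo A R)).norm.natAbs =
      2 ^ t * PP.nS (nR R) T * PP.nS nG (R \ A) ^ 3 := by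
  have hd : Disjoint (T.image fun v => v.1.1) ((R \ A).image Subtype.val) :=
    (toS_disj R T).mono_right (Finset.image_subset_image Finset.sdiff_subset)
  rw [Dd_norm, mul_assoc]
  congr 1
  rw [Finset.prod_union hd, Finset.prod_image (fun v _ w _ h => Subtype.ext (Subtype.ext h)),
    Finset.prod_image (fun v _ w _ h => Subtype.ext h)]
  have h1 : ∏ v ∈ T, v.1.1.norm.natAbs ^ expo A R v.1.1 = PP.nS (nR R) T := by
    unfold PP.nS
    refine Finset.prod_congr rfl fun v _ => ?_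
    rw [expo_T hA, pow_one]
    rfl
  have h2 : ∏ v ∈ R \ A, v.1.norm.natAbs ^ expo A R v.1 = PP.nS nG (R \ A) ^ 3 := by
    unfold PP.nS
    rw [← Finset.prod_pow]
    refine Finset.prod_congr rfl fun v hv => ?_
    rw [expo_B hv]
    rfl
  rw [h1, h2]

/-- the property in the theorem -/
def j1_P (A R : Finset OPi) (X : ℕ) (D : Gi) : Prop :=
  ∃ (s t : ℕ) (S : Finset Gi) (a : Gi → ℕ), QT.Good s t S a ∧ D = QT.Dd s t S a ∧
      D.norm ≤ X ∧ (∀ ρ ∈ A, ρ.1 ∉ S ∧ sy D ρ.1 = 1) ∧ ∀ ρ ∈ R, ρ ∉ A → ρ.1 ∈ S ∧ Odd (a ρ.1)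

theorem j1_mem {A R : Finset OPi} (hA : A ⊆ R) {X X' s t : ℕ} {T : Finset (PR R)}
    (h : QT.Good s t (toS R T) (expo A R)) (hX : 2 ^ t * PP.nS (nR R) T ≤ X')
    (hXX : X' * PP.nS nG (R \ A) ^ 3 ≤ X) :
    ∃ D₀ : Gi, j1_P A R X D₀ ∧
      QT.Dd s t (toS R T) (expo A R) = D₀ * (∏ q ∈ A.image Subtype.val, q) ^ 2 := by
  have hS : toS R T = ((T.image fun v => v.1.1) ∪ (R \ A).image Subtype.val) ∪
      A.image Subtype.val := by
    unfold toS
    rw [Finset.union_assoc, ← Finset.image_union, Finset.sdiff_union_of_subset hA]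
  have hd : Disjoint ((T.image fun v => v.1.1) ∪ (R \ A).image Subtype.val)
      (A.image Subtype.val) := by
    rw [Finset.disjoint_union_left]
    refine ⟨(toS_disj R T).mono_right (Finset.image_subset_image hA), ?_⟩
    rw [Finset.disjoint_left]
    intro p hp hq
    obtain ⟨v, hv, rfl⟩ := Finset.mem_image.1 hp
    exact (Finset.mem_sdiff.1 hv).2 (val_mem.1 hq)
  have h2 : ∀ q ∈ A.image Subtype.val, expo A R q = 2 := by
    intro q hq
    obtain ⟨v, hv, rfl⟩ := Finset.mem_image.1 hq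
    exact expo_A A R hv
  have hn := j1_norm s t hA T
  have hSv : ∀ ρ ∈ R, ρ ∉ A → ρ.1 ∈ (T.image fun v => v.1.1) ∪ (R \ A).image Subtype.val := by
    intro ρ hρ hρA
    exact Finset.mem_union_right _ (Finset.mem_image_of_mem _ (Finset.mem_sdiff.2 ⟨hρ, hρA⟩))
  rw [hS] at h
  rw [hS]
  generalize (T.image fun v => v.1.1) ∪ (R \ A).image Subtype.val = S₀ at h hd hn hSv ⊢
  obtain ⟨g1, g2⟩ := QTF.good_of_union (A.image Subtype.val) hd h2 h
  refine ⟨QT.Dd s t S₀ (expo A R), ⟨s, t, S₀, expo A R, g1, rfl, ?_, ?_, ?_⟩,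
    QTF.Dd_union hd h2⟩
  · have h4 := GaussianInt.norm_nonneg (QT.Dd s t S₀ (expo A R))
    have h5 : 2 ^ t * PP.nS (nR R) T * PP.nS nG (R \ A) ^ 3 ≤ X :=
      (Nat.mul_le_mul_right _ hX).trans hXX
    rw [← hn] at h5
    omega
  · intro ρ hρ
    have hρ' : ρ.1 ∈ A.image Subtype.val := Finset.mem_image_of_mem _ hρ
    exact ⟨fun h5 => Finset.disjoint_left.1 hd h5 hρ', g2 _ hρ'⟩
  · intro ρ hρ hρA
    refine ⟨hSv ρ hρ hρA, ?_⟩
    rw [expo_B (Finset.mem_sdiff.2 ⟨hρ, hρA⟩)]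
    exact ⟨1, rfl⟩

theorem j1_count {A R : Finset OPi} (hA : A ⊆ R) (X X' : ℕ) (Tgt : Set Gi) (hfin : Tgt.Finite)
    (hXX : X' * PP.nS nG (R \ A) ^ 3 ≤ X) (hTgt : ∀ D : Gi, j1_P A R X D → D ∈ Tgt) :
    ∑ t ∈ Finset.range 4, ∑ s ∈ Finset.range 4,
      (((arQT R).sb (X' / 2 ^ t)).filter fun T => QT.Good s t (toS R T) (expo A R)).card ≤ Tgt.ncard := by
  obtain ⟨w, hw⟩ : ∃ w, w = wt A R := ⟨_, rfl⟩
  have hw0 : 0 < w := by
    rw [hw]
    exact wt_pos A R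
  obtain ⟨Y, hY⟩ : ∃ Y, Y = X' * w := ⟨_, rfl⟩
  obtain ⟨B, hB⟩ : ∃ B : Set Gi, B = {D : Gi | D.norm ≤ (Y : ℤ)} ∩
    (fun D₀ : Gi => D₀ * (∏ q ∈ A.image Subtype.val, q) ^ 2) '' Tgt := ⟨_, rfl⟩
  have hB1 : B ⊆ {D : Gi | D.norm ≤ (Y : ℤ)} := by
    rw [hB]
    exact Set.inter_subset_left
  have hB2 : B.ncard ≤ Tgt.ncard := by
    rw [hB]
    refine (Set.ncard_le_ncard Set.inter_subset_right (hfin.image _)).trans ?_
    exact Set.ncard_image_le hfin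
  obtain ⟨P, hP⟩ : ∃ P : (R : Finset OPi) → Finset OPi → ℕ → ℕ → Finset (PR R) → Prop,
      ∀ R' A' s t T, P R' A' s t T ↔ (R' = R ∧ A' = A ∧ QT.Good s t (toS R' T) (expo A' R')) :=
    ⟨fun R' A' s t T => R' = R ∧ A' = A ∧ QT.Good s t (toS R' T) (expo A' R'), fun _ _ _ _ _ => Iff.rfl⟩
  have hmem : ∀ (R' A' : Finset OPi) (s t : ℕ) (T : Finset (PR R')), A' ⊆ R' → s ≤ 3 → t ≤ 3 →
      P R' A' s t T →
      QT.Dd s t (toS R' T) (expo A' R') ∈ quarA Y → QT.Dd s t (toS R' T) (expo A' R') ∈ B := by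
    intro R' A' s t T hAR hs ht hPT hq
    obtain ⟨e1, e2, hG⟩ := (hP _ _ _ _ _).1 hPT
    subst e1
    subst e2
    rw [hB]
    refine ⟨QTF.r3_quarA hq, ?_⟩
    have h3 := QTF.r3_quarA hq
    have h4 := norm_DT s t hA T
    have h5 := GaussianInt.norm_nonneg (QT.Dd s t (toS R' T) (expo A' R'))
    have h6 : 2 ^ t * PP.nS (nR R') T * w ≤ X' * w := by
      rw [mul_assoc, hw, ← h4, ← hw, ← hY]
      omega
    obtain ⟨D₀, hD₀, hDe⟩ := j1_mem hA hG (Nat.le_of_mul_le_mul_right h6 hw0) hXX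
    exact ⟨D₀, hTgt D₀ hD₀, hDe.symm⟩
  have key := le_ncard Y {R} P B hB1 hmem
  refine le_trans ?_ (key.trans hB2)
  rw [Finset.sum_singleton]
  have hYw : Y / wt A R = X' := by
    rw [← hw, hY, Nat.mul_div_cancel X' hw0]
  have h7 := Finset.single_le_sum (f := fun A' => ∑ t ∈ Finset.range 4, ∑ s ∈ Finset.range 4,
    (((arQT R).sb (Y / wt A' R / 2 ^ t)).filter fun T => P R A' s t T).card) (fun _ _ => Nat.zero_le _)
    (Finset.mem_powerset.2 hA)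
  refine le_trans (le_of_eq ?_) h7
  refine Finset.sum_congr rfl fun t _ => Finset.sum_congr rfl fun s _ => ?_
  rw [hYw]
  refine congrArg Finset.card (Finset.filter_congr fun T _ => ?_)
  rw [hP]
  exact ⟨fun h => ⟨rfl, rfl, h⟩, fun h => h.2.2⟩

/-- [QTB-J1] PROOF. Port of `QTF.dens_fixed` (QTF/R3.lean, all of its lemmas `r3_norm`, `r3_mem`, `r3_count` with `expo A R` instead of `expo R R`). `QT.dens_all hA` (QT/Q9.lean) counts the `T` with `Good s t (toS R T) (expo A R)`; the exponents `expo A R` are `2` on `A`, `3` on `R \ A`, `1` on `T`.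
`toS R T = S ∪ A.image Subtype.val` with `S = (T.image fun v => v.1.1) ∪ (R \ A).image Subtype.val`, disjoint (`toS_disj`, injectivity of `Subtype.val`). `QTF.good_of_union` (R2b) with `T := A.image Subtype.val`: `Good s t S (expo A R)` and `sy D₀ ρ = 1` for `ρ ∈ A`, where `D₀ = Dd s t S (expo A R)`; `QTF.Dd_union`: `Dd s t (toS R T) (expo A R) = D₀ (∏_A ρ)²`.
`ρ ∈ A` is not in `S`; `ρ ∈ R \ A` is in `S` with `expo A R ρ = 3` (odd). The norm of `D₀` is `2^t N(T) ∏_{R \ A} N(ρ)^3`, a fixed multiple `w'` of `2^t N(T)`: use `X / w'` instead of `X` in `dens_all` (as for the constant `wt` in QT/Q11.lean, Q12.lean). The map `(s, t, T) ↦ D₀` is injective (`QT.DT_inj`, or `le_ncard` as in `r3_count`). -/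
theorem dens_fixed2 {A R : Finset OPi} (hA : A ⊆ R) : ∃ c : ℝ, 0 < c ∧ ∃ X0 : ℕ, ∀ X : ℕ, X0 ≤ X →
    c * X ≤ (({D : Gi | ∃ (s t : ℕ) (S : Finset Gi) (a : Gi → ℕ), QT.Good s t S a ∧ D = QT.Dd s t S a ∧
      D.norm ≤ X ∧ (∀ ρ ∈ A, ρ.1 ∉ S ∧ sy D ρ.1 = 1) ∧ ∀ ρ ∈ R, ρ ∉ A → ρ.1 ∈ S ∧ Odd (a ρ.1)} : Set Gi).ncard : ℝ) := by
  obtain ⟨κ, hκ, hsb⟩ := q9_card_sb R
  obtain ⟨X1, h1⟩ := hsb (κ / 2) (half_pos hκ)
  obtain ⟨e, he⟩ : ∃ e : ℝ, e = 41885 / 100000 * (4 / 5) * (1 / 2) ^ A.card := ⟨_, rfl⟩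
  have he0 : 0 < e := by
    rw [he]
    positivity
  obtain ⟨X2, h2⟩ := dens_all hA (e * κ) (by positivity)
  obtain ⟨V, hV⟩ : ∃ V, V = PP.nS nG (R \ A) ^ 3 := ⟨_, rfl⟩
  have hV0 : 0 < V := by
    rw [hV]
    exact pow_pos (nS_posG _) 3
  have hV0' : (0 : ℝ) < V := by exact_mod_cast hV0
  refine ⟨e * κ / (2 * V), by positivity, V * (X1 + X2 + 1) + 2 * V, fun X hX => ?_⟩
  obtain ⟨X', hX'⟩ : ∃ X', X' = X / V := ⟨_, rfl⟩
  have hXX : X' * V ≤ X := by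
    rw [hX']
    exact Nat.div_mul_le_self X V
  have hge : X1 + X2 ≤ X' := by
    rw [hX', Nat.le_div_iff_mul_le hV0]
    nlinarith
  have hlt : (X : ℝ) < V * (X' + 1) := by
    have := Nat.lt_mul_div_succ X hV0
    rw [← hX'] at this
    exact_mod_cast this
  have hbig : (2 * V : ℝ) ≤ X := by
    have : 2 * V ≤ X := by nlinarith
    exact_mod_cast this
  have hx0 : (0 : ℝ) ≤ X' := Nat.cast_nonneg X'
  have a1 := (abs_le.1 (h1 X' (by omega))).1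
  have a2 := h2 X' (by omega)
  rw [← he] at a2
  have a3 : (((arQT R).sb X').card : ℝ) ≤ ∑ t ∈ Finset.range 4, (((arQT R).sb (X' / 2 ^ t)).card : ℝ) := by
    have h5 := Finset.single_le_sum (s := Finset.range 4) (f := fun t => (((arQT R).sb (X' / 2 ^ t)).card : ℝ))
      (fun i _ => Nat.cast_nonneg _) (Finset.mem_range.2 (show 0 < 4 by norm_num))
    simpa using h5
  obtain ⟨Tgt, hTgt⟩ : ∃ Tgt : Set Gi, Tgt = {D : Gi | j1_P A R X D} := ⟨_, rfl⟩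
  have hT : {D : Gi | ∃ (s t : ℕ) (S : Finset Gi) (a : Gi → ℕ), QT.Good s t S a ∧ D = QT.Dd s t S a ∧
      D.norm ≤ X ∧ (∀ ρ ∈ A, ρ.1 ∉ S ∧ sy D ρ.1 = 1) ∧ ∀ ρ ∈ R, ρ ∉ A → ρ.1 ∈ S ∧ Odd (a ρ.1)} = Tgt :=
    hTgt.symm
  rw [hT]
  have hfin : Tgt.Finite := by
    rw [hTgt]
    refine (norm_fin X).subset fun D hD => ?_
    obtain ⟨_, _, _, _, _, _, h3, _⟩ := hD
    have h4 := GaussianInt.norm_nonneg D
    change D.norm.natAbs ≤ X
    omega
  have key2 := j1_count hA X X' Tgt hfin (by rw [← hV]; exact hXX) (fun D hD => by rw [hTgt]; exact hD)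
  have key3 : (∑ t ∈ Finset.range 4, ∑ s ∈ Finset.range 4,
      ((((arQT R).sb (X' / 2 ^ t)).filter fun T => QT.Good s t (toS R T) (expo A R)).card : ℝ)) ≤ (Tgt.ncard : ℝ) := by
    exact_mod_cast key2
  have a4 : (κ / 2) * X' ≤ (((arQT R).sb X').card : ℝ) := by linarith
  have a5 : e * (4 * (κ / 2 * X')) ≤
      e * (4 * ∑ t ∈ Finset.range 4, (((arQT R).sb (X' / 2 ^ t)).card : ℝ)) :=
    mul_le_mul_of_nonneg_left (by linarith) he0.le
  have a6 : e * (4 * (κ / 2 * X')) = 2 * (e * κ * X') := by ring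
  have a7 : e * κ * X' ≤ (Tgt.ncard : ℝ) := by linarith
  have a8 : e * κ / (2 * V) * X ≤ e * κ * X' := by
    rw [div_mul_eq_mul_div, div_le_iff₀ (by positivity)]
    have hh : (X : ℝ) ≤ X' * (2 * V) := by nlinarith
    calc e * κ * X ≤ e * κ * (X' * (2 * V)) := mul_le_mul_of_nonneg_left hh (by positivity)
      _ = e * κ * X' * (2 * V) := by ring
  exact a8.trans a7

end QTC
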