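import Pool.Agent.QTB.F0
import Pool.Agent.QTF.I1

/-!
# [QTB-J2] infinitely many primes at which `D` is not a square
-/

set_option autoImplicit false

open scoped Classical

namespace QTC

open PI QT

/-- [QTB-J2] PROOF. The proof of `QTF.infinite_nice` (QTF/I1.lean), copied with `hadm` and `ho` instead of `not_all_even h`. -/
theorem infinite_sy {s t : ℕ} {S : Finset Gi} {a : Gi → ℕ} (hadm : QT.Adm s t S a)
    (ho : Odd s ∨ Odd t ∨ ∃ p ∈ S, Odd (a p)) :
    {v : Gi | Prime v ∧ Prim v ∧ v ∉ S ∧ sy (QT.Dd s t S a) v = 1}.Infinite := by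
  intro hfin
  set A : Finset OPi := QTF.i1A S a with hA
  set e : Fin 2 → ZMod 2 := fun γ => if γ = (0 : Fin 2) then (s : ZMod 2) else (t : ZMod 2) with he
  set F : Finset Gi := hfin.toFinset ∪ S with hF
  set R : Finset OPi := F.subtype fun p => Prime p ∧ Prim p with hR
  have hRmem : ∀ v : OPi, v ∈ R ↔ (v.1 ∉ S ∧ sy (QT.Dd s t S a) v.1 = 1) ∨ v.1 ∈ S := by
    intro v
    rw [hR, Finset.mem_subtype, hF, Finset.mem_union, Set.Finite.mem_toFinset, Set.mem_ofPred_eq]
    constructor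
    · rintro (h1 | h1)
      · exact Or.inl h1.2.2
      · exact Or.inr h1
    · rintro (h1 | h1)
      · exact Or.inl ⟨v.2.1, v.2.2, h1⟩
      · exact Or.inr h1
  -- the character is not trivial
  have hne : A ≠ ∅ ∨ e ≠ 0 := by
    rcases ho with h1 | h1 | ⟨p, hp, h1⟩
    · right
      intro h2
      have h3 := congrFun h2 0
      rw [he] at h3
      simp only [if_true, Pi.zero_apply] at h3
      rw [QTF.i1_odd_cast h1] at h3
      exact absurd h3 (by decide)
    · right
      intro h2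
      have h3 := congrFun h2 1
      rw [he] at h3
      simp only [Pi.zero_apply] at h3
      rw [if_neg (by decide : ¬ (1 : Fin 2) = 0), QTF.i1_odd_cast h1] at h3
      exact absurd h3 (by decide)
    · left
      exact Finset.ne_empty_of_mem ((QTF.i1_mem ⟨p, hadm.1 p hp⟩).2 ⟨hp, h1⟩)
  -- it is `1` outside of `R`
  have hone : ∀ v : OPi, v ∉ R → gar.xi A e v = 1 := by
    intro v hv
    have hvS : v.1 ∉ S := fun h1 => hv ((hRmem v).2 (Or.inr h1))
    have hvs : sy (QT.Dd s t S a) v.1 = 0 := by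
      rcases sy_cases (QT.Dd s t S a) v.1 with h1 | h1
      · exact h1
      · exact absurd ((hRmem v).2 (Or.inl ⟨hvS, h1⟩)) hv
    have hvA : v ∉ A := fun h1 => hvS ((QTF.i1_mem v).1 h1).1
    change PP.xi0 aG gG A e v = 1
    unfold PP.xi0
    rw [if_neg hvA, if_pos]
    rw [← hvs]
    exact QTF.i1_sum hadm v hvS
  -- the upper bound
  have hup : ∀ x : ℕ, |gar.sR R (gar.xi A e) x| ≤ 2 ^ R.card * (gar.C * PP.nS gar.N A) * √x := by
    refine gar.abs_sR_le R (gar.xi A e) (fun ρ _ => gar.d2_abs_xi A e ρ) ?_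
    intro x
    rw [gar.sR_empty]
    refine (gar.d2_sum_le' hne x).trans (le_of_eq ?_)
    ring
  have heq : ∀ x : ℕ, gar.sR R (gar.xi A e) x = gar.sR R (fun _ => 1) x := by
    intro x
    exact QTF.i1_sR_congr gar R _ _ hone x
  obtain ⟨C1, hC1, hlow⟩ := gar.sR_one_low R
  set B : ℝ := 2 ^ R.card * (gar.C * PP.nS gar.N A) with hB
  have hB0 : 0 ≤ B := by
    have h1 := gar.one_le
    have h2 : (0 : ℝ) ≤ gar.C := by linarith
    positivity
  obtain ⟨n, hn⟩ := exists_nat_gt (C1 + C1 * B + 1)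
  have hC1B : 0 ≤ C1 * B := mul_nonneg (by linarith) hB0
  have hn1 : (1 : ℝ) ≤ n := by linarith
  have h1 : C1 ≤ ((n ^ 2 : ℕ) : ℝ) := by
    push_cast
    nlinarith
  have h2 := hlow (n ^ 2) h1
  have h3 := (le_abs_self _).trans (hup (n ^ 2))
  rw [heq] at h3
  have h4 : √((n ^ 2 : ℕ) : ℝ) = n := by
    push_cast
    exact Real.sqrt_sq (by linarith)
  rw [h4] at h3
  push_cast at h2
  have h5 : (n : ℝ) ^ 2 ≤ C1 * (B * n) :=
    h2.trans (mul_le_mul_of_nonneg_left h3 (by linarith))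
  have h6 : (n : ℝ) ≤ C1 * B := by
    have h7 : (n : ℝ) * n ≤ (C1 * B) * n := by nlinarith
    exact le_of_mul_le_mul_right h7 (by linarith)
  linarith

/-- [QTB-J2b] PROOF. `mT T = Dd 0 0 T (fun _ => 1)`, `infinite_sy`. -/
theorem infinite_inert {T : Finset Gi} (hT : ∀ q ∈ T, Prime q ∧ Prim q) (hne : T.Nonempty) :
    {v : Gi | Prime v ∧ Prim v ∧ v ∉ T ∧ sy (mT T) v = 1}.Infinite := by
  have hadm : QT.Adm 0 0 T (fun _ => 1) := by
    exact ⟨hT, fun p _ => Or.inl rfl, Nat.zero_le 3, Nat.zero_le 3⟩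
  have h := infinite_sy hadm (Or.inr (Or.inr (by
    obtain ⟨q, hq⟩ := hne
    exact ⟨q, hq, odd_one⟩)))
  have e : QT.Dd 0 0 T (fun _ => 1) = mT T := by
    unfold QT.Dd mT
    rw [pow_zero, pow_zero, one_mul, one_mul]
    exact Finset.prod_congr rfl fun q _ => pow_one _
  rw [e] at h
  exact h

end QTC
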