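import Pool.Agent.QT.D9b

/-!
# [QTB-P1] `Sha[2^∞] = 0` in terms of cocycles with values in an arbitrary algebraic closure
-/

set_option autoImplicit false

open NumberField IsDedekindDomain
open scoped Classical

namespace QTB

open QT (W)
open QTD

/-- [D9e] A cocycle with values in the kernel of `phi`, which is trivial at all finite places, is principal, if `SelTriv`.
PROOF. `kummer` (D6): `b, s`; `locB` (D7) for every `v` (`ι = IsAlgClosed.lift` as in `THF.sha_step`); `hsel`: `b` is a square (`trivial_of_sq`: `Q = 0`) or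
`d b` is a square (`trivial_of_sq_d`). -/
theorem sha_stepL {F L : Type} [Field F] [NumberField F] [Field L] [Algebra F L] [IsAlgClosure F L] {d j : F} (hd : d ≠ 0) (hj : j ^ 2 = -1)
    (hsel : SelTriv F d)
    (c : (L ≃ₐ[F] L) →
      (W (algebraMap F L d)).toAffine.Point)
    (hc : Coc F L d c) (hK : ∀ σ, Ker (c σ))
    (hloc : ∀ v : HeightOneSpectrum (𝓞 F),
      LocTriv c (v.adicCompletion F) (AlgebraicClosure (v.adicCompletion F))) :
    ∃ T : (W (algebraMap F L d)).toAffine.Point,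
      ∀ σ, c σ = ptW (σ : L →+* L) (gal_comm σ d) T - T := by
  have : IsAlgClosed L := IsAlgClosure.isAlgClosed F
  have : CharZero L := charZero_of_injective_algebraMap (algebraMap F L).injective
  have : Algebra.IsAlgebraic F L := IsAlgClosure.isAlgebraic
  obtain ⟨b, s, hb, hs, hσ⟩ := kummer hd c hc hK
  have hloc' : ∀ v : HeightOneSpectrum (𝓞 F), LocB d b (v.adicCompletion F) := by
    intro v
    let ι : L →ₐ[F] AlgebraicClosure (v.adicCompletion F) := IsAlgClosed.lift
    obtain ⟨Q, hQ⟩ := hloc v ι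
    exact locB hd hj c hK b s hb hs hσ (v.adicCompletion F)
      (AlgebraicClosure (v.adicCompletion F)) ι Q hQ
  rcases hsel b hb hloc' with h1 | h1
  · refine ⟨0, fun σ => ?_⟩
    rw [trivial_of_sq c b s hb hs hσ h1 σ, ptW_zero, sub_zero]
  · exact trivial_of_sq_d hd c hK b s hb hs hσ h1

/-- [D9f] PROOF. Port of `THF.sha_core` (FH): `P = phi P1 = phi (phi P2) = 2 • imP P2 = 2 • R` (`phi_surj`, `phi_phi`);
`c1 = c - ∂R`, `2 • c1 = 0`, `phi (phi (c1 σ)) = 2 • imP (c1 σ) = imP (2 • c1 σ) = 0` (`imP_nsmul`), so `phi (c1 σ)` is in the kernel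
(`phi_eq_zero`): `sha_step`: `phi ∘ c1 = ∂T`; `phi T' = T`; `c2 = c1 - ∂T'` has values in the kernel; `sha_step`. -/
theorem sha_coreL {F L : Type} [Field F] [NumberField F] [Field L] [Algebra F L] [IsAlgClosure F L] {d j : F} (hd : d ≠ 0) (hj : j ^ 2 = -1)
    (hsel : SelTriv F d)
    (c : (L ≃ₐ[F] L) →
      (W (algebraMap F L d)).toAffine.Point)
    (hc : Coc F L d c)
    (hloc : ∀ v : HeightOneSpectrum (𝓞 F),
      LocTriv c (v.adicCompletion F) (AlgebraicClosure (v.adicCompletion F)))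
    (h2 : ∃ P : (W (algebraMap F L d)).toAffine.Point, ∀ σ,
      2 • c σ = ptW (σ : L →+* L) (gal_comm σ d) P - P) :
    ∃ P : (W (algebraMap F L d)).toAffine.Point, ∀ σ,
      c σ = ptW (σ : L →+* L) (gal_comm σ d) P - P := by
  have : IsAlgClosed L := IsAlgClosure.isAlgClosed F
  have : CharZero L := charZero_of_injective_algebraMap (algebraMap F L).injective
  have : Algebra.IsAlgebraic F L := IsAlgClosure.isAlgebraic
  have hdL : algebraMap F L d ≠ 0 := am_ne hd
  have hjL : algebraMap F L j ^ 2 = -1 := am_j hj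
  -- division by two
  obtain ⟨Q, hQ⟩ := h2
  obtain ⟨P', hP'⟩ := phi_surj hjL hdL Q
  obtain ⟨P'', hP''⟩ := phi_surj hjL hdL P'
  have hP3 : Q = 2 • imP hjL P'' := by
    rw [← hP', ← hP'', phi_phi]
  set P := imP hjL P'' with hPdef
  -- first step
  have hc1 := hc.sub P
  have hl1 := fun v => (hloc v).sub P
  set c1 : (L ≃ₐ[F] L) →
    (W (algebraMap F L d)).toAffine.Point :=
    fun σ => c σ - (ptW (σ : L →+* L) (gal_comm σ d) P - P)
    with hc1def
  have h3c : ∀ σ, 2 • c1 σ = 0 := by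
    intro σ
    rw [hc1def]
    simp only
    rw [nsmul_sub, hQ σ, hP3, ptW_nsmul, nsmul_sub, sub_self]
  have hK' : ∀ σ, Ker (QTD.phi hjL (c1 σ)) := by
    intro σ
    rw [← phi_eq_zero hjL hdL, phi_phi, ← imP_nsmul, h3c, imP_zero]
  have hchar : ∀ v : HeightOneSpectrum (𝓞 F),
      CharZero (AlgebraicClosure (v.adicCompletion F)) := fun v =>
    charZero_of_injective_algebraMap
      (algebraMap F (AlgebraicClosure (v.adicCompletion F))).injective
  obtain ⟨T, hT⟩ := sha_stepL hd hj hsel (fun σ => QTD.phi hjL (c1 σ)) (hc1.phi hj) hK'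
    (fun v => by
      have := hchar v
      exact (hl1 v).phi hj)
  obtain ⟨T', hT'⟩ := phi_surj hjL hdL T
  -- second step
  have hc2 := hc1.sub T'
  have hl2 := fun v => (hl1 v).sub T'
  set c2 : (L ≃ₐ[F] L) →
    (W (algebraMap F L d)).toAffine.Point :=
    fun σ => c1 σ -
      (ptW (σ : L →+* L) (gal_comm σ d) T' - T') with hc2def
  have hK2 : ∀ σ, Ker (c2 σ) := by
    intro σ
    have h5 : QTD.phi hjL (c1 σ) =
      ptW (σ : L →+* L) (gal_comm σ d) T - T := hT σ
    have h8 : c2 σ = c1 σ -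
      (ptW (σ : L →+* L) (gal_comm σ d) T' - T') := rfl
    rw [← phi_eq_zero hjL hdL, h8, phi_sub hjL (c1 σ), h5, phi_sub,
      phi_ptW hjL (σ : L →+* L) (gal_comm σ d) hjL
        (gal_comm σ j), hT', sub_self]
  obtain ⟨T2, hT2⟩ := sha_stepL hd hj hsel c2 hc2 hK2 hl2
  refine ⟨P + T' + T2, fun σ => ?_⟩
  have h6 : c σ - (ptW (σ : L →+* L) (gal_comm σ d) P - P) -
      (ptW (σ : L →+* L) (gal_comm σ d) T' - T') =
      ptW (σ : L →+* L) (gal_comm σ d) T2 - T2 := hT2 σ
  have h7 : c σ =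
      (ptW (σ : L →+* L) (gal_comm σ d) T2 - T2) +
      (ptW (σ : L →+* L) (gal_comm σ d) T' - T') +
      (ptW (σ : L →+* L) (gal_comm σ d) P - P) := by
    rw [← h6]
    abel
  rw [h7, ptW_add, ptW_add]
  abel


/-- the multiples of a cocycle -/
theorem Coc.nsmul {F L : Type} [Field F] [Field L] [Algebra F L] {d : F}
    {c : (L ≃ₐ[F] L) → (W (algebraMap F L d)).toAffine.Point} (hc : Coc F L d c) (n : ℕ) :
    Coc F L d (fun σ => n • c σ) := by
  refine ⟨hc.loc.comp (fun P => n • P), fun σ τ => ?_⟩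
  rw [hc.crossed, smul_add, ptW_nsmul]

theorem LocTriv.nsmul {F L : Type} [Field F] [Field L] [Algebra F L] {d : F}
    {c : (L ≃ₐ[F] L) → (W (algebraMap F L d)).toAffine.Point} {Fv Lv : Type} [Field Fv]
    [Algebra F Fv] [Field Lv] [Algebra Fv Lv] [Algebra F Lv] [IsScalarTower F Fv Lv]
    (h : LocTriv c Fv Lv) (n : ℕ) : LocTriv (fun σ => n • c σ) Fv Lv := by
  intro ι
  obtain ⟨Q, hQ⟩ := h ι
  refine ⟨n • Q, fun τ σ hστ => ?_⟩
  rw [ptW_nsmul, ptW_nsmul, hQ τ σ hστ, smul_sub]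

/-- [QTB-P1] a locally trivial cocycle of `2`-power order is principal, if `SelTriv` -/
theorem sha_powL {F L : Type} [Field F] [NumberField F] [Field L] [Algebra F L] [IsAlgClosure F L]
    {d j : F} (hd : d ≠ 0) (hj : j ^ 2 = -1) (hsel : SelTriv F d) (k : ℕ) :
    ∀ c : (L ≃ₐ[F] L) → (W (algebraMap F L d)).toAffine.Point, Coc F L d c →
      (∀ v : HeightOneSpectrum (𝓞 F),
        LocTriv c (v.adicCompletion F) (AlgebraicClosure (v.adicCompletion F))) →
      (∃ P : (W (algebraMap F L d)).toAffine.Point, ∀ σ : L ≃ₐ[F] L,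
        2 ^ k • c σ = ptW (σ : L →+* L) (gal_comm σ d) P - P) →
      ∃ P : (W (algebraMap F L d)).toAffine.Point, ∀ σ : L ≃ₐ[F] L,
        c σ = ptW (σ : L →+* L) (gal_comm σ d) P - P := by
  induction k with
  | zero =>
    rintro c - - ⟨P, hP⟩
    exact ⟨P, fun σ => by rw [← hP σ, pow_zero, one_smul]⟩
  | succ k ih =>
    rintro c hc hloc ⟨P, hP⟩
    have h1 := ih (fun σ => 2 • c σ) (Coc.nsmul hc 2) (fun v => LocTriv.nsmul (hloc v) 2)
      ⟨P, fun σ => by rw [← hP σ, smul_smul, ← pow_succ]⟩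
    exact sha_coreL hd hj hsel c hc hloc h1

end QTB
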