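import Pool.Agent.QTB.S4b

/-!
# [QTB-S11a] the Kummer cocycles
-/

set_option autoImplicit false

open NumberField IsDedekindDomain
open scoped Classical

namespace QTB

open QT (W)
open QTD

section

variable {F L : Type} [Field F] [CharZero F] [Field L] [Algebra F L] {d b : F}

/-- [S11a] -/
theorem kap_eq (hd : d ≠ 0) (s : L) (σ : L ≃ₐ[F] L) (h : σ s = s) : kap hd s σ = 0 := if_pos h

/-- [S11b] the values -/
theorem ker_kap (hd : d ≠ 0) (s : L) (σ : L ≃ₐ[F] L) : Ker (kap hd s σ) := by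
  unfold kap
  split_ifs
  · exact ker_zero
  · exact (rfl : (0 : L) = 0)

/-- [S11c] `σ s = s` or `σ s = -s ≠ s`. -/
theorem sgn_kap (hd : d ≠ 0) (hb : b ≠ 0) {s : L} (hs : s ^ 2 = algebraMap F L b) (σ : L ≃ₐ[F] L) :
    σ s = sgn (kap hd s σ) * s := by
  unfold kap
  split_ifs with h
  · rw [sgn_zero, one_mul]
    exact h
  · have h1 : (σ s) ^ 2 = s ^ 2 := by
      rw [← map_pow, hs]
      exact σ.commutes b
    rcases sq_eq_sq_iff_eq_or_eq_neg.1 h1 with h2 | h2
    · exact absurd h2 h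
    · rw [h2]
      change -s = -1 * s
      ring

/-- [S11d] -/
theorem kap_coc [Algebra.IsAlgebraic F L] (hd : d ≠ 0) (hb : b ≠ 0) {s : L} (hs : s ^ 2 = algebraMap F L b) :
    Coc F L d (kap hd s) := by
  have : CharZero L := charZero_of_injective_algebraMap (algebraMap F L).injective
  have hdL : algebraMap F L d ≠ 0 := (map_ne_zero (algebraMap F L)).2 hd
  have n0 : s ≠ 0 := by
    intro h0
    rw [h0, zero_pow two_ne_zero] at hs
    exact hb ((map_eq_zero (algebraMap F L)).1 hs.symm)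
  refine ⟨?_, fun σ τ => ?_⟩
  · rw [IsLocallyConstant.iff_exists_open]
    intro σ
    obtain ⟨U, hU, hσU, hU'⟩ := (IsLocallyConstant.iff_exists_open _).1 (CM27.fin_loc_apply (F := F) s) σ
    refine ⟨U, hU, hσU, fun τ hτ => ?_⟩
    have e0 : τ s = σ s := hU' τ hτ
    unfold kap
    rw [e0]
  · have hp : Ker (ptW (σ : L →+* L) (gal_comm σ d) (kap hd s τ)) := (ker_ptW _ _ _).2 (ker_kap hd s τ)
    apply sgn_inj hdL _ _ (ker_kap hd s (σ * τ)) (ker_add hdL _ _ (ker_kap hd s σ) hp)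
    rw [sgn_add hdL _ _ (ker_kap hd s σ) hp, sgn_ptW]
    have h1 : ∀ ρ : L ≃ₐ[F] L, σ (sgn (kap hd s ρ)) = sgn (kap hd s ρ) := by
      intro ρ
      rcases sgn_cases (kap hd s ρ) with ⟨-, h⟩ | ⟨-, h⟩ <;> rw [h]
      · exact map_one σ
      · rw [map_neg, map_one]
    apply mul_right_cancel₀ n0
    have e2 : (σ * τ) s = σ (τ s) := rfl
    rw [← sgn_kap hd hb hs (σ * τ), e2, sgn_kap hd hb hs τ, map_mul, sgn_kap hd hb hs σ]
    change σ (sgn (kap hd s τ)) * (sgn (kap hd s σ) * s) = sgn (kap hd s σ) * σ (sgn (kap hd s τ)) * s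
    ring

/-- [S11e] product. -/
theorem kap_mul (hd : d ≠ 0) {b' : F} (hb : b ≠ 0) (hb' : b' ≠ 0) {s s' : L} (hs : s ^ 2 = algebraMap F L b)
    (hs' : s' ^ 2 = algebraMap F L b') (σ : L ≃ₐ[F] L) : kap hd (s * s') σ = kap hd s σ + kap hd s' σ := by
  have : CharZero L := charZero_of_injective_algebraMap (algebraMap F L).injective
  have hdL : algebraMap F L d ≠ 0 := (map_ne_zero (algebraMap F L)).2 hd
  have n0 : s ≠ 0 := by
    intro h0
    rw [h0, zero_pow two_ne_zero] at hs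
    exact hb ((map_eq_zero (algebraMap F L)).1 hs.symm)
  have n0' : s' ≠ 0 := by
    intro h0
    rw [h0, zero_pow two_ne_zero] at hs'
    exact hb' ((map_eq_zero (algebraMap F L)).1 hs'.symm)
  have hss : (s * s') ^ 2 = algebraMap F L (b * b') := by
    rw [mul_pow, hs, hs', map_mul]
  apply sgn_inj hdL _ _ (ker_kap hd _ σ) (ker_add hdL _ _ (ker_kap hd s σ) (ker_kap hd s' σ))
  rw [sgn_add hdL _ _ (ker_kap hd s σ) (ker_kap hd s' σ)]
  apply mul_right_cancel₀ (mul_ne_zero n0 n0')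
  rw [← sgn_kap hd (mul_ne_zero hb hb') hss σ, map_mul, sgn_kap hd hb hs σ, sgn_kap hd hb' hs' σ]
  ring

/-- [S11f] twice. -/
theorem two_kap (hd : d ≠ 0) (s : L) (σ : L ≃ₐ[F] L) : 2 • kap hd s σ = 0 := by
  have : CharZero L := charZero_of_injective_algebraMap (algebraMap F L).injective
  unfold kap
  split_ifs
  · exact smul_zero 2
  · rw [two_nsmul]
    exact d4_T0_add _

end

end QTB
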