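import Pool.Agent.QTB.S11a

/-!
# [QTB-S11b] the local image gives local triviality
-/

set_option autoImplicit false

open NumberField IsDedekindDomain
open scoped Classical

namespace QTB

open QT (W)
open QTD

section

variable {F L : Type} [Field F] [CharZero F] [Field L] [Algebra F L] {d b : F}

/-- [S11g] the local image gives local triviality (converse of `QTD.locB`, D7). PROOF. Let `s' = ι s`, `B = algebraMap b = s'²`; `hs'` : for compatible `(τ, σ)`: `τ s' = ι (σ s) = sgn (kap σ) s'`; by `sgn_inj` it is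
enough to find `Q` with `τ Q - Q` in the kernel and `τ s' = sgn (τ Q - Q) * s'`.
* `b = t²` in `Fv`: `s' = ± t` is fixed, `Q = 0`.
* `d b = t²`: `e = t / s'`, `e² = d`, `Q = Te = (e, 0)`: `τ e = ± e` with the same sign as `s'`; `Te - Te = 0`, `T_{-e} - T_e = T0` (both have `phi = T0` (`phi_Te`), so the difference is in the kernel and it is not `0`).
* `b x = t²`, `(x, y)` on the curve: `x ≠ 0` is a square in `Lv`: `x = r²`, `Q` with `phi Q = (x, y)` (`phi_surj`); `phi (τ Q - Q) = 0`; with `T = τ Q - Q`: `τ (rho Q) = rho (Q + T) = sgn T * rho Q` (`rho_ptW`,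
`rho_add`); `rho Q ≠ 0` (otherwise `2 Q = 0` and `phi (phi Q) = 2 imP Q = 0`, so `(x, y)` is in the kernel, but `x ≠ 0`), `phi_rho`: `(rho Q / (1 + j))² = x`, so `(rho Q * s')² = (1 + j)² x b = ((1 + j) t)²`, so
`rho Q * s' = ± (1 + j) t` is fixed by `τ`, so `τ s' = sgn T * s'`. -/
theorem kap_loc [IsAlgClosure F L] {j : F} (hj : j ^ 2 = -1) (hd : d ≠ 0) (hb : b ≠ 0) {s : L}
    (hs : s ^ 2 = algebraMap F L b) {Fv Lv : Type} [Field Fv] [Algebra F Fv] [Field Lv] [Algebra Fv Lv]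
    [IsAlgClosure Fv Lv] [Algebra F Lv] [IsScalarTower F Fv Lv] (h : LocB d b Fv) :
    LocTriv (kap hd s) Fv Lv := by
  have : CharZero Fv := charZero_of_injective_algebraMap (algebraMap F Fv).injective
  have : CharZero Lv := charZero_of_injective_algebraMap (algebraMap Fv Lv).injective
  have : CharZero L := charZero_of_injective_algebraMap (algebraMap F L).injective
  have : IsAlgClosed Lv := IsAlgClosure.isAlgClosed Fv
  intro ι
  have hdw : algebraMap F Lv d ≠ 0 := fun h0 => hd ((map_eq_zero _).1 h0)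
  have hbw : algebraMap F Lv b ≠ 0 := fun h0 => hb ((map_eq_zero _).1 h0)
  have hjw : (algebraMap F Lv j) ^ 2 = -1 := by rw [← map_pow, hj, map_neg, map_one]
  have htow : ∀ x : F, algebraMap F Lv x = algebraMap Fv Lv (algebraMap F Fv x) := fun x =>
    IsScalarTower.algebraMap_apply F Fv Lv x
  have hs2 : (ι s) ^ 2 = algebraMap F Lv b := by rw [← map_pow, hs, ι.commutes]
  have hs0 : ι s ≠ 0 := by
    intro h0
    rw [h0] at hs2
    exact hbw (by rw [← hs2]; ring)
  have hτj : ∀ τ : Lv ≃ₐ[Fv] Lv, (τ : Lv →+* Lv) (algebraMap F Lv j) = algebraMap F Lv j :=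
    fun τ => tau_comm F Fv Lv τ j
  have hτF : ∀ (τ : Lv ≃ₐ[Fv] Lv) (x : F), τ (algebraMap F Lv x) = algebraMap F Lv x :=
    fun τ x => tau_comm F Fv Lv τ x
  suffices H : ∃ Q : (W (algebraMap F Lv d)).toAffine.Point, ∀ τ : Lv ≃ₐ[Fv] Lv,
      Ker (ptW (τ : Lv →+* Lv) (tau_comm F Fv Lv τ d) Q - Q) ∧
      τ (ι s) = sgn (ptW (τ : Lv →+* Lv) (tau_comm F Fv Lv τ d) Q - Q) * ι s by
    obtain ⟨Q, hQ⟩ := H
    refine ⟨Q, fun τ σ hσ => ?_⟩
    obtain ⟨hK, hsg⟩ := hQ τ
    refine sgn_inj hdw _ _ ((ker_ptW _ _ _).2 (ker_kap hd s σ)) hK ?_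
    rw [sgn_ptW]
    apply mul_right_cancel₀ hs0
    rw [← hsg, ← hσ s, sgn_kap hd hb hs σ, map_mul]
    rfl
  -- the difference is in the kernel if `phi Q` is fixed
  have hker : ∀ (Q : (W (algebraMap F Lv d)).toAffine.Point) (τ : Lv ≃ₐ[Fv] Lv),
      ptW (τ : Lv →+* Lv) (tau_comm F Fv Lv τ d) (phi hjw Q) = phi hjw Q →
      Ker (ptW (τ : Lv →+* Lv) (tau_comm F Fv Lv τ d) Q - Q) := by
    intro Q τ hfix
    rw [← phi_eq_zero hjw hdw, phi_sub, phi_ptW hjw (τ : Lv →+* Lv) (tau_comm F Fv Lv τ d) hjw (hτj τ),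
      hfix, sub_self]
  rcases h with h | h | ⟨x, y, hx, hxy, h⟩
  · obtain ⟨t, ht⟩ := h
    refine ⟨0, fun τ => ?_⟩
    rw [ptW_zero, sub_zero]
    refine ⟨ker_zero, ?_⟩
    rw [sgn_zero, one_mul]
    have h1 : (ι s) ^ 2 = (algebraMap Fv Lv t) ^ 2 := by
      rw [hs2, htow, ht, map_mul]; ring
    rcases sq_eq_sq_iff_eq_or_eq_neg.1 h1 with h2 | h2
    · rw [h2, τ.commutes]
    · rw [h2, map_neg, τ.commutes]
  · obtain ⟨t, ht⟩ := h
    set T := algebraMap Fv Lv t with hT
    have hTT : T * T = algebraMap F Lv d * algebraMap F Lv b := by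
      rw [hT, ← map_mul, ← ht, ← htow, map_mul]
    have hT0 : T ≠ 0 := by
      intro h0
      rw [h0, zero_mul] at hTT
      exact (mul_ne_zero hdw hbw) hTT.symm
    have he : (T / ι s) ^ 2 = algebraMap F Lv d := by
      rw [div_pow, hs2, div_eq_iff hbw, ← hTT]; ring
    have he0 : T / ι s ≠ 0 := div_ne_zero hT0 hs0
    refine ⟨Te hdw he, fun τ => ?_⟩
    have hK : Ker (ptW (τ : Lv →+* Lv) (tau_comm F Fv Lv τ d) (Te hdw he) - Te hdw he) := by
      apply hker
      rw [phi_Te hjw hdw he]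
      simp only [T0, ptW, WeierstrassCurve.Affine.Point.some.injEq]
      exact ⟨map_zero _, map_zero _⟩
    refine ⟨hK, ?_⟩
    have hτs : τ (ι s) = ι s ∨ τ (ι s) = - ι s := by
      apply sq_eq_sq_iff_eq_or_eq_neg.1
      rw [← map_pow, hs2, hτF]
    have hτT : τ T = T := τ.commutes t
    rcases hτs with h1 | h1
    · have h2 : ptW (τ : Lv →+* Lv) (tau_comm F Fv Lv τ d) (Te hdw he) = Te hdw he := by
        simp only [Te, ptW, WeierstrassCurve.Affine.Point.some.injEq]
        refine ⟨?_, map_zero _⟩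
        show τ (T / ι s) = T / ι s
        rw [map_div₀, hτT, h1]
      rw [h2, sub_self, sgn_zero, one_mul, h1]
    · have h2 : ptW (τ : Lv →+* Lv) (tau_comm F Fv Lv τ d) (Te hdw he) ≠ Te hdw he := by
        simp only [Te, ptW, ne_eq, WeierstrassCurve.Affine.Point.some.injEq]
        rintro ⟨h3, -⟩
        have h4 : τ (T / ι s) = T / ι s := h3
        rw [map_div₀, hτT, h1, div_neg] at h4
        have h5 : (2 : Lv) * (T / ι s) = 0 := by linear_combination -h4
        rcases mul_eq_zero.1 h5 with h6 | h6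
        · exact two_ne_zero h6
        · exact he0 h6
      rcases sgn_cases (ptW (τ : Lv →+* Lv) (tau_comm F Fv Lv τ d) (Te hdw he) - Te hdw he) with
        ⟨h3, -⟩ | ⟨-, h3⟩
      · exact absurd (sub_eq_zero.1 h3) h2
      · rw [h3, h1]; ring
  · obtain ⟨t, ht⟩ := h
    set T := algebraMap Fv Lv t with hT
    have hX0 : algebraMap Fv Lv x ≠ 0 := fun h0 => hx ((map_eq_zero _).1 h0)
    have hP : (W (algebraMap F Lv d)).toAffine.Nonsingular (algebraMap Fv Lv x) (algebraMap Fv Lv y) := by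
      rw [W_nonsingular hdw, ← map_pow, hxy, map_sub, map_mul, map_pow, ← htow]
    obtain ⟨Q, hQ⟩ := phi_surj hjw hdw (.some _ _ hP)
    refine ⟨Q, fun τ => ?_⟩
    have hK : Ker (ptW (τ : Lv →+* Lv) (tau_comm F Fv Lv τ d) Q - Q) := by
      apply hker
      rw [hQ]
      simp only [ptW, WeierstrassCurve.Affine.Point.some.injEq]
      exact ⟨τ.commutes x, τ.commutes y⟩
    refine ⟨hK, ?_⟩
    have hrho0 : rho Q ≠ 0 := by
      intro h0
      have h1 := (rho_eq_zero hdw Q).1 h0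
      have h2 := phi_phi hjw Q
      rw [← imP_nsmul, h1, imP_zero, hQ] at h2
      have h3 := (phi_eq_zero hjw hdw _).1 h2
      exact hX0 h3
    obtain ⟨y', h', hphi⟩ := phi_rho hdw hjw Q hrho0
    rw [hQ] at hphi
    simp only [WeierstrassCurve.Affine.Point.some.injEq] at hphi
    have hXr : algebraMap Fv Lv x = (rho Q / (1 + algebraMap F Lv j)) ^ 2 := hphi.1
    have h1j := one_add_j_ne hjw
    have hsq : (rho Q * ι s) ^ 2 = ((1 + algebraMap F Lv j) * T) ^ 2 := by
      have e1 : rho Q ^ 2 = algebraMap Fv Lv x * (1 + algebraMap F Lv j) ^ 2 := by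
        rw [hXr]; field_simp
      have e2 : algebraMap F Lv b * algebraMap Fv Lv x = T * T := by
        rw [hT, ← map_mul, ← ht, map_mul, ← htow]
      rw [mul_pow, mul_pow, e1, hs2]
      linear_combination (1 + algebraMap F Lv j) ^ 2 * e2
    have hfix : τ (rho Q * ι s) = rho Q * ι s := by
      have hfix' : τ ((1 + algebraMap F Lv j) * T) = (1 + algebraMap F Lv j) * T := by
        rw [map_mul, map_add, map_one, hτF, hT, τ.commutes]
      rcases sq_eq_sq_iff_eq_or_eq_neg.1 hsq with h2 | h2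
      · rw [h2, hfix']
      · rw [h2, map_neg, hfix']
    set D := ptW (τ : Lv →+* Lv) (tau_comm F Fv Lv τ d) Q - Q with hD
    have hQD : ptW (τ : Lv →+* Lv) (tau_comm F Fv Lv τ d) Q = Q + D := by rw [hD]; abel
    have hrho : τ (rho Q) = sgn D * rho Q := by
      have h1 : τ (rho Q) = rho (ptW (τ : Lv →+* Lv) (tau_comm F Fv Lv τ d) Q) :=
        (rho_ptW (τ : Lv →+* Lv) (tau_comm F Fv Lv τ d) Q).symm
      rw [h1, hQD, rho_add hdw _ _ hK]
    rw [map_mul, hrho] at hfix
    have h3 := sgn_mul_self D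
    apply mul_left_cancel₀ hrho0
    linear_combination sgn D * hfix - rho Q * τ (ι s) * h3

end

end QTB
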