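import Pool.Agent.QTB.S0

/-!
# [QTB-S11c] the local images form a group
-/

set_option autoImplicit false

open NumberField IsDedekindDomain
open scoped Classical

namespace QTB

open QT (W)
open QTD

/-- [S11h] `LocB` and ring homomorphisms -/
theorem locB_map {K F' F'' : Type} [Field K] [Field F'] [Field F''] [Algebra K F'] [Algebra K F''] {d b : K}
    (ψ : F' →+* F'') (hψ : ∀ x : K, ψ (algebraMap K F' x) = algebraMap K F'' x) (h : LocB d b F') :
    LocB d b F'' := by
  unfold LocB at *
  rcases h with h | h | ⟨x, y, hx, hxy, h⟩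
  · left
    have := h.map ψ
    rwa [hψ] at this
  · right; left
    have := h.map ψ
    rwa [hψ] at this
  · right; right
    refine ⟨ψ x, ψ y, (map_ne_zero ψ).2 hx, ?_, ?_⟩
    · have h1 := congrArg ψ hxy
      rw [map_pow, map_sub, map_pow, map_mul, hψ] at h1
      exact h1
    · have := h.map ψ
      rwa [map_mul, hψ] at this

/-- [S11i] `LocB` for `F'` over `K` and over `F` -/
theorem locB_tower {K F F' : Type} [Field K] [Field F] [Field F'] [Algebra K F] [Algebra F F'] [Algebra K F']
    [IsScalarTower K F F'] {d b : K} : LocB (algebraMap K F d) (algebraMap K F b) F' ↔ LocB d b F' := by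
  unfold LocB
  simp only [← map_mul, ← IsScalarTower.algebraMap_apply K F F']

/-- `LocB` on the level of `F'` -/
def s11c_L {F' : Type} [Field F'] (D B : F') : Prop :=
  IsSquare B ∨ IsSquare (D * B) ∨ ∃ x y : F', x ≠ 0 ∧ y ^ 2 = x ^ 3 - D * x ∧ IsSquare (B * x)

theorem s11c_iff {K F' : Type} [Field K] [Field F'] [Algebra K F'] {d b : K} :
    LocB d b F' ↔ s11c_L (algebraMap K F' d) (algebraMap K F' b) := by
  unfold LocB s11c_L
  rw [map_mul]

theorem s11c_sq {F' : Type} [Field F'] {D B : F'} (r : F') (h : s11c_L D B) :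
    s11c_L D (B * r ^ 2) := by
  rcases h with ⟨s, hs⟩ | ⟨s, hs⟩ | ⟨x, y, hx, hxy, ⟨s, hs⟩⟩
  · exact Or.inl ⟨s * r, by linear_combination r ^ 2 * hs⟩
  · exact Or.inr (Or.inl ⟨s * r, by linear_combination r ^ 2 * hs⟩)
  · exact Or.inr (Or.inr ⟨x, y, hx, hxy, ⟨s * r, by linear_combination r ^ 2 * hs⟩⟩)

theorem s11c_mul_d {F' : Type} [Field F'] {D B J : F'} (hD : D ≠ 0) (hJ : J ^ 2 = -1)
    (h : s11c_L D B) : s11c_L D (D * B) := by
  rcases h with ⟨s, hs⟩ | ⟨s, hs⟩ | ⟨x, y, hx, hxy, ⟨s, hs⟩⟩
  · exact Or.inr (Or.inl ⟨D * s, by linear_combination D ^ 2 * hs⟩)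
  · exact Or.inl ⟨s, hs⟩
  · right; right
    refine ⟨-(D / x), D * y / x ^ 2, neg_ne_zero.2 (div_ne_zero hD hx), ?_,
      ⟨J * (s * (D / x)), ?_⟩⟩
    · field_simp
      linear_combination hxy
    · have e1 : J * (s * (D / x)) * (J * (s * (D / x))) = J ^ 2 * (s * s) * (D / x) ^ 2 := by ring
      rw [e1, hJ, ← hs]
      field_simp

theorem s11c_mul_sq {F' : Type} [Field F'] {D B B' : F'} (h : IsSquare B) (h' : s11c_L D B') :
    s11c_L D (B * B') := by
  obtain ⟨s, hs⟩ := h
  have := s11c_sq s h'
  rwa [show B' * s ^ 2 = B * B' by rw [hs]; ring] at this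

theorem s11c_mul {F' : Type} [Field F'] {D B B' J : F'} (hD : D ≠ 0) (hJ : J ^ 2 = -1)
    (h : s11c_L D B) (h' : s11c_L D B') : s11c_L D (B * B') := by
  have hsqd : ∀ B B' : F', IsSquare (D * B) → s11c_L D B' → s11c_L D (B * B') := by
    intro B B' hs hB'
    obtain ⟨s, hs⟩ := hs
    have h1 := s11c_sq (s / D) (s11c_mul_d hD hJ hB')
    have h2 : D * B' * (s / D) ^ 2 = B * B' := by
      field_simp
      linear_combination (-B') * hs
    rwa [h2] at h1
  rcases h with h | h | ⟨x, y, hx, hxy, ⟨s, hs⟩⟩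
  · exact s11c_mul_sq h h'
  · exact hsqd B B' h h'
  · rcases h' with h' | h' | ⟨x', y', hx', hxy', ⟨s', hs'⟩⟩
    · rw [mul_comm]
      exact s11c_mul_sq h' (Or.inr (Or.inr ⟨x, y, hx, hxy, ⟨s, hs⟩⟩))
    · rw [mul_comm]
      exact hsqd B' B h' (Or.inr (Or.inr ⟨x, y, hx, hxy, ⟨s, hs⟩⟩))
    · by_cases hxx : x = x'
      · subst hxx
        left
        refine ⟨s * s' / x, ?_⟩
        field_simp
        linear_combination (B' * x) * hs + s * s * hs'
      · have hne : x - x' ≠ 0 := sub_ne_zero.2 hxx
        obtain ⟨l, hl⟩ : ∃ l, l * (x - x') = y - y' := ⟨(y - y') / (x - x'), by field_simp⟩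
        obtain ⟨n, hn⟩ : ∃ n, y = l * x + n := ⟨y - l * x, by ring⟩
        have hn' : y' = l * x' + n := by linear_combination hn + hl
        obtain ⟨x'', hx''⟩ : ∃ x'', x'' = l ^ 2 - x - x' := ⟨_, rfl⟩
        have hP : x ^ 3 - D * x - (l * x + n) ^ 2 = 0 := by
          rw [← hn]; linear_combination -hxy
        have hP' : x' ^ 3 - D * x' - (l * x' + n) ^ 2 = 0 := by
          rw [← hn']; linear_combination -hxy'
        have e2 : x * x' + x'' * (x + x') + D + 2 * l * n = 0 := by
          apply (mul_eq_zero.1 (_ : (x - x') * (x * x' + x'' * (x + x') + D + 2 * l * n) = 0)).resolve_left hne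
          rw [hx'']
          linear_combination hP' - hP
        have e3 : x * x' * x'' = n ^ 2 := by
          linear_combination x * e2 + hP - x ^ 2 * hx''
        by_cases h0 : x'' = 0
        · right; left
          rw [h0, mul_zero] at e3
          have hn0 : n = 0 := by
            have : n ^ 2 = 0 := e3.symm
            exact pow_eq_zero_iff (two_ne_zero) |>.1 this
          refine ⟨J * (s * s'), ?_⟩
          rw [h0, hn0] at e2
          have e4 : D = -(x * x') := by linear_combination e2
          have e5 : J * (s * s') * (J * (s * s')) = J ^ 2 * (s * s) * (s' * s') := by ring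
          rw [e5, hJ, ← hs, ← hs', e4]
          ring
        · right; right
          refine ⟨x'', l * x'' + n, h0, ?_, ⟨s * s' * n / (x * x'), ?_⟩⟩
          · have e6 : x'' ^ 3 - D * x'' - (l * x'' + n) ^ 2 = 0 := by
              linear_combination (x'' ^ 2) * hx'' - x'' * e2 + e3
            linear_combination -e6
          · have e7 : s * s' * n / (x * x') * (s * s' * n / (x * x')) =
                (s * s) * (s' * s') * n ^ 2 / (x * x') ^ 2 := by
              field_simp
            rw [e7, ← hs, ← hs', ← e3]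
            field_simp

/-- [S11j] the product rule. PROOF. The cases with a square are clear; `d b` a square: `locB_mul_d` (D5). Both `b x`, `b' x'` squares, with points `(x, y)`, `(x', y')`: if `x = x'`: `b b'` is a square.
Otherwise let `l = (y - y') / (x - x')`, `n = y - l x` (the line through the points), `x'' = l² - x - x'`; the three roots of `x³ - d x - (l x + n)²` are `x, x', x''`, so `x x' x'' = n²`
and `(x'', l x'' + n)` is on the curve. If `x'' ≠ 0`: `b b' x'' = (b x)(b' x') x'' / (x x')`, `x'' / (x x') = n² / (x x')²`. If `x'' = 0`: `n = 0` and `x x' = -d` (the coefficient of `x`), so `-d b b' = (b x) (b' x')` is a square,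
and `-1 = j²`. -/
theorem locB_mul {K F' : Type} [Field K] [CharZero K] [Field F'] [Algebra K F'] {d b b' j : K} (hd : d ≠ 0)
    (hj : j ^ 2 = -1) (h : LocB d b F') (h' : LocB d b' F') : LocB d (b * b') F' := by
  rw [s11c_iff] at h h' ⊢
  rw [map_mul]
  have hD : algebraMap K F' d ≠ 0 := (map_ne_zero (algebraMap K F')).2 hd
  have hJ : (algebraMap K F' j) ^ 2 = -1 := by rw [← map_pow, hj, map_neg, map_one]
  exact s11c_mul hD hJ h h'

/-- [S11k] squares -/
theorem locB_sq {K F' : Type} [Field K] [Field F'] [Algebra K F'] {d b r : K} (hr : r ≠ 0) :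
    LocB d (b * r ^ 2) F' ↔ LocB d b F' := by
  rw [s11c_iff, s11c_iff, map_mul, map_pow]
  have hr' : algebraMap K F' r ≠ 0 := (map_ne_zero (algebraMap K F')).2 hr
  constructor
  · intro h
    have h1 := s11c_sq (algebraMap K F' r)⁻¹ h
    have h2 : algebraMap K F' b * algebraMap K F' r ^ 2 * (algebraMap K F' r)⁻¹ ^ 2 =
        algebraMap K F' b := by
      field_simp
    rwa [h2] at h1
  · intro h
    exact s11c_sq _ h

end QTB
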