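import Pool.Agent.QTB.S0

/-!
# [QTB-S11d] the infinite places
-/

set_option autoImplicit false

open NumberField IsDedekindDomain
open scoped Classical

namespace QTB

open QT (W)
open QTD

/-- [S11l] the infinite places: all are complex (`j² = -1`). PROOF. `v.Completion` is isomorphic to `ℂ` (`NumberField.InfinitePlace.Completion.ringEquivComplexOfIsComplex`), so it is algebraically closed and every
`τ ∈ Gal(AlgebraicClosure v.Completion / v.Completion)` is `1` (`IsAlgClosed.algebraMap_surjective_of_isIntegral` or bijective algebraMap); `σ` compatible with `τ = 1` is `1`, `c 1 = 0` (`d6_one`); `Q = 0`. -/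
theorem inf_loc {F : Type} [Field F] [NumberField F] {d j : F} (hj : j ^ 2 = -1)
    {c : (AlgebraicClosure F ≃ₐ[F] AlgebraicClosure F) → (W (algebraMap F (AlgebraicClosure F) d)).toAffine.Point}
    (hc : Coc F (AlgebraicClosure F) d c) (v : InfinitePlace F) :
    LocTriv c v.Completion (AlgebraicClosure v.Completion) := by
  have hcx : v.IsComplex := by
    rw [← InfinitePlace.not_isReal_iff_isComplex]
    intro h
    have h1 := (ComplexEmbedding.isReal_iff).1 ((InfinitePlace.isReal_iff).1 h)
    have h2 : star (v.embedding j) = v.embedding j := RingHom.congr_fun h1 j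
    have h3 : v.embedding j ^ 2 = -1 := by
      rw [← map_pow, hj, map_neg, map_one]
    obtain ⟨r, hr⟩ := (Complex.conj_eq_iff_real).1 h2
    rw [hr] at h3
    have h4 : ((r ^ 2 : ℝ) : ℂ) = ((-1 : ℝ) : ℂ) := by
      push_cast
      exact h3
    have h5 : r ^ 2 = -1 := Complex.ofReal_injective h4
    nlinarith [sq_nonneg r]
  have halg : IsAlgClosed v.Completion :=
    IsAlgClosed.of_ringEquiv ℂ v.Completion (InfinitePlace.Completion.ringEquivComplexOfIsComplex hcx).symm
  have hsurj : Function.Surjective (algebraMap v.Completion (AlgebraicClosure v.Completion)) :=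
    (IsAlgClosed.algebraMap_bijective_of_isIntegral (k := v.Completion)).2
  intro ι
  refine ⟨0, fun τ σ hτ => ?_⟩
  have hσ : σ = 1 := by
    apply AlgEquiv.ext
    intro x
    apply (ι : AlgebraicClosure F →+* AlgebraicClosure v.Completion).injective
    change ι (σ x) = ι x
    rw [hτ x]
    obtain ⟨y, hy⟩ := hsurj (ι x)
    rw [← hy]
    exact τ.commutes y
  rw [hσ, d6_one hc, sub_zero]
  rfl

end QTB
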