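import Pool.Agent.QTB.S0
import Pool.Agent.TU.G0

/-!
# [QTB-S9a] cocycles over `F` and over `K`: definitions
-/

set_option autoImplicit false

open NumberField IsDedekindDomain
open scoped Classical

namespace QTB

open QT (W)
open QTD
open TU (QS)

section

variable {K F : Type} [Field K] [NumberField K] [Field F] [NumberField F] [Algebra K F]
  {L : Type} [Field L] [Algebra F L] [Algebra K L] [IsScalarTower K F L]

theorem tow (d : K) : algebraMap F L (algebraMap K F d) = algebraMap K L d :=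
  (IsScalarTower.algebraMap_apply K F L d).symm

/-- the points over `F` and over `K` -/
def cv (d : K) (P : (W (algebraMap F L (algebraMap K F d))).toAffine.Point) :
    (W (algebraMap K L d)).toAffine.Point :=
  ptW (RingHom.id L) (tow (F := F) d) P

/-- `θ` in `L` -/
def th (Q : QS K F) (L : Type) [Field L] [Algebra F L] : L := algebraMap F L Q.s

theorem th_sq (Q : QS K F) : th Q L ^ 2 = algebraMap K L Q.e := by
  unfold th
  rw [← map_pow, Q.hs, ← IsScalarTower.algebraMap_apply]

/-- a crossed homomorphism of `Gal(L / F)` as a function on `Gal(L / K)`, `0` outside `Gal(L / F)` -/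
noncomputable def low (F : Type) [Field F] [NumberField F] [Algebra K F] [Algebra F L] [IsScalarTower K F L] (d : K)
    (x : (L ≃ₐ[F] L) → (W (algebraMap F L (algebraMap K F d))).toAffine.Point)
    (σ : L ≃ₐ[K] L) : (W (algebraMap K L d)).toAffine.Point :=
  if h : ∀ f : F, σ (algebraMap F L f) = algebraMap F L f then
    cv d (x (AlgEquiv.ofRingEquiv (f := (σ : L ≃+* L)) h)) else 0

/-- [S9a] automorphisms fixing `θ` fix `F`. PROOF. `Q.gen`. -/
theorem fix_iff (Q : QS K F) (σ : L ≃ₐ[K] L) :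
    σ (th Q L) = th Q L ↔ ∀ f : F, σ (algebraMap F L f) = algebraMap F L f := by
  constructor
  · intro h f
    obtain ⟨a, b, hf⟩ := Q.gen f
    rw [hf, map_add, map_mul, tow, tow, map_add, map_mul, σ.commutes, σ.commutes]
    have h1 : σ (algebraMap F L Q.s) = algebraMap F L Q.s := h
    rw [h1]
  · intro h
    exact h Q.s

/-- [S9b] PROOF. `low` unfolds; `AlgEquiv.ofRingEquiv _ = σ` by `ext`. -/
theorem low_res (d : K) (x : (L ≃ₐ[F] L) → (W (algebraMap F L (algebraMap K F d))).toAffine.Point)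
    (σ : L ≃ₐ[F] L) (σ' : L ≃ₐ[K] L) (h : ∀ y : L, σ' y = σ y) : low F d x σ' = cv d (x σ) := by
  have hp : ∀ f : F, σ' (algebraMap F L f) = algebraMap F L f := by
    intro f
    rw [h, σ.commutes]
  unfold low
  rw [dif_pos hp]
  have h1 : AlgEquiv.ofRingEquiv (f := (σ' : L ≃+* L)) hp = σ := AlgEquiv.ext fun y => h y
  rw [h1]

/-- [S9c] -/
theorem exists_up (Q : QS K F) (σ' : L ≃ₐ[K] L) (h : σ' (th Q L) = th Q L) :
    ∃ σ : L ≃ₐ[F] L, ∀ y : L, σ' y = σ y := by
  exact ⟨AlgEquiv.ofRingEquiv (f := (σ' : L ≃+* L)) ((fix_iff Q σ').1 h), fun y => rfl⟩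

/-- [S9c'] -/
theorem exists_down (σ : L ≃ₐ[F] L) : ∃ σ' : L ≃ₐ[K] L, ∀ y : L, σ' y = σ y :=
  ⟨σ.restrictScalars K, fun _ => rfl⟩

/-- [S9d] PROOF. `ptW_add`, injective (`ptW_injective`), surjective (the inverse is `ptW (RingHom.id L)` in the other direction). -/
theorem cv_add (d : K) (P P' : (W (algebraMap F L (algebraMap K F d))).toAffine.Point) :
    cv d (P + P') = cv d P + cv d P' := ptW_add (RingHom.id L) (tow (F := F) d) P P'

theorem cv_neg (d : K) (P : (W (algebraMap F L (algebraMap K F d))).toAffine.Point) :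
    cv d (-P) = -cv d P := ptW_neg (RingHom.id L) (tow (F := F) d) P

theorem cv_nsmul (d : K) (n : ℕ) (P : (W (algebraMap F L (algebraMap K F d))).toAffine.Point) :
    cv d (n • P) = n • cv d P := ptW_nsmul (RingHom.id L) (tow (F := F) d) n P

theorem cv_injective (d : K) : Function.Injective (cv (F := F) (L := L) d) :=
  ptW_injective (RingHom.id L) (tow (F := F) d)

theorem cv_surjective (d : K) : Function.Surjective (cv (F := F) (L := L) d) := by
  intro P
  refine ⟨ptW (RingHom.id L) (tow (F := F) d).symm P, ?_⟩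
  rcases P with _ | ⟨x, y, hxy⟩ <;> rfl

theorem cv_act (d : K) (σ : L ≃ₐ[F] L) (σ' : L ≃ₐ[K] L) (h : ∀ y : L, σ' y = σ y)
    (P : (W (algebraMap F L (algebraMap K F d))).toAffine.Point) :
    cv d (ptW (σ : L →+* L) (gal_comm σ (algebraMap K F d)) P) = ptW (σ' : L →+* L) (gal_comm σ' d) (cv d P) := by
  rcases P with _ | ⟨x, y, hxy⟩
  · rfl
  · simp only [cv, ptW]
    rw [WeierstrassCurve.Affine.Point.some.injEq]
    exact ⟨(h x).symm, (h y).symm⟩

/-- [S9e] the Kummer cocycle. PROOF. `low_res`, unfold `kap`, `cv d T0 = T0`. -/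
theorem cv_kap [CharZero K] [CharZero F] {d : K} (hd : d ≠ 0) (hd' : algebraMap K F d ≠ 0) (s : L) (σ : L ≃ₐ[F] L) (σ' : L ≃ₐ[K] L)
    (h : ∀ y : L, σ' y = σ y) : cv d (kap hd' s σ) = kap hd s σ' := by
  unfold kap
  by_cases hs : σ s = s
  · rw [if_pos hs, if_pos (by rw [h]; exact hs)]
    rfl
  · rw [if_neg hs, if_neg (by rw [h]; exact hs)]
    rfl

end

end QTB
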