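import Pool.Agent.QTB.S7a
import Pool.Agent.QTB.S9a
import Pool.Agent.QTB.S11a

/-!
# [QTB-S13a] local images from local triviality
-/

set_option autoImplicit false

open NumberField IsDedekindDomain
open scoped Classical

namespace QTB

open QT (W)
open QTD
open TU (QS)

section

variable {K F : Type} [Field K] [NumberField K] [Field F] [NumberField F] [Algebra K F] (Q : QS K F) {d j : K}

/-- [S13a] LocB over `K_v` from a decomposition of `y`. -/
theorem locB_of_LT1 {L : Type} [Field L] [Algebra K L] [IsAlgClosure K L] (hd : d ≠ 0) (hj : j ^ 2 = -1) {c : K} (hc : c ≠ 0) {s : L}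
    (hs : s ^ 2 = algebraMap K L c) {z : (L ≃ₐ[K] L) → (W (algebraMap K L d)).toAffine.Point}
    {R : (W (algebraMap K L d)).toAffine.Point}
    (hz : ∀ σ : L ≃ₐ[K] L, z σ = kap hd s σ + (ptW (σ : L →+* L) (gal_comm σ d) R - R))
    {Kv Lv : Type} [Field Kv] [Algebra K Kv] [Field Lv] [Algebra Kv Lv] [IsAlgClosure Kv Lv] [Algebra K Lv]
    [IsScalarTower K Kv Lv] (ι : L →ₐ[K] Lv) (h : LT1 z Kv Lv ι) : LocB d c Kv := by
  obtain ⟨P, hP⟩ := h
  refine locB hd hj (kap hd s) (ker_kap hd s) c s hc hs (sgn_kap hd hc hs) Kv Lv ι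
    (P - ptW (ι : L →+* Lv) (alg_comm ι d) R) fun τ σ hσ => ?_
  have h1 := hP τ σ hσ
  rw [hz σ, ptW_add, ptW_sub, ptW_comp] at h1
  have h2 : ptW ((ι : L →+* Lv).comp (σ : L →+* L))
      (by rw [RingHom.comp_apply, gal_comm, alg_comm]) R =
      ptW ((τ : Lv →+* Lv).comp (ι : L →+* Lv))
      (by rw [RingHom.comp_apply, alg_comm, tau_comm K Kv Lv τ d]) R := by
    apply ptW_congr
    ext x
    exact hσ x
  rw [h2, ← ptW_comp (ι : L →+* Lv) (τ : Lv →+* Lv) (alg_comm ι d) (tau_comm K Kv Lv τ d)] at h1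
  rw [ptW_sub]
  rw [← sub_eq_zero] at h1 ⊢
  rw [← h1]
  abel

/-- [S13b] LocB over all `F_w` for `c`. -/
theorem inA_of_phi {L : Type} [Field L] [Algebra F L] [IsAlgClosure F L] [Algebra K L] [IsScalarTower K F L] [IsAlgClosure K L]
    [CharZero L] (hd : d ≠ 0) (hj : j ^ 2 = -1) {c : K} (hc : c ≠ 0) {s : L}
    (hs : s ^ 2 = algebraMap K L c)
    {x : (L ≃ₐ[F] L) → (W (algebraMap F L (algebraMap K F d))).toAffine.Point}
    (hloc : ∀ w : HeightOneSpectrum (𝓞 F), LocTriv x (w.adicCompletion F) (AlgebraicClosure (w.adicCompletion F)))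
    {y : (L ≃ₐ[K] L) → (W (algebraMap K L d)).toAffine.Point}
    (hyX : ∀ σ : L ≃ₐ[K] L, σ (th Q L) = th Q L → y σ = low F d x σ)
    {R : (W (algebraMap K L d)).toAffine.Point}
    (hR : ∀ σ : L ≃ₐ[K] L, phi (am_j (L := L) hj) (y σ) = kap hd s σ + (ptW (σ : L →+* L) (gal_comm σ d) R - R)) :
    InA K F d c := by
  intro w
  have hd' : algebraMap K F d ≠ 0 := (map_ne_zero _).2 hd
  have hc' : algebraMap K F c ≠ 0 := (map_ne_zero _).2 hc
  have hj' : (algebraMap K F j) ^ 2 = -1 := by rw [← map_pow, hj, map_neg, map_one]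
  have hs' : s ^ 2 = algebraMap F L (algebraMap K F c) := by
    rw [hs]
    exact IsScalarTower.algebraMap_apply K F L c
  obtain ⟨R', hR'⟩ := cv_surjective (F := F) (L := L) d R
  have hz : ∀ σ : L ≃ₐ[F] L, phi (am_j (L := L) hj') (x σ) =
      kap hd' s σ + (ptW (σ : L →+* L) (gal_comm σ (algebraMap K F d)) R' - R') := by
    intro σ
    obtain ⟨σ', hσ'⟩ := exists_down (K := K) σ
    apply cv_injective (F := F) (L := L) d
    have e1 : cv d (phi (am_j (L := L) hj') (x σ)) = phi (am_j (L := L) hj) (cv d (x σ)) := by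
      unfold cv
      rw [phi_ptW (am_j (L := L) hj') (RingHom.id L) (tow (F := F) d) (am_j (L := L) hj)
        (tow (F := F) j)]
    have e2 : σ' (th Q L) = th Q L := by
      rw [hσ']
      exact σ.commutes _
    rw [e1, ← low_res d x σ σ' hσ', ← hyX σ' e2, hR σ', cv_add, cv_kap hd hd' s σ σ' hσ', sub_eq_add_neg,
      sub_eq_add_neg, cv_add, cv_neg, cv_act d σ σ' hσ', hR']
  have : IsAlgClosed (AlgebraicClosure (w.adicCompletion F)) := inferInstance
  have : Algebra.IsAlgebraic F L := IsAlgClosure.isAlgebraic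
  let ι : L →ₐ[F] AlgebraicClosure (w.adicCompletion F) := IsAlgClosed.lift
  have hjv : ((algebraMap F (AlgebraicClosure (w.adicCompletion F)) (algebraMap K F j))) ^ 2 = -1 := by
    rw [← map_pow, hj', map_neg, map_one]
  have : CharZero (w.adicCompletion F) :=
    charZero_of_injective_algebraMap (algebraMap F (w.adicCompletion F)).injective
  have : CharZero (AlgebraicClosure (w.adicCompletion F)) :=
    charZero_of_injective_algebraMap (algebraMap (w.adicCompletion F) _).injective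
  obtain ⟨P, hP⟩ := LocTriv.phi hj' (hloc w) ι
  exact locB_of_LT1 hd' hj' hc' hs' hz ι ⟨P, hP⟩

end

end QTB
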