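import Pool.Agent.QTB.S0
import Pool.Agent.QT.D11

/-!
# [QTB-S7b] the local computation
-/

set_option autoImplicit false

open NumberField IsDedekindDomain
open scoped Classical

namespace QTB

open QT (W)
open QTD

theorem s7b_negY {K : Type} [Field K] {d x y : K} (h : (W d).toAffine.Nonsingular x y) :
    ∃ h', -(WeierstrassCurve.Affine.Point.some x y h : (W d).toAffine.Point) =
      .some x (-y) h' := by
  have h1 := WeierstrassCurve.Affine.Point.neg_some h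
  have h2 : (W d).toAffine.negY x y = -y := d2_negY x y
  have h3 : (W d).toAffine.Nonsingular x (-y) := by
    rw [← h2]
    exact (WeierstrassCurve.Affine.nonsingular_neg x y).2 h
  refine ⟨h3, ?_⟩
  rw [h1, WeierstrassCurve.Affine.Point.some.injEq]
  exact ⟨rfl, h2⟩

/-- explicit half -/
theorem s7b_half {K : Type} [Field K] [CharZero K] {d j : K} (hj : j ^ 2 = -1) (hd : d ≠ 0)
    {x y s : K} (h : (W d).toAffine.Nonsingular x y) (hs : x = s ^ 2) (hs0 : s ≠ 0) :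
    ∃ h' : (W d).toAffine.Nonsingular (j * x + j * (y / s)) ((1 + j) * s * (j * x + j * (y / s))),
      phi hj (.some (j * x + j * (y / s)) ((1 + j) * s * (j * x + j * (y / s))) h') =
        .some x y h := by
  have hj1 := one_add_j_ne hj
  have heq := (W_nonsingular hd x y).1 h
  have hys : (y / s) ^ 2 = x ^ 2 - d := by
    rw [div_pow, div_eq_iff (pow_ne_zero 2 hs0), ← hs, heq]
    ring
  have hst : s * (y / s) = y := by field_simp
  generalize y / s = t at hys hst ⊢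
  have hprod : (j * x + j * t) * ((j * x + j * t) - 2 * j * x) = d := by
    linear_combination (t ^ 2 - x ^ 2) * hj - hys
  generalize hx' : j * x + j * t = x' at hprod ⊢
  have hx'0 : x' ≠ 0 := by
    intro h0
    rw [h0, zero_mul] at hprod
    exact hd hprod.symm
  have hns : (W d).toAffine.Nonsingular x' ((1 + j) * s * x') := by
    rw [W_nonsingular hd]
    have h5 : (1 + j) ^ 2 = 2 * j := by linear_combination hj
    calc ((1 + j) * s * x') ^ 2 = (1 + j) ^ 2 * s ^ 2 * x' ^ 2 := by ring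
      _ = 2 * j * x * x' ^ 2 := by rw [h5, ← hs]
      _ = x' ^ 3 - d * x' := by linear_combination (-x') * hprod
  refine ⟨hns, ?_⟩
  obtain ⟨h', h1⟩ := phi_some hj hns hx'0
  have hm : (1 + j) * s * x' / ((1 + j) * x') = s := by
    field_simp
  rw [h1, WeierstrassCurve.Affine.Point.some.injEq, hm]
  refine ⟨hs.symm, ?_⟩
  rw [← hs, ← hx']
  linear_combination (-s * x - s * t) * hj + hst

/-- the point `R`; `Aut` is the type of automorphisms -/
theorem s7b_R {K : Type} [Field K] [CharZero K] {d j : K} (hj : j ^ 2 = -1) (hd : d ≠ 0)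
    {x y s : K} (h : (W d).toAffine.Nonsingular x y) (hs : x = s ^ 2) (hs0 : s ≠ 0) :
    ∃ R : (W d).toAffine.Point,
      ∀ (f : K →+* K) (hfd : f d = d), f j = j → f x = x → f (y / s) = y / s →
        (f s = s → ptW f hfd R = R) ∧
        (f s = -s → ptW f hfd R - R = phi hj (.some x y h)) := by
  obtain ⟨h', hphi⟩ := s7b_half hj hd h hs hs0
  refine ⟨-imP hj (.some (j * x + j * (y / s)) ((1 + j) * s * (j * x + j * (y / s))) h'), ?_⟩
  intro f hfd hfj hfx hfy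
  have hx1 : f (j * x + j * (y / s)) = j * x + j * (y / s) := by
    rw [map_add, map_mul, map_mul, hfj, hfx, hfy]
  constructor
  · intro hfs
    have hP : ptW f hfd (.some (j * x + j * (y / s)) ((1 + j) * s * (j * x + j * (y / s))) h') =
        .some (j * x + j * (y / s)) ((1 + j) * s * (j * x + j * (y / s))) h' := by
      simp only [ptW]
      rw [WeierstrassCurve.Affine.Point.some.injEq]
      refine ⟨hx1, ?_⟩
      rw [map_mul, map_mul, map_add, map_one, hfj, hfs, hx1]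
    rw [ptW_neg, ← imP_ptW hj f hfd hj hfj, hP]
  · intro hfs
    have hP : ptW f hfd (.some (j * x + j * (y / s)) ((1 + j) * s * (j * x + j * (y / s))) h') =
        -.some (j * x + j * (y / s)) ((1 + j) * s * (j * x + j * (y / s))) h' := by
      obtain ⟨h3, h4⟩ := s7b_negY h'
      rw [h4]
      simp only [ptW]
      rw [WeierstrassCurve.Affine.Point.some.injEq]
      refine ⟨hx1, ?_⟩
      rw [map_mul, map_mul, map_add, map_one, hfj, hfs, hx1]
      ring
    rw [ptW_neg, ← imP_ptW hj f hfd hj hfj, hP, imP_neg, ← hphi, phi_phi, neg_neg,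
      sub_neg_eq_add, two_nsmul]

section

variable {K Kv Lv : Type} [Field K] [Field Kv] [CharZero Kv] [Algebra K Kv] [Field Lv]
  [Algebra Kv Lv] [Algebra K Lv] [IsScalarTower K Kv Lv] [CharZero Lv]

omit [CharZero Kv] [CharZero Lv] in
theorem s7b_pm {m : K} {θ' : Lv} (hθ' : θ' ^ 2 = algebraMap K Lv m) (γ : Lv ≃ₐ[Kv] Lv)
    (hγ : γ θ' ≠ θ') : γ θ' = -θ' := by
  have h1 : (γ θ') ^ 2 = θ' ^ 2 := by
    rw [← map_pow, hθ']
    exact tau_comm K Kv Lv γ m
  rcases sq_eq_sq_iff_eq_or_eq_neg.1 h1 with h2 | h2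
  · exact absurd h2 hγ
  · exact h2

omit [CharZero Kv] [CharZero Lv] in
theorem s7b_x {d : K} {θ' : Lv} {x y : Lv}
    (h : (W (algebraMap K Lv d)).toAffine.Nonsingular x y)
    (h1 : ∀ γ : Lv ≃ₐ[Kv] Lv, γ θ' = θ' → ptW (γ : Lv →+* Lv) (tau_comm K Kv Lv γ d)
      (.some x y h) = .some x y h)
    (h1' : ∀ γ : Lv ≃ₐ[Kv] Lv, γ θ' ≠ θ' → ptW (γ : Lv →+* Lv) (tau_comm K Kv Lv γ d)
      (.some x y h) = -.some x y h) :
    (∀ γ : Lv ≃ₐ[Kv] Lv, γ x = x) ∧ (∀ γ : Lv ≃ₐ[Kv] Lv, γ θ' = θ' → γ y = y) ∧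
      ∀ γ : Lv ≃ₐ[Kv] Lv, γ θ' ≠ θ' → γ y = -y := by
  have hA : ∀ γ : Lv ≃ₐ[Kv] Lv, γ θ' = θ' → γ x = x ∧ γ y = y := by
    intro γ hγ
    have h2 := h1 γ hγ
    simp only [ptW] at h2
    rw [WeierstrassCurve.Affine.Point.some.injEq] at h2
    exact h2
  have hB : ∀ γ : Lv ≃ₐ[Kv] Lv, γ θ' ≠ θ' → γ x = x ∧ γ y = -y := by
    intro γ hγ
    have h2 := h1' γ hγ
    obtain ⟨h3, h4⟩ := s7b_negY h
    rw [h4] at h2
    simp only [ptW] at h2
    rw [WeierstrassCurve.Affine.Point.some.injEq] at h2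
    exact h2
  refine ⟨?_, fun γ hγ => (hA γ hγ).2, fun γ hγ => (hB γ hγ).2⟩
  intro γ
  by_cases hγ : γ θ' = θ'
  · exact (hA γ hγ).1
  · exact (hB γ hγ).1

omit [CharZero Kv] in
theorem s7b_A {d m j : K} (hd : d ≠ 0) (hm : m ≠ 0) (hj : j ^ 2 = -1) {θ' : Lv}
    [IsGalois Kv Lv]
    (hθ' : θ' ^ 2 = algebraMap K Lv m) {x y : Lv}
    (h : (W (algebraMap K Lv d)).toAffine.Nonsingular x y)
    (h1 : ∀ γ : Lv ≃ₐ[Kv] Lv, γ θ' = θ' → ptW (γ : Lv →+* Lv) (tau_comm K Kv Lv γ d)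
      (.some x y h) = .some x y h)
    (h1' : ∀ γ : Lv ≃ₐ[Kv] Lv, γ θ' ≠ θ' → ptW (γ : Lv →+* Lv) (tau_comm K Kv Lv γ d)
      (.some x y h) = -.some x y h)
    {x0 u0 : Kv} (hx0 : algebraMap Kv Lv x0 = x) (hx : x ≠ 0)
    (hu : 1 - algebraMap K Kv d / x0 ^ 2 = u0 * u0) (hu0 : u0 ≠ 0) :
    ∃ R : (W (algebraMap K Lv d)).toAffine.Point,
      (∀ γ : Lv ≃ₐ[Kv] Lv, γ θ' = θ' →
        ptW (γ : Lv →+* Lv) (tau_comm K Kv Lv γ d) R = R) ∧
      (∀ γ : Lv ≃ₐ[Kv] Lv, γ θ' ≠ θ' →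
        ptW (γ : Lv →+* Lv) (tau_comm K Kv Lv γ d) R - R =
          phi (am_j (L := Lv) hj) (.some x y h)) := by
  obtain ⟨hγx, hγy, hγy'⟩ := s7b_x h h1 h1'
  have hD : algebraMap K Lv d ≠ 0 := (map_ne_zero _).2 hd
  have hM : algebraMap K Lv m ≠ 0 := (map_ne_zero _).2 hm
  have hθ0 : θ' ≠ 0 := by
    rintro rfl
    apply hM
    rw [← hθ']
    ring
  have heq := (W_nonsingular hD x y).1 h
  set U : Lv := algebraMap Kv Lv u0 with hU
  have hU0 : U ≠ 0 := (map_ne_zero _).2 hu0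
  have hUsq : 1 - algebraMap K Lv d / x ^ 2 = U ^ 2 := by
    have h2 := congrArg (algebraMap Kv Lv) hu
    rw [map_sub, map_div₀, map_pow, map_mul, map_one, hx0,
      ← IsScalarTower.algebraMap_apply K Kv Lv] at h2
    rw [h2, pow_two]
  have hUx : U ^ 2 * x ^ 2 = x ^ 2 - algebraMap K Lv d := by
    rw [← hUsq]
    field_simp
  -- the element s
  have hsx : x = (y / (x * U)) ^ 2 := by
    rw [div_pow, eq_div_iff (pow_ne_zero 2 (mul_ne_zero hx hU0)), heq]
    linear_combination x * hUx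
  have hs0 : y / (x * U) ≠ 0 := by
    intro h0
    rw [h0] at hsx
    exact hx (by rw [hsx]; ring)
  have hy0 : y ≠ 0 := by
    rintro rfl
    exact hs0 (zero_div _)
  have hys : y / (y / (x * U)) = x * U := by
    field_simp
  obtain ⟨R, hR⟩ := s7b_R (am_j (L := Lv) hj) hD h hsx hs0
  have hgU : ∀ γ : Lv ≃ₐ[Kv] Lv, γ U = U := fun γ => γ.commutes u0
  have hgxU : ∀ γ : Lv ≃ₐ[Kv] Lv, γ (y / (y / (x * U))) = y / (y / (x * U)) := by
    intro γ
    rw [hys, map_mul, hγx, hgU]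
  refine ⟨R, ?_, ?_⟩
  · intro γ hγ
    refine (hR (γ : Lv →+* Lv) (tau_comm K Kv Lv γ d) (tau_comm K Kv Lv γ j) (hγx γ)
      (hgxU γ)).1 ?_
    show γ (y / (x * U)) = y / (x * U)
    rw [map_div₀, map_mul, hγx, hgU, hγy γ hγ]
  · intro γ hγ
    refine (hR (γ : Lv →+* Lv) (tau_comm K Kv Lv γ d) (tau_comm K Kv Lv γ j) (hγx γ)
      (hgxU γ)).2 ?_
    show γ (y / (x * U)) = -(y / (x * U))
    rw [map_div₀, map_mul, hγx, hgU, hγy' γ hγ]
    ring

/-- the abstract form -/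
theorem s7b_main {d m j : K} (hd : d ≠ 0) (hm : m ≠ 0) (hj : j ^ 2 = -1) {θ' : Lv}
    [IsGalois Kv Lv]
    (hθ' : θ' ^ 2 = algebraMap K Lv m)
    (hsq : ∀ x y : Kv, x ≠ 0 →
      y ^ 2 * algebraMap K Kv m = x ^ 3 - algebraMap K Kv d * x →
      (∃ u : Kv, u ≠ 0 ∧ 1 - algebraMap K Kv d / x ^ 2 = u * u) ∨
      (∃ u : Kv, u ≠ 0 ∧ 1 - x ^ 2 / algebraMap K Kv d = u * u))
    (P : (W (algebraMap K Lv d)).toAffine.Point)
    (h1 : ∀ γ : Lv ≃ₐ[Kv] Lv, γ θ' = θ' → ptW (γ : Lv →+* Lv) (tau_comm K Kv Lv γ d) P = P)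
    (h1' : ∀ γ : Lv ≃ₐ[Kv] Lv, γ θ' ≠ θ' →
      ptW (γ : Lv →+* Lv) (tau_comm K Kv Lv γ d) P = -P) :
    ∃ R : (W (algebraMap K Lv d)).toAffine.Point,
      (∀ γ : Lv ≃ₐ[Kv] Lv, γ θ' = θ' →
        ptW (γ : Lv →+* Lv) (tau_comm K Kv Lv γ d) R = R) ∧
      (∀ γ : Lv ≃ₐ[Kv] Lv, γ θ' ≠ θ' →
        ptW (γ : Lv →+* Lv) (tau_comm K Kv Lv γ d) R - R =
          phi (am_j (L := Lv) hj) P) := by
  by_cases hall : ∀ γ : Lv ≃ₐ[Kv] Lv, γ θ' = θ'
  · exact ⟨P, h1, fun γ hγ => absurd (hall γ) hγ⟩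
  have hD : algebraMap K Lv d ≠ 0 := (map_ne_zero _).2 hd
  have hDv : algebraMap K Kv d ≠ 0 := (map_ne_zero _).2 hd
  have hM : algebraMap K Lv m ≠ 0 := (map_ne_zero _).2 hm
  have hMv : algebraMap K Kv m ≠ 0 := (map_ne_zero _).2 hm
  have hθ0 : θ' ≠ 0 := by
    rintro rfl
    apply hM
    rw [← hθ']
    ring
  have hzero : phi (am_j (L := Lv) hj) P = 0 →
      ∃ R : (W (algebraMap K Lv d)).toAffine.Point,
      (∀ γ : Lv ≃ₐ[Kv] Lv, γ θ' = θ' →
        ptW (γ : Lv →+* Lv) (tau_comm K Kv Lv γ d) R = R) ∧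
      (∀ γ : Lv ≃ₐ[Kv] Lv, γ θ' ≠ θ' →
        ptW (γ : Lv →+* Lv) (tau_comm K Kv Lv γ d) R - R =
          phi (am_j (L := Lv) hj) P) := by
    intro h0
    refine ⟨0, fun γ _ => ptW_zero _ _, fun γ _ => ?_⟩
    rw [ptW_zero, sub_zero, h0]
  cases P with
  | zero => exact hzero (phi_zero _)
  | some x y h =>
    by_cases hx : x = 0
    · apply hzero
      rw [phi_eq_zero _ hD]
      exact hx
    obtain ⟨hγx, hγy, hγy'⟩ := s7b_x h h1 h1'
    obtain ⟨x0, hx0⟩ := (InfiniteGalois.mem_range_algebraMap_iff_fixed (k := Kv) x).2 hγx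
    have hyθ : ∀ γ : Lv ≃ₐ[Kv] Lv, γ (y * θ') = y * θ' := by
      intro γ
      by_cases hγ : γ θ' = θ'
      · rw [map_mul, hγy γ hγ, hγ]
      · rw [map_mul, hγy' γ hγ, s7b_pm hθ' γ hγ]
        ring
    obtain ⟨w0, hw0⟩ := (InfiniteGalois.mem_range_algebraMap_iff_fixed (k := Kv) (y * θ')).2 hyθ
    have hx00 : x0 ≠ 0 := by
      rintro rfl
      apply hx
      rw [← hx0, map_zero]
    have heq := (W_nonsingular hD x y).1 h
    have heq0 : (w0 / algebraMap K Kv m) ^ 2 * algebraMap K Kv m =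
        x0 ^ 3 - algebraMap K Kv d * x0 := by
      apply (algebraMap Kv Lv).injective
      rw [map_mul, map_pow, map_div₀, map_sub, map_mul, map_pow, hw0, hx0,
        ← IsScalarTower.algebraMap_apply K Kv Lv, ← IsScalarTower.algebraMap_apply K Kv Lv,
        ← heq, ← hθ']
      field_simp
    rcases hsq x0 _ hx00 heq0 with ⟨u, hu0, hu⟩ | ⟨u, hu0, hu⟩
    · exact s7b_A hd hm hj hθ' h h1 h1' hx0 hx hu hu0
    · obtain ⟨X, Y, h', hXY, hX⟩ := add_T0 hD h hx
      have hT0 : ∀ γ : Lv ≃ₐ[Kv] Lv, ptW (γ : Lv →+* Lv) (tau_comm K Kv Lv γ d) (T0 hD) =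
          T0 hD := by
        intro γ
        unfold T0
        simp only [ptW]
        rw [WeierstrassCurve.Affine.Point.some.injEq]
        exact ⟨map_zero _, map_zero _⟩
      have hT0n : -(T0 hD) = T0 hD := by
        unfold T0
        obtain ⟨h3, h4⟩ := s7b_negY ((W_nonsingular hD 0 0).2 (by ring))
        rw [h4, WeierstrassCurve.Affine.Point.some.injEq]
        exact ⟨rfl, neg_zero⟩
      have g1 : ∀ γ : Lv ≃ₐ[Kv] Lv, γ θ' = θ' →
          ptW (γ : Lv →+* Lv) (tau_comm K Kv Lv γ d) (.some X Y h') = .some X Y h' := by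
        intro γ hγ
        rw [← hXY, ptW_add, h1 γ hγ, hT0]
      have g1' : ∀ γ : Lv ≃ₐ[Kv] Lv, γ θ' ≠ θ' →
          ptW (γ : Lv →+* Lv) (tau_comm K Kv Lv γ d) (.some X Y h') = -.some X Y h' := by
        intro γ hγ
        rw [← hXY, ptW_add, h1' γ hγ, hT0, neg_add, hT0n]
      have hXx : algebraMap Kv Lv (-(algebraMap K Kv d / x0)) = X := by
        rw [hX, map_neg, map_div₀, hx0, ← IsScalarTower.algebraMap_apply K Kv Lv]
      have hX0 : X ≠ 0 := by
        rw [hX]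
        exact neg_ne_zero.2 (div_ne_zero hD hx)
      have hu' : 1 - algebraMap K Kv d / (-(algebraMap K Kv d / x0)) ^ 2 = u * u := by
        rw [← hu]
        field_simp
      obtain ⟨R, hR1, hR2⟩ := s7b_A hd hm hj hθ' h' g1 g1' hXx hX0 hu' hu0
      refine ⟨R, hR1, fun γ hγ => ?_⟩
      rw [hR2 γ hγ, ← hXY, phi_add]
      have hphiT : phi (am_j (L := Lv) hj) (T0 hD) = 0 := by
        rw [phi_eq_zero _ hD]
        rfl
      rw [hphiT, add_zero]

end

/-- [S7e] the local computation. `θ'² = m`, `P = (x, y)` with `x ∈ Kv`, `y ∈ Kv θ'`.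

PROOF. If no `γ` moves `θ'`, take `R = P`. Let `γ₀` move `θ'`; `γ θ' = ± θ'` for all `γ`. If `P = O`: `R = O`. `P = (x, y)`: `x` is fixed by all `γ`, `y θ'` is fixed by all `γ`
(`γ y = ± y` with the sign of `γ` on `θ'`), so `x = x₀ ∈ Kv`, `y = y₀ θ'` with `y₀ ∈ Kv` (`InfiniteGalois.mem_range_algebraMap_iff_fixed`), and `y₀² m = x₀³ - d x₀`.
If `x = 0`: `phi P = O` (`phi_eq_zero`), `R = O`. Else `v(x₀)² ≠ v(d)` by `hv`. If `v(x₀)² < v(d)` replace `P` by `P + (0,0) = (-d/x, ..)` (`add_T0`; `phi (P + T0) = phi P`, and `P + T0`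
satisfies the same hypotheses, as `-T0 = T0`), then `v(d/x₀)² > v(d)`. So assume `v(d / x₀²) < 1`: `1 - d/x₀² = u₀²` with `u₀ ∈ Kv` (`PID.sq_of_one v h2`), `v(u₀) = 1`.
`s = y / (x u₀)`: `s² = y² / (x² u₀²) = (x³ - d x) / (x² - d) = x`, `s ≠ 0`, `s ∈ Kv θ'`. The point `P1 = (x1, (1+j) s x1)` with `x1 = j x + j y / s = j x (1 + u₀)`
satisfies `phi P1 = P` (this is the point of `half`, QT/D3; redo its computation or use `phi_some`), `γ P1 = P1` for `γ θ' = θ'`, `γ P1 = - P1` otherwise (`x1 ∈ Kv`, `s x1 ∈ Kv θ'`).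
`phi P = phi (phi P1) = 2 • imP P1` (`phi_phi`). `R = - imP P1`: `γ R = R`, resp. `γ R = - R` (`imP_ptW`), `γ R - R = 2 imP P1`. -/
theorem local_phi {K : Type} [Field K] [NumberField K] {d m j : K} (hd : d ≠ 0) (hm : m ≠ 0) (hj : j ^ 2 = -1)
    (v : HeightOneSpectrum (𝓞 K)) (h2 : v.valuation K 2 = 1)
    (hv : ∀ x y : v.adicCompletion K, x ≠ 0 →
      y ^ 2 * algebraMap K (v.adicCompletion K) m = x ^ 3 - algebraMap K (v.adicCompletion K) d * x →
      (Valued.v x) ^ 2 ≠ Valued.v (algebraMap K (v.adicCompletion K) d))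
    {θ' : AlgebraicClosure (v.adicCompletion K)}
    (hθ' : θ' ^ 2 = algebraMap K (AlgebraicClosure (v.adicCompletion K)) m)
    [CharZero (AlgebraicClosure (v.adicCompletion K))]
    (P : (W (algebraMap K (AlgebraicClosure (v.adicCompletion K)) d)).toAffine.Point)
    (h1 : ∀ γ : AlgebraicClosure (v.adicCompletion K) ≃ₐ[v.adicCompletion K] AlgebraicClosure (v.adicCompletion K),
      γ θ' = θ' → ptW (γ : AlgebraicClosure (v.adicCompletion K) →+* AlgebraicClosure (v.adicCompletion K))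
        (tau_comm K (v.adicCompletion K) _ γ d) P = P)
    (h1' : ∀ γ : AlgebraicClosure (v.adicCompletion K) ≃ₐ[v.adicCompletion K] AlgebraicClosure (v.adicCompletion K),
      γ θ' ≠ θ' → ptW (γ : AlgebraicClosure (v.adicCompletion K) →+* AlgebraicClosure (v.adicCompletion K))
        (tau_comm K (v.adicCompletion K) _ γ d) P = -P) :
    ∃ R : (W (algebraMap K (AlgebraicClosure (v.adicCompletion K)) d)).toAffine.Point,
      (∀ γ : AlgebraicClosure (v.adicCompletion K) ≃ₐ[v.adicCompletion K] AlgebraicClosure (v.adicCompletion K),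
        γ θ' = θ' → ptW (γ : AlgebraicClosure (v.adicCompletion K) →+* AlgebraicClosure (v.adicCompletion K))
          (tau_comm K (v.adicCompletion K) _ γ d) R = R) ∧
      (∀ γ : AlgebraicClosure (v.adicCompletion K) ≃ₐ[v.adicCompletion K] AlgebraicClosure (v.adicCompletion K),
        γ θ' ≠ θ' → ptW (γ : AlgebraicClosure (v.adicCompletion K) →+* AlgebraicClosure (v.adicCompletion K))
          (tau_comm K (v.adicCompletion K) _ γ d) R - R =
            phi (am_j (L := AlgebraicClosure (v.adicCompletion K)) hj) P) := by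
  haveI : CharZero (v.adicCompletion K) :=
    charZero_of_injective_algebraMap (algebraMap K (v.adicCompletion K)).injective
  refine s7b_main hd hm hj hθ' ?_ P h1 h1'
  intro x y hx hxy
  have hne := hv x y hx hxy
  have hD0 : algebraMap K (v.adicCompletion K) d ≠ 0 := (map_ne_zero _).2 hd
  have hwD0 : Valued.v (algebraMap K (v.adicCompletion K) d) ≠ (0 : WithZero (Multiplicative ℤ)) :=
    (Valuation.ne_zero_iff _).2 hD0
  have hwx2 : Valued.v (x ^ 2) ≠ (0 : WithZero (Multiplicative ℤ)) :=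
    (Valuation.ne_zero_iff _).2 (pow_ne_zero 2 hx)
  have une : ∀ u : v.adicCompletion K, Valued.v (u - 1) < (1 : WithZero (Multiplicative ℤ)) →
      u ≠ 0 := by
    rintro u hu rfl
    rw [zero_sub, Valuation.map_neg, map_one] at hu
    exact lt_irrefl _ hu
  rw [← map_pow] at hne
  rcases lt_or_gt_of_ne hne with hlt | hgt
  · right
    have hu : Valued.v ((1 - x ^ 2 / algebraMap K (v.adicCompletion K) d) - 1) <
        (1 : WithZero (Multiplicative ℤ)) := by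
      rw [show (1 - x ^ 2 / algebraMap K (v.adicCompletion K) d) - 1 =
        -(x ^ 2 / algebraMap K (v.adicCompletion K) d) by ring, Valuation.map_neg, map_div₀]
      exact (div_lt_one₀ (zero_lt_iff.2 hwD0)).2 hlt
    obtain ⟨u, hu2⟩ := PID.sq_of_one v h2 _ hu
    refine ⟨u, ?_, hu2⟩
    rintro rfl
    exact une _ hu (by rw [hu2, mul_zero])
  · left
    have hu : Valued.v ((1 - algebraMap K (v.adicCompletion K) d / x ^ 2) - 1) <
        (1 : WithZero (Multiplicative ℤ)) := by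
      rw [show (1 - algebraMap K (v.adicCompletion K) d / x ^ 2) - 1 =
        -(algebraMap K (v.adicCompletion K) d / x ^ 2) by ring, Valuation.map_neg, map_div₀]
      exact (div_lt_one₀ (zero_lt_iff.2 hwx2)).2 hgt
    obtain ⟨u, hu2⟩ := PID.sq_of_one v h2 _ hu
    refine ⟨u, ?_, hu2⟩
    rintro rfl
    exact une _ hu (by rw [hu2, mul_zero])

end QTB
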