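import Pool.Agent.QTB.S13a
import Pool.Agent.QTB.S7b
import Pool.Agent.QTB.S8c
import Pool.Agent.QTB.S11c
import Pool.Agent.QTB.S12c

/-!
# [QTB-S13b] the trichotomy of the places
-/

set_option autoImplicit false

open NumberField IsDedekindDomain
open scoped Classical

namespace QTB

open QT (W)
open QTD
open TU (QS)

/-- the three types of places for the descent -/
def Tri {K F : Type} [Field K] [NumberField K] [Field F] [NumberField F] [Algebra K F] (Q : QS K F) (d : K)
    (v : HeightOneSpectrum (𝓞 K)) : Prop :=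
  (v.valuation K 2 = 1 ∧ v.valuation K d = 1 ∧ ∀ P : HeightOneSpectrum (𝓞 F), v.asIdeal = P.asIdeal.under (𝓞 K) →
      ∀ x : K, P.valuation F (algebraMap K F x) = v.valuation K x) ∨
    IsSquare (algebraMap K (v.adicCompletion K) Q.e) ∨
    (v.valuation K 2 = 1 ∧ ∀ x y : v.adicCompletion K, x ≠ 0 →
      y ^ 2 * algebraMap K (v.adicCompletion K) Q.e = x ^ 3 - algebraMap K (v.adicCompletion K) d * x →
      (Valued.v x) ^ 2 ≠ Valued.v (algebraMap K (v.adicCompletion K) d))

section

variable {K F : Type} [Field K] [NumberField K] [Field F] [NumberField F] [Algebra K F] (Q : QS K F) {d j : K}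

/-- [S13c] the trichotomy gives `LocB` over all `K_v`. PROOF. (i) `hA` at a place `w` over `v` (`exists_above`): `c` has even valuation at `w` (`val_b_sq`, D11, or `locB_good`), so at `v`; `locB_good`.
(ii) `exists_split_hom`, `locB_tower`, `locB_map`. (iii) `locB_of_LT1` for `z = phi ∘ y`, `phi_loc` (S7d) with `local_phi` (S7e) (`ι = IsAlgClosed.lift`). -/
theorem locB_all {L : Type} [Field L] [Algebra F L] [IsAlgClosure F L] [Algebra K L] [IsScalarTower K F L] [IsAlgClosure K L]
    [CharZero L] (hd : d ≠ 0) (hj : j ^ 2 = -1) {c : K} (hc : c ≠ 0) {s : L}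
    (hs : s ^ 2 = algebraMap K L c) (hA : InA K F d c) (htri : ∀ v, Tri Q d v)
    {X y : (L ≃ₐ[K] L) → (W (algebraMap K L d)).toAffine.Point} (hy : Coc K L d y)
    (hyX : ∀ σ : L ≃ₐ[K] L, σ (th Q L) = th Q L → y σ = X σ)
    (hloc : ∀ v : HeightOneSpectrum (𝓞 K),
      RLoc (th Q L) X (v.adicCompletion K) (AlgebraicClosure (v.adicCompletion K)))
    {R : (W (algebraMap K L d)).toAffine.Point}
    (hR : ∀ σ : L ≃ₐ[K] L, phi (am_j (L := L) hj) (y σ) = kap hd s σ + (ptW (σ : L →+* L) (gal_comm σ d) R - R)) (v : HeightOneSpectrum (𝓞 K)) :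
    LocB d c (v.adicCompletion K) := by
  have hinj : Function.Injective (algebraMap K F) := (algebraMap K F).injective
  have hdF : algebraMap K F d ≠ 0 := (map_ne_zero (algebraMap K F)).2 hd
  have hcF : algebraMap K F c ≠ 0 := (map_ne_zero (algebraMap K F)).2 hc
  obtain ⟨w, hw⟩ := exists_above (F := F) v
  rcases htri v with ⟨h2, hdv, hram⟩ | hspl | ⟨h2, hv⟩
  · have hval := hram w hw
    have h2F : w.valuation F 2 = 1 := by
      have h3 := hval 2
      rwa [map_ofNat, h2] at h3
    have hdF1 : w.valuation F (algebraMap K F d) = 1 := by rw [hval, hdv]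
    obtain ⟨g, hg⟩ := (locB_good w hdF hcF h2F hdF1).1 (hA w)
    rw [hval] at hg
    exact (locB_good v hd hc h2 hdv).2 ⟨g, hg⟩
  · obtain ⟨ψ, hψ⟩ := exists_split_hom Q v w hw hspl
    let _ : Algebra K (w.adicCompletion F) :=
      ((algebraMap F (w.adicCompletion F)).comp (algebraMap K F)).toAlgebra
    have : IsScalarTower K F (w.adicCompletion F) := IsScalarTower.of_algebraMap_eq fun _ => rfl
    have h1 : LocB d c (w.adicCompletion F) := locB_tower.1 (hA w)
    exact locB_map ψ (fun x => hψ x) h1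
  · have : IsAlgClosed (AlgebraicClosure (v.adicCompletion K)) := inferInstance
    have : Algebra.IsAlgebraic K L := IsAlgClosure.isAlgebraic
    have : CharZero (AlgebraicClosure (v.adicCompletion K)) :=
      charZero_of_injective_algebraMap
        (algebraMap K (AlgebraicClosure (v.adicCompletion K))).injective
    let ι : L →ₐ[K] AlgebraicClosure (v.adicCompletion K) := IsAlgClosed.lift
    have hθ : th Q L ^ 2 = algebraMap K L Q.e := th_sq Q
    have hθ' : (ι (th Q L)) ^ 2 = algebraMap K (AlgebraicClosure (v.adicCompletion K)) Q.e := by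
      rw [← map_pow, hθ, ι.commutes]
    have h1 := phi_loc hj Q.e_ne hθ hy hyX (hloc v) ι
      (fun P hP hP' => local_phi hd Q.e_ne hj v h2 hv hθ' P hP hP')
    exact locB_of_LT1 hd hj hc hs hR ι h1

end

end QTB
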