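import Pool.Agent.QTB.S0

/-!
# [QTB-S1b] principal cocycles and index 2
-/

set_option autoImplicit false

open scoped Classical

namespace QTB

section

variable {G A : Type} [Group G] [AddCommGroup A] {ρ : G → A →+ A} {H : G → Prop} {τ : G}

theorem s1b_inv (hH : Idx2 H τ) : ¬ H τ⁻¹ := by
  intro h
  have h1 := hH.mul τ τ⁻¹
  rw [mul_inv_cancel] at h1
  exact hH.tau ((h1.1 hH.one).2 h)

theorem s1b_tg (hH : Idx2 H τ) {g : G} (hg : ¬ H g) : H (τ⁻¹ * g) :=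
  (hH.mul τ⁻¹ g).2 ⟨fun h => absurd h (s1b_inv hH), fun h => absurd h hg⟩

theorem s1b_gt (hH : Idx2 H τ) {g : G} (hg : ¬ H g) : H (g * τ) :=
  (hH.mul g τ).2 ⟨fun h => absurd h hg, fun h => absurd h hH.tau⟩

theorem s1b_gt' (hH : Idx2 H τ) {g : G} (hg : H g) : ¬ H (g * τ) := fun h =>
  hH.tau (((hH.mul g τ).1 h).1 hg)

theorem s1b_tgt (hH : Idx2 H τ) {g : G} (hg : H g) : H (τ⁻¹ * g * τ) := by
  rw [mul_assoc]
  exact s1b_tg hH (s1b_gt' hH hg)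

/-! ### [S1c] corestriction of a principal cocycle

PROOF. `H g`: `n • (X g - τ X (τ⁻¹ g τ)) = (g P0 - P0) - τ (τ⁻¹ g τ P0 - P0) = g (P0 - τ P0) - (P0 - τ P0)`. `¬ H g`:
`n • (X (g τ) - τ X (τ⁻¹ g)) = (g τ P0 - P0) - τ (τ⁻¹ g P0 - P0) = - g (P0 - τ P0) - (P0 - τ P0)`. -/
theorem eta_cob (hρ : IsAct ρ) (hH : Idx2 H τ) {X : G → A} {n : ℕ} {P0 : A}
    (hP0 : ∀ g, H g → n • X g = ρ g P0 - P0) (g : G) :
    n • eta ρ H τ X g = sg H g (ρ g (P0 - ρ τ P0)) - (P0 - ρ τ P0) := by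
  unfold eta sg
  by_cases hg : H g
  · rw [if_pos hg, if_pos hg, smul_sub, hP0 g hg, ← map_nsmul, hP0 _ (s1b_tgt hH hg), map_sub,
      ← hρ.mul, mul_assoc τ⁻¹ g τ, mul_inv_cancel_left, hρ.mul, map_sub]
    abel
  · rw [if_neg hg, if_neg hg, smul_sub, hP0 _ (s1b_gt hH hg), ← map_nsmul,
      hP0 _ (s1b_tg hH hg), map_sub, ← hρ.mul, mul_inv_cancel_left, hρ.mul, map_sub]
    abel

/-! ### [S1d] a cocycle of `G` which vanishes on `H`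

PROOF. `P1 = Y τ`. For `¬ H g`: `g = τ (τ⁻¹ g)`, `H (τ⁻¹ g)`, so `Y g = Y τ + τ 0 = P1`. For `H g`: `¬ H (g τ)`, so `P1 = Y (g τ) = Y g + g (Y τ) = g P1`.
`0 = Y (τ τ) = P1 + τ P1`. For `¬ H g`: `g = τ (τ⁻¹ g)`: `g P1 = τ P1 = - P1`. -/
theorem vanish (hρ : IsAct ρ) (hH : Idx2 H τ) {Y : G → A}
    (hY : ∀ g h, Y (g * h) = Y g + ρ g (Y h)) (h0 : ∀ g, H g → Y g = 0) :
    ∃ P1 : A, (∀ g, H g → ρ g P1 = P1) ∧ (∀ g, ¬ H g → ρ g P1 = -P1) ∧ ∀ g, ¬ H g → Y g = P1 := by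
  have h2 : ∀ g, ¬ H g → Y g = Y τ := by
    intro g hg
    have h1 := hY τ (τ⁻¹ * g)
    rw [mul_inv_cancel_left, h0 _ (s1b_tg hH hg), map_zero, add_zero] at h1
    exact h1
  have h3 : ∀ g, H g → ρ g (Y τ) = Y τ := by
    intro g hg
    have h1 := hY g τ
    rw [h0 g hg, zero_add, h2 _ (s1b_gt' hH hg)] at h1
    exact h1.symm
  have h4 : ρ τ (Y τ) = - Y τ := by
    have h1 := hY τ τ
    rw [h0 _ (s1b_gt hH hH.tau)] at h1
    rw [eq_neg_iff_add_eq_zero, add_comm]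
    exact h1.symm
  refine ⟨Y τ, h3, ?_, h2⟩
  intro g hg
  have h5 : ρ g (Y τ) = ρ τ (ρ (τ⁻¹ * g) (Y τ)) := by
    rw [← hρ.mul, mul_inv_cancel_left]
  rw [h5, h3 _ (s1b_tg hH hg), h4]

/-! ### [S1e] twice a cocycle which is principal on `H` is principal

PROOF. `Y g - (g P0 - P0)` is crossed and vanishes on `H`: `vanish`, `P1`. `R = 2 P0 - P1`: for `H g`: `2 Y g = 2 (g P0 - P0)`; for `¬ H g`:
`2 Y g = 2 P1 + 2 (g P0 - P0)`, `g (- P1) - (- P1) = 2 P1`. -/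
theorem two_cob (hρ : IsAct ρ) (hH : Idx2 H τ) {Y : G → A}
    (hY : ∀ g h, Y (g * h) = Y g + ρ g (Y h)) {P0 : A} (h0 : ∀ g, H g → Y g = ρ g P0 - P0) :
    ∃ R : A, ∀ g, 2 • Y g = ρ g R - R := by
  obtain ⟨P1, h1, h2, h3⟩ := vanish (ρ := ρ) (Y := fun g => Y g - (ρ g P0 - P0)) hρ hH (by
    intro g h
    rw [hY, hρ.mul, map_sub, map_sub]
    abel) (by
    intro g hg
    rw [h0 g hg, sub_self])
  refine ⟨2 • P0 - P1, fun g => ?_⟩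
  by_cases hg : H g
  · rw [h0 g hg, map_sub, map_nsmul, h1 g hg]
    abel
  · have h4 : Y g = P1 + (ρ g P0 - P0) := by
      have := h3 g hg
      rw [← this]
      abel
    rw [h4, map_sub, map_nsmul, h2 g hg]
    abel

end

end QTB
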