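import Pool.Agent.QTB.S5b
import Pool.Agent.QTB.S1b
import Pool.Agent.QTB.P1

/-!
# [QTB-S5c] the extension of a locally trivial relative cocycle
-/

set_option autoImplicit false

open NumberField IsDedekindDomain
open scoped Classical

namespace QTB

open QT (W)
open QTD

/-- [S5e] **the extension of a locally trivial relative cocycle.** PROOF. `τ` from `exists_tau`. `c = etaT hm hθ τ X`: `etaT_coc`, `etaT_loc` for all `v`; `eta_cob` (S1) and `scalP`
(`scal_sg`) give `2^k • c = ∂ (scalP (P0 - τ P0))`; `sha_powL` (P1) for `d m²`: `c = ∂ R`; `R = scalP P` (`scalP_surjective`), so `eta σ = sg σ (σ P) - P` (`scal_sg`,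
`scalP_injective`). `y = ext … P`: `ext_coc`. `y = X` on `H`. `2^k • y` is `∂ P0` on `H`, so `2^(k+1) • y` is principal (`two_cob`). -/
theorem exists_ext {K L : Type} [Field K] [NumberField K] [Field L] [Algebra K L] [IsAlgClosure K L] {d m j : K}
    (hd : d ≠ 0) (hj : j ^ 2 = -1) (hm : ¬ IsSquare m) {θ : L} (hθ : θ ^ 2 = algebraMap K L m)
    (hsel : SelTriv K (d * m ^ 2)) {X : (L ≃ₐ[K] L) → (W (algebraMap K L d)).toAffine.Point} (hX : RCoc d θ X)
    (hloc : ∀ v : HeightOneSpectrum (𝓞 K), RLoc θ X (v.adicCompletion K) (AlgebraicClosure (v.adicCompletion K)))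
    {k : ℕ} (htors : ∃ P0 : (W (algebraMap K L d)).toAffine.Point, ∀ σ : L ≃ₐ[K] L, σ θ = θ →
      2 ^ k • X σ = ptW (σ : L →+* L) (gal_comm σ d) P0 - P0) :
    ∃ y : (L ≃ₐ[K] L) → (W (algebraMap K L d)).toAffine.Point, Coc K L d y ∧ (∀ σ : L ≃ₐ[K] L, σ θ = θ → y σ = X σ) ∧
      ∃ (k' : ℕ) (P : (W (algebraMap K L d)).toAffine.Point), ∀ σ : L ≃ₐ[K] L,
        2 ^ k' • y σ = ptW (σ : L →+* L) (gal_comm σ d) P - P := by
  have hm0 : m ≠ 0 := by
    rintro rfl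
    exact hm ⟨0, (mul_zero 0).symm⟩
  obtain ⟨τ, hτ⟩ := exists_tau hm hθ
  obtain ⟨P0, hP0⟩ := htors
  have hH : Idx2 (HH (K := K) θ) τ := idx2 hm0 hθ hτ
  have hdm : d * m ^ 2 ≠ 0 := mul_ne_zero hd (pow_ne_zero 2 hm0)
  have hcoc : Coc K L (d * m ^ 2) (etaT hm0 hθ τ X) := etaT_coc hm0 hθ hτ hX
  have hlocT : ∀ v : HeightOneSpectrum (𝓞 K), LocTriv (etaT hm0 hθ τ X) (v.adicCompletion K)
      (AlgebraicClosure (v.adicCompletion K)) := fun v => etaT_loc hm0 hθ hτ hX (hloc v)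
  have h1 : ∀ g : L ≃ₐ[K] L, 2 ^ k • eta (actW d) (HH θ) τ X g =
      sg (HH θ) g (actW d g (P0 - actW d τ P0)) - (P0 - actW d τ P0) := fun g =>
    eta_cob (isAct d) hH (fun g hg => hP0 g hg) g
  have h2 : ∃ P : (W (algebraMap K L (d * m ^ 2))).toAffine.Point, ∀ σ : L ≃ₐ[K] L,
      2 ^ k • etaT hm0 hθ τ X σ = ptW (σ : L →+* L) (gal_comm σ (d * m ^ 2)) P - P := by
    refine ⟨scalP (theta_ne hm0 hθ) (four hθ) (P0 - actW d τ P0), fun σ => ?_⟩
    rw [scal_sg hm0 hθ σ]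
    unfold etaT
    rw [← scalHom_apply, ← scalHom_apply, ← scalHom_apply, ← map_nsmul, h1 σ, map_sub]
  obtain ⟨R, hR⟩ := sha_powL hdm hj hsel k _ hcoc hlocT h2
  obtain ⟨P, rfl⟩ := scalP_surjective (theta_ne hm0 hθ) (four hθ) R
  have hη : ∀ σ : L ≃ₐ[K] L, eta (actW d) (HH θ) τ X σ = sg (HH θ) σ (actW d σ P) - P := by
    intro σ
    apply scalP_injective (theta_ne hm0 hθ) (four hθ)
    have h3 := hR σ
    rw [scal_sg hm0 hθ σ] at h3
    unfold etaT at h3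
    rw [h3, ← scalHom_apply, ← scalHom_apply, ← scalHom_apply, map_sub]
  have hy : Coc K L d (ext (actW d) (HH θ) τ X P) := ext_coc hm0 hθ hτ hX hη
  refine ⟨ext (actW d) (HH θ) τ X P, hy, fun σ hσ => if_pos hσ, k + 1, ?_⟩
  obtain ⟨R', hR'⟩ := two_cob (Y := fun g => 2 ^ k • ext (actW d) (HH θ) τ X P g) (isAct d) hH
    (fun g h => by
      have h4 := hy.crossed g h
      change 2 ^ k • ext (actW d) (HH θ) τ X P (g * h) = 2 ^ k • ext (actW d) (HH θ) τ X P g +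
        actW d g (2 ^ k • ext (actW d) (HH θ) τ X P h)
      rw [h4, smul_add, map_nsmul]
      rfl) (P0 := P0)
    (fun g hg => by
      change 2 ^ k • ext (actW d) (HH θ) τ X P g = actW d g P0 - P0
      have h5 : ext (actW d) (HH θ) τ X P g = X g := if_pos hg
      rw [h5]
      exact hP0 g hg)
  refine ⟨R', fun σ => ?_⟩
  rw [pow_succ', mul_smul]
  exact hR' σ

end QTB
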