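import Pool.Agent.QTB.S7a
import Pool.Agent.QTB.P1

/-!
# [QTB-S7d] `phi y` comes from `K*`
-/

set_option autoImplicit false

open NumberField IsDedekindDomain
open scoped Classical

namespace QTB

open QT (W)
open QTD

/-! ### the global consequences -/

/-- a cocycle with values in the kernel of `phi` is a Kummer cocycle -/
private theorem s7d_kum {K L : Type} [Field K] [NumberField K] [Field L] [Algebra K L] [IsAlgClosure K L] [CharZero L] {d : K}
    (hd : d ≠ 0) {z : (L ≃ₐ[K] L) → (W (algebraMap K L d)).toAffine.Point} (hz : Coc K L d z)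
    (hK : ∀ σ, Ker (z σ)) :
    ∃ (c : K) (s : L), c ≠ 0 ∧ s ^ 2 = algebraMap K L c ∧ ∀ σ : L ≃ₐ[K] L, z σ = kap hd s σ := by
  obtain ⟨c, s, hc, hs, hσ⟩ := kummer hd z hz hK
  refine ⟨c, s, hc, hs, fun σ => ?_⟩
  have hdL : algebraMap K L d ≠ 0 := am_ne hd
  have hs0 : s ≠ 0 := by
    rintro rfl
    have h1 : algebraMap K L c = 0 := by
      rw [← hs]
      exact zero_pow two_ne_zero
    exact am_ne (L := L) hc h1
  unfold kap
  rcases sgn_cases (z σ) with ⟨h1, h2⟩ | ⟨h1, h2⟩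
  · have h3 : σ s = s := by rw [hσ σ, h2, one_mul]
    rw [if_pos h3, h1]
  · have h3 : σ s ≠ s := by
      intro h4
      rw [hσ σ, h2] at h4
      have h5 : (2 : L) * s = 0 := by linear_combination -h4
      rcases mul_eq_zero.1 h5 with h6 | h6
      · exact two_ne_zero h6
      · exact hs0 h6
    rw [if_neg h3]
    rcases (ker_iff hdL (z σ)).1 (hK σ) with h4 | h4
    · exact absurd h4 h1
    · rw [h4]

/-- a cocycle killed by `phi` comes from `K*` -/
private theorem s7d_aux {K L : Type} [Field K] [NumberField K] [Field L] [Algebra K L] [IsAlgClosure K L] [CharZero L] {d j : K}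
    (hd : d ≠ 0) (hj : j ^ 2 = -1) {y : (L ≃ₐ[K] L) → (W (algebraMap K L d)).toAffine.Point} (hy : Coc K L d y)
    {P : (W (algebraMap K L d)).toAffine.Point} (hP : ∀ σ : L ≃ₐ[K] L,
        phi (am_j (L := L) hj) (y σ) = ptW (σ : L →+* L) (gal_comm σ d) P - P) :
    ∃ (c : K) (s : L) (R : (W (algebraMap K L d)).toAffine.Point), c ≠ 0 ∧ s ^ 2 = algebraMap K L c ∧
      ∀ σ : L ≃ₐ[K] L, y σ = kap hd s σ + (ptW (σ : L →+* L) (gal_comm σ d) R - R) := by
  have : IsAlgClosed L := IsAlgClosure.isAlgClosed K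
  have : Algebra.IsAlgebraic K L := IsAlgClosure.isAlgebraic
  have hdL : algebraMap K L d ≠ 0 := am_ne hd
  obtain ⟨R, hR⟩ := phi_surj (am_j (L := L) hj) hdL P
  obtain ⟨c, s, hc, hs, hσ⟩ := s7d_kum hd (hy.sub R) (fun σ => by
    rw [← phi_eq_zero (am_j (L := L) hj) hdL, phi_sub (am_j (L := L) hj) (y σ), hP σ, phi_sub,
      phi_ptW (am_j (L := L) hj) (σ : L →+* L) (gal_comm σ d) (am_j (L := L) hj)
        (gal_comm σ j), hR, sub_self])
  refine ⟨c, s, R, hc, hs, fun σ => ?_⟩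
  rw [← hσ σ]
  abel

/-- [S7i] `phi y` comes from `K*`. PROOF. `2 y` is principal: `two_loc` for all `v`, `sha_powL` (P1) for `2 • y` with `2^k' • (2 • y) = ∂ (2 P)` (`Coc.nsmul`). So `phi (phi y) = 2 imP y = ∂ R0`
(`phi_phi`, `imP_nsmul`, `imP_ptW`), `R0 = phi R` (`phi_surj`), `phi y - ∂ R` has values in the kernel (`phi_eq_zero`, `Coc.phi`, `Coc.sub`), `kummer` (D6) gives `c`, `s`; the value at `σ` is
`O` if `σ s = s`, `(0, 0)` otherwise (`ker_iff`, `sgn`). -/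
theorem phi_kummer {K L : Type} [Field K] [NumberField K] [Field L] [Algebra K L] [IsAlgClosure K L] [CharZero L] {d m j : K}
    (hd : d ≠ 0) (hj : j ^ 2 = -1) (hm : m ≠ 0) {θ : L} (hθ : θ ^ 2 = algebraMap K L m)
    (hsel : SelTriv K d) {X y : (L ≃ₐ[K] L) → (W (algebraMap K L d)).toAffine.Point} (hy : Coc K L d y)
    (hyX : ∀ σ : L ≃ₐ[K] L, σ θ = θ → y σ = X σ)
    (hloc : ∀ v : HeightOneSpectrum (𝓞 K), RLoc θ X (v.adicCompletion K) (AlgebraicClosure (v.adicCompletion K)))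
    {k : ℕ} {P : (W (algebraMap K L d)).toAffine.Point} (htors : ∀ σ : L ≃ₐ[K] L,
        2 ^ k • y σ = ptW (σ : L →+* L) (gal_comm σ d) P - P) :
    ∃ (c : K) (s : L) (R : (W (algebraMap K L d)).toAffine.Point), c ≠ 0 ∧ s ^ 2 = algebraMap K L c ∧
      ∀ σ : L ≃ₐ[K] L, phi (am_j (L := L) hj) (y σ) =
        kap hd s σ + (ptW (σ : L →+* L) (gal_comm σ d) R - R) := by
  have : IsAlgClosed L := IsAlgClosure.isAlgClosed K
  have : Algebra.IsAlgebraic K L := IsAlgClosure.isAlgebraic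
  obtain ⟨R1, hR1⟩ := sha_powL hd hj hsel k (fun σ => 2 • y σ) (Coc.nsmul hy 2)
    (fun v => two_loc hm hθ hy hyX (hloc v)) ⟨2 • P, fun σ => by
      rw [smul_comm, htors σ, nsmul_sub, ptW_nsmul]⟩
  refine s7d_aux hd hj (y := fun σ => phi (am_j (L := L) hj) (y σ)) (hy.phi hj)
    (P := imP (am_j (L := L) hj) R1) (fun σ => ?_)
  rw [phi_phi, ← imP_nsmul, hR1 σ]
  have h1 : imP (am_j (L := L) hj) (ptW (σ : L →+* L) (gal_comm σ d) R1 - R1) =
      imP (am_j (L := L) hj) (ptW (σ : L →+* L) (gal_comm σ d) R1) -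
        imP (am_j (L := L) hj) R1 := map_sub (imHom (am_j (L := L) hj)) _ _
  rw [h1, imP_ptW (am_j (L := L) hj) (σ : L →+* L) (gal_comm σ d) (am_j (L := L) hj)
        (gal_comm σ j)]

/-- [S7j] a cocycle killed by `phi` comes from `K*`. PROOF. As in S7i. -/
theorem kummer_of_phi {K L : Type} [Field K] [NumberField K] [Field L] [Algebra K L] [IsAlgClosure K L] [CharZero L] {d j : K}
    (hd : d ≠ 0) (hj : j ^ 2 = -1) {y : (L ≃ₐ[K] L) → (W (algebraMap K L d)).toAffine.Point} (hy : Coc K L d y)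
    {P : (W (algebraMap K L d)).toAffine.Point} (hP : ∀ σ : L ≃ₐ[K] L,
        phi (am_j (L := L) hj) (y σ) = ptW (σ : L →+* L) (gal_comm σ d) P - P) :
    ∃ (c : K) (s : L) (R : (W (algebraMap K L d)).toAffine.Point), c ≠ 0 ∧ s ^ 2 = algebraMap K L c ∧
      ∀ σ : L ≃ₐ[K] L, y σ = kap hd s σ + (ptW (σ : L →+* L) (gal_comm σ d) R - R) := by
  exact s7d_aux hd hj hy hP

end QTB
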