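import Pool.Agent.QTB.S9a

/-!
# [QTB-S9b] relative cocycles from cocycles over `F`
-/

set_option autoImplicit false

open NumberField IsDedekindDomain
open scoped Classical

namespace QTB

open QT (W)
open QTD
open TU (QS)

section

variable {K F : Type} [Field K] [NumberField K] [Field F] [NumberField F] [Algebra K F]
  {L : Type} [Field L] [Algebra F L] [Algebra K L] [IsScalarTower K F L]

theorem s9b_cv_zero (d : K) : cv (F := F) (L := L) d 0 = 0 :=
  ptW_zero (RingHom.id L) (tow (F := F) d)

theorem s9b_cv_sub (d : K) (P P' : (W (algebraMap F L (algebraMap K F d))).toAffine.Point) :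
    cv d (P - P') = cv d P - cv d P' := by
  rw [sub_eq_add_neg, cv_add, cv_neg, ← sub_eq_add_neg]

theorem s9b_finite (M : IntermediateField F L) [FiniteDimensional F M] :
    FiniteDimensional K (M.restrictScalars K) := by
  have h1 : Module.Finite K F := Module.Finite.of_restrictScalars_finite ℚ K F
  have h2 : Module.Finite K M := Module.Finite.trans F M
  let f : M →ₗ[K] (M.restrictScalars K) :=
    { toFun := fun x => ⟨x.1, x.2⟩
      map_add' := fun _ _ => rfl
      map_smul' := fun _ _ => rfl }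
  have h3 : Function.Surjective f := fun y => ⟨⟨y.1, y.2⟩, rfl⟩
  exact Module.Finite.of_surjective f h3

/-- [S9f] PROOF. `crossed`: `fix_iff`, `exists_up`, `low_res`, `cv_add`, `cv_act`. `fin`: `d6_exists_M` (QT/D6) gives a finite extension `M` of `F` in `L` with `x = 0` on its fixing group;
`M.restrictScalars K` is finite over `K` (`F` is), contains `θ`; an automorphism fixing it fixes `F` and comes from one over `F` which fixes `M`. -/
theorem low_coc (Q : QS K F) {d : K} {x : (L ≃ₐ[F] L) → (W (algebraMap F L (algebraMap K F d))).toAffine.Point}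
    (hx : Coc F L (algebraMap K F d) x) : RCoc d (th Q L) (low F d x) := by
  refine ⟨?_, fun σ' τ' h1 h2 => ?_⟩
  · obtain ⟨M, hM, hfix⟩ := d6_exists_M hx
    have hθ : th Q L ∈ M.restrictScalars K := M.algebraMap_mem Q.s
    refine ⟨M.restrictScalars K, s9b_finite M, hθ, fun σ' hσ' => ?_⟩
    rw [IntermediateField.mem_fixingSubgroup_iff] at hσ'
    obtain ⟨σ, hσ⟩ := exists_up Q σ' (hσ' _ hθ)
    have h3 : σ ∈ M.fixingSubgroup := by
      rw [IntermediateField.mem_fixingSubgroup_iff]
      intro y hy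
      rw [← hσ y]
      exact hσ' y hy
    rw [low_res d x σ σ' hσ, hfix σ h3, s9b_cv_zero]
  · obtain ⟨σ, hσ⟩ := exists_up Q σ' h1
    obtain ⟨τ, hτ⟩ := exists_up Q τ' h2
    have h3 : ∀ y : L, (σ' * τ') y = (σ * τ) y := by
      intro y
      rw [AlgEquiv.mul_apply, AlgEquiv.mul_apply, hτ, hσ]
    rw [low_res d x σ σ' hσ, low_res d x τ τ' hτ, low_res d x (σ * τ) (σ' * τ') h3,
      hx.crossed σ τ, cv_add, cv_act d σ σ' hσ]

/-- [S9g] -/
theorem low_cob (Q : QS K F) {d : K} {x : (L ≃ₐ[F] L) → (W (algebraMap F L (algebraMap K F d))).toAffine.Point}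
    {n : ℕ} {P : (W (algebraMap F L (algebraMap K F d))).toAffine.Point}
    (h : ∀ σ : L ≃ₐ[F] L, n • x σ = ptW (σ : L →+* L) (gal_comm σ (algebraMap K F d)) P - P) (σ' : L ≃ₐ[K] L)
    (hσ : σ' (th Q L) = th Q L) :
    n • low F d x σ' = ptW (σ' : L →+* L) (gal_comm σ' d) (cv d P) - cv d P := by
  obtain ⟨σ, h1⟩ := exists_up Q σ' hσ
  rw [low_res d x σ σ' h1, ← cv_nsmul, h σ, s9b_cv_sub, cv_act d σ σ' h1]

end

/-- [S9i] PROOF. `AlgebraicClosure F` is algebraic over `F`, which is algebraic over `K`. -/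
theorem isAlgClosure_up (K F : Type) [Field K] [NumberField K] [Field F] [NumberField F] [Algebra K F] :
    IsAlgClosure K (AlgebraicClosure F) := by
  have h1 : Module.Finite K F := Module.Finite.of_restrictScalars_finite ℚ K F
  have h2 : Algebra.IsAlgebraic K F := Algebra.IsAlgebraic.of_finite K F
  have h3 : Algebra.IsAlgebraic K (AlgebraicClosure F) := Algebra.IsAlgebraic.trans K F _
  exact ⟨inferInstance, h3⟩

end QTB
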