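import Pool.Agent.QTB.S9a
import Pool.Agent.QTB.S8c
import Pool.Agent.MP_dfae13_nt.R.R4c

/-!
# [QTB-S9c] local triviality
-/

set_option autoImplicit false

open NumberField IsDedekindDomain
open scoped Classical

namespace QTB

open QT (W)
open QTD
open TU (QS)

section

variable {K F : Type} [Field K] [NumberField K] [Field F] [NumberField F] [Algebra K F]
  {L : Type} [Field L] [Algebra F L] [Algebra K L] [IsScalarTower K F L]

/-- the extension of a homomorphism to the algebraic closure -/
theorem s9c_lift {A B : Type} [Field A] [Field B] [IsAlgClosed B] (f : A →+* B) :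
    ∃ F' : AlgebraicClosure A →+* B, ∀ x, F' (algebraMap A (AlgebraicClosure A) x) = f x := by
  let _ : Algebra A B := f.toAlgebra
  let l : AlgebraicClosure A →ₐ[A] B := IsAlgClosed.lift
  exact ⟨(l : AlgebraicClosure A →+* B), fun x => l.commutes x⟩

/-- two extensions of a homomorphism to a normal extension differ by an automorphism -/
theorem s9c_normal {A E B : Type} [Field A] [Field E] [Field B] [Algebra A E] [Normal A E]
    (f : A →+* B) (a b : E →+* B) (ha : ∀ x, a (algebraMap A E x) = f x)
    (hb : ∀ x, b (algebraMap A E x) = f x) : ∃ g : E ≃ₐ[A] E, ∀ x, a (g x) = b x := by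
  let _ : Algebra A B := f.toAlgebra
  let a' : E →ₐ[A] B := { toRingHom := a, commutes' := ha }
  let b' : E →ₐ[A] B := { toRingHom := b, commutes' := hb }
  exact WR.r4c_normal a' b'

/-- [S9h] **local triviality.** PROOF. (Compare `TW.t8aC_trivialOver`, TW/T8a.lean.) Let `ι : L → Lv` over `K`, `ι0 = ι ∘ (F → L)`, `w`, `f` from `exists_place` (S8). `Lw = AlgebraicClosure F_w`.
1. `f` extends to `F' : Lw →+* Lv` (`IsAlgClosed.lift` for the `F_w`-algebra structure `f` on `Lv`).
2. There is an embedding `j : L → Lw` over `F` with `F' ∘ j = ι`: take any `j0 : L →ₐ[F] Lw` (`IsAlgClosed.lift`); `F' ∘ j0` and `ι` are two embeddings of `L` in `Lv` which agree on `F`; they differ by an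
automorphism of `L / F` (`WR.r4c_normal`, MP_dfae13_nt/R/R4c).
3. The hypothesis for `j` gives `Q0`; put `Q = F' (Q0)`, transported by `cv`. Let `τ ∈ Gal(Lv/Kv)`, `σ` with `ι σ = τ ι`, `σ θ = θ`. Then `τ` fixes `ι θ` and `K_v`, so it fixes `f (F_w)` (third property of
`exists_place`), so `τ` induces `τ' ∈ Gal(Lw/F_w)` with `F' τ' = τ F'` (`F'` and `τ F'` are embeddings of `Lw` which agree on `F_w`: `WR.r4c_normal` for `Lw / F_w`), and `σ` comes from `σ_F ∈ Gal(L/F)` (`exists_up`) with
`j σ_F = τ' j` (apply the injective `F'`). So `ι (low x σ) = F' (j (x σ_F)) = F' (τ' Q0 - Q0) = τ Q - Q`. -/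
theorem low_loc [IsAlgClosure F L] (Q : QS K F) {d : K}
    {x : (L ≃ₐ[F] L) → (W (algebraMap F L (algebraMap K F d))).toAffine.Point}
    (hloc : ∀ w : HeightOneSpectrum (𝓞 F),
      LocTriv x (w.adicCompletion F) (AlgebraicClosure (w.adicCompletion F)))
    (v : HeightOneSpectrum (𝓞 K)) :
    RLoc (th Q L) (low F d x) (v.adicCompletion K) (AlgebraicClosure (v.adicCompletion K)) := by
  intro ι
  have hKL : ∀ y : K, ι (algebraMap K L y) = algebraMap K (AlgebraicClosure (v.adicCompletion K)) y :=
    fun y => ι.commutes y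
  have hKv : ∀ y : K, algebraMap K (AlgebraicClosure (v.adicCompletion K)) y =
      algebraMap (v.adicCompletion K) (AlgebraicClosure (v.adicCompletion K))
        (algebraMap K (v.adicCompletion K) y) := fun y =>
    IsScalarTower.algebraMap_apply K (v.adicCompletion K) (AlgebraicClosure (v.adicCompletion K)) y
  let ι0 : F →+* AlgebraicClosure (v.adicCompletion K) :=
    (ι : L →+* AlgebraicClosure (v.adicCompletion K)).comp (algebraMap F L)
  have hι0' : ∀ y : F, ι0 y = ι (algebraMap F L y) := fun y => rfl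
  have hι0 : ∀ y : K, ι0 (algebraMap K F y) =
      algebraMap (v.adicCompletion K) (AlgebraicClosure (v.adicCompletion K))
        (algebraMap K (v.adicCompletion K) y) := by
    intro y
    rw [hι0', ← IsScalarTower.algebraMap_apply K F L, hKL, hKv]
  obtain ⟨w, f, -, hf1, hf2⟩ := exists_place Q v ι0 hι0
  obtain ⟨F', hF'⟩ := s9c_lift f
  have hFw : ∀ y : F, algebraMap F (AlgebraicClosure (w.adicCompletion F)) y =
      algebraMap (w.adicCompletion F) (AlgebraicClosure (w.adicCompletion F))
        (algebraMap F (w.adicCompletion F) y) := fun y =>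
    IsScalarTower.algebraMap_apply F (w.adicCompletion F) (AlgebraicClosure (w.adicCompletion F)) y
  have hF'F : ∀ y : F, F' (algebraMap F (AlgebraicClosure (w.adicCompletion F)) y) = ι0 y := by
    intro y
    rw [hFw, hF', hf1]
  obtain ⟨j, hj⟩ : ∃ j : L →ₐ[F] AlgebraicClosure (w.adicCompletion F), ∀ y, F' (j y) = ι y := by
    have hnorm : Normal F L := IsAlgClosure.normal F L
    have halg : Algebra.IsAlgebraic F L := IsAlgClosure.isAlgebraic
    let j0 : L →ₐ[F] AlgebraicClosure (w.adicCompletion F) := IsAlgClosed.lift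
    obtain ⟨g, hg⟩ := s9c_normal ι0 (F'.comp (j0 : L →+* AlgebraicClosure (w.adicCompletion F)))
      (ι : L →+* AlgebraicClosure (v.adicCompletion K)) (fun y => by
        show F' (j0 (algebraMap F L y)) = _
        rw [j0.commutes, hF'F]) (fun y => rfl)
    exact ⟨j0.comp (g : L →ₐ[F] L), fun y => hg y⟩
  obtain ⟨Q0, hQ0⟩ := hloc w j
  have hb : F' (algebraMap F (AlgebraicClosure (w.adicCompletion F)) (algebraMap K F d)) =
      algebraMap K (AlgebraicClosure (v.adicCompletion K)) d := by
    rw [hF'F, hι0, hKv]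
  refine ⟨ptW F' hb Q0, fun τ σ hστ hσθ => ?_⟩
  obtain ⟨σF, hσF⟩ := exists_up Q σ hσθ
  rw [low_res d x σF σ hσF]
  have hτf : ∀ y, τ (f y) = f y := by
    intro y
    obtain ⟨a, b, hab⟩ := hf2 y
    have h1 : τ (ι0 Q.s) = ι0 Q.s := by
      have h2 := hστ (th Q L)
      rw [hσθ] at h2
      exact h2.symm
    rw [hab, map_add, map_mul, τ.commutes, τ.commutes, h1]
  obtain ⟨τ', hτ'⟩ : ∃ τ' : AlgebraicClosure (w.adicCompletion F) ≃ₐ[w.adicCompletion F]
      AlgebraicClosure (w.adicCompletion F), ∀ y, F' (τ' y) = τ (F' y) := by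
    have hnorm : Normal (w.adicCompletion F) (AlgebraicClosure (w.adicCompletion F)) :=
      WR.r4c_normal_gen (w.adicCompletion F)
    exact s9c_normal f F' ((τ : AlgebraicClosure (v.adicCompletion K) →+*
      AlgebraicClosure (v.adicCompletion K)).comp F') hF' (fun y => by
        show τ (F' (algebraMap _ _ y)) = _
        rw [hF', hτf])
  have hcomm : ∀ y, j (σF y) = τ' (j y) := by
    intro y
    apply F'.injective
    rw [hj, hτ', hj, ← hσF, hστ]
  have key := congrArg (ptW F' hb) (hQ0 τ' σF hcomm)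
  rw [ptW_sub, ptW_comp, ptW_comp] at key
  rw [cv, ptW_comp, ptW_comp]
  refine Eq.trans (ptW_congr ?_ _ _ (x σF)) (key.trans (congrArg (fun z => z - ptW F' hb Q0) (ptW_congr ?_ _ _ Q0)))
  · ext y
    exact (hj y).symm
  · ext y
    exact hτ' y

end

end QTB
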