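import Pool.Agent.QTB.S13b
import Pool.Agent.QTB.S5c
import Pool.Agent.QTB.S7d
import Pool.Agent.QTB.S9b
import Pool.Agent.QTB.S9c

/-!
# [QTB-S13c] every locally trivial cocycle of `2`-power order over `F` is a Kummer cocycle of an element of `K`
-/

set_option autoImplicit false

open NumberField IsDedekindDomain
open scoped Classical

namespace QTB

open QT (W)
open QTD
open TU (QS)

section

variable {K F : Type} [Field K] [NumberField K] [Field F] [NumberField F] [Algebra K F] (Q : QS K F) {d j : K}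

/-- the generator is no square of `K` -/
theorem s13c_ns : ¬ IsSquare Q.e := by
  rintro ⟨a, ha⟩
  have h1 : (Q.s - algebraMap K F a) * (Q.s + algebraMap K F a) = 0 := by
    have h2 := Q.hs
    rw [ha, map_mul] at h2
    linear_combination h2
  rcases mul_eq_zero.1 h1 with h | h
  · exact Q.ns a (sub_eq_zero.1 h).symm
  · apply Q.ns (-a)
    rw [map_neg]
    linear_combination -h

theorem s13c_ne : Q.e ≠ 0 := by
  intro h
  apply s13c_ns Q
  rw [h]
  exact ⟨0, by ring⟩

/-- [S13d] **the descent.** PROOF. `X = low F d x`: `low_coc`, `low_loc`, `low_cob`. `y`, `k'`, `P` from `exists_ext` (S5e; `Q.e` is no square of `K` because of `Q.ns`). `c`, `s`, `R` from `phi_kummer` (S7i). `InA` from `inA_of_phi`; `locB_all`; `hsel`: `c` is a square or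
`d c` is a square, so `kap s` is principal (`trivial_of_sq`, `trivial_of_sq_d`, QT/D8, with `ker_kap`, `sgn_kap`), so `phi y` is principal; `kummer_of_phi` (S7j): `y = kap s' + ∂R'`, `c'`. Restrict to `F`: `x = kap_F s' + ∂` (as in `inA_of_phi`), and `InA K F d c'` by
`locB_of_LT1` over `F` for `z = x`. -/
theorem descent {L : Type} [Field L] [Algebra F L] [IsAlgClosure F L] [Algebra K L] [IsScalarTower K F L] [IsAlgClosure K L]
    (hd : d ≠ 0) (hdF : algebraMap K F d ≠ 0) (hj : j ^ 2 = -1) (hsel : SelTriv K d) (hsel' : SelTriv K (d * Q.e ^ 2)) (htri : ∀ v, Tri Q d v)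
    {x : (L ≃ₐ[F] L) → (W (algebraMap F L (algebraMap K F d))).toAffine.Point} (hx : Coc F L (algebraMap K F d) x)
    (hloc : ∀ w : HeightOneSpectrum (𝓞 F), LocTriv x (w.adicCompletion F) (AlgebraicClosure (w.adicCompletion F)))
    {k : ℕ} {P : (W (algebraMap F L (algebraMap K F d))).toAffine.Point}
    (htors : ∀ σ : L ≃ₐ[F] L, 2 ^ k • x σ = ptW (σ : L →+* L) (gal_comm σ (algebraMap K F d)) P - P) :
    ∃ (c : K) (s : L) (R : (W (algebraMap F L (algebraMap K F d))).toAffine.Point), c ≠ 0 ∧ InA K F d c ∧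
      s ^ 2 = algebraMap F L (algebraMap K F c) ∧
      ∀ σ : L ≃ₐ[F] L, x σ = kap hdF s σ + (ptW (σ : L →+* L) (gal_comm σ (algebraMap K F d)) R - R) := by
  have hcz : CharZero L := charZero_of_injective_algebraMap (algebraMap K L).injective
  have hX : RCoc d (th Q L) (low F d x) := low_coc Q hx
  have hXloc : ∀ v : HeightOneSpectrum (𝓞 K),
      RLoc (th Q L) (low F d x) (v.adicCompletion K) (AlgebraicClosure (v.adicCompletion K)) :=
    fun v => low_loc Q hloc v
  obtain ⟨y, hy, hyX, k', P', hP'⟩ := exists_ext hd hj (s13c_ns Q) (th_sq Q) hsel' hX hXloc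
    ⟨cv d P, fun σ hσ => low_cob Q htors σ hσ⟩
  obtain ⟨c, s, R, hc, hs, hR⟩ := phi_kummer hd hj (s13c_ne Q) (th_sq Q) hsel hy hyX hXloc hP'
  have hA : InA K F d c := inA_of_phi Q hd hj hc hs hloc hyX hR
  have hB : ∀ v : HeightOneSpectrum (𝓞 K), LocB d c (v.adicCompletion K) :=
    fun v => locB_all Q hd hj hc hs hA htri hy hyX hXloc hR v
  obtain ⟨R0, hR0⟩ : ∃ R0 : (W (algebraMap K L d)).toAffine.Point, ∀ σ : L ≃ₐ[K] L,
      kap hd s σ = ptW (σ : L →+* L) (gal_comm σ d) R0 - R0 := by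
    rcases hsel c hc hB with hsq | hsq
    · refine ⟨0, fun σ => ?_⟩
      rw [trivial_of_sq (kap hd s) c s hc hs (sgn_kap hd hc hs) hsq σ, sub_zero]
      rfl
    · exact trivial_of_sq_d hd (kap hd s) (ker_kap hd s) c s hc hs (sgn_kap hd hc hs) hsq
  obtain ⟨c', s', R', hc', hs', hR'⟩ := kummer_of_phi hd hj hy (P := R0 + R) (by
    intro σ
    rw [hR σ, hR0 σ, ptW_add]
    abel)
  obtain ⟨R'', hR''⟩ := cv_surjective (F := F) (L := L) d R'
  have hxs : ∀ σ : L ≃ₐ[F] L, x σ = kap hdF s' σ +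
      (ptW (σ : L →+* L) (gal_comm σ (algebraMap K F d)) R'' - R'') := by
    intro σ
    obtain ⟨σ', hσ'⟩ := exists_down (K := K) σ
    have hfix : σ' (th Q L) = th Q L := by
      rw [hσ']
      exact σ.commutes _
    apply cv_injective (F := F) (L := L) d
    have h1 : cv d (x σ) = kap hd s' σ' + (ptW (σ' : L →+* L) (gal_comm σ' d) R' - R') := by
      rw [← low_res d x σ σ' hσ', ← hyX σ' hfix, hR' σ']
    have h2 : ∀ A B : (W (algebraMap F L (algebraMap K F d))).toAffine.Point,
        cv d (A - B) = cv d A - cv d B := by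
      intro A B
      rw [sub_eq_add_neg, cv_add, cv_neg, ← sub_eq_add_neg]
    rw [h1, cv_add, h2, cv_act d σ σ' hσ', cv_kap hd hdF s' σ σ' hσ', hR'']
  have hc'F : algebraMap K F c' ≠ 0 := (map_ne_zero (algebraMap K F)).2 hc'
  have hs'F : s' ^ 2 = algebraMap F L (algebraMap K F c') := by
    rw [hs', tow]
  refine ⟨c', s', R'', hc', ?_, hs'F, hxs⟩
  intro w
  have hjF : (algebraMap K F j) ^ 2 = -1 := by
    rw [← map_pow, hj, map_neg, map_one]
  have halg : Algebra.IsAlgebraic F L := IsAlgClosure.isAlgebraic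
  obtain ⟨ι⟩ : Nonempty (L →ₐ[F] AlgebraicClosure (w.adicCompletion F)) := ⟨IsAlgClosed.lift⟩
  exact locB_of_LT1 (K := F) hdF hjF hc'F hs'F hxs ι (hloc w ι)

end

end QTB
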