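import Pool.Agent.QTB.S0
import Pool.Agent.QT.D10d

/-!
# [QTB-S14a] the points over `F`
-/

set_option autoImplicit false

open NumberField IsDedekindDomain
open scoped Classical

namespace QTB

open QT (W)
open QTD

section

variable {F : Type} [Field F] [NumberField F] {d j : F}

/-- `(0,0)` is not in the image of `phi` -/
theorem s14a_T0 (hd : d ≠ 0) (hj : j ^ 2 = -1) (hns : ¬ IsSquare d) (P : (W d).toAffine.Point) :
    phi hj P ≠ T0 hd := by
  intro h
  cases P with
  | zero =>
    have h0 : (WeierstrassCurve.Affine.Point.zero : (W d).toAffine.Point) = 0 := rfl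
    rw [h0, phi_zero] at h
    cases h
  | some x y hxy =>
    by_cases hx : x = 0
    · have h1 : Ker (WeierstrassCurve.Affine.Point.some x y hxy : (W d).toAffine.Point) := hx
      rw [(phi_eq_zero hj hd _).2 h1] at h
      cases h
    · obtain ⟨h', h1⟩ := phi_some hj hxy hx
      rw [h1] at h
      unfold T0 at h
      rw [WeierstrassCurve.Affine.Point.some.injEq] at h
      have hj1 := one_add_j_ne hj
      have hy : y = 0 := by
        have h2 := pow_eq_zero_iff two_ne_zero |>.1 h.1
        rcases div_eq_zero_iff.1 h2 with h3 | h3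
        · exact h3
        · exact absurd h3 (mul_ne_zero hj1 hx)
      have heq := (W_nonsingular hd x y).1 hxy
      apply hns
      refine ⟨x, ?_⟩
      have h3 : x * (x * x - d) = 0 := by
        rw [hy] at heq
        linear_combination -heq
      have h4 := (mul_eq_zero.1 h3).resolve_left hx
      linear_combination -h4

/-- the homomorphism and its kernel -/
theorem s14a_hom (hd : d ≠ 0) (hj : j ^ 2 = -1) :
    ∃ f : (W d).toAffine.Point →+ (W d).toAffine.Point, (∀ P, f P = phi hj P) ∧
      Nat.card f.ker = 2 ∧ Nat.card (W d).toAffine.Point = 2 * Nat.card f.range := by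
  obtain ⟨f, hf⟩ : ∃ f : (W d).toAffine.Point →+ (W d).toAffine.Point, ∀ P, f P = phi hj P :=
    ⟨phiHom hj, fun P => rfl⟩
  have hker : Nat.card f.ker = 2 := by
    rw [← card_ker hd]
    refine Nat.card_congr (Equiv.subtypeEquivRight fun P => ?_)
    rw [AddMonoidHom.mem_ker, hf, phi_eq_zero hj hd]
  refine ⟨f, hf, hker, ?_⟩
  rw [AddSubgroup.card_eq_card_quotient_mul_card_addSubgroup f.ker, hker, mul_comm]
  congr 1
  exact Nat.card_congr (QuotientAddGroup.quotientKerEquivRange f).toEquiv

/-- [S14a] `E(F) = {O, (0,0)} + phi E(F)`. PROOF. `E(F)` is finite and `phi` has the kernel `{O, T0}` with two elements, so `phi E(F)` has index 2 (`AddMonoidHom` `phiHom hj`: `card_eq_card_quotient…`, `card_ker` in QT/D10d).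
`T0` is not in `phi E(F)`: `phi P = T0` implies `phi (phi P) = 0`, `2 imP P = 0`, `P = (e, 0)` with `e² = d` (or `P` in the kernel, and then `phi P = 0`), but `d` is not a square. -/
theorem dec_fin (hd : d ≠ 0) (hj : j ^ 2 = -1) (hfin : Finite (W d).toAffine.Point) (hns : ¬ IsSquare d)
    (P : (W d).toAffine.Point) : ∃ T P' : (W d).toAffine.Point, Ker T ∧ P = T + phi hj P' := by
  obtain ⟨f, hf, hker, hcard⟩ := s14a_hom hd hj
  have hpos : 0 < Nat.card f.range := Nat.card_pos
  have hidx : f.range.index = 2 := by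
    have h1 := f.range.card_mul_index
    rw [hcard, mul_comm 2] at h1
    exact Nat.eq_of_mul_eq_mul_left hpos h1
  have hT0 : T0 hd ∉ f.range := by
    rintro ⟨Q, hQ⟩
    rw [hf] at hQ
    exact s14a_T0 hd hj hns Q hQ
  by_cases hP : P ∈ f.range
  · obtain ⟨Q, hQ⟩ := hP
    exact ⟨0, Q, ker_zero, by rw [zero_add, ← hf, hQ]⟩
  · have h1 : T0 hd + P ∈ f.range := by
      rw [AddSubgroup.add_mem_iff_of_index_two hidx]
      exact ⟨fun h => absurd h hT0, fun h => absurd h hP⟩
    obtain ⟨Q, hQ⟩ := h1
    refine ⟨T0 hd, Q, (ker_iff hd _).2 (Or.inr rfl), ?_⟩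
    rw [← hf, hQ, ← add_assoc, d4_T0_add, zero_add]

/-- [S14b] the order is `2 * odd`. PROOF. `finite_of_div` (QT/D10d) with `dec_fin`; it wants a finite place `v` above 2 at which `d` is integral; alternatively: the 2-primary part of the finite group is `Ker`: an element
`P` with `2 P ∈ Ker`... (no element `P ≠ O, T0` with `phi P ∈ Ker`, as `T0 ∉ phi E(F)`), so `phi` is injective on the quotient by `Ker`, `phi² = 2 j` also, so the quotient has odd order. -/
theorem card_odd (hd : d ≠ 0) (hj : j ^ 2 = -1) (hfin : Finite (W d).toAffine.Point) (hns : ¬ IsSquare d) :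
    ∃ m : ℕ, Odd m ∧ Nat.card (W d).toAffine.Point = 2 * m := by
  obtain ⟨f, hf, hker, hcard⟩ := s14a_hom hd hj
  refine ⟨Nat.card f.range, ?_, hcard⟩
  rw [← Nat.not_even_iff_odd]
  intro hev
  have : Fintype f.range := Fintype.ofFinite f.range
  have : Fact (Nat.Prime 2) := ⟨Nat.prime_two⟩
  obtain ⟨P, hP⟩ := exists_prime_addOrderOf_dvd_card (G := f.range) 2 (by
    rw [← Nat.card_eq_fintype_card]
    exact even_iff_two_dvd.1 hev)
  have h2P : 2 • P = 0 := by rw [← hP]; exact addOrderOf_nsmul_eq_zero P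
  have h2P' : 2 • (P : (W d).toAffine.Point) = 0 := by
    have h3 := congrArg (fun x : f.range => (x : (W d).toAffine.Point)) h2P
    simpa using h3
  have hphi : phi hj (phi hj (P : (W d).toAffine.Point)) = 0 := by
    rw [phi_phi, ← imP_nsmul, h2P', imP_zero]
  have hinj : ∀ Q : (W d).toAffine.Point, phi hj (phi hj Q) = 0 → phi hj Q = 0 := by
    intro Q hQ
    rcases (ker_iff hd _).1 ((phi_eq_zero hj hd _).1 hQ) with h | h
    · exact h
    · exact absurd h (s14a_T0 hd hj hns Q)
  have h4 := hinj _ hphi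
  obtain ⟨Q, hQ⟩ := P.2
  have h5 : (P : (W d).toAffine.Point) = 0 := by
    rw [← hQ, hf]
    apply hinj
    rw [← hf Q, hQ]
    exact h4
  have h6 : P = 0 := Subtype.ext h5
  rw [h6, addOrderOf_zero] at hP
  omega

end

end QTB
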