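import Pool.Agent.QTB.S14a
import Pool.Agent.QTB.S11a
import Pool.Agent.TU.G0

/-!
# [QTB-S14b] which Kummer cocycles are principal over `F`
-/

set_option autoImplicit false

open NumberField IsDedekindDomain
open scoped Classical

namespace QTB

open QT (W)
open QTD
open TU (QS)

section

variable {F : Type} [Field F] [NumberField F] {d j : F}

/-- [S14c] a principal Kummer cocycle: `b` or `d b` is a square. PROOF. `QTD.locB` with `Fv = F`, `Lv = L`, `ι = id`: `LocB d b F`; in the third alternative `b x` is a square for a point `P = (x, y)`, `P = T + phi P'` (`dec_fin`).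
`T = O`: `x` is a square (`phi_rho`; `rho P' ≠ 0` because `phi P' ≠ O, T0`: if `rho P' = 0` then `P' = O`, `T0` or `(e, 0)`; the latter is impossible). `T = T0`: `P + T0 = phi P'` has `x`-coordinate `-d / x` (`add_T0`), a square,
so `d x` is a square (`-1 = j²`), and `d b` is. -/
theorem sq_of_principal {L : Type} [Field L] [Algebra F L] [IsAlgClosure F L] (hd : d ≠ 0) (hj : j ^ 2 = -1)
    (hfin : Finite (W d).toAffine.Point) (hns : ¬ IsSquare d) {b : F} (hb : b ≠ 0) {s : L} (hs : s ^ 2 = algebraMap F L b)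
    {R : (W (algebraMap F L d)).toAffine.Point}
    (h : ∀ σ : L ≃ₐ[F] L, kap hd s σ = ptW (σ : L →+* L) (gal_comm σ d) R - R) :
    IsSquare b ∨ IsSquare (d * b) := by
  have hB : LocB d b F := by
    refine locB hd hj (kap hd s) (ker_kap hd s) b s hb hs (fun σ => sgn_kap hd hb hs σ) F L
      (AlgHom.id F L) R (fun τ σ hστ => ?_)
    have h1 : σ = τ := AlgEquiv.ext hστ
    subst h1
    have h2 : ptW ((AlgHom.id F L : L →ₐ[F] L) : L →+* L) (alg_comm (AlgHom.id F L) d)
        (kap hd s σ) = kap hd s σ := by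
      rw [← ptW_id (kap hd s σ)]
      cases kap hd s σ <;> rfl
    rw [h2, h σ]
  unfold LocB at hB
  simp only [Algebra.algebraMap_self, RingHom.id_apply] at hB
  rcases hB with h1 | h1 | ⟨x, y, hx, hxy, hbx⟩
  · exact Or.inl h1
  · exact Or.inr h1
  have hns' : (W d).toAffine.Nonsingular x y := (W_nonsingular hd x y).2 hxy
  -- a point of the image of `phi` has a square as `x`-coordinate
  have key : ∀ (X Y : F) (hXY : (W d).toAffine.Nonsingular X Y) (P' : (W d).toAffine.Point),
      X ≠ 0 → WeierstrassCurve.Affine.Point.some X Y hXY = phi hj P' → IsSquare X := by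
    intro X Y hXY P' hX hP
    cases P' with
    | zero =>
      have h0 : (WeierstrassCurve.Affine.Point.zero : (W d).toAffine.Point) = 0 := rfl
      rw [h0, phi_zero] at hP
      cases hP
    | some x' y' hxy' =>
      by_cases hx' : x' = 0
      · have h1 : Ker (WeierstrassCurve.Affine.Point.some x' y' hxy' : (W d).toAffine.Point) := hx'
        rw [(phi_eq_zero hj hd _).2 h1] at hP
        cases hP
      · obtain ⟨h', h1⟩ := phi_some hj hxy' hx'
        rw [h1, WeierstrassCurve.Affine.Point.some.injEq] at hP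
        exact ⟨y' / ((1 + j) * x'), by rw [hP.1]; ring⟩
  obtain ⟨T, P', hT, hP⟩ := dec_fin hd hj hfin hns (.some x y hns')
  rcases (ker_iff hd T).1 hT with h1 | h1
  · rw [h1, zero_add] at hP
    obtain ⟨u, hu⟩ := key x y hns' P' hx hP
    obtain ⟨w, hw⟩ := hbx
    left
    have hu0 : u ≠ 0 := by
      rintro rfl
      exact hx (by rw [hu]; ring)
    refine ⟨w / u, ?_⟩
    field_simp
    rw [hu] at hw
    linear_combination hw
  · obtain ⟨X, Y, hXY, hadd, hXx⟩ := add_T0 hd hns' hx
    have h2 : WeierstrassCurve.Affine.Point.some X Y hXY = phi hj P' := by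
      rw [← hadd, hP, h1, add_comm (T0 hd), add_assoc, d4_T0_add, add_zero]
    have hX0 : X ≠ 0 := by
      rw [hXx]
      exact neg_ne_zero.2 (div_ne_zero hd hx)
    obtain ⟨u, hu⟩ := key X Y hXY P' hX0 h2
    obtain ⟨w, hw⟩ := hbx
    right
    -- `-(d/x) = u²`, `b x = w²`, `d b = -(u² x) b = (j u w)²`
    refine ⟨j * u * w, ?_⟩
    have hd' : d = -(u * u * x) := by
      rw [← hu, hXx]
      field_simp
    have h3 : j * u * w * (j * u * w) = j ^ 2 * (u * u) * (w * w) := by ring
    rw [h3, hj, ← hw]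
    rw [hd']
    ring

/-- [S14d] the converse. PROOF. `trivial_of_sq`, `trivial_of_sq_d` (QT/D8) with `ker_kap`, `sgn_kap`. -/
theorem principal_of_sq {L : Type} [Field L] [Algebra F L] [IsAlgClosure F L] (hd : d ≠ 0) {b : F} (hb : b ≠ 0) {s : L}
    (hs : s ^ 2 = algebraMap F L b) (h : IsSquare b ∨ IsSquare (d * b)) :
    ∃ R : (W (algebraMap F L d)).toAffine.Point, ∀ σ : L ≃ₐ[F] L,
      kap hd s σ = ptW (σ : L →+* L) (gal_comm σ d) R - R := by
  rcases h with h1 | h1
  · refine ⟨0, fun σ => ?_⟩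
    rw [trivial_of_sq (kap hd s) b s hb hs (fun σ => sgn_kap hd hb hs σ) h1 σ, ptW_zero, sub_zero]
  · exact trivial_of_sq_d hd (kap hd s) (ker_kap hd s) b s hb hs (fun σ => sgn_kap hd hb hs σ) h1

end

section

variable {K F : Type} [Field K] [NumberField K] [Field F] [NumberField F] [Algebra K F]

/-- [S14e] squares of `F` in `K`. PROOF. `algebraMap a = (x + y θ)² = x² + e y² + 2 x y θ` (`Q.gen`, `QS.repr_unique`): `x y = 0`; `a = x²` or `a = e y²`. -/
theorem sq_up (Q : QS K F) {a : K} : IsSquare (algebraMap K F a) ↔ IsSquare a ∨ IsSquare (Q.e * a) := by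
  constructor
  · rintro ⟨z, hz⟩
    obtain ⟨x, y, hxy⟩ := Q.gen z
    have hs := Q.hs
    have h1 : algebraMap K F a + algebraMap K F 0 * Q.s =
        algebraMap K F (x ^ 2 + Q.e * y ^ 2) + algebraMap K F (2 * x * y) * Q.s := by
      rw [hz, hxy]
      simp only [map_zero, map_add, map_mul, map_pow, map_ofNat]
      linear_combination (algebraMap K F y) ^ 2 * hs
    obtain ⟨h2, h3⟩ := Q.repr_unique h1
    have h4 : x * y = 0 := by
      have h5 : (2 : K) * (x * y) = 0 := by linear_combination -h3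
      exact (mul_eq_zero.1 h5).resolve_left two_ne_zero
    rcases mul_eq_zero.1 h4 with h5 | h5
    · right
      exact ⟨Q.e * y, by rw [h2, h5]; ring⟩
    · left
      exact ⟨x, by rw [h2, h5]; ring⟩
  · rintro (⟨x, hx⟩ | ⟨z, hz⟩)
    · exact ⟨algebraMap K F x, by rw [hx, map_mul]⟩
    · have hs0 : Q.s ≠ 0 := Q.s_ne
      refine ⟨algebraMap K F z / Q.s, ?_⟩
      have h1 : Q.s ^ 2 * algebraMap K F a = algebraMap K F z * algebraMap K F z := by
        rw [Q.hs, ← map_mul, hz, map_mul]
      field_simp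
      linear_combination h1

end

end QTB
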