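import Pool.Agent.QTB.S0

/-!
# [QTB-S15a] the Tate–Shafarevich group in terms of cocycles
-/

set_option autoImplicit false

open NumberField IsDedekindDomain
open scoped Classical

namespace QTB

open QT (W)
open QTD

section

variable {F : Type} [Field F] [NumberField F] {d j : F}

omit [NumberField F] in
theorem s15a_loc {c : SBSD.AbsGal F → SBSD.Pts (W d) (AlgebraicClosure F)} {Fv : Type} [Field Fv]
    [Algebra F Fv] (h : SBSD.TrivialOver (W d) Fv c) :
    LocTriv (fun σ => trD d (AlgebraicClosure F) (c σ)) Fv (AlgebraicClosure Fv) := by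
  intro ι
  obtain ⟨Q', hQ'⟩ := h ι
  refine ⟨trD d (AlgebraicClosure Fv) Q', fun τ σ hστ => ?_⟩
  have h6 := congrArg (trD d (AlgebraicClosure Fv)) (hQ' τ σ hστ)
  rw [map_sub, trD_map, trD_map] at h6
  exact h6

omit [NumberField F] in
theorem s15a_loc' {c : (AlgebraicClosure F ≃ₐ[F] AlgebraicClosure F) →
      (W (algebraMap F (AlgebraicClosure F) d)).toAffine.Point} {Fv : Type} [Field Fv]
    [Algebra F Fv] (h : LocTriv c Fv (AlgebraicClosure Fv)) :
    SBSD.TrivialOver (W d) Fv (fun σ => (trD d (AlgebraicClosure F)).symm (c σ)) := by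
  intro ι
  obtain ⟨Q', hQ'⟩ := h ι
  refine ⟨(trD d (AlgebraicClosure Fv)).symm Q', fun τ σ hστ => ?_⟩
  apply (trD d (AlgebraicClosure Fv)).injective
  rw [map_sub, trD_map, trD_map, AddEquiv.apply_symm_apply, AddEquiv.apply_symm_apply]
  exact hQ' τ σ hστ

/-- [S15a] cocycles. PROOF. As in `d9b_gen` (QT/D9b): `c0.2` gives `c0.1 ∈ cocycles`, `TrivialOver` for all `v`; apply `trD` (`trD_map`). -/
theorem coc_of_locTrivial (c0 : SBSD.locTrivial (W d)) :
    Coc F (AlgebraicClosure F) d (fun σ => trD d (AlgebraicClosure F) (c0.1 σ)) ∧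
      ∀ w : HeightOneSpectrum (𝓞 F), LocTriv (fun σ => trD d (AlgebraicClosure F) (c0.1 σ)) (w.adicCompletion F)
        (AlgebraicClosure (w.adicCompletion F)) := by
  obtain ⟨⟨hloc, hcr⟩, hv, -⟩ := c0.2
  refine ⟨⟨hloc.comp (trD d (AlgebraicClosure F)), fun σ τ => ?_⟩, fun w => s15a_loc (hv w)⟩
  show trD d (AlgebraicClosure F) (c0.1 (σ * τ)) = _
  rw [hcr σ τ, map_add, trD_map]
  rfl

/-- [S15b] PROOF. The inverse of `trD`. -/
theorem locTrivial_of_coc {c : (AlgebraicClosure F ≃ₐ[F] AlgebraicClosure F) → (W (algebraMap F (AlgebraicClosure F) d)).toAffine.Point}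
    (hc : Coc F (AlgebraicClosure F) d c)
    (h : ∀ w : HeightOneSpectrum (𝓞 F), LocTriv c (w.adicCompletion F) (AlgebraicClosure (w.adicCompletion F)))
    (h' : ∀ v : InfinitePlace F, LocTriv c v.Completion (AlgebraicClosure v.Completion)) :
    ∃ c0 : SBSD.locTrivial (W d), ∀ σ, trD d (AlgebraicClosure F) (c0.1 σ) = c σ := by
  refine ⟨⟨fun σ => (trD d (AlgebraicClosure F)).symm (c σ), ⟨?_, ?_⟩, fun v => s15a_loc' (h v),
    fun v => s15a_loc' (h' v)⟩, fun σ => AddEquiv.apply_symm_apply _ _⟩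
  · exact hc.loc.comp (trD d (AlgebraicClosure F)).symm
  · intro σ τ
    apply (trD d (AlgebraicClosure F)).injective
    rw [map_add, trD_map, AddEquiv.apply_symm_apply, AddEquiv.apply_symm_apply,
      AddEquiv.apply_symm_apply]
    exact hc.crossed σ τ

/-- [S15c] PROOF. `QuotientAddGroup.eq_zero_iff`, `AddSubgroup.mem_addSubgroupOf`, `trD_map` (compare `sha_pow`, QT/D9b). -/
theorem mk_eq_zero_iff (c0 : SBSD.locTrivial (W d)) :
    (QuotientAddGroup.mk c0 : SBSD.Sha (W d)) = 0 ↔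
      ∃ R : (W (algebraMap F (AlgebraicClosure F) d)).toAffine.Point, ∀ σ,
        trD d (AlgebraicClosure F) (c0.1 σ) =
          ptW (σ : AlgebraicClosure F →+* AlgebraicClosure F) (gal_comm σ d) R - R := by
  rw [QuotientAddGroup.eq_zero_iff, AddSubgroup.mem_addSubgroupOf]
  constructor
  · rintro ⟨P, hP⟩
    refine ⟨trD d (AlgebraicClosure F) P, fun σ => ?_⟩
    have h1 := congrArg (trD d (AlgebraicClosure F)) (hP σ)
    rw [map_sub, trD_map] at h1
    exact h1
  · rintro ⟨R, hR⟩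
    refine ⟨(trD d (AlgebraicClosure F)).symm R, fun σ => ?_⟩
    apply (trD d (AlgebraicClosure F)).injective
    rw [map_sub, trD_map, AddEquiv.apply_symm_apply]
    exact hR σ

end

end QTB
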