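import Pool.Agent.QTB.S15a
import Pool.Agent.QTB.S14b
import Pool.Agent.QTB.S11b
import Pool.Agent.QTB.S11d

/-!
# [QTB-S15b] the classes of the Kummer cocycles
-/

set_option autoImplicit false

open NumberField IsDedekindDomain
open scoped Classical

namespace QTB

open QT (W)
open QTD

/-- the class `x` is the class of the Kummer cocycle of `c` -/
def Rep {F : Type} [Field F] [NumberField F] {d : F} (hd : d ≠ 0) (x : SBSD.Sha (W d)) (c : F) : Prop :=
  ∃ (c0 : SBSD.locTrivial (W d)) (s : AlgebraicClosure F) (R : (W (algebraMap F (AlgebraicClosure F) d)).toAffine.Point),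
    (QuotientAddGroup.mk c0 : SBSD.Sha (W d)) = x ∧ s ^ 2 = algebraMap F (AlgebraicClosure F) c ∧
    ∀ σ : AlgebraicClosure F ≃ₐ[F] AlgebraicClosure F, trD d (AlgebraicClosure F) (c0.1 σ) =
      kap hd s σ + (ptW (σ : AlgebraicClosure F →+* AlgebraicClosure F) (gal_comm σ d) R - R)

theorem s15b_ac (k : Type) [Field k] : IsAlgClosure k (AlgebraicClosure k) := inferInstance

section

variable {F : Type} [Field F] [NumberField F] {d j : F}

/-- [S15d] existence. PROOF. `kap_coc`, `kap_loc`, `inf_loc` (S11), `locTrivial_of_coc`. -/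
theorem exists_rep (hd : d ≠ 0) (hj : j ^ 2 = -1) {c : F} (hc : c ≠ 0)
    (h : ∀ w : HeightOneSpectrum (𝓞 F), LocB d c (w.adicCompletion F)) : ∃ x : SBSD.Sha (W d), Rep hd x c := by
  obtain ⟨s, hs⟩ := IsAlgClosed.exists_pow_nat_eq (algebraMap F (AlgebraicClosure F) c) two_pos
  have hcoc : Coc F (AlgebraicClosure F) d (kap hd s) := kap_coc hd hc hs
  obtain ⟨c0, hc0⟩ := locTrivial_of_coc hcoc (fun w => by
      have := s15b_ac (w.adicCompletion F)
      exact kap_loc hj hd hc hs (h w))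
    (fun v => inf_loc hj hcoc v)
  refine ⟨(QuotientAddGroup.mk c0 : SBSD.Sha (W d)), c0, s, 0, rfl, hs, fun σ => ?_⟩
  rw [hc0, ptW_zero, sub_zero, add_zero]

/-- [S15e] equality. PROOF. `c0 - c0'` is the cocycle `kap (s s') + ∂` (`kap_mul`, `two_kap`), `mk_eq_zero_iff`, `sq_of_principal`, `principal_of_sq` (S14). -/
theorem rep_eq_iff (hd : d ≠ 0) (hj : j ^ 2 = -1) (hfin : Finite (W d).toAffine.Point) (hns : ¬ IsSquare d) {c c' : F} (hc : c ≠ 0)
    (hc' : c' ≠ 0) {x x' : SBSD.Sha (W d)} (hx : Rep hd x c) (hx' : Rep hd x' c') :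
    x = x' ↔ IsSquare (c * c') ∨ IsSquare (d * (c * c')) := by
  obtain ⟨c0, s, R, hx0, hs, hr⟩ := hx
  obtain ⟨c0', s', R', hx0', hs', hr'⟩ := hx'
  have hss : (s * s') ^ 2 = algebraMap F (AlgebraicClosure F) (c * c') := by
    rw [mul_pow, hs, hs', map_mul]
  have hval : ∀ σ : AlgebraicClosure F ≃ₐ[F] AlgebraicClosure F,
      trD d (AlgebraicClosure F) ((c0 - c0').1 σ) = kap hd (s * s') σ +
        (ptW (σ : AlgebraicClosure F →+* AlgebraicClosure F) (gal_comm σ d) (R - R') - (R - R')) := by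
    intro σ
    have h1 : (c0 - c0').1 σ = c0.1 σ - c0'.1 σ := rfl
    rw [h1, map_sub, hr σ, hr' σ, kap_mul hd hc hc' hs hs' σ, ptW_sub]
    have h2 := two_kap hd s' σ
    have h3 : kap hd s' σ = - kap hd s' σ := by
      rw [two_nsmul] at h2
      exact eq_neg_of_add_eq_zero_left h2
    have h4 : kap hd s σ + kap hd s' σ = kap hd s σ - kap hd s' σ := by
      conv_lhs => rw [h3]
      abel
    rw [h4]
    abel
  have hiff : x = x' ↔ (QuotientAddGroup.mk (c0 - c0') : SBSD.Sha (W d)) = 0 := by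
    rw [QuotientAddGroup.mk_sub, hx0, hx0', sub_eq_zero]
  rw [hiff, mk_eq_zero_iff]
  constructor
  · rintro ⟨R2, hR2⟩
    refine sq_of_principal (R := R2 - (R - R')) hd hj hfin hns (mul_ne_zero hc hc') hss (fun σ => ?_)
    have h1 := (hval σ).symm.trans (hR2 σ)
    rw [ptW_sub (σ : AlgebraicClosure F →+* AlgebraicClosure F) (gal_comm σ d) R2 (R - R')]
    have h2 : kap hd (s * s') σ = (kap hd (s * s') σ +
        (ptW (σ : AlgebraicClosure F →+* AlgebraicClosure F) (gal_comm σ d) (R - R') - (R - R'))) -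
        (ptW (σ : AlgebraicClosure F →+* AlgebraicClosure F) (gal_comm σ d) (R - R') - (R - R')) := by
      abel
    rw [h2, h1]
    abel
  · intro h
    obtain ⟨R2, hR2⟩ := principal_of_sq (L := AlgebraicClosure F) hd (mul_ne_zero hc hc') hss h
    refine ⟨R2 + (R - R'), fun σ => ?_⟩
    rw [hval σ, hR2 σ, ptW_add (σ : AlgebraicClosure F →+* AlgebraicClosure F) (gal_comm σ d) R2 (R - R')]
    abel

/-- [S15f] PROOF. `2 • kap = 0` (`two_kap`), `mk_eq_zero_iff` for `2 • c0`. -/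
theorem two_rep (hd : d ≠ 0) {c : F} {x : SBSD.Sha (W d)} (hx : Rep hd x c) : 2 • x = 0 := by
  obtain ⟨c0, s, R, hx0, hs, hr⟩ := hx
  have h0 : 2 • x = (QuotientAddGroup.mk (2 • c0) : SBSD.Sha (W d)) := by
    rw [QuotientAddGroup.mk_nsmul, hx0]
  rw [h0, mk_eq_zero_iff]
  refine ⟨2 • R, fun σ => ?_⟩
  have h1 : (2 • c0).1 σ = 2 • c0.1 σ := rfl
  rw [h1, map_nsmul, hr σ, nsmul_add, two_kap, zero_add, nsmul_sub, ptW_nsmul]

end

end QTB
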