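import Pool.Agent.QTB.S15b
import Pool.Agent.QTB.S15c
import Pool.Agent.QTB.S13c

/-!
# [QTB-S15d] the Tate–Shafarevich group over `F`
-/

set_option autoImplicit false

open NumberField IsDedekindDomain
open scoped Classical

namespace QTB

open QT (W)
open QTD
open TU (QS)

section

variable {K F : Type} [Field K] [NumberField K] [Field F] [NumberField F] [Algebra K F] (Q : QS K F) {d j : K}

/-- [S15g] surjectivity. PROOF. `x = mk c0`; `coc_of_locTrivial`; `2^k x = 0` gives `P` (`mk_eq_zero_iff` for `2^k • c0`); `descent` (S13d) with `L = AlgebraicClosure F` (`isAlgClosure_up`). -/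
theorem rep_surj (hd : d ≠ 0) (hdF : algebraMap K F d ≠ 0) (hj : j ^ 2 = -1) (hsel : SelTriv K d)
    (hsel' : SelTriv K (d * Q.e ^ 2)) (htri : ∀ v, Tri Q d v) (x : SBSD.Sha (W (algebraMap K F d))) (k : ℕ)
    (h : 2 ^ k • x = 0) : ∃ c : K, c ≠ 0 ∧ InA K F d c ∧ Rep hdF x (algebraMap K F c) := by
  obtain ⟨c0, rfl⟩ := QuotientAddGroup.mk_surjective x
  obtain ⟨hcoc, hloc⟩ := coc_of_locTrivial c0
  have h1 : (QuotientAddGroup.mk (2 ^ k • c0) : SBSD.Sha (W (algebraMap K F d))) = 0 := h
  obtain ⟨P, hP⟩ := (mk_eq_zero_iff (2 ^ k • c0)).1 h1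
  have : IsAlgClosure K (AlgebraicClosure F) := isAlgClosure_up K F
  obtain ⟨c, s, R, hc, hA, hs, hR⟩ := descent (L := AlgebraicClosure F) Q hd hdF hj hsel hsel' htri hcoc hloc
    (k := k) (P := P) (fun σ => by
      rw [← hP σ, ← map_nsmul]
      rfl)
  exact ⟨c, hc, hA, c0, s, R, rfl, hs, hR⟩

/-- the Kummer cocycle depends only on the class -/
theorem s15d_kap {E M : Type} [Field E] [CharZero E] [Field M] [Algebra E M] {δ : E} (hδ : δ ≠ 0) (s : M) {r : E} (hr : r ≠ 0)
    (σ : M ≃ₐ[E] M) : kap hδ (s / algebraMap E M r) σ = kap hδ s σ := by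
  have hr' : algebraMap E M r ≠ 0 := (map_ne_zero (algebraMap E M)).2 hr
  have h1 : σ (s / algebraMap E M r) = s / algebraMap E M r ↔ σ s = s := by
    rw [map_div₀, σ.commutes, div_left_inj' hr']
  unfold kap
  simp only [h1]

theorem s15d_rep {E : Type} [Field E] [NumberField E] {δ : E} (hδ : δ ≠ 0) {x : SBSD.Sha (W δ)} {c r : E} (hr : r ≠ 0)
    (h : Rep hδ x (c * r ^ 2)) : Rep hδ x c := by
  obtain ⟨c0, s, R, h1, h2, h3⟩ := h
  have hr' : algebraMap E (AlgebraicClosure E) r ≠ 0 := (map_ne_zero (algebraMap E (AlgebraicClosure E))).2 hr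
  refine ⟨c0, s / algebraMap E (AlgebraicClosure E) r, R, h1, ?_, fun σ => ?_⟩
  · rw [div_pow, h2, map_mul, map_pow]
    field_simp
  · rw [s15d_kap hδ s hr σ]
    exact h3 σ

omit [NumberField K] [NumberField F] in
theorem s15d_inA_sq [NumberField K] [NumberField F] {c r : K} (hr : r ≠ 0) : InA K F d (c * r ^ 2) ↔ InA K F d c := by
  have hr' : algebraMap K F r ≠ 0 := (map_ne_zero (algebraMap K F)).2 hr
  unfold InA
  rw [map_mul, map_pow]
  exact forall_congr' fun w => locB_sq hr'

theorem s15d_inA_e {c : K} (h : InA K F d c) : InA K F d (c * Q.e) := by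
  intro w
  rw [map_mul, ← Q.hs]
  exact (locB_sq Q.s_ne).2 (h w)

theorem s15d_inA_d (hdF : algebraMap K F d ≠ 0) (hj : j ^ 2 = -1) {c : K} (h : InA K F d c) : InA K F d (c * d) := by
  intro w
  rw [mul_comm, map_mul]
  exact locB_mul_d hdF (j := algebraMap K F j) (by rw [← map_pow, hj, map_neg, map_one]) (h w)

theorem s15d_e_ns : ¬ IsSquare Q.e := by
  rintro ⟨t, ht⟩
  have h1 : (Q.s - algebraMap K F t) * (Q.s + algebraMap K F t) = 0 := by
    have h2 : Q.s ^ 2 = algebraMap K F t * algebraMap K F t := by rw [Q.hs, ht, map_mul]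
    linear_combination h2
  rcases mul_eq_zero.1 h1 with h2 | h2
  · exact Q.ns t (sub_eq_zero.1 h2).symm
  · apply Q.ns (-t)
    rw [map_neg]
    linear_combination -h2

theorem s15d_sq_cancel {E : Type} [Field E] {u v : E} (hu : u ≠ 0) (h : IsSquare (u ^ 2 * v)) : IsSquare v := by
  obtain ⟨t, ht⟩ := h
  refine ⟨t / u, ?_⟩
  field_simp
  linear_combination ht

theorem s15d_sim {E : Type} [Field E] {a a' g : E} (ha : a ≠ 0) (ha' : a' ≠ 0) (hg : g ≠ 0) :
    IsSquare (g * (a * a')) ↔ ∃ t : E, t ≠ 0 ∧ a * g = a' * t ^ 2 := by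
  constructor
  · rintro ⟨u, hu⟩
    have hu0 : u ≠ 0 := by
      rintro rfl
      rw [zero_mul] at hu
      exact mul_ne_zero hg (mul_ne_zero ha ha') hu
    refine ⟨u / a', div_ne_zero hu0 ha', ?_⟩
    field_simp
    linear_combination hu
  · rintro ⟨t, -, ht⟩
    refine ⟨a' * t, ?_⟩
    linear_combination a' * ht

/-- the four classes -/
noncomputable def s15d_g (Q : QS K F) (d : K) : Fin 4 → K := ![1, Q.e, d, Q.e * d]

theorem s15d_g_ne (hd : d ≠ 0) (i : Fin 4) : s15d_g Q d i ≠ 0 := by
  have he := Q.e_ne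
  fin_cases i
  · exact one_ne_zero
  · exact he
  · exact hd
  · exact mul_ne_zero he hd

theorem s15d_g_inA (hdF : algebraMap K F d ≠ 0) (hj : j ^ 2 = -1) {c : K} (h : InA K F d c) (i : Fin 4) :
    InA K F d (c * s15d_g Q d i) := by
  fin_cases i
  · show InA K F d (c * 1)
    rw [mul_one]
    exact h
  · exact s15d_inA_e Q h
  · exact s15d_inA_d hdF hj h
  · show InA K F d (c * (Q.e * d))
    rw [← mul_assoc]
    exact s15d_inA_d hdF hj (s15d_inA_e Q h)

theorem s15d_g_inj (hd : d ≠ 0) (hns : ¬ IsSquare d) (hns' : ¬ IsSquare (Q.e * d)) {i i' : Fin 4}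
    (h : IsSquare (s15d_g Q d i * s15d_g Q d i')) : i = i' := by
  have he := Q.e_ne
  have hens := s15d_e_ns Q
  have key : ∀ u v : K, u ≠ 0 → ¬ IsSquare v → ¬ IsSquare (u ^ 2 * v) := fun u v hu hv h => hv (s15d_sq_cancel hu h)
  have k1 := key Q.e d he hns
  have k2 := key d Q.e hd hens
  fin_cases i <;> fin_cases i' <;> simp only [s15d_g] at h <;> first
    | rfl
    | exfalso
      simp only [Fin.zero_eta, Fin.mk_one, Fin.reduceFinMk, Matrix.cons_val, Matrix.cons_val_zero, Matrix.cons_val_one, one_mul, mul_one] at h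
      first
        | exact hens h
        | exact hns h
        | exact hns' h
        | exact hns' (by rwa [mul_comm] at h)
        | exact k1 (by have e : Q.e ^ 2 * d = Q.e * (Q.e * d) := by ring
                       rw [e]; exact h)
        | exact k1 (by have e : Q.e ^ 2 * d = Q.e * d * Q.e := by ring
                       rw [e]; exact h)
        | exact k2 (by have e : d ^ 2 * Q.e = d * (Q.e * d) := by ring
                       rw [e]; exact h)
        | exact k2 (by have e : d ^ 2 * Q.e = Q.e * d * d := by ring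
                       rw [e]; exact h)

theorem s15d_rel (a : K) : (IsSquare (algebraMap K F a) ∨ IsSquare (algebraMap K F d * algebraMap K F a)) ↔
    ∃ i : Fin 4, IsSquare (s15d_g Q d i * a) := by
  rw [← map_mul, sq_up Q, sq_up Q]
  constructor
  · rintro ((h | h) | (h | h))
    · exact ⟨0, by show IsSquare (1 * a); rwa [one_mul]⟩
    · exact ⟨1, h⟩
    · exact ⟨2, h⟩
    · exact ⟨3, by show IsSquare (Q.e * d * a); rwa [mul_assoc]⟩
  · rintro ⟨i, h⟩
    fin_cases i
    · left; left
      have h' : IsSquare (1 * a) := h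
      rwa [one_mul] at h'
    · left; right; exact h
    · right; left; exact h
    · right; right
      have h' : IsSquare (Q.e * d * a) := h
      rwa [mul_assoc] at h'

/-- [S15i] **the Tate–Shafarevich group over `F`.** `V` finite, `rep` a system of representatives of `{c : InA c} / K*²`. PROOF. `card_four` with `A = {z // InA (rep z)}`, `B = {x // ∃ k, 2^k • x = 0}`, `R x z = Rep hdF x (algebraMap (rep z))`, `r z z' = IsSquare (algebraMap (rep z * rep z')) ∨
IsSquare (algebraMap (d * (rep z * rep z')))`: `hex`: `exists_rep`, `two_rep`; `hsurj`: `rep_surj` and `h1` (`Rep` depends only on the class: `s ↦ s r`); `heq`: `rep_eq_iff`. `h4`: by `sq_up` (S14e) `r z z'` iff `rep z * rep z'` is in `{1, e, d, e d} K*²`; by `h1` (uniqueness and existence: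
`rep z * g` is in `A` for `g = 1, e, d, d e`: `LocB` of `e` (a square in `F`) and `d`, `locB_mul`) there are exactly 4 such `z'`, different because `e`, `d`, `d e` are not squares. -/
theorem sha_card (hd : d ≠ 0) (hdF : algebraMap K F d ≠ 0) (hj : j ^ 2 = -1) (hsel : SelTriv K d)
    (hsel' : SelTriv K (d * Q.e ^ 2)) (htri : ∀ v, Tri Q d v) (hfin : Finite (W (algebraMap K F d)).toAffine.Point)
    (hns : ¬ IsSquare d) (hns' : ¬ IsSquare (Q.e * d)) {V : Type} [Finite V] (rep : V → K) (h0 : ∀ z, rep z ≠ 0)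
    (h1 : ∀ c : K, c ≠ 0 → InA K F d c → ∃! z, ∃ r : K, r ≠ 0 ∧ c = rep z * r ^ 2) :
    4 * Nat.card {x : SBSD.Sha (W (algebraMap K F d)) // ∃ k : ℕ, 2 ^ k • x = 0} = Nat.card {z : V // InA K F d (rep z)} ∧
      ∀ (x : SBSD.Sha (W (algebraMap K F d))) (k : ℕ), 2 ^ k • x = 0 → 2 • x = 0 := by
  have hjF : (algebraMap K F j) ^ 2 = -1 := by rw [← map_pow, hj, map_neg, map_one]
  have hnsF : ¬ IsSquare (algebraMap K F d) := by
    rw [sq_up Q]
    rintro (h | h)
    · exact hns h
    · exact hns' h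
  have hneF : ∀ c : K, c ≠ 0 → algebraMap K F c ≠ 0 := fun c hc => (map_ne_zero (algebraMap K F)).2 hc
  refine ⟨?_, ?_⟩
  · refine card_four (A := {z : V // InA K F d (rep z)})
      (B := {x : SBSD.Sha (W (algebraMap K F d)) // ∃ k : ℕ, 2 ^ k • x = 0})
      (fun b a => Rep hdF b.1 (algebraMap K F (rep a.1))) ?_ ?_
      (fun a a' => IsSquare (algebraMap K F (rep a.1) * algebraMap K F (rep a'.1)) ∨
        IsSquare (algebraMap K F d * (algebraMap K F (rep a.1) * algebraMap K F (rep a'.1)))) ?_ ?_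
    · rintro ⟨z, hz⟩
      obtain ⟨x, hx⟩ := exists_rep hdF hjF (hneF _ (h0 z)) hz
      exact ⟨⟨x, 1, by rw [pow_one]; exact two_rep hdF hx⟩, hx⟩
    · rintro ⟨x, k, hk⟩
      obtain ⟨c, hc, hA, hx⟩ := rep_surj Q hd hdF hj hsel hsel' htri x k hk
      obtain ⟨z, ⟨r, hr, hcr⟩, -⟩ := h1 c hc hA
      have hz : InA K F d (rep z) := by
        rw [hcr] at hA
        exact (s15d_inA_sq hr).1 hA
      refine ⟨⟨z, hz⟩, ?_⟩
      rw [hcr, map_mul, map_pow] at hx
      exact s15d_rep hdF (hneF r hr) hx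
    · rintro ⟨x, hx⟩ ⟨x', hx'⟩ ⟨z, hz⟩ ⟨z', hz'⟩ h h'
      rw [Subtype.mk.injEq]
      exact rep_eq_iff hdF hjF hfin hnsF (hneF _ (h0 z)) (hneF _ (h0 z')) h h'
    · rintro ⟨z, hz⟩
      -- the bijection
      have hex : ∀ i : Fin 4, ∃ a' : {z : V // InA K F d (rep z)}, ∃ t : K, t ≠ 0 ∧
          rep z * s15d_g Q d i = rep a'.1 * t ^ 2 := by
        intro i
        obtain ⟨z', ⟨t, ht, hzt⟩, -⟩ := h1 (rep z * s15d_g Q d i) (mul_ne_zero (h0 z) (s15d_g_ne Q hd i))
          (s15d_g_inA Q hdF hj hz i)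
        have hz' : InA K F d (rep z') := by
          have hA := s15d_g_inA Q hdF hj hz i
          rw [hzt] at hA
          exact (s15d_inA_sq ht).1 hA
        exact ⟨⟨z', hz'⟩, t, ht, hzt⟩
      choose zz tt htt hzz using hex
      have hrel : ∀ a' : {z : V // InA K F d (rep z)},
          (IsSquare (algebraMap K F (rep z) * algebraMap K F (rep a'.1)) ∨
            IsSquare (algebraMap K F d * (algebraMap K F (rep z) * algebraMap K F (rep a'.1)))) ↔
          ∃ i : Fin 4, ∃ t : K, t ≠ 0 ∧ rep z * s15d_g Q d i = rep a'.1 * t ^ 2 := by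
        intro a'
        rw [← map_mul, s15d_rel Q]
        exact exists_congr fun i => s15d_sim (h0 z) (h0 a'.1) (s15d_g_ne Q hd i)
      let f : Fin 4 → {a' : {z : V // InA K F d (rep z)} //
          IsSquare (algebraMap K F (rep z) * algebraMap K F (rep a'.1)) ∨
            IsSquare (algebraMap K F d * (algebraMap K F (rep z) * algebraMap K F (rep a'.1)))} :=
        fun i => ⟨zz i, (hrel (zz i)).2 ⟨i, tt i, htt i, hzz i⟩⟩
      have hf : Function.Bijective f := by
        refine ⟨?_, ?_⟩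
        · intro i i' hii
          have h2 : zz i = zz i' := congrArg Subtype.val hii
          apply s15d_g_inj Q hd hns hns'
          have h3 := hzz i
          have h4 := hzz i'
          rw [← h2] at h4
          apply s15d_sq_cancel (h0 z)
          refine ⟨rep (zz i).1 * tt i * tt i', ?_⟩
          have h5 : rep z ^ 2 * (s15d_g Q d i * s15d_g Q d i') = (rep z * s15d_g Q d i) * (rep z * s15d_g Q d i') := by
            ring
          rw [h5, h3, h4]
          ring
        · rintro ⟨a', ha'⟩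
          obtain ⟨i, t, ht, hzt⟩ := (hrel a').1 ha'
          refine ⟨i, ?_⟩
          apply Subtype.ext
          apply Subtype.ext
          have hu := h1 (rep z * s15d_g Q d i) (mul_ne_zero (h0 z) (s15d_g_ne Q hd i))
            (s15d_g_inA Q hdF hj hz i)
          exact hu.unique ⟨tt i, htt i, hzz i⟩ ⟨t, ht, hzt⟩
      have hcard := Nat.card_eq_of_bijective f hf
      rw [Nat.card_eq_fintype_card, Fintype.card_fin] at hcard
      exact hcard.symm
  · intro x k hk
    obtain ⟨c, hc, hA, hx⟩ := rep_surj Q hd hdF hj hsel hsel' htri x k hk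
    exact two_rep hdF hx

end

end QTB
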