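import Pool.Agent.QTB.S0

/-!
# [QTB-S1a] the corestriction and the extension are cocycles
-/

set_option autoImplicit false

open scoped Classical

namespace QTB

section

variable {G A : Type} [Group G] [AddCommGroup A] {ρ : G → A →+ A} {H : G → Prop} {τ : G}

theorem s1a_basic (hH : Idx2 H τ) : (∀ g, H g⁻¹ ↔ H g) ∧ (∀ g, H (τ⁻¹ * g * τ) ↔ H g) ∧
    (∀ g, ¬ H g → H (g * τ)) ∧ (∀ g, ¬ H g → H (τ⁻¹ * g)) := by
  have hmul := hH.mul
  have hinv : ∀ g, H g⁻¹ ↔ H g := by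
    intro g
    have := hmul g⁻¹ g
    rw [inv_mul_cancel] at this
    exact this.1 hH.one
  have hti : ¬ H τ⁻¹ := fun h => hH.tau ((hinv τ).1 h)
  refine ⟨hinv, ?_, ?_, ?_⟩
  · intro g
    rw [hmul, hmul]
    have := hH.tau
    tauto
  · intro g hg
    exact (hmul g τ).2 (iff_of_false hg hH.tau)
  · intro g hg
    exact (hmul τ⁻¹ g).2 (iff_of_false hti hg)

/-! ### [S1a] the corestriction is a twisted cocycle

PROOF. First: `H g⁻¹ ↔ H g`, `H (τ⁻¹ g τ) ↔ H g`; for `¬ H g`: `H (g τ)`, `H (τ⁻¹ g)`. Write `η = eta ρ H τ X`. Unfold `eta`, `sg` and split the 4 cases `H g`, `H h`.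
* `H g`, `H h`: `τ⁻¹ g h τ = (τ⁻¹ g τ) (τ⁻¹ h τ)`, `X` is crossed, `ρ τ (ρ (τ⁻¹ g τ) a) = ρ g (ρ τ a)`.
* `H g`, `¬ H h`: `X (g (h τ)) = X g + g X (h τ)`; `X (τ⁻¹ g h) = X ((τ⁻¹ g τ) (τ⁻¹ h)) = X (τ⁻¹ g τ) + (τ⁻¹ g τ) X (τ⁻¹ h)`.
* `¬ H g`, `H h`: `X (g h τ) = X ((g τ) (τ⁻¹ h τ)) = X (g τ) + g τ X (τ⁻¹ h τ)`, `X (τ⁻¹ g h) = X (τ⁻¹ g) + τ⁻¹ g X h`; so `η (g h) = η g - g (X h - τ X (τ⁻¹ h τ))`.
* `¬ H g`, `¬ H h`: `X (g h) = X ((g τ) (τ⁻¹ h)) = X (g τ) + g τ X (τ⁻¹ h)`, `X (τ⁻¹ g h τ) = X (τ⁻¹ g) + τ⁻¹ g X (h τ)`; so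
  `η (g h) = η g + g τ X (τ⁻¹ h) - g X (h τ) = η g - g η h`. -/
theorem eta_crossed (hρ : IsAct ρ) (hH : Idx2 H τ) {X : G → A}
    (hX : ∀ g h, H g → H h → X (g * h) = X g + ρ g (X h)) (g h : G) :
    eta ρ H τ X (g * h) = eta ρ H τ X g + sg H g (ρ g (eta ρ H τ X h)) := by
  obtain ⟨hinv, hconj, hgt, htg⟩ := s1a_basic hH
  have hmul := hH.mul
  by_cases hg : H g <;> by_cases hh : H h
  · have hgh : H (g * h) := (hmul g h).2 (iff_of_true hg hh)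
    simp only [eta, sg, if_pos hg, if_pos hh, if_pos hgh]
    have e1 : τ⁻¹ * (g * h) * τ = (τ⁻¹ * g * τ) * (τ⁻¹ * h * τ) := by group
    have e2 : τ * (τ⁻¹ * g * τ) = g * τ := by group
    rw [e1, hX g h hg hh, hX _ _ ((hconj g).2 hg) ((hconj h).2 hh), map_add, ← hρ.mul, e2,
      map_sub, ← hρ.mul g τ]
    abel
  · have hgh : ¬ H (g * h) := fun h' => hh (((hmul g h).1 h').1 hg)
    simp only [eta, sg, if_pos hg, if_neg hh, if_neg hgh]
    have e0 : g * h * τ = g * (h * τ) := by group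
    have e1 : τ⁻¹ * (g * h) = (τ⁻¹ * g * τ) * (τ⁻¹ * h) := by group
    have e2 : τ * (τ⁻¹ * g * τ) = g * τ := by group
    rw [e0, e1, hX g (h * τ) hg (hgt h hh), hX _ _ ((hconj g).2 hg) (htg h hh), map_add,
      ← hρ.mul, e2, map_sub, ← hρ.mul g τ]
    abel
  · have hgh : ¬ H (g * h) := fun h' => hg (((hmul g h).1 h').2 hh)
    simp only [eta, sg, if_neg hg, if_pos hh, if_neg hgh]
    have e0 : g * h * τ = (g * τ) * (τ⁻¹ * h * τ) := by group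
    have e1 : τ⁻¹ * (g * h) = (τ⁻¹ * g) * h := by group
    have e2 : τ * (τ⁻¹ * g) = g := by group
    rw [e0, e1, hX (g * τ) _ (hgt g hg) ((hconj h).2 hh), hX _ _ (htg g hg) hh, map_add,
      ← hρ.mul, e2, map_sub, ← hρ.mul g τ]
    abel
  · have hgh : H (g * h) := (hmul g h).2 (iff_of_false hg hh)
    simp only [eta, sg, if_neg hg, if_neg hh, if_pos hgh]
    have e0 : g * h = (g * τ) * (τ⁻¹ * h) := by group
    have e1 : τ⁻¹ * (g * h) * τ = (τ⁻¹ * g) * (h * τ) := by group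
    have e2 : τ * (τ⁻¹ * g) = g := by group
    rw [e1, e0, hX (g * τ) _ (hgt g hg) (htg h hh), hX _ _ (htg g hg) (hgt h hh), map_add,
      ← hρ.mul, e2, map_sub, ← hρ.mul g τ]
    abel

/-! ### [S1b] the extension is a cocycle

PROOF. `hη h` for `H h`: `τ X (τ⁻¹ h τ) = X h - h P + P`; for `¬ H h`: `τ X (τ⁻¹ h) = X (h τ) + h P + P`. Write `y = ext ρ H τ X P`; 4 cases:
* `H g`, `H h`: clear. `H g`, `¬ H h`: `y (g h) = X (g (h τ)) + g h P = X g + g (X (h τ) + h P)`.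
* `¬ H g`, `H h`: `y (g h) = X (g h τ) + g h P`, `X (g h τ) = X ((g τ) (τ⁻¹ h τ)) = X (g τ) + g (τ X (τ⁻¹ h τ)) = X (g τ) + g (X h) - g h P + g P`.
* `¬ H g`, `¬ H h`: `y (g h) = X (g h) = X ((g τ) (τ⁻¹ h)) = X (g τ) + g (τ X (τ⁻¹ h)) = X (g τ) + g X (h τ) + g h P + g P = y g + g (y h)`. -/
theorem ext_crossed (hρ : IsAct ρ) (hH : Idx2 H τ) {X : G → A}
    (hX : ∀ g h, H g → H h → X (g * h) = X g + ρ g (X h)) {P : A}
    (hη : ∀ g, eta ρ H τ X g = sg H g (ρ g P) - P) (g h : G) :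
    ext ρ H τ X P (g * h) = ext ρ H τ X P g + ρ g (ext ρ H τ X P h) := by
  obtain ⟨hinv, hconj, hgt, htg⟩ := s1a_basic hH
  have hmul := hH.mul
  have h1 : ∀ h, H h → ρ τ (X (τ⁻¹ * h * τ)) = X h - ρ h P + P := by
    intro h hh
    have := hη h
    simp only [eta, sg, if_pos hh] at this
    have e : ρ τ (X (τ⁻¹ * h * τ)) = X h - (X h - ρ τ (X (τ⁻¹ * h * τ))) := by abel
    rw [e, this]
    abel
  have h2 : ∀ h, ¬ H h → ρ τ (X (τ⁻¹ * h)) = X (h * τ) + ρ h P + P := by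
    intro h hh
    have := hη h
    simp only [eta, sg, if_neg hh] at this
    have e : ρ τ (X (τ⁻¹ * h)) = X (h * τ) - (X (h * τ) - ρ τ (X (τ⁻¹ * h))) := by abel
    rw [e, this]
    abel
  by_cases hg : H g <;> by_cases hh : H h
  · have hgh : H (g * h) := (hmul g h).2 (iff_of_true hg hh)
    simp only [ext, if_pos hg, if_pos hh, if_pos hgh]
    exact hX g h hg hh
  · have hgh : ¬ H (g * h) := fun h' => hh (((hmul g h).1 h').1 hg)
    simp only [ext, if_pos hg, if_neg hh, if_neg hgh]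
    have e0 : g * h * τ = g * (h * τ) := by group
    rw [e0, hX g (h * τ) hg (hgt h hh), hρ.mul, map_add]
    abel
  · have hgh : ¬ H (g * h) := fun h' => hg (((hmul g h).1 h').2 hh)
    simp only [ext, if_neg hg, if_pos hh, if_neg hgh]
    have e0 : g * h * τ = (g * τ) * (τ⁻¹ * h * τ) := by group
    rw [e0, hX (g * τ) _ (hgt g hg) ((hconj h).2 hh), hρ.mul g τ, h1 h hh, hρ.mul g h, map_add,
      map_sub]
    abel
  · have hgh : H (g * h) := (hmul g h).2 (iff_of_false hg hh)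
    simp only [ext, if_neg hg, if_neg hh, if_pos hgh]
    have e0 : g * h = (g * τ) * (τ⁻¹ * h) := by group
    rw [e0, hX (g * τ) _ (hgt g hg) (htg h hh), hρ.mul g τ, h2 h hh, map_add, map_add]
    abel

end

end QTB
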