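import Pool.Agent.QTB.S0

/-!
# [QTB-S1c] the local corestriction
-/

set_option autoImplicit false

open scoped Classical

namespace QTB

section

variable {G A : Type} [Group G] [AddCommGroup A] {ρ : G → A →+ A} {H : G → Prop} {τ : G}

/-! ### [S1f], [S1g] the local corestriction

`r : Γ → G` the restriction, `ι : A → B` equivariant.

PROOF of S1f: unfold `eta` (`H (r γ)`), `map_sub`. -/
theorem eta_loc_split {Γ B : Type} [Group Γ] [AddCommGroup B] {ρ' : Γ → B →+ B} {r : Γ →* G} {ι : A →+ B}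
    {X : G → A} (hall : ∀ γ, H (r γ)) {Q1 Q2 : B} (h1 : ∀ γ, ι (X (r γ)) = ρ' γ Q1 - Q1)
    (h2 : ∀ γ, ι (ρ τ (X (τ⁻¹ * r γ * τ))) = ρ' γ Q2 - Q2) (γ : Γ) :
    ι (eta ρ H τ X (r γ)) = ρ' γ (Q1 - Q2) - (Q1 - Q2) := by
  unfold eta
  rw [if_pos (hall γ), map_sub, h1, h2, map_sub]
  abel

/-- PROOF of S1g: `k = (r t)⁻¹ τ`, `H k`, `Q2 = t (Q1 + ι X k)`, `R = Q1 - Q2`; `ι (τ a) = t (ι (k a))` (as `τ = (r t) k`).
`H (r γ)`, `h = r γ`: `τ⁻¹ h τ = k⁻¹ (r (t⁻¹ γ t)) k`; `k X (k⁻¹ u k) = X (u k) - X k = X u + u X k - X k` (`u = r (t⁻¹ γ t)`, `H u`; `X 1 = 0`), so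
`ι τ X (τ⁻¹ h τ) = t ι (X u + u X k - X k) = t (t⁻¹ γ t Q1 - Q1 + t⁻¹ γ t ι X k - ι X k) = γ Q2 - Q2`; `ι X h = γ Q1 - Q1`.
`¬ H (r γ)`, `h = r γ`: `h τ = (r (γ t)) k`: `ι X (h τ) = ι X (r (γ t)) + γ t ι X k = γ t Q1 - Q1 + γ t ι X k = γ Q2 - Q1`;
`τ⁻¹ h = k⁻¹ u`, `u = r (t⁻¹ γ)`, `H u`: `k X (k⁻¹ u) = X u - X k` so `ι τ X (τ⁻¹ h) = t (t⁻¹ γ Q1 - Q1 - ι X k) = γ Q1 - Q2`. The difference:
`γ Q2 - Q1 - γ Q1 + Q2 = - γ R - R`. -/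
theorem eta_loc_nonsplit {Γ B : Type} [Group Γ] [AddCommGroup B] {ρ' : Γ → B →+ B} {r : Γ →* G} {ι : A →+ B}
    (hρ : IsAct ρ) (hρ' : IsAct ρ') (hH : Idx2 H τ) (hι : ∀ γ a, ι (ρ (r γ) a) = ρ' γ (ι a))
    {X : G → A} (hX : ∀ g h, H g → H h → X (g * h) = X g + ρ g (X h)) {t : Γ} (ht : ¬ H (r t)) {Q1 : B}
    (h1 : ∀ γ, H (r γ) → ι (X (r γ)) = ρ' γ Q1 - Q1) :
    ∃ R : B, ∀ γ, ι (eta ρ H τ X (r γ)) = (if H (r γ) then ρ' γ R else -ρ' γ R) - R := by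
  have hinv : ∀ g, H g⁻¹ ↔ H g := by
    intro g
    have h2 : H g ↔ H g⁻¹ := (hH.mul g g⁻¹).1 (by rw [mul_inv_cancel]; exact hH.one)
    exact h2.symm
  obtain ⟨k, hk⟩ : ∃ k, k = (r t)⁻¹ * τ := ⟨_, rfl⟩
  have hHk : H k := by
    rw [hk, hH.mul, hinv]
    exact ⟨fun h => absurd h ht, fun h => absurd h hH.tau⟩
  have hτ : τ = r t * k := by rw [hk, mul_inv_cancel_left]
  have hρτ : ∀ a, ι (ρ τ a) = ρ' t (ι (ρ k a)) := by
    intro a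
    rw [hτ, hρ.mul, hι]
  have hkX : ∀ u, H u → ρ k (X (k⁻¹ * u)) = X u - X k := by
    intro u hu
    have hku : H (k⁻¹ * u) := by
      rw [hH.mul, hinv]
      exact ⟨fun _ => hu, fun _ => hHk⟩
    have h2 := hX k (k⁻¹ * u) hHk hku
    rw [mul_inv_cancel_left] at h2
    rw [h2, add_sub_cancel_left]
  refine ⟨Q1 - ρ' t (Q1 + ι (X k)), fun γ => ?_⟩
  have htt : ∀ b, ρ' t (ρ' (t⁻¹ * γ) b) = ρ' γ b := by
    intro b
    rw [← hρ'.mul, mul_inv_cancel_left]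
  unfold eta
  by_cases hγ : H (r γ)
  · rw [if_pos hγ, if_pos hγ]
    have hu : H (r (t⁻¹ * γ * t)) := by
      rw [map_mul, map_mul, map_inv, hH.mul, hH.mul, hinv]
      exact ⟨fun h => absurd (h.2 hγ) ht, fun h => absurd h ht⟩
    have huk : H (r (t⁻¹ * γ * t) * k) := by
      rw [hH.mul]
      exact ⟨fun _ => hHk, fun _ => hu⟩
    have he : τ⁻¹ * r γ * τ = k⁻¹ * (r (t⁻¹ * γ * t) * k) := by
      rw [hτ, map_mul, map_mul, map_inv]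
      group
    rw [map_sub, hρτ, he, hkX _ huk, hX _ _ hu hHk, map_sub, map_add, hι, h1 _ hu, h1 _ hγ]
    have h3 : ∀ b, ρ' t (ρ' (t⁻¹ * γ * t) b) = ρ' γ (ρ' t b) := by
      intro b
      rw [← hρ'.mul, ← hρ'.mul]
      congr 2
      group
    simp only [map_sub, map_add, h3]
    abel
  · rw [if_neg hγ, if_neg hγ]
    have hu : H (r (t⁻¹ * γ)) := by
      rw [map_mul, map_inv, hH.mul, hinv]
      exact ⟨fun h => absurd h ht, fun h => absurd h hγ⟩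
    have hv : H (r (γ * t)) := by
      rw [map_mul, hH.mul]
      exact ⟨fun h => absurd h hγ, fun h => absurd h ht⟩
    have he1 : r γ * τ = r (γ * t) * k := by
      rw [hτ, map_mul, mul_assoc]
    have he2 : τ⁻¹ * r γ = k⁻¹ * r (t⁻¹ * γ) := by
      rw [hτ, map_mul, map_inv, mul_inv_rev, mul_assoc]
    rw [map_sub, hρτ, he1, he2, hkX _ hu, hX _ _ hv hHk, map_add, map_sub, hι, h1 _ hu, h1 _ hv]
    have h4 : ∀ b, ρ' (γ * t) b = ρ' γ (ρ' t b) := fun b => hρ'.mul _ _ _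
    simp only [map_sub, map_add, htt, h4]
    abel

end

end QTB
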