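import Pool.Agent.QTB.S0

/-!
# [QTB-S2] the isomorphism `(x, y) ↦ (u² x, u³ y)` from `y² = x³ - d x` to `y² = x³ - u⁴ d x`
-/

set_option autoImplicit false

open scoped Classical

namespace QTB

open QT (W)
open QTD

section

variable {K : Type} [Field K] {d d' u : K}

/-- [S2a] PROOF. As `imP_nonsing` (QT/D0): `WeierstrassCurve.Affine.nonsingular_iff`, `W_equation`. -/
theorem scal_nonsing (hu : u ≠ 0) (h : d' = u ^ 4 * d) {x y : K}
    (hxy : (W d).toAffine.Nonsingular x y) : (W d').toAffine.Nonsingular (u ^ 2 * x) (u ^ 3 * y) := by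
  rw [WeierstrassCurve.Affine.nonsingular_iff] at hxy ⊢
  rw [W_equation] at hxy ⊢
  obtain ⟨h1, h2⟩ := hxy
  refine ⟨by rw [h]; linear_combination (u ^ 6) * h1, ?_⟩
  simp only [W] at h2 ⊢
  rcases h2 with h2 | h2
  · left
    intro h3
    apply h2
    have h4 : u ^ 4 ≠ 0 := pow_ne_zero _ hu
    apply mul_left_cancel₀ h4
    rw [h] at h3
    linear_combination h3
  · right
    intro h3
    apply h2
    have h4 : u ^ 3 ≠ 0 := pow_ne_zero _ hu
    apply mul_left_cancel₀ h4
    linear_combination h3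

/-- `(x, y) ↦ (u² x, u³ y)` -/
def scalP (hu : u ≠ 0) (h : d' = u ^ 4 * d) : (W d).toAffine.Point → (W d').toAffine.Point
  | .zero => .zero
  | .some x y hxy => .some (u ^ 2 * x) (u ^ 3 * y) (scal_nonsing hu h hxy)

theorem s2_slope (hu : u ≠ 0) (h : d' = u ^ 4 * d) (x₁ x₂ y₁ y₂ : K)
    (h₁ : (W d).toAffine.Equation x₁ y₁) (h₂ : (W d).toAffine.Equation x₂ y₂)
    (hxy : ¬ (x₁ = x₂ ∧ y₁ = (W d).toAffine.negY x₂ y₂)) :
    (W d').toAffine.slope (u ^ 2 * x₁) (u ^ 2 * x₂) (u ^ 3 * y₁) (u ^ 3 * y₂) =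
      u * (W d).toAffine.slope x₁ x₂ y₁ y₂ := by
  have hu2 : u ^ 2 ≠ 0 := pow_ne_zero _ hu
  have hu3 : u ^ 3 ≠ 0 := pow_ne_zero _ hu
  by_cases hx : x₁ = x₂
  · have hy : y₁ ≠ (W d).toAffine.negY x₂ y₂ := fun h => hxy ⟨hx, h⟩
    have hy12 : y₁ = y₂ := WeierstrassCurve.Affine.Y_eq_of_Y_ne h₁ h₂ hx hy
    have hy' : u ^ 3 * y₁ ≠ (W d').toAffine.negY (u ^ 2 * x₂) (u ^ 3 * y₂) := by
      rw [d2_negY] at hy ⊢
      intro h
      apply hy
      apply mul_left_cancel₀ hu3
      linear_combination h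
    rw [WeierstrassCurve.Affine.slope_of_Y_ne hx hy,
      WeierstrassCurve.Affine.slope_of_Y_ne (by rw [hx]) hy']
    rw [d2_negY] at hy
    rw [d2_negY, d2_negY]
    simp only [W]
    have h2 : y₁ - -y₁ ≠ 0 := by
      intro h
      apply hy
      rw [← hy12]
      linear_combination h
    have h3 : u ^ 3 * y₁ - -(u ^ 3 * y₁) ≠ 0 := by
      have : u ^ 3 * y₁ - -(u ^ 3 * y₁) = u ^ 3 * (y₁ - -y₁) := by ring
      rw [this]
      exact mul_ne_zero hu3 h2
    rw [div_eq_iff h3, mul_div_assoc', div_mul_eq_mul_div, eq_div_iff h2, h]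
    ring
  · have hx' : u ^ 2 * x₁ ≠ u ^ 2 * x₂ := fun h => hx (mul_left_cancel₀ hu2 h)
    rw [WeierstrassCurve.Affine.slope_of_X_ne hx, WeierstrassCurve.Affine.slope_of_X_ne hx']
    have h2 : x₁ - x₂ ≠ 0 := sub_ne_zero.2 hx
    have h3 : u ^ 2 * x₁ - u ^ 2 * x₂ ≠ 0 := sub_ne_zero.2 hx'
    rw [div_eq_iff h3, mul_div_assoc', div_mul_eq_mul_div, eq_div_iff h2]
    ring

/-- [S2b] PROOF. Port of `imP_add`, `d2_slope` (QT/D2; compare `s1_slope`, `scal_add` in MP_9ab903_nt/TH/F1.lean): the slope is multiplied by `u`. -/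
theorem scalP_add (hu : u ≠ 0) (h : d' = u ^ 4 * d) (P Q : (W d).toAffine.Point) :
    scalP hu h (P + Q) = scalP hu h P + scalP hu h Q := by
  cases P with
  | zero =>
    have h0 : (WeierstrassCurve.Affine.Point.zero : (W d).toAffine.Point) = 0 := rfl
    have h1 : scalP hu h (0 : (W d).toAffine.Point) = 0 := rfl
    rw [h0, zero_add, h1, zero_add]
  | some x₁ y₁ h₁ =>
    cases Q with
    | zero =>
      have h0 : (WeierstrassCurve.Affine.Point.zero : (W d).toAffine.Point) = 0 := rfl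
      have h1 : scalP hu h (0 : (W d).toAffine.Point) = 0 := rfl
      rw [h0, add_zero, h1, add_zero]
    | some x₂ y₂ h₂ =>
      have hu2 : u ^ 2 ≠ 0 := pow_ne_zero _ hu
      have hu3 : u ^ 3 ≠ 0 := pow_ne_zero _ hu
      by_cases hxy : x₁ = x₂ ∧ y₁ = (W d).toAffine.negY x₂ y₂
      · rw [WeierstrassCurve.Affine.Point.add_of_Y_eq hxy.1 hxy.2]
        have h1 : scalP hu h (0 : (W d).toAffine.Point) = 0 := rfl
        rw [h1]
        symm
        apply WeierstrassCurve.Affine.Point.add_of_Y_eq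
        · rw [hxy.1]
        · rw [hxy.2, d2_negY, d2_negY]
          ring
      · rw [WeierstrassCurve.Affine.Point.add_some hxy]
        have hxy' : ¬ (u ^ 2 * x₁ = u ^ 2 * x₂ ∧
            u ^ 3 * y₁ = (W d').toAffine.negY (u ^ 2 * x₂) (u ^ 3 * y₂)) := by
          rintro ⟨h3, h4⟩
          apply hxy
          rw [d2_negY] at h4 ⊢
          refine ⟨mul_left_cancel₀ hu2 h3, mul_left_cancel₀ hu3 ?_⟩
          linear_combination h4
        simp only [scalP]
        rw [WeierstrassCurve.Affine.Point.add_some hxy']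
        rw [WeierstrassCurve.Affine.Point.some.injEq]
        rw [s2_slope hu h x₁ x₂ y₁ y₂ h₁.1 h₂.1 hxy]
        simp only [d2_addX, d2_addY]
        constructor <;> ring

theorem scalP_zero (hu : u ≠ 0) (h : d' = u ^ 4 * d) : scalP hu h 0 = 0 := rfl

/-- the additive homomorphism -/
noncomputable def scalHom (hu : u ≠ 0) (h : d' = u ^ 4 * d) :
    (W d).toAffine.Point →+ (W d').toAffine.Point :=
  AddMonoidHom.mk' (scalP hu h) (scalP_add hu h)

theorem scalHom_apply (hu : u ≠ 0) (h : d' = u ^ 4 * d) (P : (W d).toAffine.Point) :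
    scalHom hu h P = scalP hu h P := rfl

/-- [S2c] the inverse -/
theorem scalP_scalP (hu : u ≠ 0) (h : d' = u ^ 4 * d) {u' : K} (hu' : u' ≠ 0) (h' : d = u' ^ 4 * d')
    (huu : u' * u = 1) (P : (W d).toAffine.Point) : scalP hu' h' (scalP hu h P) = P := by
  cases P with
  | zero => rfl
  | some x y hP =>
    simp only [scalP, WeierstrassCurve.Affine.Point.some.injEq]
    have h2 : u' ^ 2 * u ^ 2 = 1 := by rw [← mul_pow, huu, one_pow]
    have h3 : u' ^ 3 * u ^ 3 = 1 := by rw [← mul_pow, huu, one_pow]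
    constructor
    · linear_combination x * h2
    · linear_combination y * h3

/-- [S2d] -/
theorem scalP_neg_u (hu : u ≠ 0) (h : d' = u ^ 4 * d) {u' : K} (hu' : u' ≠ 0) (h' : d' = u' ^ 4 * d)
    (huu : u' = -u) (P : (W d).toAffine.Point) : scalP hu' h' P = -scalP hu h P := by
  cases P with
  | zero => rfl
  | some x y hP =>
    simp only [scalP, WeierstrassCurve.Affine.Point.neg_some,
      WeierstrassCurve.Affine.Point.some.injEq, d2_negY]
    rw [huu]
    constructor <;> ring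

/-- [S2e] -/
theorem ptW_scalP {L : Type} [Field L] (f : K →+* L) {δ δ' v : L} (hu : u ≠ 0) (h : d' = u ^ 4 * d)
    (hδ : f d = δ) (hδ' : f d' = δ') (hv : v ≠ 0) (h' : δ' = v ^ 4 * δ) (huv : f u = v)
    (P : (W d).toAffine.Point) : ptW f hδ' (scalP hu h P) = scalP hv h' (ptW f hδ P) := by
  subst huv
  cases P with
  | zero => rfl
  | some x y hP =>
    simp only [scalP, ptW, map_mul, map_pow]

/-- [S2f] -/
theorem imP_scalP {j : K} (hj : j ^ 2 = -1) (hu : u ≠ 0) (h : d' = u ^ 4 * d) (P : (W d).toAffine.Point) :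
    imP hj (scalP hu h P) = scalP hu h (imP hj P) := by
  cases P with
  | zero => rfl
  | some x y hP =>
    simp only [scalP, imP, WeierstrassCurve.Affine.Point.some.injEq]
    constructor <;> ring

/-- [S2g] -/
theorem scalP_injective (hu : u ≠ 0) (h : d' = u ^ 4 * d) : Function.Injective (scalP hu h) := by
  have hi : u⁻¹ ≠ 0 := inv_ne_zero hu
  have h' : d = u⁻¹ ^ 4 * d' := by
    rw [h]
    field_simp
  exact Function.LeftInverse.injective fun P =>
    scalP_scalP hu h hi h' (inv_mul_cancel₀ hu) P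

/-- [S2h] -/
theorem scalP_surjective (hu : u ≠ 0) (h : d' = u ^ 4 * d) : Function.Surjective (scalP hu h) := by
  have hi : u⁻¹ ≠ 0 := inv_ne_zero hu
  have h' : d = u⁻¹ ^ 4 * d' := by
    rw [h]
    field_simp
  exact Function.RightInverse.surjective fun P =>
    scalP_scalP hi h' hu h (mul_inv_cancel₀ hu) P

end

end QTB
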