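import Pool.Agent.QTB.S0

/-!
# [QTB-S4a] the action of the Galois group on the points; restriction of automorphisms
-/

set_option autoImplicit false

open NumberField IsDedekindDomain
open scoped Classical

namespace QTB

open QT (W)
open QTD

section

variable {K L : Type} [Field K] [Field L] [Algebra K L]

/-- the action on the points -/
noncomputable def actW (d : K) (σ : L ≃ₐ[K] L) :
    (W (algebraMap K L d)).toAffine.Point →+ (W (algebraMap K L d)).toAffine.Point :=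
  ptHomW (σ : L →+* L) (gal_comm σ d)

theorem actW_apply (d : K) (σ : L ≃ₐ[K] L) (P : (W (algebraMap K L d)).toAffine.Point) :
    actW d σ P = ptW (σ : L →+* L) (gal_comm σ d) P := rfl

/-- [S4a] PROOF. `ptW_id`, `d9_comp` (QT/D9). -/
theorem isAct (d : K) : IsAct (actW (L := L) d) := by
  refine ⟨fun a => ?_, fun g h a => ?_⟩
  · exact ptW_id a
  · exact d9_comp g h a

/-- the subgroup `H` -/
def HH (θ : L) (σ : L ≃ₐ[K] L) : Prop := σ θ = θ

theorem s4a_or {m : K} {θ : L} (hθ : θ ^ 2 = algebraMap K L m) (σ : L ≃ₐ[K] L) :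
    σ θ = θ ∨ σ θ = -θ := by
  have h1 : (σ θ) ^ 2 = θ ^ 2 := by
    rw [← map_pow, hθ, σ.commutes]
  exact sq_eq_sq_iff_eq_or_eq_neg.1 h1

theorem s4a_ne [CharZero K] {m : K} (hm : m ≠ 0) {θ : L} (hθ : θ ^ 2 = algebraMap K L m) :
    θ ≠ -θ := by
  have : CharZero L := charZero_of_injective_algebraMap (algebraMap K L).injective
  intro h
  have h0 : θ = 0 := self_eq_neg.1 h
  rw [h0, zero_pow two_ne_zero] at hθ
  exact hm ((map_eq_zero (algebraMap K L)).1 hθ.symm)

/-- [S4b] PROOF. `θ² = m` is fixed, so `σ θ = θ` or `σ θ = -θ` (`sq_eq_sq_iff_eq_or_eq_neg`), `θ ≠ -θ`. -/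
theorem idx2 [CharZero K] {m : K} (hm : m ≠ 0) {θ : L} (hθ : θ ^ 2 = algebraMap K L m) {τ : L ≃ₐ[K] L}
    (hτ : τ θ ≠ θ) : Idx2 (HH (K := K) θ) τ := by
  have hne : θ ≠ -θ := s4a_ne hm hθ
  have hne' : -θ ≠ θ := fun h => hne h.symm
  refine ⟨rfl, fun g h => ?_, hτ⟩
  change (g * h) θ = θ ↔ (g θ = θ ↔ h θ = θ)
  rw [AlgEquiv.mul_apply]
  rcases s4a_or hθ g with hg | hg <;> rcases s4a_or hθ h with hh | hh
  · rw [hh, hg]
    exact ⟨fun _ => Iff.rfl, fun _ => rfl⟩
  · rw [hh, map_neg, hg]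
    constructor
    · intro h1
      exact absurd h1 hne'
    · intro h1
      exact absurd (h1.1 rfl) hne'
  · rw [hh, hg]
    constructor
    · intro h1
      exact absurd h1 hne'
    · intro h1
      exact absurd (h1.2 rfl) hne'
  · rw [hh, map_neg, hg, neg_neg]
    exact ⟨fun _ => Iff.rfl, fun _ => rfl⟩

/-- [S4c] -/
theorem not_HH [CharZero K] {m : K} {θ : L} (hθ : θ ^ 2 = algebraMap K L m) {σ : L ≃ₐ[K] L}
    (h : ¬ HH θ σ) : σ θ = -θ := by
  rcases s4a_or hθ σ with h1 | h1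
  · exact absurd h1 h
  · exact h1

/-- [S4d] `τ` exists, if `m` is not a square. PROOF. `θ` is not in the image of `K`, so some `τ` moves it (`InfiniteGalois.mem_range_algebraMap_iff_fixed`, as in QT/D6 at the end). -/
theorem exists_tau [CharZero K] [IsAlgClosure K L] {m : K} (hm : ¬ IsSquare m) {θ : L}
    (hθ : θ ^ 2 = algebraMap K L m) : ∃ τ : L ≃ₐ[K] L, τ θ ≠ θ := by
  by_contra hcon
  push Not at hcon
  have : CharZero L := charZero_of_injective_algebraMap (algebraMap K L).injective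
  have : Normal K L := IsAlgClosure.normal K L
  have halg : Algebra.IsAlgebraic K L := IsAlgClosure.isAlgebraic
  have : IsGalois K L := ⟨⟩
  obtain ⟨a, ha⟩ := (InfiniteGalois.mem_range_algebraMap_iff_fixed (k := K) θ).2 hcon
  apply hm
  refine ⟨a, (algebraMap K L).injective ?_⟩
  rw [map_mul, ha, ← hθ]
  ring

/-- [S4e] the restriction of automorphisms. PROOF. As `hres` in QT/D7 (`AlgEquiv.restrictNormalHom` for the algebra structure given by `ι`, or `choose` from `hres`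
and injectivity of `ι` for the multiplicativity). -/
theorem exists_res [CharZero K] [IsAlgClosure K L] {Kv Lv : Type} [Field Kv] [Algebra K Kv] [Field Lv] [Algebra Kv Lv]
    [Algebra K Lv] [IsScalarTower K Kv Lv] (ι : L →ₐ[K] Lv) :
    ∃ r : (Lv ≃ₐ[Kv] Lv) →* (L ≃ₐ[K] L), (∀ τ x, ι (r τ x) = τ (ι x)) ∧
      ∀ (τ : Lv ≃ₐ[Kv] Lv) (σ : L ≃ₐ[K] L), (∀ x, ι (σ x) = τ (ι x)) → σ = r τ := by
  have : CharZero L := charZero_of_injective_algebraMap (algebraMap K L).injective
  have : Normal K L := IsAlgClosure.normal K L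
  have hres : ∀ τ : Lv ≃ₐ[Kv] Lv, ∃ σ : L ≃ₐ[K] L, ∀ x, ι (σ x) = τ (ι x) := by
    intro τ
    let _ : Algebra L Lv := (ι : L →+* Lv).toAlgebra
    have : IsScalarTower K L Lv := IsScalarTower.of_algebraMap_eq' (by
      ext x
      show algebraMap K Lv x = ι (algebraMap K L x)
      rw [ι.commutes])
    refine ⟨(τ.restrictScalars K).restrictNormal L, fun x => ?_⟩
    exact AlgEquiv.restrictNormal_commutes (τ.restrictScalars K) L x
  choose r hr using hres
  have huniq : ∀ (τ : Lv ≃ₐ[Kv] Lv) (σ : L ≃ₐ[K] L), (∀ x, ι (σ x) = τ (ι x)) → σ = r τ := by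
    intro τ σ h
    ext x
    apply ι.injective
    exact (h x).trans (hr τ x).symm
  refine ⟨⟨⟨r, ?_⟩, ?_⟩, ?_, ?_⟩
  · exact (huniq 1 1 fun x => rfl).symm
  · intro τ1 τ2
    refine (huniq (τ1 * τ2) (r τ1 * r τ2) fun x => ?_).symm
    rw [AlgEquiv.mul_apply, AlgEquiv.mul_apply, hr, hr]
  · intro τ x
    exact hr τ x
  · intro τ σ h
    exact huniq τ σ h

end

end QTB
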