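import Pool.Agent.QTB.S0

/-!
# [QTB-S4b] locally constant cocycles and open subgroups
-/

set_option autoImplicit false

open NumberField IsDedekindDomain
open scoped Classical

namespace QTB

open QT (W)
open QTD

section

variable {K L : Type} [Field K] [Field L] [Algebra K L]

/-- [S4f] a crossed homomorphism which vanishes on an open subgroup is locally constant. PROOF. `IsLocallyConstant.iff_exists_open`; for `σ` the open set
`{τ | σ⁻¹ τ ∈ M.fixingSubgroup}` (`IntermediateField.fixingSubgroup_isOpen` and continuity of the multiplication), there `c τ = c σ + σ c (σ⁻¹ τ) = c σ`. -/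
theorem coc_of_vanish {d : K} {c : (L ≃ₐ[K] L) → (W (algebraMap K L d)).toAffine.Point}
    (hc : ∀ σ τ : L ≃ₐ[K] L, c (σ * τ) = c σ + ptW (σ : L →+* L) (gal_comm σ d) (c τ))
    (h : ∃ M : IntermediateField K L, FiniteDimensional K M ∧ ∀ σ ∈ M.fixingSubgroup, c σ = 0) :
    Coc K L d c := by
  obtain ⟨M, hM, hv⟩ := h
  refine ⟨?_, hc⟩
  rw [IsLocallyConstant.iff_exists_open]
  intro σ
  refine ⟨{τ | σ⁻¹ * τ ∈ M.fixingSubgroup}, ?_, ?_, ?_⟩
  · have h1 : IsOpen (M.fixingSubgroup : Set (L ≃ₐ[K] L)) := IntermediateField.fixingSubgroup_isOpen M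
    exact h1.preimage (continuous_const_mul σ⁻¹)
  · show σ⁻¹ * σ ∈ M.fixingSubgroup
    rw [inv_mul_cancel]
    exact one_mem _
  · intro τ hτ
    have h2 : c (σ * (σ⁻¹ * τ)) = c σ + ptW (σ : L →+* L) (gal_comm σ d) (c (σ⁻¹ * τ)) := hc _ _
    rw [mul_inv_cancel_left, hv _ hτ, ptW_zero, add_zero] at h2
    exact h2

/-- [S4g] a point is fixed by an open subgroup. PROOF. `IntermediateField.adjoin K {x, y}`, finite dimensional (`IntermediateField.finiteDimensional_adjoin`). -/
theorem exists_fix [Algebra.IsAlgebraic K L] {d : K} (P : (W (algebraMap K L d)).toAffine.Point) :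
    ∃ M : IntermediateField K L, FiniteDimensional K M ∧
      ∀ σ ∈ M.fixingSubgroup, ptW (σ : L →+* L) (gal_comm σ d) P = P := by
  cases P with
  | zero => exact ⟨⊥, inferInstance, fun σ _ => rfl⟩
  | some x y hP =>
    refine ⟨IntermediateField.adjoin K {x, y}, ?_, ?_⟩
    · have : Finite ({x, y} : Set L) := Set.toFinite _
      exact IntermediateField.finiteDimensional_adjoin (fun z _ => (Algebra.IsAlgebraic.isAlgebraic z).isIntegral)
    · intro σ hσ
      rw [IntermediateField.mem_fixingSubgroup_iff] at hσ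
      have hx : σ x = x := hσ x (IntermediateField.subset_adjoin K _ (Set.mem_insert _ _))
      have hy : σ y = y := hσ y (IntermediateField.subset_adjoin K _ (Set.mem_insert_of_mem _ rfl))
      simp only [ptW, WeierstrassCurve.Affine.Point.some.injEq]
      exact ⟨hx, hy⟩

/-- [S4h] conjugation. PROOF. `M.map (τ : L →ₐ[K] L)`: if `σ` fixes `τ M`, then `τ⁻¹ σ τ` fixes `M`. -/
theorem exists_conj_fix (M : IntermediateField K L) [FiniteDimensional K M] (τ : L ≃ₐ[K] L) :
    ∃ N : IntermediateField K L, FiniteDimensional K N ∧ ∀ σ ∈ N.fixingSubgroup, τ⁻¹ * σ * τ ∈ M.fixingSubgroup := by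
  refine ⟨M.map (τ : L →ₐ[K] L), ?_, ?_⟩
  · exact LinearEquiv.finiteDimensional (IntermediateField.intermediateFieldMap τ M).toLinearEquiv
  · intro σ hσ
    rw [IntermediateField.mem_fixingSubgroup_iff] at hσ ⊢
    intro x hx
    have h1 : σ (τ x) = τ x := hσ (τ x) ⟨x, hx, rfl⟩
    show τ⁻¹ (σ (τ x)) = x
    rw [h1]
    exact τ.symm_apply_apply x

end

end QTB
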