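import Pool.Agent.QTB.S1a
import Pool.Agent.QTB.S2
import Pool.Agent.QTB.S4a
import Pool.Agent.QTB.S4b

/-!
# [QTB-S5] the twisted corestriction for the curves `y² = x³ - d x` and `y² = x³ - d m² x`
-/

set_option autoImplicit false

open NumberField IsDedekindDomain
open scoped Classical

namespace QTB

open QT (W)
open QTD

section

variable {K L : Type} [Field K] [Field L] [Algebra K L]

theorem four {d m : K} {θ : L} (hθ : θ ^ 2 = algebraMap K L m) :
    algebraMap K L (d * m ^ 2) = θ ^ 4 * algebraMap K L d := by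
  rw [map_mul, map_pow, ← hθ]
  ring

theorem theta_ne {m : K} (hm : m ≠ 0) {θ : L} (hθ : θ ^ 2 = algebraMap K L m) : θ ≠ 0 := by
  rintro rfl
  rw [zero_pow two_ne_zero] at hθ
  exact hm ((map_eq_zero (algebraMap K L)).1 hθ.symm)

/-- the corestriction as a cochain with values in the points of the twisted curve -/
noncomputable def etaT {d m : K} (hm : m ≠ 0) {θ : L} (hθ : θ ^ 2 = algebraMap K L m) (τ : L ≃ₐ[K] L)
    (X : (L ≃ₐ[K] L) → (W (algebraMap K L d)).toAffine.Point) (σ : L ≃ₐ[K] L) :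
    (W (algebraMap K L (d * m ^ 2))).toAffine.Point :=
  scalP (theta_ne hm hθ) (four hθ) (eta (actW d) (HH θ) τ X σ)

/-- [S5a] `σ` and the isomorphism. PROOF. `ptW_scalP` with `u = θ`, `v = σ θ = ± θ` (`not_HH`), `scalP_neg_u`, `ptW_neg`. -/
theorem scal_sg [CharZero K] {d m : K} (hm : m ≠ 0) {θ : L} (hθ : θ ^ 2 = algebraMap K L m) (σ : L ≃ₐ[K] L)
    (P : (W (algebraMap K L d)).toAffine.Point) :
    ptW (σ : L →+* L) (gal_comm σ (d * m ^ 2)) (scalP (theta_ne hm hθ) (four hθ) P) =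
      scalP (theta_ne hm hθ) (four hθ) (sg (HH θ) σ (actW d σ P)) := by
  by_cases h : HH θ σ
  · have h1 : sg (HH θ) σ (actW d σ P) = actW d σ P := if_pos h
    rw [h1]
    exact ptW_scalP (σ : L →+* L) (theta_ne hm hθ) (four hθ) (gal_comm σ d)
      (gal_comm σ (d * m ^ 2)) (theta_ne hm hθ) (four hθ) h P
  · have h1 : sg (HH θ) σ (actW d σ P) = -actW d σ P := if_neg h
    have h2 : σ θ = -θ := not_HH hθ h
    have hv : -θ ≠ 0 := neg_ne_zero.2 (theta_ne hm hθ)
    have hv4 : algebraMap K L (d * m ^ 2) = (-θ) ^ 4 * algebraMap K L d := by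
      rw [four hθ]; ring
    have h3 := ptW_scalP (σ : L →+* L) (theta_ne hm hθ) (four hθ) (gal_comm σ d)
      (gal_comm σ (d * m ^ 2)) hv hv4 h2 P
    have h4 := scalP_neg_u (theta_ne hm hθ) (four hθ) hv hv4 rfl
      (ptW (σ : L →+* L) (gal_comm σ d) P)
    have h5 : scalP (theta_ne hm hθ) (four hθ) (-actW d σ P) =
        -scalP (theta_ne hm hθ) (four hθ) (actW d σ P) :=
      map_neg (scalHom (theta_ne hm hθ) (four hθ)) (actW d σ P)
    rw [h1, h5, h3, h4]
    rfl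

theorem s5_crossed {d : K} {θ : L} {X : (L ≃ₐ[K] L) → (W (algebraMap K L d)).toAffine.Point}
    (hX : RCoc d θ X) (g h : L ≃ₐ[K] L) (hg : HH θ g) (hh : HH θ h) :
    X (g * h) = X g + actW d g (X h) := hX.crossed g h hg hh

/-- [S5b] PROOF. `coc_of_vanish`. Crossed: `eta_crossed` (S1; `isAct`, `idx2`, `RCoc.crossed`), `scalP_add`, `scal_sg`. Vanishing: `M` from `RCoc.fin`, `N` from
`exists_conj_fix M τ`; the compositum `M ⊔ N` is finite (`IntermediateField.finiteDimensional_sup`); for `σ` in its fixing group: `σ θ = θ` (`θ ∈ M`), `X σ = 0`,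
`X (τ⁻¹ σ τ) = 0`. -/
theorem etaT_coc [CharZero K] {d m : K} (hm : m ≠ 0) {θ : L} (hθ : θ ^ 2 = algebraMap K L m) {τ : L ≃ₐ[K] L}
    (hτ : τ θ ≠ θ) {X : (L ≃ₐ[K] L) → (W (algebraMap K L d)).toAffine.Point} (hX : RCoc d θ X) :
    Coc K L (d * m ^ 2) (etaT hm hθ τ X) := by
  apply coc_of_vanish
  · intro σ ρ
    unfold etaT
    rw [eta_crossed (isAct d) (idx2 hm hθ hτ) (s5_crossed hX) σ ρ, scalP_add, scal_sg hm hθ]
  · obtain ⟨M, hMfin, hθM, hM0⟩ := hX.fin
    obtain ⟨N, hNfin, hN⟩ := exists_conj_fix M τ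
    refine ⟨M ⊔ N, inferInstance, fun σ hσ => ?_⟩
    have hσM : σ ∈ M.fixingSubgroup := by
      rw [IntermediateField.mem_fixingSubgroup_iff] at hσ ⊢
      exact fun x hx => hσ x ((le_sup_left : M ≤ M ⊔ N) hx)
    have hσN : σ ∈ N.fixingSubgroup := by
      rw [IntermediateField.mem_fixingSubgroup_iff] at hσ ⊢
      exact fun x hx => hσ x ((le_sup_right : N ≤ M ⊔ N) hx)
    have hσθ : HH θ σ := (IntermediateField.mem_fixingSubgroup_iff M σ).1 hσM θ hθM
    have h1 : eta (actW d) (HH θ) τ X σ = 0 := by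
      unfold eta
      rw [if_pos hσθ, hM0 σ hσM, hM0 _ (hN σ hσN), map_zero, sub_zero]
    unfold etaT
    rw [h1]
    rfl

/-- [S5d] PROOF. `coc_of_vanish`, `ext_crossed` (S1), and `RCoc.fin` (`θ ∈ M`). -/
theorem ext_coc [CharZero K] {d m : K} (hm : m ≠ 0) {θ : L} (hθ : θ ^ 2 = algebraMap K L m) {τ : L ≃ₐ[K] L}
    (hτ : τ θ ≠ θ) {X : (L ≃ₐ[K] L) → (W (algebraMap K L d)).toAffine.Point} (hX : RCoc d θ X)
    {P : (W (algebraMap K L d)).toAffine.Point}
    (hη : ∀ σ, eta (actW d) (HH θ) τ X σ = sg (HH θ) σ (actW d σ P) - P) :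
    Coc K L d (ext (actW d) (HH θ) τ X P) := by
  apply coc_of_vanish
  · intro σ ρ
    exact ext_crossed (isAct d) (idx2 hm hθ hτ) (s5_crossed hX) hη σ ρ
  · obtain ⟨M, hMfin, hθM, hM0⟩ := hX.fin
    refine ⟨M, hMfin, fun σ hσ => ?_⟩
    have hσθ : HH θ σ := (IntermediateField.mem_fixingSubgroup_iff M σ).1 hσ θ hθM
    unfold ext
    rw [if_pos hσθ, hM0 σ hσ]

end

end QTB
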