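import Pool.Agent.QTB.S5
import Pool.Agent.QTB.S1c

/-!
# [QTB-S5b] local triviality of the corestriction
-/

set_option autoImplicit false

open NumberField IsDedekindDomain
open scoped Classical

namespace QTB

open QT (W)
open QTD

section

variable {K L : Type} [Field K] [Field L] [Algebra K L]

theorem s5b_conj {H : (L ≃ₐ[K] L) → Prop} {τ : L ≃ₐ[K] L} (hH : Idx2 H τ) {g : L ≃ₐ[K] L}
    (hg : H g) : H (τ⁻¹ * g * τ) := by
  have h1 := hH.one
  rw [← inv_mul_cancel τ, hH.mul] at h1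
  rw [hH.mul, hH.mul]
  have h2 := hH.tau
  tauto

/-- [S5c] local triviality of the corestriction. PROOF. Let `ι : L → Lv`, `r` from `exists_res ι`, `θ' = ι θ`; the hypothesis `h ι` gives `Q1`.
Case 1: all `γ` have `r γ θ = θ`: `h (ι.comp τ)` gives `Q2`; the pair `(γ, τ⁻¹ r(γ) τ)` is compatible with `ι ∘ τ`. `eta_loc_split`. Case 2: `t` with `r t θ ≠ θ`:
`eta_loc_nonsplit`. Then apply `scalP (ι θ)` over `Lv` (`ptW_scalP`): the sign becomes the action of `γ` on `ι θ` (as in `scal_sg`). -/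
theorem etaT_loc [CharZero K] [IsAlgClosure K L] {d m : K} (hm : m ≠ 0) {θ : L} (hθ : θ ^ 2 = algebraMap K L m)
    {τ : L ≃ₐ[K] L} (hτ : τ θ ≠ θ) {X : (L ≃ₐ[K] L) → (W (algebraMap K L d)).toAffine.Point} (hX : RCoc d θ X)
    {Kv Lv : Type} [Field Kv] [Algebra K Kv] [Field Lv] [Algebra Kv Lv] [Algebra K Lv] [IsScalarTower K Kv Lv]
    (h : RLoc θ X Kv Lv) : LocTriv (etaT hm hθ τ X) Kv Lv := by
  intro ι
  obtain ⟨r, hr, huniq⟩ := exists_res (Kv := Kv) ι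
  have hθ' : (ι θ) ^ 2 = algebraMap K Lv m := by
    rw [← map_pow, hθ]
    exact ι.commutes m
  have hidx := idx2 (K := K) hm hθ hτ
  have hX' : ∀ g h : L ≃ₐ[K] L, HH θ g → HH θ h → X (g * h) = X g + actW d g (X h) :=
    fun g h hg hh => hX.crossed g h hg hh
  obtain ⟨ρ', hρ'⟩ : ∃ ρ' : (Lv ≃ₐ[Kv] Lv) → (W (algebraMap K Lv d)).toAffine.Point →+
      (W (algebraMap K Lv d)).toAffine.Point,
      ∀ γ P, ρ' γ P = ptW (γ : Lv →+* Lv) (tau_comm K Kv Lv γ d) P :=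
    ⟨fun γ => ptHomW (γ : Lv →+* Lv) (tau_comm K Kv Lv γ d), fun _ _ => rfl⟩
  obtain ⟨ιP, hιP⟩ : ∃ ιP : (W (algebraMap K L d)).toAffine.Point →+
      (W (algebraMap K Lv d)).toAffine.Point,
      ∀ P, ιP P = ptW (ι : L →+* Lv) (alg_comm ι d) P :=
    ⟨ptHomW (ι : L →+* Lv) (alg_comm ι d), fun _ => rfl⟩
  have hact' : IsAct ρ' := by
    constructor
    · intro a
      rw [hρ']
      exact ptW_id a
    · intro g h a
      rw [hρ', hρ', hρ', ptW_comp]
      rfl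
  have hι : ∀ γ a, ιP (actW d (r γ) a) = ρ' γ (ιP a) := by
    intro γ a
    rw [hιP, hιP, hρ', actW_apply, ptW_comp, ptW_comp]
    exact ptW_congr (RingHom.ext fun x => hr γ x) _ _ a
  obtain ⟨Q1, hQ1⟩ := h ι
  have h1 : ∀ γ, HH θ (r γ) → ιP (X (r γ)) = ρ' γ Q1 - Q1 := by
    intro γ hγ
    rw [hιP, hρ']
    exact hQ1 γ (r γ) (hr γ) hγ
  have hR : ∃ R : (W (algebraMap K Lv d)).toAffine.Point, ∀ γ,
      ιP (eta (actW d) (HH θ) τ X (r γ)) = (if HH θ (r γ) then ρ' γ R else -ρ' γ R) - R := by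
    by_cases hall : ∀ γ, HH θ (r γ)
    · obtain ⟨Q2, hQ2⟩ := h (ι.comp (τ : L →ₐ[K] L))
      have h2 : ∀ γ, ιP (actW d τ (X (τ⁻¹ * r γ * τ))) = ρ' γ Q2 - Q2 := by
        intro γ
        have hσ : ∀ x, (ι.comp (τ : L →ₐ[K] L)) ((τ⁻¹ * r γ * τ) x) =
            γ ((ι.comp (τ : L →ₐ[K] L)) x) := by
          intro x
          change ι (τ ((τ⁻¹ * r γ * τ) x)) = γ (ι (τ x))
          rw [← hr γ (τ x)]
          congr 1
          rw [← AlgEquiv.mul_apply, ← mul_assoc, ← mul_assoc, mul_inv_cancel, one_mul]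
          rfl
        have h3 := hQ2 γ (τ⁻¹ * r γ * τ) hσ (s5b_conj hidx (hall γ))
        rw [hιP, hρ', actW_apply, ptW_comp]
        rw [← h3]
        exact ptW_congr rfl _ _ _
      refine ⟨Q1 - Q2, fun γ => ?_⟩
      rw [if_pos (hall γ)]
      exact eta_loc_split hall (fun γ => h1 γ (hall γ)) h2 γ
    · push Not at hall
      obtain ⟨t, ht⟩ := hall
      exact eta_loc_nonsplit (isAct d) hact' hidx hι hX' ht h1
  obtain ⟨R, hR⟩ := hR
  refine ⟨scalP (theta_ne hm hθ') (four hθ') R, fun γ σ hσ => ?_⟩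
  have hσr : σ = r γ := huniq γ σ hσ
  subst hσr
  have e1 : ptW (ι : L →+* Lv) (alg_comm ι (d * m ^ 2)) (etaT hm hθ τ X (r γ)) =
      scalP (theta_ne hm hθ') (four hθ') (ιP (eta (actW d) (HH θ) τ X (r γ))) := by
    rw [hιP]
    exact ptW_scalP (ι : L →+* Lv) (theta_ne hm hθ) (four hθ) (alg_comm ι d)
      (alg_comm ι (d * m ^ 2)) (theta_ne hm hθ') (four hθ') rfl _
  have e2 : ptW (γ : Lv →+* Lv) (tau_comm K Kv Lv γ (d * m ^ 2))
      (scalP (theta_ne hm hθ') (four hθ') R) =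
      scalP (theta_ne hm hθ') (four hθ') (if HH θ (r γ) then ρ' γ R else -ρ' γ R) := by
    by_cases hH : HH θ (r γ)
    · rw [if_pos hH, hρ']
      refine ptW_scalP (γ : Lv →+* Lv) (theta_ne hm hθ') (four hθ') (tau_comm K Kv Lv γ d)
        (tau_comm K Kv Lv γ (d * m ^ 2)) (theta_ne hm hθ') (four hθ') ?_ R
      change γ (ι θ) = ι θ
      rw [← hr γ θ]
      exact congrArg ι hH
    · have h2 : (r γ) θ = -θ := not_HH hθ hH
      have hv : -(ι θ) ≠ 0 := neg_ne_zero.2 (theta_ne hm hθ')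
      have hv4 : algebraMap K Lv (d * m ^ 2) = (-(ι θ)) ^ 4 * algebraMap K Lv d := by
        rw [four hθ']; ring
      have h3 : γ (ι θ) = -(ι θ) := by
        rw [← hr γ θ, h2, map_neg]
      have h4 := ptW_scalP (γ : Lv →+* Lv) (theta_ne hm hθ') (four hθ') (tau_comm K Kv Lv γ d)
        (tau_comm K Kv Lv γ (d * m ^ 2)) hv hv4 h3 R
      have h5 := scalP_neg_u (theta_ne hm hθ') (four hθ') hv hv4 rfl (ρ' γ R)
      have h6 : scalP (theta_ne hm hθ') (four hθ') (-ρ' γ R) =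
          -scalP (theta_ne hm hθ') (four hθ') (ρ' γ R) :=
        map_neg (scalHom (theta_ne hm hθ') (four hθ')) (ρ' γ R)
      rw [if_neg hH, h6, ← h5, hρ']
      exact h4
  have e3 : scalP (theta_ne hm hθ') (four hθ')
      ((if HH θ (r γ) then ρ' γ R else -ρ' γ R) - R) =
      scalP (theta_ne hm hθ') (four hθ') (if HH θ (r γ) then ρ' γ R else -ρ' γ R) -
        scalP (theta_ne hm hθ') (four hθ') R :=
    map_sub (scalHom (theta_ne hm hθ') (four hθ')) _ _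
  rw [e1, e2, hR γ, e3]

end

end QTB
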