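import Pool.Agent.QTB.S4a
import Pool.Agent.QTB.S1b

/-!
# [QTB-S7a] the local structure of a cocycle whose restriction to `H` is locally trivial
-/

set_option autoImplicit false

open NumberField IsDedekindDomain
open scoped Classical

namespace QTB

open QT (W)
open QTD

/-- local triviality for one embedding -/
def LT1 {K L : Type} [Field K] [Field L] [Algebra K L] {d : K}
    (c : (L ≃ₐ[K] L) → (W (algebraMap K L d)).toAffine.Point) (Kv Lv : Type) [Field Kv]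
    [Algebra K Kv] [Field Lv] [Algebra Kv Lv] [Algebra K Lv] [IsScalarTower K Kv Lv] (ι : L →ₐ[K] Lv) : Prop :=
  ∃ Q : (W (algebraMap K Lv d)).toAffine.Point,
    ∀ (τ : Lv ≃ₐ[Kv] Lv) (σ : L ≃ₐ[K] L), (∀ x, ι (σ x) = τ (ι x)) →
      ptW (ι : L →+* Lv) (alg_comm ι d) (c σ) = ptW (τ : Lv →+* Lv) (tau_comm K Kv Lv τ d) Q - Q

theorem s7a_act {K : Type} [Field K] (Kv Lv : Type) [Field Kv] [Algebra K Kv] [Field Lv]
    [Algebra Kv Lv] [Algebra K Lv] [IsScalarTower K Kv Lv] (d : K) :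
    IsAct (G := Lv ≃ₐ[Kv] Lv) (fun γ => ptHomW (γ : Lv →+* Lv) (tau_comm K Kv Lv γ d)) := by
  refine ⟨fun a => ?_, fun g h a => ?_⟩
  · change ptW ((1 : Lv ≃ₐ[Kv] Lv) : Lv →+* Lv) (tau_comm K Kv Lv 1 d) a = a
    exact ptW_id a
  · change ptW ((g * h : Lv ≃ₐ[Kv] Lv) : Lv →+* Lv) (tau_comm K Kv Lv (g * h) d) a =
      ptW (g : Lv →+* Lv) (tau_comm K Kv Lv g d) (ptW (h : Lv →+* Lv) (tau_comm K Kv Lv h d) a)
    rw [ptW_comp]
    rfl

theorem s7a_swap {K L : Type} [Field K] [Field L] [Algebra K L] {Kv Lv : Type} [Field Kv]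
    [Algebra K Kv] [Field Lv] [Algebra Kv Lv] [Algebra K Lv] [IsScalarTower K Kv Lv] {d : K}
    (ι : L →ₐ[K] Lv) (γ : Lv ≃ₐ[Kv] Lv) (σ : L ≃ₐ[K] L) (h : ∀ x, ι (σ x) = γ (ι x))
    (P : (W (algebraMap K L d)).toAffine.Point) :
    ptW (ι : L →+* Lv) (alg_comm ι d) (ptW (σ : L →+* L) (gal_comm σ d) P) =
      ptW (γ : Lv →+* Lv) (tau_comm K Kv Lv γ d) (ptW (ι : L →+* Lv) (alg_comm ι d) P) := by
  have h7 : (ι : L →+* Lv).comp (σ : L →+* L) = (γ : Lv →+* Lv).comp (ι : L →+* Lv) := by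
    ext x
    exact h x
  rw [ptW_comp, ptW_comp]
  exact ptW_congr h7 _ _ P

section

variable {K L : Type} [Field K] [CharZero K] [Field L] [Algebra K L] [IsAlgClosure K L] {d m : K}
  {Kv Lv : Type} [Field Kv] [Algebra K Kv] [Field Lv] [Algebra Kv Lv] [Algebra K Lv] [IsScalarTower K Kv Lv]

/-- [S7a] the local structure. Either all `γ` fix `ι θ` and `y` is locally trivial, or there are `P`, `Q` such that `ι y(σ) = γ Q - Q` for `γ` fixing `ι θ`,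
`ι y(σ) = (γ Q - Q) + P` for the others, `γ P = P`, resp. `γ P = - P`. PROOF. `Q` from `hloc ι` (`y = X` on `H`), `r` from `exists_res`. Case 2: `vanish` (S1) for
`G = Gal(Lv/Kv)`, `H γ = (γ (ι θ) = ι θ)` (`idx2` for `Lv / Kv`, `m`, `ι θ`), `Y γ = ι y (r γ) - (γ Q - Q)`; `Y` is crossed because `y` is. -/
theorem loc_struct (hm : m ≠ 0) {θ : L} (hθ : θ ^ 2 = algebraMap K L m)
    {X y : (L ≃ₐ[K] L) → (W (algebraMap K L d)).toAffine.Point} (hy : Coc K L d y)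
    (hyX : ∀ σ : L ≃ₐ[K] L, σ θ = θ → y σ = X σ) (hloc : RLoc θ X Kv Lv) (ι : L →ₐ[K] Lv) :
    ∃ P Q : (W (algebraMap K Lv d)).toAffine.Point,
      (∀ γ : Lv ≃ₐ[Kv] Lv, γ (ι θ) = ι θ → ptW (γ : Lv →+* Lv) (tau_comm K Kv Lv γ d) P = P) ∧
      (∀ γ : Lv ≃ₐ[Kv] Lv, γ (ι θ) ≠ ι θ → ptW (γ : Lv →+* Lv) (tau_comm K Kv Lv γ d) P = -P) ∧
      ∀ (γ : Lv ≃ₐ[Kv] Lv) (σ : L ≃ₐ[K] L), (∀ x, ι (σ x) = γ (ι x)) →
        ptW (ι : L →+* Lv) (alg_comm ι d) (y σ) =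
          ptW (γ : Lv →+* Lv) (tau_comm K Kv Lv γ d) Q - Q + (if γ (ι θ) = ι θ then 0 else P) := by
  by_cases hall : ∀ γ : Lv ≃ₐ[Kv] Lv, γ (ι θ) = ι θ
  · obtain ⟨Q, hQ⟩ := hloc ι
    refine ⟨0, Q, fun γ _ => rfl, fun γ h => absurd (hall γ) h, fun γ σ hσ => ?_⟩
    have h1 : σ θ = θ := by
      apply ι.toRingHom.injective
      exact (hσ θ).trans (hall γ)
    rw [hyX σ h1, hQ γ σ hσ h1, if_pos (hall γ), add_zero]
  · push Not at hall
    obtain ⟨γ0, hγ0⟩ := hall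
    have hcK : CharZero Kv := charZero_of_injective_algebraMap (algebraMap K Kv).injective
    have hm' : algebraMap K Kv m ≠ 0 := (map_ne_zero _).2 hm
    have hθ' : (ι θ) ^ 2 = algebraMap Kv Lv (algebraMap K Kv m) := by
      rw [← map_pow, hθ, ← IsScalarTower.algebraMap_apply]
      exact ι.commutes m
    have hI : Idx2 (HH (K := Kv) (ι θ)) γ0 := idx2 hm' hθ' hγ0
    obtain ⟨Q, hQ⟩ := hloc ι
    obtain ⟨r, hr, hr2⟩ := exists_res (Kv := Kv) ι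
    have hA := s7a_act (K := K) Kv Lv d
    obtain ⟨P1, hP1, hP2, hP3⟩ := vanish hA hI
      (Y := fun γ => ptW (ι : L →+* Lv) (alg_comm ι d) (y (r γ)) -
        (ptW (γ : Lv →+* Lv) (tau_comm K Kv Lv γ d) Q - Q)) (by
        intro g h
        have e1 : ptW (ι : L →+* Lv) (alg_comm ι d) (y (r (g * h))) =
            ptW (ι : L →+* Lv) (alg_comm ι d) (y (r g)) +
              ptW (g : Lv →+* Lv) (tau_comm K Kv Lv g d) (ptW (ι : L →+* Lv) (alg_comm ι d) (y (r h))) := by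
          rw [map_mul, hy.crossed, ptW_add, s7a_swap ι g (r g) (hr g)]
        have e2 : ptW ((g * h : Lv ≃ₐ[Kv] Lv) : Lv →+* Lv) (tau_comm K Kv Lv (g * h) d) Q =
            ptW (g : Lv →+* Lv) (tau_comm K Kv Lv g d) (ptW (h : Lv →+* Lv) (tau_comm K Kv Lv h d) Q) :=
          hA.mul g h Q
        change ptW (ι : L →+* Lv) (alg_comm ι d) (y (r (g * h))) -
            (ptW ((g * h : Lv ≃ₐ[Kv] Lv) : Lv →+* Lv) (tau_comm K Kv Lv (g * h) d) Q - Q) =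
          (ptW (ι : L →+* Lv) (alg_comm ι d) (y (r g)) -
            (ptW (g : Lv →+* Lv) (tau_comm K Kv Lv g d) Q - Q)) +
          ptW (g : Lv →+* Lv) (tau_comm K Kv Lv g d) (ptW (ι : L →+* Lv) (alg_comm ι d) (y (r h)) -
            (ptW (h : Lv →+* Lv) (tau_comm K Kv Lv h d) Q - Q))
        rw [e1, e2, ptW_sub, ptW_sub]
        abel) (by
        intro g hg
        have h1 : r g θ = θ := by
          apply ι.toRingHom.injective
          exact (hr g θ).trans hg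
        change ptW (ι : L →+* Lv) (alg_comm ι d) (y (r g)) -
            (ptW (g : Lv →+* Lv) (tau_comm K Kv Lv g d) Q - Q) = 0
        rw [hyX _ h1, hQ g (r g) (hr g) h1, sub_self])
    refine ⟨P1, Q, fun γ h => hP1 γ h, fun γ h => hP2 γ h, fun γ σ hσ => ?_⟩
    have h1 : σ = r γ := hr2 γ σ hσ
    by_cases h2 : γ (ι θ) = ι θ
    · have h3 : σ θ = θ := by
        apply ι.toRingHom.injective
        exact (hσ θ).trans h2
      rw [hyX σ h3, hQ γ σ hσ h3, if_pos h2, add_zero]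
    · have h3 : ptW (ι : L →+* Lv) (alg_comm ι d) (y (r γ)) -
            (ptW (γ : Lv →+* Lv) (tau_comm K Kv Lv γ d) Q - Q) = P1 := hP3 γ h2
      rw [if_neg h2, ← h3, h1]
      abel

/-- [S7b] `2 y` is locally trivial. PROOF. `loc_struct`, the point `2 Q - P`. -/
theorem two_loc (hm : m ≠ 0) {θ : L} (hθ : θ ^ 2 = algebraMap K L m)
    {X y : (L ≃ₐ[K] L) → (W (algebraMap K L d)).toAffine.Point} (hy : Coc K L d y)
    (hyX : ∀ σ : L ≃ₐ[K] L, σ θ = θ → y σ = X σ) (hloc : RLoc θ X Kv Lv) :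
    LocTriv (fun σ => 2 • y σ) Kv Lv := by
  intro ι
  obtain ⟨P, Q, h1, h2, h3⟩ := loc_struct hm hθ hy hyX hloc ι
  refine ⟨2 • Q - P, fun γ σ hσ => ?_⟩
  change ptW (ι : L →+* Lv) (alg_comm ι d) (2 • y σ) = _
  rw [ptW_nsmul, h3 γ σ hσ, ptW_sub, ptW_nsmul]
  by_cases h4 : γ (ι θ) = ι θ
  · rw [if_pos h4, h1 γ h4]
    abel
  · rw [if_neg h4, h2 γ h4]
    abel

/-- [S7c] the split places. PROOF. `hloc ι`; `r` from `exists_res`: all `σ = r γ` fix `θ`. -/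
theorem split_loc {θ : L} {X y : (L ≃ₐ[K] L) → (W (algebraMap K L d)).toAffine.Point}
    (hyX : ∀ σ : L ≃ₐ[K] L, σ θ = θ → y σ = X σ) (hloc : RLoc θ X Kv Lv) (ι : L →ₐ[K] Lv)
    (hspl : ∀ γ : Lv ≃ₐ[Kv] Lv, γ (ι θ) = ι θ) : LT1 y Kv Lv ι := by
  obtain ⟨Q, hQ⟩ := hloc ι
  refine ⟨Q, fun γ σ hσ => ?_⟩
  have h1 : σ θ = θ := by
    apply ι.toRingHom.injective
    exact (hσ θ).trans (hspl γ)
  rw [hyX σ h1, hQ γ σ hσ h1]

/-- [S7d] the non split places where `phi P` is principal. PROOF. `loc_struct`; `phi` of the formula (`phi_ptW`, `phi_add`), the point `phi Q + R`. -/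
theorem phi_loc {j : K} (hj : j ^ 2 = -1) (hm : m ≠ 0) {θ : L} (hθ : θ ^ 2 = algebraMap K L m)
    [CharZero L] [CharZero Lv] {X y : (L ≃ₐ[K] L) → (W (algebraMap K L d)).toAffine.Point} (hy : Coc K L d y)
    (hyX : ∀ σ : L ≃ₐ[K] L, σ θ = θ → y σ = X σ) (hloc : RLoc θ X Kv Lv) (ι : L →ₐ[K] Lv)
    (hR : ∀ P : (W (algebraMap K Lv d)).toAffine.Point,
      (∀ γ : Lv ≃ₐ[Kv] Lv, γ (ι θ) = ι θ → ptW (γ : Lv →+* Lv) (tau_comm K Kv Lv γ d) P = P) →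
      (∀ γ : Lv ≃ₐ[Kv] Lv, γ (ι θ) ≠ ι θ → ptW (γ : Lv →+* Lv) (tau_comm K Kv Lv γ d) P = -P) →
      ∃ R : (W (algebraMap K Lv d)).toAffine.Point,
        (∀ γ : Lv ≃ₐ[Kv] Lv, γ (ι θ) = ι θ → ptW (γ : Lv →+* Lv) (tau_comm K Kv Lv γ d) R = R) ∧
        (∀ γ : Lv ≃ₐ[Kv] Lv, γ (ι θ) ≠ ι θ →
          ptW (γ : Lv →+* Lv) (tau_comm K Kv Lv γ d) R - R = phi (am_j (L := Lv) hj) P)) :
    LT1 (fun σ => phi (am_j (L := L) hj) (y σ)) Kv Lv ι := by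
  obtain ⟨P, Q, h1, h2, h3⟩ := loc_struct hm hθ hy hyX hloc ι
  obtain ⟨R, hR1, hR2⟩ := hR P h1 h2
  refine ⟨phi (am_j (L := Lv) hj) Q + R, fun γ σ hσ => ?_⟩
  change ptW (ι : L →+* Lv) (alg_comm ι d) (phi (am_j (L := L) hj) (y σ)) = _
  rw [← phi_ptW (am_j (L := L) hj) (ι : L →+* Lv) (alg_comm ι d) (am_j (L := Lv) hj)
      (alg_comm ι j), h3 γ σ hσ, ptW_add,
    ← phi_ptW (am_j (L := Lv) hj) (γ : Lv →+* Lv) (tau_comm K Kv Lv γ d) (am_j (L := Lv) hj)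
      (tau_comm K Kv Lv γ j), phi_add, phi_sub]
  by_cases h4 : γ (ι θ) = ι θ
  · rw [if_pos h4, hR1 γ h4]
    have h5 : phi (am_j (L := Lv) hj) (0 : (W (algebraMap K Lv d)).toAffine.Point) = 0 := by
      have h6 := phi_add (am_j (L := Lv) hj) (0 : (W (algebraMap K Lv d)).toAffine.Point) 0
      rw [add_zero] at h6
      exact left_eq_add.mp h6
    rw [h5]
    abel
  · rw [if_neg h4, ← hR2 γ h4]
    abel

end

end QTB
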