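import Pool.Agent.QTB.S0
import Pool.Agent.QT.D11

/-!
# [QTB-S7c] the valuation hypothesis in the three cases
-/

set_option autoImplicit false

open NumberField IsDedekindDomain
open scoped Classical

namespace QTB

open QT (W)
open QTD

/-! ### the hypothesis `hv` of `local_phi` in the three cases -/

theorem s7c_ram {L : Type} [Field L] (w : Valuation L (WithZero (Multiplicative ℤ))) {d m x y : L}
    (hd : w d = 1) {n : ℤ} (hn : Odd n) (hm : w m = WithZero.exp n)
    (hns : ∀ z : L, w z = 1 → w (z ^ 2 - d) = 1) (hx : x ≠ 0) (h : y ^ 2 * m = x ^ 3 - d * x) :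
    (w x) ^ 2 ≠ w d := by
  intro he
  obtain ⟨k, hk⟩ := PID.d13a_exists w hx
  rw [hd, hk, PID.d13a_pow, ← WithZero.exp_zero, WithZero.exp_inj] at he
  push_cast at he
  have hk0 : k = 0 := by omega
  have hx1 : w x = 1 := by rw [hk, hk0, WithZero.exp_zero]
  have h2 : y ^ 2 * m = x * (x ^ 2 - d) := by rw [h]; ring
  have h3 := congrArg w h2
  rw [map_mul, map_mul, map_pow, hx1, hns x hx1, mul_one, hm] at h3
  have hy0 : y ≠ 0 := by
    rintro rfl
    rw [map_zero, zero_pow two_ne_zero, zero_mul] at h3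
    exact zero_ne_one h3
  obtain ⟨j, hj⟩ := PID.d13a_exists w hy0
  rw [hj, PID.d13a_pow, ← WithZero.exp_add, ← WithZero.exp_zero, WithZero.exp_inj] at h3
  push_cast at h3
  obtain ⟨c, hc⟩ := hn
  omega

theorem s7c_odd {L : Type} [Field L] (w : Valuation L (WithZero (Multiplicative ℤ))) {d x : L}
    {n : ℤ} (hn : Odd n) (hd : w d = WithZero.exp n) (hx : x ≠ 0) : (w x) ^ 2 ≠ w d := by
  intro he
  obtain ⟨k, hk⟩ := PID.d13a_exists w hx
  rw [hd, hk, PID.d13a_pow, WithZero.exp_inj] at he
  push_cast at he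
  obtain ⟨c, hc⟩ := hn
  omega

theorem s7c_two {L : Type} [Field L] (w : Valuation L (WithZero (Multiplicative ℤ)))
    {d m π d' x y : L} (hπ : w π = WithZero.exp (-1)) (hd : d = π ^ 2 * d') (hd' : w d' = 1)
    (hm : w m = 1) (hns : ∀ z : L, w z = 1 → w (z ^ 2 - d') = 1) (hx : x ≠ 0)
    (h : y ^ 2 * m = x ^ 3 - d * x) : (w x) ^ 2 ≠ w d := by
  intro he
  have hwd : w d = WithZero.exp (-2) := by
    rw [hd, map_mul, map_pow, hπ, hd', mul_one, PID.d13a_pow]
    norm_num
  obtain ⟨n, hn⟩ := PID.d13a_exists w hx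
  rw [hwd, hn, PID.d13a_pow, WithZero.exp_inj] at he
  push_cast at he
  have hn1 : n = -1 := by omega
  rw [hn1] at hn
  have hπ0 : π ≠ 0 := by
    rintro rfl
    rw [map_zero] at hπ
    exact WithZero.exp_ne_zero hπ.symm
  have hz : w (x / π) = 1 := by
    rw [map_div₀, hn, hπ, div_self WithZero.exp_ne_zero]
  have h2 : y ^ 2 * m = π ^ 3 * ((x / π) * ((x / π) ^ 2 - d')) := by
    rw [h, hd]
    field_simp
  have h3 := congrArg w h2
  rw [map_mul, map_pow, map_mul, map_mul, map_pow, hπ, hz, hns _ hz, one_mul, mul_one, hm,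
    mul_one, PID.d13a_pow] at h3
  have hy0 : y ≠ 0 := by
    rintro rfl
    rw [map_zero, zero_pow two_ne_zero] at h3
    exact WithZero.exp_ne_zero h3.symm
  obtain ⟨k, hk⟩ := PID.d13a_exists w hy0
  rw [hk, PID.d13a_pow, WithZero.exp_inj] at h3
  push_cast at h3
  omega

/-- [S7f] the ramified places. PROOF. If `v(x)² = v(d) = 1`, then `v(x) = 1`, `v(x² - d) = 1`, so `v(y² m) = v(x (x² - d)) = 1`, but `v(m) = exp (-n)` with `n` odd (`PID.d13a_exists` for `y`). -/
theorem hv_ram {K : Type} [Field K] [NumberField K] {d m : K} (v : HeightOneSpectrum (𝓞 K))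
    (hd : v.valuation K d = 1) {n : ℤ} (hn : Odd n) (hm : v.valuation K m = WithZero.exp n)
    (hns : ∀ z : v.adicCompletion K, Valued.v z = (1 : WithZero (Multiplicative ℤ)) →
      Valued.v (z ^ 2 - algebraMap K (v.adicCompletion K) d) = (1 : WithZero (Multiplicative ℤ)))
    (x y : v.adicCompletion K) (hx : x ≠ 0)
    (h : y ^ 2 * algebraMap K (v.adicCompletion K) m = x ^ 3 - algebraMap K (v.adicCompletion K) d * x) :
    (Valued.v x) ^ 2 ≠ Valued.v (algebraMap K (v.adicCompletion K) d) := by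
  have hval : ∀ y : K, Valued.v (algebraMap K (v.adicCompletion K) y) = v.valuation K y :=
    fun y => HeightOneSpectrum.valuedAdicCompletion_eq_valuation' v y
  exact s7c_ram (Valued.v (R := v.adicCompletion K)) (by rw [hval]; exact hd) hn
    (by rw [hval]; exact hm) hns hx h

/-- [S7g] `v(d)` odd. PROOF. Parity (`PID.d13a_exists` for `x`). -/
theorem hv_odd {K : Type} [Field K] [NumberField K] {d : K} (v : HeightOneSpectrum (𝓞 K))
    {n : ℤ} (hn : Odd n) (hd : v.valuation K d = WithZero.exp n) (x : v.adicCompletion K) (hx : x ≠ 0) :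
    (Valued.v x) ^ 2 ≠ Valued.v (algebraMap K (v.adicCompletion K) d) := by
  have hval : ∀ y : K, Valued.v (algebraMap K (v.adicCompletion K) y) = v.valuation K y :=
    fun y => HeightOneSpectrum.valuedAdicCompletion_eq_valuation' v y
  exact s7c_odd (Valued.v (R := v.adicCompletion K)) hn (by rw [hval]; exact hd) hx

/-- [S7h] `d = π² d'`, `d'` not a square modulo `v`, `v(m) = 1`. PROOF. If `v(x)² = v(d)`: `x = π z`, `v(z) = 1`, `y² m = π³ z (z² - d')` has valuation `exp (-3)`, but `v(y² m) = v(y)²`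
(compare `val_x_sq_two`, QT/D12). -/
theorem hv_two {K : Type} [Field K] [NumberField K] {d m π d' : K} (v : HeightOneSpectrum (𝓞 K))
    (hπ : v.valuation K π = WithZero.exp (-1)) (hd : d = π ^ 2 * d') (hd' : v.valuation K d' = 1)
    (hm : v.valuation K m = 1)
    (hns : ∀ z : v.adicCompletion K, Valued.v z = (1 : WithZero (Multiplicative ℤ)) →
      Valued.v (z ^ 2 - algebraMap K (v.adicCompletion K) d') = (1 : WithZero (Multiplicative ℤ)))
    (x y : v.adicCompletion K) (hx : x ≠ 0)
    (h : y ^ 2 * algebraMap K (v.adicCompletion K) m = x ^ 3 - algebraMap K (v.adicCompletion K) d * x) :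
    (Valued.v x) ^ 2 ≠ Valued.v (algebraMap K (v.adicCompletion K) d) := by
  have hval : ∀ y : K, Valued.v (algebraMap K (v.adicCompletion K) y) = v.valuation K y :=
    fun y => HeightOneSpectrum.valuedAdicCompletion_eq_valuation' v y
  exact s7c_two (Valued.v (R := v.adicCompletion K)) (π := algebraMap K (v.adicCompletion K) π)
    (d' := algebraMap K (v.adicCompletion K) d') (by rw [hval]; exact hπ)
    (by rw [hd, map_mul, map_pow]) (by rw [hval]; exact hd') (by rw [hval]; exact hm) hns hx h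

end QTB
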