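import Pool.Agent.QTB.S13b
import Pool.Agent.QTB.S7c
import Pool.Agent.QTB.F8a
import Pool.Agent.QTB.F8f
import Pool.Agent.QTB.F9g
import Pool.Agent.QTF.Up

/-!
# [QTB-Z1] the three types of places for a good `D` and `F = K(√m)`
-/

set_option autoImplicit false

open NumberField IsDedekindDomain
open scoped Classical

namespace QTC

open PI (Gi sy ii la Prim emK eG KI la_prime pl)
open QT (st Dd Adm bD gD Good)
open QTD (LocB cl vla)
open TU (QS Ur Sq Od)

/-- a nonsquare modulo `p` -/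
theorem z1_ns {v : HeightOneSpectrum (𝓞 KI)} {p : Gi} (hv : v.asIdeal = Ideal.span {eG p}) {a : Gi} (ha : ¬ p ∣ a)
    (hsy : sy a p ≠ 0) (z : v.adicCompletion KI) (hz : Valued.v z = (1 : WithZero (Multiplicative ℤ))) :
    Valued.v (z ^ 2 - algebraMap KI (v.adicCompletion KI) (emK a)) = (1 : WithZero (Multiplicative ℤ)) := by
  have hval : ∀ y : KI, Valued.v (algebraMap KI (v.adicCompletion KI) y) = v.valuation KI y :=
    fun y => HeightOneSpectrum.valuedAdicCompletion_eq_valuation' v y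
  by_contra hcon
  apply hsy
  refine QTD.sy_of_near hv hz (lt_of_le_of_ne ?_ hcon)
  refine (Valuation.map_sub _ _ _).trans (max_le ?_ ?_)
  · rw [map_pow, hz, one_pow]
  · rw [hval]
    exact ((PID.val_eq_one_iff hv a).2 ha).le

theorem z1_two {v : HeightOneSpectrum (𝓞 KI)} {p : Gi} (hp : Prime p) (hP : Prim p)
    (hv : v.asIdeal = Ideal.span {eG p}) : v.valuation KI 2 = 1 := by
  have h := (PID.val_eq_one_iff hv 2).2 (PID.not_dvd_two hp hP)
  rwa [map_ofNat] at h

section
variable {s t : ℕ} {S : Finset Gi} {a : Gi → ℕ} {T : Finset Gi} {F : Type} [Field F] [NumberField F] [Algebra KI F]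
  (X : Dat s t S a T F)
include X

theorem z1_mT_not {p : Gi} (hp : Prime p) (hP : Prim p) (hpT : p ∉ T) : ¬ p ∣ mT T := by
  intro h
  obtain ⟨q, hq, h1⟩ := (Prime.dvd_finsetProd_iff hp _).1 h
  rw [f8a_st_dvd hp] at h1
  exact PID.not_dvd_of_ne hp hP (X.pr q hq).1 (X.pr q hq).2 (fun e => hpT (e ▸ hq)) h1

/-- the valuation of `m` at `q ∈ T` -/
theorem z1_val_m {b : Gi} (hbT : b ∈ T) {v : HeightOneSpectrum (𝓞 KI)} (hv : v.asIdeal = Ideal.span {eG b}) :
    v.valuation KI X.Q.e = WithZero.exp (-1) := by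
  obtain ⟨hb, hB⟩ := X.pr b hbT
  have e1 : mT T = st b * ∏ l ∈ T.erase b, st l := by
    unfold mT
    rw [Finset.mul_prod_erase T st hbT]
  have e2 : ¬ b ∣ ∏ l ∈ T.erase b, st l := by
    intro h
    obtain ⟨q, hq, h1⟩ := (Prime.dvd_finsetProd_iff hb _).1 h
    rw [f8a_st_dvd hb] at h1
    obtain ⟨hq1, hq2⟩ := Finset.mem_erase.1 hq
    exact PID.not_dvd_of_ne hb hB (X.pr q hq2).1 (X.pr q hq2).2 (fun e => hq1 e.symm) h1
  have e3 : v.valuation KI (emK (st b)) = WithZero.exp (-1) := by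
    unfold st
    split_ifs
    · exact PID.val_self hv
    · rw [map_neg, Valuation.map_neg]
      exact PID.val_self hv
  rw [X.he, e1, map_mul, map_mul, e3, (PID.val_eq_one_iff hv _).2 e2, mul_one]

/-- the valuation of `D` at `q ∈ T` -/
theorem z1_val_D {b : Gi} (hbT : b ∈ T) {v : HeightOneSpectrum (𝓞 KI)} (hv : v.asIdeal = Ideal.span {eG b}) :
    v.valuation KI (emK (Dd s t S a)) = 1 := by
  obtain ⟨hb, hB⟩ := X.pr b hbT
  have hS := (QTD.good_adm X.good).1
  have hbS : b ∉ S := fun h => Finset.disjoint_left.1 X.disj h hbT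
  refine QTD.val_d_one hS v (F9g_span_la hb hB hv) ?_
  intro p hp
  exact F9g_span_ne hb hB (hS p hp).1 (hS p hp).2 (fun e => hbS (e ▸ hp)) hv

/-- the three types of places -/
theorem tri_all (v : HeightOneSpectrum (𝓞 KI)) : QTB.Tri X.Q (emK (Dd s t S a)) v := by
  have hS := (QTD.good_adm X.good).1
  rcases PI.gen_cases (v := v) with hv | ⟨b, hb, hB, hv⟩
  · right; left
    have h1 : v = vla := HeightOneSpectrum.ext hv
    rw [X.he, h1]
    exact isSquare_of_Sq vla (Sq_la X.pr X.cl0)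
  have h2 := z1_two hb hB hv
  by_cases hbT : b ∈ T
  · -- ramified
    right; right
    refine ⟨h2, ?_⟩
    have hd := z1_val_D X hbT hv
    have hbD : ¬ b ∣ Dd s t S a := (PID.val_eq_one_iff hv _).1 hd
    refine QTB.hv_ram v hd (n := -1) ⟨-1, by norm_num⟩ ?_ ?_
    · exact z1_val_m X hbT hv
    · exact z1_ns hv hbD (by rw [X.nice b hbT]; exact one_ne_zero)
  by_cases hbS : b ∈ S
  · by_cases ha : Odd (a b)
    · right; right
      refine ⟨h2, ?_⟩
      obtain ⟨D', hD, hpD', -⟩ := QTD.Dd_split (s := s) (t := t) (a := a) hS ⟨b, hbS⟩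
      refine fun x _ hx _ => QTB.hv_odd v (n := -(a b : ℤ)) (Odd.neg (by exact_mod_cast ha)) ?_ x hx
      rw [hD, map_mul, map_mul, map_pow, map_pow, (PID.val_eq_one_iff hv _).2 hpD', mul_one]
      show v.valuation KI (emK b) ^ a b = _
      rw [PID.val_self hv, ← WithZero.exp_nsmul]
      norm_num
    · by_cases hSq : Sq v X.Q.e
      · right; left
        exact isSquare_of_Sq v hSq
      · right; right
        refine ⟨h2, ?_⟩
        obtain ⟨D', hD, hpD', hsD⟩ := QTD.Dd_split (s := s) (t := t) (a := a) hS ⟨b, hbS⟩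
        have h4 : sy D' b ≠ 0 := by
          have h5 := QTD.diag_one X.good ⟨b, hbS⟩ ha
          have h6 : QT.LM s t S a ⟨b, hbS⟩ ⟨b, hbS⟩ = sy D' b := by
            rw [hsD]
            unfold QT.LM
            rw [if_pos rfl]
          rw [← h6, h5]
          exact one_ne_zero
        have h7 : a b = 2 := QTD.not_odd_two X.good hbS ha
        have hD' : emK (Dd s t S a) = emK b ^ 2 * emK D' := by
          rw [← map_pow, ← map_mul, hD]
          simp only [h7]
        refine QTB.hv_two v (PID.val_self hv) hD' ((PID.val_eq_one_iff hv _).2 hpD') ?_ (z1_ns hv hpD' h4)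
        rw [X.he]
        exact (PID.val_eq_one_iff hv _).2 (z1_mT_not X hb hB hbT)
  · left
    refine ⟨h2, ?_, ?_⟩
    · refine QTD.val_d_one hS v (F9g_span_la hb hB hv) ?_
      intro p hp
      exact F9g_span_ne hb hB (hS p hp).1 (hS p hp).2 (fun e => hbS (e ▸ hp)) hv
    · intro P hP x
      refine QTF.val_up X.Q ?_ hP.symm x
      rw [X.he]
      refine Ur_of X.pr X.cl0 v ?_
      intro q hq
      exact F9g_span_ne hb hB (X.pr q hq).1 (X.pr q hq).2 (fun e => hbT (e ▸ hq)) hv

end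

end QTC
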