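import Pool.Agent.QTB.Z1
import Pool.Agent.QTB.S15d
import Pool.Agent.QTB.S14a
import Pool.Agent.QTB.S11c
import Pool.Agent.QTB.F9f
import Pool.Agent.QTB.F9h
import Pool.Agent.QTB.F1c
import Pool.Agent.QTB.G0
import Pool.Agent.QTB.G5
import Pool.Agent.QTB.H3a
import Pool.Agent.QTF.T2
import Pool.Agent.QTF.B
import Pool.Agent.QT.FinalD
import Pool.Agent.QTF.M
import Pool.Agent.PI.D14

/-!
# [QTB-Z2] the Tate–Shafarevich group over `F`
-/

set_option autoImplicit false

open NumberField IsDedekindDomain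
open scoped Classical

namespace QTC

open PI (Gi sy ii la Prim emK eG KI la_prime pl)
open QT (st Dd Adm bD gD Good)
open QTD (LocB cl vla)
open TU (QS Ur Sq Od)

section
variable {s t : ℕ} {S : Finset Gi} {a : Gi → ℕ} {T : Finset Gi} {F : Type} [Field F] [NumberField F] [Algebra KI F]
  (X : Dat s t S a T F)
include X

theorem z2_ne_T : T.Nonempty := by
  rw [Finset.nonempty_iff_ne_empty]
  intro h
  have h1 : X.Q.e = 1 := by
    rw [X.he, h]
    unfold mT
    rw [Finset.prod_empty, map_one]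
  have h2 : (X.Q.s - 1) * (X.Q.s + 1) = 0 := by
    have h3 := X.Q.hs
    rw [h1, map_one] at h3
    linear_combination h3
  rcases mul_eq_zero.1 h2 with h3 | h3
  · apply X.Q.ns 1
    rw [map_one]
    linear_combination -h3
  · apply X.Q.ns (-1)
    rw [map_neg, map_one]
    linear_combination -h3

/-- the twist by `m` is good -/
theorem z2_twist : ∃ a', Good s t (S ∪ T) a' ∧ Dd s t (S ∪ T) a' = Dd s t S a * mT T ^ 2 := by
  obtain ⟨a', h1, h2⟩ := QTF.good_union X.good T X.pr X.disj X.nice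
  refine ⟨a', h1, ?_⟩
  rw [h2]
  congr 1
  unfold mT
  rw [← Finset.prod_pow, ← Finset.prod_pow]
  refine Finset.prod_congr rfl fun q _ => ?_
  unfold st
  split_ifs
  · rfl
  · rw [neg_sq]

theorem z2_D_ne : emK (Dd s t S a) ≠ 0 := PID.emK_ne (QTD.Dd_ne (QTD.good_adm X.good).1)

theorem z2_sel : QTD.SelTriv KI (emK (Dd s t S a) * X.Q.e ^ 2) := by
  obtain ⟨a', h1, h2⟩ := z2_twist X
  have h3 := QTD.selTriv h1
  rw [h2, map_mul, map_pow, ← X.he] at h3
  exact h3

theorem z2_fin : Finite (EF s t S a F).toAffine.Point := by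
  obtain ⟨a', h1, h2⟩ := z2_twist X
  have e1 : QTF.V (algebraMap (𝓞 KI) (𝓞 F) (eG (Dd s t S a))) (algebraMap KI F 1) = EF s t S a F := by
    unfold QTF.V EF
    rw [map_one, one_pow, mul_one]
    rfl
  rw [← e1]
  refine QTF.finite_up (QTF.loc_base X.good).ne X.Q one_ne_zero ?_ ?_
  · unfold QTF.V
    rw [one_pow, mul_one]
    exact (QT.final_D X.good).2.1
  · have h3 := (QT.final_D h1).2.1
    rw [h2] at h3
    unfold QTF.V
    rw [one_mul, X.he]
    rw [map_mul, map_pow] at h3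
    exact h3

theorem z2_ns : ¬ IsSquare (emK (Dd s t S a)) := by
  obtain ⟨b, hbT⟩ := z2_ne_T X
  obtain ⟨hb, hB⟩ := X.pr b hbT
  rintro ⟨r, hr⟩
  set v := pl b hb with hv
  have hv' : v.asIdeal = Ideal.span {eG b} := rfl
  have h1 := z1_val_D X hbT hv'
  have hbD : ¬ b ∣ Dd s t S a := (PID.val_eq_one_iff hv' _).1 h1
  have h2 : v.valuation KI r = 1 := by
    rw [hr, map_mul, ← pow_two] at h1
    rcases lt_trichotomy (v.valuation KI r) 1 with h | h | h
    · exact absurd h1 (pow_lt_one₀ zero_le h two_ne_zero).ne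
    · exact h
    · exact absurd h1 (one_lt_pow₀ h two_ne_zero).ne'
  have h3 := z1_ns hv' hbD (by rw [X.nice b hbT]; exact one_ne_zero) (algebraMap KI (v.adicCompletion KI) r)
    ((HeightOneSpectrum.valuedAdicCompletion_eq_valuation' v r).trans h2)
  rw [← map_pow, hr, pow_two, sub_self, map_zero] at h3
  exact zero_ne_one h3

theorem z2_ns' : ¬ IsSquare (X.Q.e * emK (Dd s t S a)) := by
  obtain ⟨b, hbT⟩ := z2_ne_T X
  obtain ⟨hb, hB⟩ := X.pr b hbT
  rintro ⟨r, hr⟩
  set v := pl b hb with hv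
  have hv' : v.asIdeal = Ideal.span {eG b} := rfl
  have h1 := z1_val_D X hbT hv'
  have h2 := z1_val_m X hbT hv'
  have h3 : v.valuation KI (X.Q.e * emK (Dd s t S a)) = WithZero.exp (-1) := by
    rw [map_mul, h1, h2, mul_one]
  rw [hr, map_mul, ← pow_two] at h3
  exact PID.d14_exp _ h3.symm

/-- **the Tate–Shafarevich group over `F`** -/
theorem sha_F : Finite (EF s t S a F).toAffine.Point ∧
    (∃ k, Odd k ∧ Nat.card (EF s t S a F).toAffine.Point = 2 * k) ∧
    4 * Nat.card {x : SBSD.Sha (EF s t S a F) // ∃ k : ℕ, 2 ^ k • x = 0} = 2 ^ (nF S a T + T.card) ∧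
    ∀ (x : SBSD.Sha (EF s t S a F)) (k : ℕ), 2 ^ k • x = 0 → 2 • x = 0 := by
  have hd := z2_D_ne X
  have hdF : algebraMap KI F (emK (Dd s t S a)) ≠ 0 := (map_ne_zero _).2 hd
  have hfin := z2_fin X
  have hns := z2_ns X
  have hns' := z2_ns' X
  have hj : (emK ii) ^ 2 = -1 := PID.emK_ii
  have hO : ∀ p ∈ SO S a ∪ T, Prime p ∧ Prim p := by
    intro p hp
    rcases Finset.mem_union.1 hp with h | h
    · exact (QTD.good_adm X.good).1 p (SO_sub h)
    · exact X.pr p h
  have hsha := QTB.sha_card X.Q hd hdF hj (QTD.selTriv X.good) (z2_sel X) (tri_all X) hfin hns hns'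
    (V := V (SO S a ∪ T)) rep (fun z => F9g_rep_ne hO z)
    (fun c hc h => exists_rep hO c hc (fun v h1 h2 => InA_even X hc h v h1 h2))
  have hcard := card_InA X (fun b b' hb hb' h h' => QTB.locB_mul hd hj h h')
  refine ⟨hfin, ?_, ?_, hsha.2⟩
  · have hnsF : ¬ IsSquare (algebraMap KI F (emK (Dd s t S a))) := by
      rw [QTB.sq_up X.Q]
      rintro (h | h)
      · exact hns h
      · exact hns' h
    obtain ⟨m, hm, h⟩ := QTB.card_odd (F := F) hdF (j := algebraMap KI F (emK ii))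
      (by rw [← map_pow, hj, map_neg, map_one]) hfin hnsF
    exact ⟨m, hm, h⟩
  · exact hsha.1.trans hcard

end

end QTC
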