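import Pool.Agent.QTB.Z2
import Pool.Agent.QTB.H1b
import Pool.Agent.QTB.H2a
import Pool.Agent.QTB.H2c
import Pool.Agent.QTB.G9b

/-!
# [QTB-Z3] the `2`-part of the conjecture of Birch and Swinnerton-Dyer with non-trivial Tate–Shafarevich groups
-/

set_option autoImplicit false

open NumberField IsDedekindDomain
open scoped Classical

namespace QTC

open PI (Gi sy ii la Prim emK eG KI la_prime pl)
open QT (st Dd Adm bD gD Good)
open QTD (LocB cl vla)
open TU (QS Ur Sq Od)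

/-- The conjecture of Birch and Swinnerton-Dyer up to the primes `≠ 2`, with a Tate–Shafarevich group whose `2`-primary part is killed by `2` and has `2 ^ e` elements:
`W` is an elliptic curve, `W(F)` is finite, the `L`-series extends to an entire function `L` whose order of vanishing at `1` is the rank of `W(F)`, `L(1) ≠ 0`,
the elements of `Ш(W/F)` of `2`-power order are killed by `2` and there are exactly `2 ^ e` of them, and `L(1) √|Δ(F)| |W(F)_tors|² / (Ω(W) ∏ c_v)` is a nonzero rational number with `2`-adic valuation `e`. -/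
def ShaPart {F : Type} [Field F] [NumberField F] (W : WeierstrassCurve F) (e : ℕ) : Prop :=
  W.IsElliptic ∧ Finite W.toAffine.Point ∧
    ∃ L : ℂ → ℂ, SBSD2.IsEntireLSeries W L ∧
      analyticOrderAt L 1 = Module.finrank ℤ W.toAffine.Point ∧ L 1 ≠ 0 ∧
      (∀ (x : SBSD.Sha W) (k : ℕ), 2 ^ k • x = 0 → 2 • x = 0) ∧
      Nat.card {x : SBSD.Sha W // 2 • x = 0} = 2 ^ e ∧
      ∃ q : ℚ, q ≠ 0 ∧ padicValRat 2 q = e ∧ SBSD2.bsdQuotient W (L 1) = q

theorem ef_map' (s t : ℕ) (S : Finset Gi) (a : Gi → ℕ) (F : Type) [Field F] [NumberField F] [Algebra KI F] :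
    EF s t S a F = (QT.W ((eG (Dd s t S a) : 𝓞 KI) : KI)).map (algebraMap KI F) := by
  unfold EF QT.W
  ext <;> simp [WeierstrassCurve.map] <;> rfl

section
variable {s t : ℕ} {S : Finset Gi} {a : Gi → ℕ} {T : Finset Gi} {F : Type} [Field F] [NumberField F] [Algebra KI F]
  (X : Dat s t S a T F)
include X

theorem ef_elliptic : (EF s t S a F).IsElliptic := by
  have h1 := QTS.z1_elliptic (Dd s t S a) (QTD.Dd_ne (QTD.good_adm X.good).1)
  rw [ef_map' s t S a F]
  infer_instance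

theorem main_dat : ∃ e : ℕ, e + 2 = nF S a T + T.card ∧ ShaPart (EF s t S a F) e := by
  obtain ⟨hfin, hk, hcard, hexp⟩ := sha_F X
  obtain ⟨L, hL, hord, hL1, q, hq0, hq, hquot⟩ := quot_F X hfin hk
  have hle : 2 ≤ nF S a T + T.card := by
    by_contra hlt
    have h1 : nF S a T + T.card = 0 ∨ nF S a T + T.card = 1 := by omega
    rcases h1 with h1 | h1
    · rw [h1] at hcard
      omega
    · rw [h1] at hcard
      omega
  obtain ⟨e, he⟩ := Nat.exists_eq_add_of_le' hle
  refine ⟨e, he.symm, ?_, hfin, L, hL, hord, hL1, hexp, ?_, q, hq0, ?_, hquot⟩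
  · exact ef_elliptic X
  · rw [he, pow_add] at hcard
    have h2 : Nat.card {x : SBSD.Sha (EF s t S a F) // ∃ k : ℕ, 2 ^ k • x = 0} = 2 ^ e := by omega
    rw [← h2]
    refine Nat.card_congr (Equiv.subtypeEquivRight fun x => ⟨fun h => ⟨1, by rwa [pow_one]⟩, fun ⟨k, hk⟩ => hexp x k hk⟩)
  · rw [hq]
    have h3 : ((nF S a T + T.card : ℕ) : ℤ) = ((e + 2 : ℕ) : ℤ) := by rw [he]
    push_cast at h3
    omega

end

/-- **the theorem** for quadratic extensions -/
theorem main {s t : ℕ} {S : Finset Gi} {a : Gi → ℕ} (h : Good s t S a) (F : Type) [Field F] [NumberField F]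
    [Algebra KI F] (h2 : Module.finrank KI F = 2)
    (hram : ∀ (v : HeightOneSpectrum (𝓞 KI)) (P : HeightOneSpectrum (𝓞 F)),
      v.asIdeal.map (algebraMap (𝓞 KI) (𝓞 F)) ≤ P.asIdeal ^ 2 → QTF.NP (eG (Dd s t S a) : 𝓞 KI) v)
    (hsp : ∃ w w' : HeightOneSpectrum (𝓞 F), w ≠ w' ∧ (2 : 𝓞 F) ∈ w.asIdeal ∧ (2 : 𝓞 F) ∈ w'.asIdeal) :
    ∃ e : ℕ, e + 2 = {v : HeightOneSpectrum (𝓞 KI) | OddInert (eG (Dd s t S a) : 𝓞 KI) F v}.ncard +
        {v : HeightOneSpectrum (𝓞 KI) | Ramified F v}.ncard ∧ ShaPart (EF s t S a F) e := by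
  obtain ⟨T, ⟨X⟩⟩ := exists_dat h F h2 hram hsp
  rw [card_ram X, card_inert X]
  exact main_dat X

end QTC
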