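import Pool.Agent.QTB.Z3
import Pool.Agent.QTB.H3c
import Pool.Agent.QTB.J1
import Pool.Agent.QTB.J2
import Pool.Agent.QTF.X4

/-!
# [QTB-Z4] many ramified primes; a positive proportion for each field
-/

set_option autoImplicit false

open NumberField IsDedekindDomain
open scoped Classical

namespace QTC

open PI (Gi sy ii la Prim emK eG KI la_prime pl)
open QT (st Dd Adm bD gD Good quarA quarB)
open QTD (LocB cl vla)
open TU (QS Ur Sq Od)
open PI (OPi)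

/-- the `D` for which `F` is special -/
def Spec (s t : ℕ) (S : Finset Gi) (a : Gi → ℕ) (F : Type) [Field F] [NumberField F] [Algebra KI F] : Prop :=
  Module.finrank KI F = 2 ∧
    (∀ (v : HeightOneSpectrum (𝓞 KI)) (P : HeightOneSpectrum (𝓞 F)),
      v.asIdeal.map (algebraMap (𝓞 KI) (𝓞 F)) ≤ P.asIdeal ^ 2 → QTF.NP (eG (Dd s t S a) : 𝓞 KI) v) ∧
    ∃ w w' : HeightOneSpectrum (𝓞 F), w ≠ w' ∧ (2 : 𝓞 F) ∈ w.asIdeal ∧ (2 : 𝓞 F) ∈ w'.asIdeal

theorem spec_of_dat {s t : ℕ} {S : Finset Gi} {a : Gi → ℕ} {T : Finset Gi} {F : Type} [Field F] [NumberField F]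
    [Algebra KI F] (X : Dat s t S a T F) : Spec s t S a F :=
  ⟨QS_finrank X.Q, fun v P h => nice_of_dat X v P h, two_places X⟩

/-- quadratic extensions with many ramified primes -/
theorem many_fields {s t : ℕ} {S : Finset Gi} {a : Gi → ℕ} (h : Good s t S a) (N : ℕ) :
    ∃ (F : Type) (_ : Field F) (_ : NumberField F) (_ : Algebra KI F), Spec s t S a F ∧
      N ≤ {v : HeightOneSpectrum (𝓞 KI) | Ramified F v}.ncard := by
  obtain ⟨F, i1, i2, i3, T, ⟨X⟩, hN⟩ := exists_fields h N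
  refine ⟨F, i1, i2, i3, spec_of_dat X, ?_⟩
  rw [card_ram X]
  exact hN

/-- a quadratic extension with two primes above `2` is `K(√m)`, `m = ∏ q*` -/
theorem exists_mT (F : Type) [Field F] [NumberField F] [Algebra KI F] (h2 : Module.finrank KI F = 2)
    (hsp : ∃ w w' : HeightOneSpectrum (𝓞 F), w ≠ w' ∧ (2 : 𝓞 F) ∈ w.asIdeal ∧ (2 : 𝓞 F) ∈ w'.asIdeal) :
    ∃ T : Finset Gi, T.Nonempty ∧ (∀ q ∈ T, Prime q ∧ Prim q) ∧ cl (mT T) 0 0 ∧ ∃ Q : QS KI F, Q.e = emK (mT T) := by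
  obtain ⟨c, hc, X0, hX⟩ := QTF.dens_field F (two_unram F h2 hsp)
  have h1 := hX (X0 + 1) (Nat.le_succ _)
  have hA : 0 < (quarA (X0 + 1)).ncard := by
    refine (Set.ncard_pos ((PI.cb_finite_norm (X0 + 1)).subset fun D hD => hD.2.2)).2 ⟨1, one_ne_zero, fun q hq h => ?_, ?_⟩
    · exact hq.not_unit (isUnit_of_dvd_one ((dvd_pow_self q (by norm_num)).trans h))
    · rw [Zsqrtd.norm_one]
      push_cast
      omega
  have h3 : 0 < ({D : Gi | D ∈ quarB (X0 + 1) ∧ ∀ (v : HeightOneSpectrum (𝓞 KI)) (P : HeightOneSpectrum (𝓞 F)),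
        v.asIdeal.map (algebraMap (𝓞 KI) (𝓞 F)) ≤ P.asIdeal ^ 2 → QTF.NP (eG D) v} : Set Gi).ncard := by
    have h4 : (0 : ℝ) < c * ((quarA (X0 + 1)).ncard : ℝ) := mul_pos hc (by exact_mod_cast hA)
    exact_mod_cast h4.trans_le h1
  obtain ⟨D, ⟨hD, s, t, S, a, hG, rfl⟩, hram⟩ := (Set.ncard_pos (Set.finite_of_ncard_pos h3)).1 h3
  obtain ⟨T, ⟨X⟩⟩ := exists_dat hG F h2 hram hsp
  exact ⟨T, z2_ne_T X, X.pr, X.cl0, X.Q, X.he⟩

/-- **a positive proportion for each field**, with a large Tate–Shafarevich group -/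
theorem dens_sha (F : Type) [Field F] [NumberField F] [Algebra KI F] (h2 : Module.finrank KI F = 2)
    (hsp : ∃ w w' : HeightOneSpectrum (𝓞 F), w ≠ w' ∧ (2 : 𝓞 F) ∈ w.asIdeal ∧ (2 : 𝓞 F) ∈ w'.asIdeal) (N : ℕ) :
    ∃ c : ℝ, 0 < c ∧ ∃ X0 : ℕ, ∀ X : ℕ, X0 ≤ X → c * ((quarA X).ncard : ℝ) ≤
      (({D : Gi | D ∈ quarA X ∧ ∃ (s t : ℕ) (S : Finset Gi) (a : Gi → ℕ), Good s t S a ∧ D = Dd s t S a ∧
        Spec s t S a F ∧ N ≤ {v : HeightOneSpectrum (𝓞 KI) | OddInert (eG D : 𝓞 KI) F v}.ncard} : Set Gi).ncard : ℝ) := by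
  obtain ⟨T, hTne, hT, h0, Q, hQ⟩ := exists_mT F h2 hsp
  obtain ⟨P, hP, hPc⟩ := (infinite_inert hT hTne).exists_subset_card_eq N
  have hPp : ∀ p ∈ P, Prime p ∧ Prim p ∧ p ∉ T ∧ sy (mT T) p = 1 := fun p hp => hP hp
  set A : Finset OPi := T.subtype fun p => Prime p ∧ Prim p with hA
  set R : Finset OPi := (T ∪ P).subtype fun p => Prime p ∧ Prim p with hR
  have hAR : A ⊆ R := by
    intro v hv
    rw [hR, Finset.mem_subtype]
    rw [hA, Finset.mem_subtype] at hv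
    exact Finset.mem_union_left _ hv
  obtain ⟨c, hc, X0, h⟩ := dens_fixed2 hAR
  obtain ⟨C, hC, hAub⟩ := QT.ncard_quarA_le_mul
  refine ⟨c / C, by positivity, X0, fun X hX => ?_⟩
  have h1 : c / C * ((quarA X).ncard : ℝ) ≤ c * X := by
    have := hAub X
    rw [div_mul_eq_mul_div, div_le_iff₀ hC]
    calc c * ((quarA X).ncard : ℝ) ≤ c * (C * X) := mul_le_mul_of_nonneg_left this hc.le
      _ = c * X * C := by ring
  refine h1.trans ((h X hX).trans ?_)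
  have hfin : (quarA X).Finite := (PI.cb_finite_norm X).subset fun D hD => hD.2.2
  refine Nat.cast_le.2 (Set.ncard_le_ncard (fun D hD => ?_) (hfin.subset fun D hD => hD.1))
  obtain ⟨s, t, S, a, hG, hDd, hX', hρ, hρ'⟩ := hD
  have hadm := QTD.good_adm hG
  have hdisj : Disjoint S T := by
    rw [Finset.disjoint_left]
    intro q hqS hqT
    exact (hρ ⟨q, hT q hqT⟩ (by rw [hA, Finset.mem_subtype]; exact hqT)).1 hqS
  have hnice : ∀ q ∈ T, sy (Dd s t S a) q = 1 := by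
    intro q hqT
    have := (hρ ⟨q, hT q hqT⟩ (by rw [hA, Finset.mem_subtype]; exact hqT)).2
    rwa [hDd] at this
  let Y : Dat s t S a T F := ⟨hG, hT, hdisj, hnice, h0, Q, hQ⟩
  refine ⟨⟨?_, fun q hq => ?_, hX'⟩, s, t, S, a, hG, hDd, spec_of_dat Y, ?_⟩
  · rw [hDd]
    exact QT.Dd_ne s t S a hadm
  · rw [hDd]
    exact QT.Dd_free s t S a hadm hq
  · rw [hDd, card_inert Y, ← hPc]
    refine Finset.card_le_card fun p hp => ?_
    obtain ⟨hp1, hp2, hpT, hp3⟩ := hPp p hp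
    have h4 := hρ' ⟨p, hp1, hp2⟩ (by rw [hR, Finset.mem_subtype]; exact Finset.mem_union_right _ hp)
      (by rw [hA, Finset.mem_subtype]; exact hpT)
    rw [Finset.mem_filter, mem_SO]
    exact ⟨h4, by rw [hp3]; exact one_ne_zero⟩

end QTC
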